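import Pool.Agent.R999.Mol

/-!
# Energies of neutral molecules as minima, and the far-field gain
-/

set_option autoImplicit false

namespace Pool.Agent.R999.Ex

open MeasureTheory Set Filter Topology Metric
open Pool.Agent.TH791.Cl Pool.Agent.TH791.Nw Pool.Agent.R999.Pot Pool.Agent.R999.MinP
open Pool.Agent.R999.Newton
open scoped ENNReal

variable {ι : Type*} [Fintype ι]

lemma dens_md {ρ : E3 → ℝ} (h : TFMin.Dens ρ) : ∃ g, MD g ∧ ρ =ᵐ[volume] g := by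
  obtain ⟨g, hg, hge⟩ := h.rep
  refine ⟨fun x => max (g x) 0, Nice.md (nice_of_le (hg.1.max measurable_const) hg fun x => ?_)
    (fun x => le_max_right _ _), ?_⟩
  · rw [abs_of_nonneg (le_max_right _ _)]
    exact max_le (le_abs_self _) (abs_nonneg _)
  · filter_upwards [hge] with x hx
    rw [← hx, max_eq_left (h.nonneg x)]

lemma energy_congr {γ : ℝ} {V ρ g : E3 → ℝ} (h : ρ =ᵐ[volume] g) :
    TFMin.energy γ V ρ = TFMin.energy γ V g := by
  unfold TFMin.energy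
  have e1 : ∫ x, ρ x ^ (5/3 : ℝ) = ∫ x, g x ^ (5/3 : ℝ) :=
    integral_congr_ae (h.mono fun x hx => by
      show ρ x ^ (5/3 : ℝ) = g x ^ (5/3 : ℝ)
      rw [hx])
  have e2 : ∫ x, V x * ρ x = ∫ x, V x * g x :=
    integral_congr_ae (h.mono fun x hx => by
      show V x * ρ x = V x * g x
      rw [hx])
  have e3 : ∫ x, ∫ y, ρ x * ρ y / ‖x - y‖ = ∫ x, ∫ y, g x * g y / ‖x - y‖ := by
    rw [TFMin.Dens.dbl, TFMin.Dens.dbl]
    refine integral_congr_ae (h.mono fun x hx => ?_)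
    show ρ x * pot ρ x = g x * pot g x
    rw [hx, TFMin.pot_congr h]
  rw [e1, e2, e3]

/-- the neutral energy is attained -/
theorem least {γ : ℝ} (hγ : 0 < γ) {z : ι → ℝ} {R : ι → E3} {ρ : E3 → ℝ} (h : TFs γ z R ρ) :
    IsLeast {e : ℝ | ∃ σ, TFMin.Dens σ ∧ ∫ x, σ x = ∑ j, z j ∧
      TFMin.energy γ (Vn z R) σ + UU z R = e} (FE γ z R ρ) := by
  constructor
  · refine ⟨ρ, h.md.dens, h.mass, ?_⟩
    rw [energy_eq γ z R h.md.nice]; rfl
  · rintro e ⟨σ, h1, -, rfl⟩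
    obtain ⟨g, hg, hge⟩ := dens_md h1
    rw [energy_congr hge, energy_eq γ z R hg.nice]
    unfold FE
    have := h.min hγ hg
    linarith

lemma UU_eq [DecidableEq ι] (z : ι → ℝ) (R : ι → E3) :
    UU z R = 1/2 * ∑ i, ∑ j ∈ Finset.univ.erase i, z i * z j / ‖R i - R j‖ := by
  unfold UU
  congr 1
  refine Finset.sum_congr rfl fun i _ => ?_
  rw [← Finset.add_sum_erase _ _ (Finset.mem_univ i)]
  simp

/-- lower bound of a Thomas-Fermi density on far shells -/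
lemma TFs.dens_ge {γ : ℝ} (hγ : 0 < γ) {z : ι → ℝ} (hz : ∀ j, 0 ≤ z j) {R : ι → E3}
    {ρ : E3 → ℝ} (h : TFs γ z R ρ) {j0 : ι} (hj0 : 0 < z j0) :
    ∃ c : ℝ, 0 < c ∧ ∀ᵐ x, 1 ≤ ‖x - R j0‖ → c / ‖x - R j0‖ ^ 6 ≤ ρ x := by
  obtain ⟨c, hc, hl⟩ := h.lower hγ hz hj0
  refine ⟨(c / γ) ^ (3/2 : ℝ), by positivity, ?_⟩
  filter_upwards [h.eq, nuc_null R] with x hx hn h1
  rw [pow_inv hγ (h.md.nonneg x) hx]
  have h0 : 0 < ‖x - R j0‖ := by linarith
  have h2 := hl x (fun j _ => hn j) h1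
  have h3 : (c / γ) ^ (3/2 : ℝ) / ‖x - R j0‖ ^ 6 = (c / ‖x - R j0‖ ^ 4 / γ) ^ (3/2 : ℝ) := by
    have e1 : c / ‖x - R j0‖ ^ 4 / γ = (c / γ) / ‖x - R j0‖ ^ 4 := by field_simp
    rw [e1, Real.div_rpow (x := c / γ) (y := ‖x - R j0‖ ^ 4) (by positivity) (by positivity)]
    congr 1
    rw [← Real.rpow_natCast, ← Real.rpow_natCast, ← Real.rpow_mul h0.le]
    norm_num
  rw [h3]
  refine Real.rpow_le_rpow (by positivity) ?_ (by norm_num)
  exact div_le_div_of_nonneg_right h2 hγ.le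

/-- a quantitative overlap -/
lemma gain_lo {f g : E3 → ℝ} (hf : MD f) (hg : MD g) {l K : ℝ} (hl : 0 < l) (hK : 0 < K) (P : E3)
    (h1 : ∀ᵐ x, x ∈ ball P l → K / l ^ 6 ≤ f x) (h2 : ∀ᵐ x, x ∈ ball P l → K / l ^ 6 ≤ g x) :
    4/3 * Real.pi * K ^ (5/3 : ℝ) / l ^ 7 ≤ ∫ x, (min (f x) (g x)) ^ (5/3 : ℝ) := by
  have hm := min_md hf hg
  have h3 : ∀ᵐ x, (ball P l).indicator (fun _ => (K / l ^ 6) ^ (5/3 : ℝ)) x ≤
      (min (f x) (g x)) ^ (5/3 : ℝ) := by
    filter_upwards [h1, h2] with x a b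
    by_cases hx : x ∈ ball P l
    · rw [indicator_of_mem hx]
      exact Real.rpow_le_rpow (by positivity) (le_min (a hx) (b hx)) (by norm_num)
    · rw [indicator_of_notMem hx]
      exact Real.rpow_nonneg (le_min (hf.nonneg x) (hg.nonneg x)) _
  have h4 : Integrable ((ball P l).indicator (fun _ : E3 => (K / l ^ 6) ^ (5/3 : ℝ))) :=
    (integrable_indicator_iff measurableSet_ball).2
      (integrableOn_const (measure_ball_lt_top).ne)
  have h5 := integral_mono_ae h4 hm.int_pow h3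
  rw [integral_indicator measurableSet_ball, setIntegral_const, smul_eq_mul] at h5
  have h6 : volume.real (ball P l) = 4/3 * Real.pi * l ^ 3 := ball_vol P hl
  rw [h6] at h5
  refine le_trans (le_of_eq ?_) h5
  have e1 : (K / l ^ 6) ^ (5/3 : ℝ) = K ^ (5/3 : ℝ) / l ^ 10 := by
    rw [Real.div_rpow hK.le (by positivity)]
    congr 1
    rw [← Real.rpow_natCast, ← Real.rpow_natCast, ← Real.rpow_mul hl.le]
    norm_num
  rw [e1]
  field_simp

end Pool.Agent.R999.Ex
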