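import Pool.Agent.R999.IonTF

/-!
# The neutral atom and the ion as Thomas-Fermi minimisers
-/

set_option autoImplicit false

namespace Pool.Agent.R999.IonTF

open MeasureTheory Set Filter Topology Metric
open Pool.Agent.TH791.Cl Pool.Agent.R999.FAf Pool.Agent.R999.Newton Pool.Agent.R999.Ion
open Pool.Agent.R999.TFMin
open scoped ENNReal

lemma pot_shift (f : E3 → ℝ) (a x : E3) : pot (fun y => f (y - a)) x = pot f (x - a) := by
  unfold pot
  have := integral_sub_right_eq_self (μ := (volume : Measure E3)) (fun y => f y / ‖x - a - y‖) a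
  rw [← this]
  refine integral_congr_ae (ae_of_all _ fun y => ?_)
  show f (y - a) / ‖x - y‖ = f (y - a) / ‖x - a - (y - a)‖
  congr 2
  abel

lemma dens_shift {f : E3 → ℝ} (h : Dens f) (a : E3) : Dens (fun x => f (x - a)) :=
  ⟨fun x => h.nonneg _, h.int.comp_sub_right a, h.int_pow.comp_sub_right a⟩

/-- scale -/
noncomputable def sc (γ : ℝ) : ℝ := 3 * γ / Real.pi

lemma sc_pos {γ : ℝ} (hγ : 0 < γ) : 0 < sc γ := by
  unfold sc; have := Real.pi_pos; positivity

lemma sc_eq (γ : ℝ) : sc γ ^ 3 * (Real.pi / 3) = γ * sc γ ^ 2 := by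
  have := Real.pi_pos
  unfold sc
  field_simp

lemma kx_le {r t : ℝ} (ht : 0 < t) (hr : 0 ≤ r) : kx r t ≤ 4 * Real.pi * t := by
  unfold kx
  have hpi := Real.pi_pos
  have hm : t ≤ max r t := le_max_right _ _
  rw [div_le_iff₀ (lt_of_lt_of_le ht hm)]
  nlinarith [mul_le_mul_of_nonneg_left hm (mul_nonneg (mul_nonneg (by norm_num : (0:ℝ) ≤ 4) hpi.le) ht.le)]

lemma kxPu {r : ℝ} (hr : 0 ≤ r) : IntegrableOn (fun t => kx r t * P (u t)) (Ioi 0) := by
  have hpi := Real.pi_pos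
  refine ((Pu_int 1 (by norm_num)).const_mul (4 * Real.pi)).mono' ?_ ?_
  · exact ((kx_meas r).mul (P_cont.measurable.comp u_meas)).aestronglyMeasurable
  · filter_upwards [ae_restrict_mem measurableSet_Ioi] with t ht
    have ht' : (0:ℝ) < t := ht
    have h1 := P_nonneg (u t)
    have h2 := kx_nonneg (t := t) hr
    rw [Real.norm_of_nonneg (by positivity)]
    calc kx r t * P (u t) ≤ 4 * Real.pi * t * P (u t) := by
          have := kx_le ht' hr
          gcongr
      _ = _ := by ring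

lemma kxm1 {r : ℝ} (hr : 0 ≤ r) : IntegrableOn (fun t => kx r t * m1 t) (Ioi 0) := by
  refine ((N1_pot hr).1.add (kxPu hr)).congr_fun (fun t ht => ?_) measurableSet_Ioi
  have ht' : (0:ℝ) < t := ht
  show kx r t * N1 t + kx r t * P (u t) = kx r t * m1 t
  rw [← m1_sub t ht'.le]; ring

/-- nuclear density -/
noncomputable def nd (γ : ℝ) (y : E3) : ℝ := sc γ ^ 3 * m1 ‖y‖
/-- neutral cloud -/
noncomputable def rZ (γ : ℝ) (y : E3) : ℝ := sc γ ^ 3 * P (u ‖y‖)
/-- ionic cloud -/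
noncomputable def rI (γ ε : ℝ) (y : E3) : ℝ := sc γ ^ 3 * P (u ‖y‖ - ds ε ‖y‖)

lemma pot_scaled {c : ℝ} {f : ℝ → ℝ} (hf : Measurable f) (x : E3) :
    pot (fun y => c * f ‖y‖) x = c * ∫ t in Ioi (0:ℝ), kx ‖x‖ t * f t := by
  rw [← pot_radial hf x]
  unfold pot
  rw [← integral_const_mul]
  refine integral_congr_ae (ae_of_all _ fun y => ?_)
  show c * f ‖y‖ / ‖x - y‖ = c * (f ‖y‖ / ‖x - y‖)
  ring

lemma Pu_meas : Measurable fun t => P (u t) := P_cont.measurable.comp u_meas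

theorem neutral_pot {γ : ℝ} (x : E3) :
    pot (nd γ) x - pot (rZ γ) x = γ * sc γ ^ 2 * u ‖x‖ := by
  have h1 : pot (nd γ) x = sc γ ^ 3 * ∫ t in Ioi (0:ℝ), kx ‖x‖ t * m1 t := pot_scaled m1_meas x
  have h2 : pot (rZ γ) x = sc γ ^ 3 * ∫ t in Ioi (0:ℝ), kx ‖x‖ t * P (u t) := pot_scaled Pu_meas x
  rw [h1, h2, ← mul_sub, ← integral_sub (kxm1 (norm_nonneg x)) (kxPu (norm_nonneg x))]
  have e : ∀ t ∈ Ioi (0:ℝ), kx ‖x‖ t * m1 t - kx ‖x‖ t * P (u t) = kx ‖x‖ t * N1 t := by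
    intro t ht
    have ht' : (0:ℝ) < t := ht
    rw [← m1_sub t ht'.le]; ring
  rw [setIntegral_congr_fun measurableSet_Ioi e, (N1_pot (norm_nonneg x)).2, ← sc_eq]
  ring

theorem ion_pot {γ ε : ℝ} (hε : 0 ≤ ε) (x : E3) :
    pot (rZ γ) x - pot (rI γ ε) x =
      4 * Real.pi * sc γ ^ 3 * (∫ t in Ioi (0:ℝ), t ^ 1 * g (ds ε) t) + γ * sc γ ^ 2 * ε -
        γ * sc γ ^ 2 * ds ε ‖x‖ := by
  have hPm : Measurable fun t => P (u t - ds ε t) := P_cont.measurable.comp (u_meas.sub (dm hε))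
  have h1 : pot (rI γ ε) x = sc γ ^ 3 * ∫ t in Ioi (0:ℝ), kx ‖x‖ t * P (u t - ds ε t) :=
    pot_scaled hPm x
  have h2 : pot (rZ γ) x = sc γ ^ 3 * ∫ t in Ioi (0:ℝ), kx ‖x‖ t * P (u t) := pot_scaled Pu_meas x
  obtain ⟨g1, g2⟩ := g_pot hε (norm_nonneg x)
  have i3 : IntegrableOn (fun t => kx ‖x‖ t * P (u t - ds ε t)) (Ioi 0) := by
    refine ((kxPu (norm_nonneg x)).sub g1).congr_fun (fun t ht => ?_) measurableSet_Ioi
    show kx ‖x‖ t * P (u t) - kx ‖x‖ t * g (ds ε) t = _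
    unfold g; ring
  rw [h1, h2, ← mul_sub, ← integral_sub (kxPu (norm_nonneg x)) i3]
  have e : ∀ t ∈ Ioi (0:ℝ), kx ‖x‖ t * P (u t) - kx ‖x‖ t * P (u t - ds ε t) =
      kx ‖x‖ t * g (ds ε) t := by
    intro t ht
    unfold g; ring
  rw [setIntegral_congr_fun measurableSet_Ioi e, g2, ← sc_eq]
  ring

lemma P_pow (w : ℝ) : P w ^ (2/3 : ℝ) = max w 0 := by
  unfold P
  rw [← Real.rpow_mul (le_max_right _ _)]
  norm_num

lemma tf_eq {γ : ℝ} (hγ : 0 < γ) (w : ℝ) :
    γ * (sc γ ^ 3 * P w) ^ (2/3 : ℝ) = max (γ * sc γ ^ 2 * w) 0 := by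
  have hs := sc_pos hγ
  rw [Real.mul_rpow (by positivity) (P_nonneg w), P_pow]
  have h1 : (sc γ ^ 3) ^ (2/3 : ℝ) = sc γ ^ 2 := by
    rw [← Real.rpow_natCast, ← Real.rpow_mul hs.le, ← Real.rpow_natCast]
    norm_num
  rw [h1]
  have h2 : 0 < γ * sc γ ^ 2 := by positivity
  rcases le_total w 0 with h | h
  · rw [max_eq_right h, max_eq_right (mul_nonpos_of_nonneg_of_nonpos h2.le h)]
    ring
  · rw [max_eq_left h, max_eq_left (by positivity)]
    ring

lemma dens_nd {γ : ℝ} (hγ : 0 < γ) : Dens (nd γ) := by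
  have hs := sc_pos hγ
  refine dens_of_le (c := sc γ ^ 3 * 2) (f := fun t => sc γ ^ 3 * m1 t) (by positivity)
    (measurable_const.mul m1_meas) (fun t => ?_) (fun t ht => ?_)
  · unfold m1
    split_ifs with h
    · have := P_nonneg (u t); positivity
    · simp
  · unfold m1
    split_ifs with h
    · have h1 : 1 ≤ P (u t) := by
        have h2 : P 1 ≤ P (u t) := P_mono (by rw [u_lt h]; nlinarith)
        rw [P_eq zero_le_one] at h2
        simpa using h2
      have : 0 < sc γ ^ 3 := by positivity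
      nlinarith
    · have := P_nonneg (u t); simp; positivity

lemma dens_rZ {γ : ℝ} (hγ : 0 < γ) : Dens (rZ γ) := by
  have hs := sc_pos hγ
  exact dens_of_le (c := sc γ ^ 3) (f := fun t => sc γ ^ 3 * P (u t)) (by positivity)
    (measurable_const.mul Pu_meas) (fun t => by have := P_nonneg (u t); positivity)
    (fun t _ => le_rfl)

lemma dens_rI {γ ε : ℝ} (hγ : 0 < γ) (hε : 0 ≤ ε) : Dens (rI γ ε) := by
  have hs := sc_pos hγ
  refine dens_of_le (c := sc γ ^ 3) (f := fun t => sc γ ^ 3 * P (u t - ds ε t)) (by positivity)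
    (measurable_const.mul (P_cont.measurable.comp (u_meas.sub (dm hε))))
    (fun t => by have := P_nonneg (u t - ds ε t); positivity) (fun t _ => ?_)
  have := P_mono (by linarith [ds_nonneg hε t] : u t - ds ε t ≤ u t)
  gcongr

lemma mass_neutral {γ : ℝ} (hγ : 0 < γ) : ∫ y, nd γ y = ∫ y, rZ γ y := by
  have i1 := (dens_nd hγ).int
  have i2 := (dens_rZ hγ).int
  have h0 : ∫ y, (nd γ y - rZ γ y) = 0 := by
    have e : ∀ y : E3, nd γ y - rZ γ y = (fun t => sc γ ^ 3 * N1 t) ‖y‖ := by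
      intro y
      unfold nd rZ
      simp only
      rw [← m1_sub _ (norm_nonneg y)]; ring
    rw [integral_congr_ae (ae_of_all _ e), int_radial (fun t => sc γ ^ 3 * N1 t)]
    have u2 : Ioo 0 1 ∪ Ici 1 = Ioi (0:ℝ) := Ioo_union_Ici_eq_Ioi one_pos
    have e1 : ∀ t ∈ Ioo (0:ℝ) 1, t ^ 2 * (sc γ ^ 3 * N1 t) = sc γ ^ 3 * t ^ 2 := by
      intro t ht
      unfold N1
      rw [if_pos ht.2]; ring
    have e2 : ∀ t ∈ Ici (1:ℝ), t ^ 2 * (sc γ ^ 3 * N1 t) = -(sc γ ^ 3) * (1 / t ^ (3 + 1)) := by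
      intro t ht
      have ht' : (1:ℝ) ≤ t := ht
      have : 0 < t := by linarith
      unfold N1
      rw [if_neg (not_lt.2 ht')]
      field_simp
      ring
    obtain ⟨q5, q6⟩ := tailpow (k := 3) (by norm_num) one_pos
    have i3 : IntegrableOn (fun t => t ^ 2 * (sc γ ^ 3 * N1 t)) (Ioo 0 1) := by
      have : IntegrableOn (fun t : ℝ => sc γ ^ 3 * t ^ 2) (Ioo 0 1) :=
        ((Continuous.integrableOn_Icc (by fun_prop)).mono_set Ioo_subset_Icc_self)
      exact this.congr_fun (fun t ht => (e1 t ht).symm) measurableSet_Ioo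
    have i4 : IntegrableOn (fun t => t ^ 2 * (sc γ ^ 3 * N1 t)) (Ici 1) := by
      have : IntegrableOn (fun t : ℝ => -(sc γ ^ 3) * (1 / t ^ (3 + 1))) (Ici 1) := by
        rw [integrableOn_Ici_iff_integrableOn_Ioi]
        exact q5.const_mul _
      exact this.congr_fun (fun t ht => (e2 t ht).symm) measurableSet_Ici
    rw [← u2, setIntegral_union (by
        rw [Set.disjoint_left]
        intro t ht ht2
        exact absurd ht.2 (not_lt.2 ht2)) measurableSet_Ici i3 i4,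
      setIntegral_congr_fun measurableSet_Ioo e1, setIntegral_congr_fun measurableSet_Ici e2,
      integral_const_mul, integral_const_mul, integral_Ici_eq_integral_Ioi, q6,
      ← integral_Ioc_eq_integral_Ioo, ← intervalIntegral.integral_of_le zero_le_one, integral_pow]
    norm_num
  rw [integral_sub i1 i2] at h0
  linarith

lemma g_pos {ε : ℝ} (hε : 0 < ε) {t : ℝ} (ht : 0 ≤ t) : 0 < g (ds ε) t := by
  have hu := u_pos ht
  have hd := lt_of_lt_of_le hε (d_ge hε.le t)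
  unfold g
  have h1 : P (u t - ds ε t) ≤ P (max (u t - ds ε t) 0) := P_mono (le_max_left _ _)
  have h2 := P_diff_ge (a := u t) (b := max (u t - ds ε t) 0) (le_max_right _ _)
    (max_le (by linarith) hu.le)
  have h3 : 0 < u t - max (u t - ds ε t) 0 := by
    rcases max_choice (u t - ds ε t) 0 with h | h <;> rw [h] <;> linarith
  have h4 : 0 < √(u t) := Real.sqrt_pos.2 hu
  have h5 := mul_pos h4 h3
  linarith

lemma mass_lt {γ ε : ℝ} (hγ : 0 < γ) (hε : 0 < ε) : ∫ y, rI γ ε y < ∫ y, rZ γ y := by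
  have hs := sc_pos hγ
  have i1 := (dens_rZ hγ).int
  have i2 := (dens_rI hγ hε.le).int
  have hpos : ∀ y : E3, 0 < rZ γ y - rI γ ε y := by
    intro y
    have := g_pos hε (norm_nonneg y)
    unfold g at this
    unfold rZ rI
    rw [← mul_sub]
    positivity
  have h : 0 < ∫ y, (rZ γ y - rI γ ε y) := by
    rw [integral_pos_iff_support_of_nonneg (fun y => (hpos y).le) (i1.sub i2)]
    have : Function.support (fun y => rZ γ y - rI γ ε y) = univ := by
      ext y; simp only [Function.mem_support, mem_univ, iff_true]; exact (hpos y).ne'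
    rw [this]
    simp
  rw [integral_sub i1 i2] at h
  linarith

lemma mass_pos {γ ε s : ℝ} (hγ : 0 < γ) (hε : 0 < ε) (hs : 4 ≤ s) (hd : ds ε s = u s) :
    0 < ∫ y, rI γ ε y := by
  have hsc := sc_pos hγ
  rw [integral_pos_iff_support_of_nonneg (fun y => (dens_rI hγ hε.le).nonneg y) (dens_rI hγ hε.le).int]
  refine lt_of_lt_of_le (Metric.measure_ball_pos volume (0:E3) (show (0:ℝ) < 1/2 by norm_num))
    (measure_mono fun y hy => ?_)
  rw [mem_ball_zero_iff] at hy
  have h1 : ds ε ‖y‖ ≤ u s := by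
    rw [← hd]; exact ds_mono hε.le (by linarith)
  have h2 : u s ≤ 1 := by
    rw [u_ge (by linarith), div_le_one (by positivity)]
    exact one_le_pow₀ (by linarith)
  have h3 : 5/2 ≤ u ‖y‖ := by
    rw [u_lt (by linarith)]
    nlinarith [norm_nonneg y]
  have h4 : 0 < P (u ‖y‖ - ds ε ‖y‖) := by
    have h5 : P 1 ≤ P (u ‖y‖ - ds ε ‖y‖) := P_mono (by linarith)
    rw [P_eq zero_le_one] at h5
    have : (1:ℝ) * √1 = 1 := by simp
    linarith
  show rI γ ε y ≠ 0
  unfold rI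
  positivity

end Pool.Agent.R999.IonTF
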