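import Pool.Agent.R999.Ex5
import Pool.Agent.R999.IonTF2

/-!
# Comparison of Thomas-Fermi potentials and two-sided `r^{-4}` bounds
-/

set_option autoImplicit false

namespace Pool.Agent.R999.Ex

open MeasureTheory Set Filter Topology Metric
open Pool.Agent.TH791.Cl Pool.Agent.TH791.Nw Pool.Agent.R999.Pot Pool.Agent.R999.MinP
open Pool.Agent.R999.Newton
open scoped ENNReal

variable {ι : Type*} [Fintype ι]

/-- Newton's theorem for a neutral radial system -/
lemma psi_radial {g : ℝ → ℝ} (hg : Measurable g)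
    (hi : Integrable (fun y : E3 => g ‖y‖)) {x : E3} (hx : 0 < ‖x‖) :
    (∫ y : E3, g ‖y‖) / ‖x‖ - pot (fun y => g ‖y‖) x =
      ∫ t in Ioi ‖x‖, 4 * Real.pi * t / ‖x‖ * (t - ‖x‖) * g t := by
  set r := ‖x‖ with hr
  have hi2 : IntegrableOn (fun t => t ^ 2 * g t) (Ioi 0) := integrable_radial.1 hi
  have j1 : IntegrableOn (fun t => 4 * Real.pi / r * (t ^ 2 * g t)) (Ioi 0) := hi2.const_mul _
  have hpi := Real.pi_pos
  have j2 : IntegrableOn (fun t => kx r t * g t) (Ioi 0) := by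
    refine Integrable.mono' j1.norm ((kx_meas r).mul hg).aestronglyMeasurable ?_
    filter_upwards [ae_restrict_mem measurableSet_Ioi] with t ht
    have ht0 : (0:ℝ) < t := ht
    rw [norm_mul, norm_mul, norm_mul, Real.norm_of_nonneg (kx_nonneg hx.le), ← mul_assoc]
    refine mul_le_mul_of_nonneg_right ?_ (norm_nonneg _)
    rw [Real.norm_of_nonneg (by positivity), Real.norm_of_nonneg (by positivity)]
    unfold kx
    rw [div_mul_eq_mul_div]
    exact div_le_div_of_nonneg_left (by positivity) hx (le_max_left _ _)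
  have e1 : (∫ y : E3, g ‖y‖) / r = ∫ t in Ioi (0:ℝ), 4 * Real.pi / r * (t ^ 2 * g t) := by
    rw [int_radial, integral_const_mul]; ring
  have e2 : pot (fun y => g ‖y‖) x = ∫ t in Ioi (0:ℝ), kx r t * g t := pot_radial hg x
  rw [e1, e2, ← integral_sub j1 j2]
  have e3 : ∀ t ∈ Ioi (0:ℝ), 4 * Real.pi / r * (t ^ 2 * g t) - kx r t * g t =
      (Ioi r).indicator (fun t => 4 * Real.pi * t / r * (t - r) * g t) t := by
    intro t ht
    have ht0 : (0:ℝ) < t := ht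
    unfold kx
    by_cases h : r < t
    · rw [indicator_of_mem (by exact h), max_eq_right h.le]
      field_simp
    · rw [indicator_of_notMem (by exact h), max_eq_left (not_lt.1 h)]
      field_simp
      ring
  rw [setIntegral_congr_fun measurableSet_Ioi e3, setIntegral_indicator measurableSet_Ioi]
  congr 2
  rw [inter_eq_self_of_subset_right]
  exact fun t ht => lt_trans hx ht

lemma psi_nonneg {g : ℝ → ℝ} (hg : Measurable g) (h0 : ∀ t, 0 ≤ g t)
    (hi : Integrable (fun y : E3 => g ‖y‖)) {x : E3} (hx : 0 < ‖x‖) :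
    0 ≤ (∫ y : E3, g ‖y‖) / ‖x‖ - pot (fun y => g ‖y‖) x := by
  rw [psi_radial hg hi hx]
  refine setIntegral_nonneg measurableSet_Ioi fun t ht => ?_
  have h1 : ‖x‖ < t := ht
  have := h0 t
  have h2 : 0 < t := lt_trans hx h1
  have h3 : 0 ≤ t - ‖x‖ := by linarith
  have := Real.pi_pos
  positivity

lemma psi_tail {g : ℝ → ℝ} {A s : ℝ} (hs : 0 < s) (hgs : ∀ t, s < t → g t = A / t ^ 6)
    (hg : Measurable g) (_h0 : ∀ t, 0 ≤ g t)
    (hi : Integrable (fun y : E3 => g ‖y‖)) {x : E3} (hx : s ≤ ‖x‖) :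
    (∫ y : E3, g ‖y‖) / ‖x‖ - pot (fun y => g ‖y‖) x = Real.pi * A / 3 / ‖x‖ ^ 4 := by
  have hr0 : 0 < ‖x‖ := lt_of_lt_of_le hs hx
  rw [psi_radial hg hi hr0]
  set r := ‖x‖ with hr
  obtain ⟨a1, b1⟩ := IonTF.tailpow (k := 3) (by norm_num) hr0
  obtain ⟨a2, b2⟩ := IonTF.tailpow (k := 4) (by norm_num) hr0
  have e : ∀ t ∈ Ioi r, 4 * Real.pi * t / r * (t - r) * g t =
      4 * Real.pi * A / r * (1 / t ^ (3 + 1)) - 4 * Real.pi * A * (1 / t ^ (4 + 1)) := by
    intro t ht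
    have h1 : r < t := ht
    have ht0 : 0 < t := lt_trans hr0 h1
    rw [hgs t (lt_of_le_of_lt hx h1)]
    field_simp
    ring
  rw [setIntegral_congr_fun measurableSet_Ioi e, integral_sub (a1.const_mul _) (a2.const_mul _),
    integral_const_mul, integral_const_mul, b1, b2]
  push_cast
  field_simp
  ring

/-- density of the supersolution -/
noncomputable def gU (A s t : ℝ) : ℝ := if t < s then 0 else A / t ^ 6

/-- density of the subsolution -/
noncomputable def gL (A t : ℝ) : ℝ := if t < 1 then A * |t| ^ (-(3/2) : ℝ) else A / t ^ 6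

lemma gU_meas (A s : ℝ) : Measurable (gU A s) :=
  Measurable.ite measurableSet_Iio measurable_const (by fun_prop)

lemma gL_meas (A : ℝ) : Measurable (gL A) :=
  Measurable.ite measurableSet_Iio (by fun_prop) (by fun_prop)

lemma gU_nonneg {A s : ℝ} (hA : 0 ≤ A) (t : ℝ) : 0 ≤ gU A s t := by
  unfold gU; split_ifs <;> positivity

lemma gL_nonneg {A : ℝ} (hA : 0 ≤ A) (t : ℝ) : 0 ≤ gL A t := by
  unfold gL; split_ifs <;> positivity

lemma gU_ind {A s : ℝ} (hs : 0 < s) :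
    IntegrableOn (fun t => t ^ 2 * gU A s t) (Ioi 0) ∧
    ∫ t in Ioi (0:ℝ), t ^ 2 * gU A s t = A / (3 * s ^ 3) := by
  obtain ⟨a1, b1⟩ := IonTF.tailpow (k := 3) (by norm_num) hs
  have hae : (fun t : ℝ => t ^ 2 * gU A s t) =ᵐ[volume.restrict (Ioi 0)]
      (Ioi s).indicator (fun t => A * (1 / t ^ (3 + 1))) := by
    have hne : ∀ᵐ t : ℝ ∂(volume.restrict (Ioi 0)), t ≠ s :=
      ae_restrict_of_ae (by simp [ae_iff])
    filter_upwards [hne, ae_restrict_mem measurableSet_Ioi] with t h1 h2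
    have ht0 : (0:ℝ) < t := h2
    unfold gU
    by_cases h : t < s
    · rw [if_pos h, indicator_of_notMem (by simpa using h.le)]; simp
    · have h3 : s < t := lt_of_le_of_ne (not_lt.1 h) (Ne.symm h1)
      rw [if_neg h, indicator_of_mem (by exact h3)]
      field_simp
      ring
  have hsub : Ioi (0:ℝ) ∩ Ioi s = Ioi s := inter_eq_self_of_subset_right
    fun t ht => lt_trans hs ht
  constructor
  · have : IntegrableOn ((Ioi s).indicator (fun t : ℝ => A * (1 / t ^ (3 + 1)))) (Ioi 0) :=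
      ((integrable_indicator_iff measurableSet_Ioi).2 (a1.const_mul A)).integrableOn
    exact this.congr_fun_ae hae.symm
  · rw [integral_congr_ae hae, setIntegral_indicator measurableSet_Ioi, hsub,
      integral_const_mul, b1]
    push_cast
    field_simp

lemma gU_md {A s : ℝ} (hA : 0 ≤ A) (hs : 0 < s) : MD (fun x : E3 => gU A s ‖x‖) := by
  have hi : Integrable (fun x : E3 => gU A s ‖x‖) := integrable_radial.2 (gU_ind hs).1
  refine ⟨(gU_meas A s).comp measurable_norm, fun x => gU_nonneg hA _, hi, ?_⟩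
  refine (hi.const_mul ((A / s ^ 6) ^ (2/3 : ℝ))).mono'
    (((gU_meas A s).comp measurable_norm).pow_const _).aestronglyMeasurable (ae_of_all _ fun x => ?_)
  have h0 := gU_nonneg (s := s) hA ‖x‖
  rw [Real.norm_of_nonneg (Real.rpow_nonneg h0 _)]
  have h2 : gU A s ‖x‖ ≤ A / s ^ 6 := by
    unfold gU
    split_ifs with h
    · positivity
    · exact div_le_div_of_nonneg_left hA (by positivity) (pow_le_pow_left₀ hs.le (not_lt.1 h) 6)
  rcases h0.eq_or_lt with h3 | h3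
  · rw [← h3, Real.zero_rpow (by norm_num)]; simp
  · rw [show (5/3 : ℝ) = 2/3 + 1 by norm_num, Real.rpow_add h3, Real.rpow_one]
    exact mul_le_mul_of_nonneg_right (Real.rpow_le_rpow h0 h2 (by norm_num)) h0

lemma gU_mass {A s : ℝ} (hs : 0 < s) :
    ∫ x : E3, gU A s ‖x‖ = 4 * Real.pi * A / (3 * s ^ 3) := by
  rw [int_radial, (gU_ind hs).2]; ring

lemma gL_ind (A : ℝ) (p : ℝ) (hp : -3 < p) :
    IntegrableOn (fun t => t ^ 2 * (if t < 1 then A * |t| ^ p else A / t ^ 6)) (Ioi 0) ∧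
    ∫ t in Ioi (0:ℝ), t ^ 2 * (if t < 1 then A * |t| ^ p else A / t ^ 6) = A / (p + 3) + A / 3 := by
  obtain ⟨a1, b1⟩ := IonTF.tailpow (k := 3) (by norm_num) one_pos
  have a2 : IntegrableOn (fun t : ℝ => A * t ^ (p + 2)) (Ioc 0 1) := by
    rw [integrableOn_Ioc_iff_integrableOn_Ioo]
    exact ((intervalIntegral.integrableOn_Ioo_rpow_iff one_pos).2 (by linarith)).const_mul A
  have b2 : ∫ t in Ioc (0:ℝ) 1, A * t ^ (p + 2) = A / (p + 3) := by
    rw [← intervalIntegral.integral_of_le zero_le_one, intervalIntegral.integral_const_mul,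
      integral_rpow (Or.inl (by linarith)), Real.one_rpow, Real.zero_rpow (by linarith)]
    rw [show p + 2 + 1 = p + 3 by ring]; ring
  have c1 : IntegrableOn (fun t => t ^ 2 * (if t < 1 then A * |t| ^ p else A / t ^ 6)) (Ioc 0 1) ∧
      ∫ t in Ioc (0:ℝ) 1, t ^ 2 * (if t < 1 then A * |t| ^ p else A / t ^ 6) = A / (p + 3) := by
    have hae : (fun t : ℝ => A * t ^ (p + 2)) =ᵐ[volume.restrict (Ioc 0 1)]
        (fun t => t ^ 2 * (if t < 1 then A * |t| ^ p else A / t ^ 6)) := by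
      have hne : ∀ᵐ t : ℝ ∂(volume.restrict (Ioc 0 1)), t ≠ 1 :=
        ae_restrict_of_ae (by simp [ae_iff])
      filter_upwards [hne, ae_restrict_mem measurableSet_Ioc] with t h1 h2
      have h3 : t < 1 := lt_of_le_of_ne h2.2 h1
      rw [if_pos h3, abs_of_pos h2.1, Real.rpow_add h2.1, Real.rpow_two]
      ring
    exact ⟨a2.congr_fun_ae hae, by rw [← integral_congr_ae hae, b2]⟩
  have c2 : IntegrableOn (fun t => t ^ 2 * (if t < 1 then A * |t| ^ p else A / t ^ 6)) (Ioi 1) ∧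
      ∫ t in Ioi (1:ℝ), t ^ 2 * (if t < 1 then A * |t| ^ p else A / t ^ 6) = A / 3 := by
    have he : EqOn (fun t : ℝ => A * (1 / t ^ (3 + 1)))
        (fun t => t ^ 2 * (if t < 1 then A * |t| ^ p else A / t ^ 6)) (Ioi 1) := by
      intro t ht
      have h1 : (1:ℝ) < t := ht
      have h2 : 0 < t := by linarith
      show A * (1 / t ^ (3 + 1)) = t ^ 2 * (if t < 1 then A * |t| ^ p else A / t ^ 6)
      rw [if_neg (not_lt.2 h1.le)]
      field_simp
    refine ⟨(integrableOn_congr_fun he measurableSet_Ioi).1 (a1.const_mul A), ?_⟩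
    rw [← setIntegral_congr_fun measurableSet_Ioi he, integral_const_mul, b1]
    norm_num
    ring
  have hu : Ioc (0:ℝ) 1 ∪ Ioi 1 = Ioi 0 := Ioc_union_Ioi_eq_Ioi zero_le_one
  rw [← hu]
  exact ⟨c1.1.union c2.1, by
    rw [setIntegral_union (Ioc_disjoint_Ioi le_rfl) measurableSet_Ioi c1.1 c2.1, c1.2, c2.2]⟩

lemma gL_mass (A : ℝ) : ∫ x : E3, gL A ‖x‖ = 4 * Real.pi * A := by
  rw [int_radial]
  have := (gL_ind A (-(3/2)) (by norm_num)).2
  have e : (fun t : ℝ => t ^ 2 * gL A t) =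
      fun t => t ^ 2 * (if t < 1 then A * |t| ^ (-(3/2) : ℝ) else A / t ^ 6) := rfl
  rw [e, this]
  norm_num
  ring

lemma gL_md {A : ℝ} (hA : 0 ≤ A) : MD (fun x : E3 => gL A ‖x‖) := by
  have hi : Integrable (fun x : E3 => gL A ‖x‖) :=
    integrable_radial.2 (gL_ind A (-(3/2)) (by norm_num)).1
  refine ⟨(gL_meas A).comp measurable_norm, fun x => gL_nonneg hA _, hi, ?_⟩
  have hi2 : Integrable (fun x : E3 => (fun t : ℝ => if t < 1 then A ^ (5/3 : ℝ) * |t| ^ (-(5/2) : ℝ)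
      else A ^ (5/3 : ℝ) / t ^ 6) ‖x‖) :=
    integrable_radial.2 (gL_ind (A ^ (5/3 : ℝ)) (-(5/2)) (by norm_num)).1
  refine hi2.mono' (((gL_meas A).comp measurable_norm).pow_const _).aestronglyMeasurable
    (ae_of_all _ fun x => ?_)
  have h0 := gL_nonneg hA ‖x‖
  rw [Real.norm_of_nonneg (Real.rpow_nonneg h0 _)]
  show gL A ‖x‖ ^ (5/3 : ℝ) ≤ if ‖x‖ < 1 then A ^ (5/3 : ℝ) * |‖x‖| ^ (-(5/2) : ℝ)
      else A ^ (5/3 : ℝ) / ‖x‖ ^ 6
  unfold gL
  split_ifs with h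
  · rw [Real.mul_rpow hA (by positivity), ← Real.rpow_mul (abs_nonneg _)]
    norm_num
  · have h1 : 1 ≤ ‖x‖ := not_lt.1 h
    rw [Real.div_rpow hA (by positivity)]
    refine div_le_div_of_nonneg_left (by positivity) (by positivity) ?_
    have h2 : (1:ℝ) ≤ ‖x‖ ^ 6 := one_le_pow₀ h1
    calc ‖x‖ ^ 6 = (‖x‖ ^ 6) ^ (1:ℝ) := (Real.rpow_one _).symm
      _ ≤ (‖x‖ ^ 6) ^ (5/3 : ℝ) := Real.rpow_le_rpow_of_exponent_le h2 (by norm_num)

lemma md_shift {f : E3 → ℝ} (h : MD f) (a : E3) : MD (fun x => f (x - a)) :=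
  ⟨h.meas.comp (measurable_id.sub_const a), fun x => h.nonneg _, h.int.comp_sub_right a,
    h.int_pow.comp_sub_right a⟩

/-- **comparison** -/
theorem compare {z1 z2 : ι → ℝ} (hz : ∀ j, z1 j ≤ z2 j) {R : ι → E3} {ρ1 ρ2 : E3 → ℝ}
    (h1 : Nice ρ1) (h2 : Nice ρ2)
    (h : ∀ᵐ x, Vn z2 R x - pot ρ2 x < Vn z1 R x - pot ρ1 x → ρ2 x ≤ ρ1 x) {x : E3}
    (hx : ∀ j, z1 j < z2 j → x ≠ R j) : Vn z1 R x - pot ρ1 x ≤ Vn z2 R x - pot ρ2 x := by
  have hN : Nice (fun y => ρ1 y - ρ2 y) := nice_sub h1 h2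
  have e : ∀ y, Vn (fun j => z2 j - z1 j) R y + pot (fun y => ρ1 y - ρ2 y) y =
      (Vn z2 R y - pot ρ2 y) - (Vn z1 R y - pot ρ1 y) := by
    intro y
    rw [pot_sub h1 h2]
    have : Vn (fun j => z2 j - z1 j) R y = Vn z2 R y - Vn z1 R y := by
      unfold Vn
      rw [← Finset.sum_sub_distrib]
      refine Finset.sum_congr rfl fun j _ => ?_
      ring
    rw [this]; ring
  have := mp_nuc (z := fun j => z2 j - z1 j) (R := R) (fun j => sub_nonneg.2 (hz j)) hN (by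
    filter_upwards [h] with y hy hlt
    rw [e] at hlt
    have := hy (by linarith)
    linarith) fun j hj => hx j (by linarith)
  rw [e] at this
  linarith

/-- a neutral Thomas-Fermi density -/
structure TFs (γ : ℝ) (z : ι → ℝ) (R : ι → E3) (ρ : E3 → ℝ) : Prop where
  md : MD ρ
  mass : ∫ x, ρ x = ∑ j, z j
  phi_nonneg : ∀ x, (∀ j, 0 < z j → x ≠ R j) → 0 ≤ Vn z R x - pot ρ x
  eq : ∀ᵐ x, γ * ρ x ^ (2/3 : ℝ) = Vn z R x - pot ρ x

lemma tf_ex {γ : ℝ} (hγ : 0 < γ) {z : ι → ℝ} (hz : ∀ j, 0 ≤ z j) (R : ι → E3) :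
    ∃ ρ, TFs γ z R ρ := by
  obtain ⟨ρ, h1, h2, h3, h4⟩ := neutral hγ hz R
  exact ⟨ρ, h1, h2, h3, h4⟩

lemma pow_inv {a b γ : ℝ} (hγ : 0 < γ) (ha : 0 ≤ a) (h : γ * a ^ (2/3 : ℝ) = b) :
    a = (b / γ) ^ (3/2 : ℝ) := by
  rw [← h, mul_div_cancel_left₀ _ hγ.ne', ← Real.rpow_mul ha]
  norm_num

/-- monotonicity in the charges -/
theorem TFs.mono {γ : ℝ} (hγ : 0 < γ) {z1 z2 : ι → ℝ} (hz : ∀ j, z1 j ≤ z2 j) {R : ι → E3}
    {ρ1 ρ2 : E3 → ℝ} (h1 : TFs γ z1 R ρ1) (h2 : TFs γ z2 R ρ2) :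
    (∀ x, (∀ j, x ≠ R j) → Vn z1 R x - pot ρ1 x ≤ Vn z2 R x - pot ρ2 x) ∧
    ∀ᵐ x, ρ1 x ≤ ρ2 x := by
  have key : ∀ x, (∀ j, x ≠ R j) → Vn z1 R x - pot ρ1 x ≤ Vn z2 R x - pot ρ2 x := by
    intro x hx
    refine compare hz h1.md.nice h2.md.nice ?_ fun j _ => hx j
    filter_upwards [h1.eq, h2.eq, nuc_null R] with y e1 e2 hne hlt
    rw [pow_inv hγ (h1.md.nonneg y) e1, pow_inv hγ (h2.md.nonneg y) e2]
    refine Real.rpow_le_rpow (div_nonneg (h2.phi_nonneg y fun j _ => hne j) hγ.le) ?_ (by norm_num)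
    exact div_le_div_of_nonneg_right hlt.le hγ.le
  refine ⟨key, ?_⟩
  filter_upwards [h1.eq, h2.eq, nuc_null R] with y e1 e2 hne
  rw [pow_inv hγ (h1.md.nonneg y) e1, pow_inv hγ (h2.md.nonneg y) e2]
  refine Real.rpow_le_rpow (div_nonneg (h1.phi_nonneg y fun j _ => hne j) hγ.le) ?_ (by norm_num)
  exact div_le_div_of_nonneg_right (key y hne) hγ.le

/-- the universal constant of the upper bound -/
noncomputable def A0 (γ : ℝ) : ℝ := (3 * γ / Real.pi) ^ 3

lemma A0_pos {γ : ℝ} (hγ : 0 < γ) : 0 < A0 γ := by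
  unfold A0
  have := Real.pi_pos
  positivity

lemma A0_eq {γ : ℝ} (hγ : 0 < γ) : (Real.pi * A0 γ / 3 / γ) ^ (3/2 : ℝ) = A0 γ := by
  have hpi := Real.pi_pos
  have e : Real.pi * A0 γ / 3 / γ = (3 * γ / Real.pi) ^ 2 := by
    unfold A0; field_simp; try ring
  have h0 : 0 ≤ 3 * γ / Real.pi := by positivity
  rw [e, ← Real.rpow_natCast, ← Real.rpow_mul h0]
  unfold A0
  rw [← Real.rpow_natCast]
  norm_num

lemma sum_pow32 {ι : Type*} {x : ι → ℝ} (hx : ∀ i, 0 ≤ x i) (S : Finset ι) :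
    ∑ i ∈ S, x i ^ (3/2 : ℝ) ≤ (∑ i ∈ S, x i) ^ (3/2 : ℝ) := by
  have hS : 0 ≤ ∑ i ∈ S, x i := Finset.sum_nonneg fun i _ => hx i
  have e : ∀ a : ℝ, 0 ≤ a → a ^ (3/2 : ℝ) = a * a ^ (1/2 : ℝ) := by
    intro a ha
    rcases ha.eq_or_lt with h | h
    · rw [← h, Real.zero_rpow (by norm_num)]; simp
    · rw [show (3/2 : ℝ) = 1 + 1/2 by norm_num, Real.rpow_add h, Real.rpow_one]
  rw [e _ hS, Finset.sum_mul]
  refine Finset.sum_le_sum fun i hi => ?_
  rw [e _ (hx i)]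
  exact mul_le_mul_of_nonneg_left (Real.rpow_le_rpow (hx i)
    (Finset.single_le_sum (fun j _ => hx j) hi) (by norm_num)) (hx i)

/-- **universal upper bound** for neutral Thomas-Fermi potentials; only the nuclei with positive
charge matter -/
theorem TFs.upper {γ : ℝ} (hγ : 0 < γ) {z : ι → ℝ} (hz : ∀ j, 0 ≤ z j) {R : ι → E3}
    {ρ : E3 → ℝ} (h : TFs γ z R ρ) {S : Finset ι} (hS : ∀ j, 0 < z j → j ∈ S) {x : E3}
    (hx : ∀ j ∈ S, x ≠ R j) :
    Vn z R x - pot ρ x ≤ ∑ j ∈ S, Real.pi * A0 γ / 3 / ‖x - R j‖ ^ 4 := by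
  classical
  have hpi := Real.pi_pos
  set A := A0 γ with hA
  have hA0 : 0 < A := A0_pos hγ
  set Z : ℝ := ∑ j, z j with hZ
  have hZ0 : 0 ≤ Z := Finset.sum_nonneg fun j _ => hz j
  -- choice of the cutoff radius
  obtain ⟨s, hs, hs1, hs2⟩ : ∃ s : ℝ, 0 < s ∧ (∀ j ∈ S, s < ‖x - R j‖) ∧
      ∀ j, z j ≤ 4 * Real.pi * A / (3 * s ^ 3) := by
    obtain ⟨s, a, b, c⟩ := small_s2 (fun j : ι => if j ∈ S then (1:ℝ) else 0) R
      (B := min 1 (4 * Real.pi * A / (3 * (Z + 1)))) (by positivity) (x := x) (fun j hj => by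
        by_cases hjS : j ∈ S
        · exact hx j hjS
        · simp [hjS] at hj)
    refine ⟨s, a, fun j hj => c j (by simp [hj]), fun j => ?_⟩
    have hzj : z j ≤ Z := Finset.single_le_sum (fun i _ => hz i) (Finset.mem_univ j)
    refine hzj.trans ?_
    have h1 : s ≤ 1 := b.trans (min_le_left _ _)
    have h2 : s ≤ 4 * Real.pi * A / (3 * (Z + 1)) := b.trans (min_le_right _ _)
    rw [le_div_iff₀ (by positivity)] at h2 ⊢
    have h3 : s ^ 3 ≤ s := by
      have h4 : s ^ 3 ≤ s ^ 1 := pow_le_pow_of_le_one a.le h1 (by norm_num)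
      rwa [pow_one] at h4
    have h5 : Z * (3 * s ^ 3) ≤ Z * (3 * s) := mul_le_mul_of_nonneg_left (by linarith) hZ0
    nlinarith
  set M : ℝ := 4 * Real.pi * A / (3 * s ^ 3) with hM
  have hM0 : 0 ≤ M := by positivity
  set σ : ι → E3 → ℝ := fun j y => gU A s ‖y - R j‖ with hσ
  have hg := gU_md hA0.le hs
  have hσmd : ∀ j, MD (σ j) := fun j => md_shift hg (R j)
  have hσN : Nice (fun y => ∑ j ∈ S, σ j y) := nice_sum' (fun j => (hσmd j).nice) S
  have hpotσ : ∀ y, pot (fun y => ∑ j ∈ S, σ j y) y = ∑ j ∈ S, pot (fun y => gU A s ‖y‖) (y - R j) := by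
    intro y
    rw [pot_sum' fun j => (hσmd j).nice]
    refine Finset.sum_congr rfl fun j _ => ?_
    exact IonTF.pot_shift (fun y => gU A s ‖y‖) (R j) y
  set zM : ι → ℝ := fun j => if j ∈ S then M else 0 with hzM
  have hψ : ∀ y, Vn zM R y - pot (fun y => ∑ j ∈ S, σ j y) y =
      ∑ j ∈ S, (M / ‖y - R j‖ - pot (fun y => gU A s ‖y‖) (y - R j)) := by
    intro y
    rw [hpotσ, Finset.sum_sub_distrib]
    congr 1
    unfold Vn
    rw [hzM]
    simp only [ite_div, zero_div]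
    rw [Finset.sum_ite_mem, Finset.univ_inter]
  have hmass : ∫ y : E3, gU A s ‖y‖ = M := gU_mass hs
  have hψ0 : ∀ (y : E3), 0 ≤ M / ‖y‖ - pot (fun y => gU A s ‖y‖) y ∨ ¬ 0 < ‖y‖ := by
    intro y
    by_cases hy : 0 < ‖y‖
    · have := psi_nonneg (gU_meas A s) (gU_nonneg hA0.le) hg.int hy
      rw [hmass] at this
      exact Or.inl this
    · exact Or.inr hy
  have hψt : ∀ (y : E3), s ≤ ‖y‖ → M / ‖y‖ - pot (fun y => gU A s ‖y‖) y =
      Real.pi * A / 3 / ‖y‖ ^ 4 := by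
    intro y hy
    have := psi_tail (A := A) hs (fun t ht => by
      unfold gU; rw [if_neg (not_lt.2 ht.le)]) (gU_meas A s) (gU_nonneg hA0.le) hg.int hy
    rwa [hmass] at this
  have hsup : ∀ (y : E3), 0 < ‖y‖ →
      gU A s ‖y‖ ≤ ((M / ‖y‖ - pot (fun y => gU A s ‖y‖) y) / γ) ^ (3/2 : ℝ) := by
    intro y hy
    by_cases hys : ‖y‖ < s
    · have : gU A s ‖y‖ = 0 := by unfold gU; rw [if_pos hys]
      rw [this]
      exact Real.rpow_nonneg (div_nonneg ((hψ0 y).resolve_right (not_not.2 hy)) hγ.le) _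
    · rw [hψt y (not_lt.1 hys)]
      have e1 : gU A s ‖y‖ = A / ‖y‖ ^ 6 := by unfold gU; rw [if_neg hys]
      have e2 : Real.pi * A / 3 / ‖y‖ ^ 4 / γ = (Real.pi * A / 3 / γ) * (1 / ‖y‖ ^ 4) := by
        field_simp
      rw [e1, e2, Real.mul_rpow (by positivity) (by positivity), A0_eq hγ]
      have e3 : (1 / ‖y‖ ^ 4) ^ (3/2 : ℝ) = 1 / ‖y‖ ^ 6 := by
        rw [Real.div_rpow zero_le_one (by positivity), Real.one_rpow, ← Real.rpow_natCast ‖y‖ 4,
          ← Real.rpow_mul hy.le, ← Real.rpow_natCast ‖y‖ 6]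
        norm_num
      rw [e3, ← hA]
      exact le_of_eq (by ring)
  have hz12 : ∀ j, z j ≤ zM j := by
    intro j
    by_cases hj : j ∈ S
    · simp only [hzM, hj, if_true]; exact hs2 j
    · have : z j = 0 := by
        rcases (hz j).eq_or_lt with h0 | h0
        · exact h0.symm
        · exact absurd (hS j h0) hj
      simp [hzM, hj, this]
  have hcmp := compare (z1 := z) (z2 := zM) hz12 h.md.nice hσN (x := x) (by
    filter_upwards [h.eq, nuc_null R] with y hy hne hlt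
    have hn : ∀ j, 0 < ‖y - R j‖ := fun j => norm_pos_iff.2 (sub_ne_zero.2 (hne j))
    rw [hψ] at hlt
    rw [pow_inv hγ (h.md.nonneg y) hy]
    have hnn : ∀ j, 0 ≤ (M / ‖y - R j‖ - pot (fun y => gU A s ‖y‖) (y - R j)) / γ :=
      fun j => div_nonneg ((hψ0 _).resolve_right (not_not.2 (hn j))) hγ.le
    calc ∑ j ∈ S, σ j y ≤
        ∑ j ∈ S, ((M / ‖y - R j‖ - pot (fun y => gU A s ‖y‖) (y - R j)) / γ) ^ (3/2 : ℝ) :=
          Finset.sum_le_sum fun j _ => hsup _ (hn j)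
      _ ≤ (∑ j ∈ S, (M / ‖y - R j‖ - pot (fun y => gU A s ‖y‖) (y - R j)) / γ) ^ (3/2 : ℝ) :=
          sum_pow32 hnn S
      _ ≤ _ := by
          refine Real.rpow_le_rpow (Finset.sum_nonneg fun j _ => hnn j) ?_ (by norm_num)
          rw [← Finset.sum_div]
          exact div_le_div_of_nonneg_right hlt.le hγ.le) (fun j hj => by
    by_cases hjS : j ∈ S
    · exact hx j hjS
    · exfalso
      have := hz j
      simp [hzM, hjS] at hj
      linarith)
  rw [hψ] at hcmp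
  refine hcmp.trans (le_of_eq ?_)
  exact Finset.sum_congr rfl fun j hj => hψt _ (hs1 j hj).le

/-- **lower bound** for neutral Thomas-Fermi potentials -/
theorem TFs.lower {γ : ℝ} (hγ : 0 < γ) {z : ι → ℝ} (hz : ∀ j, 0 ≤ z j) {R : ι → E3}
    {ρ : E3 → ℝ} (h : TFs γ z R ρ) {j0 : ι} (hj0 : 0 < z j0) :
    ∃ c : ℝ, 0 < c ∧ ∀ x, (∀ j, 0 < z j → x ≠ R j) → 1 ≤ ‖x - R j0‖ →
      c / ‖x - R j0‖ ^ 4 ≤ Vn z R x - pot ρ x := by
  classical
  have hpi := Real.pi_pos
  -- amplitude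
  set A : ℝ := min (z j0 / (4 * Real.pi)) ((γ / (4 * Real.pi)) ^ 3) with hA
  have hA0 : 0 < A := by positivity
  have hA1 : 4 * Real.pi * A ≤ z j0 := by
    have : A ≤ z j0 / (4 * Real.pi) := min_le_left _ _
    rw [le_div_iff₀ (by positivity)] at this
    linarith
  have hA2 : (4 * Real.pi * A / γ) ^ (3/2 : ℝ) ≤ A := by
    have h1 : A ≤ (γ / (4 * Real.pi)) ^ 3 := min_le_right _ _
    obtain ⟨b, hb, eb⟩ : ∃ b : ℝ, 0 < b ∧ A = b ^ 2 :=
      ⟨√A, by positivity, (Real.sq_sqrt hA0.le).symm⟩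
    have h2 : b ^ 2 ≤ (γ / (4 * Real.pi)) ^ 3 := by rw [← eb]; exact h1
    have h3 : b ≤ (γ / (4 * Real.pi)) ^ (3/2 : ℝ) := by
      have hq : 0 ≤ γ / (4 * Real.pi) := by positivity
      refine le_of_pow_le_pow_left₀ (n := 2) (by norm_num) (by positivity) ?_
      rw [← Real.rpow_natCast ((γ / (4 * Real.pi)) ^ (3/2 : ℝ)) 2, ← Real.rpow_mul hq]
      have : (3/2 * ((2:ℕ):ℝ) : ℝ) = ((3:ℕ):ℝ) := by norm_num
      rw [this, Real.rpow_natCast]; exact h2
    have e1 : 4 * Real.pi * A / γ = A * (γ / (4 * Real.pi))⁻¹ := by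
      rw [inv_div]; ring
    rw [e1, Real.mul_rpow hA0.le (by positivity), Real.inv_rpow (by positivity), eb]
    have e2 : (b ^ 2) ^ (3/2 : ℝ) = b ^ 2 * b := by
      rw [← Real.rpow_natCast b 2, ← Real.rpow_mul hb.le]
      have : (((2:ℕ):ℝ) * (3/2) : ℝ) = ((3:ℕ):ℝ) := by norm_num
      rw [this, Real.rpow_natCast, Real.rpow_natCast]; ring
    rw [e2, mul_assoc]
    have h4 : b * ((γ / (4 * Real.pi)) ^ (3/2 : ℝ))⁻¹ ≤ 1 := by
      rw [← div_eq_mul_inv, div_le_one (by positivity)]; exact h3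
    calc b ^ 2 * (b * ((γ / (4 * Real.pi)) ^ (3/2 : ℝ))⁻¹) ≤ b ^ 2 * 1 :=
          mul_le_mul_of_nonneg_left h4 (by positivity)
      _ = b ^ 2 := mul_one _
  refine ⟨Real.pi * A / 3, by positivity, fun x hx hx1 => ?_⟩
  have hg := gL_md hA0.le
  set σ : E3 → ℝ := fun y => gL A ‖y - R j0‖ with hσ
  have hσmd : MD σ := md_shift hg (R j0)
  set z1 : ι → ℝ := fun j => if j = j0 then 4 * Real.pi * A else 0 with hz1
  have hV : ∀ y, Vn z1 R y = 4 * Real.pi * A / ‖y - R j0‖ := by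
    intro y
    unfold Vn
    rw [Finset.sum_eq_single j0]
    · simp [hz1]
    · intro j _ hj; simp [hz1, hj]
    · intro hn; exact absurd (Finset.mem_univ _) hn
  have hpotσ : ∀ y, pot σ y = pot (fun y => gL A ‖y‖) (y - R j0) := fun y =>
    IonTF.pot_shift (fun y => gL A ‖y‖) (R j0) y
  have hmass : ∫ y : E3, gL A ‖y‖ = 4 * Real.pi * A := gL_mass A
  have hψt : ∀ (y : E3), 1 ≤ ‖y‖ → 4 * Real.pi * A / ‖y‖ - pot (fun y => gL A ‖y‖) y =
      Real.pi * A / 3 / ‖y‖ ^ 4 := by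
    intro y hy
    have := psi_tail (A := A) one_pos (fun t ht => by
      unfold gL; rw [if_neg (not_lt.2 ht.le)]) (gL_meas A) (gL_nonneg hA0.le) hg.int hy
    rwa [hmass] at this
  have hcmp := compare (z1 := z1) (z2 := z) (fun j => by
      rw [hz1]
      simp only
      split_ifs with hj
      · rw [hj]; exact hA1
      · exact hz j) hσmd.nice h.md.nice (by
    filter_upwards [h.eq, nuc_null R] with y hy hne hlt
    have hn : 0 < ‖y - R j0‖ := norm_pos_iff.2 (sub_ne_zero.2 (hne j0))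
    rw [hV, hpotσ] at hlt
    rw [pow_inv hγ (h.md.nonneg y) hy]
    have h5 : ((Vn z R y - pot ρ y) / γ) ^ (3/2 : ℝ) ≤
        ((4 * Real.pi * A / ‖y - R j0‖ - pot (fun y => gL A ‖y‖) (y - R j0)) / γ) ^ (3/2 : ℝ) :=
      Real.rpow_le_rpow (div_nonneg (h.phi_nonneg y fun j _ => hne j) hγ.le)
        (div_le_div_of_nonneg_right hlt.le hγ.le) (by norm_num)
    refine h5.trans ?_
    show _ ≤ gL A ‖y - R j0‖
    set r := ‖y - R j0‖ with hr
    by_cases hr1 : r < 1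
    · have e1 : gL A r = A * r ^ (-(3/2) : ℝ) := by
        unfold gL; rw [if_pos hr1, abs_of_pos hn]
      have h6 : (4 * Real.pi * A / r - pot (fun y => gL A ‖y‖) (y - R j0)) / γ ≤
          4 * Real.pi * A / γ * (1 / r) := by
        have : 0 ≤ pot (fun y => gL A ‖y‖) (y - R j0) := pot_nonneg (fun y => gL_nonneg hA0.le _) _
        rw [div_mul_eq_mul_div]
        refine div_le_div_of_nonneg_right ?_ hγ.le
        rw [mul_one_div]; linarith
      have h7 : 0 ≤ (4 * Real.pi * A / r - pot (fun y => gL A ‖y‖) (y - R j0)) / γ := by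
        refine div_nonneg ?_ hγ.le
        have := psi_nonneg (gL_meas A) (gL_nonneg hA0.le) hg.int (x := y - R j0) hn
        rwa [hmass] at this
      rw [e1]
      calc _ ≤ (4 * Real.pi * A / γ * (1 / r)) ^ (3/2 : ℝ) := Real.rpow_le_rpow h7 h6 (by norm_num)
        _ = (4 * Real.pi * A / γ) ^ (3/2 : ℝ) * r ^ (-(3/2) : ℝ) := by
            rw [Real.mul_rpow (by positivity) (by positivity), one_div, Real.inv_rpow hn.le,
              ← Real.rpow_neg hn.le]
        _ ≤ A * r ^ (-(3/2) : ℝ) := mul_le_mul_of_nonneg_right hA2 (by positivity)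
    · have h8 := hψt (y - R j0) (not_lt.1 hr1)
      rw [← hr] at h8
      rw [h8]
      have e1 : gL A r = A / r ^ 6 := by unfold gL; rw [if_neg hr1]
      have e2 : Real.pi * A / 3 / r ^ 4 / γ ≤ (4 * Real.pi * A / γ) * (1 / r ^ 4) := by
        rw [div_mul_eq_mul_div, mul_one_div]
        refine div_le_div_of_nonneg_right ?_ hγ.le
        refine div_le_div_of_nonneg_right ?_ (by positivity)
        have : 0 < Real.pi * A := by positivity
        linarith
      have e3 : (1 / r ^ 4) ^ (3/2 : ℝ) = 1 / r ^ 6 := by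
        rw [Real.div_rpow zero_le_one (by positivity), Real.one_rpow, ← Real.rpow_natCast r 4,
          ← Real.rpow_mul hn.le, ← Real.rpow_natCast r 6]
        norm_num
      calc _ ≤ ((4 * Real.pi * A / γ) * (1 / r ^ 4)) ^ (3/2 : ℝ) :=
            Real.rpow_le_rpow (by positivity) e2 (by norm_num)
        _ = (4 * Real.pi * A / γ) ^ (3/2 : ℝ) * (1 / r ^ 6) := by
            rw [Real.mul_rpow (by positivity) (by positivity), e3]
        _ ≤ A * (1 / r ^ 6) := mul_le_mul_of_nonneg_right hA2 (by positivity)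
        _ = gL A r := by rw [e1]; ring) (fun j hj => by
    refine hx j ?_
    simp only [hz1] at hj
    split_ifs at hj with hjj
    · exact lt_trans (by positivity) hj
    · exact hj)
  rw [hV, hpotσ, hψt (x - R j0) hx1] at hcmp
  exact hcmp

end Pool.Agent.R999.Ex
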