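import Pool.Agent.R999.FAf

/-!
# TFW atoms with a large exponent `p`: the density is close to the indicator of a ball
-/

set_option autoImplicit false

namespace Pool.Agent.R999.Conv

open MeasureTheory Set Filter Topology Metric
open Pool.Agent.TH791.Cl Pool.Agent.TH791.Nw Pool.Agent.R999.Newton Pool.Agent.R999.FAf
open scoped ENNReal

/-- Young's inequality followed by the weighted arithmetic-geometric mean inequality -/
lemma young_p {p s φ : ℝ} (hp : 2 ≤ p) (hs : 0 ≤ s) (hφ : 0 ≤ φ) :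
    φ * s ≤ s ^ p / p + φ + φ ^ 2 / p := by
  have hp0 : 0 < p := by linarith
  have hp1 : 0 < p - 1 := by linarith
  have hconj : Real.HolderConjugate p (p / (p - 1)) := by
    rw [Real.holderConjugate_iff]
    refine ⟨by linarith, ?_⟩
    field_simp
    ring
  have h1 := Real.young_inequality_of_nonneg hs hφ hconj
  have h2 := Real.geom_mean_le_arith_mean2_weighted (w₁ := 1 / (p - 1)) (w₂ := (p - 2) / (p - 1))
    (p₁ := φ ^ 2) (p₂ := φ) (by positivity) (div_nonneg (by linarith) hp1.le) (by positivity) hφ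
    (by field_simp; ring)
  have h3 : (φ ^ 2) ^ (1 / (p - 1)) * φ ^ ((p - 2) / (p - 1)) = φ ^ (p / (p - 1)) := by
    rcases hφ.eq_or_lt with h | h
    · rw [← h]
      rw [Real.zero_rpow (by positivity : p / (p - 1) ≠ 0)]
      norm_num
      left
      rw [Real.zero_rpow]
      exact inv_ne_zero hp1.ne'
    · rw [← Real.rpow_natCast φ 2, ← Real.rpow_mul h.le, ← Real.rpow_add h]
      congr 1
      push_cast
      field_simp
      ring
  rw [h3] at h2
  have h4 : φ ^ (p / (p - 1)) / (p / (p - 1)) ≤ φ + φ ^ 2 / p := by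
    rw [div_div_eq_mul_div, div_le_iff₀ hp0]
    have h5 := mul_le_mul_of_nonneg_right h2 hp1.le
    have e : (1 / (p - 1) * φ ^ 2 + (p - 2) / (p - 1) * φ) * (p - 1) = φ ^ 2 + (p - 2) * φ := by
      field_simp
    rw [e] at h5
    have e2 : (φ + φ ^ 2 / p) * p = φ * p + φ ^ 2 := by field_simp
    rw [e2]
    nlinarith
  calc φ * s = s * φ := mul_comm _ _
    _ ≤ _ := h1
    _ ≤ _ := by linarith

/-- volume of the unit ball -/
noncomputable def zc : ℝ := 4/3 * Real.pi

lemma zc_pos : 0 < zc := by unfold zc; have := Real.pi_pos; positivity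

/-- the indicator of the unit ball -/
noncomputable def B0 : E3 → ℝ := (ball (0:E3) 1).indicator fun _ => 1

lemma B0_eq (x : E3) : B0 x = zc * gb 1 0 x := by
  have := zc_pos
  unfold B0 gb
  by_cases h : x ∈ ball (0:E3) 1
  · rw [indicator_of_mem h, indicator_of_mem h]
    unfold zc at *
    rw [one_pow, mul_one]
    field_simp
  · rw [indicator_of_notMem h, indicator_of_notMem h, mul_zero]

lemma B0_nice : Nice B0 := by
  have h := gb_nice 1 (0:E3)
  have e : B0 = fun x => zc * gb 1 0 x := funext B0_eq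
  rw [e]
  refine ⟨h.1.const_mul _, h.2.1.const_mul _, ?_⟩
  have : ∀ x, |zc * gb 1 0 x| ^ (5/3 : ℝ) = zc ^ (5/3 : ℝ) * |gb 1 0 x| ^ (5/3 : ℝ) := by
    intro x
    rw [abs_mul, abs_of_pos zc_pos, Real.mul_rpow zc_pos.le (abs_nonneg _)]
  simp only [this]
  exact h.2.2.const_mul _

lemma pot_B0 (x : E3) : pot B0 x = zc * Gf 1 ‖x‖ := by
  have h := pot_gb one_pos (0:E3) x
  rw [sub_zero] at h
  rw [← h]
  unfold pot
  rw [← integral_const_mul]
  refine integral_congr_ae (ae_of_all _ fun y => ?_)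
  show B0 y / ‖x - y‖ = zc * (gb 1 0 y / ‖x - y‖)
  rw [B0_eq]; ring

lemma B0_mass : ∫ x, B0 x = zc := by
  simp only [B0_eq]
  rw [integral_const_mul, gb_total one_pos, mul_one]

/-- screened potential -/
noncomputable def ph (x : E3) : ℝ := zc * Yf 1 ‖x‖

lemma ph_zero {x : E3} (h : 1 ≤ ‖x‖) : ph x = 0 := by
  unfold ph; rw [Yf_zero h, mul_zero]

lemma ph_nonneg {x : E3} (h : 0 < ‖x‖) : 0 ≤ ph x :=
  mul_nonneg zc_pos.le (Yf_nonneg one_pos h)

lemma ph_le (x : E3) : ph x ≤ zc / ‖x‖ := by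
  unfold ph
  have := mul_le_mul_of_nonneg_left (Yf_le one_pos (norm_nonneg x)) zc_pos.le
  calc _ ≤ _ := this
    _ = _ := by ring

lemma ph_eq (x : E3) : ph x = zc / ‖x‖ - pot B0 x := by
  rw [pot_B0]; unfold ph Yf; ring

lemma ph_meas : Measurable ph := by
  unfold ph
  exact measurable_const.mul ((Yf_meas 1).comp measurable_norm)

lemma ae_ne : ∀ᵐ x : E3, 0 < ‖x‖ := by
  have : ∀ᵐ x : E3, x ≠ 0 := by
    rw [ae_iff]
    simp
  filter_upwards [this] with x hx
  exact norm_pos_iff.mpr hx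

/-- `∫_{B} 1/|x|² = 4π` -/
lemma inv_sq_ball : Integrable (fun x : E3 => (ball (0:E3) 1).indicator (fun x => 1 / ‖x‖ ^ 2) x) ∧
    ∫ x : E3, (ball (0:E3) 1).indicator (fun x => 1 / ‖x‖ ^ 2) x = 4 * Real.pi := by
  have e : (fun x : E3 => (ball (0:E3) 1).indicator (fun x => 1 / ‖x‖ ^ 2) x) =
      fun x : E3 => (fun t : ℝ => (Iio (1:ℝ)).indicator (fun t => 1 / t ^ 2) t) ‖x‖ := by
    funext x
    by_cases h : ‖x‖ < 1
    · rw [indicator_of_mem (by simpa using h)]
      show _ = (Iio (1:ℝ)).indicator (fun t => 1 / t ^ 2) ‖x‖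
      rw [indicator_of_mem (by simpa using h)]
    · rw [indicator_of_notMem (by simpa using h)]
      show _ = (Iio (1:ℝ)).indicator (fun t => 1 / t ^ 2) ‖x‖
      rw [indicator_of_notMem (by simpa using h)]
  have e2 : ∀ t ∈ Ioi (0:ℝ), t ^ 2 * (Iio (1:ℝ)).indicator (fun t => 1 / t ^ 2) t =
      (Iio (1:ℝ)).indicator (fun _ => (1:ℝ)) t := by
    intro t ht
    have ht0 : (0:ℝ) < t := ht
    by_cases h : t < 1
    · rw [indicator_of_mem (by simpa using h), indicator_of_mem (by simpa using h)]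
      field_simp
    · rw [indicator_of_notMem (by simpa using h), indicator_of_notMem (by simpa using h), mul_zero]
  rw [e]
  constructor
  · rw [integrable_radial, integrableOn_congr_fun e2 measurableSet_Ioi]
    rw [← integrable_indicator_iff measurableSet_Ioi, indicator_indicator, Ioi_inter_Iio,
      integrable_indicator_iff measurableSet_Ioo]
    exact integrableOn_const (by simp)
  · rw [int_radial, setIntegral_congr_fun measurableSet_Ioi e2]
    rw [setIntegral_indicator measurableSet_Iio, Ioi_inter_Iio]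
    simp

/-- `∫ φ² ≤ 4π z²` -/
lemma ph_sq : Integrable (fun x => ph x ^ 2) ∧ ∫ x, ph x ^ 2 ≤ 4 * Real.pi * zc ^ 2 := by
  obtain ⟨i, v⟩ := inv_sq_ball
  have hle : ∀ᵐ x : E3, ph x ^ 2 ≤ zc ^ 2 * (ball (0:E3) 1).indicator (fun x => 1 / ‖x‖ ^ 2) x := by
    filter_upwards [ae_ne] with x hx
    by_cases h : ‖x‖ < 1
    · rw [indicator_of_mem (by simpa using h)]
      have := pow_le_pow_left₀ (ph_nonneg hx) (ph_le x) 2
      calc _ ≤ _ := this
        _ = _ := by rw [div_pow]; ring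
    · rw [indicator_of_notMem (by simpa using h), ph_zero (not_lt.1 h)]
      simp
  have i2 : Integrable (fun x => ph x ^ 2) := by
    refine (i.const_mul (zc ^ 2)).mono' (ph_meas.pow_const 2).aestronglyMeasurable ?_
    filter_upwards [hle] with x hx
    rwa [Real.norm_of_nonneg (by positivity)]
  refine ⟨i2, ?_⟩
  calc ∫ x, ph x ^ 2 ≤ ∫ x, zc ^ 2 * (ball (0:E3) 1).indicator (fun x => 1 / ‖x‖ ^ 2) x :=
        integral_mono_ae i2 (i.const_mul _) hle
    _ = _ := by rw [integral_const_mul, v]; ring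

lemma ph_int : Integrable ph := by
  have hB := B0_nice.2.1
  refine (hB.add ph_sq.1).mono' ph_meas.aestronglyMeasurable ?_
  filter_upwards [ae_ne] with x hx
  rw [Real.norm_of_nonneg (ph_nonneg hx)]
  show ph x ≤ B0 x + ph x ^ 2
  unfold B0
  by_cases h : ‖x‖ < 1
  · rw [indicator_of_mem (by simpa using h)]
    nlinarith [sq_nonneg (ph x - 1)]
  · rw [indicator_of_notMem (by simpa using h), ph_zero (not_lt.1 h)]
    simp

/-- the densities considered: nonnegative, integrable, with integrable `p`-th power -/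
structure Dens (p : ℝ) (ρ : E3 → ℝ) : Prop where
  nonneg : ∀ x, 0 ≤ ρ x
  int : Integrable ρ
  int_pow : Integrable (fun x => ρ x ^ p)

lemma Dens.int53 {p : ℝ} (hp : 2 ≤ p) {ρ : E3 → ℝ} (h : Dens p ρ) :
    Integrable (fun x => ρ x ^ (5/3 : ℝ)) := by
  refine (h.int.add h.int_pow).mono' ?_ (ae_of_all _ fun x => ?_)
  · exact (h.int.aestronglyMeasurable.aemeasurable.pow_const _).aestronglyMeasurable
  · have h0 := h.nonneg x
    rw [Real.norm_of_nonneg (by positivity)]
    show ρ x ^ (5/3 : ℝ) ≤ ρ x + ρ x ^ p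
    rcases le_total (ρ x) 1 with h1 | h1
    · have h2 : ρ x ^ (5/3 : ℝ) ≤ ρ x := by
        rcases h0.eq_or_lt with h3 | h3
        · rw [← h3, Real.zero_rpow (by norm_num)]
        · calc ρ x ^ (5/3 : ℝ) ≤ ρ x ^ (1:ℝ) :=
              Real.rpow_le_rpow_of_exponent_ge h3 h1 (by norm_num)
            _ = ρ x := Real.rpow_one _
      have : 0 ≤ ρ x ^ p := by positivity
      linarith
    · have : ρ x ^ (5/3 : ℝ) ≤ ρ x ^ p := Real.rpow_le_rpow_of_exponent_le h1 (by linarith)
      linarith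

lemma Dens.div_norm {p : ℝ} (hp : 2 ≤ p) {ρ : E3 → ℝ} (h : Dens p ρ) :
    Integrable (fun x => ρ x / ‖x‖) := by
  have h53 := h.int53 hp
  obtain ⟨g, hgm, hge⟩ : ∃ g : E3 → ℝ, Measurable g ∧ ρ =ᵐ[volume] g :=
    ⟨h.int.aestronglyMeasurable.mk ρ, h.int.aestronglyMeasurable.stronglyMeasurable_mk.measurable,
      h.int.aestronglyMeasurable.ae_eq_mk⟩
  have hg : Nice g := by
    refine ⟨hgm, h.int.congr hge, h53.congr ?_⟩
    filter_upwards [hge] with x hx
    rw [← hx, abs_of_nonneg (h.nonneg x)]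
  obtain ⟨B, hB⟩ := nice_bound g hg
  refine ((hB 0).1).congr ?_
  filter_upwards [hge] with x hx
  rw [← hx, zero_sub, norm_neg]

/-- the energy without the gradient term, `γ = 1`, `z = 4π/3` -/
noncomputable def en0 (p : ℝ) (ρ : E3 → ℝ) : ℝ :=
  1 / p * (∫ x, ρ x ^ p) - (∫ x, zc / ‖x‖ * ρ x) + 1/2 * ∫ x, ∫ y, ρ x * ρ y / ‖x - y‖

/-- the excess integrand -/
lemma low {p : ℝ} (hp : 2 ≤ p) {ρ : E3 → ℝ} (h : Dens p ρ) :
    Integrable (fun x => 1 / p * ρ x ^ p - ph x * ρ x) ∧
    (∫ x, (1 / p * ρ x ^ p - ph x * ρ x)) - 1/2 * (∫ x, B0 x * pot B0 x) ≤ en0 p ρ := by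
  obtain ⟨d1, d2⟩ := dual_coulomb h.nonneg h.int (h.int53 hp) B0_nice
  have i1 : Integrable (fun x => zc / ‖x‖ * ρ x) := by
    refine ((h.div_norm hp).const_mul zc).congr (ae_of_all _ fun x => ?_)
    show zc * (ρ x / ‖x‖) = zc / ‖x‖ * ρ x
    ring
  have i2 : Integrable (fun x => ph x * ρ x) := by
    refine (i1.sub d1).congr (ae_of_all _ fun x => ?_)
    show zc / ‖x‖ * ρ x - ρ x * pot B0 x = ph x * ρ x
    rw [ph_eq]; ring
  have i3 := h.int_pow.const_mul (1 / p)
  refine ⟨i3.sub i2, ?_⟩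
  rw [integral_sub i3 i2, integral_const_mul]
  have e : ∫ x, ph x * ρ x = (∫ x, zc / ‖x‖ * ρ x) - ∫ x, ρ x * pot B0 x := by
    rw [← integral_sub i1 d1]
    refine integral_congr_ae (ae_of_all _ fun x => ?_)
    show ph x * ρ x = zc / ‖x‖ * ρ x - ρ x * pot B0 x
    rw [ph_eq]; ring
  rw [e]
  unfold en0
  linarith

/-- If the excess integrand exceeds the baseline by `G` on a set, the energy has a gap. -/
lemma gap {p : ℝ} (hp : 2 ≤ p) {ρ : E3 → ℝ} (h : Dens p ρ) {S : Set E3} (hS : MeasurableSet S)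
    (hS1 : volume S ≠ ∞) {c : ℝ} (hc : ∀ᵐ x : E3, x ∈ S → c ≤ 1 / p * ρ x ^ p - ph x * ρ x + ph x) :
    c * (volume S).toReal - (∫ x, ph x) - 4 * Real.pi * zc ^ 2 / p - 1/2 * (∫ x, B0 x * pot B0 x)
      ≤ en0 p ρ := by
  have hp0 : 0 < p := by linarith
  obtain ⟨l1, l2⟩ := low hp h
  obtain ⟨q1, q2⟩ := ph_sq
  have q3 := ph_int
  have hind : Integrable (S.indicator fun _ : E3 => c) := by
    rw [integrable_indicator_iff hS]
    exact integrableOn_const hS1
  have key : ∫ x, (S.indicator (fun _ => c) x - ph x - 1 / p * ph x ^ 2) ≤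
      ∫ x, (1 / p * ρ x ^ p - ph x * ρ x) := by
    refine integral_mono_ae ((hind.sub q3).sub (q1.const_mul _)) l1 ?_
    filter_upwards [hc, ae_ne] with x hx hx0
    show S.indicator (fun _ => c) x - ph x - 1 / p * ph x ^ 2 ≤ 1 / p * ρ x ^ p - ph x * ρ x
    by_cases hxS : x ∈ S
    · rw [indicator_of_mem hxS]
      have h1 := hx hxS
      have h2 : 0 ≤ 1 / p * ph x ^ 2 := by positivity
      linarith
    · rw [indicator_of_notMem hxS]
      have h1 := young_p hp (h.nonneg x) (ph_nonneg hx0)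
      have e1 : ρ x ^ p / p = 1 / p * ρ x ^ p := by ring
      have e2 : ph x ^ 2 / p = 1 / p * ph x ^ 2 := by ring
      rw [e1, e2] at h1
      linarith
  have i1 : Integrable (fun x => S.indicator (fun _ => c) x - ph x) := hind.sub q3
  rw [integral_sub i1 (q1.const_mul _), integral_sub hind q3, integral_const_mul,
    integral_indicator hS, setIntegral_const, smul_eq_mul] at key
  have h3 : 1 / p * (∫ x, ph x ^ 2) ≤ 4 * Real.pi * zc ^ 2 / p := by
    calc 1 / p * (∫ x, ph x ^ 2) ≤ 1 / p * (4 * Real.pi * zc ^ 2) := by gcongr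
      _ = _ := by ring
  have e : volume.real S = (volume S).toReal := rfl
  rw [e] at key
  linarith

end Pool.Agent.R999.Conv
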