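import Pool.Agent.R999.Conv

/-!
# Densities with convex root are far from minimal when `p` is large
-/

set_option autoImplicit false

namespace Pool.Agent.R999.Conv

open MeasureTheory Set Filter Topology Metric
open Pool.Agent.TH791.Cl Pool.Agent.TH791.Nw Pool.Agent.R999.Newton Pool.Agent.R999.FAf
open scoped ENNReal

/-- a convex profile of an integrable density is nonincreasing -/
lemma anti {ρ : E3 → ℝ} {f : ℝ → ℝ} (h0 : ∀ x, 0 ≤ ρ x) (hi : Integrable ρ)
    (hf : ConvexOn ℝ (Ici 0) f) (h : ∀ᵐ x : E3, √(ρ x) = f ‖x‖) {r1 r2 : ℝ} (hr1 : 0 ≤ r1)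
    (hr : r1 < r2) : f r2 ≤ f r1 := by
  by_contra hc
  push Not at hc
  set m : ℝ := (f r2 - f r1) / (r2 - r1) with hm
  have hm0 : 0 < m := div_pos (by linarith) (by linarith)
  set R0 : ℝ := r2 + (|f r2| + 1) / m with hR0
  have hR : r2 < R0 := by
    have : 0 < (|f r2| + 1) / m := by positivity
    linarith
  have hlow : ∀ r, R0 ≤ r → 1 ≤ f r := by
    intro r hr'
    have h1 := hf.slope_mono_adjacent (x := r1) (y := r2) (z := r) hr1
      (show (0:ℝ) ≤ r by linarith) hr (by linarith)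
    have h2 : m * (r - r2) ≤ f r - f r2 := by
      rw [← hm] at h1
      rwa [le_div_iff₀ (by linarith)] at h1
    have h3 : |f r2| + 1 ≤ m * (r - r2) := by
      have : (|f r2| + 1) / m ≤ r - r2 := by linarith
      rw [div_le_iff₀ hm0] at this
      linarith
    have := neg_abs_le (f r2)
    linarith
  have hfin : volume {x : E3 | 1 ≤ ρ x} < ∞ := by
    have := hi.measure_norm_ge_lt_top one_pos
    refine lt_of_le_of_lt (measure_mono fun x hx => ?_) this
    show 1 ≤ ‖ρ x‖
    rw [Real.norm_of_nonneg (h0 x)]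
    exact hx
  have hsub : ∀ᵐ x : E3, x ∈ (ball (0:E3) R0)ᶜ → x ∈ {x : E3 | 1 ≤ ρ x} := by
    filter_upwards [h] with x hx hxR
    have h1 : R0 ≤ ‖x‖ := by simpa using hxR
    have h2 := hlow _ h1
    rw [← hx] at h2
    show 1 ≤ ρ x
    calc (1:ℝ) = 1 ^ 2 := by norm_num
      _ ≤ (√(ρ x)) ^ 2 := by gcongr
      _ = ρ x := Real.sq_sqrt (h0 x)
  have hle : volume (ball (0:E3) R0)ᶜ ≤ volume {x : E3 | 1 ≤ ρ x} := measure_mono_ae hsub
  have hball : volume (ball (0:E3) R0) < ∞ := measure_ball_lt_top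
  have huniv : volume (univ : Set E3) = ∞ := measure_univ_of_isAddLeftInvariant _
  have h3 : volume (univ : Set E3) ≤ volume (ball (0:E3) R0) + volume (ball (0:E3) R0)ᶜ := by
    rw [← union_compl_self (ball (0:E3) R0)]
    exact measure_union_le _ _
  rw [huniv] at h3
  have h4 : volume (ball (0:E3) R0) + volume (ball (0:E3) R0)ᶜ < ∞ :=
    ENNReal.add_lt_top.2 ⟨hball, lt_of_le_of_lt hle hfin⟩
  exact absurd (lt_of_le_of_lt h3 h4) (lt_irrefl _)

/-- the shell `a ≤ |x| < b` -/
def shell (a b : ℝ) : Set E3 := ball 0 b \ ball 0 a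

lemma shell_meas (a b : ℝ) : MeasurableSet (shell a b) := measurableSet_ball.diff measurableSet_ball

lemma mem_shell {a b : ℝ} {x : E3} : x ∈ shell a b ↔ a ≤ ‖x‖ ∧ ‖x‖ < b := by
  unfold shell
  simp only [Set.mem_sdiff, mem_ball_zero_iff, not_lt]
  exact and_comm

lemma vol_ball {b : ℝ} (hb : 0 ≤ b) : (volume (ball (0:E3) b)).toReal = zc * b ^ 3 := by
  rw [EuclideanSpace.volume_ball_fin_three]
  have := Real.pi_pos
  rw [← ENNReal.ofReal_pow hb, ← ENNReal.ofReal_mul (by positivity), ENNReal.toReal_ofReal (by positivity)]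
  unfold zc
  ring

lemma shell_vol {a b : ℝ} (ha : 0 ≤ a) (hab : a ≤ b) :
    volume (shell a b) ≠ ∞ ∧ (volume (shell a b)).toReal = zc * (b ^ 3 - a ^ 3) := by
  have hsub : ball (0:E3) a ⊆ ball 0 b := ball_subset_ball hab
  have hfa : volume (ball (0:E3) a) ≠ ∞ := measure_ball_lt_top.ne
  have hfb : volume (ball (0:E3) b) ≠ ∞ := measure_ball_lt_top.ne
  unfold shell
  rw [measure_sdiff hsub measurableSet_ball.nullMeasurableSet hfa]
  refine ⟨ENNReal.sub_ne_top hfb, ?_⟩
  rw [ENNReal.toReal_sub_of_le (measure_mono hsub) hfb, vol_ball ha, vol_ball (ha.trans hab)]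
  ring

/-- the exponent -/
noncomputable def pc : ℝ := 100000

lemma pc_ge : (2:ℝ) ≤ pc := by unfold pc; norm_num

lemma big_pow {s : ℝ} (hs : 1.21 ≤ s) : 100 * s ≤ 1 / pc * s ^ pc := by
  have hs0 : 0 < s := by linarith
  have h1 : s ^ pc = s * s ^ (99999 : ℕ) := by
    unfold pc
    rw [show (100000 : ℝ) = ((100000 : ℕ) : ℝ) by norm_num, Real.rpow_natCast, ← pow_succ']
  have h2 : (1.21 : ℝ) ^ (96 : ℕ) ≤ s ^ (99999 : ℕ) := by
    calc (1.21 : ℝ) ^ (96 : ℕ) ≤ 1.21 ^ (99999 : ℕ) := by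
          apply pow_le_pow_right₀ (by norm_num) (by norm_num)
      _ ≤ s ^ (99999 : ℕ) := pow_le_pow_left₀ (by norm_num) hs _
  have h3 : (10000000 : ℝ) ≤ 1.21 ^ (96 : ℕ) := by norm_num
  have h4 : 10000000 ≤ s ^ (99999 : ℕ) := h3.trans h2
  rw [h1]
  unfold pc
  have h5 := mul_le_mul_of_nonneg_left h4 hs0.le
  linarith

lemma Yf_low {r : ℝ} (h1 : 3/4 ≤ r) (h2 : r ≤ 7/8) : 11/448 ≤ Yf 1 r := by
  have hr : 0 < r := by linarith
  rw [Yf_eq one_pos hr (by linarith)]
  rw [le_div_iff₀ (by positivity)]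
  have h3 : (1/8 : ℝ) ^ 2 ≤ (1 - r) ^ 2 := pow_le_pow_left₀ (by norm_num) (by linarith) 2
  have h4 : (1/8 : ℝ) ^ 2 * (2 * 1 + r) ≤ (1 - r) ^ 2 * (2 * 1 + r) := by gcongr
  have h5 : 11/448 * (2 * 1 ^ 3 * r) ≤ (1/8 : ℝ) ^ 2 * (2 * 1 + r) := by
    norm_num
    linarith
  linarith

/-- numerical lower bound for the gap -/
noncomputable def gapc : ℝ := 19/100 * (11/448) * zc ^ 2 * (127/512)

/-- **Gap for convex profiles.** -/
theorem convex_gap {ρ : E3 → ℝ} (h : Dens pc ρ) (hm : ∫ x, ρ x ≤ zc) {f : ℝ → ℝ}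
    (hf : ConvexOn ℝ (Ici 0) f) (hfe : ∀ᵐ x : E3, √(ρ x) = f ‖x‖) :
    gapc - (∫ x, ph x) - 4 * Real.pi * zc ^ 2 / pc - 1/2 * (∫ x, B0 x * pot B0 x) ≤ en0 pc ρ := by
  have hz := zc_pos
  have hpi := Real.pi_pos
  have hpi3 := Real.pi_gt_three
  have hpi4 := Real.pi_lt_d2
  have hA := fun {r1 r2 : ℝ} => anti (r1 := r1) (r2 := r2) h.nonneg h.int hf hfe
  have hρ : ∀ᵐ x : E3, 0 ≤ f ‖x‖ ∧ ρ x = f ‖x‖ ^ 2 := by
    filter_upwards [hfe] with x hx
    rw [← hx]
    exact ⟨Real.sqrt_nonneg _, (Real.sq_sqrt (h.nonneg x)).symm⟩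
  rcases le_or_gt (f (3/4)) (9/10) with hc | hc
  · -- the root is small at 3/4
    obtain ⟨s1, s2⟩ := shell_vol (a := 3/4) (b := 7/8) (by norm_num) (by norm_num)
    have hg := gap pc_ge h (shell_meas (3/4) (7/8)) s1 (c := 19/100 * (11/448) * zc) ?_
    · rw [s2] at hg
      refine le_trans (le_of_eq ?_) hg
      unfold gapc
      norm_num
      ring
    · filter_upwards [hρ, ae_ne] with x hx hx0 hxS
      rw [mem_shell] at hxS
      have h1 : f ‖x‖ ≤ 9/10 := by
        rcases hxS.1.eq_or_lt with h2 | h2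
        · rw [← h2]; exact hc
        · exact (hA (by norm_num) h2).trans hc
      have h2 : ρ x ≤ 81/100 := by
        rw [hx.2]
        calc f ‖x‖ ^ 2 ≤ (9/10) ^ 2 := pow_le_pow_left₀ hx.1 h1 2
          _ = _ := by norm_num
      have h3 : 11/448 * zc ≤ ph x := by
        unfold ph
        have := mul_le_mul_of_nonneg_left (Yf_low hxS.1 hxS.2.le) hz.le
        linarith
      have h4 : 0 ≤ 1 / pc * ρ x ^ pc := by
        have := h.nonneg x
        have hp : 0 < pc := by unfold pc; norm_num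
        positivity
      have h5 : ph x * ρ x ≤ ph x * (81/100) := mul_le_mul_of_nonneg_left h2 (ph_nonneg hx0)
      linarith
  · rcases le_or_gt (11/10) (f (1/4)) with hd | hd
    · -- the root is large at 1/4
      obtain ⟨s1, s2⟩ := shell_vol (a := 1/8) (b := 1/4) (by norm_num) (by norm_num)
      have hg := gap pc_ge h (shell_meas (1/8) (1/4)) s1 (c := 1) ?_
      · rw [s2] at hg
        refine le_trans ?_ hg
        have : gapc ≤ 1 * (zc * ((1/4) ^ 3 - (1/8) ^ 3)) := by
          unfold gapc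
          have hzle : zc ≤ 4.2 := by unfold zc; linarith
          nlinarith
        linarith
      · filter_upwards [hρ, ae_ne] with x hx hx0 hxS
        rw [mem_shell] at hxS
        have h1 : 11/10 ≤ f ‖x‖ := hd.trans (hA (norm_nonneg x) hxS.2)
        have h2 : 1.21 ≤ ρ x := by
          rw [hx.2]
          calc (1.21 : ℝ) = (11/10) ^ 2 := by norm_num
            _ ≤ f ‖x‖ ^ 2 := pow_le_pow_left₀ (by norm_num) h1 2
        have h3 := big_pow h2
        have h4 : ph x ≤ 34 := by
          refine (ph_le x).trans ?_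
          rw [div_le_iff₀ hx0]
          have : zc ≤ 4.2 := by unfold zc; linarith
          nlinarith [hxS.1]
        have h5 : ph x * ρ x ≤ 34 * ρ x := mul_le_mul_of_nonneg_right h4 (h.nonneg x)
        have h6 := ph_nonneg hx0
        norm_num at h2
        linarith
    · -- too much mass
      exfalso
      have hlow : ∀ r, 0 ≤ r → r ≤ 2 → 4/10 ≤ f r := by
        intro r hr0 hr2
        rcases le_or_gt r (3/4) with h1 | h1
        · rcases h1.eq_or_lt with h2 | h2
          · rw [h2]; linarith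
          · have := hA hr0 h2; linarith
        · have h2 := hf.slope_mono_adjacent (x := 1/4) (y := 3/4) (z := r)
            (show (0:ℝ) ≤ 1/4 by norm_num) (show (0:ℝ) ≤ r by linarith) (by norm_num) h1
          have h3 : -(4/10) ≤ (f (3/4) - f (1/4)) / (3/4 - 1/4) := by
            rw [le_div_iff₀ (by norm_num)]
            linarith
          have h4 : -(4/10) * (r - 3/4) ≤ f r - f (3/4) := by
            have := h3.trans h2
            rwa [le_div_iff₀ (by linarith)] at this
          nlinarith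
      have hmass : ∫ x, (ball (0:E3) 2).indicator (fun _ => (16/100 : ℝ)) x ≤ ∫ x, ρ x := by
        refine integral_mono_ae ?_ h.int ?_
        · rw [integrable_indicator_iff measurableSet_ball]
          exact integrableOn_const measure_ball_lt_top.ne
        · filter_upwards [hρ] with x hx
          by_cases hxb : x ∈ ball (0:E3) 2
          · rw [indicator_of_mem hxb, hx.2]
            have h1 : ‖x‖ < 2 := by simpa using hxb
            calc (16/100 : ℝ) = (4/10) ^ 2 := by norm_num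
              _ ≤ f ‖x‖ ^ 2 := pow_le_pow_left₀ (by norm_num) (hlow _ (norm_nonneg x) h1.le) 2
          · rw [indicator_of_notMem hxb]
            exact h.nonneg x
      rw [integral_indicator measurableSet_ball, setIntegral_const, smul_eq_mul] at hmass
      have e : volume.real (ball (0:E3) 2) = zc * 2 ^ 3 := vol_ball (by norm_num)
      rw [e] at hmass
      nlinarith

/-- `∫_{|x|<a} 1/|x| = 2π a²` -/
lemma inv_ball {a : ℝ} (ha : 0 < a) : Integrable (fun x : E3 => (ball (0:E3) a).indicator (fun x => 1 / ‖x‖) x) ∧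
    ∫ x : E3, (ball (0:E3) a).indicator (fun x => 1 / ‖x‖) x = 2 * Real.pi * a ^ 2 := by
  have e : (fun x : E3 => (ball (0:E3) a).indicator (fun x => 1 / ‖x‖) x) =
      fun x : E3 => (fun t : ℝ => (Iio a).indicator (fun t => 1 / t) t) ‖x‖ := by
    funext x
    by_cases h : ‖x‖ < a
    · rw [indicator_of_mem (by simpa using h)]
      show _ = (Iio a).indicator (fun t => 1 / t) ‖x‖
      rw [indicator_of_mem (by simpa using h)]
    · rw [indicator_of_notMem (by simpa using h)]
      show _ = (Iio a).indicator (fun t => 1 / t) ‖x‖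
      rw [indicator_of_notMem (by simpa using h)]
  have e2 : ∀ t ∈ Ioi (0:ℝ), t ^ 2 * (Iio a).indicator (fun t => 1 / t) t =
      (Iio a).indicator (fun t => t) t := by
    intro t ht
    have ht0 : (0:ℝ) < t := ht
    by_cases h : t < a
    · rw [indicator_of_mem (by simpa using h), indicator_of_mem (by simpa using h)]
      field_simp
    · rw [indicator_of_notMem (by simpa using h), indicator_of_notMem (by simpa using h), mul_zero]
  have hI : IntegrableOn (fun t : ℝ => t) (Ioc 0 a) :=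
    (continuous_id.integrableOn_Icc).mono_set Ioc_subset_Icc_self
  rw [e]
  constructor
  · rw [integrable_radial, integrableOn_congr_fun e2 measurableSet_Ioi]
    rw [← integrable_indicator_iff measurableSet_Ioi, indicator_indicator, Ioi_inter_Iio,
      integrable_indicator_iff measurableSet_Ioo]
    exact hI.mono_set Ioo_subset_Ioc_self
  · rw [int_radial, setIntegral_congr_fun measurableSet_Ioi e2]
    rw [setIntegral_indicator measurableSet_Iio, Ioi_inter_Iio, ← integral_Ioc_eq_integral_Ioo,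
      ← intervalIntegral.integral_of_le ha.le, integral_id]
    ring

/-- `∫ φ = 2π z - ∫ B₀ pot B₀` -/
lemma ph_total : ∫ x, ph x = 2 * Real.pi * zc - ∫ x, B0 x * pot B0 x := by
  obtain ⟨i1, v1⟩ := inv_ball one_pos
  have i2 := pd_int B0 B0 B0_nice B0_nice
  have e : ∀ x : E3, ph x = zc * (ball (0:E3) 1).indicator (fun x => 1 / ‖x‖) x - B0 x * pot B0 x := by
    intro x
    unfold B0
    by_cases h : x ∈ ball (0:E3) 1
    · rw [indicator_of_mem h, indicator_of_mem h, ph_eq]
      unfold B0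
      ring
    · rw [indicator_of_notMem h, indicator_of_notMem h, ph_zero (by simpa using h)]
      ring
  rw [integral_congr_ae (ae_of_all _ e), integral_sub (i1.const_mul _) i2, integral_const_mul, v1]
  ring

/-- upper bound for a trial density between the indicators of two balls -/
lemma trial_up {p a : ℝ} (hp : 2 ≤ p) (ha : 0 < a) {ρ : E3 → ℝ} (hm : Measurable ρ)
    (h0 : ∀ x, 0 ≤ ρ x)
    (h1 : ∀ x, ρ x ≤ B0 x) (h2 : ∀ x, ‖x‖ < a → ρ x = 1) :
    Dens p ρ ∧ ∫ x, ρ x ≤ zc ∧
    en0 p ρ ≤ zc / p - 2 * Real.pi * zc * a ^ 2 + 1/2 * (∫ x, B0 x * pot B0 x) := by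
  have hp0 : 0 < p := by linarith
  have hz := zc_pos
  have hB := B0_nice
  have hB1 : ∀ x, B0 x ≤ 1 := by
    intro x; unfold B0
    exact indicator_le_self' (fun _ _ => zero_le_one) x |>.trans le_rfl
  have hi : Integrable ρ := hB.2.1.mono' hm.aestronglyMeasurable (ae_of_all _ fun x => by
    rw [Real.norm_of_nonneg (h0 x)]; exact h1 x)
  have hpow : ∀ x, ρ x ^ p ≤ ρ x := by
    intro x
    rcases (h0 x).eq_or_lt with h | h
    · rw [← h, Real.zero_rpow (by linarith)]
    · calc ρ x ^ p ≤ ρ x ^ (1:ℝ) :=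
          Real.rpow_le_rpow_of_exponent_ge h ((h1 x).trans (hB1 x)) (by linarith)
        _ = ρ x := Real.rpow_one _
  have hip : Integrable (fun x => ρ x ^ p) := by
    refine hi.mono' (hm.pow_const p).aestronglyMeasurable (ae_of_all _ fun x => ?_)
    rw [Real.norm_of_nonneg (Real.rpow_nonneg (h0 x) _)]
    exact hpow x
  have hD : Dens p ρ := ⟨h0, hi, hip⟩
  have hmass : ∫ x, ρ x ≤ zc := by
    rw [← B0_mass]
    exact integral_mono hi hB.2.1 h1
  refine ⟨hD, hmass, ?_⟩
  have t1 : ∫ x, ρ x ^ p ≤ zc := (integral_mono hip hi hpow).trans hmass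
  obtain ⟨i1, v1⟩ := inv_ball ha
  have i2 : Integrable (fun x => zc / ‖x‖ * ρ x) := by
    refine ((hD.div_norm hp).const_mul zc).congr (ae_of_all _ fun x => ?_)
    show zc * (ρ x / ‖x‖) = zc / ‖x‖ * ρ x
    ring
  have t2 : 2 * Real.pi * zc * a ^ 2 ≤ ∫ x, zc / ‖x‖ * ρ x := by
    have e : 2 * Real.pi * zc * a ^ 2 = ∫ x : E3, zc * (ball (0:E3) a).indicator (fun x => 1 / ‖x‖) x := by
      rw [integral_const_mul, v1]; ring
    rw [e]
    refine integral_mono (i1.const_mul _) i2 fun x => ?_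
    show zc * (ball (0:E3) a).indicator (fun x => 1 / ‖x‖) x ≤ zc / ‖x‖ * ρ x
    by_cases h : x ∈ ball (0:E3) a
    · rw [indicator_of_mem h, h2 x (by simpa using h)]
      apply le_of_eq; ring
    · rw [indicator_of_notMem h, mul_zero]
      have := h0 x
      positivity
  have hN : Nice ρ := by
    refine ⟨hm, hi, (hD.int53 hp).congr (ae_of_all _ fun x => ?_)⟩
    show ρ x ^ (5/3 : ℝ) = |ρ x| ^ (5/3 : ℝ)
    rw [abs_of_nonneg (h0 x)]
  have t3 : ∫ x, ∫ y, ρ x * ρ y / ‖x - y‖ ≤ ∫ x, B0 x * pot B0 x := by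
    have e : ∀ x, ∫ y, ρ x * ρ y / ‖x - y‖ = ρ x * pot ρ x := fun x => pd_inner ρ ρ x
    simp only [e]
    refine integral_mono (pd_int ρ ρ hN hN) (pd_int B0 B0 hB hB) fun x => ?_
    have hpot0 : 0 ≤ pot ρ x := integral_nonneg fun y => div_nonneg (h0 y) (norm_nonneg _)
    have hpot : pot ρ x ≤ pot B0 x := by
      obtain ⟨C1, hC1⟩ := nice_bound ρ hN
      obtain ⟨C2, hC2⟩ := nice_bound B0 hB
      have j1 : Integrable (fun y => ρ y / ‖x - y‖) := (hC1 x).1
      have j2 : Integrable (fun y => B0 y / ‖x - y‖) := (hC2 x).1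
      refine integral_mono j1 j2 fun y => ?_
      exact div_le_div_of_nonneg_right (h1 y) (norm_nonneg _)
    exact mul_le_mul (h1 x) hpot hpot0 ((h0 x).trans (h1 x))
  unfold en0
  have t4 : 1 / p * ∫ x, ρ x ^ p ≤ zc / p := by
    calc 1 / p * ∫ x, ρ x ^ p ≤ 1 / p * zc := by gcongr
      _ = _ := by ring
  linarith

end Pool.Agent.R999.Conv
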