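import Pool.Agent.R999.Brg

/-!
# Ionic Thomas-Fermi molecules: existence, uniform bounds
-/

set_option autoImplicit false

namespace Pool.Agent.R999.Ex

open MeasureTheory Set Filter Topology Metric
open Pool.Agent.TH791.Cl Pool.Agent.TH791.Nw Pool.Agent.R999.Pot Pool.Agent.R999.MinP
open Pool.Agent.R999.Newton
open scoped ENNReal

variable {ι : Type*} [Fintype ι]

/-- a solution of the Thomas-Fermi equation without chemical potential has at least the nuclear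
charge -/
lemma mass_ge {γ : ℝ} (hγ : 0 < γ) {z : ι → ℝ} (hz : ∀ j, 0 ≤ z j) {R : ι → E3} {ρ : E3 → ℝ}
    (hρ : MD ρ) (heq : ∀ᵐ x, γ * ρ x ^ (2/3 : ℝ) = Vn z R x - pot ρ x) :
    ∑ j, z j ≤ ∫ x, ρ x := by
  have hpi := Real.pi_pos
  set Z : ℝ := ∑ j, z j with hZ
  have hZ0 : 0 ≤ Z := Finset.sum_nonneg fun j _ => hz j
  by_contra hc
  push Not at hc
  set q := Z - ∫ x, ρ x with hq
  have hq0 : 0 < q := by linarith
  -- the shell estimate
  obtain ⟨M, hM0, hM⟩ := phi_decay hz R hρ.nice one_pos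
  set C : ℝ := γ * (2/3 * Z + 1/3 * (28/3 * Real.pi)) with hC
  have hC0 : 0 ≤ C := by positivity
  set a : ℝ := max M (C / (q * (6 * Real.pi)) + 1) with ha
  have haM : M ≤ a := le_max_left _ _
  have ha0 : 0 < a := lt_of_lt_of_le hM0 haM
  have hRa : ∀ j, ‖R j‖ ≤ a := by
    obtain ⟨y, hy⟩ : ∃ y : E3, M ≤ ‖y‖ := by
      refine ⟨EuclideanSpace.single 0 |M|, ?_⟩
      rw [PiLp.norm_single, Real.norm_of_nonneg (abs_nonneg M)]
      exact le_abs_self M
    intro j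
    exact ((hM y hy).1 j).le.trans haM
  set f := sh a (2 * a) with hf
  have hfN : Nice f := sh_md.nice
  set F : ℝ := 2 * Real.pi * ((2 * a) ^ 2 - a ^ 2) with hF
  have hFe : F = 6 * Real.pi * a ^ 2 := by rw [hF]; ring
  obtain ⟨ip, vp⟩ := phi_pair (z := z) (R := R) hρ.nice hfN
  have h1 : q * F ≤ ∫ x, (Vn z R x - pot ρ x) * f x := by
    rw [vp]
    have h2 : ∑ j, z j * pot f (R j) = Z * F := by
      rw [hZ, Finset.sum_mul]
      refine Finset.sum_congr rfl fun j _ => ?_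
      rw [(pot_sh ha0 (by linarith) (R j)).2 (hRa j)]
    have h3 : ∫ x, ρ x * pot f x ≤ (∫ x, ρ x) * F := by
      rw [← integral_mul_const]
      exact integral_mono (pd_int ρ f hρ.nice hfN) (hρ.int.mul_const F) fun x =>
        mul_le_mul_of_nonneg_left (pot_sh ha0 (by linarith) x).1 (hρ.nonneg x)
    rw [h2, hq]
    linarith
  have h4 : ∫ x, (Vn z R x - pot ρ x) * f x ≤ C * a := by
    have h5 : ∫ x, (Vn z R x - pot ρ x) * f x ≤
        ∫ x, (γ * (2/3 * a) * ρ x + γ * (1/3 * (1 / a ^ 2)) * f x) := by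
      refine integral_mono_ae ip ((hρ.int.const_mul _).add (hfN.2.1.const_mul _)) ?_
      filter_upwards [heq] with x hx
      show (Vn z R x - pot ρ x) * f x ≤ γ * (2/3 * a) * ρ x + γ * (1/3 * (1 / a ^ 2)) * f x
      rw [← hx]
      have h0 := hρ.nonneg x
      have hf0 : 0 ≤ f x := sh_nonneg _ _ x
      have hf1 : f x ≤ 1 := sh_le _ _ x
      have hamgm : ρ x ^ (2/3 : ℝ) ≤ 2/3 * (a * ρ x) + 1/3 * (1 / a ^ 2) := by
        have h6 := Real.geom_mean_le_arith_mean2_weighted (w₁ := 2/3) (w₂ := 1/3)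
          (p₁ := a * ρ x) (p₂ := 1 / a ^ 2) (by norm_num) (by norm_num) (by positivity)
          (by positivity) (by norm_num)
        have h7 : (a * ρ x) ^ (2/3 : ℝ) * (1 / a ^ 2) ^ (1/3 : ℝ) = ρ x ^ (2/3 : ℝ) := by
          rw [Real.mul_rpow ha0.le h0, one_div, Real.inv_rpow (by positivity),
            ← Real.rpow_natCast a 2, ← Real.rpow_mul ha0.le]
          have : 0 < a ^ (2/3 : ℝ) := by positivity
          norm_num
          field_simp
        rwa [h7] at h6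
      have h8 : γ * ρ x ^ (2/3 : ℝ) * f x ≤ γ * (2/3 * (a * ρ x) + 1/3 * (1 / a ^ 2)) * f x :=
        mul_le_mul_of_nonneg_right (mul_le_mul_of_nonneg_left hamgm hγ.le) hf0
      have h9 : γ * (2/3 * (a * ρ x)) * f x ≤ γ * (2/3 * (a * ρ x)) * 1 :=
        mul_le_mul_of_nonneg_left hf1 (by positivity)
      linarith
    rw [integral_add (hρ.int.const_mul _) (hfN.2.1.const_mul _), integral_const_mul,
      integral_const_mul, hf, sh_mass ha0.le (by linarith)] at h5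
    refine h5.trans ?_
    have h10 : γ * (1/3 * (1 / a ^ 2)) * (4/3 * Real.pi * ((2 * a) ^ 3 - a ^ 3)) =
        γ * (1/3 * (28/3 * Real.pi)) * a := by
      field_simp; ring
    have h11 : γ * (2/3 * a) * (∫ x, ρ x) ≤ γ * (2/3 * a) * Z :=
      mul_le_mul_of_nonneg_left hc.le (by positivity)
    rw [h10, hC]
    linarith
  have h12 : q * (6 * Real.pi * a ^ 2) ≤ C * a := by rw [← hFe]; linarith
  have h13 : q * (6 * Real.pi) * a ≤ C := by
    have : q * (6 * Real.pi) * a * a ≤ C * a := by linarith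
    exact le_of_mul_le_mul_right this ha0
  have h14 : C / (q * (6 * Real.pi)) + 1 ≤ a := le_max_right _ _
  have h15 : C / (q * (6 * Real.pi)) < a := by linarith
  rw [div_lt_iff₀ (by positivity)] at h15
  linarith

/-- a Thomas-Fermi density with electron number `lam` -/
structure Ion (γ : ℝ) (z : ι → ℝ) (R : ι → E3) (lam μ : ℝ) (ρ : E3 → ℝ) : Prop where
  md : MD ρ
  mass : ∫ x, ρ x = lam
  mu_nonneg : 0 ≤ μ
  eq : ∀ᵐ x, γ * ρ x ^ (2/3 : ℝ) = max (Vn z R x - pot ρ x - μ) 0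
  min : ∀ σ, MD σ → ∫ x, σ x ≤ lam → En γ z R ρ ≤ En γ z R σ

/-- existence of ionic Thomas-Fermi densities -/
theorem ion_ex {γ : ℝ} (hγ : 0 < γ) {z : ι → ℝ} (hz : ∀ j, 0 ≤ z j) (R : ι → E3) {lam : ℝ}
    (h0 : 0 < lam) (h1 : lam ≤ ∑ j, z j) : ∃ μ ρ, Ion γ z R lam μ ρ := by
  obtain ⟨ρ, hρ, hm, hmin⟩ := exists_min hγ hz R h0.le
  obtain ⟨μ, hμ, hel, hcomp⟩ := el hγ h0 hρ hm hmin
  refine ⟨μ, ρ, hρ, ?_, hμ, hel, hmin⟩
  rcases hμ.eq_or_lt with hμ0 | hμp
  · have hNn : Nice (fun x => -ρ x) := nice_neg hρ.nice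
    have hphi : ∀ x, Vn z R x + pot (fun y => -ρ y) x = Vn z R x - pot ρ x := by
      intro x; rw [pot_neg]; ring
    rw [← hμ0] at hel
    have hcond : ∀ᵐ x, Vn z R x - pot ρ x - 0 ≤ 0 → ρ x = 0 := by
      filter_upwards [hel] with x hx hle
      rw [max_eq_right hle] at hx
      by_contra hc
      have : 0 < ρ x := lt_of_le_of_ne (hρ.nonneg x) (Ne.symm hc)
      have : 0 < γ * ρ x ^ (2/3 : ℝ) := by positivity
      linarith
    have hnn : ∀ x, (∀ j, 0 < z j → x ≠ R j) → 0 ≤ Vn z R x - pot ρ x := by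
      intro x hx
      rw [← hphi]
      refine mp_nuc hz hNn ?_ hx
      filter_upwards [hcond] with y hy hlt
      rw [hphi] at hlt
      rw [hy (by linarith)]; simp
    have heq : ∀ᵐ x, γ * ρ x ^ (2/3 : ℝ) = Vn z R x - pot ρ x := by
      filter_upwards [hel, nuc_null R] with x hx hne
      rw [hx, sub_zero, max_eq_left (hnn x fun j _ => hne j)]
    have := mass_ge hγ hz hρ heq
    linarith
  · rcases mul_eq_zero.1 hcomp with h | h
    · exact absurd h hμp.ne'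
    · linarith

/-- coercivity, uniformly in the positions -/
lemma coercive' {γ : ℝ} (hγ : 0 < γ) {z : ι → ℝ} (hz : ∀ j, 0 ≤ z j) (m : ℝ) :
    ∃ C : ℝ, 0 ≤ C ∧ ∀ (R : ι → E3) (ρ : E3 → ℝ), MD ρ → ∫ x, ρ x ≤ m →
      3/10 * γ * (∫ x, ρ x ^ (5/3 : ℝ)) - C ≤ En γ z R ρ := by
  have hpi := Real.pi_pos
  set Z : ℝ := ∑ j, z j with hZ
  have hZ0 : 0 ≤ Z := Finset.sum_nonneg fun j _ => hz j
  set c : ℝ := (3/10 * γ) / (3/5 * (Z + 1)) with hc
  have hc0 : 0 < c := by positivity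
  set κ : ℝ := c ^ (-(3/5) : ℝ) with hκ
  have hκ0 : 0 < κ := by positivity
  have hκc : κ ^ (-(5/3) : ℝ) = c := by
    rw [hκ, ← Real.rpow_mul hc0.le]; norm_num
  set D : ℝ := 2/5 * κ ^ (5/2 : ℝ) * (8 * Real.pi * √1) with hD
  have hD0 : 0 ≤ D := by positivity
  refine ⟨Z * (D + |m|), by positivity, fun R ρ hρ hm => ?_⟩
  have hA0 : 0 ≤ ∫ x, ρ x ^ (5/3 : ℝ) := integral_nonneg fun x => Real.rpow_nonneg (hρ.nonneg x) _
  have hpot : ∀ x, pot ρ x ≤ 3/5 * c * (∫ x, ρ x ^ (5/3 : ℝ)) + D + |m| := by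
    intro x
    have h1 := kbound hρ.nice hκ0 one_pos x
    have h2 := (le_abs_self _).trans (pot_le_abs hρ.nice x)
    have e1 : ∫ y, |ρ y| ^ (5/3 : ℝ) = ∫ y, ρ y ^ (5/3 : ℝ) := by
      congr 1; funext y; rw [abs_of_nonneg (hρ.nonneg y)]
    have e2 : ∫ y, |ρ y| = ∫ y, ρ y := by
      congr 1; funext y; rw [abs_of_nonneg (hρ.nonneg y)]
    rw [hκc, e1, e2] at h1
    have := le_abs_self m
    linarith
  have hs : ∑ j, z j * pot ρ (R j) ≤ Z * (3/5 * c * (∫ x, ρ x ^ (5/3 : ℝ)) + D + |m|) := by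
    rw [hZ, Finset.sum_mul]
    exact Finset.sum_le_sum fun j _ => mul_le_mul_of_nonneg_left (hpot _) (hz j)
  have hc2 : Z * (3/5 * c) ≤ 3/10 * γ := by
    rw [hc]
    have : Z * (3/5 * ((3/10 * γ) / (3/5 * (Z + 1)))) = 3/10 * γ * (Z / (Z + 1)) := by
      field_simp
    rw [this]
    have h1 : Z / (Z + 1) ≤ 1 := (div_le_one (by positivity)).2 (by linarith)
    nlinarith
  have h3 := mul_le_mul_of_nonneg_right hc2 hA0
  have h4 := coul_nonneg hρ.nice
  unfold En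
  nlinarith

/-- the potential is bounded by the two norms -/
lemma pot_bd {ρ : E3 → ℝ} (hρ : MD ρ) (x : E3) :
    pot ρ x ≤ 3/5 * (∫ y, ρ y ^ (5/3 : ℝ)) + 16/5 * Real.pi + ∫ y, ρ y := by
  have h1 := kbound hρ.nice one_pos one_pos x
  have h2 := (le_abs_self _).trans (pot_le_abs hρ.nice x)
  have e1 : ∫ y, |ρ y| ^ (5/3 : ℝ) = ∫ y, ρ y ^ (5/3 : ℝ) := by
    congr 1; funext y; rw [abs_of_nonneg (hρ.nonneg y)]
  have e2 : ∫ y, |ρ y| = ∫ y, ρ y := by
    congr 1; funext y; rw [abs_of_nonneg (hρ.nonneg y)]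
  rw [e1, e2, Real.one_rpow, Real.one_rpow, Real.sqrt_one] at h1
  linarith

/-- bounds that do not depend on the positions -/
theorem ion_bds {γ : ℝ} (hγ : 0 < γ) {z : ι → ℝ} (hz : ∀ j, 0 ≤ z j) {lam : ℝ} (h0 : 0 < lam) :
    ∃ M : ℝ, 0 < M ∧ ∀ (R : ι → E3) (μ : ℝ) (ρ : E3 → ℝ), Ion γ z R lam μ ρ →
      (∫ x, ρ x ^ (5/3 : ℝ) ≤ M) ∧ (∀ x, 0 ≤ pot ρ x ∧ pot ρ x ≤ M) ∧ μ ≤ M := by
  have hpi := Real.pi_pos
  obtain ⟨C, hC, hco⟩ := coercive' hγ hz lam
  set Z : ℝ := ∑ j, z j with hZ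
  have hZ0 : 0 ≤ Z := Finset.sum_nonneg fun j _ => hz j
  set A : ℝ := C / (3/10 * γ) with hA
  have hA0 : 0 ≤ A := by positivity
  set B : ℝ := 3/5 * A + 16/5 * Real.pi + lam with hB
  have hB0 : 0 < B := by positivity
  refine ⟨A + B + Z * B / lam, by positivity, fun R μ ρ h => ?_⟩
  have hm := h.min (fun _ => 0) MD.zero (by simpa using h0.le)
  rw [en_zero] at hm
  have h1 := hco R ρ h.md h.mass.le
  have hT : ∫ x, ρ x ^ (5/3 : ℝ) ≤ A := by
    rw [hA, le_div_iff₀ (by positivity)]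
    linarith
  have hp : ∀ x, pot ρ x ≤ B := fun x => by
    have := pot_bd h.md x
    rw [h.mass] at this
    rw [hB]; linarith
  have hp0 : ∀ x, 0 ≤ pot ρ x := fun x => pot_nonneg h.md.nonneg x
  have hZB : 0 ≤ Z * B / lam := by positivity
  refine ⟨by linarith, fun x => ⟨hp0 x, by linarith [hp x]⟩, ?_⟩
  -- the chemical potential
  have h2 : ∫ x, μ * ρ x ≤ ∫ x, Vn z R x * ρ x := by
    refine integral_mono_ae (h.md.int.const_mul μ) (Vn_mul_int h.md.nice z R).1 ?_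
    filter_upwards [h.eq] with x hx
    have hρ0 := h.md.nonneg x
    show μ * ρ x ≤ Vn z R x * ρ x
    rcases hρ0.eq_or_lt with he | hlt
    · rw [← he]; simp
    · have h3 : 0 < γ * ρ x ^ (2/3 : ℝ) := by positivity
      have h4 : 0 < Vn z R x - pot ρ x - μ := by
        by_contra hc
        push Not at hc
        rw [max_eq_right hc] at hx
        linarith
      have := hp0 x
      exact mul_le_mul_of_nonneg_right (by linarith) hρ0
  rw [integral_const_mul, h.mass, (Vn_mul_int h.md.nice z R).2] at h2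
  have h3 : ∑ j, z j * pot ρ (R j) ≤ Z * B := by
    rw [hZ, Finset.sum_mul]
    exact Finset.sum_le_sum fun j _ => mul_le_mul_of_nonneg_left (hp _) (hz j)
  have h4 : μ ≤ Z * B / lam := by
    rw [le_div_iff₀ h0]; linarith
  linarith

end Pool.Agent.R999.Ex
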