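import Pool.Agent.R999.Dif1

/-!
# Thomas-Fermi densities near the nuclei, and continuity in the nuclear positions
-/

set_option autoImplicit false

namespace Pool.Agent.R999.Ex

open MeasureTheory Set Filter Topology Metric
open Pool.Agent.TH791.Cl Pool.Agent.TH791.Nw Pool.Agent.R999.Pot Pool.Agent.R999.MinP
open Pool.Agent.R999.Newton
open scoped ENNReal

variable {ι : Type*} [Fintype ι]

/-- integrals of powers over balls -/
lemma ball_pow {p L : ℝ} (hp : p < 3) (hL : 0 < L) :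
    Integrable (fun x : E3 => (ball (0:E3) L).indicator (fun x => ‖x‖ ^ (-p)) x) ∧
    ∫ x : E3, (ball (0:E3) L).indicator (fun x => ‖x‖ ^ (-p)) x =
      4 * Real.pi / (3 - p) * L ^ (3 - p) := by
  have e : (fun x : E3 => (ball (0:E3) L).indicator (fun x => ‖x‖ ^ (-p)) x) =
      fun x : E3 => (fun t : ℝ => (Iio L).indicator (fun t => t ^ (-p)) t) ‖x‖ := by
    funext x
    by_cases h : ‖x‖ < L
    · rw [indicator_of_mem (by simpa using h)]
      show _ = (Iio L).indicator (fun t => t ^ (-p)) ‖x‖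
      rw [indicator_of_mem (by simpa using h)]
    · rw [indicator_of_notMem (by simpa using h)]
      show _ = (Iio L).indicator (fun t => t ^ (-p)) ‖x‖
      rw [indicator_of_notMem (by simpa using h)]
  have e2 : ∀ t ∈ Ioi (0:ℝ), t ^ 2 * (Iio L).indicator (fun t => t ^ (-p)) t =
      (Iio L).indicator (fun t => t ^ (2 - p)) t := by
    intro t ht
    have ht0 : (0:ℝ) < t := ht
    by_cases h : t < L
    · rw [indicator_of_mem (by simpa using h), indicator_of_mem (by simpa using h),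
        ← Real.rpow_natCast, ← Real.rpow_add ht0]
      norm_num
      ring_nf
    · rw [indicator_of_notMem (by simpa using h), indicator_of_notMem (by simpa using h), mul_zero]
  have hI : IntegrableOn (fun t : ℝ => t ^ (2 - p)) (Ioo 0 L) :=
    (intervalIntegral.integrableOn_Ioo_rpow_iff hL).2 (by linarith)
  rw [e]
  constructor
  · rw [integrable_radial, integrableOn_congr_fun e2 measurableSet_Ioi]
    rw [← integrable_indicator_iff measurableSet_Ioi, indicator_indicator, Ioi_inter_Iio,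
      integrable_indicator_iff measurableSet_Ioo]
    exact hI
  · rw [int_radial, setIntegral_congr_fun measurableSet_Ioi e2]
    rw [setIntegral_indicator measurableSet_Iio, Ioi_inter_Iio, ← integral_Ioc_eq_integral_Ioo,
      ← intervalIntegral.integral_of_le hL.le, integral_rpow (Or.inl (by linarith))]
    rw [Real.zero_rpow (by linarith)]
    have h3 : 3 - p ≠ 0 := by linarith
    have e3 : 2 - p + 1 = 3 - p := by ring
    rw [e3]
    field_simp
    ring

lemma pow_sub_le {p a b : ℝ} (hp : 1 ≤ p) (hb : 0 ≤ b) (hab : b ≤ a) :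
    a ^ p - b ^ p ≤ p * a ^ (p - 1) * (a - b) := by
  rcases (hb.trans hab).eq_or_lt with h | h
  · have : b = 0 := le_antisymm (by linarith) hb
    rw [this, ← h]; simp
  · have h1 := one_add_mul_self_le_rpow_one_add (s := b / a - 1)
      (by have := div_nonneg hb h.le; linarith) hp
    rw [add_sub_cancel, Real.div_rpow hb h.le, le_div_iff₀ (by positivity)] at h1
    have h2 : a ^ p = a ^ (p - 1) * a := by
      rw [← Real.rpow_add_one h.ne']; ring_nf
    have h3 : (1 + p * (b / a - 1)) * a ^ p = a ^ p - p * a ^ (p - 1) * (a - b) := by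
      rw [h2]; field_simp; ring
    linarith

lemma max_pow {p a b : ℝ} (hp : 1 ≤ p) (ha : 0 ≤ a) :
    |(max (a + b) 0) ^ p - a ^ p| ≤ p * (a + |b|) ^ (p - 1) * |b| := by
  set m := max (a + b) 0 with hm
  have hm0 : 0 ≤ m := le_max_right _ _
  have h1 : m ≤ a + |b| := max_le (by linarith [le_abs_self b]) (by positivity)
  have h2 : a - |b| ≤ m := le_trans (by linarith [neg_abs_le b]) (le_max_left _ _)
  have h3 : a ≤ a + |b| := by linarith [abs_nonneg b]
  rcases le_total a m with h | h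
  · rw [abs_of_nonneg (sub_nonneg.2 (Real.rpow_le_rpow ha h (by linarith)))]
    refine (pow_sub_le hp ha h).trans ?_
    have h4 : m ^ (p - 1) ≤ (a + |b|) ^ (p - 1) := Real.rpow_le_rpow hm0 h1 (by linarith)
    have h5 : 0 ≤ m ^ (p - 1) := Real.rpow_nonneg hm0 _
    have h6 : p * m ^ (p - 1) ≤ p * (a + |b|) ^ (p - 1) := mul_le_mul_of_nonneg_left h4 (by linarith)
    exact mul_le_mul h6 (by linarith) (by linarith) (h6.trans' (by positivity))
  · rw [abs_sub_comm, abs_of_nonneg (sub_nonneg.2 (Real.rpow_le_rpow hm0 h (by linarith)))]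
    refine (pow_sub_le hp hm0 h).trans ?_
    have h4 : a ^ (p - 1) ≤ (a + |b|) ^ (p - 1) := Real.rpow_le_rpow ha h3 (by linarith)
    have h5 : 0 ≤ a ^ (p - 1) := Real.rpow_nonneg ha _
    have h6 : p * a ^ (p - 1) ≤ p * (a + |b|) ^ (p - 1) := mul_le_mul_of_nonneg_left h4 (by linarith)
    exact mul_le_mul h6 (by linarith) (by linarith) (h6.trans' (by positivity))

/-- the leading singularity of a Thomas-Fermi density at a nucleus of charge `w` -/
noncomputable def cusp (γ w : ℝ) (u : E3) : ℝ := (w / γ / ‖u‖) ^ (3/2 : ℝ)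

lemma cusp_nonneg {γ w : ℝ} (hγ : 0 < γ) (hw : 0 ≤ w) (u : E3) : 0 ≤ cusp γ w u :=
  Real.rpow_nonneg (by positivity) _

lemma cusp_neg (γ w : ℝ) (u : E3) : cusp γ w (-u) = cusp γ w u := by unfold cusp; rw [norm_neg]

lemma cusp_meas (γ w : ℝ) : Measurable (cusp γ w) :=
  (measurable_const.div measurable_norm).pow_const _

lemma cusp_eq {γ w : ℝ} (hγ : 0 < γ) (hw : 0 ≤ w) (u : E3) :
    cusp γ w u = (w / γ) ^ (3/2 : ℝ) * ‖u‖ ^ (-(3/2) : ℝ) := by
  unfold cusp
  rw [Real.div_rpow (by positivity) (norm_nonneg _), Real.rpow_neg (norm_nonneg _)]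
  rfl

/-- an ionic Thomas-Fermi density, normalised pointwise -/
structure IonC (γ : ℝ) (z : ι → ℝ) (R : ι → E3) (lam μ : ℝ) (ρ : E3 → ℝ) : Prop
    extends Ion γ z R lam μ ρ where
  can : ∀ x, ρ x = (max (Vn z R x - pot ρ x - μ) 0 / γ) ^ (3/2 : ℝ)

lemma Vn_meas (z : ι → ℝ) (R : ι → E3) : Measurable (Vn z R) := by
  unfold Vn
  exact Finset.measurable_sum _ fun j _ => measurable_const.div (measurable_id.sub_const _).norm

theorem ionC_ex {γ : ℝ} (hγ : 0 < γ) {z : ι → ℝ} (hz : ∀ j, 0 ≤ z j) (R : ι → E3) {lam : ℝ}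
    (h0 : 0 < lam) (h1 : lam ≤ ∑ j, z j) : ∃ μ ρ, IonC γ z R lam μ ρ := by
  obtain ⟨μ, ρ, h⟩ := ion_ex hγ hz R h0 h1
  set σ : E3 → ℝ := fun x => (max (Vn z R x - pot ρ x - μ) 0 / γ) ^ (3/2 : ℝ) with hσ
  have hae : ρ =ᵐ[volume] σ := by
    filter_upwards [h.eq] with x hx
    exact pow_inv hγ (h.md.nonneg x) hx
  have hσ0 : ∀ x, 0 ≤ σ x := fun x => Real.rpow_nonneg (by positivity) _
  have hσm : Measurable σ :=
    (((((Vn_meas z R).sub (pot_cont h.md.nice).measurable).sub_const μ).max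
      measurable_const).div_const γ).pow_const _
  have hmd : MD σ := ⟨hσm, hσ0, h.md.int.congr hae, h.md.int_pow.congr (by
    filter_upwards [hae] with x hx; rw [hx])⟩
  have hpot : ∀ x, pot σ x = pot ρ x := fun x => (TFMin.pot_congr hae x).symm
  have hEn : En γ z R σ = En γ z R ρ := by
    rw [← energy_eq γ z R hmd.nice, ← energy_eq γ z R h.md.nice]
    exact (energy_congr hae).symm
  refine ⟨μ, σ, ⟨⟨hmd, ?_, h.mu_nonneg, ?_, ?_⟩, ?_⟩⟩
  · rw [← h.mass]; exact (integral_congr_ae hae).symm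
  · filter_upwards [h.eq, hae] with x hx hx2
    rw [← hx2, hx, hpot]
  · intro τ h2 h3
    rw [hEn]; exact h.min τ h2 h3
  · intro x
    rw [hpot]

/-- expansions near a nucleus -/
theorem IonC.near_nuc {γ : ℝ} (hγ : 0 < γ) {z : ι → ℝ} (hz : ∀ j, 0 ≤ z j) {R : ι → E3}
    {lam μ M s1 : ℝ} {ρ : E3 → ℝ} (h : IonC γ z R lam μ ρ) (hM : ∀ x, pot ρ x ≤ M) (hμ : μ ≤ M)
    (hs1 : 0 < s1) {j : ι} (hsep : ∀ i, i ≠ j → 2 * s1 ≤ ‖R i - R j‖) {b0 M' : ℝ}
    (hb0 : b0 = ((∑ i, z i) / s1 + 2 * M) / γ)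
    (hM' : M' = 5/2 * b0 * ((z j / γ + b0 * s1) ^ (1/2 : ℝ) + (z j / γ + b0 * s1) ^ (3/2 : ℝ)))
    {x : E3} (hx0 : x ≠ R j) (hx : ‖x - R j‖ < s1) :
    |ρ x - cusp γ (z j) (x - R j)| ≤ M' * ‖x - R j‖ ^ (-(1/2) : ℝ) ∧
    |ρ x ^ (5/3 : ℝ) - cusp γ (z j) (x - R j) ^ (5/3 : ℝ)| ≤ M' * ‖x - R j‖ ^ (-(3/2) : ℝ) := by
  classical
  set r := ‖x - R j‖ with hr
  have hr0 : 0 < r := norm_pos_iff.2 (sub_ne_zero.2 hx0)
  have hpn : 0 ≤ pot ρ x := pot_nonneg h.md.nonneg x
  have hM0 : 0 ≤ M := hpn.trans (hM x)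
  have hZ0 : 0 ≤ ∑ i, z i := Finset.sum_nonneg fun i _ => hz i
  have hb00 : 0 ≤ b0 := by rw [hb0]; positivity
  set W : ℝ := ∑ i ∈ Finset.univ.erase j, z i / ‖x - R i‖ with hW
  have hV : Vn z R x = z j / r + W := by
    unfold Vn
    rw [← Finset.add_sum_erase _ _ (Finset.mem_univ j)]
  have hW0 : 0 ≤ W := Finset.sum_nonneg fun i _ => div_nonneg (hz i) (norm_nonneg _)
  have hW1 : W ≤ (∑ i, z i) / s1 := by
    have h1 : W ≤ ∑ i ∈ Finset.univ.erase j, z i / s1 := by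
      refine Finset.sum_le_sum fun i hi => ?_
      have hij := Finset.ne_of_mem_erase hi
      have h2 := hsep i hij
      have h3 : ‖R i - R j‖ ≤ ‖x - R i‖ + ‖x - R j‖ := by
        have : R i - R j = (x - R j) - (x - R i) := by abel
        rw [this]
        exact (norm_sub_le _ _).trans (by rw [add_comm])
      exact div_le_div_of_nonneg_left (hz i) hs1 (by linarith)
    refine h1.trans ?_
    rw [Finset.sum_div]
    exact Finset.sum_le_sum_of_subset_of_nonneg (Finset.erase_subset _ _)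
      fun i _ _ => div_nonneg (hz i) hs1.le
  set b : ℝ := (W - pot ρ x - μ) / γ with hb
  have hbb : |b| ≤ b0 := by
    rw [hb, hb0, abs_div, abs_of_pos hγ]
    refine div_le_div_of_nonneg_right ?_ hγ.le
    have := hM x
    have := h.mu_nonneg
    rw [abs_le]
    constructor <;> linarith [div_nonneg hZ0 hs1.le]
  set a : ℝ := z j / γ / r with ha
  have ha0 : 0 ≤ a := by have := hz j; positivity
  have hmax : max (Vn z R x - pot ρ x - μ) 0 / γ = max (a + b) 0 := by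
    rw [← max_div_div_right hγ.le, zero_div]
    congr 1
    rw [hV, ha, hb]
    field_simp
    ring
  have hρ := h.can x
  rw [hmax] at hρ
  have hcu : cusp γ (z j) (x - R j) = a ^ (3/2 : ℝ) := rfl
  have hm0 : 0 ≤ max (a + b) 0 := le_max_right _ _
  have hρ5 : ρ x ^ (5/3 : ℝ) = (max (a + b) 0) ^ (5/2 : ℝ) := by
    rw [hρ, ← Real.rpow_mul hm0]; norm_num
  have hc5 : cusp γ (z j) (x - R j) ^ (5/3 : ℝ) = a ^ (5/2 : ℝ) := by
    rw [hcu, ← Real.rpow_mul ha0]; norm_num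
  have k1 := max_pow (p := 3/2) (b := b) (by norm_num) ha0
  have k2 := max_pow (p := 5/2) (b := b) (by norm_num) ha0
  have hab : a + |b| ≤ (z j / γ + b0 * s1) / r := by
    rw [ha, add_div]
    have : |b| ≤ b0 * s1 / r := by
      rw [le_div_iff₀ hr0]
      exact mul_le_mul hbb hx.le hr0.le hb00
    linarith
  have hc0 : 0 ≤ z j / γ + b0 * s1 := by have := hz j; positivity
  have hab0 : 0 ≤ a + |b| := by positivity
  have hq : ∀ q : ℝ, 0 ≤ q → (a + |b|) ^ q ≤ (z j / γ + b0 * s1) ^ q * r ^ (-q) := by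
    intro q hq
    refine (Real.rpow_le_rpow hab0 hab hq).trans (le_of_eq ?_)
    rw [Real.div_rpow hc0 hr0.le, Real.rpow_neg hr0.le]; rfl
  rw [hρ5, hc5, hρ, hcu]
  constructor
  · refine k1.trans ?_
    have e1 : (3/2 : ℝ) - 1 = 1/2 := by norm_num
    rw [e1]
    have h1 := hq (1/2) (by norm_num)
    have hr1 : 0 ≤ r ^ (-(1/2) : ℝ) := Real.rpow_nonneg hr0.le _
    have hp1 : 0 ≤ (z j / γ + b0 * s1) ^ (1/2 : ℝ) := Real.rpow_nonneg hc0 _
    have hp3 : 0 ≤ (z j / γ + b0 * s1) ^ (3/2 : ℝ) := Real.rpow_nonneg hc0 _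
    calc 3/2 * (a + |b|) ^ (1/2 : ℝ) * |b| ≤
        3/2 * ((z j / γ + b0 * s1) ^ (1/2 : ℝ) * r ^ (-(1/2) : ℝ)) * b0 :=
          mul_le_mul (mul_le_mul_of_nonneg_left h1 (by norm_num)) hbb (abs_nonneg _) (by positivity)
      _ ≤ M' * r ^ (-(1/2) : ℝ) := by
          rw [hM']
          have : 3/2 * ((z j / γ + b0 * s1) ^ (1/2 : ℝ) * r ^ (-(1/2) : ℝ)) * b0 =
            (3/2 * b0 * (z j / γ + b0 * s1) ^ (1/2 : ℝ)) * r ^ (-(1/2) : ℝ) := by ring
          rw [this]
          refine mul_le_mul_of_nonneg_right ?_ hr1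
          have q1 : 0 ≤ b0 * (z j / γ + b0 * s1) ^ (1/2 : ℝ) := by positivity
          have q2 : 0 ≤ b0 * (z j / γ + b0 * s1) ^ (3/2 : ℝ) := by positivity
          linarith
  · refine k2.trans ?_
    have e1 : (5/2 : ℝ) - 1 = 3/2 := by norm_num
    rw [e1]
    have h1 := hq (3/2) (by norm_num)
    have hr1 : 0 ≤ r ^ (-(3/2) : ℝ) := Real.rpow_nonneg hr0.le _
    have hp1 : 0 ≤ (z j / γ + b0 * s1) ^ (1/2 : ℝ) := Real.rpow_nonneg hc0 _
    have hp3 : 0 ≤ (z j / γ + b0 * s1) ^ (3/2 : ℝ) := Real.rpow_nonneg hc0 _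
    calc 5/2 * (a + |b|) ^ (3/2 : ℝ) * |b| ≤
        5/2 * ((z j / γ + b0 * s1) ^ (3/2 : ℝ) * r ^ (-(3/2) : ℝ)) * b0 :=
          mul_le_mul (mul_le_mul_of_nonneg_left h1 (by norm_num)) hbb (abs_nonneg _) (by positivity)
      _ ≤ M' * r ^ (-(3/2) : ℝ) := by
          rw [hM']
          have : 5/2 * ((z j / γ + b0 * s1) ^ (3/2 : ℝ) * r ^ (-(3/2) : ℝ)) * b0 =
            (5/2 * b0 * (z j / γ + b0 * s1) ^ (3/2 : ℝ)) * r ^ (-(3/2) : ℝ) := by ring
          rw [this]
          refine mul_le_mul_of_nonneg_right ?_ hr1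
          have q1 : 0 ≤ b0 * (z j / γ + b0 * s1) ^ (1/2 : ℝ) := by positivity
          linarith

end Pool.Agent.R999.Ex
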