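import Pool.Agent.R999.Dif2

/-!
# Continuity of ionic Thomas-Fermi densities in the nuclear positions
-/

set_option autoImplicit false

namespace Pool.Agent.R999.Ex

open MeasureTheory Set Filter Topology Metric
open Pool.Agent.TH791.Cl Pool.Agent.TH791.Nw Pool.Agent.R999.Pot Pool.Agent.R999.MinP
open Pool.Agent.R999.Newton
open scoped ENNReal

variable {ι : Type*} [Fintype ι]

lemma inv_diff {a b d : ℝ} (ha : 0 < a) (hb : 0 < b) (hd : |a - b| ≤ d) :
    |1 / a - 1 / b| ≤ d ^ (1/10 : ℝ) * (a ^ (-(11/10) : ℝ) + b ^ (-(11/10) : ℝ)) := by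
  have hd0 : 0 ≤ d := (abs_nonneg _).trans hd
  have key : ∀ a b : ℝ, 0 < a → a ≤ b → |a - b| ≤ d →
      |1 / a - 1 / b| ≤ d ^ (1/10 : ℝ) * a ^ (-(11/10) : ℝ) := by
    intro a b ha hab hd
    have hb : 0 < b := lt_of_lt_of_le ha hab
    have h0 : 1 / a - 1 / b = (b - a) / (a * b) := by field_simp
    have hv0 : 0 ≤ (b - a) / (a * b) := div_nonneg (by linarith) (by positivity)
    rw [h0, abs_of_nonneg hv0]
    set v := (b - a) / (a * b) with hv
    have h1 : v ≤ 1 / a := by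
      rw [hv, div_le_div_iff₀ (by positivity) ha]
      nlinarith
    have h2 : v ≤ d / a ^ 2 := by
      rw [abs_sub_comm, abs_of_nonneg (by linarith)] at hd
      exact div_le_div₀ hd0 hd (by positivity) (by nlinarith)
    have h3 : v = v ^ (9/10 : ℝ) * v ^ (1/10 : ℝ) := by
      rw [← Real.rpow_add_of_nonneg hv0 (by norm_num) (by norm_num)]; norm_num
    rw [h3]
    calc v ^ (9/10 : ℝ) * v ^ (1/10 : ℝ) ≤ (1 / a) ^ (9/10 : ℝ) * (d / a ^ 2) ^ (1/10 : ℝ) :=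
          mul_le_mul (Real.rpow_le_rpow hv0 h1 (by norm_num)) (Real.rpow_le_rpow hv0 h2 (by norm_num))
            (Real.rpow_nonneg hv0 _) (by positivity)
      _ = d ^ (1/10 : ℝ) * a ^ (-(11/10) : ℝ) := by
          have e1 : (1 / a) ^ (9/10 : ℝ) = a ^ (-(9/10) : ℝ) := by
            rw [Real.rpow_neg ha.le, one_div, Real.inv_rpow ha.le]
          have e2 : (d / a ^ 2) ^ (1/10 : ℝ) = d ^ (1/10 : ℝ) * a ^ (-(1/5) : ℝ) := by
            rw [Real.div_rpow hd0 (by positivity), Real.rpow_neg ha.le, div_eq_mul_inv,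
              ← Real.rpow_natCast a 2, ← Real.rpow_mul ha.le]
            norm_num
          rw [e1, e2, mul_left_comm, ← Real.rpow_add ha]
          norm_num
  rcases le_total a b with h | h
  · refine (key a b ha h hd).trans (mul_le_mul_of_nonneg_left ?_ (by positivity))
    have : 0 ≤ b ^ (-(11/10) : ℝ) := by positivity
    linarith
  · rw [abs_sub_comm]
    refine (key b a hb h (by rwa [abs_sub_comm])).trans (mul_le_mul_of_nonneg_left ?_ (by positivity))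
    have : 0 ≤ a ^ (-(11/10) : ℝ) := by positivity
    linarith

lemma hker {ρ : E3 → ℝ} (hρ : MD ρ) (x : E3) :
    Integrable (fun y => ρ y * ‖x - y‖ ^ (-(11/10) : ℝ)) ∧
    ∫ y, ρ y * ‖x - y‖ ^ (-(11/10) : ℝ) ≤
      3/5 * (∫ y, ρ y ^ (5/3 : ℝ)) + 32/5 * Real.pi + ∫ y, ρ y := by
  obtain ⟨k1, k2⟩ := ball_pow (p := 11/4) (L := 1) (by norm_num) one_pos
  set K : E3 → ℝ := fun x => (ball (0:E3) 1).indicator (fun x => ‖x‖ ^ (-(11/4) : ℝ)) x with hK
  have k1' : Integrable (fun y => K (x - y)) := k1.comp_sub_left x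
  have k2' : ∫ y, K (x - y) = 16 * Real.pi := by
    rw [integral_sub_left_eq_self K volume x, k2, Real.one_rpow]; ring
  have i1 : Integrable (fun y => 3/5 * ρ y ^ (5/3 : ℝ)) := hρ.int_pow.const_mul _
  have i2 : Integrable (fun y => 2/5 * K (x - y)) := k1'.const_mul _
  have i12 : Integrable (fun y => 3/5 * ρ y ^ (5/3 : ℝ) + 2/5 * K (x - y)) := i1.add i2
  have i123 : Integrable (fun y => 3/5 * ρ y ^ (5/3 : ℝ) + 2/5 * K (x - y) + ρ y) :=
    i12.add hρ.int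
  have hle : ∀ y, ρ y * ‖x - y‖ ^ (-(11/10) : ℝ) ≤
      3/5 * ρ y ^ (5/3 : ℝ) + 2/5 * K (x - y) + ρ y := by
    intro y
    have h0 := hρ.nonneg y
    have p1 : 0 ≤ ρ y ^ (5/3 : ℝ) := Real.rpow_nonneg h0 _
    have p2 : 0 ≤ K (x - y) := indicator_nonneg (fun _ _ => Real.rpow_nonneg (norm_nonneg _) _) _
    by_cases hb : ‖x - y‖ < 1
    · have e : K (x - y) = ‖x - y‖ ^ (-(11/4) : ℝ) := by
        rw [hK]; exact indicator_of_mem (by simpa using hb) _
      have hq : Real.HolderConjugate (5/3) (5/2) := by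
        rw [Real.holderConjugate_iff]
        constructor <;> norm_num
      have hy := Real.young_inequality_of_nonneg h0
        (show 0 ≤ ‖x - y‖ ^ (-(11/10) : ℝ) from Real.rpow_nonneg (norm_nonneg _) _) hq
      rw [← Real.rpow_mul (norm_nonneg _)] at hy
      rw [e]
      norm_num at hy ⊢
      linarith
    · have h1 : ‖x - y‖ ^ (-(11/10) : ℝ) ≤ 1 :=
        Real.rpow_le_one_of_one_le_of_nonpos (not_lt.1 hb) (by norm_num)
      have := mul_le_mul_of_nonneg_left h1 h0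
      linarith
  have hnn : ∀ y, 0 ≤ ρ y * ‖x - y‖ ^ (-(11/10) : ℝ) := fun y =>
    mul_nonneg (hρ.nonneg y) (Real.rpow_nonneg (norm_nonneg _) _)
  have i0 : Integrable (fun y => ρ y * ‖x - y‖ ^ (-(11/10) : ℝ)) := by
    refine i123.mono ((hρ.meas.mul ((measurable_const.sub measurable_id).norm.pow_const
      _)).aestronglyMeasurable) (ae_of_all _ fun y => ?_)
    rw [Real.norm_of_nonneg (hnn y)]
    exact (hle y).trans (le_abs_self _)
  refine ⟨i0, (integral_mono i0 i123 hle).trans (le_of_eq ?_)⟩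
  rw [integral_add i12 hρ.int, integral_add i1 i2, integral_const_mul, integral_const_mul, k2']
  ring

/-- a uniform modulus of continuity for potentials -/
lemma pot_hol {ρ : E3 → ℝ} (hρ : MD ρ) (x x' : E3) :
    |pot ρ x - pot ρ x'| ≤ ‖x - x'‖ ^ (1/10 : ℝ) *
      (2 * (3/5 * (∫ y, ρ y ^ (5/3 : ℝ)) + 32/5 * Real.pi + ∫ y, ρ y)) := by
  obtain ⟨B, hB⟩ := nice_bound ρ hρ.nice
  obtain ⟨i1, b1⟩ := hker hρ x
  obtain ⟨i2, b2⟩ := hker hρ x'
  unfold pot
  rw [← integral_sub (hB x).1 (hB x').1]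
  refine (abs_integral_le_integral_abs).trans ?_
  have hne : ∀ p : E3, ∀ᵐ y : E3, y ≠ p := by
    intro p
    have := (Set.countable_singleton p).ae_notMem (volume : Measure E3)
    filter_upwards [this] with y hy
    simpa using hy
  have h1 : ∫ y, |ρ y / ‖x - y‖ - ρ y / ‖x' - y‖| ≤
      ∫ y, ‖x - x'‖ ^ (1/10 : ℝ) * (ρ y * ‖x - y‖ ^ (-(11/10) : ℝ) +
        ρ y * ‖x' - y‖ ^ (-(11/10) : ℝ)) := by
    refine integral_mono_ae ((hB x).1.sub (hB x').1).abs ((i1.add i2).const_mul _) ?_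
    filter_upwards [hne x, hne x'] with y hy hy'
    show |ρ y / ‖x - y‖ - ρ y / ‖x' - y‖| ≤ ‖x - x'‖ ^ (1/10 : ℝ) *
      (ρ y * ‖x - y‖ ^ (-(11/10) : ℝ) + ρ y * ‖x' - y‖ ^ (-(11/10) : ℝ))
    have ha : 0 < ‖x - y‖ := norm_pos_iff.2 (sub_ne_zero.2 hy.symm)
    have hb : 0 < ‖x' - y‖ := norm_pos_iff.2 (sub_ne_zero.2 hy'.symm)
    have hd : |‖x - y‖ - ‖x' - y‖| ≤ ‖x - x'‖ := by
      have := abs_norm_sub_norm_le (x - y) (x' - y)
      rwa [sub_sub_sub_cancel_right] at this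
    have h2 := inv_diff ha hb hd
    have e : ρ y / ‖x - y‖ - ρ y / ‖x' - y‖ = ρ y * (1 / ‖x - y‖ - 1 / ‖x' - y‖) := by ring
    rw [e, abs_mul, abs_of_nonneg (hρ.nonneg y)]
    calc ρ y * |1 / ‖x - y‖ - 1 / ‖x' - y‖| ≤ ρ y * (‖x - x'‖ ^ (1/10 : ℝ) *
          (‖x - y‖ ^ (-(11/10) : ℝ) + ‖x' - y‖ ^ (-(11/10) : ℝ))) :=
          mul_le_mul_of_nonneg_left h2 (hρ.nonneg y)
      _ = _ := by ring
  refine h1.trans ?_
  rw [integral_const_mul, integral_add i1 i2]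
  exact mul_le_mul_of_nonneg_left (by linarith) (Real.rpow_nonneg (norm_nonneg _) _)

/-- **Continuity of the potential and of the density in the nuclear positions.** -/
theorem ion_cont {γ : ℝ} (hγ : 0 < γ) {z : ι → ℝ} (hz : ∀ j, 0 ≤ z j) {lam : ℝ} (h0 : 0 < lam)
    {R0 : ι → E3} {μ0 : ℝ} {ρ0 : E3 → ℝ} (I0 : Ion γ z R0 lam μ0 ρ0) {ε η : ℝ} (hε : 0 < ε)
    (hη : 0 < η) : ∃ δ : ℝ, 0 < δ ∧ ∀ (R : ι → E3) (μ : ℝ) (ρ : E3 → ℝ), Ion γ z R lam μ ρ →
      (∀ j, ‖R j - R0 j‖ < δ) → (∫ x, |ρ x - ρ0 x| ^ (5/3 : ℝ) ≤ η) ∧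
        ∀ x, |pot ρ x - pot ρ0 x| ≤ ε := by
  obtain ⟨M, hM0, hM⟩ := ion_bds hγ hz h0
  obtain ⟨δ1, hδ1, hs⟩ := small_pot (2 * lam) ε (by positivity) hε
  obtain ⟨δ2, hδ2, hn⟩ := near hγ hz R0 (m := lam) (ε := min δ1 η) (lt_min hδ1 hη)
  set Z : ℝ := ∑ j, z j with hZ
  have hZ0 : 0 ≤ Z := Finset.sum_nonneg fun j _ => hz j
  have hpi := Real.pi_pos
  set H : ℝ := 2 * (3/5 * M + 32/5 * Real.pi + lam) with hH
  have hH0 : 0 < H := by positivity
  set t : ℝ := δ2 / (2 * ((Z + 1) * H)) with ht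
  have ht0 : 0 < t := by positivity
  refine ⟨t ^ (10:ℝ), by positivity, fun R μ ρ I hR => ?_⟩
  -- change of the attraction
  have hch : ∀ σ : E3 → ℝ, MD σ → ∫ x, σ x = lam → ∫ x, σ x ^ (5/3 : ℝ) ≤ M →
      |En γ z R σ - En γ z R0 σ| ≤ δ2 / 2 := by
    intro σ hσ hm hT
    have e : En γ z R σ - En γ z R0 σ = -∑ j, z j * (pot σ (R j) - pot σ (R0 j)) := by
      unfold En
      simp only [mul_sub, Finset.sum_sub_distrib]
      ring
    rw [e, abs_neg]
    have h1 : ∀ j, |pot σ (R j) - pot σ (R0 j)| ≤ t * H := by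
      intro j
      refine (pot_hol hσ _ _).trans ?_
      have h2 : ‖R j - R0 j‖ ^ (1/10 : ℝ) ≤ t := by
        have := Real.rpow_le_rpow (norm_nonneg _) (hR j).le (show (0:ℝ) ≤ 1/10 by norm_num)
        rwa [← Real.rpow_mul ht0.le, show (10:ℝ) * (1/10) = 1 by norm_num, Real.rpow_one] at this
      refine mul_le_mul h2 ?_ ?_ ht0.le
      · rw [hH, hm]; linarith
      · have : 0 ≤ ∫ x, σ x ^ (5/3 : ℝ) := integral_nonneg fun x => Real.rpow_nonneg (hσ.nonneg x) _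
        rw [hm]; positivity
    calc |∑ j, z j * (pot σ (R j) - pot σ (R0 j))| ≤ ∑ j, |z j * (pot σ (R j) - pot σ (R0 j))| :=
          Finset.abs_sum_le_sum_abs _ _
      _ ≤ ∑ j, z j * (t * H) := by
          refine Finset.sum_le_sum fun j _ => ?_
          rw [abs_mul, abs_of_nonneg (hz j)]
          exact mul_le_mul_of_nonneg_left (h1 j) (hz j)
      _ = Z * (t * H) := by rw [hZ, Finset.sum_mul]
      _ ≤ (Z + 1) * (t * H) := by
          have : 0 < t * H := by positivity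
          nlinarith
      _ = δ2 / 2 := by rw [ht]; field_simp
  have c1 := hch ρ I.md I.mass (hM R μ ρ I).1
  have c2 := hch ρ0 I0.md I0.mass (hM R0 μ0 ρ0 I0).1
  rw [abs_le] at c1 c2
  have m1 := I.min ρ0 I0.md I0.mass.le
  have hinf : En γ z R0 ρ0 ≤ sInf (vals γ z R0 lam) := by
    refine le_csInf (vals_ne γ z R0 h0.le) ?_
    rintro e ⟨σ, a, b, rfl⟩
    exact I0.min σ a b
  have hnear := hn ρ ρ0 I.md I0.md I.mass.le I0.mass.le (by linarith) (by linarith)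
  refine ⟨hnear.trans (min_le_right _ _), fun x => ?_⟩
  have hN : Nice (fun y => ρ y - ρ0 y) := nice_sub I.md.nice I0.md.nice
  have hL1 : ∫ y, |ρ y - ρ0 y| ≤ 2 * lam := by
    calc ∫ y, |ρ y - ρ0 y| ≤ ∫ y, (ρ y + ρ0 y) := by
          refine integral_mono hN.2.1.abs (I.md.int.add I0.md.int) fun y => ?_
          have := I.md.nonneg y
          have := I0.md.nonneg y
          show |ρ y - ρ0 y| ≤ ρ y + ρ0 y
          rw [abs_le]; constructor <;> linarith
      _ = 2 * lam := by rw [integral_add I.md.int I0.md.int, I.mass, I0.mass]; ring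
  have h1 := hs _ hN hL1 (hnear.trans (min_le_left _ _)) x
  have h2 := pot_le_abs hN x
  have h3 : pot (fun y => ρ y - ρ0 y) x = pot ρ x - pot ρ0 x := by
    rw [MinP.pot_sub I.md.nice I0.md.nice]
  rw [h3] at h2
  exact h2.trans h1

/-- **Continuity of the chemical potential.** -/
theorem mu_cont {γ : ℝ} (hγ : 0 < γ) {z : ι → ℝ} (hz : ∀ j, 0 ≤ z j) {lam : ℝ} (h0 : 0 < lam)
    {R0 : ι → E3} {μ0 : ℝ} {ρ0 : E3 → ℝ} (I0 : Ion γ z R0 lam μ0 ρ0) {j0 : ι} (hj0 : 0 < z j0)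
    {d : ℝ} (hd : 0 < d) (hsep : ∀ i, i ≠ j0 → d ≤ ‖R0 i - R0 j0‖) {ε : ℝ} (hε : 0 < ε) :
    ∃ δ : ℝ, 0 < δ ∧ ∀ (R : ι → E3) (μ : ℝ) (ρ : E3 → ℝ), Ion γ z R lam μ ρ →
      (∀ j, ‖R j - R0 j‖ < δ) → |μ - μ0| ≤ ε := by
  obtain ⟨M, hM0, hM⟩ := ion_bds hγ hz h0
  have hpi := Real.pi_pos
  set Z : ℝ := ∑ j, z j with hZ
  have hZ0 : 0 ≤ Z := Finset.sum_nonneg fun j _ => hz j
  set t : ℝ := min (z j0 / (4 * (2 * M + 1))) (d / 8) with ht
  have ht0 : 0 < t := by positivity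
  have ht1 : t ≤ z j0 / (4 * (2 * M + 1)) := min_le_left _ _
  have ht2 : t ≤ d / 8 := min_le_right _ _
  obtain ⟨u, hu⟩ : ∃ u : E3, ‖u‖ = 2 * t := exists_norm_eq E3 (by positivity)
  set P : E3 := R0 j0 + u with hP
  set η : ℝ := (ε / (2 * γ)) ^ (5/2 : ℝ) * (4/3 * Real.pi * t ^ 3) / 2 with hη
  have hη0 : 0 < η := by positivity
  obtain ⟨δ1, hδ1, hc⟩ := ion_cont hγ hz h0 I0 (ε := ε / 8) (by positivity) hη0
  set δ : ℝ := min (min δ1 (t / 2)) (ε * t ^ 2 / (16 * (Z + 1))) with hδ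
  refine ⟨δ, by positivity, fun R μ ρ I hR => ?_⟩
  have hR1 : ∀ j, ‖R j - R0 j‖ < δ1 := fun j =>
    (hR j).trans_le ((min_le_left _ _).trans (min_le_left _ _))
  have hR2 : ∀ j, ‖R j - R0 j‖ < t / 2 := fun j =>
    (hR j).trans_le ((min_le_left _ _).trans (min_le_right _ _))
  have hR3 : ∀ j, ‖R j - R0 j‖ < ε * t ^ 2 / (16 * (Z + 1)) := fun j =>
    (hR j).trans_le (min_le_right _ _)
  obtain ⟨hT, hp⟩ := hc R μ ρ I hR1
  by_contra hcon
  push Not at hcon
  -- geometry on the ball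
  have geo : ∀ x ∈ ball P t, (∀ j, t ≤ ‖x - R0 j‖) ∧ ‖x - R0 j0‖ < 3 * t := by
    intro x hx
    rw [mem_ball, dist_eq_norm] at hx
    have e1 : x - R0 j0 = (x - P) + u := by rw [hP]; abel
    have h1 : ‖x - R0 j0‖ < 3 * t := by
      rw [e1]
      exact (norm_add_le _ _).trans_lt (by linarith)
    have h2 : t ≤ ‖x - R0 j0‖ := by
      have e2 : u = (x - R0 j0) - (x - P) := by rw [e1]; abel
      have := norm_sub_le (x - R0 j0) (x - P)
      rw [← e2, hu] at this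
      linarith
    refine ⟨fun j => ?_, h1⟩
    by_cases hj : j = j0
    · rw [hj]; exact h2
    · have h3 := hsep j hj
      have e3 : R0 j - R0 j0 = (x - R0 j0) - (x - R0 j) := by abel
      have := norm_sub_le (x - R0 j0) (x - R0 j)
      rw [← e3] at this
      linarith
  have hVd : ∀ x ∈ ball P t, |Vn z R x - Vn z R0 x| ≤ ε / 8 := by
    intro x hx
    obtain ⟨g1, -⟩ := geo x hx
    unfold Vn
    rw [← Finset.sum_sub_distrib]
    refine (Finset.abs_sum_le_sum_abs _ _).trans ?_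
    have h1 : ∀ j, |z j / ‖x - R j‖ - z j / ‖x - R0 j‖| ≤ z j * (ε / (8 * (Z + 1))) := by
      intro j
      have a1 : t ≤ ‖x - R0 j‖ := g1 j
      have a2 : t / 2 ≤ ‖x - R j‖ := by
        have e3 : x - R0 j = (x - R j) + (R j - R0 j) := by abel
        have := norm_add_le (x - R j) (R j - R0 j)
        rw [← e3] at this
        have := hR2 j
        linarith
      have a3 : 0 < ‖x - R j‖ := by linarith
      have a4 : 0 < ‖x - R0 j‖ := by linarith
      have e : z j / ‖x - R j‖ - z j / ‖x - R0 j‖ =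
          z j * ((‖x - R0 j‖ - ‖x - R j‖) / (‖x - R j‖ * ‖x - R0 j‖)) := by field_simp
      rw [e, abs_mul, abs_of_nonneg (hz j), abs_div, abs_of_pos (by positivity :
        0 < ‖x - R j‖ * ‖x - R0 j‖)]
      refine mul_le_mul_of_nonneg_left ?_ (hz j)
      have h2 : |‖x - R0 j‖ - ‖x - R j‖| ≤ ‖R j - R0 j‖ := by
        have := abs_norm_sub_norm_le (x - R0 j) (x - R j)
        rwa [show x - R0 j - (x - R j) = R j - R0 j by abel] at this
      calc |‖x - R0 j‖ - ‖x - R j‖| / (‖x - R j‖ * ‖x - R0 j‖) ≤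
          (ε * t ^ 2 / (16 * (Z + 1))) / (t / 2 * t) := by
            refine div_le_div₀ (by positivity) (h2.trans (hR3 j).le) (by positivity) ?_
            exact mul_le_mul a2 a1 ht0.le a3.le
        _ = ε / (8 * (Z + 1)) := by field_simp; norm_num
    refine (Finset.sum_le_sum fun j _ => h1 j).trans ?_
    rw [← Finset.sum_mul]
    have : Z * (ε / (8 * (Z + 1))) = ε / 8 * (Z / (Z + 1)) := by field_simp
    rw [← hZ, this]
    have h3 : Z / (Z + 1) ≤ 1 := (div_le_one (by positivity)).2 (by linarith)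
    nlinarith
  have hbig : ∀ x ∈ ball P t, 2 * M + 1 ≤ z j0 / ‖x - R0 j0‖ ∧ 2 * M + 1 ≤ z j0 / ‖x - R j0‖ := by
    intro x hx
    obtain ⟨g1, g2⟩ := geo x hx
    have a1 : 0 < ‖x - R0 j0‖ := ht0.trans_le (g1 j0)
    have e3 : x - R j0 = (x - R0 j0) - (R j0 - R0 j0) := by abel
    have a2 : ‖x - R j0‖ ≤ 4 * t := by
      rw [e3]
      have := norm_sub_le (x - R0 j0) (R j0 - R0 j0)
      have := hR2 j0
      linarith
    have a3 : 0 < ‖x - R j0‖ := by
      have := norm_sub_norm_le (x - R0 j0) (R j0 - R0 j0)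
      rw [← e3] at this
      have := hR2 j0
      have := g1 j0
      linarith
    have h4 : (2 * M + 1) * (4 * t) ≤ z j0 := by
      have := (le_div_iff₀ (by positivity)).1 ht1
      linarith
    constructor
    · rw [le_div_iff₀ a1]
      nlinarith
    · rw [le_div_iff₀ a3]
      nlinarith
  have hVge : ∀ (Q : ι → E3) x, z j0 / ‖x - Q j0‖ ≤ Vn z Q x := by
    intro Q x
    unfold Vn
    exact Finset.single_le_sum (f := fun j => z j / ‖x - Q j‖)
      (fun i _ => div_nonneg (hz i) (norm_nonneg _)) (Finset.mem_univ j0)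
  -- lower bound for the difference of the densities
  have hlow : ∀ᵐ x, x ∈ ball P t → (ε / (2 * γ)) ^ (5/2 : ℝ) ≤ |ρ x - ρ0 x| ^ (5/3 : ℝ) := by
    filter_upwards [I.eq, I0.eq] with x e1 e2 hx
    have hb := hbig x hx
    have hV := hVd x hx
    have b1 := hVge R x
    have b2 := hVge R0 x
    have q1 := (hM R μ ρ I).2.1 x
    have q2 := (hM R0 μ0 ρ0 I0).2.1 x
    have q3 := (hM R μ ρ I).2.2
    have q4 := (hM R0 μ0 ρ0 I0).2.2
    rw [max_eq_left (by linarith [hb.2])] at e1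
    rw [max_eq_left (by linarith [hb.1])] at e2
    have hpx := hp x
    have h3 : γ * (ρ x ^ (2/3 : ℝ) - ρ0 x ^ (2/3 : ℝ)) =
        (Vn z R x - Vn z R0 x) - (pot ρ x - pot ρ0 x) - (μ - μ0) := by
      rw [mul_sub, e1, e2]; ring
    have h4 : ε / 2 ≤ γ * |ρ x ^ (2/3 : ℝ) - ρ0 x ^ (2/3 : ℝ)| := by
      have e5 : γ * |ρ x ^ (2/3 : ℝ) - ρ0 x ^ (2/3 : ℝ)| =
          |γ * (ρ x ^ (2/3 : ℝ) - ρ0 x ^ (2/3 : ℝ))| := by rw [abs_mul, abs_of_pos hγ]
      rw [e5, h3]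
      set A := (Vn z R x - Vn z R0 x) - (pot ρ x - pot ρ0 x) with hA
      have h5 : |μ - μ0| ≤ |A| + |A - (μ - μ0)| := by
        have h6 := abs_sub A (A - (μ - μ0))
        rwa [sub_sub_cancel] at h6
      have h6 := abs_sub (Vn z R x - Vn z R0 x) (pot ρ x - pot ρ0 x)
      rw [← hA] at h6
      linarith
    have h5 := pow23_diff (I.md.nonneg x) (I0.md.nonneg x)
    have h6 : ε / (2 * γ) ≤ |ρ x - ρ0 x| ^ (2/3 : ℝ) := by
      refine le_trans ?_ h5
      rw [div_le_iff₀ (by positivity)]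
      linarith
    have h7 := Real.rpow_le_rpow (by positivity) h6 (show (0:ℝ) ≤ 5/2 by norm_num)
    rw [← Real.rpow_mul (abs_nonneg _)] at h7
    norm_num at h7 ⊢
    exact h7
  have hN : Nice (fun y => ρ y - ρ0 y) := nice_sub I.md.nice I0.md.nice
  have h8 : ∫ x, (ball P t).indicator (fun _ => (ε / (2 * γ)) ^ (5/2 : ℝ)) x ≤
      ∫ x, |ρ x - ρ0 x| ^ (5/3 : ℝ) := by
    refine integral_mono_ae ((integrable_indicator_iff measurableSet_ball).2
      (integrableOn_const measure_ball_lt_top.ne)) hN.2.2 ?_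
    filter_upwards [hlow] with x hx
    by_cases hxb : x ∈ ball P t
    · rw [indicator_of_mem hxb]; exact hx hxb
    · rw [indicator_of_notMem hxb]; exact Real.rpow_nonneg (abs_nonneg _) _
  rw [integral_indicator measurableSet_ball, setIntegral_const, smul_eq_mul] at h8
  have h9 : volume.real (ball P t) = 4/3 * Real.pi * t ^ 3 := ball_vol P ht0
  rw [h9] at h8
  have h10 : 4/3 * Real.pi * t ^ 3 * (ε / (2 * γ)) ^ (5/2 : ℝ) = 2 * η := by rw [hη]; ring
  linarith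

end Pool.Agent.R999.Ex
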