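import Pool.Agent.R999.Dif3

/-!
# The electric field at a nucleus
-/

set_option autoImplicit false

namespace Pool.Agent.R999.Ex

open MeasureTheory Set Filter Topology Metric
open Pool.Agent.TH791.Cl Pool.Agent.TH791.Nw Pool.Agent.R999.Pot Pool.Agent.R999.MinP
open Pool.Agent.R999.Newton
open scoped ENNReal

variable {ι : Type*} [Fintype ι]

/-- the expansion near a nucleus at `P` of charge `w` -/
def Nr (γ w s1 M' : ℝ) (ρ : E3 → ℝ) (P : E3) : Prop :=
  ∀ x, x ≠ P → ‖x - P‖ < s1 →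
    |ρ x - cusp γ w (x - P)| ≤ M' * ‖x - P‖ ^ (-(1/2) : ℝ) ∧
    |ρ x ^ (5/3 : ℝ) - cusp γ w (x - P) ^ (5/3 : ℝ)| ≤ M' * ‖x - P‖ ^ (-(3/2) : ℝ)

lemma nr_unif {γ : ℝ} (hγ : 0 < γ) {z : ι → ℝ} (hz : ∀ j, 0 ≤ z j) {lam : ℝ} (h0 : 0 < lam)
    {s1 : ℝ} (hs1 : 0 < s1) (j : ι) : ∃ M' : ℝ, 0 ≤ M' ∧ ∀ (R : ι → E3) (μ : ℝ) (ρ : E3 → ℝ),
      IonC γ z R lam μ ρ → (∀ i, i ≠ j → 2 * s1 ≤ ‖R i - R j‖) → Nr γ (z j) s1 M' ρ (R j) := by
  obtain ⟨M, hM0, hM⟩ := ion_bds hγ hz h0
  have hZ0 : 0 ≤ ∑ i, z i := Finset.sum_nonneg fun i _ => hz i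
  set b0 := ((∑ i, z i) / s1 + 2 * M) / γ with hb0
  have hb00 : 0 ≤ b0 := by positivity
  have := hz j
  refine ⟨5/2 * b0 * ((z j / γ + b0 * s1) ^ (1/2 : ℝ) + (z j / γ + b0 * s1) ^ (3/2 : ℝ)),
    by positivity, fun R μ ρ h hsep x hx0 hx => ?_⟩
  exact h.near_nuc hγ hz (fun x => ((hM R μ ρ h.toIon).2.1 x).2) (hM R μ ρ h.toIon).2.2 hs1 hsep
    hb0 rfl hx0 hx

/-- the Coulomb field kernel -/
noncomputable def KK (u : E3) : E3 := (‖u‖ ^ 3)⁻¹ • u

lemma KK_neg (u : E3) : KK (-u) = -KK u := by unfold KK; rw [norm_neg, smul_neg]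

lemma KK_norm (u : E3) : ‖KK u‖ = ‖u‖ ^ (-2 : ℝ) := by
  unfold KK
  rcases (norm_nonneg u).eq_or_lt with h | h
  · have : u = 0 := norm_eq_zero.1 h.symm
    rw [this]; simp
  · rw [norm_smul, norm_inv, norm_pow, norm_norm]
    rw [Real.rpow_neg h.le, show (2:ℝ) = ((2:ℕ):ℝ) by norm_num, Real.rpow_natCast]
    field_simp

lemma KK_meas : Measurable KK := ((measurable_norm.pow_const 3).inv).smul measurable_id

lemma odd_int {F : Type*} [NormedAddCommGroup F] [NormedSpace ℝ F] {f : E3 → F}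
    (h : ∀ u, f (-u) = -f u) : ∫ u, f u = 0 := by
  have h1 : ∫ u, f (-u) = ∫ u, f u := integral_neg_eq_self f volume
  simp only [h, integral_neg] at h1
  have h2 : (2:ℝ) • (∫ u, f u) = 0 := by
    rw [two_smul]
    nth_rewrite 1 [← h1]
    exact neg_add_cancel _
  rcases smul_eq_zero.1 h2 with h3 | h3
  · norm_num at h3
  · exact h3

/-- the regularised density -/
noncomputable def gr (γ w s : ℝ) (ρ : E3 → ℝ) (P u : E3) : ℝ :=
  ρ (u + P) - (ball (0:E3) s).indicator (cusp γ w) u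

/-- the electric field at the nucleus -/
noncomputable def Fi (γ w s : ℝ) (ρ : E3 → ℝ) (P : E3) : E3 := ∫ u, gr γ w s ρ P u • KK u

lemma ae_ne0 : ∀ᵐ u : E3, u ≠ 0 := by
  have := (Set.countable_singleton (0:E3)).ae_notMem (volume : Measure E3)
  filter_upwards [this] with y hy
  simpa using hy

lemma gr_meas {γ w s : ℝ} {ρ : E3 → ℝ} (hρ : Measurable ρ) (P : E3) :
    Measurable (gr γ w s ρ P) :=
  (hρ.comp (measurable_id.add_const P)).sub ((cusp_meas γ w).indicator measurableSet_ball)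

/-- the dominating function -/
noncomputable def dom (s1 M' : ℝ) (ρ : E3 → ℝ) (P u : E3) : ℝ :=
  M' * (ball (0:E3) s1).indicator (fun x => ‖x‖ ^ (-(5/2) : ℝ)) u + (s1 ^ 2)⁻¹ * ρ (u + P)

lemma dom_int {s1 M' : ℝ} (hs1 : 0 < s1) {ρ : E3 → ℝ} (hρ : MD ρ) (P : E3) :
    Integrable (dom s1 M' ρ P) :=
  (((ball_pow (p := 5/2) (by norm_num) hs1).1).const_mul M').add
    ((hρ.int.comp_add_right P).const_mul _)

lemma neg_two_le {s1 : ℝ} (hs1 : 0 < s1) {u : E3} (hu : s1 ≤ ‖u‖) : ‖u‖ ^ (-2 : ℝ) ≤ (s1 ^ 2)⁻¹ := by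
  have h : 0 < ‖u‖ := hs1.trans_le hu
  rw [Real.rpow_neg h.le, show (2:ℝ) = ((2:ℕ):ℝ) by norm_num, Real.rpow_natCast]
  exact inv_anti₀ (by positivity) (pow_le_pow_left₀ hs1.le hu 2)

lemma gr_le {γ w s1 M' : ℝ} (hs1 : 0 < s1) (_hM' : 0 ≤ M') {ρ : E3 → ℝ} (hρ : MD ρ) {P : E3}
    (hN : Nr γ w s1 M' ρ P) {u : E3} (hu : u ≠ 0) : ‖gr γ w s1 ρ P u • KK u‖ ≤ dom s1 M' ρ P u := by
  rw [norm_smul, KK_norm, Real.norm_eq_abs]
  unfold gr dom
  have hr : 0 < ‖u‖ := norm_pos_iff.2 hu
  have hq : 0 ≤ ‖u‖ ^ (-2 : ℝ) := Real.rpow_nonneg hr.le _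
  have hρ0 := hρ.nonneg (u + P)
  have hs2 : 0 ≤ (s1 ^ 2)⁻¹ * ρ (u + P) := by positivity
  by_cases hb : ‖u‖ < s1
  · have hmem : u ∈ ball (0:E3) s1 := by simpa using hb
    rw [indicator_of_mem hmem, indicator_of_mem hmem]
    have h1 := (hN (u + P) (by simpa using hu) (by simpa using hb)).1
    rw [add_sub_cancel_right] at h1
    have h2 := mul_le_mul_of_nonneg_right h1 hq
    have e : M' * ‖u‖ ^ (-(1/2) : ℝ) * ‖u‖ ^ (-2 : ℝ) = M' * ‖u‖ ^ (-(5/2) : ℝ) := by
      rw [mul_assoc, ← Real.rpow_add hr]; norm_num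
    rw [e] at h2
    linarith
  · have hmem : u ∉ ball (0:E3) s1 := by simpa using hb
    rw [indicator_of_notMem hmem, indicator_of_notMem hmem, sub_zero, mul_zero, zero_add,
      abs_of_nonneg hρ0, mul_comm]
    exact mul_le_mul_of_nonneg_right (neg_two_le hs1 (not_lt.1 hb)) hρ0

lemma Fi_int {γ w s1 M' : ℝ} (hs1 : 0 < s1) (hM' : 0 ≤ M') {ρ : E3 → ℝ} (hρ : MD ρ) {P : E3}
    (hN : Nr γ w s1 M' ρ P) : Integrable (fun u => gr γ w s1 ρ P u • KK u) := by
  refine (dom_int (M' := M') hs1 hρ P).mono' (((gr_meas hρ.meas P).smul KK_meas).aestronglyMeasurable) ?_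
  filter_upwards [ae_ne0] with u hu
  exact gr_le hs1 hM' hρ hN hu

/-- the principal value at the nucleus -/
theorem Fi_pv {γ w s1 M' : ℝ} (hs1 : 0 < s1) (hM' : 0 ≤ M') {ρ : E3 → ℝ} (hρ : MD ρ) {P : E3}
    (hN : Nr γ w s1 M' ρ P) :
    Tendsto (fun a : ℝ => ∫ x in {x : E3 | a < ‖x - P‖}, ρ x • KK (x - P)) (𝓝[>] 0)
      (𝓝 (Fi γ w s1 ρ P)) := by
  have hmeas : ∀ a : ℝ, MeasurableSet {u : E3 | a < ‖u‖} := fun a =>
    measurableSet_lt measurable_const measurable_norm
  have hI := Fi_int hs1 hM' hρ hN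
  -- rewriting for a > 0
  have h1 : ∀ a : ℝ, 0 < a → ∫ x in {x : E3 | a < ‖x - P‖}, ρ x • KK (x - P) =
      ∫ u, {u : E3 | a < ‖u‖}.indicator (fun u => gr γ w s1 ρ P u • KK u) u := by
    intro a ha
    have e1 : ∫ x in {x : E3 | a < ‖x - P‖}, ρ x • KK (x - P) =
        ∫ u, {u : E3 | a < ‖u‖}.indicator (fun u => ρ (u + P) • KK u) u := by
      have hms : MeasurableSet {x : E3 | a < ‖x - P‖} :=
        measurableSet_lt measurable_const (by fun_prop)
      rw [← integral_indicator hms, ← integral_add_right_eq_self (μ := volume) _ P]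
      congr 1
      funext u
      by_cases hu : a < ‖u‖
      · rw [indicator_of_mem (by simpa using hu), indicator_of_mem (by simpa using hu)]
        simp
      · rw [indicator_of_notMem (by simpa using hu), indicator_of_notMem (by simpa using hu)]
    have hod : ∫ u, {u : E3 | a < ‖u‖}.indicator
        (fun u => (ball (0:E3) s1).indicator (cusp γ w) u • KK u) u = 0 := by
      refine odd_int fun u => ?_
      have m1 : (-u ∈ {u : E3 | a < ‖u‖}) ↔ u ∈ {u : E3 | a < ‖u‖} := by simp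
      by_cases hu : u ∈ {u : E3 | a < ‖u‖}
      · rw [indicator_of_mem (m1.2 hu), indicator_of_mem hu, KK_neg]
        have m2 : (-u ∈ ball (0:E3) s1) ↔ u ∈ ball (0:E3) s1 := by simp
        by_cases hb : u ∈ ball (0:E3) s1
        · rw [indicator_of_mem (m2.2 hb), indicator_of_mem hb, cusp_neg, smul_neg]
        · rw [indicator_of_notMem (fun h => hb (m2.1 h)), indicator_of_notMem hb]; simp
      · rw [indicator_of_notMem (fun h => hu (m1.1 h)), indicator_of_notMem hu]; simp
    have i2 : Integrable ({u : E3 | a < ‖u‖}.indicator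
        (fun u => (ball (0:E3) s1).indicator (cusp γ w) u • KK u)) := by
      have hbnd : Integrable ((ball (0:E3) s1).indicator
          (fun _ : E3 => (|w / γ| / a) ^ (3/2 : ℝ) * (a ^ 2)⁻¹)) :=
        (integrable_indicator_iff measurableSet_ball).2 (integrableOn_const measure_ball_lt_top.ne)
      refine hbnd.mono' (((((cusp_meas γ w).indicator measurableSet_ball).smul
        KK_meas).indicator (hmeas a)).aestronglyMeasurable) (ae_of_all _ fun u => ?_)
      by_cases hu : a < ‖u‖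
      · rw [indicator_of_mem (by simpa using hu)]
        by_cases hb : u ∈ ball (0:E3) s1
        · rw [indicator_of_mem hb, indicator_of_mem hb, norm_smul, KK_norm, Real.norm_eq_abs]
          have hc : |cusp γ w u| ≤ (|w / γ| / a) ^ (3/2 : ℝ) := by
            unfold cusp
            refine (Real.abs_rpow_le_abs_rpow _ _).trans ?_
            rw [abs_div, abs_of_nonneg (norm_nonneg u)]
            exact Real.rpow_le_rpow (by positivity)
              (div_le_div_of_nonneg_left (abs_nonneg _) ha hu.le) (by norm_num)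
          exact mul_le_mul hc (neg_two_le ha hu.le) (Real.rpow_nonneg (norm_nonneg _) _)
            (by positivity)
        · rw [indicator_of_notMem hb, indicator_of_notMem hb]; simp
      · rw [indicator_of_notMem (by simpa using hu)]
        simp only [norm_zero]
        exact indicator_nonneg (fun _ _ => by positivity) _
    have i1 : Integrable ({u : E3 | a < ‖u‖}.indicator (fun u => gr γ w s1 ρ P u • KK u)) :=
      hI.indicator (hmeas a)
    rw [e1]
    have e2 : (fun u => {u : E3 | a < ‖u‖}.indicator (fun u => ρ (u + P) • KK u) u) =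
        fun u => {u : E3 | a < ‖u‖}.indicator (fun u => gr γ w s1 ρ P u • KK u) u +
          {u : E3 | a < ‖u‖}.indicator
            (fun u => (ball (0:E3) s1).indicator (cusp γ w) u • KK u) u := by
      funext u
      by_cases hu : u ∈ {u : E3 | a < ‖u‖}
      · rw [indicator_of_mem hu, indicator_of_mem hu, indicator_of_mem hu, ← add_smul]
        unfold gr; rw [sub_add_cancel]
      · rw [indicator_of_notMem hu, indicator_of_notMem hu, indicator_of_notMem hu, add_zero]
    rw [e2, integral_add i1 i2, hod, add_zero]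
  have h2 : Tendsto (fun a : ℝ => ∫ u, {u : E3 | a < ‖u‖}.indicator
      (fun u => gr γ w s1 ρ P u • KK u) u) (𝓝[>] 0) (𝓝 (Fi γ w s1 ρ P)) := by
    unfold Fi
    refine tendsto_integral_filter_of_dominated_convergence
      (fun u => ‖gr γ w s1 ρ P u • KK u‖) (Eventually.of_forall fun a =>
        (((gr_meas hρ.meas P).smul KK_meas).indicator (hmeas a)).aestronglyMeasurable)
      (Eventually.of_forall fun a => ae_of_all _ fun u => norm_indicator_le_norm_self _ _)
      hI.norm ?_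
    filter_upwards [ae_ne0] with u hu
    have hr : 0 < ‖u‖ := norm_pos_iff.2 hu
    refine tendsto_const_nhds.congr' ?_
    have : Iio ‖u‖ ∈ 𝓝[>] (0:ℝ) := mem_nhdsWithin_of_mem_nhds (Iio_mem_nhds hr)
    filter_upwards [this] with a ha
    rw [indicator_of_mem (by exact ha)]
  refine h2.congr' ?_
  filter_upwards [self_mem_nhdsWithin] with a ha
  exact (h1 a ha).symm

/-- Scheffé's lemma -/
lemma scheffe {X : Type*} [TopologicalSpace X] [FirstCountableTopology X] {f : X → E3 → ℝ}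
    {x0 : X} (hf : ∀ x, Integrable (f x)) (h0 : ∀ x u, 0 ≤ f x u)
    (hm : ∀ x, ∫ u, f x u = ∫ u, f x0 u)
    (hc : ∀ᵐ u, Tendsto (fun x => f x u) (𝓝 x0) (𝓝 (f x0 u))) :
    Tendsto (fun x => ∫ u, |f x u - f x0 u|) (𝓝 x0) (𝓝 0) := by
  have h1 : Tendsto (fun x => ∫ u, max (f x0 u - f x u) 0) (𝓝 x0) (𝓝 (∫ _ : E3, (0:ℝ))) := by
    refine tendsto_integral_filter_of_dominated_convergence (fun u => f x0 u)
      (Eventually.of_forall fun x => ?_) (Eventually.of_forall fun x => ae_of_all _ fun u => ?_)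
      (hf x0) ?_
    · exact (((hf x0).sub (hf x)).pos_part).aestronglyMeasurable
    · rw [Real.norm_of_nonneg (le_max_right _ _)]
      exact max_le (by linarith [h0 x u]) (h0 x0 u)
    · filter_upwards [hc] with u hu
      have h2 : Tendsto (fun x => max (f x0 u - f x u) 0) (𝓝 x0) (𝓝 (max (f x0 u - f x0 u) 0)) :=
        (tendsto_const_nhds.sub hu).max tendsto_const_nhds
      simpa using h2
  have h2 : ∀ x, ∫ u, |f x u - f x0 u| = 2 * ∫ u, max (f x0 u - f x u) 0 := by
    intro x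
    have e : (fun u => |f x u - f x0 u|) =
        fun u => (f x u - f x0 u) + 2 * max (f x0 u - f x u) 0 := by
      funext u
      rcases le_total (f x u) (f x0 u) with h | h
      · rw [abs_of_nonpos (by linarith), max_eq_left (by linarith)]; ring
      · rw [abs_of_nonneg (by linarith), max_eq_right (by linarith)]; ring
    have i1 : Integrable (fun u => f x u - f x0 u) := (hf x).sub (hf x0)
    have i2 : Integrable (fun u => max (f x0 u - f x u) 0) := ((hf x0).sub (hf x)).pos_part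
    rw [e, integral_add i1 (i2.const_mul 2), integral_sub (hf x) (hf x0), hm x, sub_self,
      zero_add, integral_const_mul]
  simp only [integral_zero] at h1
  have h3 := h1.const_mul 2
  rw [mul_zero] at h3
  exact h3.congr fun x => (h2 x).symm

/-- pointwise continuity of the densities in the nuclear positions -/
theorem dens_cont {γ : ℝ} (hγ : 0 < γ) {z : ι → ℝ} (hz : ∀ j, 0 < z j) {lam : ℝ} (h0 : 0 < lam)
    {rho : (ι → E3) → E3 → ℝ} {mu : (ι → E3) → ℝ} (hI : ∀ R, IonC γ z R lam (mu R) (rho R))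
    {R0 : ι → E3} {d : ℝ} (hd : 0 < d) (j : ι) (hsep : ∀ i, i ≠ j → d ≤ ‖R0 i - R0 j‖) {u : E3}
    (hu : ∀ i, u + R0 j ≠ R0 i) :
    Tendsto (fun R : ι → E3 => rho R (u + R j)) (𝓝 R0) (𝓝 (rho R0 (u + R0 j))) := by
  have hz' : ∀ j, 0 ≤ z j := fun j => (hz j).le
  have hnh : ∀ δ : ℝ, 0 < δ → ∀ᶠ R : ι → E3 in 𝓝 R0, ∀ j, ‖R j - R0 j‖ < δ := by
    intro δ hδ
    have h := Metric.ball_mem_nhds R0 hδ
    filter_upwards [h] with R hR i
    rw [mem_ball, dist_eq_norm] at hR
    exact (norm_le_pi_norm (R - R0) i).trans_lt hR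
  have hpos : Tendsto (fun R : ι → E3 => u + R j) (𝓝 R0) (𝓝 (u + R0 j)) :=
    tendsto_const_nhds.add ((continuous_apply j).tendsto R0)
  have hmu : Tendsto mu (𝓝 R0) (𝓝 (mu R0)) := by
    rw [Metric.tendsto_nhds]
    intro ε hε
    obtain ⟨δ, hδ, h⟩ := mu_cont hγ hz' h0 (hI R0).toIon (hz j) hd hsep (half_pos hε)
    filter_upwards [hnh δ hδ] with R hR
    rw [Real.dist_eq]
    exact (h R _ _ (hI R).toIon hR).trans_lt (by linarith)
  have hp : Tendsto (fun R : ι → E3 => pot (rho R) (u + R j)) (𝓝 R0)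
      (𝓝 (pot (rho R0) (u + R0 j))) := by
    have hc := ((pot_cont (hI R0).md.nice).tendsto (u + R0 j)).comp hpos
    rw [Metric.tendsto_nhds] at hc ⊢
    intro ε hε
    obtain ⟨δ, hδ, h⟩ := ion_cont hγ hz' h0 (hI R0).toIon (half_pos (half_pos hε)) one_pos
    filter_upwards [hnh δ hδ, hc (ε / 2) (by positivity)] with R hR hR2
    have h1 := (h R _ _ (hI R).toIon hR).2 (u + R j)
    rw [Real.dist_eq] at hR2 ⊢
    have h2 := abs_sub_le (pot (rho R) (u + R j)) (pot (rho R0) (u + R j))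
      (pot (rho R0) (u + R0 j))
    have hR2' : |pot (rho R0) (u + R j) - pot (rho R0) (u + R0 j)| < ε / 2 := hR2
    linarith
  have hV : Tendsto (fun R : ι → E3 => Vn z R (u + R j)) (𝓝 R0) (𝓝 (Vn z R0 (u + R0 j))) := by
    unfold Vn
    refine tendsto_finsetSum _ fun i _ => ?_
    refine tendsto_const_nhds.div ((hpos.sub ((continuous_apply i).tendsto R0)).norm) ?_
    exact norm_ne_zero_iff.2 (sub_ne_zero.2 (hu i))
  have e : (fun R : ι → E3 => rho R (u + R j)) = fun R : ι → E3 =>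
      (max (Vn z R (u + R j) - pot (rho R) (u + R j) - mu R) 0 / γ) ^ (3/2 : ℝ) :=
    funext fun R => (hI R).can _
  rw [e, (hI R0).can]
  exact ((((hV.sub hp).sub hmu).max tendsto_const_nhds).div_const γ).rpow_const
    (Or.inr (by norm_num))

/-- **Continuity of the field in the nuclear positions.** -/
theorem Fi_cont {γ : ℝ} (hγ : 0 < γ) {z : ι → ℝ} (hz : ∀ j, 0 < z j) {lam : ℝ} (h0 : 0 < lam)
    {rho : (ι → E3) → E3 → ℝ} {mu : (ι → E3) → ℝ} (hI : ∀ R, IonC γ z R lam (mu R) (rho R))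
    {R0 : ι → E3} {s1 : ℝ} (hs1 : 0 < s1) (j : ι) (hsep : ∀ i, i ≠ j → 4 * s1 ≤ ‖R0 i - R0 j‖) :
    Tendsto (fun R : ι → E3 => Fi γ (z j) s1 (rho R) (R j)) (𝓝 R0)
      (𝓝 (Fi γ (z j) s1 (rho R0) (R0 j))) := by
  have hz' : ∀ j, 0 ≤ z j := fun j => (hz j).le
  obtain ⟨M', hM', hNr⟩ := nr_unif hγ hz' h0 hs1 j
  have hsepR : ∀ᶠ R : ι → E3 in 𝓝 R0, ∀ i, i ≠ j → 2 * s1 ≤ ‖R i - R j‖ := by
    have h := Metric.ball_mem_nhds R0 hs1
    filter_upwards [h] with R hR i hij
    rw [mem_ball, dist_eq_norm] at hR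
    have a1 := (norm_le_pi_norm (R - R0) i).trans_lt hR
    have a2 := (norm_le_pi_norm (R - R0) j).trans_lt hR
    have a3 := hsep i hij
    have e : R0 i - R0 j = (R i - R j) - ((R - R0) i) + (R - R0) j := by
      simp only [Pi.sub_apply]; abel
    have a4 := norm_add_le ((R i - R j) - ((R - R0) i)) ((R - R0) j)
    have a5 := norm_sub_le (R i - R j) ((R - R0) i)
    rw [← e] at a4
    linarith
  -- almost everywhere convergence
  have hae : ∀ᵐ u : E3, ∀ i, u + R0 j ≠ R0 i := by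
    filter_upwards [nuc_null (fun i => R0 i - R0 j)] with u hu i h
    exact hu i (by rw [← h]; abel)
  have hconv : ∀ᵐ u : E3, Tendsto (fun R : ι → E3 => rho R (u + R j)) (𝓝 R0)
      (𝓝 (rho R0 (u + R0 j))) := by
    filter_upwards [hae] with u hu
    exact dens_cont hγ hz h0 hI (d := 4 * s1) (by positivity) j hsep hu
  have hSch := scheffe (f := fun (R : ι → E3) (u : E3) => rho R (u + R j)) (x0 := R0)
    (fun R => (hI R).md.int.comp_add_right (R j)) (fun R u => (hI R).md.nonneg _)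
    (fun R => by
      have e1 : ∫ u, rho R (u + R j) = ∫ u, rho R u :=
        integral_add_right_eq_self (μ := volume) _ (R j)
      have e2 : ∫ u, rho R0 (u + R0 j) = ∫ u, rho R0 u :=
        integral_add_right_eq_self (μ := volume) _ (R0 j)
      show ∫ u, rho R (u + R j) = ∫ u, rho R0 (u + R0 j)
      rw [e1, e2, (hI R).mass, (hI R0).mass]) hconv
  -- the inner part
  have hin : Tendsto (fun R : ι → E3 => ∫ u, (ball (0:E3) s1).indicator
      (fun u => |rho R (u + R j) - rho R0 (u + R0 j)| * ‖u‖ ^ (-2 : ℝ)) u) (𝓝 R0)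
      (𝓝 (∫ _ : E3, (0:ℝ))) := by
    refine tendsto_integral_filter_of_dominated_convergence
      (fun u => 2 * M' * (ball (0:E3) s1).indicator (fun x => ‖x‖ ^ (-(5/2) : ℝ)) u)
      (Eventually.of_forall fun R => ?_) ?_
      (((ball_pow (p := 5/2) (by norm_num) hs1).1).const_mul _) ?_
    · refine (Measurable.indicator ?_ measurableSet_ball).aestronglyMeasurable
      exact ((((hI R).md.meas.comp (measurable_id.add_const _)).sub
        ((hI R0).md.meas.comp (measurable_id.add_const _))).norm).mul (measurable_norm.pow_const _)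
    · filter_upwards [hsepR] with R hR
      filter_upwards [ae_ne0] with u hu
      have hr : 0 < ‖u‖ := norm_pos_iff.2 hu
      by_cases hb : u ∈ ball (0:E3) s1
      · rw [indicator_of_mem hb, indicator_of_mem hb]
        have hb' : ‖u‖ < s1 := by simpa using hb
        have h1 := (hNr R _ _ (hI R) hR (u + R j) (by simpa using hu) (by simpa using hb')).1
        have h2 := (hNr R0 _ _ (hI R0) (fun i hij => by have := hsep i hij; linarith) (u + R0 j)
          (by simpa using hu) (by simpa using hb')).1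
        rw [add_sub_cancel_right] at h1 h2
        have h3 : |rho R (u + R j) - rho R0 (u + R0 j)| ≤ 2 * M' * ‖u‖ ^ (-(1/2) : ℝ) := by
          have := abs_sub_le (rho R (u + R j)) (cusp γ (z j) u) (rho R0 (u + R0 j))
          rw [abs_sub_comm (cusp γ (z j) u)] at this
          linarith
        rw [Real.norm_of_nonneg (by positivity)]
        have e : 2 * M' * ‖u‖ ^ (-(5/2) : ℝ) =
            2 * M' * ‖u‖ ^ (-(1/2) : ℝ) * ‖u‖ ^ (-2 : ℝ) := by
          rw [mul_assoc _ (‖u‖ ^ (-(1/2) : ℝ)), ← Real.rpow_add hr]; norm_num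
        rw [e]
        exact mul_le_mul_of_nonneg_right h3 (Real.rpow_nonneg hr.le _)
      · rw [indicator_of_notMem hb, indicator_of_notMem hb]; simp
    · filter_upwards [hconv] with u hu
      by_cases hb : u ∈ ball (0:E3) s1
      · simp only [indicator_of_mem hb]
        have h1 := ((hu.sub_const (rho R0 (u + R0 j))).abs).mul_const (‖u‖ ^ (-2 : ℝ))
        simpa using h1
      · simp only [indicator_of_notMem hb]
        exact tendsto_const_nhds
  simp only [integral_zero] at hin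
  have hout := hSch.const_mul ((s1 ^ 2)⁻¹)
  rw [mul_zero] at hout
  have hsum := hin.add hout
  rw [add_zero] at hsum
  rw [tendsto_iff_norm_sub_tendsto_zero]
  refine squeeze_zero' (Eventually.of_forall fun R => norm_nonneg _) ?_ hsum
  filter_upwards [hsepR] with R hR
  have hNR := hNr R _ _ (hI R) hR
  have hN0 := hNr R0 _ _ (hI R0) (fun i hij => by have := hsep i hij; linarith)
  have iR := Fi_int hs1 hM' (hI R).md hNR
  have i0 := Fi_int hs1 hM' (hI R0).md hN0
  have iL1 : Integrable (fun u => |rho R (u + R j) - rho R0 (u + R0 j)|) :=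
    (((hI R).md.int.comp_add_right (R j)).sub ((hI R0).md.int.comp_add_right (R0 j))).abs
  have iin : Integrable (fun u => (ball (0:E3) s1).indicator
      (fun u => |rho R (u + R j) - rho R0 (u + R0 j)| * ‖u‖ ^ (-2 : ℝ)) u) := by
    have := ((iR.sub i0).norm).indicator (measurableSet_ball (x := (0:E3)) (ε := s1))
    refine this.congr (ae_of_all _ fun u => ?_)
    show (ball (0:E3) s1).indicator (fun u => ‖gr γ (z j) s1 (rho R) (R j) u • KK u -
      gr γ (z j) s1 (rho R0) (R0 j) u • KK u‖) u = (ball (0:E3) s1).indicator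
      (fun u => |rho R (u + R j) - rho R0 (u + R0 j)| * ‖u‖ ^ (-2 : ℝ)) u
    by_cases hb : u ∈ ball (0:E3) s1
    · rw [indicator_of_mem hb, indicator_of_mem hb]
      rw [← sub_smul, norm_smul, KK_norm, Real.norm_eq_abs]
      unfold gr
      rw [sub_sub_sub_cancel_right]
    · rw [indicator_of_notMem hb, indicator_of_notMem hb]
  unfold Fi
  rw [← integral_sub iR i0, ← integral_const_mul, ← integral_add iin (iL1.const_mul _)]
  refine (norm_integral_le_integral_norm _).trans ?_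
  refine integral_mono_ae (iR.sub i0).norm (iin.add (iL1.const_mul _)) ?_
  filter_upwards [ae_ne0] with u hu
  show ‖gr γ (z j) s1 (rho R) (R j) u • KK u - gr γ (z j) s1 (rho R0) (R0 j) u • KK u‖ ≤
    (ball (0:E3) s1).indicator
      (fun u => |rho R (u + R j) - rho R0 (u + R0 j)| * ‖u‖ ^ (-2 : ℝ)) u +
      (s1 ^ 2)⁻¹ * |rho R (u + R j) - rho R0 (u + R0 j)|
  rw [← sub_smul, norm_smul, KK_norm, Real.norm_eq_abs]
  unfold gr
  rw [sub_sub_sub_cancel_right]
  have hA := abs_nonneg (rho R (u + R j) - rho R0 (u + R0 j))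
  by_cases hb : u ∈ ball (0:E3) s1
  · rw [indicator_of_mem hb]
    have : 0 ≤ (s1 ^ 2)⁻¹ * |rho R (u + R j) - rho R0 (u + R0 j)| := by positivity
    linarith
  · rw [indicator_of_notMem hb, zero_add, mul_comm]
    exact mul_le_mul_of_nonneg_right (neg_two_le hs1 (by simpa using hb)) hA

end Pool.Agent.R999.Ex
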