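import Pool.Agent.R999.Dif4

/-!
# Transport of densities by `x ↦ x + χ(x) δ`
-/

set_option autoImplicit false

namespace Pool.Agent.R999.Ex

open MeasureTheory Set Filter Topology Metric
open Pool.Agent.TH791.Cl Pool.Agent.TH791.Nw Pool.Agent.R999.Pot Pool.Agent.R999.MinP
open Pool.Agent.R999.Newton
open scoped ENNReal RealInnerProductSpace

/-- a cutoff function with bounded gradient -/
structure Cut (χ : E3 → ℝ) (χ' : E3 → E3 →L[ℝ] ℝ) (L : ℝ) : Prop where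
  nonneg : ∀ x, 0 ≤ χ x
  le_one : ∀ x, χ x ≤ 1
  der : ∀ x, HasFDerivAt χ (χ' x) x
  cont : Continuous χ'
  bound : ∀ x, ‖χ' x‖ ≤ L

namespace Cut

variable {χ : E3 → ℝ} {χ' : E3 → E3 →L[ℝ] ℝ} {L : ℝ}

lemma L0 (h : Cut χ χ' L) : 0 ≤ L := (norm_nonneg _).trans (h.bound 0)

lemma lip (h : Cut χ χ' L) (x y : E3) : |χ x - χ y| ≤ L * ‖x - y‖ := by
  have := Convex.norm_image_sub_le_of_norm_hasFDerivWithin_le (𝕜 := ℝ) (f := χ) (s := univ)
    (f' := χ') (C := L) (x := y) (y := x) (fun x _ => (h.der x).hasFDerivWithinAt)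
    (fun x _ => h.bound x) convex_univ (mem_univ _) (mem_univ _)
  rwa [Real.norm_eq_abs] at this

/-- the transport map -/
noncomputable def TT (χ : E3 → ℝ) (δ x : E3) : E3 := x + χ x • δ

lemma TT_der (h : Cut χ χ' L) (δ x : E3) :
    HasFDerivAt (TT χ δ) (ContinuousLinearMap.id ℝ E3 + (χ' x).smulRight δ) x :=
  (hasFDerivAt_id x).add ((h.der x).smul_const δ)

lemma TT_det (δ x : E3) :
    (ContinuousLinearMap.id ℝ E3 + (χ' x).smulRight δ).det = 1 + χ' x δ := by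
  have e : ((ContinuousLinearMap.id ℝ E3 + (χ' x).smulRight δ : E3 →L[ℝ] E3) : E3 →ₗ[ℝ] E3) =
      LinearMap.transvection ((χ' x : E3 →L[ℝ] ℝ) : E3 →ₗ[ℝ] ℝ) δ := by
    ext v
    simp [LinearMap.transvection.apply]
  unfold ContinuousLinearMap.det
  rw [e, LinearMap.transvection.det]
  rfl

lemma q_le (h : Cut χ χ' L) {δ : E3} (x : E3) : |χ' x δ| ≤ L * ‖δ‖ := by
  have h1 := (χ' x).le_opNorm δ
  rw [Real.norm_eq_abs] at h1
  exact h1.trans (mul_le_mul_of_nonneg_right (h.bound x) (norm_nonneg _))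

lemma TT_sub (h : Cut χ χ' L) {δ : E3} (hδ : L * ‖δ‖ ≤ 1/2) (x y : E3) :
    1/2 * ‖x - y‖ ≤ ‖TT χ δ x - TT χ δ y‖ := by
  have e : x - y = (TT χ δ x - TT χ δ y) - (χ x - χ y) • δ := by
    unfold TT; rw [sub_smul]; abel
  have h1 : ‖(χ x - χ y) • δ‖ ≤ 1/2 * ‖x - y‖ := by
    rw [norm_smul, Real.norm_eq_abs]
    calc |χ x - χ y| * ‖δ‖ ≤ L * ‖x - y‖ * ‖δ‖ :=
          mul_le_mul_of_nonneg_right (h.lip x y) (norm_nonneg _)
      _ = L * ‖δ‖ * ‖x - y‖ := by ring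
      _ ≤ 1/2 * ‖x - y‖ := mul_le_mul_of_nonneg_right hδ (norm_nonneg _)
  have h2 := norm_sub_le (TT χ δ x - TT χ δ y) ((χ x - χ y) • δ)
  rw [← e] at h2
  linarith

lemma TT_inj (h : Cut χ χ' L) {δ : E3} (hδ : L * ‖δ‖ ≤ 1/2) : Function.Injective (TT χ δ) := by
  intro x y hxy
  have := TT_sub h hδ x y
  rw [hxy, sub_self, norm_zero] at this
  have h2 : ‖x - y‖ = 0 := le_antisymm (by linarith) (norm_nonneg _)
  exact sub_eq_zero.1 (norm_eq_zero.1 h2)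

lemma TT_surj (h : Cut χ χ' L) {δ : E3} (hδ : L * ‖δ‖ ≤ 1/2) : Function.Surjective (TT χ δ) := by
  intro y
  have hc : ContractingWith (1/2 : NNReal) (fun x => y - χ x • δ) := by
    refine ⟨by rw [← NNReal.coe_lt_coe]; norm_num, LipschitzWith.of_dist_le_mul fun a b => ?_⟩
    rw [dist_eq_norm, dist_eq_norm]
    have e : y - χ a • δ - (y - χ b • δ) = (χ b - χ a) • δ := by rw [sub_smul]; abel
    rw [e, norm_smul, Real.norm_eq_abs]
    calc |χ b - χ a| * ‖δ‖ ≤ L * ‖b - a‖ * ‖δ‖ :=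
          mul_le_mul_of_nonneg_right (h.lip b a) (norm_nonneg _)
      _ = L * ‖δ‖ * ‖a - b‖ := by rw [norm_sub_rev]; ring
      _ ≤ 1/2 * ‖a - b‖ := mul_le_mul_of_nonneg_right hδ (norm_nonneg _)
      _ = _ := by norm_num
  have hfp := hc.fixedPoint_isFixedPt
  refine ⟨ContractingWith.fixedPoint _ hc, ?_⟩
  have h1 : y - χ (ContractingWith.fixedPoint _ hc) • δ = ContractingWith.fixedPoint _ hc := hfp
  unfold TT
  nth_rewrite 1 [← h1]
  abel

/-- the inverse map -/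
noncomputable def SS (χ : E3 → ℝ) (δ : E3) : E3 → E3 := Function.invFun (TT χ δ)

lemma SS_TT (h : Cut χ χ' L) {δ : E3} (hδ : L * ‖δ‖ ≤ 1/2) (x : E3) : SS χ δ (TT χ δ x) = x :=
  Function.leftInverse_invFun (TT_inj h hδ) x

lemma TT_SS (h : Cut χ χ' L) {δ : E3} (hδ : L * ‖δ‖ ≤ 1/2) (y : E3) : TT χ δ (SS χ δ y) = y :=
  Function.rightInverse_invFun (TT_surj h hδ) y

lemma SS_cont (h : Cut χ χ' L) {δ : E3} (hδ : L * ‖δ‖ ≤ 1/2) : Continuous (SS χ δ) := by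
  have : LipschitzWith 2 (SS χ δ) := by
    refine LipschitzWith.of_dist_le_mul fun a b => ?_
    rw [dist_eq_norm, dist_eq_norm]
    have h1 := TT_sub h hδ (SS χ δ a) (SS χ δ b)
    rw [TT_SS h hδ, TT_SS h hδ] at h1
    have : ((2 : NNReal) : ℝ) = 2 := rfl
    rw [this]
    linarith
  exact this.continuous

/-- the Jacobian -/
noncomputable def JJ (χ' : E3 → E3 →L[ℝ] ℝ) (δ x : E3) : ℝ := 1 + χ' x δ

lemma JJ_bd (h : Cut χ χ' L) {δ : E3} (hδ : L * ‖δ‖ ≤ 1/2) (x : E3) :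
    1/2 ≤ JJ χ' δ x ∧ JJ χ' δ x ≤ 3/2 := by
  have := abs_le.1 ((h.q_le (δ := δ) x).trans hδ)
  unfold JJ
  constructor <;> linarith [this.1, this.2]

lemma JJ_cont (h : Cut χ χ' L) (δ : E3) : Continuous (JJ χ' δ) :=
  continuous_const.add (h.cont.clm_apply continuous_const)

lemma cov (h : Cut χ χ' L) {δ : E3} (hδ : L * ‖δ‖ ≤ 1/2) (g : E3 → ℝ) :
    (Integrable g ↔ Integrable (fun x => JJ χ' δ x * g (TT χ δ x))) ∧
    ∫ y, g y = ∫ x, JJ χ' δ x * g (TT χ δ x) := by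
  have hi : TT χ δ '' univ = univ := by rw [image_univ, (TT_surj h hδ).range_eq]
  have habs : ∀ x, |(ContinuousLinearMap.id ℝ E3 + (χ' x).smulRight δ).det| = JJ χ' δ x := by
    intro x
    rw [TT_det]
    exact abs_of_nonneg (by have := (JJ_bd h hδ x).1; unfold JJ at this; linarith)
  have h1 := integral_image_eq_integral_abs_det_fderiv_smul (volume : Measure E3)
    MeasurableSet.univ (f := TT χ δ)
    (f' := fun x => ContinuousLinearMap.id ℝ E3 + (χ' x).smulRight δ)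
    (fun x _ => (TT_der h δ x).hasFDerivWithinAt) (TT_inj h hδ).injOn g
  have h2 := integrableOn_image_iff_integrableOn_abs_det_fderiv_smul (volume : Measure E3)
    MeasurableSet.univ (f := TT χ δ)
    (f' := fun x => ContinuousLinearMap.id ℝ E3 + (χ' x).smulRight δ)
    (fun x _ => (TT_der h δ x).hasFDerivWithinAt) (TT_inj h hδ).injOn g
  simp only [hi, integrableOn_univ, Measure.restrict_univ, habs, smul_eq_mul] at h1 h2
  exact ⟨h2, h1⟩

/-- the transported density -/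
noncomputable def push (χ : E3 → ℝ) (χ' : E3 → E3 →L[ℝ] ℝ) (δ : E3) (ρ : E3 → ℝ) (y : E3) : ℝ :=
  ρ (SS χ δ y) / JJ χ' δ (SS χ δ y)

lemma push_int (h : Cut χ χ' L) {δ : E3} (hδ : L * ‖δ‖ ≤ 1/2) (ρ φ : E3 → ℝ) :
    (Integrable (fun y => push χ χ' δ ρ y * φ y) ↔ Integrable (fun x => ρ x * φ (TT χ δ x))) ∧
    ∫ y, push χ χ' δ ρ y * φ y = ∫ x, ρ x * φ (TT χ δ x) := by
  obtain ⟨h1, h2⟩ := cov h hδ (fun y => push χ χ' δ ρ y * φ y)
  have e : (fun x => JJ χ' δ x * (push χ χ' δ ρ (TT χ δ x) * φ (TT χ δ x))) =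
      fun x => ρ x * φ (TT χ δ x) := by
    funext x
    unfold push
    rw [SS_TT h hδ]
    have := (JJ_bd h hδ x).1
    have h3 : JJ χ' δ x ≠ 0 := by linarith
    field_simp
  rw [e] at h1 h2
  exact ⟨h1, h2⟩

lemma push_md (h : Cut χ χ' L) {δ : E3} (hδ : L * ‖δ‖ ≤ 1/2) {ρ : E3 → ℝ} (hρ : MD ρ) :
    MD (push χ χ' δ ρ) ∧ ∫ y, push χ χ' δ ρ y = ∫ x, ρ x ∧
    ∫ y, push χ χ' δ ρ y ^ (5/3 : ℝ) = ∫ x, ρ x ^ (5/3 : ℝ) * JJ χ' δ x ^ (-(2/3) : ℝ) := by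
  have hS : Measurable (SS χ δ) := (SS_cont h hδ).measurable
  have hm : Measurable (push χ χ' δ ρ) :=
    (hρ.meas.comp hS).div ((JJ_cont h δ).measurable.comp hS)
  have hJ : ∀ x, 0 < JJ χ' δ x := fun x => by have := (JJ_bd h hδ x).1; linarith
  have hnn : ∀ y, 0 ≤ push χ χ' δ ρ y := fun y => div_nonneg (hρ.nonneg _) (hJ _).le
  have h1 := push_int h hδ ρ (fun _ => 1)
  simp only [mul_one] at h1
  obtain ⟨c1, c2⟩ := cov h hδ (fun y => push χ χ' δ ρ y ^ (5/3 : ℝ))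
  have e : (fun x => JJ χ' δ x * push χ χ' δ ρ (TT χ δ x) ^ (5/3 : ℝ)) =
      fun x => ρ x ^ (5/3 : ℝ) * JJ χ' δ x ^ (-(2/3) : ℝ) := by
    funext x
    unfold push
    rw [SS_TT h hδ, Real.div_rpow (hρ.nonneg x) (hJ x).le]
    have e1 : JJ χ' δ x ^ (-(2/3) : ℝ) = JJ χ' δ x / JJ χ' δ x ^ (5/3 : ℝ) := by
      rw [show (-(2/3) : ℝ) = 1 - 5/3 by norm_num, Real.rpow_sub (hJ x), Real.rpow_one]
    rw [e1]; ring
  rw [e] at c1 c2
  have i53 : Integrable (fun x => ρ x ^ (5/3 : ℝ) * JJ χ' δ x ^ (-(2/3) : ℝ)) := by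
    refine (hρ.int_pow.const_mul 2).mono' ((hρ.meas.pow_const _).mul
      ((JJ_cont h δ).measurable.pow_const _)).aestronglyMeasurable (ae_of_all _ fun x => ?_)
    have p1 : 0 ≤ ρ x ^ (5/3 : ℝ) := Real.rpow_nonneg (hρ.nonneg x) _
    have p2 : 0 ≤ JJ χ' δ x ^ (-(2/3) : ℝ) := Real.rpow_nonneg (hJ x).le _
    rw [Real.norm_of_nonneg (mul_nonneg p1 p2), mul_comm]
    refine mul_le_mul_of_nonneg_right ?_ p1
    have h3 : JJ χ' δ x ^ (-(2/3) : ℝ) ≤ (1/2 : ℝ) ^ (-(2/3) : ℝ) :=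
      Real.rpow_le_rpow_of_nonpos (by norm_num) (JJ_bd h hδ x).1 (by norm_num)
    refine h3.trans ?_
    have h4 : (1/2 : ℝ) ^ (-(2/3) : ℝ) ≤ (1/2 : ℝ) ^ (-1 : ℝ) :=
      Real.rpow_le_rpow_of_exponent_ge (by norm_num) (by norm_num) (by norm_num)
    refine h4.trans (le_of_eq ?_)
    rw [Real.rpow_neg_one]; norm_num
  exact ⟨⟨hm, hnn, h1.1.2 hρ.int, c1.2 i53⟩, h1.2, c2⟩

lemma push_pot (h : Cut χ χ' L) {δ : E3} (hδ : L * ‖δ‖ ≤ 1/2) {ρ : E3 → ℝ} (x : E3) :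
    pot (push χ χ' δ ρ) x = ∫ y, ρ y / ‖x - TT χ δ y‖ := by
  unfold pot
  have := (push_int h hδ ρ (fun y => 1 / ‖x - y‖)).2
  simpa only [mul_one_div] using this

end Cut

/-- first order expansion of the Coulomb kernel -/
lemma ker_exp {u η : E3} (hu : u ≠ 0) (hη : ‖η‖ ≤ ‖u‖ / 2) :
    |1 / ‖u - η‖ - 1 / ‖u‖ - ⟪η, u⟫ / ‖u‖ ^ 3| ≤ 6 * ‖η‖ ^ 2 / ‖u‖ ^ 3 := by
  set a := ‖u‖ with ha
  set b := ‖u - η‖ with hb
  set n := ‖η‖ with hn
  set p := ⟪η, u⟫ with hp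
  have ha0 : 0 < a := norm_pos_iff.2 hu
  have hn0 : 0 ≤ n := norm_nonneg _
  have hab : |a - b| ≤ n := by
    have := abs_norm_sub_norm_le u (u - η)
    rwa [sub_sub_cancel] at this
  have hb2 : a / 2 ≤ b := by linarith [(abs_le.1 hab).2]
  have hb0 : 0 < b := by linarith
  have hsq : b ^ 2 = a ^ 2 - 2 * p + n ^ 2 := by
    rw [hb, ha, hn, hp, norm_sub_sq_real, real_inner_comm]
  have hpl : |p| ≤ n * a := abs_real_inner_le_norm _ _
  have e : 1 / b - 1 / a - p / a ^ 3 =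
      -(n ^ 2 / (a * b * (a + b))) + p * ((a - b) * (2 * a + b) / (a ^ 3 * b * (a + b))) := by
    have h1 : 1 / b - 1 / a = (2 * p - n ^ 2) / (a * b * (a + b)) := by
      rw [div_sub_div _ _ hb0.ne' ha0.ne', div_eq_div_iff (by positivity) (by positivity)]
      have : 2 * p - n ^ 2 = a ^ 2 - b ^ 2 := by linarith
      rw [this]; ring
    rw [h1]
    field_simp
    ring
  rw [e]
  have t1 : |-(n ^ 2 / (a * b * (a + b)))| ≤ 2 * n ^ 2 / a ^ 3 := by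
    rw [abs_neg, abs_of_nonneg (by positivity), div_le_div_iff₀ (by positivity) (by positivity)]
    have h2 : a * a * a ≤ 2 * (a * b * (a + b)) := by
      have h3 : a * a ≤ 2 * (b * (a + b)) := by nlinarith
      nlinarith
    have : n ^ 2 * a ^ 3 = n ^ 2 * (a * a * a) := by ring
    rw [this]
    calc n ^ 2 * (a * a * a) ≤ n ^ 2 * (2 * (a * b * (a + b))) :=
          mul_le_mul_of_nonneg_left h2 (by positivity)
      _ = 2 * n ^ 2 * (a * b * (a + b)) := by ring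
  have t2 : |p * ((a - b) * (2 * a + b) / (a ^ 3 * b * (a + b)))| ≤ 4 * n ^ 2 / a ^ 3 := by
    rw [abs_mul, abs_div, abs_mul, abs_of_pos (by positivity : 0 < 2 * a + b),
      abs_of_pos (by positivity : 0 < a ^ 3 * b * (a + b))]
    have h2 : |a - b| * (2 * a + b) / (a ^ 3 * b * (a + b)) ≤ 4 * n / (a ^ 4) := by
      rw [div_le_div_iff₀ (by positivity) (by positivity)]
      have h3 : |a - b| * (2 * a + b) ≤ n * (2 * (a + b)) :=
        mul_le_mul hab (by linarith) (by positivity) hn0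
      calc |a - b| * (2 * a + b) * a ^ 4 ≤ n * (2 * (a + b)) * a ^ 4 :=
            mul_le_mul_of_nonneg_right h3 (by positivity)
        _ = 4 * n * (a ^ 3 * (a / 2) * (a + b)) := by ring
        _ ≤ 4 * n * (a ^ 3 * b * (a + b)) := by
            refine mul_le_mul_of_nonneg_left ?_ (by positivity)
            refine mul_le_mul_of_nonneg_right ?_ (by positivity)
            exact mul_le_mul_of_nonneg_left hb2 (by positivity)
    calc |p| * (|a - b| * (2 * a + b) / (a ^ 3 * b * (a + b))) ≤ n * a * (4 * n / a ^ 4) :=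
          mul_le_mul hpl h2 (by positivity) (by positivity)
      _ = 4 * n ^ 2 / a ^ 3 := by field_simp
  refine (abs_add_le _ _).trans ?_
  have : 6 * n ^ 2 / a ^ 3 = 2 * n ^ 2 / a ^ 3 + 4 * n ^ 2 / a ^ 3 := by ring
  rw [this]
  exact add_le_add t1 t2

/-- expansion of the Jacobian factor -/
lemma jac_exp {q : ℝ} (hq : |q| ≤ 1/2) : (1 + q) ^ (-(2/3) : ℝ) ≤ 1 - 2/3 * q + 4/3 * q ^ 2 := by
  have h1 := abs_le.1 hq
  have h0 : 0 < 1 + q := by linarith [h1.1]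
  have e : (1 + q) ^ (-(2/3) : ℝ) = (1 + -q / (1 + q)) ^ (2/3 : ℝ) := by
    have : 1 + -q / (1 + q) = (1 + q)⁻¹ := by field_simp; ring
    rw [this, Real.rpow_neg h0.le, Real.inv_rpow h0.le]
  rw [e]
  have h2 : -1 ≤ -q / (1 + q) := by
    rw [le_div_iff₀ h0]; linarith
  have h3 := rpow_one_add_le_one_add_mul_self h2 (p := 2/3) (by norm_num) (by norm_num)
  refine h3.trans ?_
  have h4 : -q / (1 + q) = -q + q ^ 2 / (1 + q) := by field_simp; ring
  have h5 : q ^ 2 / (1 + q) ≤ 2 * q ^ 2 := by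
    rw [div_le_iff₀ h0]
    nlinarith [sq_nonneg q, h1.1]
  rw [h4]
  linarith

/-- the standard cutoff -/
theorem cut_ex : ∃ L1 : ℝ, 0 < L1 ∧ ∀ s : ℝ, 0 < s → ∃ (χ : E3 → ℝ) (χ' : E3 → E3 →L[ℝ] ℝ),
    Cut χ χ' (L1 / s) ∧ (∀ u, ‖u‖ ≤ s → χ u = 1) ∧ (∀ u, 2 * s ≤ ‖u‖ → χ u = 0) ∧
    (∀ u, 2 * s ≤ ‖u‖ → χ' u = 0) ∧ (∀ u, χ (-u) = χ u) ∧ (∀ u, χ' (-u) = -χ' u) := by
  have hder : Continuous (deriv Real.smoothTransition) :=
    (Real.smoothTransition.contDiff (n := 1)).continuous_deriv le_rfl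
  have hz1 : ∀ t : ℝ, t < 0 → deriv Real.smoothTransition t = 0 := by
    intro t ht
    have : Real.smoothTransition =ᶠ[𝓝 t] fun _ => 0 := by
      filter_upwards [Iio_mem_nhds ht] with x hx
      exact Real.smoothTransition.zero_of_nonpos (le_of_lt hx)
    rw [this.deriv_eq, deriv_const]
  have hz2 : ∀ t : ℝ, 1 < t → deriv Real.smoothTransition t = 0 := by
    intro t ht
    have : Real.smoothTransition =ᶠ[𝓝 t] fun _ => 1 := by
      filter_upwards [Ioi_mem_nhds ht] with x hx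
      exact Real.smoothTransition.one_of_one_le (le_of_lt hx)
    rw [this.deriv_eq, deriv_const]
  have hcs : HasCompactSupport (deriv Real.smoothTransition) := by
    refine HasCompactSupport.intro (isCompact_Icc (a := (0:ℝ)) (b := 1)) fun t ht => ?_
    rw [mem_Icc, not_and_or, not_le, not_le] at ht
    exact ht.elim (hz1 t) (hz2 t)
  obtain ⟨C, hC⟩ := hder.bounded_above_of_compact_support hcs
  have hC0 : 0 ≤ C := (norm_nonneg _).trans (hC 0)
  refine ⟨4 * (C + 1), by positivity, fun s hs => ?_⟩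
  set χ : E3 → ℝ := fun u => Real.smoothTransition (2 - ‖u‖ ^ 2 / s ^ 2) with hχ
  set χ' : E3 → E3 →L[ℝ] ℝ := fun u =>
    (deriv Real.smoothTransition (2 - ‖u‖ ^ 2 / s ^ 2)) • (-(2 / s ^ 2) • innerSL ℝ u) with hχ'
  have hzero : ∀ u : E3, 2 * s ≤ ‖u‖ → 2 - ‖u‖ ^ 2 / s ^ 2 < 0 := by
    intro u hu
    have h1 : (2 * s) ^ 2 ≤ ‖u‖ ^ 2 := pow_le_pow_left₀ (by positivity) hu 2
    have h2 : 4 ≤ ‖u‖ ^ 2 / s ^ 2 := by
      rw [le_div_iff₀ (by positivity)]; linarith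
    linarith
  refine ⟨χ, χ', ⟨fun x => Real.smoothTransition.nonneg _, fun x => Real.smoothTransition.le_one _,
    fun x => ?_, ?_, fun x => ?_⟩, fun u hu => ?_, fun u hu => ?_, fun u hu => ?_, fun u => ?_,
    fun u => ?_⟩
  · have h1 : HasFDerivAt (fun u : E3 => 2 - ‖u‖ ^ 2 / s ^ 2) (-(2 / s ^ 2) • innerSL ℝ x) x := by
      have h2 := (hasStrictFDerivAt_norm_sq x).hasFDerivAt
      have h3 := (h2.const_mul ((s ^ 2)⁻¹)).const_sub 2
      refine (h3.congr_fderiv ?_).congr_of_eventuallyEq (Eventually.of_forall fun y => ?_)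
      · ext v
        simp
        ring
      · show 2 - ‖y‖ ^ 2 / s ^ 2 = 2 - (s ^ 2)⁻¹ * ‖y‖ ^ 2
        ring
    have h4 : HasDerivAt Real.smoothTransition (deriv Real.smoothTransition
        (2 - ‖x‖ ^ 2 / s ^ 2)) (2 - ‖x‖ ^ 2 / s ^ 2) :=
      ((Real.smoothTransition.contDiff (n := 1)).differentiable (by norm_num) _).hasDerivAt
    exact h4.comp_hasFDerivAt x h1
  · have hc1 : Continuous (fun u : E3 => deriv Real.smoothTransition (2 - ‖u‖ ^ 2 / s ^ 2)) :=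
      hder.comp (by fun_prop)
    have hc2 : Continuous (fun u : E3 => -(2 / s ^ 2) • innerSL ℝ u) :=
      (innerSL ℝ).continuous.const_smul (-(2 / s ^ 2))
    exact hc1.smul hc2
  · by_cases hx : ‖x‖ < 2 * s
    · show ‖(deriv Real.smoothTransition (2 - ‖x‖ ^ 2 / s ^ 2)) • (-(2 / s ^ 2) • innerSL ℝ x)‖ ≤ _
      rw [norm_smul, norm_smul, innerSL_apply_norm, norm_neg, Real.norm_of_nonneg
        (by positivity : 0 ≤ 2 / s ^ 2)]
      calc ‖deriv Real.smoothTransition (2 - ‖x‖ ^ 2 / s ^ 2)‖ * (2 / s ^ 2 * ‖x‖) ≤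
          C * (2 / s ^ 2 * (2 * s)) :=
            mul_le_mul (hC _) (mul_le_mul_of_nonneg_left hx.le (by positivity)) (by positivity) hC0
        _ ≤ (C + 1) * (2 / s ^ 2 * (2 * s)) :=
            mul_le_mul_of_nonneg_right (by linarith) (by positivity)
        _ = 4 * (C + 1) / s := by field_simp; ring
    · have h1 : χ' x = 0 := by
        show (deriv Real.smoothTransition (2 - ‖x‖ ^ 2 / s ^ 2)) • (-(2 / s ^ 2) • innerSL ℝ x) = 0
        rw [hz1 _ (hzero x (not_lt.1 hx)), zero_smul]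
      rw [h1, norm_zero]; positivity
  · refine Real.smoothTransition.one_of_one_le ?_
    have h1 : ‖u‖ ^ 2 ≤ s ^ 2 := pow_le_pow_left₀ (norm_nonneg _) hu 2
    have h2 : ‖u‖ ^ 2 / s ^ 2 ≤ 1 := (div_le_one (by positivity)).2 h1
    linarith
  · exact Real.smoothTransition.zero_of_nonpos (hzero u hu).le
  · show (deriv Real.smoothTransition (2 - ‖u‖ ^ 2 / s ^ 2)) • (-(2 / s ^ 2) • innerSL ℝ u) = 0
    rw [hz1 _ (hzero u hu), zero_smul]
  · show Real.smoothTransition (2 - ‖-u‖ ^ 2 / s ^ 2) = _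
    rw [norm_neg]
  · show (deriv Real.smoothTransition (2 - ‖-u‖ ^ 2 / s ^ 2)) • (-(2 / s ^ 2) • innerSL ℝ (-u)) =
      -((deriv Real.smoothTransition (2 - ‖u‖ ^ 2 / s ^ 2)) • (-(2 / s ^ 2) • innerSL ℝ u))
    rw [norm_neg, map_neg, smul_neg, smul_neg]

end Pool.Agent.R999.Ex
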