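import Pool.Agent.R999.Dif5

/-!
# Moving one nucleus: the one-sided first order estimate
-/

set_option autoImplicit false

namespace Pool.Agent.R999.Ex

open MeasureTheory Set Filter Topology Metric
open Pool.Agent.TH791.Cl Pool.Agent.TH791.Nw Pool.Agent.R999.Pot Pool.Agent.R999.MinP
open Pool.Agent.R999.Newton
open scoped ENNReal RealInnerProductSpace

variable {ι : Type*} [Fintype ι]

/-- `(2s)^{3/2}` etc. in terms of `w = √(2s)` -/
lemma rpow32 {t : ℝ} (ht : 0 < t) : t ^ (3/2 : ℝ) = √t ^ 3 ∧ t ^ (1/2 : ℝ) = √t ∧ √t ^ 2 = t := by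
  refine ⟨?_, (Real.sqrt_eq_rpow t).symm, Real.sq_sqrt ht.le⟩
  rw [Real.sqrt_eq_rpow, ← Real.rpow_natCast, ← Real.rpow_mul ht.le]
  norm_num

/-- bound of the density near the nucleus -/
lemma nr_le {γ w s1 M' : ℝ} (hγ : 0 < γ) (hw : 0 ≤ w) (hM' : 0 ≤ M') {ρ : E3 → ℝ} {P : E3}
    (hN : Nr γ w s1 M' ρ P) {u : E3} (hu : u ≠ 0) (hu1 : ‖u‖ < s1) :
    ρ (u + P) ≤ ((w / γ) ^ (3/2 : ℝ) + M' * s1) * ‖u‖ ^ (-(3/2) : ℝ) := by
  have hr : 0 < ‖u‖ := norm_pos_iff.2 hu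
  have h1 := (hN (u + P) (by simpa using hu) (by simpa using hu1)).1
  rw [add_sub_cancel_right, cusp_eq hγ hw] at h1
  have h2 := (abs_le.1 h1).2
  have h3 : ‖u‖ ^ (-(1/2) : ℝ) ≤ s1 * ‖u‖ ^ (-(3/2) : ℝ) := by
    have e : ‖u‖ ^ (-(1/2) : ℝ) = ‖u‖ * ‖u‖ ^ (-(3/2) : ℝ) := by
      rw [← Real.rpow_one_add' hr.le (by norm_num)]; norm_num
    rw [e]
    exact mul_le_mul_of_nonneg_right hu1.le (Real.rpow_nonneg hr.le _)
  have h4 := mul_le_mul_of_nonneg_left h3 hM'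
  rw [add_mul]
  linarith

/-- the mass near the nucleus -/
lemma mass_near {γ w s1 M' : ℝ} (hγ : 0 < γ) (hw : 0 ≤ w) (hM' : 0 ≤ M') {ρ : E3 → ℝ} (hρ : MD ρ)
    {P : E3} (hN : Nr γ w s1 M' ρ P) {t : ℝ} (ht : 0 < t) (hts : t ≤ s1) :
    ∫ x, (ball P t).indicator ρ x ≤
      ((w / γ) ^ (3/2 : ℝ) + M' * s1) * (8 * Real.pi / 3 * √t ^ 3) := by
  obtain ⟨k1, k2⟩ := ball_pow (p := 3/2) (L := t) (by norm_num) ht
  have e : ∫ x, (ball P t).indicator ρ x = ∫ u, (ball (0:E3) t).indicator (fun u => ρ (u + P)) u := by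
    rw [← integral_add_right_eq_self (μ := volume) _ P]
    congr 1
    funext u
    by_cases hu : ‖u‖ < t
    · rw [indicator_of_mem (by simpa using hu), indicator_of_mem (by simpa using hu)]
    · rw [indicator_of_notMem (by simpa using hu), indicator_of_notMem (by simpa using hu)]
  rw [e]
  have h1 : ∫ u, (ball (0:E3) t).indicator (fun u => ρ (u + P)) u ≤
      ∫ u : E3, ((w / γ) ^ (3/2 : ℝ) + M' * s1) *
        (ball (0:E3) t).indicator (fun x => ‖x‖ ^ (-(3/2) : ℝ)) u := by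
    refine integral_mono_ae ((hρ.int.comp_add_right P).indicator measurableSet_ball)
      (k1.const_mul _) ?_
    filter_upwards [ae_ne0] with u hu
    show (ball (0:E3) t).indicator (fun u => ρ (u + P)) u ≤ ((w / γ) ^ (3/2 : ℝ) + M' * s1) *
        (ball (0:E3) t).indicator (fun x => ‖x‖ ^ (-(3/2) : ℝ)) u
    by_cases hb : ‖u‖ < t
    · rw [indicator_of_mem (by simpa using hb), indicator_of_mem (by simpa using hb)]
      exact nr_le hγ hw hM' hN hu (hb.trans_le hts)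
    · rw [indicator_of_notMem (by simpa using hb), indicator_of_notMem (by simpa using hb),
        mul_zero]
  refine h1.trans (le_of_eq ?_)
  rw [integral_const_mul, k2]
  congr 1
  rw [show (3:ℝ) - 3/2 = 3/2 by norm_num, (rpow32 ht).1]
  ring

/-- data of the cutoff around `P` -/
structure CutP (χ : E3 → ℝ) (χ' : E3 → E3 →L[ℝ] ℝ) (L s : ℝ) : Prop where
  cut : Cut χ χ' L
  one : ∀ u, ‖u‖ ≤ s → χ u = 1
  zero : ∀ u, 2 * s ≤ ‖u‖ → χ u = 0
  zero' : ∀ u, 2 * s ≤ ‖u‖ → χ' u = 0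
  even : ∀ u, χ (-u) = χ u
  odd : ∀ u, χ' (-u) = -χ' u

lemma Cut.shift {χ : E3 → ℝ} {χ' : E3 → E3 →L[ℝ] ℝ} {L : ℝ} (h : Cut χ χ' L) (P : E3) :
    Cut (fun x => χ (x - P)) (fun x => χ' (x - P)) L :=
  ⟨fun x => h.nonneg _, fun x => h.le_one _, fun x => by
      have h1 : HasFDerivAt (fun x : E3 => x - P) (ContinuousLinearMap.id ℝ E3) x :=
        (hasFDerivAt_id x).sub_const P
      exact (h.der (x - P)).comp x h1,
    h.cont.comp (by fun_prop), fun x => h.bound _⟩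

variable {χ : E3 → ℝ} {χ' : E3 → E3 →L[ℝ] ℝ} {L s : ℝ}

/-- (b) the kinetic first order term -/
lemma kin_first (hC : CutP χ χ' L s) {γ w s1 M' : ℝ} (hγ : 0 < γ) (hw : 0 ≤ w) (hM' : 0 ≤ M')
    (hs : 0 < s) (hs1 : 4 * s ≤ s1) {ρ : E3 → ℝ} (hρ : MD ρ) {P : E3} (hN : Nr γ w s1 M' ρ P)
    (δ : E3) :
    Integrable (fun x => ρ x ^ (5/3 : ℝ) * χ' (x - P) δ) ∧
    |∫ x, ρ x ^ (5/3 : ℝ) * χ' (x - P) δ| ≤
      L * ‖δ‖ * (M' * (8 * Real.pi / 3 * √(2 * s) ^ 3)) := by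
  have h2s : 0 < 2 * s := by positivity
  have hL := hC.cut.L0
  have hχ'm : Measurable (fun u => χ' u δ) := (hC.cut.cont.clm_apply continuous_const).measurable
  have i0 : Integrable (fun x => ρ x ^ (5/3 : ℝ) * χ' (x - P) δ) := by
    refine (hρ.int_pow.mul_const (L * ‖δ‖)).mono' ((hρ.meas.pow_const _).mul
      (hχ'm.comp (measurable_id.sub_const P))).aestronglyMeasurable (ae_of_all _ fun x => ?_)
    rw [norm_mul, Real.norm_of_nonneg (Real.rpow_nonneg (hρ.nonneg x) _), Real.norm_eq_abs]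
    exact mul_le_mul_of_nonneg_left (hC.cut.q_le _) (Real.rpow_nonneg (hρ.nonneg x) _)
  refine ⟨i0, ?_⟩
  have e0 : ∫ x, ρ x ^ (5/3 : ℝ) * χ' (x - P) δ = ∫ u, ρ (u + P) ^ (5/3 : ℝ) * χ' u δ := by
    rw [← integral_add_right_eq_self (μ := volume) _ P]
    simp
  have i1 : Integrable (fun u => ρ (u + P) ^ (5/3 : ℝ) * χ' u δ) := by
    have := i0.comp_add_right P
    simpa using this
  -- the cusp part
  have hcq : ∀ u : E3, ‖cusp γ w u ^ (5/3 : ℝ) * χ' u δ‖ ≤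
      (w / γ) ^ (5/2 : ℝ) * (L * ‖δ‖) *
        (ball (0:E3) (2 * s)).indicator (fun x => ‖x‖ ^ (-(5/2) : ℝ)) u := by
    intro u
    by_cases hb : ‖u‖ < 2 * s
    · rw [indicator_of_mem (by simpa using hb), norm_mul, Real.norm_eq_abs, Real.norm_eq_abs,
        abs_of_nonneg (Real.rpow_nonneg (cusp_nonneg hγ hw u) _)]
      have e1 : cusp γ w u ^ (5/3 : ℝ) = (w / γ) ^ (5/2 : ℝ) * ‖u‖ ^ (-(5/2) : ℝ) := by
        unfold cusp
        rw [← Real.rpow_mul (by positivity), Real.div_rpow (by positivity) (norm_nonneg _),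
          Real.rpow_neg (norm_nonneg _)]
        norm_num
        rfl
      rw [e1]
      have h1 := hC.cut.q_le (δ := δ) u
      have h2 : 0 ≤ (w / γ) ^ (5/2 : ℝ) * ‖u‖ ^ (-(5/2) : ℝ) :=
        mul_nonneg (Real.rpow_nonneg (by positivity) _) (Real.rpow_nonneg (norm_nonneg _) _)
      calc (w / γ) ^ (5/2 : ℝ) * ‖u‖ ^ (-(5/2) : ℝ) * |χ' u δ| ≤
          (w / γ) ^ (5/2 : ℝ) * ‖u‖ ^ (-(5/2) : ℝ) * (L * ‖δ‖) := mul_le_mul_of_nonneg_left h1 h2
        _ = _ := by ring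
    · rw [hC.zero' u (not_lt.1 hb), indicator_of_notMem (by simpa using hb)]
      simp
  have i2 : Integrable (fun u => cusp γ w u ^ (5/3 : ℝ) * χ' u δ) :=
    (((ball_pow (p := 5/2) (by norm_num) h2s).1).const_mul _).mono'
      ((((cusp_meas γ w).pow_const _).mul hχ'm).aestronglyMeasurable) (ae_of_all _ hcq)
  have hodd : ∫ u, cusp γ w u ^ (5/3 : ℝ) * χ' u δ = 0 := by
    refine odd_int fun u => ?_
    rw [cusp_neg, hC.odd, neg_apply, mul_neg]
  have e2 : ∫ u, ρ (u + P) ^ (5/3 : ℝ) * χ' u δ =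
      ∫ u, (ρ (u + P) ^ (5/3 : ℝ) - cusp γ w u ^ (5/3 : ℝ)) * χ' u δ := by
    have : (fun u => (ρ (u + P) ^ (5/3 : ℝ) - cusp γ w u ^ (5/3 : ℝ)) * χ' u δ) =
        fun u => ρ (u + P) ^ (5/3 : ℝ) * χ' u δ - cusp γ w u ^ (5/3 : ℝ) * χ' u δ := by
      funext u; ring
    rw [this, integral_sub i1 i2, hodd, sub_zero]
  rw [e0, e2]
  obtain ⟨k1, k2⟩ := ball_pow (p := 3/2) (L := 2 * s) (by norm_num) h2s
  have h3 : ‖∫ u, (ρ (u + P) ^ (5/3 : ℝ) - cusp γ w u ^ (5/3 : ℝ)) * χ' u δ‖ ≤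
      ∫ u : E3, L * ‖δ‖ * M' * (ball (0:E3) (2 * s)).indicator (fun x => ‖x‖ ^ (-(3/2) : ℝ)) u := by
    refine norm_integral_le_of_norm_le (k1.const_mul _) ?_
    filter_upwards [ae_ne0] with u hu
    by_cases hb : ‖u‖ < 2 * s
    · rw [indicator_of_mem (by simpa using hb), norm_mul, Real.norm_eq_abs, Real.norm_eq_abs]
      have h4 := (hN (u + P) (by simpa using hu) (by simpa using (by linarith : ‖u‖ < s1))).2
      rw [add_sub_cancel_right] at h4
      calc |ρ (u + P) ^ (5/3 : ℝ) - cusp γ w u ^ (5/3 : ℝ)| * |χ' u δ| ≤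
          M' * ‖u‖ ^ (-(3/2) : ℝ) * (L * ‖δ‖) :=
            mul_le_mul h4 (hC.cut.q_le u) (abs_nonneg _)
              (mul_nonneg hM' (Real.rpow_nonneg (norm_nonneg _) _))
        _ = _ := by ring
    · rw [hC.zero' u (not_lt.1 hb), indicator_of_notMem (by simpa using hb)]
      simp
  rw [Real.norm_eq_abs] at h3
  refine h3.trans (le_of_eq ?_)
  rw [integral_const_mul, k2, show (3:ℝ) - 3/2 = 3/2 by norm_num, (rpow32 h2s).1]
  ring

/-- (c) the nuclear first order term -/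
lemma nuc_first (hC : CutP χ χ' L s) {γ w s1 M' : ℝ} (hγ : 0 < γ) (hw : 0 ≤ w) (hM' : 0 ≤ M')
    (hs : 0 < s) (hs1 : 4 * s ≤ s1) {ρ : E3 → ℝ} (hρ : MD ρ) {P : E3} (hN : Nr γ w s1 M' ρ P)
    (δ : E3) :
    Integrable (fun x => ρ x * ((1 - χ (x - P)) * ⟪δ, KK (x - P)⟫)) ∧
    ⟪δ, Fi γ w s1 ρ P⟫ - ‖δ‖ * (M' * (8 * Real.pi * √(2 * s))) ≤
      ∫ x, ρ x * ((1 - χ (x - P)) * ⟪δ, KK (x - P)⟫) := by
  have h2s : 0 < 2 * s := by positivity
  have hs10 : 0 < s1 := by linarith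
  have hχm : Measurable χ := by
    have : Continuous χ := continuous_iff_continuousAt.2 fun x => (hC.cut.der x).continuousAt
    exact this.measurable
  have hKm : Measurable (fun u => ⟪δ, KK u⟫) := measurable_const.inner KK_meas
  have hK : ∀ u : E3, |⟪δ, KK u⟫| ≤ ‖δ‖ * ‖u‖ ^ (-2 : ℝ) := fun u => by
    rw [← KK_norm]; exact abs_real_inner_le_norm _ _
  have hfar : ∀ u : E3, |(1 - χ u) * ⟪δ, KK u⟫| ≤ ‖δ‖ * (s ^ 2)⁻¹ := by
    intro u
    by_cases hu : ‖u‖ ≤ s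
    · rw [hC.one u hu]; simp; positivity
    · rw [abs_mul]
      have h1 : |1 - χ u| ≤ 1 := by
        rw [abs_le]; constructor <;> linarith [hC.cut.nonneg u, hC.cut.le_one u]
      have h2 := (hK u).trans (mul_le_mul_of_nonneg_left (neg_two_le hs (not_le.1 hu).le)
        (norm_nonneg δ))
      calc |1 - χ u| * |⟪δ, KK u⟫| ≤ 1 * (‖δ‖ * (s ^ 2)⁻¹) :=
            mul_le_mul h1 h2 (abs_nonneg _) zero_le_one
        _ = _ := one_mul _
  have i0 : Integrable (fun x => ρ x * ((1 - χ (x - P)) * ⟪δ, KK (x - P)⟫)) := by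
    refine (hρ.int.mul_const (‖δ‖ * (s ^ 2)⁻¹)).mono' (hρ.meas.mul ((measurable_const.sub
      (hχm.comp (measurable_id.sub_const P))).mul
      (hKm.comp (measurable_id.sub_const P)))).aestronglyMeasurable (ae_of_all _ fun x => ?_)
    rw [norm_mul, Real.norm_of_nonneg (hρ.nonneg x), Real.norm_eq_abs]
    exact mul_le_mul_of_nonneg_left (hfar _) (hρ.nonneg x)
  refine ⟨i0, ?_⟩
  have e0 : ∫ x, ρ x * ((1 - χ (x - P)) * ⟪δ, KK (x - P)⟫) =
      ∫ u, ρ (u + P) * ((1 - χ u) * ⟪δ, KK u⟫) := by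
    rw [← integral_add_right_eq_self (μ := volume) _ P]
    simp
  have hFI := Fi_int hs10 hM' hρ hN
  have i1 : Integrable (fun u => gr γ w s1 ρ P u * ⟪δ, KK u⟫) := by
    have := Integrable.const_inner (𝕜 := ℝ) δ hFI
    refine this.congr (ae_of_all _ fun u => ?_)
    show ⟪δ, gr γ w s1 ρ P u • KK u⟫ = _
    rw [real_inner_smul_right]
  have e1 : ∫ u, gr γ w s1 ρ P u * ⟪δ, KK u⟫ = ⟪δ, Fi γ w s1 ρ P⟫ := by
    unfold Fi
    rw [← integral_inner hFI δ]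
    congr 1
    funext u
    rw [real_inner_smul_right]
  -- the correction
  obtain ⟨k1, k2⟩ := ball_pow (p := 5/2) (L := 2 * s) (by norm_num) h2s
  have hc : ∀ᵐ u : E3, ‖χ u * (gr γ w s1 ρ P u * ⟪δ, KK u⟫)‖ ≤
      ‖δ‖ * M' * (ball (0:E3) (2 * s)).indicator (fun x => ‖x‖ ^ (-(5/2) : ℝ)) u := by
    filter_upwards [ae_ne0] with u hu
    have hr : 0 < ‖u‖ := norm_pos_iff.2 hu
    by_cases hb : ‖u‖ < 2 * s
    · rw [indicator_of_mem (by simpa using hb), Real.norm_eq_abs, abs_mul, abs_mul]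
      have hu1 : ‖u‖ < s1 := by linarith
      have h4 := (hN (u + P) (by simpa using hu) (by simpa using hu1)).1
      rw [add_sub_cancel_right] at h4
      have h5 : |gr γ w s1 ρ P u| ≤ M' * ‖u‖ ^ (-(1/2) : ℝ) := by
        unfold gr
        rw [indicator_of_mem (by simpa using hu1)]
        exact h4
      have h6 : |χ u| ≤ 1 := by
        rw [abs_of_nonneg (hC.cut.nonneg u)]; exact hC.cut.le_one u
      have h7 : 0 ≤ M' * ‖u‖ ^ (-(1/2) : ℝ) := mul_nonneg hM' (Real.rpow_nonneg hr.le _)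
      calc |χ u| * (|gr γ w s1 ρ P u| * |⟪δ, KK u⟫|) ≤
          1 * (M' * ‖u‖ ^ (-(1/2) : ℝ) * (‖δ‖ * ‖u‖ ^ (-2 : ℝ))) :=
            mul_le_mul h6 (mul_le_mul h5 (hK u) (abs_nonneg _) h7)
              (mul_nonneg (abs_nonneg _) (abs_nonneg _)) zero_le_one
        _ = ‖δ‖ * M' * (‖u‖ ^ (-(1/2) : ℝ) * ‖u‖ ^ (-2 : ℝ)) := by ring
        _ = ‖δ‖ * M' * ‖u‖ ^ (-(5/2) : ℝ) := by
            rw [← Real.rpow_add hr]; norm_num
    · rw [hC.zero u (not_lt.1 hb), indicator_of_notMem (by simpa using hb)]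
      simp
  have i2 : Integrable (fun u => χ u * (gr γ w s1 ρ P u * ⟪δ, KK u⟫)) :=
    (k1.const_mul _).mono' (hχm.mul ((gr_meas hρ.meas P).mul hKm)).aestronglyMeasurable hc
  have b2 : |∫ u, χ u * (gr γ w s1 ρ P u * ⟪δ, KK u⟫)| ≤ ‖δ‖ * (M' * (8 * Real.pi * √(2 * s))) := by
    have := norm_integral_le_of_norm_le (k1.const_mul (‖δ‖ * M')) hc
    rw [Real.norm_eq_abs] at this
    refine this.trans (le_of_eq ?_)
    rw [integral_const_mul, k2, show (3:ℝ) - 5/2 = 1/2 by norm_num, (rpow32 h2s).2.1]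
    ring
  -- the radial part
  have hodd : ∫ u, (1 - χ u) * ((ball (0:E3) s1).indicator (cusp γ w) u * ⟪δ, KK u⟫) = 0 := by
    refine odd_int fun u => ?_
    have m2 : (-u ∈ ball (0:E3) s1) ↔ u ∈ ball (0:E3) s1 := by simp
    rw [hC.even, KK_neg, inner_neg_right]
    by_cases hb : u ∈ ball (0:E3) s1
    · rw [indicator_of_mem (m2.2 hb), indicator_of_mem hb, cusp_neg]; ring
    · rw [indicator_of_notMem (fun h => hb (m2.1 h)), indicator_of_notMem hb]; ring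
  have i3 : Integrable (fun u => (1 - χ u) *
      ((ball (0:E3) s1).indicator (cusp γ w) u * ⟪δ, KK u⟫)) := by
    have hbnd : Integrable ((ball (0:E3) s1).indicator
        (fun _ : E3 => (w / γ / s) ^ (3/2 : ℝ) * (‖δ‖ * (s ^ 2)⁻¹))) :=
      (integrable_indicator_iff measurableSet_ball).2 (integrableOn_const measure_ball_lt_top.ne)
    refine hbnd.mono' ((measurable_const.sub hχm).mul
      (((cusp_meas γ w).indicator measurableSet_ball).mul hKm)).aestronglyMeasurable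
      (ae_of_all _ fun u => ?_)
    by_cases hb : u ∈ ball (0:E3) s1
    · rw [indicator_of_mem hb, indicator_of_mem hb, Real.norm_eq_abs, mul_left_comm, abs_mul]
      by_cases hu : ‖u‖ ≤ s
      · rw [hC.one u hu]; simp; positivity
      · have hc1 : |cusp γ w u| ≤ (w / γ / s) ^ (3/2 : ℝ) := by
          rw [abs_of_nonneg (cusp_nonneg hγ hw u)]
          unfold cusp
          exact Real.rpow_le_rpow (by positivity)
            (div_le_div_of_nonneg_left (by positivity) hs (not_le.1 hu).le) (by norm_num)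
        exact mul_le_mul hc1 (hfar u) (abs_nonneg _) (by positivity)
    · rw [indicator_of_notMem hb, indicator_of_notMem hb]; simp
  have hsplit : (fun u => ρ (u + P) * ((1 - χ u) * ⟪δ, KK u⟫)) = fun u =>
      gr γ w s1 ρ P u * ⟪δ, KK u⟫ - χ u * (gr γ w s1 ρ P u * ⟪δ, KK u⟫) +
        (1 - χ u) * ((ball (0:E3) s1).indicator (cusp γ w) u * ⟪δ, KK u⟫) := by
    funext u
    unfold gr
    ring
  have j1 : Integrable (fun u => gr γ w s1 ρ P u * ⟪δ, KK u⟫ -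
      χ u * (gr γ w s1 ρ P u * ⟪δ, KK u⟫)) := i1.sub i2
  rw [e0, hsplit, integral_add j1 i3, integral_sub i1 i2, e1, hodd, add_zero]
  have := (abs_le.1 b2).2
  linarith

end Pool.Agent.R999.Ex
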