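import Pool.Agent.R999.Dif6

/-!
# Moving one nucleus: the total energy
-/

set_option autoImplicit false

namespace Pool.Agent.R999.Ex

open MeasureTheory Set Filter Topology Metric
open Pool.Agent.TH791.Cl Pool.Agent.TH791.Nw Pool.Agent.R999.Pot Pool.Agent.R999.MinP
open Pool.Agent.R999.Newton
open scoped ENNReal RealInnerProductSpace

variable {ι : Type*} [Fintype ι]

variable {χ : E3 → ℝ} {χ' : E3 → E3 →L[ℝ] ℝ} {L s : ℝ}

open Cut

/-- the potential of the transported density, as an integral -/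
lemma push_pot_int {χ : E3 → ℝ} {χ' : E3 → E3 →L[ℝ] ℝ} {L : ℝ} (h : Cut χ χ' L) {δ : E3}
    (hδ : L * ‖δ‖ ≤ 1/2) {ρ : E3 → ℝ} (hρ : MD ρ) (x : E3) :
    Integrable (fun y => ρ y * (1 / ‖x - TT χ δ y‖)) ∧
    pot (push χ χ' δ ρ) x = ∫ y, ρ y * (1 / ‖x - TT χ δ y‖) := by
  obtain ⟨B, hB⟩ := nice_bound _ (push_md h hδ hρ).1.nice
  have h1 := push_int h hδ ρ (fun y => 1 / ‖x - y‖)
  refine ⟨h1.1.1 ?_, ?_⟩
  · simpa only [mul_one_div] using (hB x).1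
  · rw [← h1.2]
    unfold pot
    simp only [mul_one_div]

lemma pot_int {ρ : E3 → ℝ} (hρ : MD ρ) (x : E3) :
    Integrable (fun y => ρ y * (1 / ‖x - y‖)) ∧ pot ρ x = ∫ y, ρ y * (1 / ‖x - y‖) := by
  obtain ⟨B, hB⟩ := nice_bound _ hρ.nice
  refine ⟨by simpa only [mul_one_div] using (hB x).1, ?_⟩
  unfold pot
  simp only [mul_one_div]

/-- the kinetic term -/
lemma kin_total (hC : CutP χ χ' L s) {γ w s1 M' M : ℝ} (hγ : 0 < γ) (hw : 0 ≤ w) (hM' : 0 ≤ M')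
    (hs : 0 < s) (hs1 : 4 * s ≤ s1) {ρ : E3 → ℝ} (hρ : MD ρ) {P : E3} (hN : Nr γ w s1 M' ρ P)
    (hT : ∫ x, ρ x ^ (5/3 : ℝ) ≤ M) {δ : E3} (hδ : L * ‖δ‖ ≤ 1/2) :
    ∫ y, push (fun x => χ (x - P)) (fun x => χ' (x - P)) δ ρ y ^ (5/3 : ℝ) ≤
      (∫ x, ρ x ^ (5/3 : ℝ)) + 2/3 * (L * ‖δ‖ * (M' * (8 * Real.pi / 3 * √(2 * s) ^ 3))) +
        4/3 * (L ^ 2 * ‖δ‖ ^ 2 * M) := by
  have hCs := hC.cut.shift P
  obtain ⟨p1, p2, p3⟩ := push_md hCs hδ hρ
  obtain ⟨k1, k2⟩ := kin_first hC hγ hw hM' hs hs1 hρ hN δ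
  rw [p3]
  set q : E3 → ℝ := fun x => χ' (x - P) δ with hq
  have hqm : Continuous q := hCs.cont.clm_apply continuous_const
  have hqb : ∀ x, |q x| ≤ L * ‖δ‖ := fun x => hCs.q_le (δ := δ) x
  have i3 : Integrable (fun x => ρ x ^ (5/3 : ℝ) * q x ^ 2) := by
    refine (hρ.int_pow.mul_const ((L * ‖δ‖) ^ 2)).mono' ((hρ.meas.pow_const _).mul
      (hqm.measurable.pow_const 2)).aestronglyMeasurable (ae_of_all _ fun x => ?_)
    have p1 : 0 ≤ ρ x ^ (5/3 : ℝ) := Real.rpow_nonneg (hρ.nonneg x) _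
    rw [Real.norm_of_nonneg (mul_nonneg p1 (sq_nonneg _))]
    refine mul_le_mul_of_nonneg_left ?_ p1
    rw [← sq_abs]
    exact pow_le_pow_left₀ (abs_nonneg _) (hqb x) 2
  have b3 : ∫ x, ρ x ^ (5/3 : ℝ) * q x ^ 2 ≤ L ^ 2 * ‖δ‖ ^ 2 * M := by
    have h1 : ∫ x, ρ x ^ (5/3 : ℝ) * q x ^ 2 ≤ ∫ x, ρ x ^ (5/3 : ℝ) * (L * ‖δ‖) ^ 2 := by
      refine integral_mono i3 (hρ.int_pow.mul_const _) fun x => ?_
      refine mul_le_mul_of_nonneg_left ?_ (Real.rpow_nonneg (hρ.nonneg x) _)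
      rw [← sq_abs]
      exact pow_le_pow_left₀ (abs_nonneg _) (hqb x) 2
    refine h1.trans ?_
    rw [integral_mul_const]
    have := mul_le_mul_of_nonneg_right hT (sq_nonneg (L * ‖δ‖))
    refine this.trans (le_of_eq (by ring))
  have j1 : Integrable (fun x => ρ x ^ (5/3 : ℝ) - 2/3 * (ρ x ^ (5/3 : ℝ) * q x)) :=
    hρ.int_pow.sub (k1.const_mul _)
  have j2 : Integrable (fun x => ρ x ^ (5/3 : ℝ) - 2/3 * (ρ x ^ (5/3 : ℝ) * q x) +
      4/3 * (ρ x ^ (5/3 : ℝ) * q x ^ 2)) := j1.add (i3.const_mul _)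
  have hJ0 : ∀ x, 0 < JJ (fun x => χ' (x - P)) δ x := fun x => by
    have := (JJ_bd hCs hδ x).1; linarith
  have hle : ∫ x, ρ x ^ (5/3 : ℝ) * JJ (fun x => χ' (x - P)) δ x ^ (-(2/3) : ℝ) ≤
      ∫ x, (ρ x ^ (5/3 : ℝ) - 2/3 * (ρ x ^ (5/3 : ℝ) * q x) +
        4/3 * (ρ x ^ (5/3 : ℝ) * q x ^ 2)) := by
    refine integral_mono_of_nonneg (ae_of_all _ fun x => mul_nonneg
      (Real.rpow_nonneg (hρ.nonneg x) _) (Real.rpow_nonneg (hJ0 x).le _)) j2
      (ae_of_all _ fun x => ?_)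
    have h1 := jac_exp ((hqb x).trans hδ)
    have h2 := mul_le_mul_of_nonneg_left h1 (Real.rpow_nonneg (hρ.nonneg x) (5/3 : ℝ))
    have e : ρ x ^ (5/3 : ℝ) * (1 - 2/3 * q x + 4/3 * q x ^ 2) =
      ρ x ^ (5/3 : ℝ) - 2/3 * (ρ x ^ (5/3 : ℝ) * q x) + 4/3 * (ρ x ^ (5/3 : ℝ) * q x ^ 2) := by ring
    rw [e] at h2
    exact h2
  refine hle.trans ?_
  rw [integral_add j1 (i3.const_mul _), integral_sub hρ.int_pow (k1.const_mul _),
    integral_const_mul, integral_const_mul]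
  have := (abs_le.1 k2).1
  linarith

/-- the attraction by the other nuclei -/
lemma other_total (hC : CutP χ χ' L s) {γ w s1 M' : ℝ} (hγ : 0 < γ) (hw : 0 ≤ w) (hM' : 0 ≤ M')
    (hs : 0 < s) (hs1 : 4 * s ≤ s1) {ρ : E3 → ℝ} (hρ : MD ρ) {P : E3} (hN : Nr γ w s1 M' ρ P)
    {δ : E3} (hδ : L * ‖δ‖ ≤ 1/2) (hδs : ‖δ‖ ≤ s / 2) {Q : E3} (hQ : 2 * s1 ≤ ‖Q - P‖) :
    pot ρ Q - ‖δ‖ * ((s1 ^ 2)⁻¹ *
      (((w / γ) ^ (3/2 : ℝ) + M' * s1) * (8 * Real.pi / 3 * √(2 * s) ^ 3))) ≤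
      pot (push (fun x => χ (x - P)) (fun x => χ' (x - P)) δ ρ) Q := by
  have hCs := hC.cut.shift P
  have hs10 : 0 < s1 := by linarith
  obtain ⟨i1, e1⟩ := push_pot_int hCs hδ hρ Q
  obtain ⟨i2, e2⟩ := pot_int hρ Q
  have hm := mass_near hγ hw hM' hρ hN (t := 2 * s) (by positivity) (by linarith)
  have i3 : Integrable (fun x => ‖δ‖ * (s1 ^ 2)⁻¹ * (ball P (2 * s)).indicator ρ x) :=
    (hρ.int.indicator measurableSet_ball).const_mul _
  rw [e1, e2]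
  have hle : ∫ y, (ρ y * (1 / ‖Q - y‖) - ‖δ‖ * (s1 ^ 2)⁻¹ * (ball P (2 * s)).indicator ρ y) ≤
      ∫ y, ρ y * (1 / ‖Q - TT (fun x => χ (x - P)) δ y‖) := by
    refine integral_mono (i2.sub i3) i1 fun y => ?_
    show ρ y * (1 / ‖Q - y‖) - ‖δ‖ * (s1 ^ 2)⁻¹ * (ball P (2 * s)).indicator ρ y ≤
      ρ y * (1 / ‖Q - TT (fun x => χ (x - P)) δ y‖)
    by_cases hb : ‖y - P‖ < 2 * s
    · rw [indicator_of_mem (by rw [mem_ball, dist_eq_norm]; exact hb)]
      have a1 : 3/2 * s1 ≤ ‖Q - y‖ := by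
        have e3 : Q - P = (Q - y) + (y - P) := by abel
        have := norm_add_le (Q - y) (y - P)
        rw [← e3] at this
        linarith
      have e4 : Q - TT (fun x => χ (x - P)) δ y = (Q - y) - χ (y - P) • δ := by
        unfold TT; abel
      have a2 : ‖χ (y - P) • δ‖ ≤ ‖δ‖ := by
        rw [norm_smul, Real.norm_of_nonneg (hC.cut.nonneg _)]
        exact mul_le_of_le_one_left (norm_nonneg _) (hC.cut.le_one _)
      have a3 : s1 ≤ ‖Q - TT (fun x => χ (x - P)) δ y‖ := by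
        rw [e4]
        have := norm_sub_norm_le (Q - y) (χ (y - P) • δ)
        linarith
      have h1 : 1 / ‖Q - y‖ - 1 / ‖Q - TT (fun x => χ (x - P)) δ y‖ ≤ ‖δ‖ * (s1 ^ 2)⁻¹ := by
        rw [div_sub_div _ _ (by linarith) (by linarith)]
        have h2 : 1 * ‖Q - TT (fun x => χ (x - P)) δ y‖ - ‖Q - y‖ * 1 ≤ ‖δ‖ := by
          rw [e4]
          have := norm_sub_le (Q - y) (χ (y - P) • δ)
          linarith
        have h3 : s1 ^ 2 ≤ ‖Q - y‖ * ‖Q - TT (fun x => χ (x - P)) δ y‖ := by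
          rw [sq]; exact mul_le_mul (by linarith) a3 hs10.le (norm_nonneg _)
        rw [← div_eq_mul_inv]
        exact div_le_div₀ (norm_nonneg _) h2 (by positivity) h3
      have h4 := mul_le_mul_of_nonneg_left h1 (hρ.nonneg y)
      linarith
    · rw [indicator_of_notMem (by rw [mem_ball, dist_eq_norm]; exact hb), mul_zero, sub_zero]
      have : TT (fun x => χ (x - P)) δ y = y := by
        show y + χ (y - P) • δ = y
        rw [hC.zero _ (not_lt.1 hb), zero_smul, add_zero]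
      rw [this]
  rw [integral_sub i2 i3, integral_const_mul] at hle
  have := mul_le_mul_of_nonneg_left hm (show 0 ≤ ‖δ‖ * (s1 ^ 2)⁻¹ by positivity)
  linarith

/-- the attraction by the moved nucleus -/
lemma own_total (hC : CutP χ χ' L s) {γ w s1 M' : ℝ} (hγ : 0 < γ) (hw : 0 ≤ w) (hM' : 0 ≤ M')
    (hs : 0 < s) (hs1 : 4 * s ≤ s1) {ρ : E3 → ℝ} (hρ : MD ρ) {P : E3} (hN : Nr γ w s1 M' ρ P)
    {δ : E3} (hδ : L * ‖δ‖ ≤ 1/2) (hδs : ‖δ‖ ≤ s / 2) :
    pot ρ P + ⟪δ, Fi γ w s1 ρ P⟫ - ‖δ‖ * (M' * (8 * Real.pi * √(2 * s))) -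
      6 * ‖δ‖ ^ 2 / s ^ 3 * (∫ x, ρ x) ≤
      pot (push (fun x => χ (x - P)) (fun x => χ' (x - P)) δ ρ) (P + δ) := by
  have hCs := hC.cut.shift P
  obtain ⟨i1, e1⟩ := push_pot_int hCs hδ hρ (P + δ)
  obtain ⟨i2, e2⟩ := pot_int hρ P
  obtain ⟨i3, b3⟩ := nuc_first hC hγ hw hM' hs hs1 hρ hN δ
  have i4 : Integrable (fun x => 6 * ‖δ‖ ^ 2 / s ^ 3 * ρ x) := hρ.int.const_mul _
  have j1 : Integrable (fun x => ρ x * (1 / ‖P - x‖) +
      ρ x * ((1 - χ (x - P)) * ⟪δ, KK (x - P)⟫)) := i2.add i3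
  have j2 : Integrable (fun x => ρ x * (1 / ‖P - x‖) +
      ρ x * ((1 - χ (x - P)) * ⟪δ, KK (x - P)⟫) - 6 * ‖δ‖ ^ 2 / s ^ 3 * ρ x) := j1.sub i4
  have hle : ∫ x, (ρ x * (1 / ‖P - x‖) + ρ x * ((1 - χ (x - P)) * ⟪δ, KK (x - P)⟫) -
      6 * ‖δ‖ ^ 2 / s ^ 3 * ρ x) ≤ ∫ y, ρ y * (1 / ‖P + δ - TT (fun x => χ (x - P)) δ y‖) := by
    refine integral_mono_ae j2 i1 ?_
    have hne : ∀ᵐ x : E3, x ≠ P := by
      have := (Set.countable_singleton P).ae_notMem (volume : Measure E3)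
      filter_upwards [this] with y hy
      simpa using hy
    filter_upwards [hne] with x hx
    show ρ x * (1 / ‖P - x‖) + ρ x * ((1 - χ (x - P)) * ⟪δ, KK (x - P)⟫) -
      6 * ‖δ‖ ^ 2 / s ^ 3 * ρ x ≤ ρ x * (1 / ‖P + δ - TT (fun x => χ (x - P)) δ x‖)
    have e5 : P + δ - TT (fun x => χ (x - P)) δ x = -((x - P) - (1 - χ (x - P)) • δ) := by
      unfold TT; rw [sub_smul, one_smul]; abel
    have e6 : ‖P - x‖ = ‖x - P‖ := norm_sub_rev _ _
    rw [e5, norm_neg, e6]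
    set u := x - P with hu
    have hu0 : u ≠ 0 := sub_ne_zero.2 hx
    have hr : 0 < ‖u‖ := norm_pos_iff.2 hu0
    have key : 1 / ‖u‖ + (1 - χ u) * ⟪δ, KK u⟫ - 6 * ‖δ‖ ^ 2 / s ^ 3 ≤
        1 / ‖u - (1 - χ u) • δ‖ := by
      by_cases hus : ‖u‖ ≤ s
      · rw [hC.one u hus, sub_self, zero_smul, sub_zero, zero_mul, add_zero]
        have : 0 ≤ 6 * ‖δ‖ ^ 2 / s ^ 3 := by positivity
        linarith
      · push Not at hus
        have h0 : 0 ≤ 1 - χ u := by linarith [hC.cut.le_one u]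
        have h1 : 1 - χ u ≤ 1 := by linarith [hC.cut.nonneg u]
        have h2 : ‖(1 - χ u) • δ‖ ≤ ‖δ‖ := by
          rw [norm_smul, Real.norm_of_nonneg h0]
          exact mul_le_of_le_one_left (norm_nonneg _) h1
        have h3 := ker_exp hu0 (h2.trans (by linarith) : ‖(1 - χ u) • δ‖ ≤ ‖u‖ / 2)
        have h4 := (abs_le.1 h3).1
        have h5 : ⟪(1 - χ u) • δ, u⟫ / ‖u‖ ^ 3 = (1 - χ u) * ⟪δ, KK u⟫ := by
          unfold KK
          rw [real_inner_smul_left, real_inner_smul_right]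
          field_simp
        have h6 : 6 * ‖(1 - χ u) • δ‖ ^ 2 / ‖u‖ ^ 3 ≤ 6 * ‖δ‖ ^ 2 / s ^ 3 := by
          refine div_le_div₀ (by positivity) ?_ (by positivity)
            (pow_le_pow_left₀ hs.le hus.le 3)
          have := pow_le_pow_left₀ (norm_nonneg _) h2 2
          linarith
        rw [h5] at h4
        linarith
    have := mul_le_mul_of_nonneg_left key (hρ.nonneg x)
    linarith
  rw [integral_sub j1 i4, integral_add i2 i3, integral_const_mul] at hle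
  rw [e1, e2]
  linarith

/-- the repulsion -/
lemma rep_total (hC : CutP χ χ' L s) {γ w s1 M' M lam : ℝ} (hγ : 0 < γ) (hw : 0 ≤ w)
    (hM' : 0 ≤ M') (hs : 0 < s) (hs1 : 4 * s ≤ s1) {ρ : E3 → ℝ} (hρ : MD ρ) {P : E3}
    (hN : Nr γ w s1 M' ρ P) (hpot : ∀ x, pot ρ x ≤ M) (hmass : ∫ x, ρ x = lam) {δ : E3}
    (hδ : L * ‖δ‖ ≤ 1/2) :
    ∫ x, push (fun x => χ (x - P)) (fun x => χ' (x - P)) δ ρ x *
      pot (push (fun x => χ (x - P)) (fun x => χ' (x - P)) δ ρ) x ≤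
      (∫ x, ρ x * pot ρ x) + 2 * (L * ‖δ‖ * (M *
        (((w / γ) ^ (3/2 : ℝ) + M' * s1) * (8 * Real.pi / 3 * √(2 * s) ^ 3)))) +
        6 * L ^ 2 * ‖δ‖ ^ 2 * (M * lam) := by
  have hCs := hC.cut.shift P
  have hL := hC.cut.L0
  have hLδ : 0 ≤ L * ‖δ‖ := by positivity
  obtain ⟨p1, p2, p3⟩ := push_md hCs hδ hρ
  set σ := push (fun x => χ (x - P)) (fun x => χ' (x - P)) δ ρ with hσ
  set T := TT (fun x => χ (x - P)) δ with hT
  set ρB : E3 → ℝ := (ball P (2 * s)).indicator ρ with hρB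
  have hBm : MD ρB := Nice.md (nice_of_le (hρ.meas.indicator measurableSet_ball) hρ.nice
    fun x => by
      show |(ball P (2 * s)).indicator ρ x| ≤ |ρ x|
      by_cases hb : x ∈ ball P (2 * s)
      · rw [indicator_of_mem hb]
      · rw [indicator_of_notMem hb, abs_zero]; exact abs_nonneg _)
    fun x => indicator_nonneg (fun x _ => hρ.nonneg x) x
  have hm := mass_near hγ hw hM' hρ hN (t := 2 * s) (by positivity) (by linarith)
  obtain ⟨q1, q2⟩ := push_int hCs hδ ρ (pot σ)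
  rw [q2]
  have hM0 : 0 ≤ M := (pot_nonneg hρ.nonneg 0).trans (hpot 0)
  -- pointwise bound of the potential
  have hpt : ∀ x, pot σ (T x) ≤ (1 + 6 * L ^ 2 * ‖δ‖ ^ 2) * pot ρ x +
      L * ‖δ‖ * ((ball P (2 * s)).indicator (fun _ => (1:ℝ)) x * pot ρ x) +
      L * ‖δ‖ * pot ρB x := by
    intro x
    obtain ⟨i1, e1⟩ := push_pot_int hCs hδ hρ (T x)
    obtain ⟨i2, e2⟩ := pot_int hρ x
    obtain ⟨i3, e3⟩ := pot_int hBm x
    rw [e1, e2, e3]
    have hkey : ∀ y, ρ y * (1 / ‖T x - T y‖) ≤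
        (1 + 6 * L ^ 2 * ‖δ‖ ^ 2) * (ρ y * (1 / ‖x - y‖)) +
        L * ‖δ‖ * ((ball P (2 * s)).indicator (fun _ => (1:ℝ)) x * (ρ y * (1 / ‖x - y‖))) +
        L * ‖δ‖ * (ρB y * (1 / ‖x - y‖)) := by
      intro y
      have hy0 := hρ.nonneg y
      have hi0 : 0 ≤ (ball P (2 * s)).indicator (fun _ => (1:ℝ)) x :=
        indicator_nonneg (fun _ _ => zero_le_one) _
      by_cases hxy : x = y
      · rw [hxy]; simp
      have hu0 : x - y ≠ 0 := sub_ne_zero.2 hxy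
      have hr : 0 < ‖x - y‖ := norm_pos_iff.2 hu0
      set c : ℝ := χ (x - P) - χ (y - P) with hc
      have eT : T x - T y = (x - y) - (-(c • δ)) := by
        rw [hT]; unfold TT; rw [hc, sub_smul]; abel
      have hcl : |c| ≤ L * ‖x - y‖ := by
        have := hC.cut.lip (x - P) (y - P)
        rwa [sub_sub_sub_cancel_right] at this
      have hn : ‖-(c • δ)‖ = |c| * ‖δ‖ := by rw [norm_neg, norm_smul, Real.norm_eq_abs]
      have h1 : ‖-(c • δ)‖ ≤ ‖x - y‖ / 2 := by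
        rw [hn]
        calc |c| * ‖δ‖ ≤ L * ‖x - y‖ * ‖δ‖ := mul_le_mul_of_nonneg_right hcl (norm_nonneg _)
          _ = L * ‖δ‖ * ‖x - y‖ := by ring
          _ ≤ 1/2 * ‖x - y‖ := mul_le_mul_of_nonneg_right hδ hr.le
          _ = ‖x - y‖ / 2 := by ring
      have h2 := (abs_le.1 (ker_exp hu0 h1)).2
      rw [← eT] at h2
      -- first order term
      have h3 : ⟪-(c • δ), x - y⟫ / ‖x - y‖ ^ 3 ≤ |c| * ‖δ‖ / ‖x - y‖ ^ 2 := by
        have := (le_abs_self _).trans (abs_real_inner_le_norm (-(c • δ)) (x - y))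
        rw [hn] at this
        rw [div_le_div_iff₀ (by positivity) (by positivity)]
        calc ⟪-(c • δ), x - y⟫ * ‖x - y‖ ^ 2 ≤ |c| * ‖δ‖ * ‖x - y‖ * ‖x - y‖ ^ 2 :=
              mul_le_mul_of_nonneg_right this (by positivity)
          _ = |c| * ‖δ‖ * ‖x - y‖ ^ 3 := by ring
      have h4 : |c| * ‖δ‖ / ‖x - y‖ ^ 2 ≤ L * ‖δ‖ *
          (((ball P (2 * s)).indicator (fun _ => (1:ℝ)) x +
            (ball P (2 * s)).indicator (fun _ => (1:ℝ)) y) * (1 / ‖x - y‖)) := by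
        have e5 : |c| * ‖δ‖ / ‖x - y‖ ^ 2 = |c| / ‖x - y‖ * ‖δ‖ * (1 / ‖x - y‖) := by
          field_simp
        have h5 : |c| / ‖x - y‖ ≤ L * ((ball P (2 * s)).indicator (fun _ => (1:ℝ)) x +
            (ball P (2 * s)).indicator (fun _ => (1:ℝ)) y) := by
          rw [div_le_iff₀ hr]
          by_cases hx : x ∈ ball P (2 * s)
          · rw [indicator_of_mem hx]
            have h6 : 0 ≤ (ball P (2 * s)).indicator (fun _ => (1:ℝ)) y :=
              indicator_nonneg (fun _ _ => zero_le_one) _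
            refine hcl.trans ?_
            have : L * ‖x - y‖ * 1 ≤ L * ‖x - y‖ *
                (1 + (ball P (2 * s)).indicator (fun _ => (1:ℝ)) y) :=
              mul_le_mul_of_nonneg_left (by linarith) (by positivity)
            linarith
          · by_cases hy : y ∈ ball P (2 * s)
            · rw [indicator_of_notMem hx, indicator_of_mem hy]
              refine hcl.trans (le_of_eq (by ring))
            · have hx' : 2 * s ≤ ‖x - P‖ := by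
                rw [mem_ball, dist_eq_norm] at hx; exact not_lt.1 hx
              have hy' : 2 * s ≤ ‖y - P‖ := by
                rw [mem_ball, dist_eq_norm] at hy; exact not_lt.1 hy
              have : c = 0 := by rw [hc, hC.zero _ hx', hC.zero _ hy', sub_zero]
              rw [this, abs_zero, indicator_of_notMem hx, indicator_of_notMem hy]
              simp
        rw [e5]
        calc |c| / ‖x - y‖ * ‖δ‖ * (1 / ‖x - y‖) ≤
            L * ((ball P (2 * s)).indicator (fun _ => (1:ℝ)) x +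
              (ball P (2 * s)).indicator (fun _ => (1:ℝ)) y) * ‖δ‖ * (1 / ‖x - y‖) := by
              refine mul_le_mul_of_nonneg_right ?_ (by positivity)
              exact mul_le_mul_of_nonneg_right h5 (norm_nonneg _)
          _ = _ := by ring
      have h6 : 6 * ‖-(c • δ)‖ ^ 2 / ‖x - y‖ ^ 3 ≤ 6 * L ^ 2 * ‖δ‖ ^ 2 * (1 / ‖x - y‖) := by
        rw [hn, mul_one_div, div_le_div_iff₀ (by positivity) hr]
        have h7 : |c| ^ 2 ≤ (L * ‖x - y‖) ^ 2 := pow_le_pow_left₀ (abs_nonneg _) hcl 2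
        calc 6 * (|c| * ‖δ‖) ^ 2 * ‖x - y‖ = 6 * ‖δ‖ ^ 2 * ‖x - y‖ * |c| ^ 2 := by ring
          _ ≤ 6 * ‖δ‖ ^ 2 * ‖x - y‖ * (L * ‖x - y‖) ^ 2 :=
              mul_le_mul_of_nonneg_left h7 (by positivity)
          _ = _ := by ring
      have h8 : 1 / ‖T x - T y‖ ≤ 1 / ‖x - y‖ + L * ‖δ‖ *
          (((ball P (2 * s)).indicator (fun _ => (1:ℝ)) x +
            (ball P (2 * s)).indicator (fun _ => (1:ℝ)) y) * (1 / ‖x - y‖)) +
          6 * L ^ 2 * ‖δ‖ ^ 2 * (1 / ‖x - y‖) := by linarith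
      have h9 := mul_le_mul_of_nonneg_left h8 hy0
      refine h9.trans (le_of_eq ?_)
      have e9 : ρB y = ρ y * (ball P (2 * s)).indicator (fun _ => (1:ℝ)) y := by
        rw [hρB]
        by_cases hy : y ∈ ball P (2 * s)
        · rw [indicator_of_mem hy, indicator_of_mem hy, mul_one]
        · rw [indicator_of_notMem hy, indicator_of_notMem hy, mul_zero]
      rw [e9]; ring
    have j1 : Integrable (fun y => (1 + 6 * L ^ 2 * ‖δ‖ ^ 2) * (ρ y * (1 / ‖x - y‖)) +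
        L * ‖δ‖ * ((ball P (2 * s)).indicator (fun _ => (1:ℝ)) x * (ρ y * (1 / ‖x - y‖)))) :=
      (i2.const_mul _).add ((i2.const_mul _).const_mul _)
    have h10 := integral_mono i1 (j1.add (i3.const_mul (L * ‖δ‖))) hkey
    rw [integral_add' j1 (i3.const_mul _), integral_add (i2.const_mul _)
      ((i2.const_mul _).const_mul _), integral_const_mul,
      integral_const_mul, integral_const_mul, integral_const_mul] at h10
    exact h10
  -- integration against the density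
  have iρρ := pd_int ρ ρ hρ.nice hρ.nice
  have iρB := pd_int ρ ρB hρ.nice hBm.nice
  have iBρ := pd_int ρB ρ hBm.nice hρ.nice
  have iσ : Integrable (fun x => ρ x * pot σ (T x)) := q1.1 (pd_int σ σ p1.nice p1.nice)
  have h11 : ∫ x, ρ x * pot σ (T x) ≤ ∫ x, ((1 + 6 * L ^ 2 * ‖δ‖ ^ 2) * (ρ x * pot ρ x) +
      L * ‖δ‖ * (ρB x * pot ρ x) + L * ‖δ‖ * (ρ x * pot ρB x)) := by
    refine integral_mono iσ (((iρρ.const_mul _).add (iBρ.const_mul _)).add (iρB.const_mul _))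
      fun x => ?_
    show ρ x * pot σ (T x) ≤ (1 + 6 * L ^ 2 * ‖δ‖ ^ 2) * (ρ x * pot ρ x) +
      L * ‖δ‖ * (ρB x * pot ρ x) + L * ‖δ‖ * (ρ x * pot ρB x)
    refine (mul_le_mul_of_nonneg_left (hpt x) (hρ.nonneg x)).trans (le_of_eq ?_)
    have e9 : ρB x = ρ x * (ball P (2 * s)).indicator (fun _ => (1:ℝ)) x := by
      rw [hρB]
      by_cases hy : x ∈ ball P (2 * s)
      · rw [indicator_of_mem hy, indicator_of_mem hy, mul_one]
      · rw [indicator_of_notMem hy, indicator_of_notMem hy, mul_zero]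
    rw [e9]; ring
  have j1 : Integrable (fun x => (1 + 6 * L ^ 2 * ‖δ‖ ^ 2) * (ρ x * pot ρ x) +
      L * ‖δ‖ * (ρB x * pot ρ x)) := (iρρ.const_mul _).add (iBρ.const_mul _)
  rw [integral_add j1 (iρB.const_mul _), integral_add (iρρ.const_mul _) (iBρ.const_mul _),
    integral_const_mul, integral_const_mul, integral_const_mul] at h11
  have hsw : ∫ x, ρ x * pot ρB x = ∫ x, ρB x * pot ρ x := pd_swap ρ ρB hρ.nice hBm.nice
  rw [hsw] at h11
  have h12 : ∫ x, ρB x * pot ρ x ≤ M *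
      (((w / γ) ^ (3/2 : ℝ) + M' * s1) * (8 * Real.pi / 3 * √(2 * s) ^ 3)) := by
    have h13 : ∫ x, ρB x * pot ρ x ≤ ∫ x, M * ρB x := by
      refine integral_mono iBρ (hBm.int.const_mul M) fun x => ?_
      show ρB x * pot ρ x ≤ M * ρB x
      rw [mul_comm M]
      exact mul_le_mul_of_nonneg_left (hpot x) (hBm.nonneg x)
    rw [integral_const_mul] at h13
    exact h13.trans (mul_le_mul_of_nonneg_left hm hM0)
  have h14 : ∫ x, ρ x * pot ρ x ≤ M * lam := by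
    have h13 : ∫ x, ρ x * pot ρ x ≤ ∫ x, M * ρ x := by
      refine integral_mono iρρ (hρ.int.const_mul M) fun x => ?_
      show ρ x * pot ρ x ≤ M * ρ x
      rw [mul_comm M]
      exact mul_le_mul_of_nonneg_left (hpot x) (hρ.nonneg x)
    rw [integral_const_mul, hmass] at h13
    exact h13
  have h15 := mul_le_mul_of_nonneg_left h12 hLδ
  have h16 := mul_le_mul_of_nonneg_left h14 (show 0 ≤ 6 * L ^ 2 * ‖δ‖ ^ 2 by positivity)
  linarith

/-- the class of densities for the transport estimate -/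
structure Cls (γ s1 M M' lam : ℝ) (z : ι → ℝ) (j : ι) (R : ι → E3) (ρ : E3 → ℝ) : Prop where
  md : MD ρ
  mass : ∫ x, ρ x = lam
  kin : ∫ x, ρ x ^ (5/3 : ℝ) ≤ M
  potb : ∀ x, pot ρ x ≤ M
  nr : Nr γ (z j) s1 M' ρ (R j)
  sep : ∀ i, i ≠ j → 2 * s1 ≤ ‖R i - R j‖

/-- **One-sided first order estimate for moving one nucleus.** -/
theorem move_one [DecidableEq ι] {γ : ℝ} (hγ : 0 < γ) {z : ι → ℝ} (hz : ∀ j, 0 ≤ z j)
    {s1 M M' lam : ℝ} (hs1 : 0 < s1) (hM' : 0 ≤ M') (hM : 0 ≤ M) (hlam : 0 ≤ lam) (j : ι) :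
    ∃ C1 : ℝ, 0 ≤ C1 ∧ ∀ s : ℝ, 0 < s → 4 * s ≤ s1 → ∃ C2 δ0 : ℝ, 0 ≤ C2 ∧ 0 < δ0 ∧
      ∀ (R : ι → E3) (ρ : E3 → ℝ), Cls γ s1 M M' lam z j R ρ → ∀ δ : E3, ‖δ‖ ≤ δ0 →
        ∃ σ, MD σ ∧ ∫ x, σ x = lam ∧
          En γ z (Function.update R j (R j + δ)) σ ≤ En γ z R ρ -
            z j * ⟪δ, Fi γ (z j) s1 ρ (R j)⟫ + C1 * √(2 * s) * ‖δ‖ + C2 * ‖δ‖ ^ 2 := by
  obtain ⟨L1, hL1, hcut⟩ := cut_ex
  have hpi := Real.pi_pos
  have hZ0 : 0 ≤ ∑ i, z i := Finset.sum_nonneg fun i _ => hz i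
  have hzj := hz j
  set A : ℝ := ((z j / γ) ^ (3/2 : ℝ) + M' * s1) * (8 * Real.pi / 3) with hA
  have hA0 : 0 ≤ A := by positivity
  set C1 : ℝ := 4/5 * γ * L1 * (M' * (8 * Real.pi / 3)) + (∑ i, z i) * (s1⁻¹ * A) +
    z j * (M' * (8 * Real.pi)) + 2 * L1 * (M * A) with hC1
  have hC10 : 0 ≤ C1 := by positivity
  refine ⟨C1, hC10, fun s hs hs4 => ?_⟩
  obtain ⟨χ, χ', c1, c2, c3, c4, c5, c6⟩ := hcut s hs
  set L : ℝ := L1 / s with hL
  have hL0 : 0 < L := by positivity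
  have hC : CutP χ χ' L s := ⟨c1, c2, c3, c4, c5, c6⟩
  set C2 : ℝ := 4/5 * γ * (L ^ 2 * M) + z j * (6 / s ^ 3 * lam) + 3 * L ^ 2 * (M * lam) with hC2
  have hC20 : 0 ≤ C2 := by positivity
  refine ⟨C2, min (s / 2) (1 / (2 * L)), hC20, by positivity, fun R ρ h δ hδ => ?_⟩
  have hδ1 : ‖δ‖ ≤ s / 2 := hδ.trans (min_le_left _ _)
  have hδ2 : L * ‖δ‖ ≤ 1/2 := by
    have := mul_le_mul_of_nonneg_left (hδ.trans (min_le_right _ _)) hL0.le
    refine this.trans (le_of_eq ?_)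
    field_simp
  set P := R j with hP
  have hCs := hC.cut.shift P
  obtain ⟨p1, p2, p3⟩ := push_md hCs hδ2 h.md
  set σ := push (fun x => χ (x - P)) (fun x => χ' (x - P)) δ ρ with hσ
  refine ⟨σ, p1, by rw [p2, h.mass], ?_⟩
  have t1 := kin_total hC hγ hzj hM' hs hs4 h.md h.nr h.kin hδ2
  have t2 := own_total hC hγ hzj hM' hs hs4 h.md h.nr hδ2 hδ1
  have t3 := rep_total hC hγ hzj hM' hs hs4 h.md h.nr h.potb h.mass hδ2
  rw [← hσ] at t1 t2 t3
  rw [h.mass] at t2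
  set W : ℝ := √(2 * s) with hW
  have hW0 : 0 ≤ W := Real.sqrt_nonneg _
  have hW2 : W ^ 2 = 2 * s := Real.sq_sqrt (by positivity)
  have hW3 : W ^ 3 = 2 * s * W := by rw [pow_succ, hW2]
  set m : ℝ := ((z j / γ) ^ (3/2 : ℝ) + M' * s1) * (8 * Real.pi / 3 * W ^ 3) with hm
  have hmA : m = A * W ^ 3 := by rw [hm, hA]; ring
  have hm0 : 0 ≤ m := by rw [hmA]; positivity
  -- the sum over the nuclei
  have hsum : (∑ i, z i * pot ρ (R i)) + z j * ⟪δ, Fi γ (z j) s1 ρ P⟫ -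
      ‖δ‖ * (z j * (M' * (8 * Real.pi * W)) + (∑ i, z i) * ((s1 ^ 2)⁻¹ * m)) -
      z j * (6 * ‖δ‖ ^ 2 / s ^ 3 * lam) ≤
      ∑ i, z i * pot σ (Function.update R j (P + δ) i) := by
    rw [← Finset.add_sum_erase _ _ (Finset.mem_univ j),
      ← Finset.add_sum_erase (a := j) (s := Finset.univ)
        (fun i => z i * pot σ (Function.update R j (P + δ) i)) (Finset.mem_univ j)]
    have g1 : ∑ i ∈ Finset.univ.erase j, z i * pot ρ (R i) - ‖δ‖ * ((∑ i, z i) *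
        ((s1 ^ 2)⁻¹ * m)) ≤
        ∑ i ∈ Finset.univ.erase j, z i * pot σ (Function.update R j (P + δ) i) := by
      have g2 : ∑ i ∈ Finset.univ.erase j, (z i * pot ρ (R i) - z i * (‖δ‖ * ((s1 ^ 2)⁻¹ * m))) ≤
          ∑ i ∈ Finset.univ.erase j, z i * pot σ (Function.update R j (P + δ) i) := by
        refine Finset.sum_le_sum fun i hi => ?_
        have hij := Finset.ne_of_mem_erase hi
        rw [Function.update_of_ne hij]
        have := other_total hC hγ hzj hM' hs hs4 h.md h.nr hδ2 hδ1 (h.sep i hij)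
        rw [← hσ, ← hW, ← hm] at this
        have := mul_le_mul_of_nonneg_left this (hz i)
        linarith
      rw [Finset.sum_sub_distrib, ← Finset.sum_mul] at g2
      have g3 : ∑ i ∈ Finset.univ.erase j, z i ≤ ∑ i, z i :=
        Finset.sum_le_sum_of_subset_of_nonneg (Finset.erase_subset _ _) fun i _ _ => hz i
      have g4 := mul_le_mul_of_nonneg_right g3 (show 0 ≤ ‖δ‖ * ((s1 ^ 2)⁻¹ * m) by positivity)
      linarith
    rw [Function.update_self]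
    have g5 := mul_le_mul_of_nonneg_left t2 hzj
    rw [← hP]
    linarith
  unfold En
  have t1' := mul_le_mul_of_nonneg_left t1 (show 0 ≤ 3/5 * γ by positivity)
  -- collecting the first order terms
  have hfirst : 3/5 * γ * (2/3 * (L * ‖δ‖ * (M' * (8 * Real.pi / 3 * W ^ 3)))) +
      ‖δ‖ * (z j * (M' * (8 * Real.pi * W)) + (∑ i, z i) * ((s1 ^ 2)⁻¹ * m)) +
      L * ‖δ‖ * (M * m) ≤ C1 * W * ‖δ‖ := by
    have b1 : L * W ^ 3 = 2 * L1 * W := by rw [hW3, hL]; field_simp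
    have b2 : (s1 ^ 2)⁻¹ * m ≤ s1⁻¹ * A * W := by
      rw [hmA, hW3]
      have : (s1 ^ 2)⁻¹ * (A * (2 * s * W)) = s1⁻¹ * A * W * (2 * s / s1) := by field_simp
      rw [this]
      have h3 : 2 * s / s1 ≤ 1 := (div_le_one hs1).2 (by linarith)
      exact mul_le_of_le_one_right (by positivity) h3
    have b3 : L * m = 2 * L1 * A * W := by
      rw [hmA]
      have : L * (A * W ^ 3) = A * (L * W ^ 3) := by ring
      rw [this, b1]; ring
    have b4 : 3/5 * γ * (2/3 * (L * ‖δ‖ * (M' * (8 * Real.pi / 3 * W ^ 3)))) =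
        ‖δ‖ * (4/5 * γ * L1 * (M' * (8 * Real.pi / 3)) * W) := by
      have : 3/5 * γ * (2/3 * (L * ‖δ‖ * (M' * (8 * Real.pi / 3 * W ^ 3)))) =
        ‖δ‖ * (2/5 * γ * (M' * (8 * Real.pi / 3)) * (L * W ^ 3)) := by ring
      rw [this, b1]; ring
    have b5 : L * ‖δ‖ * (M * m) = ‖δ‖ * (2 * L1 * (M * A) * W) := by
      have : L * ‖δ‖ * (M * m) = ‖δ‖ * M * (L * m) := by ring
      rw [this, b3]; ring
    rw [b4, b5, hC1]
    have b6 := mul_le_mul_of_nonneg_left b2 hZ0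
    have b7 := mul_le_mul_of_nonneg_left b6 (norm_nonneg δ)
    have e : (4/5 * γ * L1 * (M' * (8 * Real.pi / 3)) + (∑ i, z i) * (s1⁻¹ * A) +
        z j * (M' * (8 * Real.pi)) + 2 * L1 * (M * A)) * W * ‖δ‖ =
        ‖δ‖ * (4/5 * γ * L1 * (M' * (8 * Real.pi / 3)) * W) +
        ‖δ‖ * ((∑ i, z i) * (s1⁻¹ * A * W)) + ‖δ‖ * (z j * (M' * (8 * Real.pi * W))) +
        ‖δ‖ * (2 * L1 * (M * A) * W) := by ring
    rw [e]
    linarith
  have hsecond : 3/5 * γ * (4/3 * (L ^ 2 * ‖δ‖ ^ 2 * M)) + z j * (6 * ‖δ‖ ^ 2 / s ^ 3 * lam) +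
      3 * L ^ 2 * ‖δ‖ ^ 2 * (M * lam) = C2 * ‖δ‖ ^ 2 := by
    rw [hC2]; ring
  linarith

end Pool.Agent.R999.Ex
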