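import Pool.Agent.R999.Dif7

/-!
# The electronic Thomas-Fermi energy is continuously differentiable in the nuclear positions
-/

set_option autoImplicit false

namespace Pool.Agent.R999.Ex

open MeasureTheory Set Filter Topology Metric
open Pool.Agent.TH791.Cl Pool.Agent.TH791.Nw Pool.Agent.R999.Pot Pool.Agent.R999.MinP
open Pool.Agent.R999.Newton
open scoped ENNReal RealInnerProductSpace

variable {ι : Type*} [Fintype ι] [DecidableEq ι]

/-- well separated configurations -/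
def Sep (c : ℝ) : Set (ι → E3) := {R | ∀ i j, i ≠ j → c ≤ ‖R i - R j‖}

/-- the one-sided estimate with constants that are uniform in the nuclei -/
theorem move_unif {γ : ℝ} (hγ : 0 < γ) {z : ι → ℝ} (hz : ∀ j, 0 < z j) {lam : ℝ} (h0 : 0 < lam)
    {rho : (ι → E3) → E3 → ℝ} {mu : (ι → E3) → ℝ} (hI : ∀ R, IonC γ z R lam (mu R) (rho R))
    {s1 : ℝ} (hs1 : 0 < s1) :
    ∃ C1 : ℝ, 0 ≤ C1 ∧ ∀ s : ℝ, 0 < s → 4 * s ≤ s1 → ∃ C2 δ0 : ℝ, 0 ≤ C2 ∧ 0 < δ0 ∧
      ∀ (j : ι) (R : ι → E3), R ∈ Sep (2 * s1) → ∀ δ : E3, ‖δ‖ ≤ δ0 →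
        En γ z (Function.update R j (R j + δ)) (rho (Function.update R j (R j + δ))) ≤
          En γ z R (rho R) - z j * ⟪δ, Fi γ (z j) s1 (rho R) (R j)⟫ +
            C1 * √(2 * s) * ‖δ‖ + C2 * ‖δ‖ ^ 2 := by
  have hz' : ∀ j, 0 ≤ z j := fun j => (hz j).le
  obtain ⟨M, hM0, hM⟩ := ion_bds hγ hz' h0
  choose M' hM' hNr using fun j => nr_unif hγ hz' h0 hs1 j
  choose C1 hC1 hmove using fun j => move_one hγ hz' hs1 (hM' j) hM0.le h0.le j
  refine ⟨∑ j, C1 j, Finset.sum_nonneg fun j _ => hC1 j, fun s hs hs4 => ?_⟩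
  choose C2 δ0 hC2 hδ0 hmv using fun j => hmove j s hs hs4
  obtain ⟨d, hd, hdj⟩ : ∃ d : ℝ, 0 < d ∧ ∀ j, d ≤ δ0 j := by
    cases isEmpty_or_nonempty ι with
    | inl h => exact ⟨1, one_pos, fun j => (h.false j).elim⟩
    | inr h =>
      obtain ⟨x0, hx0⟩ := Finite.exists_min δ0
      exact ⟨δ0 x0, hδ0 x0, hx0⟩
  refine ⟨∑ j, C2 j, d, Finset.sum_nonneg fun j _ => hC2 j, hd, fun j R hR δ hδ => ?_⟩
  have hcls : Cls γ s1 M (M' j) lam z j R (rho R) :=
    ⟨(hI R).md, (hI R).mass, (hM R _ _ (hI R).toIon).1, fun x => ((hM R _ _ (hI R).toIon).2.1 x).2,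
      hNr j R _ _ (hI R) (fun i hij => hR i j hij), fun i hij => hR i j hij⟩
  obtain ⟨σ, a1, a2, a3⟩ := hmv j R (rho R) hcls δ (hδ.trans (hdj j))
  have h1 := (hI (Function.update R j (R j + δ))).min σ a1 a2.le
  have h2 : C1 j ≤ ∑ j, C1 j := Finset.single_le_sum (f := C1) (fun i _ => hC1 i) (Finset.mem_univ j)
  have h3 : C2 j ≤ ∑ j, C2 j := Finset.single_le_sum (f := C2) (fun i _ => hC2 i) (Finset.mem_univ j)
  have h4 : C1 j * √(2 * s) * ‖δ‖ ≤ (∑ j, C1 j) * √(2 * s) * ‖δ‖ :=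
    mul_le_mul_of_nonneg_right (mul_le_mul_of_nonneg_right h2 (Real.sqrt_nonneg _)) (norm_nonneg _)
  have h5 : C2 j * ‖δ‖ ^ 2 ≤ (∑ j, C2 j) * ‖δ‖ ^ 2 := mul_le_mul_of_nonneg_right h3 (by positivity)
  linarith

/-- the gradient as a linear functional -/
noncomputable def Dm (z : ι → ℝ) (F : ι → E3) : (ι → E3) →L[ℝ] ℝ :=
  ∑ j, (-(z j)) • (innerSL ℝ (F j)).comp (ContinuousLinearMap.proj j)

lemma Dm_apply (z : ι → ℝ) (F h : ι → E3) : Dm z F h = ∑ j, -(z j * ⟪h j, F j⟫) := by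
  unfold Dm
  rw [sum_apply]
  refine Finset.sum_congr rfl fun j _ => ?_
  simp [real_inner_comm]

/-- differentiability at a configuration -/
theorem hasF {γ : ℝ} (hγ : 0 < γ) {z : ι → ℝ} (hz : ∀ j, 0 < z j) {lam : ℝ} (h0 : 0 < lam)
    {rho : (ι → E3) → E3 → ℝ} {mu : (ι → E3) → ℝ} (hI : ∀ R, IonC γ z R lam (mu R) (rho R))
    {s1 : ℝ} (hs1 : 0 < s1) {R1 : ι → E3} (hR1 : R1 ∈ Sep (4 * s1)) :
    HasFDerivAt (fun R => En γ z R (rho R))
      (Dm z fun j => Fi γ (z j) s1 (rho R1) (R1 j)) R1 := by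
  obtain ⟨C1, hC1, hmv⟩ := move_unif hγ hz h0 hI hs1
  set e : (ι → E3) → ℝ := fun R => En γ z R (rho R) with he
  set F : ι → (ι → E3) → E3 := fun j R => Fi γ (z j) s1 (rho R) (R j) with hF
  have hFc : ∀ j, Tendsto (F j) (𝓝 R1) (𝓝 (F j R1)) := fun j =>
    Fi_cont hγ hz h0 hI hs1 j fun i hij => hR1 i j hij
  rw [hasFDerivAt_iff_isLittleO_nhds_zero, Asymptotics.isLittleO_iff]
  intro c hc
  set N : ℝ := (Fintype.card ι : ℝ) + 1 with hN
  have hN0 : 0 < N := by positivity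
  set ε : ℝ := c / N with hε
  have hε0 : 0 < ε := by positivity
  -- the scale of the cutoff
  obtain ⟨s, hs, hs4, hsε⟩ : ∃ s : ℝ, 0 < s ∧ 4 * s ≤ s1 ∧ C1 * √(2 * s) ≤ ε / 4 := by
    set t : ℝ := ε / (4 * (C1 + 1)) with ht
    have ht0 : 0 < t := by positivity
    refine ⟨min (s1 / 4) (t ^ 2 / 2), by positivity, ?_, ?_⟩
    · have := min_le_left (s1 / 4) (t ^ 2 / 2)
      linarith
    · have h1 : √(2 * min (s1 / 4) (t ^ 2 / 2)) ≤ t := by
        rw [Real.sqrt_le_left ht0.le]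
        have := min_le_right (s1 / 4) (t ^ 2 / 2)
        linarith
      calc C1 * √(2 * min (s1 / 4) (t ^ 2 / 2)) ≤ (C1 + 1) * t :=
            mul_le_mul (by linarith) h1 (Real.sqrt_nonneg _) (by positivity)
        _ = ε / 4 := by rw [ht]; field_simp
  obtain ⟨C2, δ0, hC2, hδ0, hstep⟩ := hmv s hs hs4
  -- the neighbourhood
  have hnF : ∀ᶠ R in 𝓝 R1, ∀ j, z j * ‖F j R - F j R1‖ ≤ ε / 4 := by
    rw [eventually_all]
    intro j
    have h1 : Tendsto (fun R => z j * ‖F j R - F j R1‖) (𝓝 R1) (𝓝 0) := by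
      have := (tendsto_iff_norm_sub_tendsto_zero.1 (hFc j)).const_mul (z j)
      rwa [mul_zero] at this
    exact h1.eventually_le_const (by positivity)
  have hnS : ∀ᶠ R : ι → E3 in 𝓝 R1, R ∈ Sep (ι := ι) (2 * s1) := by
    filter_upwards [Metric.ball_mem_nhds R1 hs1] with R hR i j hij
    rw [mem_ball, dist_eq_norm] at hR
    have a1 := (norm_le_pi_norm (R - R1) i).trans_lt hR
    have a2 := (norm_le_pi_norm (R - R1) j).trans_lt hR
    have a3 := hR1 i j hij
    have e1 : R1 i - R1 j = (R i - R j) - ((R - R1) i) + (R - R1) j := by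
      simp only [Pi.sub_apply]; abel
    have a4 := norm_add_le ((R i - R j) - ((R - R1) i)) ((R - R1) j)
    have a5 := norm_sub_le (R i - R j) ((R - R1) i)
    rw [← e1] at a4
    linarith
  obtain ⟨r, hr, hball⟩ := Metric.mem_nhds_iff.1 (hnF.and hnS)
  have hnh : ∀ᶠ h : ι → E3 in 𝓝 0, ‖h‖ < min r (min δ0 (ε / (4 * (C2 + 1)))) := by
    have : (0:ℝ) < min r (min δ0 (ε / (4 * (C2 + 1)))) := by positivity
    filter_upwards [Metric.ball_mem_nhds (0 : ι → E3) this] with h hh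
    rwa [mem_ball, dist_zero_right] at hh
  filter_upwards [hnh] with h hh
  have hh1 : ‖h‖ < r := hh.trans_le (min_le_left _ _)
  have hh2 : ‖h‖ < δ0 := hh.trans_le ((min_le_right _ _).trans (min_le_left _ _))
  have hh3 : ‖h‖ < ε / (4 * (C2 + 1)) := hh.trans_le ((min_le_right _ _).trans (min_le_right _ _))
  -- partial displacements
  set RS : Finset ι → ι → E3 := fun S i => if i ∈ S then R1 i + h i else R1 i with hRS
  have hmem : ∀ S, RS S ∈ ball R1 r := by
    intro S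
    rw [mem_ball, dist_eq_norm]
    refine lt_of_le_of_lt ?_ hh1
    rw [pi_norm_le_iff_of_nonneg (norm_nonneg _)]
    intro i
    rw [hRS]
    by_cases hi : i ∈ S
    · simp only [Pi.sub_apply, if_pos hi, add_sub_cancel_left]
      exact norm_le_pi_norm h i
    · simp only [Pi.sub_apply, if_neg hi, sub_self, norm_zero]
      exact norm_nonneg _
  have hone : ∀ (S : Finset ι) (j : ι), j ∉ S →
      |e (RS (insert j S)) - e (RS S) + z j * ⟪h j, F j R1⟫| ≤ ε * ‖h‖ := by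
    intro S j hj
    have hhj : ‖h j‖ ≤ ‖h‖ := norm_le_pi_norm h j
    have u1 : RS (insert j S) = Function.update (RS S) j (RS S j + h j) := by
      funext i
      by_cases hij : i = j
      · subst hij
        rw [Function.update_self, hRS]
        simp [hj]
      · rw [Function.update_of_ne hij, hRS]
        simp [hij]
    have u2 : RS S = Function.update (RS (insert j S)) j (RS (insert j S) j + (-h j)) := by
      funext i
      by_cases hij : i = j
      · subst hij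
        rw [Function.update_self, hRS]
        simp [hj]
      · rw [Function.update_of_ne hij, hRS]
        simp [hij]
    obtain ⟨f1, g1⟩ := hball (hmem S)
    obtain ⟨f2, g2⟩ := hball (hmem (insert j S))
    have s1' := hstep j (RS S) g1 (h j) (hhj.trans hh2.le)
    have s2' := hstep j (RS (insert j S)) g2 (-h j) (by rw [norm_neg]; exact hhj.trans hh2.le)
    rw [← u1] at s1'
    rw [← u2, norm_neg, inner_neg_left] at s2'
    -- the fields
    have k1 : ∀ R, z j * ‖F j R - F j R1‖ ≤ ε / 4 →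
        |z j * ⟪h j, F j R⟫ - z j * ⟪h j, F j R1⟫| ≤ ε / 4 * ‖h‖ := by
      intro R hR
      rw [← mul_sub, ← inner_sub_right, abs_mul, abs_of_pos (hz j)]
      calc z j * |⟪h j, F j R - F j R1⟫| ≤ z j * (‖h j‖ * ‖F j R - F j R1‖) :=
            mul_le_mul_of_nonneg_left (abs_real_inner_le_norm _ _) (hz j).le
        _ = (z j * ‖F j R - F j R1‖) * ‖h j‖ := by ring
        _ ≤ ε / 4 * ‖h‖ := mul_le_mul hR hhj (norm_nonneg _) (by positivity)
    have k2 := abs_le.1 (k1 (RS S) (f1 j))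
    have k3 := abs_le.1 (k1 (RS (insert j S)) (f2 j))
    have k4 : C1 * √(2 * s) * ‖h j‖ ≤ ε / 4 * ‖h‖ :=
      mul_le_mul hsε hhj (norm_nonneg _) (by positivity)
    have k5 : C2 * ‖h j‖ ^ 2 ≤ ε / 4 * ‖h‖ := by
      have h1 : C2 * ‖h j‖ ≤ ε / 4 := by
        have h2 : (C2 + 1) * ‖h‖ ≤ ε / 4 := by
          have := mul_le_mul_of_nonneg_left hh3.le (show 0 ≤ C2 + 1 by positivity)
          refine this.trans (le_of_eq ?_)
          field_simp
        have h3 : C2 * ‖h j‖ ≤ (C2 + 1) * ‖h‖ :=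
          mul_le_mul (by linarith) hhj (norm_nonneg _) (by positivity)
        linarith
      calc C2 * ‖h j‖ ^ 2 = (C2 * ‖h j‖) * ‖h j‖ := by ring
        _ ≤ ε / 4 * ‖h‖ := mul_le_mul h1 hhj (norm_nonneg _) (by positivity)
    have e1 : En γ z (RS S) (rho (RS S)) = e (RS S) := rfl
    have e2 : En γ z (RS (insert j S)) (rho (RS (insert j S))) = e (RS (insert j S)) := rfl
    have e3 : Fi γ (z j) s1 (rho (RS S)) (RS S j) = F j (RS S) := rfl
    have e4 : Fi γ (z j) s1 (rho (RS (insert j S))) (RS (insert j S) j) = F j (RS (insert j S)) := rfl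
    rw [e1, e2, e3] at s1'
    rw [e1, e2, e4] at s2'
    have hhn : 0 ≤ ε * ‖h‖ := by positivity
    rw [abs_le]
    constructor <;> linarith [k2.1, k2.2, k3.1, k3.2]
  have hall : ∀ S : Finset ι, |e (RS S) - e R1 + ∑ j ∈ S, z j * ⟪h j, F j R1⟫| ≤
      S.card * (ε * ‖h‖) := by
    intro S
    induction S using Finset.induction_on with
    | empty =>
      have : RS ∅ = R1 := by funext i; rw [hRS]; simp
      rw [this]; simp
    | insert j S hj ih =>
      rw [Finset.sum_insert hj, Finset.card_insert_of_notMem hj]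
      have h1 := hone S j hj
      have h2 := abs_add_le (e (RS (insert j S)) - e (RS S) + z j * ⟪h j, F j R1⟫)
        (e (RS S) - e R1 + ∑ j ∈ S, z j * ⟪h j, F j R1⟫)
      have e5 : e (RS (insert j S)) - e (RS S) + z j * ⟪h j, F j R1⟫ +
        (e (RS S) - e R1 + ∑ j ∈ S, z j * ⟪h j, F j R1⟫) =
        e (RS (insert j S)) - e R1 + (z j * ⟪h j, F j R1⟫ + ∑ j ∈ S, z j * ⟪h j, F j R1⟫) := by
        ring
      rw [e5] at h2
      push_cast
      linarith
  have hfin := hall Finset.univ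
  have hu : RS Finset.univ = R1 + h := by funext i; rw [hRS]; simp
  rw [hu, Finset.card_univ] at hfin
  have e6 : e (R1 + h) - e R1 - Dm z (fun j => Fi γ (z j) s1 (rho R1) (R1 j)) h =
      e (R1 + h) - e R1 + ∑ j, z j * ⟪h j, F j R1⟫ := by
    rw [Dm_apply, Finset.sum_neg_distrib]; ring
  rw [e6, Real.norm_eq_abs]
  refine hfin.trans ?_
  have h7 : (Fintype.card ι : ℝ) * (ε * ‖h‖) ≤ N * (ε * ‖h‖) :=
    mul_le_mul_of_nonneg_right (by rw [hN]; linarith) (by positivity)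
  refine h7.trans (le_of_eq ?_)
  rw [hε]; field_simp

/-- the set of configurations of different nuclei -/
def Om (ι : Type*) : Set (ι → E3) := {R | ∀ i j, i ≠ j → R i ≠ R j}

lemma om_open : IsOpen (Om ι) := by
  have : Om ι = ⋂ i : ι, ⋂ j : ι, {R : ι → E3 | i ≠ j → R i ≠ R j} := by
    ext R; simp [Om]
  rw [this]
  refine isOpen_iInter_of_finite fun i => isOpen_iInter_of_finite fun j => ?_
  by_cases hij : i = j
  · simp [hij]
  · have : {R : ι → E3 | i ≠ j → R i ≠ R j} = {R : ι → E3 | R i ≠ R j} := by ext R; simp [hij]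
    rw [this]
    exact isOpen_ne_fun (continuous_apply i) (continuous_apply j)

lemma om_sep {R : ι → E3} (hR : R ∈ Om ι) : ∃ s1 : ℝ, 0 < s1 ∧ R ∈ Sep (8 * s1) := by
  have h : ∀ p : ι × ι, ∃ d : ℝ, 0 < d ∧ (p.1 ≠ p.2 → d ≤ ‖R p.1 - R p.2‖) := by
    intro p
    by_cases hp : p.1 = p.2
    · exact ⟨1, one_pos, fun h => absurd hp h⟩
    · exact ⟨‖R p.1 - R p.2‖, norm_pos_iff.2 (sub_ne_zero.2 (hR _ _ hp)), fun _ => le_rfl⟩
  choose d hd hdl using h
  cases isEmpty_or_nonempty ι with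
  | inl h => exact ⟨1, one_pos, fun i => (h.false i).elim⟩
  | inr h =>
    obtain ⟨p0, hp0⟩ := Finite.exists_min d
    refine ⟨d p0 / 8, by have := hd p0; positivity, fun i j hij => ?_⟩
    have := (hp0 (i, j)).trans (hdl (i, j) hij)
    linarith

/-- **Continuous differentiability.** -/
theorem smooth {γ : ℝ} (hγ : 0 < γ) {z : ι → ℝ} (hz : ∀ j, 0 < z j) {lam : ℝ} (h0 : 0 < lam)
    {rho : (ι → E3) → E3 → ℝ} {mu : (ι → E3) → ℝ} (hI : ∀ R, IonC γ z R lam (mu R) (rho R)) :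
    ContDiffOn ℝ 1 (fun R => En γ z R (rho R)) (Om ι) := by
  suffices h : DifferentiableOn ℝ (fun R => En γ z R (rho R)) (Om ι) ∧
      ContinuousOn (fderiv ℝ (fun R => En γ z R (rho R))) (Om ι) by
    have := (contDiffOn_succ_iff_fderiv_of_isOpen (n := 0) (𝕜 := ℝ)
      (f := fun R => En γ z R (rho R)) (om_open (ι := ι))).2 ⟨h.1, by simp, contDiffOn_zero.2 h.2⟩
    simpa using this
  have key : ∀ R0 ∈ Om ι, ∃ s1 : ℝ, 0 < s1 ∧ R0 ∈ Sep (8 * s1) ∧ ∀ᶠ R in 𝓝 R0,
      HasFDerivAt (fun R => En γ z R (rho R)) (Dm z fun j => Fi γ (z j) s1 (rho R) (R j)) R := by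
    intro R0 hR0
    obtain ⟨s1, hs1, hsep⟩ := om_sep hR0
    refine ⟨s1, hs1, hsep, ?_⟩
    filter_upwards [Metric.ball_mem_nhds R0 hs1] with R hR
    refine hasF hγ hz h0 hI hs1 fun i j hij => ?_
    rw [mem_ball, dist_eq_norm] at hR
    have a1 := (norm_le_pi_norm (R - R0) i).trans_lt hR
    have a2 := (norm_le_pi_norm (R - R0) j).trans_lt hR
    have a3 := hsep i j hij
    have e1 : R0 i - R0 j = (R i - R j) - ((R - R0) i) + (R - R0) j := by
      simp only [Pi.sub_apply]; abel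
    have a4 := norm_add_le ((R i - R j) - ((R - R0) i)) ((R - R0) j)
    have a5 := norm_sub_le (R i - R j) ((R - R0) i)
    rw [← e1] at a4
    linarith
  refine ⟨fun R hR => ?_, fun R0 hR0 => ?_⟩
  · obtain ⟨s1, hs1, hsep, h⟩ := key R hR
    exact h.self_of_nhds.differentiableAt.differentiableWithinAt
  · obtain ⟨s1, hs1, hsep, h⟩ := key R0 hR0
    refine ContinuousAt.continuousWithinAt ?_
    have h1 : fderiv ℝ (fun R => En γ z R (rho R)) =ᶠ[𝓝 R0]
        fun R => Dm z fun j => Fi γ (z j) s1 (rho R) (R j) := by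
      filter_upwards [h] with R hR
      exact hR.fderiv
    have h2 : ContinuousAt (fun R : ι → E3 => Dm z fun j => Fi γ (z j) s1 (rho R) (R j)) R0 := by
      unfold Dm
      refine tendsto_finsetSum _ fun j _ => ?_
      have h3 : Tendsto (fun R : ι → E3 => Fi γ (z j) s1 (rho R) (R j)) (𝓝 R0)
          (𝓝 (Fi γ (z j) s1 (rho R0) (R0 j))) :=
        Fi_cont hγ hz h0 hI hs1 j fun i hij => by
          have := hsep i j hij
          linarith
      have h4 : Continuous fun v : E3 =>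
          (-(z j)) • (innerSL ℝ v).comp (ContinuousLinearMap.proj (R := ℝ) (φ := fun _ : ι => E3) j) := by
        fun_prop
      exact (h4.tendsto _).comp h3
    exact h2.congr h1.symm

end Pool.Agent.R999.Ex
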