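import Pool.Agent.R999.Dif8

/-!
# The gradient of the regularised electronic potential at a nucleus
-/

set_option autoImplicit false

namespace Pool.Agent.R999.Ex

open MeasureTheory Set Filter Topology Metric
open Pool.Agent.TH791.Cl Pool.Agent.TH791.Nw Pool.Agent.R999.Pot Pool.Agent.R999.MinP
open Pool.Agent.R999.Newton
open scoped ENNReal RealInnerProductSpace

/-- Taylor estimate of the Coulomb kernel, uniform up to the singularity -/
lemma ker_tay {u t : E3} (hu : u ≠ 0) (hut : u + t ≠ 0) :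
    |1 / ‖u + t‖ - 1 / ‖u‖ + ⟪t, KK u⟫| ≤
      9 * ‖t‖ ^ (5/4 : ℝ) * (‖u‖ ^ (-(9/4) : ℝ) + ‖u + t‖ ^ (-(9/4) : ℝ)) := by
  have ha : 0 < ‖u‖ := norm_pos_iff.2 hu
  have hb : 0 < ‖u + t‖ := norm_pos_iff.2 hut
  have ht : 0 ≤ ‖t‖ := norm_nonneg t
  have hKK : ⟪t, KK u⟫ = ⟪t, u⟫ / ‖u‖ ^ 3 := by
    unfold KK; rw [real_inner_smul_right]; field_simp
  have q1 : 0 ≤ ‖u‖ ^ (-(9/4) : ℝ) := by positivity
  have q2 : 0 ≤ ‖u + t‖ ^ (-(9/4) : ℝ) := by positivity
  have q3 : 0 ≤ ‖t‖ ^ (5/4 : ℝ) := by positivity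
  rcases le_or_gt ‖t‖ (‖u‖ / 2) with h | h
  · have h1 := ker_exp (η := -t) hu (by rwa [norm_neg])
    rw [sub_neg_eq_add, norm_neg, inner_neg_left, neg_div, sub_neg_eq_add, ← hKK] at h1
    refine h1.trans ?_
    have h2 : ‖t‖ ^ 2 / ‖u‖ ^ 3 ≤ ‖t‖ ^ (5/4 : ℝ) * ‖u‖ ^ (-(9/4) : ℝ) := by
      have e1 : ‖t‖ ^ 2 = ‖t‖ ^ (5/4 : ℝ) * ‖t‖ ^ (3/4 : ℝ) := by
        rw [← Real.rpow_natCast ‖t‖ 2, ← Real.rpow_add_of_nonneg ht (by norm_num) (by norm_num)]
        norm_num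
      have e2 : ‖u‖ ^ (-(9/4) : ℝ) = ‖u‖ ^ (3/4 : ℝ) / ‖u‖ ^ 3 := by
        rw [show (-(9/4) : ℝ) = 3/4 - 3 by norm_num, Real.rpow_sub ha]
        congr 1
        rw [show (3:ℝ) = ((3:ℕ):ℝ) by norm_num, Real.rpow_natCast]
      rw [e1, e2, mul_div_assoc]
      refine mul_le_mul_of_nonneg_left ?_ q3
      refine div_le_div_of_nonneg_right ?_ (by positivity)
      exact Real.rpow_le_rpow ht (by linarith) (by norm_num)
    have h3 : 6 * ‖t‖ ^ 2 / ‖u‖ ^ 3 = 6 * (‖t‖ ^ 2 / ‖u‖ ^ 3) := by ring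
    rw [h3]
    have h4 : 0 ≤ ‖t‖ ^ (5/4 : ℝ) * ‖u‖ ^ (-(9/4) : ℝ) := mul_nonneg q3 q1
    have h5 : 0 ≤ ‖t‖ ^ (5/4 : ℝ) * ‖u + t‖ ^ (-(9/4) : ℝ) := mul_nonneg q3 q2
    linarith
  · have ht0 : 0 < ‖t‖ := by linarith
    have hb3 : ‖u + t‖ ≤ 3 * ‖t‖ := (norm_add_le _ _).trans (by linarith)
    -- general: `1/a ≤ (m t)^{5/4} a^{-9/4}` when `a ≤ m t`
    have gen : ∀ a m : ℝ, 0 < a → 0 ≤ m → a ≤ m * ‖t‖ →
        1 / a ≤ m ^ (5/4 : ℝ) * (‖t‖ ^ (5/4 : ℝ) * a ^ (-(9/4) : ℝ)) := by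
      intro a m ha0 hm ham
      have e1 : 1 / a = a ^ (5/4 : ℝ) * a ^ (-(9/4) : ℝ) := by
        rw [← Real.rpow_add ha0]; norm_num [Real.rpow_neg_one]
      rw [e1, ← mul_assoc, ← Real.mul_rpow hm ht]
      exact mul_le_mul_of_nonneg_right (Real.rpow_le_rpow ha0.le ham (by norm_num)) (by positivity)
    have g1 := gen ‖u‖ 2 ha (by norm_num) (by linarith)
    have g2 := gen ‖u + t‖ 3 hb (by norm_num) hb3
    have g3 : |⟪t, KK u⟫| ≤ 2 * (‖t‖ ^ (5/4 : ℝ) * ‖u‖ ^ (-(9/4) : ℝ)) := by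
      refine (abs_real_inner_le_norm _ _).trans ?_
      rw [KK_norm]
      have e1 : ‖u‖ ^ (-2 : ℝ) = ‖u‖ ^ (1/4 : ℝ) * ‖u‖ ^ (-(9/4) : ℝ) := by
        rw [← Real.rpow_add ha]; norm_num
      have e2 : ‖t‖ ^ (5/4 : ℝ) = ‖t‖ * ‖t‖ ^ (1/4 : ℝ) := by
        rw [← Real.rpow_one_add' ht (by norm_num)]; norm_num
      have e3 : ‖u‖ ^ (1/4 : ℝ) ≤ 2 * ‖t‖ ^ (1/4 : ℝ) := by
        have h1 : ‖u‖ ^ (1/4 : ℝ) ≤ (2 * ‖t‖) ^ (1/4 : ℝ) :=
          Real.rpow_le_rpow ha.le (by linarith) (by norm_num)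
        rw [Real.mul_rpow (by norm_num) ht] at h1
        have h2 : (2:ℝ) ^ (1/4 : ℝ) ≤ 2 ^ (1:ℝ) :=
          Real.rpow_le_rpow_of_exponent_le (by norm_num) (by norm_num)
        rw [Real.rpow_one] at h2
        exact h1.trans (mul_le_mul_of_nonneg_right h2 (by positivity))
      rw [e1, e2]
      calc ‖t‖ * (‖u‖ ^ (1/4 : ℝ) * ‖u‖ ^ (-(9/4) : ℝ)) ≤
          ‖t‖ * (2 * ‖t‖ ^ (1/4 : ℝ) * ‖u‖ ^ (-(9/4) : ℝ)) :=
            mul_le_mul_of_nonneg_left (mul_le_mul_of_nonneg_right e3 q1) ht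
        _ = _ := by ring
    have c2 : (2:ℝ) ^ (5/4 : ℝ) ≤ 4 := by
      have : (2:ℝ) ^ (5/4 : ℝ) ≤ 2 ^ (2:ℝ) :=
        Real.rpow_le_rpow_of_exponent_le (by norm_num) (by norm_num)
      norm_num at this ⊢
      exact this
    have c3 : (3:ℝ) ^ (5/4 : ℝ) ≤ 9 := by
      have : (3:ℝ) ^ (5/4 : ℝ) ≤ 3 ^ (2:ℝ) :=
        Real.rpow_le_rpow_of_exponent_le (by norm_num) (by norm_num)
      norm_num at this ⊢
      exact this
    have h4 : 0 ≤ ‖t‖ ^ (5/4 : ℝ) * ‖u‖ ^ (-(9/4) : ℝ) := mul_nonneg q3 q1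
    have h5 : 0 ≤ ‖t‖ ^ (5/4 : ℝ) * ‖u + t‖ ^ (-(9/4) : ℝ) := mul_nonneg q3 q2
    have g1' := g1.trans (mul_le_mul_of_nonneg_right c2 h4)
    have g2' := g2.trans (mul_le_mul_of_nonneg_right c3 h5)
    have p1 : 0 ≤ 1 / ‖u‖ := by positivity
    have p2 : 0 ≤ 1 / ‖u + t‖ := by positivity
    have g4 := abs_le.1 g3
    rw [abs_le]
    constructor <;> linarith [g4.1, g4.2]

/-- the weighted potentials of a function with an inverse root singularity -/
theorem wt_bound {h : E3 → ℝ} {P : E3} {s1 A : ℝ} (hs1 : 0 < s1) (hA : 0 ≤ A) (hm : Measurable h)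
    (hi : Integrable h) (hb : ∀ y, y ≠ P → ‖y - P‖ < s1 → |h y| ≤ A * ‖y - P‖ ^ (-(1/2) : ℝ)) :
    ∃ K : ℝ, 0 ≤ K ∧ ∀ x, ‖x - P‖ < s1 / 2 →
      Integrable (fun y => h y * ‖x - y‖ ^ (-(9/4) : ℝ)) ∧
      ∫ y, |h y| * ‖x - y‖ ^ (-(9/4) : ℝ) ≤ K := by
  have h2s : 0 < 2 * s1 := by positivity
  obtain ⟨k1, k2⟩ := ball_pow (p := 11/4) (L := 2 * s1) (by norm_num) h2s
  set B : E3 → ℝ := fun x => (ball (0:E3) (2 * s1)).indicator (fun x => ‖x‖ ^ (-(11/4) : ℝ)) x with hB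
  have hB0 : ∀ x, 0 ≤ B x := fun x => indicator_nonneg (fun _ _ => Real.rpow_nonneg (norm_nonneg _) _) _
  set IB : ℝ := ∫ x, B x with hIB
  have hIB0 : 0 ≤ IB := integral_nonneg hB0
  set c : ℝ := (s1 / 2) ^ (-(9/4) : ℝ) with hc
  have hc0 : 0 ≤ c := by positivity
  have hne : ∀ p : E3, ∀ᵐ y : E3, y ≠ p := by
    intro p
    have := (Set.countable_singleton p).ae_notMem (volume : Measure E3)
    filter_upwards [this] with y hy
    simpa using hy
  refine ⟨A * (IB + IB) + c * ∫ y, |h y|, by positivity, fun x hx => ?_⟩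
  have j1 : Integrable (fun y => B (y - P)) := k1.comp_sub_right P
  have j2 : Integrable (fun y => B (x - y)) := k1.comp_sub_left x
  have j3 : Integrable (fun y => A * (B (y - P) + B (x - y))) := (j1.add j2).const_mul A
  have j4 : Integrable (fun y => c * |h y|) := hi.abs.const_mul c
  have hle : ∀ᵐ y, |h y| * ‖x - y‖ ^ (-(9/4) : ℝ) ≤ A * (B (y - P) + B (x - y)) + c * |h y| := by
    filter_upwards [hne P, hne x] with y hy hy'
    have hr : 0 < ‖y - P‖ := norm_pos_iff.2 (sub_ne_zero.2 hy)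
    have hr' : 0 < ‖x - y‖ := norm_pos_iff.2 (sub_ne_zero.2 hy'.symm)
    have e0 : 0 ≤ c * |h y| := by positivity
    by_cases hys : ‖y - P‖ < s1
    · have h1 := hb y hy hys
      have hxy : ‖x - y‖ < 2 * s1 := by
        have e : x - y = (x - P) - (y - P) := by abel
        rw [e]
        exact (norm_sub_le _ _).trans_lt (by linarith)
      have b1 : B (y - P) = ‖y - P‖ ^ (-(11/4) : ℝ) := by
        rw [hB]; exact indicator_of_mem (by simpa using (by linarith : ‖y - P‖ < 2 * s1)) _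
      have b2 : B (x - y) = ‖x - y‖ ^ (-(11/4) : ℝ) := by
        rw [hB]; exact indicator_of_mem (by simpa using hxy) _
      have h2 : ‖y - P‖ ^ (-(1/2) : ℝ) * ‖x - y‖ ^ (-(9/4) : ℝ) ≤
          ‖y - P‖ ^ (-(11/4) : ℝ) + ‖x - y‖ ^ (-(11/4) : ℝ) := by
        have p1 : 0 ≤ ‖y - P‖ ^ (-(11/4) : ℝ) := by positivity
        have p2 : 0 ≤ ‖x - y‖ ^ (-(11/4) : ℝ) := by positivity
        rcases le_total ‖y - P‖ ‖x - y‖ with hh | hh
        · have h3 : ‖x - y‖ ^ (-(9/4) : ℝ) ≤ ‖y - P‖ ^ (-(9/4) : ℝ) :=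
            Real.rpow_le_rpow_of_nonpos hr hh (by norm_num)
          have h4 := mul_le_mul_of_nonneg_left h3 (Real.rpow_nonneg hr.le (-(1/2) : ℝ))
          rw [← Real.rpow_add hr] at h4
          norm_num at h4 p2 ⊢
          linarith
        · have h3 : ‖y - P‖ ^ (-(1/2) : ℝ) ≤ ‖x - y‖ ^ (-(1/2) : ℝ) :=
            Real.rpow_le_rpow_of_nonpos hr' hh (by norm_num)
          have h4 := mul_le_mul_of_nonneg_right h3 (Real.rpow_nonneg hr'.le (-(9/4) : ℝ))
          rw [← Real.rpow_add hr'] at h4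
          norm_num at h4 p1 ⊢
          linarith
      rw [b1, b2]
      calc |h y| * ‖x - y‖ ^ (-(9/4) : ℝ) ≤
          A * ‖y - P‖ ^ (-(1/2) : ℝ) * ‖x - y‖ ^ (-(9/4) : ℝ) :=
            mul_le_mul_of_nonneg_right h1 (Real.rpow_nonneg hr'.le _)
        _ = A * (‖y - P‖ ^ (-(1/2) : ℝ) * ‖x - y‖ ^ (-(9/4) : ℝ)) := by ring
        _ ≤ A * (‖y - P‖ ^ (-(11/4) : ℝ) + ‖x - y‖ ^ (-(11/4) : ℝ)) :=
            mul_le_mul_of_nonneg_left h2 hA
        _ ≤ _ := by linarith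
    · have hxy : s1 / 2 ≤ ‖x - y‖ := by
        have e : y - P = (x - P) - (x - y) := by abel
        have := norm_sub_le (x - P) (x - y)
        rw [← e] at this
        linarith [not_lt.1 hys]
      have h1 : ‖x - y‖ ^ (-(9/4) : ℝ) ≤ c :=
        Real.rpow_le_rpow_of_nonpos (by positivity) hxy (by norm_num)
      have h2 := mul_le_mul_of_nonneg_left h1 (abs_nonneg (h y))
      have h3 : 0 ≤ A * (B (y - P) + B (x - y)) := mul_nonneg hA (add_nonneg (hB0 _) (hB0 _))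
      linarith
  have i0 : Integrable (fun y => |h y| * ‖x - y‖ ^ (-(9/4) : ℝ)) := by
    refine (j3.add j4).mono' ((hm.norm.mul ((measurable_const.sub
      measurable_id).norm.pow_const _)).aestronglyMeasurable) ?_
    filter_upwards [hle] with y hy
    rw [Real.norm_of_nonneg (mul_nonneg (abs_nonneg _) (Real.rpow_nonneg (norm_nonneg _) _))]
    exact hy
  refine ⟨?_, ?_⟩
  · refine i0.mono ((hm.mul ((measurable_const.sub
      measurable_id).norm.pow_const _)).aestronglyMeasurable) (ae_of_all _ fun y => ?_)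
    rw [norm_mul, norm_mul, Real.norm_eq_abs, Real.norm_eq_abs, Real.norm_eq_abs, abs_abs]
  · refine (integral_mono_ae i0 (j3.add j4) hle).trans (le_of_eq ?_)
    rw [integral_add' j3 j4, integral_const_mul, integral_add j1 j2, integral_const_mul]
    have e1 : ∫ y, B (y - P) = IB := integral_sub_right_eq_self B P
    have e2 : ∫ y, B (x - y) = IB := integral_sub_left_eq_self B volume x
    rw [e1, e2]

/-- the gradient field of a potential -/
noncomputable def gradp (h : E3 → ℝ) (x : E3) : E3 := ∫ y, h y • KK (y - x)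

/-- uniform Taylor estimate for potentials -/
theorem pot_tay {h : E3 → ℝ} {P : E3} {s1 A : ℝ} (hs1 : 0 < s1) (hA : 0 ≤ A) (hm : Measurable h)
    (hi : Integrable h) (hb : ∀ y, y ≠ P → ‖y - P‖ < s1 → |h y| ≤ A * ‖y - P‖ ^ (-(1/2) : ℝ)) :
    ∃ K : ℝ, 0 ≤ K ∧ ∀ x y, ‖x - P‖ < s1 / 2 → ‖y - P‖ < s1 / 2 →
      |pot h y - pot h x - ⟪y - x, gradp h x⟫| ≤ K * ‖y - x‖ ^ (5/4 : ℝ) := by
  obtain ⟨K, hK, hw⟩ := wt_bound hs1 hA hm hi hb
  have hne : ∀ p : E3, ∀ᵐ y : E3, y ≠ p := by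
    intro p
    have := (Set.countable_singleton p).ae_notMem (volume : Measure E3)
    filter_upwards [this] with y hy
    simpa using hy
  -- integrability of the kernels
  have hker : ∀ x, ‖x - P‖ < s1 / 2 → Integrable (fun y => h y / ‖x - y‖) ∧
      Integrable (fun y => h y • KK (y - x)) := by
    intro x hx
    obtain ⟨i1, -⟩ := hw x hx
    have i2 : Integrable (fun y => |h y * ‖x - y‖ ^ (-(9/4) : ℝ)| + |h y|) := i1.abs.add hi.abs
    have hp : ∀ (q : ℝ), 0 ≤ q → q ≤ 9/4 → ∀ y, y ≠ x →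
        |h y| * ‖x - y‖ ^ (-q) ≤ |h y * ‖x - y‖ ^ (-(9/4) : ℝ)| + |h y| := by
      intro q hq0 hq y hy
      have hr : 0 < ‖x - y‖ := norm_pos_iff.2 (sub_ne_zero.2 hy.symm)
      rw [abs_mul, abs_of_nonneg (Real.rpow_nonneg hr.le (-(9/4) : ℝ))]
      have h0 : 0 ≤ ‖x - y‖ ^ (-(9/4) : ℝ) := Real.rpow_nonneg hr.le _
      rcases le_total ‖x - y‖ 1 with h1 | h1
      · have h2 : ‖x - y‖ ^ (-q) ≤ ‖x - y‖ ^ (-(9/4) : ℝ) :=
          Real.rpow_le_rpow_of_exponent_ge hr h1 (by linarith)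
        have h3 := mul_le_mul_of_nonneg_left h2 (abs_nonneg (h y))
        linarith [abs_nonneg (h y)]
      · have h2 : ‖x - y‖ ^ (-q) ≤ 1 := Real.rpow_le_one_of_one_le_of_nonpos h1 (by linarith)
        have h3 := mul_le_mul_of_nonneg_left h2 (abs_nonneg (h y))
        have h4 : 0 ≤ |h y| * ‖x - y‖ ^ (-(9/4) : ℝ) := mul_nonneg (abs_nonneg _) h0
        linarith
    constructor
    · refine i2.mono' (hm.div (measurable_const.sub measurable_id).norm).aestronglyMeasurable ?_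
      filter_upwards [hne x] with y hy
      have := hp 1 (by norm_num) (by norm_num) y hy
      rw [Real.rpow_neg_one] at this
      rw [Real.norm_eq_abs, abs_div, abs_of_nonneg (norm_nonneg (x - y)), div_eq_mul_inv]
      exact this
    · refine i2.mono' (hm.smul (KK_meas.comp (measurable_id.sub_const x))).aestronglyMeasurable ?_
      filter_upwards [hne x] with y hy
      have := hp 2 (by norm_num) (by norm_num) y hy
      rw [norm_smul, KK_norm, Real.norm_eq_abs, norm_sub_rev]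
      exact this
  refine ⟨9 * (K + K), by positivity, fun x y hx hy => ?_⟩
  obtain ⟨a1, a2⟩ := hker x hx
  obtain ⟨b1, -⟩ := hker y hy
  obtain ⟨w1, w2⟩ := hw x hx
  obtain ⟨v1, v2⟩ := hw y hy
  have a3 : Integrable (fun w => ⟪y - x, h w • KK (w - x)⟫) :=
    Integrable.const_inner (𝕜 := ℝ) (y - x) a2
  have e1 : pot h y - pot h x - ⟪y - x, gradp h x⟫ =
      ∫ w, (h w / ‖y - w‖ - h w / ‖x - w‖ - ⟪y - x, h w • KK (w - x)⟫) := by
    have j1 : Integrable (fun w => h w / ‖y - w‖ - h w / ‖x - w‖) := b1.sub a1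
    rw [integral_sub j1 a3, integral_sub b1 a1]
    unfold pot gradp
    rw [← integral_inner a2]
  rw [e1]
  have i5 : Integrable (fun w => 9 * ‖y - x‖ ^ (5/4 : ℝ) *
      (|h w| * ‖x - w‖ ^ (-(9/4) : ℝ) + |h w| * ‖y - w‖ ^ (-(9/4) : ℝ))) := by
    have k1 : Integrable (fun w => |h w| * ‖x - w‖ ^ (-(9/4) : ℝ)) := by
      refine w1.abs.congr (ae_of_all _ fun w => ?_)
      show |h w * ‖x - w‖ ^ (-(9/4) : ℝ)| = _
      rw [abs_mul, abs_of_nonneg (Real.rpow_nonneg (norm_nonneg _) _)]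
    have k2 : Integrable (fun w => |h w| * ‖y - w‖ ^ (-(9/4) : ℝ)) := by
      refine v1.abs.congr (ae_of_all _ fun w => ?_)
      show |h w * ‖y - w‖ ^ (-(9/4) : ℝ)| = _
      rw [abs_mul, abs_of_nonneg (Real.rpow_nonneg (norm_nonneg _) _)]
    exact (k1.add k2).const_mul _
  have k1 : Integrable (fun w => |h w| * ‖x - w‖ ^ (-(9/4) : ℝ)) := by
    refine w1.abs.congr (ae_of_all _ fun w => ?_)
    show |h w * ‖x - w‖ ^ (-(9/4) : ℝ)| = _
    rw [abs_mul, abs_of_nonneg (Real.rpow_nonneg (norm_nonneg _) _)]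
  have k2 : Integrable (fun w => |h w| * ‖y - w‖ ^ (-(9/4) : ℝ)) := by
    refine v1.abs.congr (ae_of_all _ fun w => ?_)
    show |h w * ‖y - w‖ ^ (-(9/4) : ℝ)| = _
    rw [abs_mul, abs_of_nonneg (Real.rpow_nonneg (norm_nonneg _) _)]
  rw [← Real.norm_eq_abs]
  refine (norm_integral_le_of_norm_le i5 ?_).trans ?_
  · filter_upwards [hne x, hne y] with w hwx hwy
    have hu : x - w ≠ 0 := sub_ne_zero.2 hwx.symm
    have hut : (x - w) + (y - x) ≠ 0 := by
      have : (x - w) + (y - x) = y - w := by abel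
      rw [this]; exact sub_ne_zero.2 hwy.symm
    have h1 := ker_tay hu hut
    rw [show (x - w) + (y - x) = y - w by abel] at h1
    have e2 : h w / ‖y - w‖ - h w / ‖x - w‖ - ⟪y - x, h w • KK (w - x)⟫ =
        h w * (1 / ‖y - w‖ - 1 / ‖x - w‖ + ⟪y - x, KK (x - w)⟫) := by
      have : KK (w - x) = -KK (x - w) := by rw [← KK_neg, neg_sub]
      rw [this, smul_neg, inner_neg_right, real_inner_smul_right]
      ring
    rw [e2, norm_mul, Real.norm_eq_abs, Real.norm_eq_abs]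
    calc |h w| * |1 / ‖y - w‖ - 1 / ‖x - w‖ + ⟪y - x, KK (x - w)⟫| ≤
        |h w| * (9 * ‖y - x‖ ^ (5/4 : ℝ) * (‖x - w‖ ^ (-(9/4) : ℝ) + ‖y - w‖ ^ (-(9/4) : ℝ))) :=
          mul_le_mul_of_nonneg_left h1 (abs_nonneg _)
      _ = _ := by ring
  · rw [integral_const_mul, integral_add k1 k2]
    have h5 : 0 ≤ 9 * ‖y - x‖ ^ (5/4 : ℝ) := by positivity
    have := mul_le_mul_of_nonneg_left (add_le_add w2 v2) h5
    linarith

/-- differentiability from a uniform Taylor estimate -/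
lemma tay_der {f : E3 → ℝ} {g : E3 → E3} {P : E3} {r K : ℝ} (hK : 0 ≤ K)
    (h : ∀ x y, ‖x - P‖ < r → ‖y - P‖ < r →
      |f y - f x - ⟪y - x, g x⟫| ≤ K * ‖y - x‖ ^ (5/4 : ℝ)) {x : E3} (hx : ‖x - P‖ < r) :
    HasGradientAt f (g x) x := by
  rw [hasGradientAt_iff_isLittleO_nhds_zero, Asymptotics.isLittleO_iff]
  intro c hc
  have hrad : 0 < min (r - ‖x - P‖) ((c / (K + 1)) ^ (4:ℝ)) := by
    have : 0 < r - ‖x - P‖ := by linarith
    positivity
  filter_upwards [Metric.ball_mem_nhds (0:E3) hrad] with t ht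
  rw [mem_ball, dist_zero_right] at ht
  have ht1 := ht.trans_le (min_le_left _ _)
  have ht2 := ht.trans_le (min_le_right _ _)
  have h1 := h x (x + t) hx (by
    have : x + t - P = (x - P) + t := by abel
    rw [this]
    exact (norm_add_le _ _).trans_lt (by linarith))
  rw [add_sub_cancel_left] at h1
  rw [Real.norm_eq_abs, real_inner_comm]
  refine h1.trans ?_
  have e : ‖t‖ ^ (5/4 : ℝ) = ‖t‖ ^ (1/4 : ℝ) * ‖t‖ := by
    rw [mul_comm, ← Real.rpow_one_add' (norm_nonneg _) (by norm_num)]; norm_num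
  have h2 : ‖t‖ ^ (1/4 : ℝ) ≤ c / (K + 1) := by
    have := Real.rpow_le_rpow (norm_nonneg _) ht2.le (show (0:ℝ) ≤ 1/4 by norm_num)
    rwa [← Real.rpow_mul (by positivity), show (4:ℝ) * (1/4) = 1 by norm_num, Real.rpow_one] at this
  rw [e, ← mul_assoc]
  refine mul_le_mul_of_nonneg_right ?_ (norm_nonneg _)
  calc K * ‖t‖ ^ (1/4 : ℝ) ≤ (K + 1) * (c / (K + 1)) :=
        mul_le_mul (by linarith) h2 (by positivity) (by positivity)
    _ = c := by field_simp

/-- Hölder continuity of the gradient from a uniform Taylor estimate -/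
lemma tay_hol {f : E3 → ℝ} {g : E3 → E3} {P : E3} {r K : ℝ} (hK : 0 ≤ K) (hr : 0 < r)
    (h : ∀ x y, ‖x - P‖ < r → ‖y - P‖ < r →
      |f y - f x - ⟪y - x, g x⟫| ≤ K * ‖y - x‖ ^ (5/4 : ℝ)) {x : E3} (hx : ‖x - P‖ < r / 4) :
    ‖g x - g P‖ ≤ 6 * K * ‖x - P‖ ^ (1/4 : ℝ) := by
  set v := g x - g P with hv
  set d := ‖x - P‖ with hd
  have hd0 : 0 ≤ d := norm_nonneg _
  rcases (norm_nonneg v).eq_or_lt with hv0 | hv0
  · rw [← hv0]; positivity
  rcases hd0.eq_or_lt with hd1 | hd1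
  · have : x = P := sub_eq_zero.1 (norm_eq_zero.1 hd1.symm)
    rw [hv, this, sub_self, norm_zero] at hv0
    exact absurd hv0 (lt_irrefl 0)
  set τ : E3 := (d / ‖v‖) • v with hτ
  have hτn : ‖τ‖ = d := by
    rw [hτ, norm_smul, Real.norm_of_nonneg (by positivity)]
    field_simp
  have hPr : ‖P - P‖ < r := by rw [sub_self, norm_zero]; exact hr
  have hxτ : ‖x + τ - P‖ ≤ 2 * d := by
    have : x + τ - P = (x - P) + τ := by abel
    rw [this]
    exact (norm_add_le _ _).trans (by rw [hτn]; linarith)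
  have t1 := h x (x + τ) (by linarith) (by linarith)
  have t2 := h P (x + τ) hPr (by linarith)
  have t3 := h P x hPr (by linarith)
  rw [add_sub_cancel_left, hτn] at t1
  have e1 : x + τ - P = (x - P) + τ := by abel
  rw [e1, inner_add_left] at t2
  have h2 : ‖x - P + τ‖ ^ (5/4 : ℝ) ≤ 4 * d ^ (5/4 : ℝ) := by
    have : ‖x - P + τ‖ ≤ 2 * d := by rw [← e1]; exact hxτ
    refine (Real.rpow_le_rpow (norm_nonneg _) this (by norm_num)).trans ?_
    rw [Real.mul_rpow (by norm_num) hd0]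
    refine mul_le_mul_of_nonneg_right ?_ (by positivity)
    have : (2:ℝ) ^ (5/4 : ℝ) ≤ 2 ^ (2:ℝ) :=
      Real.rpow_le_rpow_of_exponent_le (by norm_num) (by norm_num)
    norm_num at this ⊢
    exact this
  have h3 := mul_le_mul_of_nonneg_left h2 hK
  have e2 : ⟪τ, v⟫ = ⟪τ, g x⟫ - ⟪τ, g P⟫ := by rw [hv, inner_sub_right]
  have e3 : ⟪τ, v⟫ = d * ‖v‖ := by
    rw [hτ, real_inner_smul_left, real_inner_self_eq_norm_sq]
    field_simp
  have u1 := abs_le.1 t1
  have u2 := abs_le.1 t2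
  have u3 := abs_le.1 t3
  have h4 : d * ‖v‖ ≤ 6 * K * d ^ (5/4 : ℝ) := by
    rw [← e3, e2]
    linarith [u1.1, u1.2, u2.1, u2.2, u3.1, u3.2]
  have e4 : d ^ (5/4 : ℝ) = d * d ^ (1/4 : ℝ) := by
    rw [← Real.rpow_one_add' hd0 (by norm_num)]; norm_num
  rw [e4] at h4
  have h5 : d * ‖v‖ ≤ d * (6 * K * d ^ (1/4 : ℝ)) := by linarith
  exact le_of_mul_le_mul_left h5 hd1

/-- potential of the cut off singularity -/
lemma pot_cusp {γ w s1 : ℝ} (hγ : 0 < γ) (hw : 0 ≤ w) (hs1 : 0 < s1) (P : E3) {x : E3}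
    (hx : ‖x - P‖ < s1) :
    pot (fun y => (ball (0:E3) s1).indicator (cusp γ w) (y - P)) x =
      8 * Real.pi * (w / γ) ^ (3/2 : ℝ) * s1 ^ (1/2 : ℝ) -
        16 * Real.pi / 3 * (w / γ) ^ (3/2 : ℝ) * ‖x - P‖ ^ (1/2 : ℝ) := by
  set c : ℝ := (w / γ) ^ (3/2 : ℝ) with hc
  set g : ℝ → ℝ := (Iio s1).indicator fun t => c * t ^ (-(3/2) : ℝ) with hg
  have hgm : Measurable g := (measurable_const.mul (measurable_id.pow_const _)).indicator
    measurableSet_Iio
  have e0 : pot (fun y => (ball (0:E3) s1).indicator (cusp γ w) (y - P)) x =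
      pot (fun y => (ball (0:E3) s1).indicator (cusp γ w) y) (x - P) :=
    IonTF.pot_shift (fun y => (ball (0:E3) s1).indicator (cusp γ w) y) P x
  rw [e0]
  have e1 : (fun y => (ball (0:E3) s1).indicator (cusp γ w) y) = fun y : E3 => g ‖y‖ := by
    funext y
    by_cases hy : ‖y‖ < s1
    · rw [indicator_of_mem (by simpa using hy), hg, indicator_of_mem (by exact hy),
        cusp_eq hγ hw]
    · rw [indicator_of_notMem (by simpa using hy), hg, indicator_of_notMem (by simpa using hy)]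
  have e2 : pot (fun y : E3 => g ‖y‖) (x - P) = ∫ t in Ioi (0:ℝ), kx ‖x - P‖ t * g t :=
    pot_radial hgm (x - P)
  rw [e1, e2]
  set r := ‖x - P‖ with hr
  have hr0 : 0 ≤ r := norm_nonneg _
  have hpi := Real.pi_pos
  have e3 : ∀ t ∈ Ioi (0:ℝ), kx r t * g t =
      (Ioc 0 r).indicator (fun t => 4 * Real.pi * c / r * t ^ (1/2 : ℝ)) t +
        (Ioo r s1).indicator (fun t => 4 * Real.pi * c * t ^ (-(1/2) : ℝ)) t := by
    intro t ht
    have ht0 : (0:ℝ) < t := ht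
    by_cases h1 : t ≤ r
    · rw [indicator_of_mem (by exact ⟨ht0, h1⟩), indicator_of_notMem (by
        intro h; exact absurd h.1 (not_lt.2 h1)), hg, indicator_of_mem (by
        show t < s1; linarith)]
      unfold kx
      rw [max_eq_left h1, add_zero]
      have hr1 : 0 < r := ht0.trans_le h1
      have e4 : t ^ (1/2 : ℝ) = t ^ 2 * t ^ (-(3/2) : ℝ) := by
        rw [← Real.rpow_natCast t 2, ← Real.rpow_add ht0]; norm_num
      rw [e4]; field_simp
    · push Not at h1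
      rw [indicator_of_notMem (by intro h; exact absurd h.2 (not_le.2 h1)), zero_add]
      by_cases h2 : t < s1
      · rw [indicator_of_mem (by exact ⟨h1, h2⟩), hg, indicator_of_mem (by exact h2)]
        unfold kx
        rw [max_eq_right h1.le]
        have e4 : t ^ (-(1/2) : ℝ) = t * t ^ (-(3/2) : ℝ) := by
          rw [← Real.rpow_one_add' ht0.le (by norm_num)]; norm_num
        rw [e4]; field_simp
      · rw [indicator_of_notMem (by intro h; exact h2 h.2), hg, indicator_of_notMem (by exact h2),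
          mul_zero]
  have iA : IntegrableOn (fun t : ℝ => 4 * Real.pi * c / r * t ^ (1/2 : ℝ)) (Ioc 0 r) := by
    have := (intervalIntegral.intervalIntegrable_rpow' (a := 0) (b := r) (r := 1/2)
      (by norm_num)).const_mul (4 * Real.pi * c / r)
    rwa [intervalIntegrable_iff_integrableOn_Ioc_of_le hr0] at this
  have iB : IntegrableOn (fun t : ℝ => 4 * Real.pi * c * t ^ (-(1/2) : ℝ)) (Ioc r s1) := by
    have := (intervalIntegral.intervalIntegrable_rpow' (a := r) (b := s1) (r := -(1/2))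
      (by norm_num)).const_mul (4 * Real.pi * c)
    rwa [intervalIntegrable_iff_integrableOn_Ioc_of_le hx.le] at this
  have iB' : IntegrableOn (fun t : ℝ => 4 * Real.pi * c * t ^ (-(1/2) : ℝ)) (Ioo r s1) :=
    iB.mono_set Ioo_subset_Ioc_self
  have m1 : Ioc 0 r ⊆ Ioi (0:ℝ) := fun t ht => ht.1
  have m2 : Ioo r s1 ⊆ Ioi (0:ℝ) := fun t ht => lt_of_le_of_lt hr0 ht.1
  rw [setIntegral_congr_fun measurableSet_Ioi e3, integral_add]
  · rw [setIntegral_indicator measurableSet_Ioc, inter_eq_self_of_subset_right m1,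
      setIntegral_indicator measurableSet_Ioo, inter_eq_self_of_subset_right m2,
      ← integral_Ioc_eq_integral_Ioo, ← intervalIntegral.integral_of_le hr0,
      ← intervalIntegral.integral_of_le hx.le, intervalIntegral.integral_const_mul,
      intervalIntegral.integral_const_mul, integral_rpow (Or.inl (by norm_num)),
      integral_rpow (Or.inl (by norm_num))]
    have n1 : (1/2 : ℝ) + 1 = 3/2 := by norm_num
    have n2 : (-(1/2) : ℝ) + 1 = 1/2 := by norm_num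
    rw [n1, n2, Real.zero_rpow (by norm_num)]
    rcases hr0.eq_or_lt with h0 | h0
    · rw [← h0, Real.zero_rpow (by norm_num), Real.zero_rpow (by norm_num)]; ring
    · have e5 : r ^ (3/2 : ℝ) = r * r ^ (1/2 : ℝ) := by
        rw [← Real.rpow_one_add' hr0 (by norm_num)]; norm_num
      rw [e5]; field_simp; ring
  · rw [← IntegrableOn, integrableOn_indicator_iff measurableSet_Ioc,
      inter_eq_self_of_subset_left m1]
    exact iA
  · rw [← IntegrableOn, integrableOn_indicator_iff measurableSet_Ioo,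
      inter_eq_self_of_subset_left m2]
    exact iB'

/-- **The regularised gradient at the nucleus.** -/
theorem grad_lim {γ w s1 M' : ℝ} (hγ : 0 < γ) (hw : 0 ≤ w) (hs1 : 0 < s1) (hM' : 0 ≤ M')
    {ρ : E3 → ℝ} (hρ : MD ρ) {P : E3} (hN : Nr γ w s1 M' ρ P) :
    (∀ᶠ x in 𝓝 P, DifferentiableAt ℝ (fun x => pot ρ x +
      16 * Real.pi / 3 * (w / γ) ^ (3/2 : ℝ) * ‖x - P‖ ^ (1/2 : ℝ)) x) ∧
    Tendsto (fun x => gradient (fun x => pot ρ x +
      16 * Real.pi / 3 * (w / γ) ^ (3/2 : ℝ) * ‖x - P‖ ^ (1/2 : ℝ)) x) (𝓝 P)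
      (𝓝 (Fi γ w s1 ρ P)) := by
  set φ : E3 → ℝ := fun x => pot ρ x +
      16 * Real.pi / 3 * (w / γ) ^ (3/2 : ℝ) * ‖x - P‖ ^ (1/2 : ℝ) with hφ
  set C : E3 → ℝ := fun y => (ball (0:E3) s1).indicator (cusp γ w) (y - P) with hC
  set h : E3 → ℝ := fun y => ρ y - C y with hh
  have hCm : Measurable C := ((cusp_meas γ w).indicator measurableSet_ball).comp
    (measurable_id.sub_const P)
  have hpw : ∀ q : ℝ, q < 2 → ∀ u : E3, |(ball (0:E3) s1).indicator (cusp γ w) u| ^ (1:ℝ) =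
      |(ball (0:E3) s1).indicator (cusp γ w) u| := fun q _ u => Real.rpow_one _
  -- the cusp is a nice density
  have hCN : Nice C := by
    have n0 : Nice ((ball (0:E3) s1).indicator (cusp γ w)) := by
      refine ⟨(cusp_meas γ w).indicator measurableSet_ball, ?_, ?_⟩
      · refine (((ball_pow (p := 3/2) (by norm_num) hs1).1).const_mul
          ((w / γ) ^ (3/2 : ℝ))).congr (ae_of_all _ fun u => ?_)
        show (w / γ) ^ (3/2 : ℝ) * (ball (0:E3) s1).indicator (fun x => ‖x‖ ^ (-(3/2) : ℝ)) u =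
          (ball (0:E3) s1).indicator (cusp γ w) u
        by_cases hu : u ∈ ball (0:E3) s1
        · rw [indicator_of_mem hu, indicator_of_mem hu, cusp_eq hγ hw]
        · rw [indicator_of_notMem hu, indicator_of_notMem hu, mul_zero]
      · refine (((ball_pow (p := 5/2) (by norm_num) hs1).1).const_mul
          ((w / γ) ^ (5/2 : ℝ))).congr (ae_of_all _ fun u => ?_)
        show (w / γ) ^ (5/2 : ℝ) * (ball (0:E3) s1).indicator (fun x => ‖x‖ ^ (-(5/2) : ℝ)) u =
          |(ball (0:E3) s1).indicator (cusp γ w) u| ^ (5/3 : ℝ)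
        by_cases hu : u ∈ ball (0:E3) s1
        · rw [indicator_of_mem hu, indicator_of_mem hu, abs_of_nonneg (cusp_nonneg hγ hw u)]
          unfold cusp
          rw [← Real.rpow_mul (by positivity), Real.div_rpow (by positivity) (norm_nonneg _),
            Real.rpow_neg (norm_nonneg _)]
          norm_num
          rfl
        · rw [indicator_of_notMem hu, indicator_of_notMem hu, mul_zero, abs_zero,
            Real.zero_rpow (by norm_num)]
    exact ⟨hCm, n0.2.1.comp_sub_right P, n0.2.2.comp_sub_right P⟩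
  have hhN : Nice h := nice_sub hρ.nice hCN
  have hbd : ∀ y, y ≠ P → ‖y - P‖ < s1 → |h y| ≤ M' * ‖y - P‖ ^ (-(1/2) : ℝ) := by
    intro y hy hys
    have h1 := (hN y hy hys).1
    have e1 : C y = cusp γ w (y - P) := by
      rw [hC]; exact indicator_of_mem (by simpa using hys) _
    rw [hh]
    show |ρ y - C y| ≤ _
    rw [e1]; exact h1
  obtain ⟨K, hK, htay⟩ := pot_tay hs1 hM' hhN.1 hhN.2.1 hbd
  have hr : 0 < s1 / 2 := by positivity
  have hφe : ∀ x, ‖x - P‖ < s1 → φ x = pot h x +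
      8 * Real.pi * (w / γ) ^ (3/2 : ℝ) * s1 ^ (1/2 : ℝ) := by
    intro x hx
    have h1 : pot h x = pot ρ x - pot C x := MinP.pot_sub hρ.nice hCN x
    rw [h1, hC, pot_cusp hγ hw hs1 P hx, hφ]
    ring
  have hgrad : ∀ x, ‖x - P‖ < s1 / 2 → HasGradientAt φ (gradp h x) x := by
    intro x hx
    have h1 := tay_der hK htay hx
    have h2 : HasFDerivAt (fun x => pot h x + 8 * Real.pi * (w / γ) ^ (3/2 : ℝ) *
        s1 ^ (1/2 : ℝ)) ((InnerProductSpace.toDual ℝ E3) (gradp h x)) x :=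
      h1.hasFDerivAt.add_const _
    refine (h2.congr_of_eventuallyEq ?_)
    have hxs : ‖x - P‖ < s1 := by linarith
    have : {y : E3 | ‖y - P‖ < s1} ∈ 𝓝 x :=
      (isOpen_lt (by fun_prop) continuous_const).mem_nhds hxs
    filter_upwards [this] with y hy
    exact hφe y hy
  have hnb : {y : E3 | ‖y - P‖ < s1 / 2} ∈ 𝓝 P :=
    (isOpen_lt (by fun_prop) continuous_const).mem_nhds (by simpa using hr)
  have hFi : gradp h P = Fi γ w s1 ρ P := by
    unfold gradp Fi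
    rw [← integral_add_right_eq_self (μ := volume) _ P]
    congr 1
    funext u
    rw [add_sub_cancel_right]
    show (ρ (u + P) - (ball (0:E3) s1).indicator (cusp γ w) (u + P - P)) • KK u = _
    rw [add_sub_cancel_right]
    rfl
  refine ⟨?_, ?_⟩
  · filter_upwards [hnb] with x hx
    exact (hgrad x hx).hasFDerivAt.differentiableAt
  · rw [tendsto_iff_norm_sub_tendsto_zero]
    have hnb2 : {y : E3 | ‖y - P‖ < s1 / 2 / 4} ∈ 𝓝 P :=
      (isOpen_lt (by fun_prop) continuous_const).mem_nhds (by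
        simp only [mem_setOf_eq, sub_self, norm_zero]; positivity)
    have hlim : Tendsto (fun x : E3 => 6 * K * ‖x - P‖ ^ (1/4 : ℝ)) (𝓝 P) (𝓝 0) := by
      have h1 : Continuous (fun x : E3 => 6 * K * ‖x - P‖ ^ (1/4 : ℝ)) :=
        continuous_const.mul ((by fun_prop : Continuous fun x : E3 => ‖x - P‖).rpow_const
          fun _ => Or.inr (by norm_num))
      have h2 := h1.tendsto P
      simpa [Real.zero_rpow] using h2
    refine squeeze_zero' (Eventually.of_forall fun x => norm_nonneg _) ?_ hlim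
    filter_upwards [hnb2] with x hx
    have hx' : ‖x - P‖ < s1 / 2 := by
      have : ‖x - P‖ < s1 / 2 / 4 := hx
      linarith
    rw [(hgrad x hx').gradient, ← hFi]
    exact tay_hol hK hr htay hx

end Pool.Agent.R999.Ex
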