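import Pool.Agent.R999.FAf

/-!
# Solutions of the Thomas-Fermi equation are the unique minimisers
-/

set_option autoImplicit false

namespace Pool.Agent.R999.TFMin

open MeasureTheory Set Filter Topology Metric
open Pool.Agent.TH791.Cl Pool.Agent.R999.FAf
open scoped ENNReal

/-- Thomas-Fermi densities: nonnegative, in `L¹ ∩ L^{5/3}` -/
structure Dens (ρ : E3 → ℝ) : Prop where
  nonneg : ∀ x, 0 ≤ ρ x
  int : Integrable ρ
  int_pow : Integrable (fun x => ρ x ^ (5/3 : ℝ))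

/-- the Thomas-Fermi functional for the external potential `V` -/
noncomputable def energy (γ : ℝ) (V : E3 → ℝ) (ρ : E3 → ℝ) : ℝ :=
  3/5 * γ * (∫ x, ρ x ^ (5/3 : ℝ)) - (∫ x, V x * ρ x) + 1/2 * ∫ x, ∫ y, ρ x * ρ y / ‖x - y‖

lemma tangent_le {s a : ℝ} (hs : 0 ≤ s) (ha : 0 ≤ a) :
    3/5 * a ^ (5/3 : ℝ) + a ^ (2/3 : ℝ) * (s - a) ≤ 3/5 * s ^ (5/3 : ℝ) ∧
    (3/5 * a ^ (5/3 : ℝ) + a ^ (2/3 : ℝ) * (s - a) = 3/5 * s ^ (5/3 : ℝ) → s = a) := by
  rcases ha.eq_or_lt with h | h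
  · rw [← h, Real.zero_rpow (by norm_num), Real.zero_rpow (by norm_num)]
    refine ⟨by simp; positivity, fun h2 => ?_⟩
    by_contra hc
    have : 0 < s := lt_of_le_of_ne hs (Ne.symm hc)
    have h3 : 0 < s ^ (5/3 : ℝ) := by positivity
    simp at h2
    linarith
  · have key : s ≠ a → 3/5 * a ^ (5/3 : ℝ) + a ^ (2/3 : ℝ) * (s - a) < 3/5 * s ^ (5/3 : ℝ) := by
      intro hne
      have h1 := one_add_mul_self_lt_rpow_one_add (s := (s - a) / a) (p := 5/3)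
        (by rw [le_div_iff₀ h]; linarith)
        (by
          intro h0
          rw [div_eq_zero_iff] at h0
          rcases h0 with h0 | h0
          · exact hne (by linarith)
          · exact h.ne' h0) (by norm_num)
      have e1 : 1 + (s - a) / a = s / a := by field_simp; ring
      rw [e1, Real.div_rpow hs h.le, lt_div_iff₀ (by positivity)] at h1
      have e2 : a ^ (5/3 : ℝ) = a ^ (2/3 : ℝ) * a := by
        rw [show (5/3 : ℝ) = 2/3 + 1 by norm_num, Real.rpow_add h, Real.rpow_one]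
      have e3 : (1 + 5/3 * ((s - a) / a)) * a ^ (5/3 : ℝ) =
          a ^ (5/3 : ℝ) + 5/3 * (a ^ (2/3 : ℝ) * (s - a)) := by
        rw [e2]; field_simp
      rw [e3] at h1
      linarith
    by_cases hne : s = a
    · subst hne
      exact ⟨by simp, fun _ => rfl⟩
    · exact ⟨(key hne).le, fun h2 => absurd h2 (key hne).ne⟩

/-- pointwise minimisation -/
lemma point {γ s a W : ℝ} (hγ : 0 < γ) (hs : 0 ≤ s) (ha : 0 ≤ a)
    (hW : γ * a ^ (2/3 : ℝ) = max W 0) :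
    3/5 * γ * a ^ (5/3 : ℝ) - W * a ≤ 3/5 * γ * s ^ (5/3 : ℝ) - W * s ∧
    (3/5 * γ * a ^ (5/3 : ℝ) - W * a = 3/5 * γ * s ^ (5/3 : ℝ) - W * s → s = a) := by
  obtain ⟨t1, t2⟩ := tangent_le hs ha
  rcases le_or_gt W 0 with h | h
  · rw [max_eq_right h] at hW
    have ha0 : a = 0 := by
      by_contra hc
      have : 0 < a := lt_of_le_of_ne ha (Ne.symm hc)
      have : 0 < γ * a ^ (2/3 : ℝ) := by positivity
      linarith
    subst ha0
    rw [Real.zero_rpow (by norm_num)] at t1 t2 ⊢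
    rw [Real.zero_rpow (by norm_num)] at t1 t2
    have h3 : 0 ≤ s ^ (5/3 : ℝ) := by positivity
    have h4 : 0 ≤ 3/5 * γ * s ^ (5/3 : ℝ) := by positivity
    have h5 : W * s ≤ 0 := mul_nonpos_of_nonpos_of_nonneg h hs
    refine ⟨by linarith, fun h2 => t2 ?_⟩
    have h6 : 3/5 * γ * s ^ (5/3 : ℝ) = 0 := by linarith
    have h7 : s ^ (5/3 : ℝ) = 0 := by
      rcases mul_eq_zero.1 h6 with h8 | h8
      · exfalso; have : 0 < 3/5 * γ := by positivity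
        linarith
      · exact h8
    rw [h7]; ring
  · rw [max_eq_left h.le] at hW
    have e : 3/5 * γ * s ^ (5/3 : ℝ) - W * s - (3/5 * γ * a ^ (5/3 : ℝ) - W * a) =
        γ * (3/5 * s ^ (5/3 : ℝ) - (3/5 * a ^ (5/3 : ℝ) + a ^ (2/3 : ℝ) * (s - a))) := by
      rw [← hW]; ring
    have h1 : 0 ≤ γ * (3/5 * s ^ (5/3 : ℝ) - (3/5 * a ^ (5/3 : ℝ) + a ^ (2/3 : ℝ) * (s - a))) :=
      mul_nonneg hγ.le (by linarith)
    refine ⟨by linarith, fun h2 => t2 ?_⟩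
    have h3 : γ * (3/5 * s ^ (5/3 : ℝ) - (3/5 * a ^ (5/3 : ℝ) + a ^ (2/3 : ℝ) * (s - a))) = 0 := by
      linarith
    rcases mul_eq_zero.1 h3 with h4 | h4
    · exact absurd h4 hγ.ne'
    · linarith

lemma Dens.rep {ρ : E3 → ℝ} (h : Dens ρ) : ∃ g : E3 → ℝ, Nice g ∧ ρ =ᵐ[volume] g := by
  obtain ⟨g, hgm, hge⟩ : ∃ g : E3 → ℝ, Measurable g ∧ ρ =ᵐ[volume] g :=
    ⟨h.int.aestronglyMeasurable.mk ρ, h.int.aestronglyMeasurable.stronglyMeasurable_mk.measurable,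
      h.int.aestronglyMeasurable.ae_eq_mk⟩
  refine ⟨g, ⟨hgm, h.int.congr hge, h.int_pow.congr ?_⟩, hge⟩
  filter_upwards [hge] with x hx
  rw [← hx, abs_of_nonneg (h.nonneg x)]

lemma pot_congr {f g : E3 → ℝ} (h : f =ᵐ[volume] g) (x : E3) : pot f x = pot g x := by
  unfold pot
  refine integral_congr_ae ?_
  filter_upwards [h] with y hy
  rw [hy]

lemma Dens.pot_int {ρ σ : E3 → ℝ} (hρ : Dens ρ) (hσ : Dens σ) :
    Integrable (fun x => σ x * pot ρ x) := by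
  obtain ⟨g, hg, hge⟩ := hρ.rep
  obtain ⟨f, hf, hfe⟩ := hσ.rep
  refine (pd_int f g hf hg).congr ?_
  filter_upwards [hfe] with x hx
  rw [hx, pot_congr hge]

lemma Dens.dbl {ρ : E3 → ℝ} : ∫ x, ∫ y, ρ x * ρ y / ‖x - y‖ = ∫ x, ρ x * pot ρ x :=
  integral_congr_ae (ae_of_all _ fun x => pd_inner ρ ρ x)

lemma comb4 {f1 f2 f3 f4 F : E3 → ℝ} (i1 : Integrable f1) (i2 : Integrable f2) (i3 : Integrable f3)
    (i4 : Integrable f4) (h : ∀ x, F x = f1 x - f2 x + f3 x + f4 x) :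
    Integrable F ∧ ∫ x, F x = (∫ x, f1 x) - (∫ x, f2 x) + (∫ x, f3 x) + ∫ x, f4 x := by
  have j1 : Integrable (fun x => f1 x - f2 x) := i1.sub i2
  have j2 : Integrable (fun x => f1 x - f2 x + f3 x) := j1.add i3
  have j3 : Integrable (fun x => f1 x - f2 x + f3 x + f4 x) := j2.add i4
  have e : F = fun x => f1 x - f2 x + f3 x + f4 x := funext h
  rw [e]
  refine ⟨j3, ?_⟩
  rw [integral_add j2 i4, integral_add j1 i3, integral_sub i1 i2]

/-- **A solution of the Thomas-Fermi equation is the unique minimiser.** -/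
theorem tf_min {γ : ℝ} (hγ : 0 < γ) {V : E3 → ℝ} (hV : ∀ σ, Dens σ → Integrable fun x => V x * σ x)
    {ρ : E3 → ℝ} (hρ : Dens ρ) {μ : ℝ}
    (heq : ∀ᵐ x, γ * ρ x ^ (2/3 : ℝ) = max (V x - pot ρ x - μ) 0) {σ : E3 → ℝ} (hσ : Dens σ)
    (hm : ∫ x, σ x = ∫ x, ρ x) :
    energy γ V ρ ≤ energy γ V σ ∧ (energy γ V σ ≤ energy γ V ρ → σ =ᵐ[volume] ρ) := by
  obtain ⟨g, hg, hge⟩ := hρ.rep
  obtain ⟨d1, d2⟩ := dual_coulomb hσ.nonneg hσ.int hσ.int_pow hg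
  have e1 : (fun x => σ x * pot g x) = fun x => σ x * pot ρ x := by
    funext x; rw [pot_congr hge]
  have e2 : ∫ x, g x * pot g x = ∫ x, ρ x * pot ρ x := by
    refine integral_congr_ae ?_
    filter_upwards [hge] with x hx
    rw [← pot_congr hge, hx]
  rw [e1, e2] at d2
  have hρρ := Dens.dbl (ρ := ρ)
  have i1 := hσ.int_pow.const_mul (3/5 * γ)
  have i2 := hV σ hσ
  have i3 := hρ.pot_int hσ
  have j1 := hρ.int_pow.const_mul (3/5 * γ)
  have j2 := hV ρ hρ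
  have j3 := hρ.pot_int hρ
  obtain ⟨iσ, Iσ⟩ := comb4 (F := fun x => 3/5 * γ * σ x ^ (5/3 : ℝ) - (V x - pot ρ x - μ) * σ x)
    i1 i2 i3 (hσ.int.const_mul μ) (fun x => by ring)
  obtain ⟨iρ, Iρ⟩ := comb4 (F := fun x => 3/5 * γ * ρ x ^ (5/3 : ℝ) - (V x - pot ρ x - μ) * ρ x)
    j1 j2 j3 (hρ.int.const_mul μ) (fun x => by ring)
  rw [integral_const_mul, integral_const_mul] at Iσ Iρ
  have hpt : ∀ᵐ x, 3/5 * γ * ρ x ^ (5/3 : ℝ) - (V x - pot ρ x - μ) * ρ x ≤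
      3/5 * γ * σ x ^ (5/3 : ℝ) - (V x - pot ρ x - μ) * σ x := by
    filter_upwards [heq] with x hx
    exact (point hγ (hσ.nonneg x) (hρ.nonneg x) hx).1
  have hle := integral_mono_ae iρ iσ hpt
  rw [Iρ, Iσ, hm] at hle
  unfold energy
  rw [hρρ]
  refine ⟨by linarith, fun hE => ?_⟩
  have hge2 : ∫ x, (3/5 * γ * σ x ^ (5/3 : ℝ) - (V x - pot ρ x - μ) * σ x) ≤
      ∫ x, (3/5 * γ * ρ x ^ (5/3 : ℝ) - (V x - pot ρ x - μ) * ρ x) := by
    rw [Iρ, Iσ, hm]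
    linarith
  have h0 : ∫ x, ((3/5 * γ * σ x ^ (5/3 : ℝ) - (V x - pot ρ x - μ) * σ x) -
      (3/5 * γ * ρ x ^ (5/3 : ℝ) - (V x - pot ρ x - μ) * ρ x)) = 0 := by
    rw [integral_sub iσ iρ]
    have := integral_mono_ae iρ iσ hpt
    linarith
  have h1 := (integral_eq_zero_iff_of_nonneg_ae (by
    filter_upwards [hpt] with x hx
    exact sub_nonneg.2 hx) (iσ.sub iρ)).1 h0
  filter_upwards [h1, heq] with x hx hx2
  have hx' : (3/5 * γ * σ x ^ (5/3 : ℝ) - (V x - pot ρ x - μ) * σ x) -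
      (3/5 * γ * ρ x ^ (5/3 : ℝ) - (V x - pot ρ x - μ) * ρ x) = 0 := hx
  exact (point hγ (hσ.nonneg x) (hρ.nonneg x) hx2).2 (by linarith)

/-- The Thomas-Fermi density with electron number `lam`: the minimiser, normalised pointwise by the
Thomas-Fermi equation. -/
def IsTF (γ : ℝ) (V : E3 → ℝ) (lam : ℝ) (ρ : E3 → ℝ) : Prop :=
  Dens ρ ∧ ∫ x, ρ x = lam ∧ (∀ σ, Dens σ → ∫ x, σ x = lam → energy γ V ρ ≤ energy γ V σ) ∧
    ∃ μ : ℝ, 0 ≤ μ ∧ ∀ x, γ * ρ x ^ (2/3 : ℝ) = max (V x - pot ρ x - μ) 0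

/-- uniqueness, pointwise -/
theorem IsTF.unique {γ : ℝ} (hγ : 0 < γ) {V : E3 → ℝ}
    (hV : ∀ σ, Dens σ → Integrable fun x => V x * σ x) {lam : ℝ} (hlam : 0 < lam)
    {ρ σ : E3 → ℝ} (h1 : IsTF γ V lam ρ) (h2 : IsTF γ V lam σ) : ρ = σ := by
  obtain ⟨a1, a2, a3, μ, _, a5⟩ := h1
  obtain ⟨b1, b2, b3, ν, _, b5⟩ := h2
  have hae : σ =ᵐ[volume] ρ :=
    (tf_min hγ hV a1 (ae_of_all _ a5) b1 (by rw [a2, b2])).2 (b3 ρ a1 a2)
  have hpot : ∀ x, pot σ x = pot ρ x := fun x => pot_congr hae x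
  have hex : ∃ x, σ x = ρ x ∧ 0 < ρ x := by
    by_contra hc
    push Not at hc
    have h0 : ρ =ᵐ[volume] fun _ => 0 := by
      filter_upwards [hae] with x hx
      exact le_antisymm (hc x hx) (a1.nonneg x)
    have := integral_congr_ae h0
    rw [a2] at this
    simp at this
    linarith
  obtain ⟨x0, hx1, hx2⟩ := hex
  have p1 := a5 x0
  have p2 := b5 x0
  rw [hx1, hpot] at p2
  have hpos : 0 < γ * ρ x0 ^ (2/3 : ℝ) := by positivity
  have q1 : γ * ρ x0 ^ (2/3 : ℝ) = V x0 - pot ρ x0 - μ := by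
    rcases max_choice (V x0 - pot ρ x0 - μ) 0 with h | h
    · rw [p1, h]
    · rw [h] at p1; linarith
  have q2 : γ * ρ x0 ^ (2/3 : ℝ) = V x0 - pot ρ x0 - ν := by
    rcases max_choice (V x0 - pot ρ x0 - ν) 0 with h | h
    · rw [p2, h]
    · rw [h] at p2; linarith
  have hμν : μ = ν := by linarith
  funext x
  have r1 := a5 x
  have r2 := b5 x
  rw [hpot, ← hμν, ← r1] at r2
  have r3 : ρ x ^ (2/3 : ℝ) = σ x ^ (2/3 : ℝ) := by
    have := mul_left_cancel₀ hγ.ne' r2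
    exact this.symm
  exact Real.rpow_left_injOn (by norm_num : (2/3 : ℝ) ≠ 0) (a1.nonneg x) (b1.nonneg x) r3

end Pool.Agent.R999.TFMin
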