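import Pool.Agent.R999.MinP
import Pool.Agent.R999.TFMin

/-!
# Existence of Thomas-Fermi minimisers, part 1: estimates
-/

set_option autoImplicit false

namespace Pool.Agent.R999.Ex

open MeasureTheory Set Filter Topology Metric
open Pool.Agent.TH791.Cl Pool.Agent.TH791.Nw Pool.Agent.R999.Pot Pool.Agent.R999.MinP
open Pool.Agent.R999.Newton
open scoped ENNReal

variable {ι : Type*} [Fintype ι]

/-- measurable Thomas-Fermi densities -/
structure MD (ρ : E3 → ℝ) : Prop where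
  meas : Measurable ρ
  nonneg : ∀ x, 0 ≤ ρ x
  int : Integrable ρ
  int_pow : Integrable (fun x => ρ x ^ (5/3 : ℝ))

lemma MD.nice {ρ : E3 → ℝ} (h : MD ρ) : Nice ρ := by
  refine ⟨h.meas, h.int, ?_⟩
  have : (fun x => |ρ x| ^ (5/3 : ℝ)) = fun x => ρ x ^ (5/3 : ℝ) := by
    funext x; rw [abs_of_nonneg (h.nonneg x)]
  rw [this]; exact h.int_pow

lemma MD.dens {ρ : E3 → ℝ} (h : MD ρ) : TFMin.Dens ρ := ⟨h.nonneg, h.int, h.int_pow⟩

lemma Nice.md {ρ : E3 → ℝ} (h : Nice ρ) (h0 : ∀ x, 0 ≤ ρ x) : MD ρ := by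
  refine ⟨h.1, h0, h.2.1, ?_⟩
  have : (fun x => ρ x ^ (5/3 : ℝ)) = fun x => |ρ x| ^ (5/3 : ℝ) := by
    funext x; rw [abs_of_nonneg (h0 x)]
  rw [this]; exact h.2.2

lemma MD.zero : MD (fun _ => (0:ℝ)) := Nice.md nice_zero fun _ => le_rfl

lemma nice_of_le {f g : E3 → ℝ} (hf : Measurable f) (hg : Nice g) (h : ∀ x, |f x| ≤ |g x|) :
    Nice f := by
  refine ⟨hf, hg.2.1.mono hf.aestronglyMeasurable (ae_of_all _ fun x => h x), ?_⟩
  refine hg.2.2.mono (hf.norm.pow_const _).aestronglyMeasurable (ae_of_all _ fun x => ?_)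
  rw [Real.norm_of_nonneg (Real.rpow_nonneg (abs_nonneg _) _),
    Real.norm_of_nonneg (Real.rpow_nonneg (abs_nonneg _) _)]
  exact Real.rpow_le_rpow (abs_nonneg _) (h x) (by norm_num)

/-- `∫_{|u|<L} |u|^{-5/2} = 8π √L` -/
lemma ker_int {L : ℝ} (hL : 0 < L) :
    Integrable (fun x : E3 => (ball (0:E3) L).indicator (fun x => ‖x‖ ^ (-(5/2) : ℝ)) x) ∧
    ∫ x : E3, (ball (0:E3) L).indicator (fun x => ‖x‖ ^ (-(5/2) : ℝ)) x = 8 * Real.pi * √L := by
  have e : (fun x : E3 => (ball (0:E3) L).indicator (fun x => ‖x‖ ^ (-(5/2) : ℝ)) x) =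
      fun x : E3 => (fun t : ℝ => (Iio L).indicator (fun t => t ^ (-(5/2) : ℝ)) t) ‖x‖ := by
    funext x
    by_cases h : ‖x‖ < L
    · rw [indicator_of_mem (by simpa using h)]
      show _ = (Iio L).indicator (fun t => t ^ (-(5/2) : ℝ)) ‖x‖
      rw [indicator_of_mem (by simpa using h)]
    · rw [indicator_of_notMem (by simpa using h)]
      show _ = (Iio L).indicator (fun t => t ^ (-(5/2) : ℝ)) ‖x‖
      rw [indicator_of_notMem (by simpa using h)]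
  have e2 : ∀ t ∈ Ioi (0:ℝ), t ^ 2 * (Iio L).indicator (fun t => t ^ (-(5/2) : ℝ)) t =
      (Iio L).indicator (fun t => t ^ (-(1/2) : ℝ)) t := by
    intro t ht
    have ht0 : (0:ℝ) < t := ht
    by_cases h : t < L
    · rw [indicator_of_mem (by simpa using h), indicator_of_mem (by simpa using h),
        ← Real.rpow_natCast, ← Real.rpow_add ht0]
      norm_num
    · rw [indicator_of_notMem (by simpa using h), indicator_of_notMem (by simpa using h), mul_zero]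
  have hI : IntegrableOn (fun t : ℝ => t ^ (-(1/2) : ℝ)) (Ioo 0 L) :=
    (intervalIntegral.integrableOn_Ioo_rpow_iff hL).2 (by norm_num)
  rw [e]
  constructor
  · rw [integrable_radial, integrableOn_congr_fun e2 measurableSet_Ioi]
    rw [← integrable_indicator_iff measurableSet_Ioi, indicator_indicator, Ioi_inter_Iio,
      integrable_indicator_iff measurableSet_Ioo]
    exact hI
  · rw [int_radial, setIntegral_congr_fun measurableSet_Ioi e2]
    rw [setIntegral_indicator measurableSet_Iio, Ioi_inter_Iio, ← integral_Ioc_eq_integral_Ioo,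
      ← intervalIntegral.integral_of_le hL.le, integral_rpow (Or.inl (by norm_num))]
    rw [Real.zero_rpow (by norm_num), Real.sqrt_eq_rpow]
    norm_num
    ring

/-- the basic bound of Coulomb potentials -/
lemma kbound {h : E3 → ℝ} (hh : Nice h) {κ L : ℝ} (hκ : 0 < κ) (hL : 0 < L) (x : E3) :
    ∫ y, |h y| / ‖x - y‖ ≤ 3/5 * κ ^ (-(5/3) : ℝ) * (∫ y, |h y| ^ (5/3 : ℝ))
      + 2/5 * κ ^ (5/2 : ℝ) * (8 * Real.pi * √L) + 1 / L * ∫ y, |h y| := by
  obtain ⟨k1, k2⟩ := ker_int hL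
  set K : E3 → ℝ := (ball (0:E3) L).indicator (fun x => ‖x‖ ^ (-(5/2) : ℝ)) with hK
  have k1' : Integrable (fun y => K (x - y)) := k1.comp_sub_left x
  have k2' : ∫ y, K (x - y) = 8 * Real.pi * √L := by
    rw [← k2]; exact integral_sub_left_eq_self K volume x
  have i1 : Integrable (fun y => 3/5 * κ ^ (-(5/3) : ℝ) * |h y| ^ (5/3 : ℝ)) := hh.2.2.const_mul _
  have i2 : Integrable (fun y => 2/5 * κ ^ (5/2 : ℝ) * K (x - y)) := k1'.const_mul _
  have i3 : Integrable (fun y => 1 / L * |h y|) := hh.2.1.abs.const_mul _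
  have hle : ∀ y, |h y| / ‖x - y‖ ≤ 3/5 * κ ^ (-(5/3) : ℝ) * |h y| ^ (5/3 : ℝ) +
      2/5 * κ ^ (5/2 : ℝ) * K (x - y) + 1 / L * |h y| := by
    intro y
    have p1 : 0 ≤ 3/5 * κ ^ (-(5/3) : ℝ) * |h y| ^ (5/3 : ℝ) := by positivity
    have p3 : 0 ≤ 1 / L * |h y| := by positivity
    by_cases hb : ‖x - y‖ < L
    · have e : K (x - y) = ‖x - y‖ ^ (-(5/2) : ℝ) := by
        rw [hK, indicator_of_mem (by simpa using hb)]
      rw [e]
      have hq : Real.HolderConjugate (5/3) (5/2) := by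
        rw [Real.holderConjugate_iff]
        constructor <;> norm_num
      have hy := Real.young_inequality_of_nonneg (show 0 ≤ |h y| / κ by positivity)
        (show 0 ≤ κ * ‖x - y‖⁻¹ by positivity) hq
      rw [Real.div_rpow (abs_nonneg _) hκ.le, Real.mul_rpow hκ.le (by positivity),
        Real.inv_rpow (norm_nonneg _), ← Real.rpow_neg (norm_nonneg _)] at hy
      have e1 : |h y| / κ * (κ * ‖x - y‖⁻¹) = |h y| / ‖x - y‖ := by field_simp
      have e2 : κ ^ (-(5/3) : ℝ) = (κ ^ (5/3 : ℝ))⁻¹ := Real.rpow_neg hκ.le _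
      rw [e1] at hy
      rw [e2]
      have e3 : |h y| ^ (5/3 : ℝ) / κ ^ (5/3 : ℝ) / (5/3) =
          3/5 * (κ ^ (5/3 : ℝ))⁻¹ * |h y| ^ (5/3 : ℝ) := by
        rw [div_eq_mul_inv, div_eq_mul_inv]; ring
      rw [e3] at hy
      linarith
    · have e : K (x - y) = 0 := by
        rw [hK, indicator_of_notMem (by simpa using hb)]
      rw [e]
      have h1 : |h y| / ‖x - y‖ ≤ 1 / L * |h y| := by
        rw [div_eq_mul_one_div, mul_comm]
        exact mul_le_mul_of_nonneg_right (one_div_le_one_div_of_le hL (not_lt.1 hb)) (abs_nonneg _)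
      linarith
  obtain ⟨B, hB⟩ := nice_bound h hh
  have i0 : Integrable (fun y => |h y| / ‖x - y‖) := by
    refine ((hB x).1.abs).congr (ae_of_all _ fun y => ?_)
    show |h y / ‖x - y‖| = _
    rw [abs_div, abs_of_nonneg (norm_nonneg (x - y))]
  have i12 : Integrable (fun y => 3/5 * κ ^ (-(5/3) : ℝ) * |h y| ^ (5/3 : ℝ) +
      2/5 * κ ^ (5/2 : ℝ) * K (x - y)) := i1.add i2
  have i123 : Integrable (fun y => 3/5 * κ ^ (-(5/3) : ℝ) * |h y| ^ (5/3 : ℝ) +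
      2/5 * κ ^ (5/2 : ℝ) * K (x - y) + 1 / L * |h y|) := i12.add i3
  refine (integral_mono i0 i123 hle).trans (le_of_eq ?_)
  rw [integral_add i12 i3, integral_add i1 i2, integral_const_mul, integral_const_mul,
    integral_const_mul, k2']

/-- smallness of potentials: bounded mass, small `5/3`-norm -/
lemma small_pot (m ε : ℝ) (hm : 0 ≤ m) (hε : 0 < ε) : ∃ δ : ℝ, 0 < δ ∧ ∀ h : E3 → ℝ, Nice h →
    ∫ y, |h y| ≤ m → ∫ y, |h y| ^ (5/3 : ℝ) ≤ δ → ∀ x, ∫ y, |h y| / ‖x - y‖ ≤ ε := by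
  set L : ℝ := 3 * (m + 1) / ε with hL
  have hL0 : 0 < L := by positivity
  have hpi := Real.pi_pos
  set c : ℝ := ε / 3 / (2/5 * (8 * Real.pi * √L)) with hc
  have hc0 : 0 < c := by positivity
  set κ : ℝ := c ^ (2/5 : ℝ) with hκ
  have hκ0 : 0 < κ := by positivity
  have hκc : κ ^ (5/2 : ℝ) = c := by
    rw [hκ, ← Real.rpow_mul hc0.le]; norm_num
  refine ⟨ε / 3 / (3/5 * κ ^ (-(5/3) : ℝ)), by positivity, fun h hh h1 h2 x => ?_⟩
  refine (kbound hh hκ0 hL0 x).trans ?_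
  have a1 : 3/5 * κ ^ (-(5/3) : ℝ) * (∫ y, |h y| ^ (5/3 : ℝ)) ≤ ε / 3 := by
    have : 0 < 3/5 * κ ^ (-(5/3) : ℝ) := by positivity
    rw [le_div_iff₀ this] at h2
    linarith
  have a2 : 2/5 * κ ^ (5/2 : ℝ) * (8 * Real.pi * √L) = ε / 3 := by
    rw [hκc, hc]
    have : 0 < √L := by positivity
    field_simp
  have a3 : 1 / L * ∫ y, |h y| ≤ ε / 3 := by
    rw [hL, one_div_div, div_mul_eq_mul_div, div_le_div_iff₀ (by positivity) (by norm_num)]
    nlinarith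
  linarith

/-- smallness of potentials: small mass, bounded `5/3`-norm -/
lemma small_pot' (A ε : ℝ) (hA : 0 ≤ A) (hε : 0 < ε) : ∃ δ : ℝ, 0 < δ ∧ ∀ h : E3 → ℝ, Nice h →
    ∫ y, |h y| ≤ δ → ∫ y, |h y| ^ (5/3 : ℝ) ≤ A → ∀ x, ∫ y, |h y| / ‖x - y‖ ≤ ε := by
  have hpi := Real.pi_pos
  set c : ℝ := ε / 3 / (3/5 * (A + 1)) with hc
  have hc0 : 0 < c := by positivity
  set κ : ℝ := c ^ (-(3/5) : ℝ) with hκ
  have hκ0 : 0 < κ := by positivity
  have hκc : κ ^ (-(5/3) : ℝ) = c := by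
    rw [hκ, ← Real.rpow_mul hc0.le]; norm_num
  set L : ℝ := (ε / 3 / (2/5 * κ ^ (5/2 : ℝ) * (8 * Real.pi))) ^ 2 with hL
  have hL0 : 0 < L := by positivity
  have hsL : √L = ε / 3 / (2/5 * κ ^ (5/2 : ℝ) * (8 * Real.pi)) := by
    rw [hL, Real.sqrt_sq (by positivity)]
  refine ⟨ε / 3 * L, by positivity, fun h hh h1 h2 x => ?_⟩
  refine (kbound hh hκ0 hL0 x).trans ?_
  have a1 : 3/5 * κ ^ (-(5/3) : ℝ) * (∫ y, |h y| ^ (5/3 : ℝ)) ≤ ε / 3 := by
    rw [hκc]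
    have h3 : 3/5 * c * (∫ y, |h y| ^ (5/3 : ℝ)) ≤ 3/5 * c * (A + 1) :=
      mul_le_mul_of_nonneg_left (by linarith) (by positivity)
    refine h3.trans (le_of_eq ?_)
    rw [hc]; field_simp
  have a2 : 2/5 * κ ^ (5/2 : ℝ) * (8 * Real.pi * √L) = ε / 3 := by
    rw [hsL]
    have : 0 < κ ^ (5/2 : ℝ) := by positivity
    field_simp
  have a3 : 1 / L * ∫ y, |h y| ≤ ε / 3 := by
    rw [one_div, inv_mul_le_iff₀ hL0]; linarith
  linarith

/-- cube form of the strong convexity of `t ↦ t^{5/3}` -/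
lemma tang3 {p y c : ℝ} (hp : 0 ≤ p) (hy : 0 ≤ y) (hc : 0 < c) (hpc : p ≤ c) (hyc : y ≤ c) :
    1/6 * (p ^ 3 - y ^ 3) ^ 2 / c ≤ p ^ 5 - y ^ 5 - 5/3 * y ^ 2 * (p ^ 3 - y ^ 3) := by
  rw [div_le_iff₀ hc]
  have e1 : p ^ 5 - y ^ 5 - 5/3 * y ^ 2 * (p ^ 3 - y ^ 3) =
      1/3 * (p - y) ^ 2 * (3 * p ^ 3 + 6 * y * p ^ 2 + 4 * y ^ 2 * p + 2 * y ^ 3) := by ring
  have e2 : (p ^ 3 - y ^ 3) ^ 2 = (p - y) ^ 2 * (p ^ 2 + p * y + y ^ 2) ^ 2 := by ring
  rw [e1, e2]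
  have h1 : (p ^ 2 + p * y + y ^ 2) ^ 2 ≤ (p + y) ^ 4 := by
    have : p ^ 2 + p * y + y ^ 2 ≤ (p + y) ^ 2 := by nlinarith
    calc _ ≤ ((p + y) ^ 2) ^ 2 := pow_le_pow_left₀ (by positivity) this 2
      _ = _ := by ring
  have h2 : (p + y) ^ 4 ≤ 2 * (3 * p ^ 3 + 6 * y * p ^ 2 + 4 * y ^ 2 * p + 2 * y ^ 3) * c := by
    have a1 : (p + y) ^ 3 ≤ 3 * p ^ 3 + 6 * y * p ^ 2 + 4 * y ^ 2 * p + 2 * y ^ 3 := by
      have q1 : 0 ≤ p ^ 3 := by positivity
      have q2 : 0 ≤ y * p ^ 2 := by positivity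
      have q3 : 0 ≤ y ^ 2 * p := by positivity
      have q4 : 0 ≤ y ^ 3 := by positivity
      nlinarith
    have a2 : p + y ≤ 2 * c := by linarith
    calc (p + y) ^ 4 = (p + y) ^ 3 * (p + y) := by ring
      _ ≤ (3 * p ^ 3 + 6 * y * p ^ 2 + 4 * y ^ 2 * p + 2 * y ^ 3) * (2 * c) :=
          mul_le_mul a1 a2 (by positivity) (by positivity)
      _ = _ := by ring
  have h3 := mul_le_mul_of_nonneg_left (h1.trans h2) (sq_nonneg (p - y))
  nlinarith

lemma cube_root {a : ℝ} (ha : 0 ≤ a) : ∃ p : ℝ, 0 ≤ p ∧ a = p ^ 3 ∧ a ^ (5/3 : ℝ) = p ^ 5 ∧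
    a ^ (2/3 : ℝ) = p ^ 2 := by
  refine ⟨a ^ (1/3 : ℝ), by positivity, ?_, ?_, ?_⟩
  · rw [← Real.rpow_natCast, ← Real.rpow_mul ha]; norm_num
  · rw [← Real.rpow_natCast, ← Real.rpow_mul ha]; norm_num
  · rw [← Real.rpow_natCast, ← Real.rpow_mul ha]; norm_num

lemma pow53_cube {p : ℝ} (hp : 0 ≤ p) : (p ^ 3) ^ (5/3 : ℝ) = p ^ 5 := by
  rw [← Real.rpow_natCast p 3, ← Real.rpow_mul hp, ← Real.rpow_natCast p 5]
  norm_num

/-- the gap in the midpoint inequality controls the `5/3`-norm of the difference -/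
lemma gap53 {a b δ : ℝ} (ha : 0 ≤ a) (hb : 0 ≤ b) (hδ : 0 < δ) :
    |a - b| ^ (5/3 : ℝ) ≤ 24 / δ * (1/2 * a ^ (5/3 : ℝ) + 1/2 * b ^ (5/3 : ℝ) -
      ((a + b) / 2) ^ (5/3 : ℝ)) + δ ^ 5 * (a + b) ^ (5/3 : ℝ) := by
  obtain ⟨p, hp, ep, ep5, _⟩ := cube_root ha
  obtain ⟨q, hq, eq, eq5, _⟩ := cube_root hb
  obtain ⟨y, hy, ey, ey5, _⟩ := cube_root (show 0 ≤ (a + b) / 2 by positivity)
  obtain ⟨c, hc, ec, ec5, _⟩ := cube_root (show 0 ≤ a + b by positivity)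
  obtain ⟨v, hv, ev, ev5, _⟩ := cube_root (abs_nonneg (a - b))
  rw [ev5, ep5, eq5, ey5, ec5]
  rcases hc.eq_or_lt with h0 | h0
  · rw [← h0] at ec
    have : a = 0 := by nlinarith
    have hb0 : b = 0 := by nlinarith
    have hv0 : v = 0 := by
      have : v ^ 3 = 0 := by rw [← ev, this, hb0]; simp
      exact pow_eq_zero_iff (by norm_num) |>.1 this
    have hp0 : p = 0 := by
      have : p ^ 3 = 0 := by rw [← ep]; exact this
      exact pow_eq_zero_iff (by norm_num) |>.1 this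
    have hq0 : q = 0 := by
      have : q ^ 3 = 0 := by rw [← eq]; exact hb0
      exact pow_eq_zero_iff (by norm_num) |>.1 this
    have hy0 : y = 0 := by
      have : y ^ 3 = 0 := by rw [← ey, this, hb0]; simp
      exact pow_eq_zero_iff (by norm_num) |>.1 this
    rw [hv0, hp0, hq0, hy0, ← h0]; simp
  have hpc : p ≤ c := by
    refine le_of_pow_le_pow_left₀ (n := 3) (by norm_num) hc ?_
    rw [← ep, ← ec]; linarith
  have hqc : q ≤ c := by
    refine le_of_pow_le_pow_left₀ (n := 3) (by norm_num) hc ?_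
    rw [← eq, ← ec]; linarith
  have hyc : y ≤ c := by
    refine le_of_pow_le_pow_left₀ (n := 3) (by norm_num) hc ?_
    rw [← ey, ← ec]; linarith
  have t1 := tang3 hp hy h0 hpc hyc
  have t2 := tang3 hq hy h0 hqc hyc
  have e1 : p ^ 3 - y ^ 3 = (a - b) / 2 := by rw [← ep, ← ey]; ring
  have e2 : q ^ 3 - y ^ 3 = -((a - b) / 2) := by rw [← eq, ← ey]; ring
  rw [e1] at t1
  rw [e2] at t2
  set M := 1/2 * p ^ 5 + 1/2 * q ^ 5 - y ^ 5 with hM
  have hv6 : (a - b) ^ 2 = v ^ 6 := by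
    rw [← sq_abs, ev]; ring
  have h1 : 1/24 * v ^ 6 / c ≤ M := by
    have : 1/24 * v ^ 6 / c = 1/2 * (1/6 * ((a - b) / 2) ^ 2 / c) +
        1/2 * (1/6 * (-((a - b) / 2)) ^ 2 / c) := by
      rw [← hv6]; ring
    rw [this, hM]
    linarith
  have h2 : v ^ 6 / (δ * c) ≤ 24 / δ * M := by
    have := mul_le_mul_of_nonneg_left h1 (show 0 ≤ 24 / δ by positivity)
    refine le_trans (le_of_eq ?_) this
    field_simp
  rcases le_total (δ * c) v with h | h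
  · have h3 : v ^ 5 ≤ v ^ 6 / (δ * c) := by
      rw [le_div_iff₀ (by positivity)]
      calc v ^ 5 * (δ * c) ≤ v ^ 5 * v := mul_le_mul_of_nonneg_left h (by positivity)
        _ = v ^ 6 := by ring
    have h4 : 0 ≤ δ ^ 5 * c ^ 5 := by positivity
    linarith
  · have h3 : v ^ 5 ≤ δ ^ 5 * c ^ 5 := by
      rw [← mul_pow]; exact pow_le_pow_left₀ hv h 5
    have h4 : 0 ≤ v ^ 6 / (δ * c) := by positivity
    linarith

end Pool.Agent.R999.Ex
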