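import Pool.Agent.R999.Ex1

/-!
# Existence of Thomas-Fermi minimisers, part 2: energies and minimising sequences
-/

set_option autoImplicit false

namespace Pool.Agent.R999.Ex

open MeasureTheory Set Filter Topology Metric
open Pool.Agent.TH791.Cl Pool.Agent.TH791.Nw Pool.Agent.R999.Pot Pool.Agent.R999.MinP
open Pool.Agent.R999.Newton
open scoped ENNReal

variable {ι : Type*} [Fintype ι]

/-- the functional without nuclear repulsion -/
noncomputable def En (γ : ℝ) (z : ι → ℝ) (R : ι → E3) (ρ : E3 → ℝ) : ℝ :=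
  3/5 * γ * (∫ x, ρ x ^ (5/3 : ℝ)) - (∑ j, z j * pot ρ (R j)) + 1/2 * ∫ x, ρ x * pot ρ x

lemma Vn_mul_int {ρ : E3 → ℝ} (hρ : Nice ρ) (z : ι → ℝ) (R : ι → E3) :
    Integrable (fun x => Vn z R x * ρ x) ∧ ∫ x, Vn z R x * ρ x = ∑ j, z j * pot ρ (R j) := by
  obtain ⟨B, hB⟩ := nice_bound ρ hρ
  have e : (fun x => Vn z R x * ρ x) = fun x => ∑ j, z j * (ρ x / ‖R j - x‖) := by
    funext x
    unfold Vn
    rw [Finset.sum_mul]
    refine Finset.sum_congr rfl fun j _ => ?_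
    rw [norm_sub_rev]; ring
  rw [e]
  refine ⟨integrable_finsetSum _ fun j _ => (hB (R j)).1.const_mul _, ?_⟩
  rw [integral_finsetSum _ fun j _ => (hB (R j)).1.const_mul _]
  refine Finset.sum_congr rfl fun j _ => ?_
  rw [integral_const_mul]
  rfl

lemma energy_eq (γ : ℝ) (z : ι → ℝ) (R : ι → E3) {ρ : E3 → ℝ} (hρ : Nice ρ) :
    TFMin.energy γ (Vn z R) ρ = En γ z R ρ := by
  unfold TFMin.energy En
  rw [(Vn_mul_int hρ z R).2, TFMin.Dens.dbl]

lemma MD.avg {ρ σ : E3 → ℝ} (h1 : MD ρ) (h2 : MD σ) : MD (fun x => (ρ x + σ x) / 2) := by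
  have : Nice (fun x => 1/2 * (ρ x + σ x)) := nice_mul _ (nice_add h1.nice h2.nice)
  have e : (fun x => (ρ x + σ x) / 2) = fun x => 1/2 * (ρ x + σ x) := by funext x; ring
  rw [e]
  exact Nice.md this fun x => by have := h1.nonneg x; have := h2.nonneg x; positivity

lemma nice_sub {f g : E3 → ℝ} (hf : Nice f) (hg : Nice g) : Nice (fun x => f x - g x) :=
  pd_nice f g hf hg

lemma coul_add {f g : E3 → ℝ} (hf : Nice f) (hg : Nice g) :
    ∫ x, (f x + g x) * pot (fun y => f y + g y) x =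
      (∫ x, f x * pot f x) + 2 * (∫ x, f x * pot g x) + ∫ x, g x * pot g x := by
  have i1 := pd_int f f hf hf
  have i2 := pd_int f g hf hg
  have i3 := pd_int g f hg hf
  have i4 := pd_int g g hg hg
  have sw : ∫ x, g x * pot f x = ∫ x, f x * pot g x := pd_swap g f hg hf
  have e : (fun x => (f x + g x) * pot (fun y => f y + g y) x) =
      fun x => (f x * pot f x + f x * pot g x) + (g x * pot f x + g x * pot g x) := by
    funext x; rw [pot_add hf hg]; ring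
  have j1 : Integrable (fun x => f x * pot f x + f x * pot g x) := i1.add i2
  have j2 : Integrable (fun x => g x * pot f x + g x * pot g x) := i3.add i4
  rw [e, integral_add j1 j2, integral_add i1 i2, integral_add i3 i4, sw]
  ring

lemma coul_mul (c : ℝ) (f : E3 → ℝ) :
    ∫ x, (c * f x) * pot (fun y => c * f y) x = c ^ 2 * ∫ x, f x * pot f x := by
  rw [← integral_const_mul]
  congr 1
  funext x
  rw [pot_mul]
  ring

lemma coul_nonneg {f : E3 → ℝ} (hf : Nice f) : 0 ≤ ∫ x, f x * pot f x := by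
  have h := coulomb_pd f hf
  have e : ∫ x, ∫ y, f x * f y / ‖x - y‖ = ∫ x, f x * pot f x :=
    integral_congr_ae (ae_of_all _ fun x => pd_inner f f x)
  rwa [e] at h

lemma coul_sub {f g : E3 → ℝ} (hf : Nice f) (hg : Nice g) :
    ∫ x, (f x - g x) * pot (fun y => f y - g y) x =
      (∫ x, f x * pot f x) - 2 * (∫ x, f x * pot g x) + ∫ x, g x * pot g x := by
  have h := coul_add hf (nice_neg hg)
  have e1 : (fun x => (f x + -g x) * pot (fun y => f y + -g y) x) =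
      fun x => (f x - g x) * pot (fun y => f y - g y) x := by
    funext x
    simp only [sub_eq_add_neg]
  have e2 : ∫ x, f x * pot (fun y => -g y) x = -∫ x, f x * pot g x := by
    rw [← integral_neg]
    congr 1; funext x; rw [pot_neg]; ring
  have e3 : ∫ x, -g x * pot (fun y => -g y) x = ∫ x, g x * pot g x := by
    congr 1; funext x; rw [pot_neg]; ring
  rw [e1, e2, e3] at h
  rw [h]; ring

/-- midpoint inequality -/
lemma mid {γ : ℝ} (z : ι → ℝ) (R : ι → E3) {ρ σ : E3 → ℝ} (h1 : MD ρ) (h2 : MD σ) :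
    3/5 * γ * (1/2 * (∫ x, ρ x ^ (5/3 : ℝ)) + 1/2 * (∫ x, σ x ^ (5/3 : ℝ)) -
      ∫ x, ((ρ x + σ x) / 2) ^ (5/3 : ℝ)) ≤
    1/2 * En γ z R ρ + 1/2 * En γ z R σ - En γ z R (fun x => (ρ x + σ x) / 2) := by
  have e : (fun x => (ρ x + σ x) / 2) = fun x => 1/2 * (ρ x + σ x) := by funext x; ring
  have p1 : ∀ x, pot (fun x => (ρ x + σ x) / 2) x = 1/2 * pot ρ x + 1/2 * pot σ x := by
    intro x
    rw [e, pot_mul, pot_add h1.nice h2.nice]; ring
  have d1 : ∫ x, (ρ x + σ x) / 2 * pot (fun x => (ρ x + σ x) / 2) x =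
      1/4 * ((∫ x, ρ x * pot ρ x) + 2 * (∫ x, ρ x * pot σ x) + ∫ x, σ x * pot σ x) := by
    rw [← coul_add h1.nice h2.nice]
    have := coul_mul (1/2) (fun x => ρ x + σ x)
    rw [← e] at this
    have e' : (fun x => (ρ x + σ x) / 2 * pot (fun x => (ρ x + σ x) / 2) x) =
        fun x => 1/2 * (ρ x + σ x) * pot (fun x => (ρ x + σ x) / 2) x := by
      funext x; ring
    rw [e', this]
    norm_num
  have d2 := coul_nonneg (nice_sub h1.nice h2.nice)
  rw [coul_sub h1.nice h2.nice] at d2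
  have s1 : ∑ j, z j * pot (fun x => (ρ x + σ x) / 2) (R j) =
      1/2 * (∑ j, z j * pot ρ (R j)) + 1/2 * ∑ j, z j * pot σ (R j) := by
    rw [Finset.mul_sum, Finset.mul_sum, ← Finset.sum_add_distrib]
    refine Finset.sum_congr rfl fun j _ => ?_
    rw [p1]; ring
  unfold En
  rw [s1, d1]
  linarith

/-- coercivity -/
lemma coercive {γ : ℝ} (hγ : 0 < γ) {z : ι → ℝ} (hz : ∀ j, 0 ≤ z j) (R : ι → E3) {m : ℝ} :
    ∃ C : ℝ, 0 ≤ C ∧ ∀ ρ : E3 → ℝ, MD ρ → ∫ x, ρ x ≤ m →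
      3/10 * γ * (∫ x, ρ x ^ (5/3 : ℝ)) - C ≤ En γ z R ρ := by
  have hpi := Real.pi_pos
  set Z : ℝ := ∑ j, z j with hZ
  have hZ0 : 0 ≤ Z := Finset.sum_nonneg fun j _ => hz j
  set c : ℝ := (3/10 * γ) / (3/5 * (Z + 1)) with hc
  have hc0 : 0 < c := by positivity
  set κ : ℝ := c ^ (-(3/5) : ℝ) with hκ
  have hκ0 : 0 < κ := by positivity
  have hκc : κ ^ (-(5/3) : ℝ) = c := by
    rw [hκ, ← Real.rpow_mul hc0.le]; norm_num
  set D : ℝ := 2/5 * κ ^ (5/2 : ℝ) * (8 * Real.pi * √1) with hD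
  have hD0 : 0 ≤ D := by positivity
  refine ⟨Z * (D + |m|), by positivity, fun ρ hρ hm => ?_⟩
  have hA0 : 0 ≤ ∫ x, ρ x ^ (5/3 : ℝ) := integral_nonneg fun x => Real.rpow_nonneg (hρ.nonneg x) _
  have hpot : ∀ x, pot ρ x ≤ 3/5 * c * (∫ x, ρ x ^ (5/3 : ℝ)) + D + |m| := by
    intro x
    have h1 := kbound hρ.nice hκ0 one_pos x
    have h2 := (le_abs_self _).trans (pot_le_abs hρ.nice x)
    have e1 : ∫ y, |ρ y| ^ (5/3 : ℝ) = ∫ y, ρ y ^ (5/3 : ℝ) := by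
      congr 1; funext y; rw [abs_of_nonneg (hρ.nonneg y)]
    have e2 : ∫ y, |ρ y| = ∫ y, ρ y := by
      congr 1; funext y; rw [abs_of_nonneg (hρ.nonneg y)]
    rw [hκc, e1, e2] at h1
    have := le_abs_self m
    linarith
  have hs : ∑ j, z j * pot ρ (R j) ≤ Z * (3/5 * c * (∫ x, ρ x ^ (5/3 : ℝ)) + D + |m|) := by
    rw [hZ, Finset.sum_mul]
    exact Finset.sum_le_sum fun j _ => mul_le_mul_of_nonneg_left (hpot _) (hz j)
  have hc2 : Z * (3/5 * c) ≤ 3/10 * γ := by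
    rw [hc]
    have : Z * (3/5 * ((3/10 * γ) / (3/5 * (Z + 1)))) = 3/10 * γ * (Z / (Z + 1)) := by
      field_simp
    rw [this]
    have h1 : Z / (Z + 1) ≤ 1 := (div_le_one (by positivity)).2 (by linarith)
    nlinarith
  have h3 := mul_le_mul_of_nonneg_right hc2 hA0
  have h4 := coul_nonneg hρ.nice
  unfold En
  nlinarith

lemma en_zero (γ : ℝ) (z : ι → ℝ) (R : ι → E3) : En γ z R (fun _ => 0) = 0 := by
  unfold En
  have h1 : ∀ x : E3, pot (fun _ => (0:ℝ)) x = 0 := by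
    intro x; unfold pot; simp
  simp only [h1]
  have : ((0:ℝ)) ^ (5/3 : ℝ) = 0 := Real.zero_rpow (by norm_num)
  simp [this]

/-- values on the constraint set -/
def vals (γ : ℝ) (z : ι → ℝ) (R : ι → E3) (m : ℝ) : Set ℝ :=
  {e | ∃ ρ, MD ρ ∧ ∫ x, ρ x ≤ m ∧ En γ z R ρ = e}

lemma vals_bdd {γ : ℝ} (hγ : 0 < γ) {z : ι → ℝ} (hz : ∀ j, 0 ≤ z j) (R : ι → E3) (m : ℝ) :
    BddBelow (vals γ z R m) := by
  obtain ⟨C, hC, h⟩ := coercive hγ hz R (m := m)
  refine ⟨-C, ?_⟩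
  rintro e ⟨ρ, h1, h2, rfl⟩
  have h3 := h ρ h1 h2
  have h4 : 0 ≤ 3/10 * γ * ∫ x, ρ x ^ (5/3 : ℝ) := by
    have : 0 ≤ ∫ x, ρ x ^ (5/3 : ℝ) := integral_nonneg fun x => Real.rpow_nonneg (h1.nonneg x) _
    positivity
  linarith

lemma vals_ne (γ : ℝ) (z : ι → ℝ) (R : ι → E3) {m : ℝ} (hm : 0 ≤ m) : (vals γ z R m).Nonempty :=
  ⟨0, fun _ => 0, MD.zero, by simpa using hm, en_zero γ z R⟩

/-- near-minimisers are close to each other -/
lemma near {γ : ℝ} (hγ : 0 < γ) {z : ι → ℝ} (hz : ∀ j, 0 ≤ z j) (R : ι → E3) {m : ℝ} {ε : ℝ}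
    (hε : 0 < ε) : ∃ δ : ℝ, 0 < δ ∧ ∀ ρ σ : E3 → ℝ, MD ρ → MD σ → ∫ x, ρ x ≤ m → ∫ x, σ x ≤ m →
      En γ z R ρ ≤ sInf (vals γ z R m) + δ → En γ z R σ ≤ sInf (vals γ z R m) + δ →
      ∫ x, |ρ x - σ x| ^ (5/3 : ℝ) ≤ ε := by
  obtain ⟨C, hC, hco⟩ := coercive hγ hz R (m := m)
  set I := sInf (vals γ z R m) with hI
  set A : ℝ := (|I| + 1 + C) / (3/10 * γ) with hA
  have hA0 : 0 ≤ A := by positivity
  -- the tuning parameter
  set t : ℝ := (ε / (2 * (8 * A + 1))) ^ (1/5 : ℝ) with ht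
  have hq0 : 0 < ε / (2 * (8 * A + 1)) := by positivity
  have ht0 : 0 < t := by positivity
  have ht5 : t ^ 5 = ε / (2 * (8 * A + 1)) := by
    rw [ht, ← Real.rpow_natCast, ← Real.rpow_mul hq0.le]; norm_num
  refine ⟨min 1 (ε / 2 * (3/5 * γ) * t / 24), by positivity, ?_⟩
  intro ρ σ h1 h2 m1 m2 e1 e2
  have hd1 : min 1 (ε / 2 * (3/5 * γ) * t / 24) ≤ 1 := min_le_left _ _
  have hd2 : min 1 (ε / 2 * (3/5 * γ) * t / 24) ≤ ε / 2 * (3/5 * γ) * t / 24 := min_le_right _ _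
  have hbound : ∀ τ : E3 → ℝ, MD τ → ∫ x, τ x ≤ m →
      En γ z R τ ≤ I + min 1 (ε / 2 * (3/5 * γ) * t / 24) → ∫ x, τ x ^ (5/3 : ℝ) ≤ A := by
    intro τ hτ hm hE
    have h3 := hco τ hτ hm
    rw [hA, le_div_iff₀ (by positivity)]
    have := le_abs_self I
    linarith
  have b1 := hbound ρ h1 m1 e1
  have b2 := hbound σ h2 m2 e2
  have hmid := mid (γ := γ) z R h1 h2
  have havg := h1.avg h2
  have hI2 : I ≤ En γ z R (fun x => (ρ x + σ x) / 2) := by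
    refine csInf_le (vals_bdd hγ hz R m) ⟨_, havg, ?_, rfl⟩
    have : ∫ x, (ρ x + σ x) / 2 = ((∫ x, ρ x) + ∫ x, σ x) / 2 := by
      rw [← integral_add h1.int h2.int, integral_div]
    rw [this]; linarith
  set G : ℝ := 1/2 * (∫ x, ρ x ^ (5/3 : ℝ)) + 1/2 * (∫ x, σ x ^ (5/3 : ℝ)) -
      ∫ x, ((ρ x + σ x) / 2) ^ (5/3 : ℝ) with hG
  have hGle : 3/5 * γ * G ≤ ε / 2 * (3/5 * γ) * t / 24 := by linarith
  have hGle' : 24 / t * G ≤ ε / 2 := by
    have h5 : G ≤ ε / 2 * t / 24 := by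
      have : 3/5 * γ * G ≤ 3/5 * γ * (ε / 2 * t / 24) := by linarith
      exact le_of_mul_le_mul_left this (by positivity)
    have := mul_le_mul_of_nonneg_left h5 (show 0 ≤ 24 / t by positivity)
    refine this.trans (le_of_eq ?_)
    field_simp
  -- pointwise sum bound
  have hsum : ∀ x, (ρ x + σ x) ^ (5/3 : ℝ) ≤ 4 * (ρ x ^ (5/3 : ℝ) + σ x ^ (5/3 : ℝ)) := by
    intro x
    have a := h1.nonneg x
    have b := h2.nonneg x
    have h6 : (ρ x + σ x) ^ (5/3 : ℝ) ≤ (2 * max (ρ x) (σ x)) ^ (5/3 : ℝ) := by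
      refine Real.rpow_le_rpow (by positivity) ?_ (by norm_num)
      rcases le_total (ρ x) (σ x) with h | h
      · rw [max_eq_right h]; linarith
      · rw [max_eq_left h]; linarith
    have h7 : (2 * max (ρ x) (σ x)) ^ (5/3 : ℝ) ≤ 4 * max (ρ x) (σ x) ^ (5/3 : ℝ) := by
      rw [Real.mul_rpow (by norm_num) (le_max_of_le_left a)]
      have : (2:ℝ) ^ (5/3 : ℝ) ≤ 4 := by
        calc (2:ℝ) ^ (5/3 : ℝ) ≤ 2 ^ (2:ℝ) := Real.rpow_le_rpow_of_exponent_le (by norm_num) (by norm_num)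
          _ = 4 := by norm_num
      exact mul_le_mul_of_nonneg_right this (Real.rpow_nonneg (le_max_of_le_left a) _)
    have h8 : max (ρ x) (σ x) ^ (5/3 : ℝ) ≤ ρ x ^ (5/3 : ℝ) + σ x ^ (5/3 : ℝ) := by
      rcases le_total (ρ x) (σ x) with h | h
      · rw [max_eq_right h]; have := Real.rpow_nonneg a (5/3 : ℝ); linarith
      · rw [max_eq_left h]; have := Real.rpow_nonneg b (5/3 : ℝ); linarith
    linarith
  have isum : Integrable (fun x => (ρ x + σ x) ^ (5/3 : ℝ)) :=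
    (Nice.md (nice_add h1.nice h2.nice) fun x => add_nonneg (h1.nonneg x) (h2.nonneg x)).int_pow
  have hS : ∫ x, (ρ x + σ x) ^ (5/3 : ℝ) ≤ 8 * A := by
    have : ∫ x, (ρ x + σ x) ^ (5/3 : ℝ) ≤ ∫ x, 4 * (ρ x ^ (5/3 : ℝ) + σ x ^ (5/3 : ℝ)) :=
      integral_mono isum ((h1.int_pow.add h2.int_pow).const_mul 4) hsum
    rw [integral_const_mul, integral_add h1.int_pow h2.int_pow] at this
    linarith
  have igap : Integrable (fun x => 1/2 * ρ x ^ (5/3 : ℝ) + 1/2 * σ x ^ (5/3 : ℝ) -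
      ((ρ x + σ x) / 2) ^ (5/3 : ℝ)) :=
    ((h1.int_pow.const_mul _).add (h2.int_pow.const_mul _)).sub havg.int_pow
  have vgap : ∫ x, (1/2 * ρ x ^ (5/3 : ℝ) + 1/2 * σ x ^ (5/3 : ℝ) -
      ((ρ x + σ x) / 2) ^ (5/3 : ℝ)) = G := by
    have j : Integrable (fun x => 1/2 * ρ x ^ (5/3 : ℝ) + 1/2 * σ x ^ (5/3 : ℝ)) :=
      (h1.int_pow.const_mul _).add (h2.int_pow.const_mul _)
    rw [integral_sub j havg.int_pow, integral_add (h1.int_pow.const_mul _)
      (h2.int_pow.const_mul _), integral_const_mul, integral_const_mul]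
  have hfin : ∫ x, |ρ x - σ x| ^ (5/3 : ℝ) ≤ 24 / t * G + t ^ 5 * ∫ x, (ρ x + σ x) ^ (5/3 : ℝ) := by
    rw [← vgap, ← integral_const_mul, ← integral_const_mul, ← integral_add (igap.const_mul _)
      (isum.const_mul _)]
    exact integral_mono (nice_sub h1.nice h2.nice).2.2 ((igap.const_mul _).add (isum.const_mul _))
      fun x => gap53 (h1.nonneg x) (h2.nonneg x) ht0
  have hlast : t ^ 5 * ∫ x, (ρ x + σ x) ^ (5/3 : ℝ) ≤ ε / 2 := by
    have h9 : t ^ 5 * ∫ x, (ρ x + σ x) ^ (5/3 : ℝ) ≤ t ^ 5 * (8 * A + 1) :=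
      mul_le_mul_of_nonneg_left (by linarith) (by positivity)
    refine h9.trans (le_of_eq ?_)
    rw [ht5]; field_simp
  linarith

end Pool.Agent.R999.Ex
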