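import Pool.Agent.R999.Ex2

/-!
# Existence of Thomas-Fermi minimisers, part 3: the limit
-/

set_option autoImplicit false

namespace Pool.Agent.R999.Ex

open MeasureTheory Set Filter Topology Metric
open Pool.Agent.TH791.Cl Pool.Agent.TH791.Nw Pool.Agent.R999.Pot Pool.Agent.R999.MinP
open Pool.Agent.R999.Newton
open scoped ENNReal

variable {ι : Type*} [Fintype ι]

lemma nice_memLp {g : E3 → ℝ} (hg : Nice g) : MemLp g (5/3) volume := by
  have h1 : ((5/3 : ℝ≥0∞)).toReal = 5/3 := by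
    rw [ENNReal.toReal_div]; norm_num
  have := (integrable_norm_rpow_iff (f := g) (μ := volume) (p := (5/3 : ℝ≥0∞))
    hg.1.aestronglyMeasurable (by simp) (by
      refine (ENNReal.div_lt_top (by simp) (by simp)).ne)).1 (by
      rw [h1]; exact hg.2.2)
  exact this

lemma eLp_eq {g : E3 → ℝ} (hg : MemLp g (5/3) volume) :
    eLpNorm g (5/3) volume = ENNReal.ofReal ((∫ x, |g x| ^ (5/3 : ℝ)) ^ (3/5 : ℝ)) := by
  have h1 : ((5/3 : ℝ≥0∞)).toReal = 5/3 := by
    rw [ENNReal.toReal_div]; norm_num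
  rw [hg.eLpNorm_eq_integral_rpow_norm (by simp)
    ((ENNReal.div_lt_top (by simp) (by simp)).ne), h1]
  norm_num

/-- completeness -/
lemma complete {f : ℕ → E3 → ℝ} (hf : ∀ n, MD (f n)) {m : ℝ} (hm : ∀ n, ∫ x, f n x ≤ m)
    (hc : ∀ N n k : ℕ, N ≤ n → N ≤ k →
      ∫ x, |f n x - f k x| ^ (5/3 : ℝ) ≤ ((1/2 : ℝ) ^ (N + 1)) ^ (5/3 : ℝ)) :
    ∃ g, MD g ∧ ∫ x, g x ≤ m ∧
      Tendsto (fun n => ∫ x, |f n x - g x| ^ (5/3 : ℝ)) atTop (𝓝 0) := by
  have hB : ∑' i : ℕ, ((2:ℝ≥0∞)⁻¹) ^ i ≠ ∞ := by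
    rw [ENNReal.tsum_geometric, ENNReal.one_sub_inv_two, inv_inv]
    exact ENNReal.ofNat_ne_top
  have hcau : ∀ N n k : ℕ, N ≤ n → N ≤ k → eLpNorm (f n - f k) (5/3) volume < ((2:ℝ≥0∞)⁻¹) ^ N := by
    intro N n k hn hk
    have hN : Nice (fun x => f n x - f k x) := nice_sub (hf n).nice (hf k).nice
    have e : f n - f k = fun x => f n x - f k x := rfl
    rw [e, eLp_eq (nice_memLp hN)]
    have h1 := hc N n k hn hk
    have h2 : (∫ x, |f n x - f k x| ^ (5/3 : ℝ)) ^ (3/5 : ℝ) ≤ (1/2 : ℝ) ^ (N + 1) := by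
      have h0 : 0 ≤ ∫ x, |f n x - f k x| ^ (5/3 : ℝ) :=
        integral_nonneg fun x => Real.rpow_nonneg (abs_nonneg _) _
      calc _ ≤ (((1/2 : ℝ) ^ (N + 1)) ^ (5/3 : ℝ)) ^ (3/5 : ℝ) :=
            Real.rpow_le_rpow h0 h1 (by norm_num)
        _ = (1/2 : ℝ) ^ (N + 1) := by
            rw [← Real.rpow_mul (by positivity)]; norm_num
    have h3 : ((2:ℝ≥0∞)⁻¹) ^ N = ENNReal.ofReal ((1/2 : ℝ) ^ N) := by
      rw [ENNReal.ofReal_pow (by norm_num)]
      congr 1
      rw [one_div, ENNReal.ofReal_inv_of_pos (by norm_num)]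
      norm_num
    rw [h3]
    refine (ENNReal.ofReal_lt_ofReal_iff (by positivity)).2 (lt_of_le_of_lt h2 ?_)
    exact pow_lt_pow_right_of_lt_one₀ (by norm_num) (by norm_num) (Nat.lt_succ_self N)
  have hmeas : ∀ n, AEStronglyMeasurable (f n) volume := fun n => (hf n).meas.aestronglyMeasurable
  have hmem : ∀ n, MemLp (f n) (5/3) volume := fun n => nice_memLp (hf n).nice
  have hp : (1:ℝ≥0∞) ≤ 5/3 := by
    rw [ENNReal.le_div_iff_mul_le (by simp) (by simp)]
    norm_num
  obtain ⟨F, hFm, hlim⟩ := exists_stronglyMeasurable_limit_of_tendsto_ae hmeas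
    (Lp.ae_tendsto_of_cauchy_eLpNorm hmeas hp hB hcau)
  have ht := Lp.cauchy_tendsto_of_tendsto hmeas F hB hcau hlim
  have hFL := Lp.memLp_of_cauchy_tendsto hp hmem F hFm.aestronglyMeasurable ht
  set g : E3 → ℝ := fun x => max (F x) 0 with hg
  have hgF : g =ᵐ[volume] F := by
    filter_upwards [hlim] with x hx
    have : 0 ≤ F x := ge_of_tendsto hx (Eventually.of_forall fun n => (hf n).nonneg x)
    simp [hg, this]
  have hgm : Measurable g := hFm.measurable.max measurable_const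
  have hg0 : ∀ x, 0 ≤ g x := fun x => le_max_right _ _
  -- mass
  have h1 : eLpNorm F 1 volume ≤ ENNReal.ofReal m := by
    have h2 := Lp.eLpNorm_lim_le_liminf_eLpNorm (p := 1) hmeas F hlim
    refine h2.trans ?_
    refine liminf_le_of_frequently_le' (Eventually.frequently (Eventually.of_forall fun n => ?_))
    rw [eLpNorm_one_eq_lintegral_enorm, ← ofReal_integral_norm_eq_lintegral_enorm (hf n).int]
    refine ENNReal.ofReal_le_ofReal ?_
    refine le_trans (le_of_eq ?_) (hm n)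
    congr 1
    funext x
    rw [Real.norm_of_nonneg ((hf n).nonneg x)]
  have hm0 : 0 ≤ m := le_trans (integral_nonneg fun x => (hf 0).nonneg x) (hm 0)
  have hFi : Integrable F := by
    rw [← memLp_one_iff_integrable]
    exact ⟨hFm.aestronglyMeasurable, lt_of_le_of_lt h1 ENNReal.ofReal_lt_top⟩
  have hgi : Integrable g := hFi.congr hgF.symm
  have hgmass : ∫ x, g x ≤ m := by
    rw [eLpNorm_one_eq_lintegral_enorm, ← ofReal_integral_norm_eq_lintegral_enorm hFi] at h1
    have h3 := (ENNReal.ofReal_le_ofReal_iff hm0).1 h1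
    refine le_trans (le_of_eq ?_) h3
    refine integral_congr_ae ?_
    filter_upwards [hgF] with x hx
    rw [← hx, Real.norm_of_nonneg (hg0 x)]
  have hgp : Integrable (fun x => g x ^ (5/3 : ℝ)) := by
    have h2 := hFL.integrable_norm_rpow (by simp)
      ((ENNReal.div_lt_top (by simp) (by simp)).ne)
    have h4 : ((5/3 : ℝ≥0∞)).toReal = 5/3 := by
      rw [ENNReal.toReal_div]; norm_num
    rw [h4] at h2
    refine h2.congr ?_
    filter_upwards [hgF] with x hx
    rw [← hx, Real.norm_of_nonneg (hg0 x)]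
  refine ⟨g, ⟨hgm, hg0, hgi, hgp⟩, hgmass, ?_⟩
  have hgN : Nice g := (MD.mk hgm hg0 hgi hgp).nice
  -- convergence of the integrals
  have h5 : ∀ n, eLpNorm (f n - F) (5/3) volume =
      ENNReal.ofReal ((∫ x, |f n x - g x| ^ (5/3 : ℝ)) ^ (3/5 : ℝ)) := by
    intro n
    rw [← eLp_eq (nice_memLp (nice_sub (hf n).nice hgN))]
    refine eLpNorm_congr_ae ?_
    filter_upwards [hgF] with x hx
    simp [hx]
  have h6 : Tendsto (fun n => (∫ x, |f n x - g x| ^ (5/3 : ℝ)) ^ (3/5 : ℝ)) atTop (𝓝 0) := by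
    have h7 := (ENNReal.tendsto_toReal (ENNReal.zero_ne_top)).comp ht
    simp only [Function.comp_def, h5, ENNReal.toReal_zero] at h7
    refine h7.congr fun n => ?_
    rw [ENNReal.toReal_ofReal]
    exact Real.rpow_nonneg (integral_nonneg fun x => Real.rpow_nonneg (abs_nonneg _) _) _
  have h8 : Tendsto (fun n => ((∫ x, |f n x - g x| ^ (5/3 : ℝ)) ^ (3/5 : ℝ)) ^ (5/3 : ℝ)) atTop
      (𝓝 ((0:ℝ) ^ (5/3 : ℝ))) := h6.rpow_const (Or.inr (by norm_num))
  rw [Real.zero_rpow (by norm_num)] at h8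
  refine h8.congr fun n => ?_
  rw [← Real.rpow_mul (integral_nonneg fun x => Real.rpow_nonneg (abs_nonneg _) _)]
  norm_num

/-- **existence of minimisers** -/
theorem exists_min {γ : ℝ} (hγ : 0 < γ) {z : ι → ℝ} (hz : ∀ j, 0 ≤ z j) (R : ι → E3) {m : ℝ}
    (hm : 0 ≤ m) : ∃ ρ, MD ρ ∧ ∫ x, ρ x ≤ m ∧
      ∀ σ, MD σ → ∫ x, σ x ≤ m → En γ z R ρ ≤ En γ z R σ := by
  set I := sInf (vals γ z R m) with hI
  have hbdd := vals_bdd hγ hz R m
  have hne := vals_ne γ z R hm
  have hη : ∀ N : ℕ, (0:ℝ) < ((1/2 : ℝ) ^ (N + 1)) ^ (5/3 : ℝ) := fun N => by positivity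
  choose δ hδ0 hδ using fun N => near hγ hz R (m := m) (hη N)
  -- decreasing thresholds
  set δ' : ℕ → ℝ := fun n => (Finset.range (n + 1)).inf' (by simp) δ with hδ'
  have hδ'0 : ∀ n, 0 < δ' n := by
    intro n
    rw [hδ', Finset.lt_inf'_iff]
    exact fun i _ => hδ0 i
  have hδ'le : ∀ N n, N ≤ n → δ' n ≤ δ N := fun N n h =>
    Finset.inf'_le δ (Finset.mem_range.2 (Nat.lt_succ_of_le h))
  have hseq : ∀ n : ℕ, ∃ ρ, MD ρ ∧ ∫ x, ρ x ≤ m ∧
      En γ z R ρ < I + min (δ' n) (1 / ((n:ℝ) + 1)) := by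
    intro n
    have hpos : 0 < min (δ' n) (1 / ((n:ℝ) + 1)) := lt_min (hδ'0 n) (by positivity)
    obtain ⟨e, ⟨ρ, h1, h2, rfl⟩, h3⟩ := exists_lt_of_csInf_lt hne
      (show sInf (vals γ z R m) < I + min (δ' n) (1 / ((n:ℝ) + 1)) by rw [← hI]; linarith)
    exact ⟨ρ, h1, h2, h3⟩
  choose f hf hfm hfE using hseq
  have hle : ∀ N n, N ≤ n → En γ z R (f n) ≤ I + δ N := by
    intro N n h
    have h1 := hfE n
    have h2 : min (δ' n) (1 / ((n:ℝ) + 1)) ≤ δ' n := min_le_left _ _
    have h3 := hδ'le N n h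
    linarith
  obtain ⟨g, hg, hgm, hlim⟩ := complete hf hfm (fun N n k hn hk =>
    hδ N (f n) (f k) (hf n) (hf k) (hfm n) (hfm k) (hle N n hn) (hle N k hk))
  refine ⟨g, hg, hgm, ?_⟩
  have hAg0 : 0 ≤ ∫ x, g x ^ (5/3 : ℝ) := integral_nonneg fun x => Real.rpow_nonneg (hg.nonneg x) _
  set A := ∫ x, g x ^ (5/3 : ℝ) with hA
  set Z : ℝ := ∑ j, z j with hZ
  have hZ0 : 0 ≤ Z := Finset.sum_nonneg fun j _ => hz j
  -- the energy of the limit
  have key : ∀ ε : ℝ, 0 < ε → En γ z R g ≤ I + ε := by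
    intro ε hε
    -- potentials
    obtain ⟨δ1, hδ1, hpot⟩ := small_pot (2 * m) (ε / 3 / (Z + m + 1)) (by positivity) (by positivity)
    -- kinetic energy
    set c : ℝ := ε / 6 / (γ * (2/5 * (A + 1))) with hc
    have hc0 : 0 < c := by positivity
    set κ : ℝ := c ^ (2/5 : ℝ) with hκ
    have hκ0 : 0 < κ := by positivity
    have hκc : κ ^ (5/2 : ℝ) = c := by
      rw [hκ, ← Real.rpow_mul hc0.le]; norm_num
    set δ2 : ℝ := ε / 6 / (γ * (3/5 * κ ^ (-(5/3) : ℝ))) with hδ2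
    have hδ20 : 0 < δ2 := by positivity
    have ev1 : ∀ᶠ n in atTop, ∫ x, |f n x - g x| ^ (5/3 : ℝ) < min δ1 δ2 :=
      hlim.eventually_lt_const (lt_min hδ1 hδ20)
    have ev2 : ∀ᶠ n : ℕ in atTop, 1 / ((n:ℝ) + 1) < ε / 3 :=
      (tendsto_one_div_add_atTop_nhds_zero_nat (𝕜 := ℝ)).eventually_lt_const (by positivity)
    obtain ⟨n, h1, h2⟩ := (ev1.and ev2).exists
    have ha1 : ∫ x, |f n x - g x| ^ (5/3 : ℝ) ≤ δ1 := h1.le.trans (min_le_left _ _)
    have ha2 : ∫ x, |f n x - g x| ^ (5/3 : ℝ) ≤ δ2 := h1.le.trans (min_le_right _ _)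
    have hN := nice_sub (hf n).nice hg.nice
    have hmass : ∫ x, |f n x - g x| ≤ 2 * m := by
      have : ∫ x, |f n x - g x| ≤ ∫ x, (f n x + g x) := by
        refine integral_mono hN.2.1.abs ((hf n).int.add hg.int) fun x => ?_
        show |f n x - g x| ≤ f n x + g x
        have a := (hf n).nonneg x
        have b := hg.nonneg x
        rw [abs_le]; constructor <;> linarith
      rw [integral_add (hf n).int hg.int] at this
      have := hfm n
      linarith
    have hsup : ∀ x, |pot (f n) x - pot g x| ≤ ε / 3 / (Z + m + 1) := by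
      intro x
      rw [← pot_sub (hf n).nice hg.nice]
      exact (pot_le_abs hN x).trans (hpot _ hN hmass ha1 x)
    set η := ε / 3 / (Z + m + 1) with hη'
    have hη0 : 0 < η := by positivity
    -- nuclear attraction
    have hnuc : ∑ j, z j * pot (f n) (R j) ≤ (∑ j, z j * pot g (R j)) + Z * η := by
      rw [hZ, Finset.sum_mul, ← Finset.sum_add_distrib]
      refine Finset.sum_le_sum fun j _ => ?_
      rw [← mul_add]
      refine mul_le_mul_of_nonneg_left ?_ (hz j)
      have := hsup (R j)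
      rw [abs_le] at this
      linarith [this.2]
    -- repulsion
    have hrep : ∫ x, g x * pot g x ≤ (∫ x, f n x * pot (f n) x) + 2 * (m * η) := by
      have i1 := pd_int g g hg.nice hg.nice
      have i2 := pd_int g (f n) hg.nice (hf n).nice
      have i3 := pd_int (f n) g (hf n).nice hg.nice
      have i4 := pd_int (f n) (f n) (hf n).nice (hf n).nice
      have s1 : ∫ x, g x * pot g x ≤ (∫ x, g x * pot (f n) x) + m * η := by
        have : ∫ x, g x * pot g x ≤ ∫ x, (g x * pot (f n) x + η * g x) := by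
          refine integral_mono i1 (i2.add (hg.int.const_mul η)) fun x => ?_
          show g x * pot g x ≤ g x * pot (f n) x + η * g x
          have h3 := hsup x
          rw [abs_le] at h3
          have := mul_le_mul_of_nonneg_left (show pot g x ≤ pot (f n) x + η by linarith [h3.1])
            (hg.nonneg x)
          linarith
        rw [integral_add i2 (hg.int.const_mul η), integral_const_mul] at this
        have h4 := mul_le_mul_of_nonneg_left hgm hη0.le
        linarith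
      have s2 : ∫ x, g x * pot (f n) x ≤ (∫ x, f n x * pot (f n) x) + m * η := by
        rw [pd_swap g (f n) hg.nice (hf n).nice]
        have : ∫ x, f n x * pot g x ≤ ∫ x, (f n x * pot (f n) x + η * f n x) := by
          refine integral_mono i3 (i4.add ((hf n).int.const_mul η)) fun x => ?_
          show f n x * pot g x ≤ f n x * pot (f n) x + η * f n x
          have h3 := hsup x
          rw [abs_le] at h3
          have := mul_le_mul_of_nonneg_left (show pot g x ≤ pot (f n) x + η by linarith [h3.1])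
            ((hf n).nonneg x)
          linarith
        rw [integral_add i4 ((hf n).int.const_mul η), integral_const_mul] at this
        have h4 := mul_le_mul_of_nonneg_left (hfm n) hη0.le
        linarith
      linarith
    -- kinetic energy
    have hkin : 3/5 * γ * A ≤ 3/5 * γ * (∫ x, f n x ^ (5/3 : ℝ)) + ε / 3 := by
      have hpt : ∀ x, 3/5 * g x ^ (5/3 : ℝ) ≤ 3/5 * f n x ^ (5/3 : ℝ) +
          (2/5 * c * g x ^ (5/3 : ℝ) + 3/5 * κ ^ (-(5/3) : ℝ) * |f n x - g x| ^ (5/3 : ℝ)) := by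
        intro x
        have h3 := (TFMin.tangent_le ((hf n).nonneg x) (hg.nonneg x)).1
        have hq : Real.HolderConjugate (5/2) (5/3) := by
          rw [Real.holderConjugate_iff]
          constructor <;> norm_num
        have hy := Real.young_inequality_of_nonneg
          (show 0 ≤ κ * g x ^ (2/3 : ℝ) by
            have := hg.nonneg x; positivity)
          (show 0 ≤ |f n x - g x| / κ by positivity) hq
        rw [Real.div_rpow (abs_nonneg _) hκ0.le, Real.mul_rpow hκ0.le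
          (Real.rpow_nonneg (hg.nonneg x) _), ← Real.rpow_mul (hg.nonneg x), hκc] at hy
        have e1 : κ * g x ^ (2/3 : ℝ) * (|f n x - g x| / κ) = g x ^ (2/3 : ℝ) * |f n x - g x| := by
          field_simp
        have e2 : κ ^ (-(5/3) : ℝ) = (κ ^ (5/3 : ℝ))⁻¹ := Real.rpow_neg hκ0.le _
        rw [e1, show (2/3 * (5/2) : ℝ) = 5/3 by norm_num] at hy
        rw [e2]
        have e3 : c * g x ^ (5/3 : ℝ) / (5/2) + |f n x - g x| ^ (5/3 : ℝ) / κ ^ (5/3 : ℝ) / (5/3) =
            2/5 * c * g x ^ (5/3 : ℝ) + 3/5 * (κ ^ (5/3 : ℝ))⁻¹ * |f n x - g x| ^ (5/3 : ℝ) := by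
          rw [div_eq_mul_inv (|f n x - g x| ^ (5/3 : ℝ))]; ring
        rw [e3] at hy
        have h4 : -(g x ^ (2/3 : ℝ) * |f n x - g x|) ≤ g x ^ (2/3 : ℝ) * (f n x - g x) := by
          rw [← mul_neg]
          exact mul_le_mul_of_nonneg_left (neg_abs_le _) (Real.rpow_nonneg (hg.nonneg x) _)
        linarith
      have i1 := (hf n).int_pow.const_mul (3/5)
      have i2 := hg.int_pow.const_mul (2/5 * c)
      have i3 := hN.2.2.const_mul (3/5 * κ ^ (-(5/3) : ℝ))
      have i23 : Integrable (fun x => 2/5 * c * g x ^ (5/3 : ℝ) +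
        3/5 * κ ^ (-(5/3) : ℝ) * |f n x - g x| ^ (5/3 : ℝ)) := i2.add i3
      have i123 : Integrable (fun x => 3/5 * f n x ^ (5/3 : ℝ) + (2/5 * c * g x ^ (5/3 : ℝ) +
        3/5 * κ ^ (-(5/3) : ℝ) * |f n x - g x| ^ (5/3 : ℝ))) := i1.add i23
      have h5 := integral_mono (hg.int_pow.const_mul (3/5)) i123 hpt
      rw [integral_const_mul, integral_add i1 i23, integral_add i2 i3, integral_const_mul,
        integral_const_mul, integral_const_mul, ← hA] at h5
      have h6 : γ * (2/5 * c * A) ≤ ε / 6 := by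
        have : γ * (2/5 * c * A) ≤ γ * (2/5 * c * (A + 1)) :=
          mul_le_mul_of_nonneg_left (mul_le_mul_of_nonneg_left (by linarith) (by positivity)) hγ.le
        refine this.trans (le_of_eq ?_)
        rw [hc]; field_simp
      have h7 : γ * (3/5 * κ ^ (-(5/3) : ℝ) * ∫ x, |f n x - g x| ^ (5/3 : ℝ)) ≤ ε / 6 := by
        have : γ * (3/5 * κ ^ (-(5/3) : ℝ) * ∫ x, |f n x - g x| ^ (5/3 : ℝ)) ≤
            γ * (3/5 * κ ^ (-(5/3) : ℝ) * δ2) :=
          mul_le_mul_of_nonneg_left (mul_le_mul_of_nonneg_left ha2 (by positivity)) hγ.le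
        refine this.trans (le_of_eq ?_)
        rw [hδ2]
        have : 0 < κ ^ (-(5/3) : ℝ) := by positivity
        field_simp
      have h8 := mul_le_mul_of_nonneg_left h5 hγ.le
      linarith
    have hZm : (Z + m) * η ≤ ε / 3 := by
      rw [hη', mul_div_assoc', div_le_iff₀ (by positivity)]
      nlinarith
    have hEn := hfE n
    have h9 : min (δ' n) (1 / ((n:ℝ) + 1)) ≤ 1 / ((n:ℝ) + 1) := min_le_right _ _
    unfold En at hEn ⊢
    rw [← hA]
    linarith
  intro σ hσ hσm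
  have h1 : En γ z R g ≤ I := le_of_forall_pos_le_add fun ε hε => key ε hε
  exact h1.trans (csInf_le hbdd ⟨σ, hσ, hσm, rfl⟩)

end Pool.Agent.R999.Ex
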