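import Pool.Agent.R999.Ex3

/-!
# Existence of Thomas-Fermi minimisers, part 4: the Euler-Lagrange equation
-/

set_option autoImplicit false

namespace Pool.Agent.R999.Ex

open MeasureTheory Set Filter Topology Metric
open Pool.Agent.TH791.Cl Pool.Agent.TH791.Nw Pool.Agent.R999.Pot Pool.Agent.R999.MinP
open Pool.Agent.R999.Newton
open scoped ENNReal

variable {ι : Type*} [Fintype ι]

lemma pow23_diff {a b : ℝ} (ha : 0 ≤ a) (hb : 0 ≤ b) :
    |a ^ (2/3 : ℝ) - b ^ (2/3 : ℝ)| ≤ |a - b| ^ (2/3 : ℝ) := by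
  have key : ∀ a b : ℝ, 0 ≤ a → a ≤ b →
      |a ^ (2/3 : ℝ) - b ^ (2/3 : ℝ)| ≤ |a - b| ^ (2/3 : ℝ) := by
    intro a b ha hab
    have h1 := Real.rpow_add_le_add_rpow (p := 2/3) ha (sub_nonneg.2 hab) (by norm_num) (by norm_num)
    have h2 : a ^ (2/3 : ℝ) ≤ b ^ (2/3 : ℝ) := Real.rpow_le_rpow ha hab (by norm_num)
    rw [add_sub_cancel] at h1
    rw [abs_sub_comm, abs_of_nonneg (by linarith), abs_sub_comm, abs_of_nonneg (by linarith)]
    linarith
  rcases le_total a b with h | h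
  · exact key a b ha h
  · rw [abs_sub_comm, abs_sub_comm a b]
    exact key b a hb h

lemma pow23_mul {a b : ℝ} (ha : 0 ≤ a) (hb : 0 ≤ b) :
    a ^ (2/3 : ℝ) * b ≤ a ^ (5/3 : ℝ) + b ^ (5/3 : ℝ) := by
  have e : ∀ c : ℝ, 0 ≤ c → c ^ (5/3 : ℝ) = c ^ (2/3 : ℝ) * c := by
    intro c hc
    rcases hc.eq_or_lt with h | h
    · rw [← h, Real.zero_rpow (by norm_num)]; simp
    · rw [show (5/3 : ℝ) = 2/3 + 1 by norm_num, Real.rpow_add h, Real.rpow_one]
  have p1 : 0 ≤ a ^ (5/3 : ℝ) := Real.rpow_nonneg ha _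
  have p2 : 0 ≤ b ^ (5/3 : ℝ) := Real.rpow_nonneg hb _
  rcases le_total a b with h | h
  · have : a ^ (2/3 : ℝ) * b ≤ b ^ (2/3 : ℝ) * b :=
      mul_le_mul_of_nonneg_right (Real.rpow_le_rpow ha h (by norm_num)) hb
    rw [← e b hb] at this
    linarith
  · have : a ^ (2/3 : ℝ) * b ≤ a ^ (2/3 : ℝ) * a :=
      mul_le_mul_of_nonneg_left h (Real.rpow_nonneg ha _)
    rw [← e a ha] at this
    linarith

lemma i23 {ρ h : E3 → ℝ} (hρ : MD ρ) (hh : Nice h) : Integrable (fun x => ρ x ^ (2/3 : ℝ) * h x) := by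
  refine (hρ.int_pow.add hh.2.2).mono ((hρ.meas.pow_const _).mul hh.1).aestronglyMeasurable
    (ae_of_all _ fun x => ?_)
  have h1 := pow23_mul (hρ.nonneg x) (abs_nonneg (h x))
  rw [norm_mul, Real.norm_of_nonneg (Real.rpow_nonneg (hρ.nonneg x) _), Real.norm_eq_abs]
  refine h1.trans ?_
  exact le_abs_self _

lemma pow_add53 {t a : ℝ} (ht : 0 ≤ t) (ha : 0 ≤ a) :
    (t * a) ^ (2/3 : ℝ) * a = t ^ (2/3 : ℝ) * a ^ (5/3 : ℝ) := by
  rw [Real.mul_rpow ht ha]
  rcases ha.eq_or_lt with h | h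
  · rw [← h, Real.zero_rpow (by norm_num), Real.zero_rpow (by norm_num)]; ring
  · rw [show (5/3 : ℝ) = 2/3 + 1 by norm_num, Real.rpow_add h, Real.rpow_one]; ring

/-- first variation at a minimiser -/
lemma vari {γ : ℝ} (hγ : 0 < γ) {z : ι → ℝ} {R : ι → E3} {m : ℝ} {ρ : E3 → ℝ} (hρ : MD ρ)
    (hm : ∫ x, ρ x ≤ m) (hmin : ∀ σ, MD σ → ∫ x, σ x ≤ m → En γ z R ρ ≤ En γ z R σ)
    {σ : E3 → ℝ} (hσ : MD σ) (hσm : ∫ x, σ x ≤ m) :
    0 ≤ γ * (∫ x, ρ x ^ (2/3 : ℝ) * (σ x - ρ x)) - (∑ j, z j * pot (fun x => σ x - ρ x) (R j)) +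
      ∫ x, (σ x - ρ x) * pot ρ x := by
  set h : E3 → ℝ := fun x => σ x - ρ x with hh
  have hN : Nice h := nice_sub hσ.nice hρ.nice
  set A := ∫ x, |h x| ^ (5/3 : ℝ) with hA
  set D := ∫ x, h x * pot h x with hD
  set a := γ * (∫ x, ρ x ^ (2/3 : ℝ) * h x) - (∑ j, z j * pot h (R j)) + ∫ x, h x * pot ρ x with ha
  have key : ∀ t : ℝ, 0 < t → t ≤ 1 → 0 ≤ a + γ * A * t ^ (2/3 : ℝ) + 1/2 * D * t := by
    intro t ht ht1
    have hNt : Nice (fun x => t * h x) := nice_mul t hN
    have hτN : Nice (fun x => ρ x + t * h x) := nice_add hρ.nice hNt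
    have hτ0 : ∀ x, 0 ≤ ρ x + t * h x := by
      intro x
      have h1 := hρ.nonneg x
      have h2 := hσ.nonneg x
      have : ρ x + t * h x = (1 - t) * ρ x + t * σ x := by rw [hh]; ring
      rw [this]
      have : 0 ≤ 1 - t := by linarith
      positivity
    have hτ : MD (fun x => ρ x + t * h x) := Nice.md hτN hτ0
    have hτm : ∫ x, (ρ x + t * h x) ≤ m := by
      rw [integral_add hρ.int hNt.2.1, integral_const_mul]
      have : ∫ x, h x = (∫ x, σ x) - ∫ x, ρ x := integral_sub hσ.int hρ.int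
      rw [this]
      nlinarith
    have hE := hmin _ hτ hτm
    have hpt : ∀ x, pot (fun x => ρ x + t * h x) x = pot ρ x + t * pot h x := by
      intro x; rw [pot_add hρ.nice hNt, pot_mul]
    have e1 : ∑ j, z j * pot (fun x => ρ x + t * h x) (R j) =
        (∑ j, z j * pot ρ (R j)) + t * ∑ j, z j * pot h (R j) := by
      rw [Finset.mul_sum, ← Finset.sum_add_distrib]
      refine Finset.sum_congr rfl fun j _ => ?_
      rw [hpt]; ring
    have e2 : ∫ x, (ρ x + t * h x) * pot (fun x => ρ x + t * h x) x =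
        (∫ x, ρ x * pot ρ x) + 2 * t * (∫ x, h x * pot ρ x) + t ^ 2 * D := by
      rw [coul_add hρ.nice hNt, coul_mul]
      have : ∫ x, ρ x * pot (fun y => t * h y) x = t * ∫ x, h x * pot ρ x := by
        rw [← pd_swap ρ h hρ.nice hN, ← integral_const_mul]
        congr 1; funext x; rw [pot_mul]; ring
      rw [this]; ring
    have e3 : 3/5 * ∫ x, (ρ x + t * h x) ^ (5/3 : ℝ) ≤ 3/5 * (∫ x, ρ x ^ (5/3 : ℝ)) +
        t * (∫ x, ρ x ^ (2/3 : ℝ) * h x) + t * (t ^ (2/3 : ℝ) * A) := by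
      have j1 := hρ.int_pow.const_mul (3/5)
      have j2 := (i23 hρ hN).const_mul t
      have j3 := (hN.2.2.const_mul (t ^ (2/3 : ℝ))).const_mul t
      have j12 : Integrable (fun x => 3/5 * ρ x ^ (5/3 : ℝ) + t * (ρ x ^ (2/3 : ℝ) * h x)) :=
        j1.add j2
      have j123 : Integrable (fun x => 3/5 * ρ x ^ (5/3 : ℝ) + t * (ρ x ^ (2/3 : ℝ) * h x) +
        t * (t ^ (2/3 : ℝ) * |h x| ^ (5/3 : ℝ))) := j12.add j3
      have hle : ∀ x, 3/5 * (ρ x + t * h x) ^ (5/3 : ℝ) ≤ 3/5 * ρ x ^ (5/3 : ℝ) +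
          t * (ρ x ^ (2/3 : ℝ) * h x) + t * (t ^ (2/3 : ℝ) * |h x| ^ (5/3 : ℝ)) := by
        intro x
        have q1 := (TFMin.tangent_le (hρ.nonneg x) (hτ0 x)).1
        have q2 := pow23_diff (hτ0 x) (hρ.nonneg x)
        rw [show ρ x + t * h x - ρ x = t * h x by ring, abs_mul, abs_of_pos ht] at q2
        have q3 : (ρ x + t * h x) ^ (2/3 : ℝ) * h x ≤ ρ x ^ (2/3 : ℝ) * h x +
            (t * |h x|) ^ (2/3 : ℝ) * |h x| := by
          have : ((ρ x + t * h x) ^ (2/3 : ℝ) - ρ x ^ (2/3 : ℝ)) * h x ≤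
              (t * |h x|) ^ (2/3 : ℝ) * |h x| := by
            refine (le_abs_self _).trans ?_
            rw [abs_mul]
            exact mul_le_mul_of_nonneg_right q2 (abs_nonneg _)
          linarith
        rw [pow_add53 ht.le (abs_nonneg _)] at q3
        have q4 := mul_le_mul_of_nonneg_left q3 ht.le
        have q5 : (ρ x + t * h x) ^ (2/3 : ℝ) * (ρ x - (ρ x + t * h x)) =
            -(t * ((ρ x + t * h x) ^ (2/3 : ℝ) * h x)) := by ring
        rw [q5] at q1
        linarith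
      have := integral_mono (hτ.int_pow.const_mul (3/5)) j123 hle
      rw [integral_const_mul, integral_add j12 j3, integral_add j1 j2, integral_const_mul,
        integral_const_mul, integral_const_mul, integral_const_mul] at this
      exact this
    have e4 := mul_le_mul_of_nonneg_left e3 hγ.le
    unfold En at hE
    rw [e1, e2] at hE
    have e5 : 0 ≤ t * (a + γ * A * t ^ (2/3 : ℝ) + 1/2 * D * t) := by
      rw [ha]
      linarith
    exact nonneg_of_mul_nonneg_right e5 ht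
  have hcont : Tendsto (fun t : ℝ => a + γ * A * t ^ (2/3 : ℝ) + 1/2 * D * t) (𝓝[>] 0)
      (𝓝 (a + γ * A * (0:ℝ) ^ (2/3 : ℝ) + 1/2 * D * 0)) := by
    have h1 : Tendsto (fun t : ℝ => t ^ (2/3 : ℝ)) (𝓝[>] 0) (𝓝 ((0:ℝ) ^ (2/3 : ℝ))) :=
      ((Real.continuousAt_rpow_const 0 (2/3) (Or.inr (by norm_num))).tendsto).mono_left
        nhdsWithin_le_nhds
    have h2 : Tendsto (fun t : ℝ => t) (𝓝[>] 0) (𝓝 0) := tendsto_id.mono_left nhdsWithin_le_nhds
    exact (tendsto_const_nhds.add (h1.const_mul _)).add (h2.const_mul _)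
  rw [Real.zero_rpow (by norm_num)] at hcont
  have hev : ∀ᶠ t : ℝ in 𝓝[>] 0, 0 ≤ a + γ * A * t ^ (2/3 : ℝ) + 1/2 * D * t := by
    filter_upwards [Ioc_mem_nhdsGT (show (0:ℝ) < 1 by norm_num)] with t ht using key t ht.1 ht.2
  have := ge_of_tendsto hcont hev
  simpa using this

/-- **Euler-Lagrange equation** of a constrained minimiser -/
theorem el {γ : ℝ} (hγ : 0 < γ) {z : ι → ℝ} {R : ι → E3} {m : ℝ} (hm0 : 0 < m) {ρ : E3 → ℝ}
    (hρ : MD ρ) (hm : ∫ x, ρ x ≤ m)
    (hmin : ∀ σ, MD σ → ∫ x, σ x ≤ m → En γ z R ρ ≤ En γ z R σ) :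
    ∃ μ : ℝ, 0 ≤ μ ∧ (∀ᵐ x, γ * ρ x ^ (2/3 : ℝ) = max (Vn z R x - pot ρ x - μ) 0) ∧
      μ * (m - ∫ x, ρ x) = 0 := by
  set w : E3 → ℝ := fun x => γ * ρ x ^ (2/3 : ℝ) - Vn z R x + pot ρ x with hw
  -- integrability against admissible functions
  have iw : ∀ η : E3 → ℝ, Nice η → Integrable (fun x => w x * η x) ∧
      ∫ x, w x * η x = γ * (∫ x, ρ x ^ (2/3 : ℝ) * η x) - (∑ j, z j * pot η (R j)) +
        ∫ x, η x * pot ρ x := by
    intro η hη
    have j1 := (i23 hρ hη).const_mul γ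
    obtain ⟨j2, v2⟩ := Vn_mul_int hη z R
    have j3 := pd_int η ρ hη hρ.nice
    have j12 : Integrable (fun x => γ * (ρ x ^ (2/3 : ℝ) * η x) - Vn z R x * η x) := j1.sub j2
    have e : (fun x => w x * η x) = fun x => γ * (ρ x ^ (2/3 : ℝ) * η x) - Vn z R x * η x +
        η x * pot ρ x := by
      funext x; rw [hw]; ring
    rw [e]
    refine ⟨j12.add j3, ?_⟩
    rw [integral_add j12 j3, integral_sub j1 j2, integral_const_mul, v2]
  obtain ⟨iwρ, _⟩ := iw ρ hρ.nice
  -- linear inequality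
  have lin : ∀ σ : E3 → ℝ, MD σ → ∫ x, σ x ≤ m → ∫ x, w x * ρ x ≤ ∫ x, w x * σ x := by
    intro σ hσ hσm
    have h1 := vari hγ hρ hm hmin hσ hσm
    obtain ⟨_, h2⟩ := iw (fun x => σ x - ρ x) (nice_sub hσ.nice hρ.nice)
    obtain ⟨iwσ, _⟩ := iw σ hσ.nice
    rw [← h2] at h1
    have e : (fun x => w x * (σ x - ρ x)) = fun x => w x * σ x - w x * ρ x := by funext x; ring
    rw [e, integral_sub iwσ iwρ] at h1
    linarith
  set μ : ℝ := -(∫ x, w x * ρ x) / m with hμ
  have hL : ∫ x, w x * ρ x = -(μ * m) := by rw [hμ]; field_simp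
  have hμ0 : 0 ≤ μ := by
    have := lin _ MD.zero (by simpa using hm0.le)
    simp only [mul_zero, integral_zero] at this
    rw [hμ]
    exact div_nonneg (by linarith) hm0.le
  have lin2 : ∀ η : E3 → ℝ, MD η → 0 ≤ (∫ x, w x * η x) + μ * ∫ x, η x := by
    intro η hη
    have h0 : 0 ≤ ∫ x, η x := integral_nonneg hη.nonneg
    rcases h0.eq_or_lt with h | h
    · have hz : η =ᵐ[volume] 0 := (integral_eq_zero_iff_of_nonneg hη.nonneg hη.int).1 h.symm
      have : ∫ x, w x * η x = 0 := by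
        rw [← integral_zero E3 ℝ (μ := volume)]
        refine integral_congr_ae ?_
        filter_upwards [hz] with x hx
        simp [hx]
      rw [this, ← h]; simp
    · set c := m / ∫ x, η x with hc
      have hc0 : 0 < c := by positivity
      have hcη : MD (fun x => c * η x) := Nice.md (nice_mul c hη.nice) fun x =>
        mul_nonneg hc0.le (hη.nonneg x)
      have h1 := lin _ hcη (by rw [integral_const_mul, hc]; field_simp; exact le_refl _)
      have e : (fun x => w x * (c * η x)) = fun x => c * (w x * η x) := by funext x; ring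
      rw [e, integral_const_mul, hL] at h1
      have h2 : 0 ≤ c * ((∫ x, w x * η x) + μ * ∫ x, η x) := by
        have : c * (μ * ∫ x, η x) = μ * m := by rw [hc]; field_simp
        rw [mul_add, this]; linarith
      exact nonneg_of_mul_nonneg_right h2 hc0
  -- pointwise
  have hfin : ∀ s : Set E3, MeasurableSet s → volume s < ∞ → MD (s.indicator fun _ => (1:ℝ)) := by
    intro s hs hv
    have hi : Integrable (s.indicator fun _ => (1:ℝ)) :=
      (integrable_indicator_iff hs).2 (integrableOn_const hv.ne)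
    refine ⟨measurable_const.indicator hs, fun x => indicator_nonneg (fun _ _ => zero_le_one) x,
      hi, ?_⟩
    refine hi.congr (ae_of_all _ fun x => ?_)
    by_cases hx : x ∈ s
    · simp [hx]
    · simp only [hx, not_false_eq_true, indicator_of_notMem]
      rw [Real.zero_rpow (by norm_num)]
  have hnn : 0 ≤ᵐ[volume] fun x => w x + μ := by
    refine ae_nonneg_of_forall_setIntegral_nonneg_of_sigmaFinite (fun s hs hv => ?_)
      fun s hs hv => ?_
    · have h1 := (iw _ (hfin s hs hv).nice).1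
      have e : (fun x => w x * s.indicator (fun _ => (1:ℝ)) x) = s.indicator w := by
        funext x
        by_cases hx : x ∈ s <;> simp [hx]
      rw [e, integrable_indicator_iff hs] at h1
      exact h1.add (integrableOn_const hv.ne)
    · have h1 := (iw _ (hfin s hs hv).nice).1
      have h2 := lin2 _ (hfin s hs hv)
      have e : (fun x => w x * s.indicator (fun _ => (1:ℝ)) x) = s.indicator w := by
        funext x
        by_cases hx : x ∈ s <;> simp [hx]
      rw [e, integrable_indicator_iff hs] at h1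
      rw [e, integral_indicator hs, integral_indicator hs] at h2
      have h3 : ∫ x in s, (w x + μ) = (∫ x in s, w x) + ∫ x in s, μ :=
        integral_add h1 (integrableOn_const hv.ne)
      rw [h3]
      have h4 : ∫ x in s, μ = μ * ∫ x in s, (1:ℝ) := by
        rw [← integral_const_mul]; simp
      rw [h4]; exact h2
  have iρ : Integrable (fun x => (w x + μ) * ρ x) := by
    refine (iwρ.add (hρ.int.const_mul μ)).congr (ae_of_all _ fun x => ?_)
    show w x * ρ x + μ * ρ x = _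
    ring
  have vρ : ∫ x, (w x + μ) * ρ x = -(μ * (m - ∫ x, ρ x)) := by
    have : (fun x => (w x + μ) * ρ x) = fun x => w x * ρ x + μ * ρ x := by funext x; ring
    rw [this, integral_add iwρ (hρ.int.const_mul μ), integral_const_mul, hL]
    ring
  have hnn2 : 0 ≤ᵐ[volume] fun x => (w x + μ) * ρ x := by
    filter_upwards [hnn] with x hx
    exact mul_nonneg hx (hρ.nonneg x)
  have hz : ∫ x, (w x + μ) * ρ x = 0 := by
    refine le_antisymm ?_ (integral_nonneg_of_ae hnn2)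
    rw [vρ]
    have : 0 ≤ μ * (m - ∫ x, ρ x) := mul_nonneg hμ0 (by linarith)
    linarith
  have hae := (integral_eq_zero_iff_of_nonneg_ae hnn2 iρ).1 hz
  refine ⟨μ, hμ0, ?_, by rw [hz] at vρ; linarith⟩
  filter_upwards [hnn, hae] with x h1 h2
  have h1' : 0 ≤ w x + μ := h1
  have h2' : (w x + μ) * ρ x = 0 := h2
  rw [hw] at h1' h2'
  simp only at h1' h2'
  rcases (hρ.nonneg x).eq_or_lt with h0 | h0
  · rw [← h0, Real.zero_rpow (by norm_num)] at h1'
    rw [← h0, Real.zero_rpow (by norm_num), mul_zero, max_eq_right (by linarith)]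
  · rcases mul_eq_zero.1 h2' with h3 | h3
    · have h4 : 0 < γ * ρ x ^ (2/3 : ℝ) := by positivity
      rw [max_eq_left (by linarith)]
      linarith
    · exact absurd h3 h0.ne'

end Pool.Agent.R999.Ex
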