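import Pool.Agent.R999.Ex4

/-!
# Existence of neutral Thomas-Fermi densities
-/

set_option autoImplicit false

namespace Pool.Agent.R999.Ex

open MeasureTheory Set Filter Topology Metric
open Pool.Agent.TH791.Cl Pool.Agent.TH791.Nw Pool.Agent.R999.Pot Pool.Agent.R999.MinP
open Pool.Agent.R999.Newton
open scoped ENNReal

variable {ι : Type*} [Fintype ι]

/-- indicator of the shell `a ≤ |x| < b` -/
noncomputable def sh (a b : ℝ) (x : E3) : ℝ := (Ico a b).indicator (fun _ => (1:ℝ)) ‖x‖

lemma sh_meas (a b : ℝ) : Measurable (sh a b) :=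
  (measurable_const.indicator measurableSet_Ico).comp measurable_norm

lemma sh_nonneg (a b : ℝ) (x : E3) : 0 ≤ sh a b x := indicator_nonneg (fun _ _ => zero_le_one) _

lemma sh_le (a b : ℝ) (x : E3) : sh a b x ≤ 1 := by
  unfold sh
  by_cases h : ‖x‖ ∈ Ico a b
  · rw [indicator_of_mem h]
  · rw [indicator_of_notMem h]; exact zero_le_one

lemma sh_md {a b : ℝ} : MD (sh a b) := by
  have hi : Integrable (sh a b) := by
    have : Integrable ((ball (0:E3) b).indicator fun _ => (1:ℝ)) :=
      (integrable_indicator_iff measurableSet_ball).2 (integrableOn_const measure_ball_lt_top.ne)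
    refine this.mono (sh_meas a b).aestronglyMeasurable (ae_of_all _ fun x => ?_)
    rw [Real.norm_of_nonneg (sh_nonneg a b x), Real.norm_of_nonneg
      (indicator_nonneg (fun _ _ => zero_le_one) x)]
    unfold sh
    by_cases h : ‖x‖ ∈ Ico a b
    · rw [indicator_of_mem h, indicator_of_mem (by simpa using h.2)]
    · rw [indicator_of_notMem h]; exact indicator_nonneg (fun _ _ => zero_le_one) x
  refine ⟨sh_meas a b, sh_nonneg a b, hi, hi.congr (ae_of_all _ fun x => ?_)⟩
  show sh a b x = sh a b x ^ (5/3 : ℝ)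
  unfold sh
  by_cases h : ‖x‖ ∈ Ico a b
  · rw [indicator_of_mem h, Real.one_rpow]
  · rw [indicator_of_notMem h, Real.zero_rpow (by norm_num)]

lemma pot_sh {a b : ℝ} (ha : 0 < a) (hab : a ≤ b) (x : E3) :
    pot (sh a b) x ≤ 2 * Real.pi * (b ^ 2 - a ^ 2) ∧
    (‖x‖ ≤ a → pot (sh a b) x = 2 * Real.pi * (b ^ 2 - a ^ 2)) := by
  have hpi := Real.pi_pos
  have h1 : pot (sh a b) x = ∫ t in Ico a b, kx ‖x‖ t := by
    have h2 := pot_radial (g := (Ico a b).indicator fun _ => (1:ℝ))
      (measurable_const.indicator measurableSet_Ico) x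
    have e : pot (sh a b) x = ∫ y : E3, (Ico a b).indicator (fun _ => (1:ℝ)) ‖y‖ / ‖x - y‖ := rfl
    rw [e, h2]
    have e2 : (fun t => kx ‖x‖ t * (Ico a b).indicator (fun _ => (1:ℝ)) t) =
        (Ico a b).indicator (kx ‖x‖) := by
      funext t
      by_cases h : t ∈ Ico a b <;> simp [h]
    rw [e2, setIntegral_indicator measurableSet_Ico]
    congr 1
    rw [inter_eq_self_of_subset_right]
    intro t ht
    exact lt_of_lt_of_le ha ht.1
  have hF : ∫ t in Ico a b, 4 * Real.pi * t = 2 * Real.pi * (b ^ 2 - a ^ 2) := by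
    rw [integral_Ico_eq_integral_Ioo, ← integral_Ioc_eq_integral_Ioo,
      ← intervalIntegral.integral_of_le hab, intervalIntegral.integral_const_mul, integral_id]
    ring
  have hiF : IntegrableOn (fun t : ℝ => 4 * Real.pi * t) (Ico a b) := by
    refine (Continuous.integrableOn_Icc ?_).mono_set Ico_subset_Icc_self
    fun_prop
  constructor
  · rw [h1, ← hF]
    refine setIntegral_mono_on ?_ hiF measurableSet_Ico fun t ht => ?_
    · refine Integrable.mono' hiF (kx_meas _).aestronglyMeasurable ?_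
      filter_upwards [ae_restrict_mem measurableSet_Ico] with t ht
      rw [Real.norm_of_nonneg (kx_nonneg (norm_nonneg x))]
      have ht0 : 0 < t := lt_of_lt_of_le ha ht.1
      unfold kx
      rw [div_le_iff₀ (lt_max_of_lt_right ht0)]
      have := le_max_right ‖x‖ t
      nlinarith [mul_pos hpi ht0]
    · have ht0 : 0 < t := lt_of_lt_of_le ha ht.1
      unfold kx
      rw [div_le_iff₀ (lt_max_of_lt_right ht0)]
      have := le_max_right ‖x‖ t
      nlinarith [mul_pos hpi ht0]
  · intro hx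
    rw [h1, ← hF]
    refine setIntegral_congr_fun measurableSet_Ico fun t ht => ?_
    have ht0 : 0 < t := lt_of_lt_of_le ha ht.1
    show kx ‖x‖ t = 4 * Real.pi * t
    unfold kx
    rw [max_eq_right (hx.trans ht.1)]
    field_simp

lemma sh_mass {a b : ℝ} (ha : 0 ≤ a) (hab : a ≤ b) :
    ∫ x, sh a b x = 4/3 * Real.pi * (b ^ 3 - a ^ 3) := by
  have h := int_radial ((Ico a b).indicator fun _ => (1:ℝ))
  have e : ∫ x, sh a b x = ∫ y : E3, (Ico a b).indicator (fun _ => (1:ℝ)) ‖y‖ := rfl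
  rw [e, h]
  have e2 : (fun t : ℝ => t ^ 2 * (Ico a b).indicator (fun _ => (1:ℝ)) t) =
      (Ico a b).indicator (fun t => t ^ 2) := by
    funext t
    by_cases h : t ∈ Ico a b <;> simp [h]
  rw [e2, setIntegral_indicator measurableSet_Ico]
  have hae : ∫ t in Ioi (0:ℝ) ∩ Ico a b, t ^ 2 = ∫ t in Ioo a b, t ^ 2 := by
    refine setIntegral_congr_set ?_
    have hsub : Ioo a b ⊆ Ioi (0:ℝ) ∩ Ico a b := fun t ht =>
      ⟨lt_of_le_of_lt ha ht.1, ht.1.le, ht.2⟩
    have h3 : (Ioi (0:ℝ) ∩ Ico a b) \ Ioo a b ⊆ {a} := by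
      rintro t ⟨⟨_, ht1, ht2⟩, hn⟩
      by_contra hne
      exact hn ⟨lt_of_le_of_ne ht1 (Ne.symm hne), ht2⟩
    have h4 : volume ((Ioi (0:ℝ) ∩ Ico a b) \ Ioo a b) = 0 :=
      measure_mono_null h3 (by simp)
    exact (ae_eq_set.2 ⟨h4, by rw [diff_eq_empty.2 hsub]; simp⟩)
  rw [hae, ← integral_Ioc_eq_integral_Ioo, ← intervalIntegral.integral_of_le hab, integral_pow]
  push_cast
  ring

/-- pairing the Thomas-Fermi potential with a Nice function -/
lemma phi_pair {z : ι → ℝ} {R : ι → E3} {ρ f : E3 → ℝ} (hρ : Nice ρ) (hf : Nice f) :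
    Integrable (fun x => (Vn z R x - pot ρ x) * f x) ∧
    ∫ x, (Vn z R x - pot ρ x) * f x = (∑ j, z j * pot f (R j)) - ∫ x, ρ x * pot f x := by
  obtain ⟨i1, v1⟩ := Vn_mul_int hf z R
  have i2 := pd_int f ρ hf hρ
  have e : (fun x => (Vn z R x - pot ρ x) * f x) = fun x => Vn z R x * f x - f x * pot ρ x := by
    funext x; ring
  rw [e]
  refine ⟨i1.sub i2, ?_⟩
  rw [integral_sub i1 i2, v1, pd_swap f ρ hf hρ]

lemma phi_decay {z : ι → ℝ} (hz : ∀ j, 0 ≤ z j) (R : ι → E3) {ρ : E3 → ℝ} (hρ : Nice ρ) {ε : ℝ}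
    (hε : 0 < ε) : ∃ M : ℝ, 0 < M ∧ ∀ x : E3, M ≤ ‖x‖ → (∀ j, ‖R j‖ < M) ∧
      |Vn z R x - pot ρ x| ≤ ε := by
  obtain ⟨M1, hM1⟩ := pot_decay hρ (half_pos hε)
  set Q : ℝ := ∑ j, ‖R j‖ with hQ
  have hQj : ∀ j, ‖R j‖ ≤ Q := fun j =>
    Finset.single_le_sum (f := fun j => ‖R j‖) (fun i _ => norm_nonneg _) (Finset.mem_univ j)
  have hQ0 : 0 ≤ Q := Finset.sum_nonneg fun j _ => norm_nonneg _
  set Z : ℝ := ∑ j, z j with hZ
  have hZ0 : 0 ≤ Z := Finset.sum_nonneg fun j _ => hz j
  refine ⟨max M1 (Q + 1 + 2 * Z / ε), ?_, fun x hx => ⟨fun j => ?_, ?_⟩⟩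
  · refine lt_max_of_lt_right ?_
    positivity
  · refine lt_of_le_of_lt (hQj j) (lt_max_of_lt_right ?_)
    have : 0 ≤ 2 * Z / ε := by positivity
    linarith
  · have h1 := hM1 x ((le_max_left _ _).trans hx)
    have h2 : Q + 1 + 2 * Z / ε ≤ ‖x‖ := (le_max_right _ _).trans hx
    have h3 : Vn z R x ≤ ε / 2 := by
      have hj : ∀ j, z j / ‖x - R j‖ ≤ z j * (1 / (1 + 2 * Z / ε)) := by
        intro j
        rw [div_eq_mul_one_div]
        refine mul_le_mul_of_nonneg_left ?_ (hz j)
        refine one_div_le_one_div_of_le (by positivity) ?_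
        have := norm_sub_norm_le x (R j)
        have := hQj j
        linarith
      have : Vn z R x ≤ Z * (1 / (1 + 2 * Z / ε)) := by
        unfold Vn
        rw [hZ, Finset.sum_mul]
        exact Finset.sum_le_sum fun j _ => hj j
      refine this.trans ?_
      rw [mul_one_div, div_le_iff₀ (by positivity)]
      have : ε / 2 * (1 + 2 * Z / ε) = ε / 2 + Z := by field_simp
      rw [this]; linarith
    have h4 : 0 ≤ Vn z R x := Finset.sum_nonneg fun j _ => div_nonneg (hz j) (norm_nonneg _)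
    rw [abs_le] at h1 ⊢
    constructor <;> linarith [h1.1, h1.2]

lemma nuc_null (R : ι → E3) : ∀ᵐ x : E3, ∀ j, x ≠ R j := by
  rw [ae_all_iff]
  intro j
  have := (Set.countable_singleton (R j)).ae_notMem (volume : Measure E3)
  filter_upwards [this] with x hx
  simpa using hx

/-- **Existence of the neutral Thomas-Fermi density.** -/
theorem neutral {γ : ℝ} (hγ : 0 < γ) {z : ι → ℝ} (hz : ∀ j, 0 ≤ z j) (R : ι → E3) :
    ∃ ρ, MD ρ ∧ ∫ x, ρ x = ∑ j, z j ∧
      (∀ x, (∀ j, 0 < z j → x ≠ R j) → 0 ≤ Vn z R x - pot ρ x) ∧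
      ∀ᵐ x, γ * ρ x ^ (2/3 : ℝ) = Vn z R x - pot ρ x := by
  have hpi := Real.pi_pos
  set Z : ℝ := ∑ j, z j with hZ
  have hZ0 : 0 ≤ Z := Finset.sum_nonneg fun j _ => hz j
  rcases hZ0.eq_or_lt with hZe | hZp
  · -- no charge
    have hall : ∀ j, z j = 0 := by
      intro j
      exact (Finset.sum_eq_zero_iff_of_nonneg (fun i _ => hz i)).1 (by rw [← hZ]; exact hZe.symm) j
        (Finset.mem_univ j)
    have hV : ∀ x, Vn z R x - pot (fun _ => (0:ℝ)) x = 0 := by
      intro x
      unfold Vn pot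
      simp [hall]
    refine ⟨fun _ => 0, MD.zero, by simpa using hZe, fun x _ => by rw [hV x], ae_of_all _ fun x => ?_⟩
    rw [hV x, Real.zero_rpow (by norm_num), mul_zero]
  obtain ⟨j0, hj0⟩ : ∃ j0, 0 < z j0 := by
    by_contra hc
    push Not at hc
    have : Z ≤ 0 := Finset.sum_nonpos fun j _ => hc j
    linarith
  obtain ⟨ρ, hρ, hm, hmin⟩ := exists_min hγ hz R hZ0
  obtain ⟨μ, hμ, hel, hcomp⟩ := el hγ hZp hρ hm hmin
  have hNn : Nice (fun x => -ρ x) := nice_neg hρ.nice
  have hphi : ∀ x, Vn z R x + pot (fun y => -ρ y) x = Vn z R x - pot ρ x := by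
    intro x; rw [pot_neg]; ring
  have hcond : ∀ᵐ x, Vn z R x - pot ρ x - μ ≤ 0 → ρ x = 0 := by
    filter_upwards [hel] with x hx hle
    rw [max_eq_right hle] at hx
    by_contra hc
    have : 0 < ρ x := lt_of_le_of_ne (hρ.nonneg x) (Ne.symm hc)
    have : 0 < γ * ρ x ^ (2/3 : ℝ) := by positivity
    linarith
  rcases hμ.eq_or_lt with hμ0 | hμp
  · -- vanishing chemical potential
    rw [← hμ0] at hel hcond
    have hnn : ∀ x, (∀ j, 0 < z j → x ≠ R j) → 0 ≤ Vn z R x - pot ρ x := by
      intro x hx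
      rw [← hphi]
      refine mp_nuc hz hNn ?_ hx
      filter_upwards [hcond] with y hy hlt
      rw [hphi] at hlt
      rw [hy (by linarith)]; simp
    have heq : ∀ᵐ x, γ * ρ x ^ (2/3 : ℝ) = Vn z R x - pot ρ x := by
      filter_upwards [hel, nuc_null R] with x hx hne
      rw [hx, sub_zero, max_eq_left (hnn x fun j _ => hne j)]
    refine ⟨ρ, hρ, ?_, hnn, heq⟩
    refine le_antisymm hm ?_
    by_contra hc
    push Not at hc
    set q := Z - ∫ x, ρ x with hq
    have hq0 : 0 < q := by linarith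
    -- the shell estimate
    obtain ⟨M, hM0, hM⟩ := phi_decay hz R hρ.nice one_pos
    set C : ℝ := γ * (2/3 * Z + 1/3 * (28/3 * Real.pi)) with hC
    have hC0 : 0 ≤ C := by positivity
    set a : ℝ := max M (C / (q * (6 * Real.pi)) + 1) with ha
    have haM : M ≤ a := le_max_left _ _
    have ha0 : 0 < a := lt_of_lt_of_le hM0 haM
    have hRa : ∀ j, ‖R j‖ ≤ a := by
      obtain ⟨y, hy⟩ : ∃ y : E3, M ≤ ‖y‖ := by
        refine ⟨EuclideanSpace.single 0 |M|, ?_⟩
        rw [PiLp.norm_single, Real.norm_of_nonneg (abs_nonneg M)]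
        exact le_abs_self M
      intro j
      exact ((hM y hy).1 j).le.trans haM
    set f := sh a (2 * a) with hf
    have hfN : Nice f := sh_md.nice
    set F : ℝ := 2 * Real.pi * ((2 * a) ^ 2 - a ^ 2) with hF
    have hFe : F = 6 * Real.pi * a ^ 2 := by rw [hF]; ring
    obtain ⟨ip, vp⟩ := phi_pair (z := z) (R := R) hρ.nice hfN
    have h1 : q * F ≤ ∫ x, (Vn z R x - pot ρ x) * f x := by
      rw [vp]
      have h2 : ∑ j, z j * pot f (R j) = Z * F := by
        rw [hZ, Finset.sum_mul]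
        refine Finset.sum_congr rfl fun j _ => ?_
        rw [(pot_sh ha0 (by linarith) (R j)).2 (hRa j)]
      have h3 : ∫ x, ρ x * pot f x ≤ (∫ x, ρ x) * F := by
        rw [← integral_mul_const]
        exact integral_mono (pd_int ρ f hρ.nice hfN) (hρ.int.mul_const F) fun x =>
          mul_le_mul_of_nonneg_left (pot_sh ha0 (by linarith) x).1 (hρ.nonneg x)
      rw [h2, hq]
      linarith
    have h4 : ∫ x, (Vn z R x - pot ρ x) * f x ≤ C * a := by
      have h5 : ∫ x, (Vn z R x - pot ρ x) * f x ≤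
          ∫ x, (γ * (2/3 * a) * ρ x + γ * (1/3 * (1 / a ^ 2)) * f x) := by
        refine integral_mono_ae ip ((hρ.int.const_mul _).add (hfN.2.1.const_mul _)) ?_
        filter_upwards [heq] with x hx
        show (Vn z R x - pot ρ x) * f x ≤ γ * (2/3 * a) * ρ x + γ * (1/3 * (1 / a ^ 2)) * f x
        rw [← hx]
        have h0 := hρ.nonneg x
        have hf0 : 0 ≤ f x := sh_nonneg _ _ x
        have hf1 : f x ≤ 1 := sh_le _ _ x
        have hamgm : ρ x ^ (2/3 : ℝ) ≤ 2/3 * (a * ρ x) + 1/3 * (1 / a ^ 2) := by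
          have h6 := Real.geom_mean_le_arith_mean2_weighted (w₁ := 2/3) (w₂ := 1/3)
            (p₁ := a * ρ x) (p₂ := 1 / a ^ 2) (by norm_num) (by norm_num) (by positivity)
            (by positivity) (by norm_num)
          have h7 : (a * ρ x) ^ (2/3 : ℝ) * (1 / a ^ 2) ^ (1/3 : ℝ) = ρ x ^ (2/3 : ℝ) := by
            rw [Real.mul_rpow ha0.le h0, one_div, Real.inv_rpow (by positivity),
              ← Real.rpow_natCast a 2, ← Real.rpow_mul ha0.le]
            have : 0 < a ^ (2/3 : ℝ) := by positivity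
            norm_num
            field_simp
          rwa [h7] at h6
        have h8 : γ * ρ x ^ (2/3 : ℝ) * f x ≤ γ * (2/3 * (a * ρ x) + 1/3 * (1 / a ^ 2)) * f x :=
          mul_le_mul_of_nonneg_right (mul_le_mul_of_nonneg_left hamgm hγ.le) hf0
        have h9 : γ * (2/3 * (a * ρ x)) * f x ≤ γ * (2/3 * (a * ρ x)) * 1 :=
          mul_le_mul_of_nonneg_left hf1 (by positivity)
        linarith
      rw [integral_add (hρ.int.const_mul _) (hfN.2.1.const_mul _), integral_const_mul,
        integral_const_mul, hf, sh_mass ha0.le (by linarith)] at h5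
      refine h5.trans ?_
      have h10 : γ * (1/3 * (1 / a ^ 2)) * (4/3 * Real.pi * ((2 * a) ^ 3 - a ^ 3)) =
          γ * (1/3 * (28/3 * Real.pi)) * a := by
        field_simp; ring
      have h11 : γ * (2/3 * a) * (∫ x, ρ x) ≤ γ * (2/3 * a) * Z :=
        mul_le_mul_of_nonneg_left hm (by positivity)
      rw [h10, hC]
      linarith
    have h12 : q * (6 * Real.pi * a ^ 2) ≤ C * a := by rw [← hFe]; linarith
    have h13 : q * (6 * Real.pi) * a ≤ C := by
      have : q * (6 * Real.pi) * a * a ≤ C * a := by linarith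
      exact le_of_mul_le_mul_right this ha0
    have h14 : C / (q * (6 * Real.pi)) + 1 ≤ a := le_max_right _ _
    have h15 : C / (q * (6 * Real.pi)) < a := by linarith
    rw [div_lt_iff₀ (by positivity)] at h15
    linarith
  · -- positive chemical potential is impossible
    exfalso
    have hmass : ∫ x, ρ x = Z := by
      rcases mul_eq_zero.1 hcomp with h | h
      · exact absurd h hμp.ne'
      · linarith
    have hpos : ∀ x, (∀ j, 0 < z j → x ≠ R j) → 0 < Vn z R x - pot ρ x := by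
      intro x hx
      rw [← hphi]
      refine pos_nuc hz hNn hμp ?_ hj0 hx
      filter_upwards [hcond] with y hy hlt
      rw [hphi] at hlt
      rw [hy (by linarith)]; simp
    obtain ⟨M, hM0, hM⟩ := phi_decay hz R hρ.nice hμp
    have hRM : ∀ j, ‖R j‖ ≤ M := by
      obtain ⟨y, hy⟩ : ∃ y : E3, M ≤ ‖y‖ := by
        refine ⟨EuclideanSpace.single 0 |M|, ?_⟩
        rw [PiLp.norm_single, Real.norm_of_nonneg (abs_nonneg M)]
        exact le_abs_self M
      intro j
      exact ((hM y hy).1 j).le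
    have hout : ∀ᵐ x, M ≤ ‖x‖ → ρ x = 0 := by
      filter_upwards [hcond] with x hx hMx
      refine hx ?_
      have := (hM x hMx).2
      rw [abs_le] at this
      linarith [this.2]
    set f := sh M (2 * M) with hf
    have hfN : Nice f := sh_md.nice
    set F : ℝ := 2 * Real.pi * ((2 * M) ^ 2 - M ^ 2) with hF
    obtain ⟨ip, vp⟩ := phi_pair (z := z) (R := R) hρ.nice hfN
    have h1 : ∫ x, (Vn z R x - pot ρ x) * f x = 0 := by
      rw [vp]
      have h2 : ∑ j, z j * pot f (R j) = Z * F := by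
        rw [hZ, Finset.sum_mul]
        refine Finset.sum_congr rfl fun j _ => ?_
        rw [(pot_sh hM0 (by linarith) (R j)).2 (hRM j)]
      have h3 : ∫ x, ρ x * pot f x = (∫ x, ρ x) * F := by
        rw [← integral_mul_const]
        refine integral_congr_ae ?_
        filter_upwards [hout] with x hx
        by_cases hxM : M ≤ ‖x‖
        · rw [hx hxM]; ring
        · rw [(pot_sh hM0 (by linarith) x).2 (not_le.1 hxM).le]
      rw [h2, h3, hmass]; ring
    have hnn : 0 ≤ᵐ[volume] fun x => (Vn z R x - pot ρ x) * f x := by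
      filter_upwards [nuc_null R] with x hx
      exact mul_nonneg (hpos x fun j _ => hx j).le (sh_nonneg _ _ x)
    have h2 := (integral_eq_zero_iff_of_nonneg_ae hnn ip).1 h1
    have h3 : f =ᵐ[volume] 0 := by
      filter_upwards [h2, nuc_null R] with x hx hne
      have : (Vn z R x - pot ρ x) * f x = 0 := hx
      rcases mul_eq_zero.1 this with h | h
      · exact absurd h (hpos x fun j _ => hne j).ne'
      · exact h
    have h4 : ∫ x, f x = 0 := by
      rw [integral_congr_ae h3]; simp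
    rw [hf, sh_mass hM0.le (by linarith)] at h4
    have : 0 < 4/3 * Real.pi * ((2 * M) ^ 3 - M ^ 3) := by
      have : (2 * M) ^ 3 - M ^ 3 = 7 * M ^ 3 := by ring
      rw [this]; positivity
    linarith

end Pool.Agent.R999.Ex
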