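import Pool.Agent.H7R3.TfdwB

/-!
# Lower bounds for the gradient term by a comparison function `(1 + a|x|)^{-P/a}`
-/

set_option autoImplicit false

open MeasureTheory Filter Topology Set
open scoped ENNReal NNReal ContDiff

namespace Pool.Agent.R999.GradLow

open Pool.Agent.Results.MP_369429_mp.SmallCharge (R3 Admissible)
open Pool.Agent.H7R3.TfdwA (rr rr_pos rr_ge rr_sq rr_contDiff rr_lip rr_fderiv)
open Pool.Agent

/-- the logarithmic derivative of the comparison function -/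
noncomputable def hf (P a t : ℝ) : ℝ := P / (1 + a * t)

lemma hf_pos {P a t : ℝ} (hP : 0 < P) (ha : 0 < a) (ht : 0 ≤ t) : 0 < hf P a t := by
  unfold hf; positivity

lemma hf_le {P a t : ℝ} (hP : 0 < P) (ha : 0 < a) (ht : 0 ≤ t) : hf P a t ≤ P := by
  unfold hf
  rw [div_le_iff₀ (by positivity)]
  nlinarith [mul_nonneg hP.le (mul_nonneg ha.le ht)]

lemma hf_deriv {P a t : ℝ} (ha : 0 < a) (ht : 0 ≤ t) :
    HasDerivAt (hf P a) (-(P * a / (1 + a * t) ^ 2)) t := by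
  have h1 : HasDerivAt (fun t : ℝ => 1 + a * t) a t := by
    simpa using ((hasDerivAt_id t).const_mul a).const_add 1
  have h2 : (1 + a * t) ≠ 0 := by positivity
  have h3 := (h1.inv h2).const_mul P
  refine (h3.congr_deriv ?_).congr_of_eventuallyEq ?_
  · field_simp
  · exact Eventually.of_forall fun t => by unfold hf; simp [div_eq_mul_inv]

/-- the potential dominated by the gradient term, for smooth functions -/
lemma smooth_low {P a : ℝ} (hP : 0 < P) (ha : 0 < a)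
    (w : R3 → ℝ) (hw : ContDiff ℝ 1 w) (hw0 : ∀ x, 0 ≤ w x)
    (h2 : Integrable (fun x => w x ^ 2)) (hg : Integrable (fun x => ‖fderiv ℝ w x‖ ^ 2))
    {δ : ℝ} (hδ : 0 < δ) :
    Integrable (fun x => w x ^ 2 * (2 * hf P a (rr 0 δ x) / rr 0 δ x + (P ^ 2 + P * a)
      - (P ^ 2 + P * a) / (1 + a * rr 0 δ x) ^ 2)) ∧
    ∫ x, w x ^ 2 * (2 * hf P a (rr 0 δ x) / rr 0 δ x + (P ^ 2 + P * a)
      - (P ^ 2 + P * a) / (1 + a * rr 0 δ x) ^ 2) ≤
      (∫ x, ‖fderiv ℝ w x‖ ^ 2) + (P ^ 2 + P * a) * ∫ x, w x ^ 2 := by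
  have hr := rr_contDiff (0:R3) hδ
  have hrc : Continuous (rr (0:R3) δ) := hr.continuous
  have hrpos := rr_pos (0:R3) hδ
  have hrge := rr_ge (0:R3) hδ
  have hwc := hw.continuous
  have hwd : Differentiable ℝ w := hw.differentiable (by simp)
  have hrd : Differentiable ℝ (rr (0:R3) δ) := hr.differentiable (by simp)
  have hden : ∀ x : R3, 0 < 1 + a * rr 0 δ x := fun x => by have := hrpos x; positivity
  set q : R3 → ℝ := fun x => hf P a (rr 0 δ x) with hq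
  have hqC : ContDiff ℝ 1 q := by
    have : ContDiff ℝ 1 (fun x : R3 => P / (1 + a * rr 0 δ x)) :=
      contDiff_const.div (contDiff_const.add (contDiff_const.mul hr)) fun x => (hden x).ne'
    exact this
  have hqpos : ∀ x, 0 < q x := fun x => hf_pos hP ha (hrpos x).le
  have hqle : ∀ x, q x ≤ P := fun x => hf_le hP ha (hrpos x).le
  let F : R3 → ℝ := fun x => w x ^ 2 * q x
  have hF : ContDiff ℝ 1 F := (hw.pow 2).mul hqC
  have hF0 : ∀ x, 0 ≤ F x := fun x => mul_nonneg (sq_nonneg _) (hqpos x).le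
  have hFint : Integrable F := by
    refine (h2.const_mul P).mono' hF.continuous.aestronglyMeasurable (ae_of_all _ fun x => ?_)
    rw [Real.norm_of_nonneg (hF0 x)]
    show w x ^ 2 * q x ≤ P * w x ^ 2
    nlinarith [sq_nonneg (w x), hqle x, mul_le_mul_of_nonneg_left (hqle x) (sq_nonneg (w x))]
  have hFd : ∀ x, ‖fderiv ℝ F x‖ ≤ ‖fderiv ℝ w x‖ ^ 2 +
      (P ^ 2 + P * a) / (1 + a * rr 0 δ x) ^ 2 * w x ^ 2 := by
    intro x
    have hrx := hrpos x
    have hd := hden x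
    have e1 : HasFDerivAt F (w x ^ 2 • (-(P * a / (1 + a * rr 0 δ x) ^ 2) • fderiv ℝ (rr 0 δ) x)
        + q x • ((2 * w x ^ (2 - 1)) • fderiv ℝ w x)) x := by
      have h1 := ((hwd x).hasFDerivAt).pow 2
      have h2 := (hf_deriv (P := P) ha hrx.le).comp_hasFDerivAt x (hrd x).hasFDerivAt
      have h3 := h1.mul h2
      refine h3.congr_fderiv ?_
      simp [hq]
    rw [e1.fderiv]
    refine (norm_add_le _ _).trans ?_
    rw [norm_smul, norm_smul, norm_smul, norm_smul, norm_neg]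
    have h4 := rr_fderiv (0:R3) hδ x
    have hqx := hqpos x
    rw [Real.norm_of_nonneg (by positivity : 0 ≤ w x ^ 2),
      Real.norm_of_nonneg (by positivity : 0 ≤ P * a / (1 + a * rr 0 δ x) ^ 2),
      Real.norm_of_nonneg hqx.le]
    have hwx := hw0 x
    rw [Real.norm_of_nonneg (by simp; positivity)]
    have h5 : w x ^ 2 * (P * a / (1 + a * rr 0 δ x) ^ 2 * ‖fderiv ℝ (rr 0 δ) x‖) ≤
        w x ^ 2 * (P * a / (1 + a * rr 0 δ x) ^ 2) := by
      refine mul_le_mul_of_nonneg_left ?_ (by positivity)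
      exact mul_le_of_le_one_right (by positivity) h4
    have h6 : q x * (2 * w x ^ (2 - 1) * ‖fderiv ℝ w x‖) ≤ ‖fderiv ℝ w x‖ ^ 2 +
        P ^ 2 / (1 + a * rr 0 δ x) ^ 2 * w x ^ 2 := by
      have e : P ^ 2 / (1 + a * rr 0 δ x) ^ 2 = q x ^ 2 := by
        rw [hq]; simp only [hf]; rw [div_pow]
      rw [e]
      have : w x ^ (2 - 1) = w x := by norm_num
      rw [this]
      nlinarith [sq_nonneg (q x * w x - ‖fderiv ℝ w x‖)]
    calc _ ≤ w x ^ 2 * (P * a / (1 + a * rr 0 δ x) ^ 2) + (‖fderiv ℝ w x‖ ^ 2 +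
        P ^ 2 / (1 + a * rr 0 δ x) ^ 2 * w x ^ 2) := add_le_add h5 h6
      _ = _ := by ring
  have hk : ∀ x : R3, 0 ≤ (P ^ 2 + P * a) / (1 + a * rr 0 δ x) ^ 2 ∧
      (P ^ 2 + P * a) / (1 + a * rr 0 δ x) ^ 2 ≤ P ^ 2 + P * a := by
    intro x
    have hd := hden x
    refine ⟨by positivity, ?_⟩
    apply div_le_self (by positivity)
    have : 1 ≤ 1 + a * rr 0 δ x := by have := hrpos x; nlinarith [mul_pos ha this]
    nlinarith
  have hkc : Continuous fun x : R3 => (P ^ 2 + P * a) / (1 + a * rr 0 δ x) ^ 2 :=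
    continuous_const.div ((continuous_const.add (continuous_const.mul hrc)).pow 2)
      fun x => (pow_pos (hden x) 2).ne'
  have hIk : Integrable (fun x => (P ^ 2 + P * a) / (1 + a * rr 0 δ x) ^ 2 * w x ^ 2) := by
    refine (h2.const_mul (P ^ 2 + P * a)).mono' (hkc.mul (hwc.pow 2)).aestronglyMeasurable
      (ae_of_all _ fun x => ?_)
    rw [Real.norm_of_nonneg (mul_nonneg (hk x).1 (sq_nonneg _))]
    exact mul_le_mul_of_nonneg_right (hk x).2 (sq_nonneg _)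
  have hFint' : Integrable (fun x => ‖fderiv ℝ F x‖) := by
    refine (hg.add hIk).mono' ?_ (ae_of_all _ fun x => ?_)
    · exact (hF.continuous_fderiv (by simp)).norm.aestronglyMeasurable
    · rw [Real.norm_of_nonneg (norm_nonneg _)]; exact hFd x
  have hH := Helper149.Hardy.hardyL1 F hF hF0 hFint hFint' 0 δ hδ
  have hI0 : Integrable (fun x => 2 * F x / √(‖x - 0‖ ^ 2 + δ ^ 2)) :=
    Helper149.Hardy.integrable_div_sqrt (hFint.const_mul 2) 0 δ hδ
  have hle : ∫ x, ‖fderiv ℝ F x‖ ≤ (∫ x, ‖fderiv ℝ w x‖ ^ 2) +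
      ∫ x, (P ^ 2 + P * a) / (1 + a * rr 0 δ x) ^ 2 * w x ^ 2 := by
    rw [← integral_add hg hIk]
    exact integral_mono hFint' (hg.add hIk) hFd
  have e : ∀ x, w x ^ 2 * (2 * hf P a (rr 0 δ x) / rr 0 δ x + (P ^ 2 + P * a)
      - (P ^ 2 + P * a) / (1 + a * rr 0 δ x) ^ 2) = 2 * F x / √(‖x - 0‖ ^ 2 + δ ^ 2) +
      (P ^ 2 + P * a) * w x ^ 2 - (P ^ 2 + P * a) / (1 + a * rr 0 δ x) ^ 2 * w x ^ 2 := by
    intro x
    show _ = 2 * (w x ^ 2 * q x) / rr 0 δ x + _ - _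
    rw [hq]
    ring
  simp only [e]
  have hI1 : Integrable (fun x => 2 * F x / √(‖x - 0‖ ^ 2 + δ ^ 2) +
      (P ^ 2 + P * a) * w x ^ 2) := hI0.add (h2.const_mul _)
  refine ⟨hI1.sub hIk, ?_⟩
  rw [integral_sub hI1 hIk, integral_add hI0 (h2.const_mul _),
    integral_const_mul]
  linarith

/-- The same for admissible densities. -/
theorem grad_low {P a p : ℝ} (hP : 0 < P) (ha : 0 < a) (hp : 4 / 3 < p) {ρ : R3 → ℝ} {g : R3 → R3}
    (h : Admissible p ρ g) :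
    Integrable (fun x => ρ x * (2 * P / (‖x‖ * (1 + a * ‖x‖)) -
      (P ^ 2 + P * a) / (1 + a * ‖x‖) ^ 2)) ∧
    ∫ x, ρ x * (2 * P / (‖x‖ * (1 + a * ‖x‖)) - (P ^ 2 + P * a) / (1 + a * ‖x‖) ^ 2) ≤
      ∫ x, ‖g x‖ ^ 2 := by
  obtain ⟨hg2, -, w, hws, hw0, hwlim, hw2, -, -, hwgrad⟩ :=
    Pool.Agent.Results.MP_369429_mp.SmallCharge.approx hp h
  let δ : ℕ → ℝ := fun n => 1 / ((n:ℝ) + 1)
  have hδ : ∀ n, 0 < δ n := fun n => by positivity
  have hδlim : Tendsto δ atTop (𝓝 0) := tendsto_one_div_add_atTop_nhds_zero_nat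
  have hs := fun n => smooth_low hP ha (w n) ((hws n).of_le (by simp)) (hw0 n) (hw2 n).1
    (hwgrad n).1 (hδ n)
  have hfat := Helper149.Fatou.fatou_real (μ := (volume : Measure R3))
    (fun n x => w n x ^ 2 * (2 * hf P a (rr 0 (δ n) x) / rr 0 (δ n) x + (P ^ 2 + P * a)
      - (P ^ 2 + P * a) / (1 + a * rr 0 (δ n) x) ^ 2))
    (fun x => ρ x * (2 * hf P a ‖x‖ / ‖x‖ + (P ^ 2 + P * a)
      - (P ^ 2 + P * a) / (1 + a * ‖x‖) ^ 2))
    ((∫ x, ‖g x‖ ^ 2) + (P ^ 2 + P * a) * ∫ x, ρ x) (fun n x => ?_) (fun n => (hs n).1)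
    (fun n => ?_) ?_
  · have hi := h.integrable.const_mul (P ^ 2 + P * a)
    have e : ∀ᵐ x : R3, ρ x * (2 * P / (‖x‖ * (1 + a * ‖x‖)) -
        (P ^ 2 + P * a) / (1 + a * ‖x‖) ^ 2) = ρ x * (2 * hf P a ‖x‖ / ‖x‖ + (P ^ 2 + P * a)
      - (P ^ 2 + P * a) / (1 + a * ‖x‖) ^ 2) - (P ^ 2 + P * a) * ρ x := by
      refine ae_of_all _ fun x => ?_
      unfold hf
      have : 2 * P / (‖x‖ * (1 + a * ‖x‖)) = 2 * (P / (1 + a * ‖x‖)) / ‖x‖ := by
        rw [mul_div_assoc', div_div, mul_comm ‖x‖]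
      rw [this]
      ring
    refine ⟨(hfat.1.sub hi).congr (e.mono fun x hx => hx.symm), ?_⟩
    rw [integral_congr_ae e, integral_sub hfat.1 hi, integral_const_mul]
    linarith [hfat.2]
  · have hrx := rr_pos (0:R3) (hδ n) x
    have hd : 1 ≤ 1 + a * rr 0 (δ n) x := by nlinarith [mul_pos ha hrx]
    have h1 : (P ^ 2 + P * a) / (1 + a * rr 0 (δ n) x) ^ 2 ≤ P ^ 2 + P * a := by
      apply div_le_self (by positivity)
      nlinarith
    have h2 := (hf_pos hP ha hrx.le).le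
    have h3 : 0 ≤ 2 * hf P a (rr 0 (δ n) x) / rr 0 (δ n) x := by positivity
    exact mul_nonneg (sq_nonneg _) (by linarith)
  · refine (hs n).2.trans ?_
    have h1 := (hwgrad n).2
    have h2 := mul_le_mul_of_nonneg_left (hw2 n).2 (by positivity : 0 ≤ P ^ 2 + P * a)
    linarith
  · have hne : ∀ᵐ x : R3, x ≠ 0 := by
      rw [ae_iff]
      simp
    filter_upwards [hwlim, hne] with x hx hxa
    have hxa' : 0 < ‖x‖ := norm_pos_iff.mpr hxa
    have h3 : Tendsto (fun n => rr 0 (δ n) x) atTop (𝓝 ‖x‖) := by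
      have : Tendsto (fun n => √(‖x - 0‖ ^ 2 + δ n ^ 2)) atTop (𝓝 (√(‖x - 0‖ ^ 2 + 0 ^ 2))) :=
        ((hδlim.pow 2).const_add (‖x - 0‖ ^ 2)).sqrt
      simpa [rr, Real.sqrt_sq hxa'.le] using this
    have hd : 1 + a * ‖x‖ ≠ 0 := by positivity
    have h4 : Tendsto (fun n => 1 + a * rr 0 (δ n) x) atTop (𝓝 (1 + a * ‖x‖)) :=
      (h3.const_mul a).const_add 1
    have h5 : Tendsto (fun n => hf P a (rr 0 (δ n) x)) atTop (𝓝 (hf P a ‖x‖)) :=
      tendsto_const_nhds.div h4 hd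
    refine hx.mul (((((h5.const_mul 2).div h3 hxa'.ne')).add_const _).sub ?_)
    exact tendsto_const_nhds.div (h4.pow 2) (pow_ne_zero 2 hd)

end Pool.Agent.R999.GradLow
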