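import Pool.Agent.R999.FAf
import Pool.Agent.R999.GradLow

/-!
# Lower bound for the two-electron Fermi-Amaldi energy with `z = 1`
-/

set_option autoImplicit false

namespace Pool.Agent.R999.FALow

open MeasureTheory Set Filter Topology Metric
open Pool.Agent.R999.Newton Pool.Agent.R999.FAf Pool.Agent.R999.GradLow
open Pool.Agent.Results.MP_369429_mp.SmallCharge (R3 Admissible)
open Pool.Agent.TH791.Cl (pot)
open scoped ENNReal

/-- `γ = (3 π²)^{2/3}` -/
noncomputable def gam : ℝ := (3 * Real.pi ^ 2) ^ ((2:ℝ) / 3)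

lemma gam_pos : 0 < gam := by
  unfold gam
  have := Real.pi_pos
  positivity

lemma gam_pow : gam ^ (3/2 : ℝ) = 3 * Real.pi ^ 2 := by
  unfold gam
  have := Real.pi_pos
  rw [← Real.rpow_mul (by positivity)]
  norm_num

lemma young (a w : ℝ) (ha : 0 ≤ a) (hw : 0 ≤ w) :
    a * w ^ 2 ≤ 3/5 * gam * a ^ (5/3 : ℝ) + 2 / (15 * Real.pi ^ 2) * w ^ 5 := by
  have hpi := Real.pi_pos
  have hg := gam_pos
  have hconj : Real.HolderConjugate (5/3) (5/2) := by
    rw [Real.holderConjugate_iff]; norm_num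
  have h := Real.young_inequality_of_nonneg (a := gam ^ (3/5 : ℝ) * a) (b := w ^ 2 * gam ^ (-(3/5) : ℝ))
    (by positivity) (by positivity) hconj
  have e1 : gam ^ (3/5 : ℝ) * a * (w ^ 2 * gam ^ (-(3/5) : ℝ)) = a * w ^ 2 := by
    have : gam ^ (3/5 : ℝ) * gam ^ (-(3/5) : ℝ) = 1 := by
      rw [← Real.rpow_add hg]; norm_num
    linear_combination (a * w ^ 2) * this
  have e2 : (gam ^ (3/5 : ℝ) * a) ^ (5/3 : ℝ) = gam * a ^ (5/3 : ℝ) := by
    rw [Real.mul_rpow (by positivity) ha, ← Real.rpow_mul hg.le]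
    norm_num
  have e3 : (w ^ 2 * gam ^ (-(3/5) : ℝ)) ^ (5/2 : ℝ) = w ^ 5 / (3 * Real.pi ^ 2) := by
    rw [Real.mul_rpow (by positivity) (by positivity), ← Real.rpow_mul hg.le]
    have h1 : (w ^ 2) ^ (5/2 : ℝ) = w ^ 5 := by
      rw [← Real.rpow_natCast w 2, ← Real.rpow_mul hw, ← Real.rpow_natCast w 5]
      norm_num
    have h2 : gam ^ (-(3/5) * (5/2) : ℝ) = (3 * Real.pi ^ 2)⁻¹ := by
      rw [← gam_pow, ← Real.rpow_neg hg.le]
      norm_num
    rw [h1, h2]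
    ring
  rw [e1, e2, e3] at h
  refine h.trans (le_of_eq ?_)
  field_simp
  ring

/-- the comparison profile -/
noncomputable def wf (t : ℝ) : ℝ := 9/5 / (1 + 5/4 * t)

lemma wf_int : Integrable (fun x : R3 => wf ‖x‖ ^ 5) ∧
    ∫ x : R3, wf ‖x‖ ^ 5 = Real.pi * (9/5) ^ 5 / (3 * (5/4) ^ 3) := by
  have hpi := Real.pi_pos
  have hd : ∀ t ∈ Ici (0:ℝ), HasDerivAt
      (fun t : ℝ => (9/5) ^ 5 * (t ^ 3 * (5/4 * t + 4)) / (12 * (1 + 5/4 * t) ^ 4))
      (t ^ 2 * wf t ^ 5) t := by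
    intro t ht
    have ht' : (0:ℝ) ≤ t := ht
    have ht0 : 0 < 1 + 5/4 * t := by positivity
    have h1 : HasDerivAt (fun t : ℝ => (12 * (1 + 5/4 * t) ^ 4)) (12 * (4 * (1 + 5/4 * t) ^ 3 * (5/4))) t := by
      have := ((((hasDerivAt_id t).const_mul (5/4 : ℝ)).const_add 1).pow 4).const_mul 12
      simpa using this
    have h0 : HasDerivAt (fun t : ℝ => (9/5 : ℝ) ^ 5 * (t ^ 3 * (5/4 * t + 4)))
        ((9/5 : ℝ) ^ 5 * (3 * t ^ 2 * (5/4 * t + 4) + t ^ 3 * (5/4))) t := by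
      have h := ((hasDerivAt_pow 3 t).mul (((hasDerivAt_id t).const_mul (5/4 : ℝ)).add_const 4)).const_mul
        ((9/5 : ℝ) ^ 5)
      exact h.congr_deriv (by simp)
    have h2 := h0.div h1 (by positivity)
    refine h2.congr_deriv ?_
    unfold wf
    field_simp
    ring
  have hl : Tendsto (fun t : ℝ => (9/5) ^ 5 * (t ^ 3 * (5/4 * t + 4)) / (12 * (1 + 5/4 * t) ^ 4)) atTop
      (𝓝 ((9/5) ^ 5 / (12 * (5/4) ^ 3))) := by
    have hs : (0:ℝ) < 4/5 := by norm_num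
    have h1 := (((lim_frac1 hs).pow 3).mul ((lim_frac1 hs).add ((lim_frac (4/5)).const_mul 4))).const_mul
      ((9/5 : ℝ) ^ 5 / (12 * (5/4) ^ 3))
    simp only [one_pow, mul_zero, add_zero, mul_one] at h1
    refine h1.congr' ?_
    filter_upwards [eventually_gt_atTop 0] with t ht
    field_simp
    ring
  obtain ⟨a, b⟩ := ioi (hd 0 self_mem_Ici).continuousAt.continuousWithinAt
    (fun t ht => hd t (Ioi_subset_Ici_self ht))
    (fun t ht => by
      have h1 : 0 < t := ht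
      unfold wf
      positivity) hl
  refine ⟨integrable_radial.2 a, ?_⟩
  rw [int_radial (fun t => wf t ^ 5), b]
  norm_num
  ring

/-- the pointwise inequality -/
lemma pointwise {r : ℝ} (hr : 0 < r) :
    1 / r ≤ 0.1859 * (2 * 3 / (r * (1 + 2 * r)) - (3 ^ 2 + 3 * 2) / (1 + 2 * r) ^ 2) + wf r ^ 2
      + 1 / (r + 9/4) + 1/200 := by
  have key : 0 ≤ (5193/20000 : ℝ) - 23781/20000 * r + 152821/320000 * r ^ 2 + 531581/128000 * r ^ 3
      - 2193/1280 * r ^ 4 + 97/640 * r ^ 5 + 1/32 * r ^ 6 := by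
    rcases le_total r (1/2) with h | h
    · have hu : 0 ≤ r - 0 := by linarith
      have hv : 0 ≤ (1/2) - r := by linarith
      calc (0:ℝ) ≤ 10386/625 * (r - 0) ^ 0 * ((1/2) - r) ^ 6 +
            7707/125 * (r - 0) ^ 1 * ((1/2) - r) ^ 5 +
            1333141/20000 * (r - 0) ^ 2 * ((1/2) - r) ^ 4 +
            1251521/80000 * (r - 0) ^ 3 * ((1/2) - r) ^ 3 +
            594609/80000 * (r - 0) ^ 4 * ((1/2) - r) ^ 2 +
            2103209/80000 * (r - 0) ^ 5 * ((1/2) - r) ^ 1 +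
            1033129/80000 * (r - 0) ^ 6 * ((1/2) - r) ^ 0 := by positivity
        _ = _ := by ring
    · rcases le_total r 1 with h2 | h2
      · have hu : 0 ≤ r - (1/2) := by linarith
        have hv : 0 ≤ 1 - r := by linarith
        calc (0:ℝ) ≤ 1033129/80000 * (r - (1/2)) ^ 0 * (1 - r) ^ 6 +
              10294339/80000 * (r - (1/2)) ^ 1 * (1 - r) ^ 5 +
              41550259/80000 * (r - (1/2)) ^ 2 * (1 - r) ^ 4 +
              84677631/80000 * (r - (1/2)) ^ 3 * (1 - r) ^ 3 +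
              45894147/40000 * (r - (1/2)) ^ 4 * (1 - r) ^ 2 +
              2525553/4000 * (r - (1/2)) ^ 5 * (1 - r) ^ 1 +
              1389231/10000 * (r - (1/2)) ^ 6 * (1 - r) ^ 0 := by positivity
          _ = _ := by ring
      · rcases le_total r 2 with h3 | h3
        · have hu : 0 ≤ r - 1 := by linarith
          have hv : 0 ≤ 2 - r := by linarith
          calc (0:ℝ) ≤ 1389231/640000 * (r - 1) ^ 0 * (2 - r) ^ 6 +
                12378393/640000 * (r - 1) ^ 1 * (2 - r) ^ 5 +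
                44023857/640000 * (r - 1) ^ 2 * (2 - r) ^ 4 +
                79738023/640000 * (r - 1) ^ 3 * (2 - r) ^ 3 +
                19426223/160000 * (r - 1) ^ 4 * (2 - r) ^ 2 +
                9737891/160000 * (r - 1) ^ 5 * (2 - r) ^ 1 +
                797/64 * (r - 1) ^ 6 * (2 - r) ^ 0 := by positivity
            _ = _ := by ring
        · have hu : 0 ≤ r - 2 := by linarith
          calc (0:ℝ) ≤ 797/64 * (r - 2) ^ 0 +
                2217109/160000 * (r - 2) ^ 1 +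
                156067/40000 * (r - 2) ^ 2 +
                193181/128000 * (r - 2) ^ 3 +
                2147/1280 * (r - 2) ^ 4 +
                337/640 * (r - 2) ^ 5 +
                1/32 * (r - 2) ^ 6 := by positivity
            _ = _ := by ring
  have e : 0.1859 * (2 * 3 / (r * (1 + 2 * r)) - (3 ^ 2 + 3 * 2) / (1 + 2 * r) ^ 2) + wf r ^ 2
      + 1 / (r + 9/4) + 1/200 - 1 / r = ((5193/20000 : ℝ) - 23781/20000 * r + 152821/320000 * r ^ 2
      + 531581/128000 * r ^ 3 - 2193/1280 * r ^ 4 + 97/640 * r ^ 5 + 1/32 * r ^ 6) /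
      (r * (1 + 2 * r) ^ 2 * (1 + 5/4 * r) ^ 2 * (r + 9/4)) := by
    unfold wf
    field_simp
    ring
  have h2 : 0 ≤ 0.1859 * (2 * 3 / (r * (1 + 2 * r)) - (3 ^ 2 + 3 * 2) / (1 + 2 * r) ^ 2) + wf r ^ 2
      + 1 / (r + 9/4) + 1/200 - 1 / r := by
    rw [e]
    positivity
  linarith

lemma div_norm_int {p : ℝ} (hp : 4 / 3 < p) {ρ : R3 → ℝ} {g : R3 → R3} (h : Admissible p ρ g) :
    Integrable (fun x => ρ x / ‖x‖) := by
  have h1 := (Pool.Agent.H7R3.TfdwA.hardy2 hp h 0).1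
  refine (h1.add h.integrable).mono' ?_ (ae_of_all _ fun x => ?_)
  · exact (h.integrable.aestronglyMeasurable.aemeasurable.div
      measurable_norm.aemeasurable).aestronglyMeasurable
  · have h0 := h.nonneg x
    rw [Real.norm_of_nonneg (by positivity)]
    show ρ x / ‖x‖ ≤ ρ x / ‖x - 0‖ ^ 2 + ρ x
    rw [sub_zero]
    rcases (norm_nonneg x).eq_or_lt with h2 | h2
    · rw [← h2]; simp [h0]
    · have : 1 / ‖x‖ ≤ 1 / ‖x‖ ^ 2 + 1 := by
        have h3 : 0 ≤ (1 / ‖x‖) ^ 2 - 1 / ‖x‖ + 1 := by nlinarith [sq_nonneg (1 / ‖x‖ - 1/2)]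
        have h4 : (1 / ‖x‖) ^ 2 = 1 / ‖x‖ ^ 2 := by rw [div_pow, one_pow]
        linarith
      have h5 := mul_le_mul_of_nonneg_left this h0
      calc ρ x / ‖x‖ = ρ x * (1 / ‖x‖) := by ring
        _ ≤ _ := h5
        _ = _ := by ring

/-- **Lower bound** for two electrons. -/
theorem lower2 {ρ : R3 → ℝ} {g : R3 → R3} (h : Admissible (5/3) ρ g) (hm : ∫ x, ρ x = 2) :
    -0.2952 ≤ 0.1859 * (∫ x, ‖g x‖ ^ 2) + 3/5 * gam * (∫ x, ρ x ^ (5/3 : ℝ)) - (∫ x, ρ x / ‖x‖)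
      + 1/2 * (1/2 * ∫ x, ∫ y, ρ x * ρ y / ‖x - y‖) := by
  have hpi := Real.pi_pos
  have hp : (4:ℝ)/3 < 5/3 := by norm_num
  have hs : (0:ℝ) < 9/4 := by norm_num
  obtain ⟨g1, g2⟩ := grad_low (P := 3) (a := 2) (by norm_num) (by norm_num) hp h
  obtain ⟨w1, w2⟩ := wf_int
  have iq := div_norm_int hp h
  obtain ⟨d1, d2⟩ := dual_coulomb h.nonneg h.integrable h.integrable_rpow (nice_fs hs)
  rw [energy_fs hs] at d2
  simp only [pot_fs hs] at d1 d2
  have hwle : ∀ x : R3, 0 ≤ wf ‖x‖ ∧ wf ‖x‖ ≤ 9/5 := by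
    intro x
    have := norm_nonneg x
    unfold wf
    refine ⟨by positivity, div_le_self (by norm_num) (by nlinarith)⟩
  have iw : Integrable (fun x => ρ x * wf ‖x‖ ^ 2) := by
    refine h.integrable.mul_bdd (c := (9/5) ^ 2) ?_ (ae_of_all _ fun x => ?_)
    · have : Measurable wf := by unfold wf; fun_prop
      exact ((this.comp measurable_norm).pow_const 2).aestronglyMeasurable
    · rw [Real.norm_of_nonneg (by positivity)]
      exact pow_le_pow_left₀ (hwle x).1 (hwle x).2 2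
  have y1 : ∫ x, ρ x * wf ‖x‖ ^ 2 ≤ 3/5 * gam * (∫ x, ρ x ^ (5/3 : ℝ)) +
      2 / (15 * Real.pi ^ 2) * (Real.pi * (9/5) ^ 5 / (3 * (5/4) ^ 3)) := by
    rw [← w2, ← integral_const_mul, ← integral_const_mul,
      ← integral_add (h.integrable_rpow.const_mul _) (w1.const_mul _)]
    exact integral_mono iw ((h.integrable_rpow.const_mul _).add (w1.const_mul _))
      fun x => young (ρ x) (wf ‖x‖) (h.nonneg x) (hwle x).1
  have y2 : 2 / (15 * Real.pi ^ 2) * (Real.pi * (9/5) ^ 5 / (3 * (5/4) ^ 3)) ≤ 0.13699 := by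
    have e : 2 / (15 * Real.pi ^ 2) * (Real.pi * (9/5) ^ 5 / (3 * (5/4) ^ 3)) =
        (2 * (9/5) ^ 5 / (45 * (5/4) ^ 3)) / Real.pi := by
      field_simp
      ring
    rw [e, div_le_iff₀ hpi]
    have := Real.pi_gt_d4
    norm_num at this ⊢
    linarith
  have ig : Integrable (fun x => 0.1859 * (ρ x * (2 * 3 / (‖x‖ * (1 + 2 * ‖x‖)) -
      (3 ^ 2 + 3 * 2) / (1 + 2 * ‖x‖) ^ 2))) := g1.const_mul _
  have id : Integrable (fun x => 1/2 * (ρ x * (2 / (‖x‖ + 9/4)))) := d1.const_mul _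
  have i3 : Integrable (fun x => 1/200 * ρ x) := h.integrable.const_mul _
  have key : ∫ x, ρ x / ‖x‖ ≤ ∫ x, (0.1859 * (ρ x * (2 * 3 / (‖x‖ * (1 + 2 * ‖x‖)) -
      (3 ^ 2 + 3 * 2) / (1 + 2 * ‖x‖) ^ 2)) + ρ x * wf ‖x‖ ^ 2 + 1/2 * (ρ x * (2 / (‖x‖ + 9/4)))
      + 1/200 * ρ x) := by
    refine integral_mono_ae iq (((ig.add iw).add id).add i3) ?_
    have hne : ∀ᵐ x : R3, x ≠ 0 := by
      rw [ae_iff]
      simp
    filter_upwards [hne] with x hx
    have hx' : 0 < ‖x‖ := norm_pos_iff.mpr hx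
    have h1 := mul_le_mul_of_nonneg_left (pointwise hx') (h.nonneg x)
    calc ρ x / ‖x‖ = ρ x * (1 / ‖x‖) := by ring
      _ ≤ _ := h1
      _ = _ := by ring
  have hI1 : Integrable (fun x => 0.1859 * (ρ x * (2 * 3 / (‖x‖ * (1 + 2 * ‖x‖)) -
      (3 ^ 2 + 3 * 2) / (1 + 2 * ‖x‖) ^ 2)) + ρ x * wf ‖x‖ ^ 2) := ig.add iw
  have hI2 : Integrable (fun x => 0.1859 * (ρ x * (2 * 3 / (‖x‖ * (1 + 2 * ‖x‖)) -
      (3 ^ 2 + 3 * 2) / (1 + 2 * ‖x‖) ^ 2)) + ρ x * wf ‖x‖ ^ 2 + 1/2 * (ρ x * (2 / (‖x‖ + 9/4)))) :=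
    hI1.add id
  rw [integral_add hI2 i3, integral_add hI1 id, integral_add ig iw, integral_const_mul,
    integral_const_mul, integral_const_mul, hm] at key
  have g3 := mul_le_mul_of_nonneg_left g2 (by norm_num : (0:ℝ) ≤ 0.1859)
  norm_num at d2 key ⊢
  norm_num at y1 y2 g3
  linarith

end Pool.Agent.R999.FALow
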