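import Pool.Agent.R999.FALow

/-!
# The exponential trial density for one electron
-/

set_option autoImplicit false

namespace Pool.Agent.R999.FATrial

open MeasureTheory Set Filter Topology Metric
open Pool.Agent.R999.Newton Pool.Agent.R999.FALow
open Pool.Agent.Results.MP_369429_mp.SmallCharge (R3 Admissible)
open scoped ENNReal ContDiff

/-- `∫_0^∞ t^n e^{-bt} dt = n! / b^{n+1}` -/
lemma exp_int (n : ℕ) {b : ℝ} (hb : 0 < b) :
    IntegrableOn (fun t : ℝ => t ^ n * Real.exp (-(b * t))) (Ioi 0) ∧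
    ∫ t in Ioi (0:ℝ), t ^ n * Real.exp (-(b * t)) = n.factorial / b ^ (n + 1) := by
  have h := Real.integral_rpow_mul_exp_neg_mul_Ioi (a := (n:ℝ) + 1) (r := b) (by positivity) hb
  have e : ∀ t ∈ Ioi (0:ℝ), t ^ ((n:ℝ) + 1 - 1) * Real.exp (-(b * t)) = t ^ n * Real.exp (-(b * t)) := by
    intro t ht
    rw [add_sub_cancel_right, Real.rpow_natCast]
  rw [setIntegral_congr_fun measurableSet_Ioi e] at h
  have hv : (1 / b) ^ ((n:ℝ) + 1) * Real.Gamma ((n:ℝ) + 1) = n.factorial / b ^ (n + 1) := by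
    rw [Real.Gamma_nat_eq_factorial]
    have : (1 / b) ^ ((n:ℝ) + 1) = (1 / b) ^ (n + 1) := by
      rw [← Real.rpow_natCast]; push_cast; rfl
    rw [this]
    rw [div_pow, one_pow]
    ring
  rw [hv] at h
  refine ⟨?_, h⟩
  by_contra hc
  have := integral_undef hc
  rw [h] at this
  have : 0 < (n.factorial : ℝ) / b ^ (n + 1) := by positivity
  linarith

/-- the trial amplitude -/
noncomputable def psi (C b : ℝ) (x : R3) : ℝ := √C * Real.exp (-(b / 2 * ‖x‖))

/-- its gradient -/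
noncomputable def gpsi (C b : ℝ) (x : R3) : R3 := (-(b / 2) * psi C b x / ‖x‖) • x

/-- the trial density -/
noncomputable def rhoT (C b : ℝ) (x : R3) : ℝ := C * Real.exp (-(b * ‖x‖))

lemma exp_lip {s t : ℝ} (hs : 0 ≤ s) (ht : 0 ≤ t) : |Real.exp (-s) - Real.exp (-t)| ≤ |s - t| := by
  have key : ∀ s t : ℝ, 0 ≤ s → s ≤ t → Real.exp (-s) - Real.exp (-t) ≤ t - s := by
    intro s t hs hst
    have h1 : Real.exp (-t) = Real.exp (-s) * Real.exp (-(t - s)) := by
      rw [← Real.exp_add]; congr 1; ring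
    have h2 : 1 - (t - s) ≤ Real.exp (-(t - s)) := by
      have := Real.add_one_le_exp (-(t - s)); linarith
    have h3 : Real.exp (-s) ≤ 1 := Real.exp_le_one_iff.2 (by linarith)
    have h4 := Real.exp_pos (-s)
    rw [h1]
    nlinarith
  rcases le_total s t with h | h
  · rw [abs_of_nonneg (by
      have : Real.exp (-t) ≤ Real.exp (-s) := Real.exp_le_exp.2 (by linarith)
      linarith), abs_of_nonpos (by linarith)]
    have := key s t hs h
    linarith
  · rw [abs_of_nonpos (by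
      have : Real.exp (-s) ≤ Real.exp (-t) := Real.exp_le_exp.2 (by linarith)
      linarith), abs_of_nonneg (by linarith)]
    have := key t s ht h
    linarith

lemma psi_lip (C : ℝ) {b : ℝ} (hb : 0 < b) :
    LipschitzWith (Real.toNNReal (√C * (b / 2))) (psi C b) := by
  refine LipschitzWith.of_dist_le_mul fun x y => ?_
  rw [Real.coe_toNNReal _ (by positivity), Real.dist_eq, dist_eq_norm]
  unfold psi
  rw [← mul_sub, abs_mul, abs_of_nonneg (Real.sqrt_nonneg C), mul_assoc]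
  refine mul_le_mul_of_nonneg_left ?_ (Real.sqrt_nonneg C)
  refine (exp_lip (by positivity) (by positivity)).trans ?_
  rw [← mul_sub, abs_mul, abs_of_pos (by positivity : 0 < b / 2)]
  exact mul_le_mul_of_nonneg_left (abs_norm_sub_norm_le x y) (by positivity)

lemma psi_lineDeriv (C : ℝ) (b : ℝ) {x : R3} (hx : x ≠ 0) (v : R3) :
    lineDeriv ℝ (psi C b) x v = inner ℝ (gpsi C b x) v := by
  have hx' : 0 < ‖x‖ := norm_pos_iff.mpr hx
  have h1 : HasDerivAt (fun t : ℝ => ‖x + t • v‖ ^ 2) (2 * inner ℝ x v) 0 := by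
    have h2 : HasDerivAt (fun t : ℝ => x + t • v) v 0 := by
      simpa using ((hasDerivAt_id (0:ℝ)).smul_const v).const_add x
    have := h2.norm_sq
    simpa using this
  have h2 : HasDerivAt (fun t : ℝ => √(‖x + t • v‖ ^ 2)) (2 * inner ℝ x v / (2 * √(‖x + (0:ℝ) • v‖ ^ 2))) 0 :=
    h1.sqrt (by simp [hx])
  have h3 : HasDerivAt (fun t : ℝ => ‖x + t • v‖) (inner ℝ x v / ‖x‖) 0 := by
    refine (h2.congr_deriv ?_).congr_of_eventuallyEq (Eventually.of_forall fun t => ?_)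
    · rw [zero_smul, add_zero, Real.sqrt_sq hx'.le]
      field_simp
    · show ‖x + t • v‖ = √(‖x + t • v‖ ^ 2)
      rw [Real.sqrt_sq (norm_nonneg _)]
  have h4 : HasDerivAt (fun t : ℝ => psi C b (x + t • v))
      (√C * (Real.exp (-(b / 2 * ‖x + (0:ℝ) • v‖)) * (-(b / 2 * (inner ℝ x v / ‖x‖))))) 0 :=
    (((h3.const_mul (b / 2)).neg).exp).const_mul _
  show deriv (fun t : ℝ => psi C b (x + t • v)) 0 = _
  rw [h4.deriv]
  unfold gpsi psi
  rw [inner_smul_left, zero_smul, add_zero]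
  simp only [conj_trivial]
  ring

lemma sqrt_rhoT {C b : ℝ} (hC : 0 ≤ C) (x : R3) : √(rhoT C b x) = psi C b x := by
  unfold rhoT psi
  rw [Real.sqrt_mul hC]
  congr 1
  rw [← Real.exp_half]
  congr 1
  ring

lemma norm_gpsi {C b : ℝ} (hC : 0 ≤ C) (hb : 0 < b) {x : R3} (hx : x ≠ 0) :
    ‖gpsi C b x‖ ^ 2 = b ^ 2 / 4 * rhoT C b x := by
  have hx' : 0 < ‖x‖ := norm_pos_iff.mpr hx
  unfold gpsi
  rw [norm_smul, mul_pow, Real.norm_eq_abs, sq_abs]
  have h1 : psi C b x ^ 2 = rhoT C b x := by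
    rw [← sqrt_rhoT hC, Real.sq_sqrt]
    unfold rhoT; positivity
  rw [← h1]
  field_simp
  norm_num
  ring

lemma ae_ne : ∀ᵐ x : R3, x ≠ 0 := by
  rw [ae_iff]
  simp

lemma exp_radial {b : ℝ} (hb : 0 < b) :
    Integrable (fun x : R3 => Real.exp (-(b * ‖x‖))) ∧
    ∫ x : R3, Real.exp (-(b * ‖x‖)) = 8 * Real.pi / b ^ 3 := by
  obtain ⟨a, c⟩ := exp_int 2 hb
  refine ⟨integrable_radial.2 a, ?_⟩
  rw [int_radial (fun t => Real.exp (-(b * t))), c]
  simp [Nat.factorial]
  ring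

lemma exp_radial1 {b : ℝ} (hb : 0 < b) :
    ∫ x : R3, Real.exp (-(b * ‖x‖)) / ‖x‖ = 4 * Real.pi / b ^ 2 := by
  obtain ⟨a, c⟩ := exp_int 1 hb
  rw [int_radial (fun t => Real.exp (-(b * t)) / t)]
  have e : ∀ t ∈ Ioi (0:ℝ), t ^ 2 * (Real.exp (-(b * t)) / t) = t ^ 1 * Real.exp (-(b * t)) := by
    intro t ht
    have : (0:ℝ) < t := ht
    field_simp
  rw [setIntegral_congr_fun measurableSet_Ioi e, c]
  simp
  ring

lemma trial_adm {C b : ℝ} (hC : 0 < C) (hb : 0 < b) : Admissible (5/3) (rhoT C b) (gpsi C b) := by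
  have hpsi : Measurable (psi C b) := by
    unfold psi; fun_prop
  have hg : Measurable (gpsi C b) := by
    unfold gpsi
    exact (((measurable_const.mul hpsi).div measurable_norm)).smul measurable_id
  have hi : Integrable (rhoT C b) := (exp_radial hb).1.const_mul C
  refine ⟨fun x => by unfold rhoT; positivity, hi, ?_, ?_, ?_⟩
  · have : ∀ x : R3, rhoT C b x ^ (5/3 : ℝ) = C ^ (5/3 : ℝ) * Real.exp (-(5/3 * b * ‖x‖)) := by
      intro x
      unfold rhoT
      rw [Real.mul_rpow hC.le (Real.exp_pos _).le, ← Real.exp_mul]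
      congr 2
      ring
    simp only [this]
    exact (exp_radial (by positivity)).1.const_mul _
  · rw [memLp_two_iff_integrable_sq_norm hg.aestronglyMeasurable]
    refine (hi.const_mul (b ^ 2 / 4)).congr ?_
    filter_upwards [ae_ne] with x hx
    exact (norm_gpsi hC.le hb hx).symm
  · intro φ hφ hs v
    have hφ1 : ContDiff ℝ 1 φ := hφ.of_le (by simp)
    obtain ⟨D, hD⟩ := hφ1.lipschitzWith_of_hasCompactSupport hs (by simp)
    have h := LipschitzWith.integral_lineDeriv_mul_eq (μ := (volume : Measure R3)) (psi_lip C hb) hD hs v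
    have hfd : ∀ x, lineDeriv ℝ φ x (-v) = -(fderiv ℝ φ x v) := by
      intro x
      rw [((hφ.differentiable (by simp)) x).lineDeriv_eq_fderiv, map_neg]
    have e1 : ∫ x, lineDeriv ℝ (psi C b) x v * φ x = ∫ x, inner ℝ (gpsi C b x) v * φ x := by
      refine integral_congr_ae ?_
      filter_upwards [ae_ne] with x hx
      rw [psi_lineDeriv C b hx v]
    rw [e1] at h
    simp only [hfd] at h
    rw [h, ← integral_neg]
    refine integral_congr_ae (ae_of_all _ fun x => ?_)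
    show √(rhoT C b x) * fderiv ℝ φ x v = -(-(fderiv ℝ φ x v) * psi C b x)
    rw [sqrt_rhoT hC.le]
    ring

/-- **Upper bound** for one electron. -/
theorem upper1 : ∃ (ρ : R3 → ℝ) (g : R3 → R3), Admissible (5/3) ρ g ∧ ∫ x, ρ x = 1 ∧
    0.1859 * (∫ x, ‖g x‖ ^ 2) + 3/5 * gam * (∫ x, ρ x ^ (5/3 : ℝ)) - (∫ x, ρ x / ‖x‖) ≤ -0.3261 := by
  have hpi := Real.pi_pos
  set b : ℝ := 5/4 with hb
  have hb0 : 0 < b := by norm_num [hb]
  set C : ℝ := b ^ 3 / (8 * Real.pi) with hC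
  have hC0 : 0 < C := by positivity
  have hm : ∫ x, rhoT C b x = 1 := by
    unfold rhoT
    rw [integral_const_mul, (exp_radial hb0).2, hC]
    field_simp
  refine ⟨rhoT C b, gpsi C b, trial_adm hC0 hb0, hm, ?_⟩
  have e1 : ∫ x, ‖gpsi C b x‖ ^ 2 = b ^ 2 / 4 := by
    have : ∫ x, ‖gpsi C b x‖ ^ 2 = ∫ x, b ^ 2 / 4 * rhoT C b x := by
      refine integral_congr_ae ?_
      filter_upwards [ae_ne] with x hx
      exact norm_gpsi hC0.le hb0 hx
    rw [this, integral_const_mul, hm, mul_one]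
  have e2 : ∫ x, rhoT C b x / ‖x‖ = b / 2 := by
    have : ∀ x : R3, rhoT C b x / ‖x‖ = C * (Real.exp (-(b * ‖x‖)) / ‖x‖) := by
      intro x; unfold rhoT; ring
    simp only [this]
    rw [integral_const_mul, exp_radial1 hb0, hC]
    field_simp
    ring
  have e3 : ∫ x, rhoT C b x ^ (5/3 : ℝ) = C ^ (2/3 : ℝ) * (27/125) := by
    have : ∀ x : R3, rhoT C b x ^ (5/3 : ℝ) = C ^ (5/3 : ℝ) * Real.exp (-(5/3 * b * ‖x‖)) := by
      intro x
      unfold rhoT
      rw [Real.mul_rpow hC0.le (Real.exp_pos _).le, ← Real.exp_mul]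
      congr 2
      ring
    simp only [this]
    rw [integral_const_mul, (exp_radial (by positivity)).2]
    have h1 : C ^ (5/3 : ℝ) = C ^ (2/3 : ℝ) * C := by
      rw [show (5/3 : ℝ) = 2/3 + 1 by norm_num, Real.rpow_add hC0, Real.rpow_one]
    rw [h1, hC]
    field_simp
    norm_num
  have e4 : gam * C ^ (2/3 : ℝ) ≤ 1.7431 := by
    have h1 : gam * C ^ (2/3 : ℝ) = (3 * Real.pi * b ^ 3 / 8) ^ (2/3 : ℝ) := by
      unfold gam
      rw [← Real.mul_rpow (by positivity) hC0.le]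
      congr 1
      rw [hC]
      field_simp
    rw [h1]
    have h2 : (1.7431 : ℝ) = (1.7431 ^ (3/2 : ℝ)) ^ (2/3 : ℝ) := by
      rw [← Real.rpow_mul (by norm_num)]
      norm_num
    rw [h2]
    refine Real.rpow_le_rpow (by positivity) ?_ (by norm_num)
    have h3 : (1.7431 : ℝ) ^ (3/2 : ℝ) = √(1.7431 ^ 3) := by
      rw [Real.sqrt_eq_rpow, ← Real.rpow_natCast, ← Real.rpow_mul (by norm_num)]
      norm_num
    rw [h3]
    apply Real.le_sqrt_of_sq_le
    have h4 := Real.pi_lt_d4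
    have h5 : 3 * Real.pi * b ^ 3 / 8 ≤ 2.30103 := by
      rw [hb]
      norm_num at h4 ⊢
      linarith
    calc (3 * Real.pi * b ^ 3 / 8) ^ 2 ≤ 2.30103 ^ 2 := by gcongr
      _ ≤ 1.7431 ^ 3 := by norm_num
  rw [e1, e2, e3]
  have e5 : 3/5 * gam * (C ^ (2/3 : ℝ) * (27/125)) = 81/625 * (gam * C ^ (2/3 : ℝ)) := by ring
  rw [e5, hb]
  norm_num at e4 ⊢
  linarith

end Pool.Agent.R999.FATrial
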