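import Pool.Agent.R999.Newton

/-!
# The comparison charge density `s / (π r (r+s)^3)` of total mass two
-/

set_option autoImplicit false

namespace Pool.Agent.R999.FAf

open MeasureTheory Set Filter Topology Metric
open Pool.Agent.TH791.Cl Pool.Agent.TH791.Nw Pool.Agent.R999.Newton
open scoped ENNReal

/-- the comparison density -/
noncomputable def fs (s t : ℝ) : ℝ := s / (Real.pi * t * (t + s) ^ 3)

lemma fs_meas (s : ℝ) : Measurable (fs s) := by
  unfold fs; fun_prop

lemma fs_nonneg {s t : ℝ} (hs : 0 < s) (ht : 0 ≤ t) : 0 ≤ fs s t := by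
  unfold fs
  have := Real.pi_pos
  positivity

/-- improper integrals on `(r, ∞)` by an antiderivative, nonnegative integrand -/
lemma ioi {F f : ℝ → ℝ} {r L : ℝ} (hc : ContinuousWithinAt F (Ici r) r)
    (hd : ∀ t ∈ Ioi r, HasDerivAt F (f t) t) (h0 : ∀ t ∈ Ioi r, 0 ≤ f t)
    (hl : Tendsto F atTop (𝓝 L)) : IntegrableOn f (Ioi r) ∧ ∫ t in Ioi r, f t = L - F r :=
  ⟨integrableOn_Ioi_deriv_of_nonneg hc hd h0 hl, integral_Ioi_of_hasDerivAt_of_nonneg hc hd h0 hl⟩

lemma lim_frac (s : ℝ) : Tendsto (fun t : ℝ => s / (t + s)) atTop (𝓝 0) := by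
  refine Tendsto.const_div_atTop ?_ s
  exact tendsto_atTop_add_const_right _ _ tendsto_id

/-- `∫_r^∞ (t+s)^{-3} dt` -/
lemma tail3 {s r : ℝ} (hs : 0 < s) (hr : 0 ≤ r) :
    IntegrableOn (fun t : ℝ => 1 / (t + s) ^ 3) (Ioi r) ∧
    ∫ t in Ioi r, 1 / (t + s) ^ 3 = 1 / (2 * (r + s) ^ 2) := by
  have hd : ∀ t ∈ Ici r, HasDerivAt (fun t : ℝ => -(1 / (2 * (t + s) ^ 2))) (1 / (t + s) ^ 3) t := by
    intro t ht
    have ht0 : 0 < t + s := by have : r ≤ t := ht; linarith
    have h1 : HasDerivAt (fun t : ℝ => (2 * (t + s) ^ 2)) (2 * (2 * (t + s))) t := by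
      have := (((hasDerivAt_id t).add_const s).pow 2).const_mul 2
      simpa using this
    have h2 := (h1.inv (by positivity)).neg
    refine (h2.congr_deriv ?_).congr_of_eventuallyEq (Eventually.of_forall fun t => ?_)
    · field_simp
    · simp
  have hl : Tendsto (fun t : ℝ => -(1 / (2 * (t + s) ^ 2))) atTop (𝓝 0) := by
    have h1 := (((lim_frac s).pow 2).const_mul (1 / (2 * s ^ 2))).neg
    simp only [ne_eq, OfNat.ofNat_ne_zero, not_false_eq_true, zero_pow, mul_zero, neg_zero] at h1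
    refine h1.congr' ?_
    filter_upwards [eventually_gt_atTop 0] with t ht
    field_simp
  obtain ⟨a, b⟩ := ioi (hd r self_mem_Ici).continuousAt.continuousWithinAt
    (fun t ht => hd t (Ioi_subset_Ici_self ht))
    (fun t ht => by
      have h1 : r < t := ht
      have : 0 < t + s := by linarith
      positivity) hl
  refine ⟨a, ?_⟩
  rw [b]; ring

/-- `∫_0^r t (t+s)^{-3} dt` -/
lemma head3 {s r : ℝ} (hs : 0 < s) (hr : 0 ≤ r) :
    ∫ t in Ioc 0 r, t / (t + s) ^ 3 = r ^ 2 / (2 * s * (r + s) ^ 2) := by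
  rw [← intervalIntegral.integral_of_le hr]
  have hd : ∀ t ∈ uIcc 0 r, HasDerivAt (fun t : ℝ => t ^ 2 / (2 * s * (t + s) ^ 2))
      (t / (t + s) ^ 3) t := by
    intro t ht
    rw [uIcc_of_le hr] at ht
    have ht0 : 0 < t + s := by have := ht.1; linarith
    have h1 : HasDerivAt (fun t : ℝ => (2 * s * (t + s) ^ 2)) (2 * s * (2 * (t + s))) t := by
      have := (((hasDerivAt_id t).add_const s).pow 2).const_mul (2 * s)
      simpa using this
    have h2 := (hasDerivAt_pow 2 t).div h1 (by positivity)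
    refine h2.congr_deriv ?_
    simp only [Nat.add_one_sub_one, pow_one, Nat.cast_ofNat]
    field_simp
    ring
  rw [intervalIntegral.integral_eq_sub_of_hasDerivAt hd]
  · simp
  · refine ContinuousOn.intervalIntegrable ?_
    rw [uIcc_of_le hr]
    refine ContinuousOn.div (by fun_prop) (by fun_prop) fun t ht => ?_
    have : 0 < t + s := by have := ht.1; linarith
    positivity

/-- the potential of the comparison density -/
theorem pot_fs {s : ℝ} (hs : 0 < s) (x : E3) :
    pot (fun y => fs s ‖y‖) x = 2 / (‖x‖ + s) := by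
  have hpi := Real.pi_pos
  unfold pot
  rw [pot_radial (fs_meas s) x]
  set r := ‖x‖ with hr
  have hr0 : 0 ≤ r := norm_nonneg x
  obtain ⟨t1, t2⟩ := tail3 hs hr0
  have e1 : ∀ t ∈ Ioi r, kx r t * fs s t = 4 * s * (1 / (t + s) ^ 3) := by
    intro t ht
    have ht0 : 0 < t := lt_of_le_of_lt hr0 ht
    unfold kx fs
    rw [max_eq_right (le_of_lt ht)]
    field_simp
  have e2 : ∀ t ∈ Ioc 0 r, kx r t * fs s t = 4 * s / r * (t / (t + s) ^ 3) := by
    intro t ht
    have ht0 : 0 < t := ht.1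
    have hr1 : 0 < r := lt_of_lt_of_le ht0 ht.2
    unfold kx fs
    rw [max_eq_left ht.2]
    field_simp
  have i1 : IntegrableOn (fun t => kx r t * fs s t) (Ioi r) := by
    rw [integrableOn_congr_fun e1 measurableSet_Ioi]
    exact t1.const_mul _
  have i2 : IntegrableOn (fun t => kx r t * fs s t) (Ioc 0 r) := by
    rw [integrableOn_congr_fun e2 measurableSet_Ioc]
    refine IntegrableOn.mono_set ?_ Ioc_subset_Icc_self
    refine ContinuousOn.integrableOn_Icc ?_
    refine continuousOn_const.mul (ContinuousOn.div (by fun_prop) (by fun_prop) fun t ht => ?_)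
    have : 0 < t + s := by have := ht.1; linarith
    positivity
  rw [← Ioc_union_Ioi_eq_Ioi hr0, setIntegral_union (Ioc_disjoint_Ioi le_rfl) measurableSet_Ioi i2 i1,
    setIntegral_congr_fun measurableSet_Ioc e2, setIntegral_congr_fun measurableSet_Ioi e1,
    integral_const_mul, integral_const_mul, t2, head3 hs hr0]
  rcases hr0.eq_or_lt with h0 | h0
  · rw [← h0]
    simp
    field_simp
    norm_num
  · field_simp
    ring

lemma pow_le_add {a : ℝ} (ha : 0 ≤ a) : a ^ (5/3 : ℝ) ≤ a + a ^ 2 := by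
  rcases le_total a 1 with h | h
  · have : a ^ (5/3 : ℝ) ≤ a ^ (1:ℝ) := by
      rcases ha.eq_or_lt with h0 | h0
      · rw [← h0]
        rw [Real.zero_rpow (by norm_num), Real.zero_rpow (by norm_num)]
      · exact Real.rpow_le_rpow_of_exponent_ge h0 h (by norm_num)
    rw [Real.rpow_one] at this
    nlinarith [sq_nonneg a]
  · have : a ^ (5/3 : ℝ) ≤ a ^ (2:ℝ) := Real.rpow_le_rpow_of_exponent_le h (by norm_num)
    rw [Real.rpow_two] at this
    linarith

lemma lim_frac1 {s : ℝ} (hs : 0 < s) : Tendsto (fun t : ℝ => t / (t + s)) atTop (𝓝 1) := by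
  have h := (lim_frac s).const_sub 1
  rw [sub_zero] at h
  refine h.congr' ?_
  filter_upwards [eventually_gt_atTop 0] with t ht
  field_simp
  ring

/-- `∫_0^∞ t (t+s)^{-3} dt` -/
lemma all3 {s : ℝ} (hs : 0 < s) :
    IntegrableOn (fun t : ℝ => t / (t + s) ^ 3) (Ioi 0) ∧
    ∫ t in Ioi 0, t / (t + s) ^ 3 = 1 / (2 * s) := by
  have hd : ∀ t ∈ Ici 0, HasDerivAt (fun t : ℝ => t ^ 2 / (2 * s * (t + s) ^ 2))
      (t / (t + s) ^ 3) t := by
    intro t ht
    have ht0 : 0 < t + s := by have : 0 ≤ t := ht; linarith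
    have h1 : HasDerivAt (fun t : ℝ => (2 * s * (t + s) ^ 2)) (2 * s * (2 * (t + s))) t := by
      have := (((hasDerivAt_id t).add_const s).pow 2).const_mul (2 * s)
      simpa using this
    have h2 := (hasDerivAt_pow 2 t).div h1 (by positivity)
    refine h2.congr_deriv ?_
    simp only [Nat.add_one_sub_one, pow_one, Nat.cast_ofNat]
    field_simp
    ring
  have hl : Tendsto (fun t : ℝ => t ^ 2 / (2 * s * (t + s) ^ 2)) atTop (𝓝 (1 / (2 * s))) := by
    have h1 := ((lim_frac1 hs).pow 2).const_mul (1 / (2 * s))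
    rw [one_pow, mul_one] at h1
    refine h1.congr' ?_
    filter_upwards [eventually_gt_atTop 0] with t ht
    field_simp
  obtain ⟨a, b⟩ := ioi (hd 0 self_mem_Ici).continuousAt.continuousWithinAt
    (fun t ht => hd t (Ioi_subset_Ici_self ht))
    (fun t ht => by
      have h1 : 0 < t := ht
      positivity) hl
  refine ⟨a, ?_⟩
  rw [b]; simp

/-- `∫_0^∞ t (t+s)^{-4} dt` -/
lemma all4 {s : ℝ} (hs : 0 < s) :
    ∫ t in Ioi 0, t / (t + s) ^ 4 = 1 / (6 * s ^ 2) := by
  have hd : ∀ t ∈ Ici 0, HasDerivAt (fun t : ℝ => t ^ 2 * (t + 3 * s) / (6 * s ^ 2 * (t + s) ^ 3))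
      (t / (t + s) ^ 4) t := by
    intro t ht
    have ht0 : 0 < t + s := by have : 0 ≤ t := ht; linarith
    have h1 : HasDerivAt (fun t : ℝ => (6 * s ^ 2 * (t + s) ^ 3)) (6 * s ^ 2 * (3 * (t + s) ^ 2)) t := by
      have := (((hasDerivAt_id t).add_const s).pow 3).const_mul (6 * s ^ 2)
      simpa using this
    have h0 : HasDerivAt (fun t : ℝ => t ^ 2 * (t + 3 * s)) (2 * t * (t + 3 * s) + t ^ 2 * 1) t := by
      have h := (hasDerivAt_pow 2 t).mul ((hasDerivAt_id t).add_const (3 * s))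
      exact h.congr_deriv (by simp)
    have h2 := h0.div h1 (by positivity)
    refine h2.congr_deriv ?_
    field_simp
    ring
  have hl : Tendsto (fun t : ℝ => t ^ 2 * (t + 3 * s) / (6 * s ^ 2 * (t + s) ^ 3)) atTop
      (𝓝 (1 / (6 * s ^ 2))) := by
    have h1 := (((lim_frac1 hs).pow 2).mul ((lim_frac1 hs).add ((lim_frac s).const_mul 3))).const_mul
      (1 / (6 * s ^ 2))
    simp only [one_pow, mul_zero, add_zero, mul_one] at h1
    refine h1.congr' ?_
    filter_upwards [eventually_gt_atTop 0] with t ht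
    field_simp
  obtain ⟨a, b⟩ := ioi (hd 0 self_mem_Ici).continuousAt.continuousWithinAt
    (fun t ht => hd t (Ioi_subset_Ici_self ht))
    (fun t ht => by
      have h1 : 0 < t := ht
      positivity) hl
  rw [b]; simp

theorem nice_fs {s : ℝ} (hs : 0 < s) : Nice (fun y : E3 => fs s ‖y‖) := by
  have hpi := Real.pi_pos
  have hm : Measurable (fun y : E3 => fs s ‖y‖) := (fs_meas s).comp measurable_norm
  have i1 : Integrable (fun y : E3 => fs s ‖y‖) := by
    rw [integrable_radial]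
    have h : IntegrableOn (fun t : ℝ => s / Real.pi * (t / (t + s) ^ 3)) (Ioi 0) :=
      (all3 hs).1.const_mul _
    refine h.congr_fun (fun t ht => ?_) measurableSet_Ioi
    have ht0 : 0 < t := ht
    show s / Real.pi * (t / (t + s) ^ 3) = t ^ 2 * fs s t
    unfold fs
    field_simp
  have i2 : Integrable (fun y : E3 => fs s ‖y‖ ^ 2) := by
    rw [integrable_radial (g := fun t => fs s t ^ 2)]
    refine Integrable.mono' (((tail3 hs le_rfl).1).const_mul (s ^ 2 / Real.pi ^ 2 / s ^ 3)) ?_ ?_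
    · exact ((measurable_id.pow_const 2).mul ((fs_meas s).pow_const 2)).aestronglyMeasurable
    · filter_upwards [ae_restrict_mem measurableSet_Ioi] with t ht
      have ht0 : 0 < t := ht
      rw [Real.norm_of_nonneg (by positivity)]
      have e : t ^ 2 * fs s t ^ 2 = s ^ 2 / Real.pi ^ 2 * (1 / (t + s) ^ 3) * (1 / (t + s) ^ 3) := by
        unfold fs
        field_simp
      rw [e]
      have h1 : 1 / (t + s) ^ 3 ≤ 1 / s ^ 3 := by
        have : s ≤ t + s := by linarith
        gcongr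
      calc s ^ 2 / Real.pi ^ 2 * (1 / (t + s) ^ 3) * (1 / (t + s) ^ 3)
          ≤ s ^ 2 / Real.pi ^ 2 * (1 / s ^ 3) * (1 / (t + s) ^ 3) := by gcongr
        _ = _ := by ring
  refine ⟨hm, i1, (i1.add i2).mono' (hm.abs.pow_const _).aestronglyMeasurable (ae_of_all _ fun y => ?_)⟩
  have h0 := fs_nonneg hs (norm_nonneg y)
  rw [Real.norm_of_nonneg (by positivity), abs_of_nonneg h0]
  exact pow_le_add h0

theorem energy_fs {s : ℝ} (hs : 0 < s) : ∫ y : E3, fs s ‖y‖ * pot (fun y => fs s ‖y‖) y = 4 / (3 * s) := by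
  have hpi := Real.pi_pos
  simp only [pot_fs hs]
  rw [int_radial (fun t => fs s t * (2 / (t + s)))]
  have e : ∀ t ∈ Ioi (0:ℝ), t ^ 2 * (fs s t * (2 / (t + s))) = 2 * s / Real.pi * (t / (t + s) ^ 4) := by
    intro t ht
    have ht0 : 0 < t := ht
    unfold fs
    field_simp
  rw [setIntegral_congr_fun measurableSet_Ioi e, integral_const_mul, all4 hs]
  field_simp
  norm_num

/-- duality bound for the Coulomb energy of a density that need not be Borel measurable -/
theorem dual_coulomb {ρ : E3 → ℝ} (h0 : ∀ x, 0 ≤ ρ x) (hi : Integrable ρ)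
    (hi' : Integrable fun x => ρ x ^ (5/3 : ℝ)) {N : E3 → ℝ} (hN : Nice N) :
    Integrable (fun x => ρ x * pot N x) ∧
    (∫ x, ρ x * pot N x) - 1/2 * (∫ x, N x * pot N x) ≤ 1/2 * ∫ x, ∫ y, ρ x * ρ y / ‖x - y‖ := by
  obtain ⟨g, hgm, hge⟩ : ∃ g : E3 → ℝ, Measurable g ∧ ρ =ᵐ[volume] g :=
    ⟨hi.aestronglyMeasurable.mk ρ, hi.aestronglyMeasurable.stronglyMeasurable_mk.measurable,
      hi.aestronglyMeasurable.ae_eq_mk⟩
  have hg : Nice g := by
    refine ⟨hgm, hi.congr hge, hi'.congr ?_⟩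
    filter_upwards [hge] with x hx
    rw [← hx, abs_of_nonneg (h0 x)]
  have h1 := pd_main g N hg hN
  have i1 := pd_int g N hg hN
  have e1 : ∀ᵐ x, g x * pot N x = ρ x * pot N x := by
    filter_upwards [hge] with x hx
    rw [hx]
  refine ⟨i1.congr e1, ?_⟩
  rw [integral_congr_ae e1] at h1
  have e2 : ∀ᵐ x : E3, ∫ y, g x * g y / ‖x - y‖ = ∫ y, ρ x * ρ y / ‖x - y‖ := by
    filter_upwards [hge] with x hx
    refine integral_congr_ae ?_
    filter_upwards [hge] with y hy
    rw [hx, hy]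
  rw [integral_congr_ae e2] at h1
  exact h1

end Pool.Agent.R999.FAf
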