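import Pool.Agent.R999.Brg

/-!
# Overlaps on far balls
-/

set_option autoImplicit false

namespace Pool.Agent.R999.Ex

open MeasureTheory Set Filter Topology Metric
open Pool.Agent.TH791.Cl Pool.Agent.TH791.Nw Pool.Agent.R999.Pot Pool.Agent.R999.MinP
open Pool.Agent.R999.Newton
open scoped ENNReal

variable {ι : Type*} [Fintype ι]

/-- the densities of two Thomas-Fermi systems overlap -/
lemma gain_pos {γ : ℝ} (hγ : 0 < γ) {z1 z2 : ι → ℝ} (hz1 : ∀ j, 0 ≤ z1 j) (hz2 : ∀ j, 0 ≤ z2 j)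
    {R : ι → E3} {ρ1 ρ2 : E3 → ℝ} (T1 : TFs γ z1 R ρ1) (T2 : TFs γ z2 R ρ2) {a b : ι}
    (ha : 0 < z1 a) (hb : 0 < z2 b) : 0 < ∫ x, (min (ρ1 x) (ρ2 x)) ^ (5/3 : ℝ) := by
  obtain ⟨ca, hca, La⟩ := T1.dens_ge hγ hz1 ha
  obtain ⟨cb, hcb, Lb⟩ := T2.dens_ge hγ hz2 hb
  obtain ⟨q, hq⟩ : ∃ q : E3, ‖q‖ = 2 + ‖R a‖ + ‖R b‖ := exists_norm_eq E3 (by positivity)
  set B : ℝ := ‖q‖ + ‖R a‖ + ‖R b‖ + 1 with hB
  have hB0 : 0 < B := by positivity
  have na := norm_nonneg (R a)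
  have nb := norm_nonneg (R b)
  set K : ℝ := min ca cb / B ^ 6 with hK
  have hK0 : 0 < K := by positivity
  have gen : ∀ (X : E3) (cm : ℝ) (ρ : E3 → ℝ), ‖X‖ ≤ ‖R a‖ + ‖R b‖ → min ca cb ≤ cm →
      (∀ᵐ x, 1 ≤ ‖x - X‖ → cm / ‖x - X‖ ^ 6 ≤ ρ x) →
      ∀ᵐ x, x ∈ ball q 1 → K / 1 ^ 6 ≤ ρ x := by
    intro X cm ρ hX hm hL
    filter_upwards [hL] with x hx hxb
    rw [mem_ball, dist_eq_norm] at hxb
    have e1 : q = (x - X) - (x - q) + X := by abel
    have h1 : ‖q‖ ≤ ‖x - X‖ + ‖x - q‖ + ‖X‖ := by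
      have k1 := norm_add_le ((x - X) - (x - q)) X
      have k2 := norm_sub_le (x - X) (x - q)
      rw [← e1] at k1
      linarith
    have e2 : x - X = (x - q) + q - X := by abel
    have h2 : ‖x - X‖ ≤ ‖x - q‖ + ‖q‖ + ‖X‖ := by
      rw [e2]
      have k1 := norm_sub_le ((x - q) + q) X
      have k2 := norm_add_le (x - q) q
      linarith
    have h3 : 1 ≤ ‖x - X‖ := by linarith
    have h4 : ‖x - X‖ ≤ B := by linarith
    refine le_trans ?_ (hx h3)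
    rw [one_pow, div_one, hK]
    have h5 : 0 < ‖x - X‖ := by linarith
    have h6 : 0 < min ca cb := lt_min hca hcb
    exact div_le_div₀ (h6.le.trans hm) hm (by positivity) (pow_le_pow_left₀ h5.le h4 6)
  have h := gain_lo T1.md T2.md one_pos hK0 q (gen (R a) ca ρ1 (by linarith) (min_le_left _ _) La)
    (gen (R b) cb ρ2 (by linarith) (min_le_right _ _) Lb)
  have hpi := Real.pi_pos
  have : 0 < 4/3 * Real.pi * K ^ (5/3 : ℝ) / 1 ^ 7 := by positivity
  linarith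

lemma UU_lt {k : ℕ} (z : Fin k → ℝ) (R : Fin k → E3) :
    UU z R = ∑ i, ∑ j ∈ Finset.univ.filter (fun j => i < j), z i * z j / ‖R i - R j‖ := by
  have h1 : ∀ i j : Fin k, z i * z j / ‖R i - R j‖ =
      (if i < j then z i * z j / ‖R i - R j‖ else 0) +
      (if j < i then z i * z j / ‖R i - R j‖ else 0) := by
    intro i j
    rcases lt_trichotomy i j with h | h | h
    · rw [if_pos h, if_neg (not_lt.2 h.le), add_zero]
    · subst h; simp
    · rw [if_neg (not_lt.2 h.le), if_pos h, zero_add]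
  have h2 : ∑ i, ∑ j, (if j < i then z i * z j / ‖R i - R j‖ else 0) =
      ∑ i, ∑ j, (if i < j then z i * z j / ‖R i - R j‖ else 0) := by
    rw [Finset.sum_comm]
    refine Finset.sum_congr rfl fun i _ => Finset.sum_congr rfl fun j _ => ?_
    rw [norm_sub_rev, mul_comm (z j)]
  unfold UU
  rw [Finset.sum_congr rfl fun i _ => Finset.sum_congr rfl fun j _ => h1 i j]
  simp only [Finset.sum_add_distrib]
  rw [h2]
  simp only [Finset.sum_filter]
  ring

end Pool.Agent.R999.Ex
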