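import Pool.Agent.R999.Newton

/-!
# A radial Thomas-Fermi ion by monotone iteration

`u` is the (normalised) neutral potential, equal to `r^{-4}` outside the unit ball. The function `d`
solves `Δd = 12 (u^{3/2} - (u-d)_+^{3/2})`, `d(0) = ε`, in the integrated form.
-/

set_option autoImplicit false

namespace Pool.Agent.R999.Ion

open MeasureTheory Set Filter Topology

/-- the normalised neutral potential -/
noncomputable def u (r : ℝ) : ℝ := if r < 1 then 3 - 2 * r ^ 2 else 1 / r ^ 4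

lemma u_lt {r : ℝ} (h : r < 1) : u r = 3 - 2 * r ^ 2 := if_pos h
lemma u_ge {r : ℝ} (h : 1 ≤ r) : u r = 1 / r ^ 4 := if_neg (not_lt.2 h)

lemma u_meas : Measurable u := by
  unfold u
  exact Measurable.ite measurableSet_Iio (by fun_prop) (by fun_prop)

lemma u_pos {r : ℝ} (h : 0 ≤ r) : 0 < u r := by
  rcases lt_or_ge r 1 with h1 | h1
  · rw [u_lt h1]; nlinarith
  · rw [u_ge h1]; positivity

lemma u_le {r : ℝ} (_h : 0 ≤ r) : u r ≤ 3 := by
  rcases lt_or_ge r 1 with h1 | h1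
  · rw [u_lt h1]; nlinarith [sq_nonneg r]
  · rw [u_ge h1, div_le_iff₀ (by positivity)]
    have : 1 ≤ r ^ 4 := one_le_pow₀ h1
    linarith

lemma u_anti {r s : ℝ} (h : 0 ≤ r) (hrs : r ≤ s) : u s ≤ u r := by
  rcases lt_or_ge s 1 with h1 | h1
  · rw [u_lt h1, u_lt (by linarith)]; nlinarith
  · rw [u_ge h1]
    rcases lt_or_ge r 1 with h2 | h2
    · rw [u_lt h2, div_le_iff₀ (by positivity)]
      have : 1 ≤ s ^ 4 := one_le_pow₀ h1
      have h3 : r ^ 2 ≤ 1 := by nlinarith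
      nlinarith
    · rw [u_ge h2]
      gcongr

lemma u_cont : ContinuousOn u (Ici 0) := by
  have h1 : ContinuousOn u (Icc 0 1) := by
    have : ContinuousOn (fun r : ℝ => 3 - 2 * r ^ 2) (Icc 0 1) := by fun_prop
    refine this.congr fun r hr => ?_
    rcases hr.2.eq_or_lt with h | h
    · rw [h, u_ge le_rfl]; norm_num
    · exact u_lt h
  have h2 : ContinuousOn u (Ici 1) := by
    have : ContinuousOn (fun r : ℝ => 1 / r ^ 4) (Ici 1) :=
      ContinuousOn.div continuousOn_const (by fun_prop) fun r hr => by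
        have : (1:ℝ) ≤ r := hr
        positivity
    exact this.congr fun r hr => u_ge hr
  have e : Ici (0:ℝ) = Icc 0 1 ∪ Ici 1 := by
    rw [Icc_union_Ici_eq_Ici zero_le_one]
  rw [e]
  exact h1.union_of_isClosed h2 isClosed_Icc isClosed_Ici

/-- `t_+^{3/2}` -/
noncomputable def P (t : ℝ) : ℝ := (max t 0) ^ (3/2 : ℝ)

lemma P_cont : Continuous P := by
  unfold P
  exact (continuous_id.max continuous_const).rpow_const fun t => Or.inr (by norm_num)

lemma P_nonneg (t : ℝ) : 0 ≤ P t := by unfold P; positivity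

lemma P_mono : Monotone P := fun s t h => by
  unfold P
  have : max s 0 ≤ max t 0 := max_le_max h le_rfl
  exact Real.rpow_le_rpow (le_max_right _ _) this (by norm_num)

lemma P_of_nonpos {t : ℝ} (h : t ≤ 0) : P t = 0 := by
  unfold P
  rw [max_eq_right h, Real.zero_rpow (by norm_num)]

lemma P_eq {t : ℝ} (h : 0 ≤ t) : P t = t * √t := by
  unfold P
  rw [max_eq_left h, show (3/2 : ℝ) = 1 + 1/2 by norm_num]
  rcases h.eq_or_lt with h0 | h0
  · rw [← h0, Real.zero_rpow (by norm_num)]; simp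
  · rw [Real.rpow_add h0, Real.rpow_one, Real.sqrt_eq_rpow]

/-- tangent bounds for `t^{3/2}` -/
lemma P_diff_le {a b : ℝ} (ha : 0 ≤ a) (hb : b ≤ a) : P a - P b ≤ 3/2 * √a * (a - b) := by
  rcases le_total b 0 with h | h
  · rw [P_of_nonpos h, P_eq ha]
    have := Real.sqrt_nonneg a
    nlinarith [mul_nonneg this ha, mul_nonneg this (by linarith : 0 ≤ a - b), mul_nonneg this (neg_nonneg.2 h)]
  · rw [P_eq ha, P_eq h]
    have h1 := Real.sq_sqrt ha
    have h2 := Real.sq_sqrt h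
    have h3 := Real.sqrt_nonneg a
    have h4 := Real.sqrt_nonneg b
    have h5 : √b ≤ √a := Real.sqrt_le_sqrt hb
    set x := √a
    set y := √b
    rw [← h1, ← h2]
    have : 3/2 * x * (x ^ 2 - y ^ 2) - (x ^ 2 * x - y ^ 2 * y) = 1/2 * (x - y) ^ 2 * (x + 2 * y) := by
      ring
    have h6 : 0 ≤ 1/2 * (x - y) ^ 2 * (x + 2 * y) := by positivity
    linarith

lemma P_diff_ge {a b : ℝ} (ha : 0 ≤ b) (hb : b ≤ a) : √a * (a - b) ≤ P a - P b := by
  rw [P_eq (ha.trans hb), P_eq ha]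
  have h5 : √b ≤ √a := Real.sqrt_le_sqrt hb
  nlinarith [mul_le_mul_of_nonneg_left h5 ha]

/-- the source term -/
noncomputable def g (d : ℝ → ℝ) (r : ℝ) : ℝ := P (u r) - P (u r - d r)

lemma g_meas {d : ℝ → ℝ} (hd : Measurable d) : Measurable (g d) := by
  unfold g
  exact (P_cont.measurable.comp u_meas).sub (P_cont.measurable.comp (u_meas.sub hd))

lemma g_nonneg {d : ℝ → ℝ} {r : ℝ} (hd : 0 ≤ d r) : 0 ≤ g d r := by
  unfold g
  have := P_mono (by linarith : u r - d r ≤ u r)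
  linarith

lemma g_le {d : ℝ → ℝ} (r : ℝ) : g d r ≤ P (u r) := by
  unfold g
  have := P_nonneg (u r - d r)
  linarith

lemma Pu_le {r : ℝ} (hr : 0 ≤ r) : P (u r) ≤ 6 := by
  have h := P_mono (u_le hr)
  refine h.trans ?_
  rw [P_eq (by norm_num)]
  have : √3 ≤ 2 := by
    rw [Real.sqrt_le_left (by norm_num)]; norm_num
  linarith

lemma g_mono {d e : ℝ → ℝ} {r : ℝ} (h : d r ≤ e r) : g d r ≤ g e r := by
  unfold g
  have := P_mono (by linarith : u r - e r ≤ u r - d r)
  linarith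

lemma g_lin {d : ℝ → ℝ} {r : ℝ} (hr : 0 ≤ r) (hd : 0 ≤ d r) : g d r ≤ 8/3 * d r := by
  unfold g
  have h := P_diff_le (u_pos hr).le (by linarith : u r - d r ≤ u r)
  have h2 : √(u r) ≤ 16/9 := by
    rw [Real.sqrt_le_left (by norm_num)]
    have := u_le hr
    norm_num
    linarith
  have e : u r - (u r - d r) = d r := by ring
  rw [e] at h
  nlinarith

/-- the integral operator -/
noncomputable def T (ε : ℝ) (d : ℝ → ℝ) (r : ℝ) : ℝ :=
  ε + 12 * ∫ t in Ioc 0 r, (t - t ^ 2 / r) * g d t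

lemma ker_nonneg {r t : ℝ} (ht : t ∈ Ioc 0 r) : 0 ≤ t - t ^ 2 / r := by
  have hr : 0 < r := lt_of_lt_of_le ht.1 ht.2
  have : t ^ 2 / r ≤ t := by
    rw [div_le_iff₀ hr]
    nlinarith [ht.1, ht.2]
  linarith

lemma ker_le {r t : ℝ} (ht : t ∈ Ioc 0 r) : t - t ^ 2 / r ≤ t := by
  have hr : 0 < r := lt_of_lt_of_le ht.1 ht.2
  have : 0 ≤ t ^ 2 / r := by positivity
  linarith

lemma T_int {d : ℝ → ℝ} (hd : Measurable d) (h0 : ∀ r, 0 ≤ d r) (r : ℝ) :
    IntegrableOn (fun t => (t - t ^ 2 / r) * g d t) (Ioc 0 r) := by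
  have hb : IntegrableOn (fun _ : ℝ => |r| * 6) (Ioc 0 r) := integrableOn_const (by simp)
  refine hb.mono' ?_ ?_
  · exact (Measurable.mul (by fun_prop) (g_meas hd)).aestronglyMeasurable
  · filter_upwards [ae_restrict_mem measurableSet_Ioc] with t ht
    have h1 := ker_nonneg ht
    have h2 := g_nonneg (h0 t)
    rw [Real.norm_of_nonneg (mul_nonneg h1 h2)]
    have h3 : t - t ^ 2 / r ≤ |r| := (ker_le ht).trans (ht.2.trans (le_abs_self r))
    exact mul_le_mul h3 ((g_le t).trans (Pu_le ht.1.le)) h2 (abs_nonneg r)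

lemma T_mono {ε : ℝ} {d : ℝ → ℝ} (hd : Measurable d) (h0 : ∀ r, 0 ≤ d r) : Monotone (T ε d) := by
  intro r s hrs
  unfold T
  have : ∫ t in Ioc 0 r, (t - t ^ 2 / r) * g d t ≤ ∫ t in Ioc 0 s, (t - t ^ 2 / s) * g d t := by
    calc ∫ t in Ioc 0 r, (t - t ^ 2 / r) * g d t ≤ ∫ t in Ioc 0 r, (t - t ^ 2 / s) * g d t := by
          refine setIntegral_mono_on (T_int hd h0 r)
            ((T_int hd h0 s).mono_set (Ioc_subset_Ioc_right hrs)) measurableSet_Ioc fun t ht => ?_
          have hr : 0 < r := lt_of_lt_of_le ht.1 ht.2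
          have : t ^ 2 / s ≤ t ^ 2 / r := by gcongr
          exact mul_le_mul_of_nonneg_right (by linarith) (g_nonneg (h0 t))
      _ ≤ _ := by
          refine setIntegral_mono_set (T_int hd h0 s) ?_ (Ioc_subset_Ioc_right hrs).eventuallyLE
          filter_upwards [ae_restrict_mem measurableSet_Ioc] with t ht
          exact mul_nonneg (ker_nonneg ht) (g_nonneg (h0 t))
  linarith

lemma T_ge {ε : ℝ} {d : ℝ → ℝ} (h0 : ∀ r, 0 ≤ d r) (r : ℝ) : ε ≤ T ε d r := by
  unfold T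
  have : 0 ≤ ∫ t in Ioc 0 r, (t - t ^ 2 / r) * g d t :=
    setIntegral_nonneg measurableSet_Ioc fun t ht => mul_nonneg (ker_nonneg ht) (g_nonneg (h0 t))
  linarith

lemma T_le_T {ε : ℝ} {d e : ℝ → ℝ} (hd : Measurable d) (he : Measurable e) (h0 : ∀ r, 0 ≤ d r)
    (h : ∀ r, d r ≤ e r) (r : ℝ) : T ε d r ≤ T ε e r := by
  unfold T
  have : ∫ t in Ioc 0 r, (t - t ^ 2 / r) * g d t ≤ ∫ t in Ioc 0 r, (t - t ^ 2 / r) * g e t := by
    refine setIntegral_mono_on (T_int hd h0 r) (T_int he (fun r => (h0 r).trans (h r)) r)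
      measurableSet_Ioc fun t ht => ?_
    exact mul_le_mul_of_nonneg_left (g_mono (h t)) (ker_nonneg ht)
  linarith

lemma T_exp {ε : ℝ} (hε : 0 ≤ ε) {d : ℝ → ℝ} (hd : Measurable d) (h0 : ∀ r, 0 ≤ d r)
    (h : ∀ r, d r ≤ ε * Real.exp (16 * r ^ 2)) (r : ℝ) : T ε d r ≤ ε * Real.exp (16 * r ^ 2) := by
  rcases le_or_gt r 0 with hr | hr
  · unfold T
    rw [Ioc_eq_empty (not_lt.2 hr)]
    simp only [Measure.restrict_empty, integral_zero_measure, mul_zero, add_zero]
    have : 1 ≤ Real.exp (16 * r ^ 2) := Real.one_le_exp (by positivity)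
    nlinarith
  · have h1 : 12 * ∫ t in Ioc 0 r, (t - t ^ 2 / r) * g d t ≤
        ∫ t in (0:ℝ)..r, ε * (Real.exp (16 * t ^ 2) * (16 * (2 * t))) := by
      rw [intervalIntegral.integral_of_le hr.le, ← integral_const_mul]
      refine setIntegral_mono_on ((T_int hd h0 r).const_mul 12) ?_ measurableSet_Ioc fun t ht => ?_
      · have : Continuous fun t : ℝ => ε * (Real.exp (16 * t ^ 2) * (16 * (2 * t))) := by fun_prop
        exact (this.integrableOn_Icc).mono_set Ioc_subset_Icc_self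
      · have h2 := g_lin ht.1.le (h0 t)
        have h3 := ker_le ht
        have h4 := ker_nonneg ht
        have h5 := g_nonneg (h0 t)
        have h6 : (t - t ^ 2 / r) * g d t ≤ t * (8/3 * d t) :=
          mul_le_mul h3 h2 h5 ht.1.le
        have h7 : t * (8/3 * d t) ≤ t * (8/3 * (ε * Real.exp (16 * t ^ 2))) := by
          have := h t
          have := ht.1
          gcongr
        calc 12 * ((t - t ^ 2 / r) * g d t) ≤ 12 * (t * (8/3 * (ε * Real.exp (16 * t ^ 2)))) := by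
              linarith
          _ = _ := by ring
    have h2 : ∫ t in (0:ℝ)..r, ε * (Real.exp (16 * t ^ 2) * (16 * (2 * t))) =
        ε * Real.exp (16 * r ^ 2) - ε := by
      have hd : ∀ t ∈ uIcc 0 r, HasDerivAt (fun t : ℝ => ε * Real.exp (16 * t ^ 2))
          (ε * (Real.exp (16 * t ^ 2) * (16 * (2 * t)))) t := by
        intro t _
        have h3 : HasDerivAt (fun t : ℝ => 16 * t ^ 2) (16 * (2 * t)) t := by
          simpa using (hasDerivAt_pow 2 t).const_mul (16:ℝ)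
        exact h3.exp.const_mul ε
      rw [intervalIntegral.integral_eq_sub_of_hasDerivAt hd
        (Continuous.intervalIntegrable (by fun_prop) _ _)]
      simp
    unfold T
    linarith

/-- the iterates -/
noncomputable def it (ε : ℝ) : ℕ → ℝ → ℝ
  | 0 => fun _ => 0
  | n + 1 => T ε (it ε n)

lemma it_prop {ε : ℝ} (hε : 0 ≤ ε) (n : ℕ) :
    Measurable (it ε n) ∧ (∀ r, 0 ≤ it ε n r) ∧ Monotone (it ε n) ∧
      ∀ r, it ε n r ≤ ε * Real.exp (16 * r ^ 2) := by
  induction n with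
  | zero =>
    refine ⟨measurable_const, fun r => le_rfl, fun _ _ _ => le_rfl, fun r => ?_⟩
    show (0:ℝ) ≤ _
    positivity
  | succ n ih =>
    obtain ⟨h1, h2, h3, h4⟩ := ih
    have hm := T_mono (ε := ε) h1 h2
    exact ⟨hm.measurable, fun r => hε.trans (T_ge h2 r), hm, fun r => T_exp hε h1 h2 h4 r⟩

lemma it_mono {ε : ℝ} (hε : 0 ≤ ε) (r : ℝ) : Monotone fun n => it ε n r := by
  refine monotone_nat_of_le_succ fun n => ?_
  induction n generalizing r with
  | zero => exact (it_prop hε 1).2.1 r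
  | succ n ih =>
    exact T_le_T (it_prop hε n).1 (it_prop hε (n+1)).1 (it_prop hε n).2.1 ih r

/-- the solution -/
noncomputable def ds (ε : ℝ) (r : ℝ) : ℝ := ⨆ n, it ε n r

lemma ds_lim {ε : ℝ} (hε : 0 ≤ ε) (r : ℝ) : Tendsto (fun n => it ε n r) atTop (𝓝 (ds ε r)) :=
  tendsto_atTop_ciSup (it_mono hε r)
    ⟨ε * Real.exp (16 * r ^ 2), by rintro _ ⟨n, rfl⟩; exact (it_prop hε n).2.2.2 r⟩

lemma ds_mono {ε : ℝ} (hε : 0 ≤ ε) : Monotone (ds ε) := fun r s h =>
  le_of_tendsto_of_tendsto' (ds_lim hε r) (ds_lim hε s) fun n => (it_prop hε n).2.2.1 h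

lemma ds_nonneg {ε : ℝ} (hε : 0 ≤ ε) (r : ℝ) : 0 ≤ ds ε r :=
  ge_of_tendsto' (ds_lim hε r) fun n => (it_prop hε n).2.1 r

lemma ds_le {ε : ℝ} (hε : 0 ≤ ε) (r : ℝ) : ds ε r ≤ ε * Real.exp (16 * r ^ 2) :=
  le_of_tendsto' (ds_lim hε r) fun n => (it_prop hε n).2.2.2 r

/-- **The integral equation.** -/
theorem ds_eq {ε : ℝ} (hε : 0 ≤ ε) (r : ℝ) : ds ε r = T ε (ds ε) r := by
  have h1 : Tendsto (fun n => it ε (n + 1) r) atTop (𝓝 (ds ε r)) :=
    (ds_lim hε r).comp (tendsto_add_atTop_nat 1)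
  refine tendsto_nhds_unique h1 ?_
  show Tendsto (fun n => T ε (it ε n) r) atTop _
  unfold T
  refine Tendsto.const_add ε (Tendsto.const_mul 12 ?_)
  have hb : IntegrableOn (fun _ : ℝ => |r| * 6) (Ioc 0 r) := integrableOn_const (by simp)
  refine tendsto_integral_of_dominated_convergence (fun _ => |r| * 6) ?_ hb ?_ ?_
  · intro n
    exact (Measurable.mul (by fun_prop) (g_meas (it_prop hε n).1)).aestronglyMeasurable
  · intro n
    filter_upwards [ae_restrict_mem measurableSet_Ioc] with t ht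
    have h1 := ker_nonneg ht
    have h2 := g_nonneg ((it_prop hε n).2.1 t)
    rw [Real.norm_of_nonneg (mul_nonneg h1 h2)]
    have h3 : t - t ^ 2 / r ≤ |r| := (ker_le ht).trans (ht.2.trans (le_abs_self r))
    exact mul_le_mul h3 ((g_le t).trans (Pu_le ht.1.le)) h2 (abs_nonneg r)
  · refine ae_of_all _ fun t => ?_
    refine Tendsto.const_mul _ ?_
    unfold g
    refine Tendsto.const_sub _ ?_
    exact (P_cont.tendsto _).comp ((ds_lim hε t).const_sub (u t))

end Pool.Agent.R999.Ion
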