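import Pool.Agent.R999.Ion

/-!
# Growth of the perturbation of a neutral radial Thomas-Fermi potential
-/

set_option autoImplicit false

namespace Pool.Agent.R999.Ion

open MeasureTheory Set Filter Topology

section
variable {ε : ℝ} (hε : 0 ≤ ε)
include hε

lemma dm : Measurable (ds ε) := (ds_mono hε).measurable

lemma d_ge (r : ℝ) : ε ≤ ds ε r := by
  rw [ds_eq hε]
  exact T_ge (ds_nonneg hε) r

lemma gd_bd (t : ℝ) : 0 ≤ g (ds ε) t ∧ g (ds ε) t ≤ 6 := by
  refine ⟨g_nonneg (ds_nonneg hε t), (g_le t).trans ?_⟩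
  rcases le_or_gt 0 t with h | h
  · exact Pu_le h
  · have h1 : u t ≤ u 0 := by
      rw [u_lt (by linarith), u_lt (by norm_num)]
      nlinarith [sq_nonneg t]
    exact (P_mono h1).trans (Pu_le le_rfl)

lemma gint (k : ℕ) (a b : ℝ) : IntervalIntegrable (fun t => t ^ k * g (ds ε) t) volume a b := by
  have h1 : IntervalIntegrable (fun t : ℝ => |t| ^ k * 6) volume a b :=
    Continuous.intervalIntegrable (by fun_prop) _ _
  refine h1.mono_fun' ?_ ?_
  · exact (Measurable.mul (by fun_prop) (g_meas (dm hε))).aestronglyMeasurable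
  · refine ae_of_all _ fun t => ?_
    obtain ⟨g1, g2⟩ := gd_bd hε t
    show ‖t ^ k * g (ds ε) t‖ ≤ |t| ^ k * 6
    rw [norm_mul, norm_pow, Real.norm_eq_abs, Real.norm_of_nonneg g1]
    gcongr

/-- moments of the source -/
noncomputable def Mo (ε : ℝ) (k : ℕ) (r : ℝ) : ℝ := ∫ t in (0:ℝ)..r, t ^ k * g (ds ε) t

omit hε in
lemma Mo_cont (hε : 0 ≤ ε) (k : ℕ) : Continuous (Mo ε k) :=
  intervalIntegral.continuous_primitive (gint hε k) 0

lemma d_form {r : ℝ} (hr : 0 < r) : ds ε r = ε + 12 * (Mo ε 1 r - Mo ε 2 r / r) := by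
  rw [ds_eq hε]
  unfold T Mo
  congr 2
  rw [intervalIntegral.integral_of_le hr.le, intervalIntegral.integral_of_le hr.le]
  have i1 : IntegrableOn (fun t => t ^ 1 * g (ds ε) t) (Ioc 0 r) :=
    (intervalIntegrable_iff_integrableOn_Ioc_of_le hr.le).1 (gint hε 1 0 r)
  have i2 : IntegrableOn (fun t => t ^ 2 * g (ds ε) t) (Ioc 0 r) :=
    (intervalIntegrable_iff_integrableOn_Ioc_of_le hr.le).1 (gint hε 2 0 r)
  rw [← integral_div, ← integral_sub i1 (i2.div_const r)]
  refine integral_congr_ae (ae_of_all _ fun t => ?_)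
  show (t - t ^ 2 / r) * g (ds ε) t = t ^ 1 * g (ds ε) t - t ^ 2 * g (ds ε) t / r
  ring

lemma d_contAt {r : ℝ} (hr : 0 < r) : ContinuousAt (ds ε) r := by
  have h1 : ContinuousAt (fun r => ε + 12 * (Mo ε 1 r - Mo ε 2 r / r)) r := by
    refine continuousAt_const.add (continuousAt_const.mul ?_)
    exact (Mo_cont hε 1).continuousAt.sub ((Mo_cont hε 2).continuousAt.div continuousAt_id hr.ne')
  refine h1.congr ?_
  filter_upwards [lt_mem_nhds hr] with s hs
  exact (d_form hε hs).symm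

lemma g_contAt {r : ℝ} (hr : 0 < r) : ContinuousAt (g (ds ε)) r := by
  have hu : ContinuousAt u r := u_cont.continuousAt (Ici_mem_nhds hr)
  unfold g
  exact (P_cont.continuousAt.comp hu).sub (P_cont.continuousAt.comp (hu.sub (d_contAt hε hr)))

lemma Mo_deriv (k : ℕ) {r : ℝ} (hr : 0 < r) : HasDerivAt (Mo ε k) (r ^ k * g (ds ε) r) r := by
  refine intervalIntegral.integral_hasDerivAt_right (gint hε k 0 r) ?_ ?_
  · exact (Measurable.mul (by fun_prop) (g_meas (dm hε))).aestronglyMeasurable.stronglyMeasurableAtFilter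
  · exact ((continuous_pow k).continuousAt).mul (g_contAt hε hr)

lemma d_deriv {r : ℝ} (hr : 0 < r) : HasDerivAt (ds ε) (12 * Mo ε 2 r / r ^ 2) r := by
  have h1 := ((Mo_deriv hε 1 hr).sub ((Mo_deriv hε 2 hr).div (hasDerivAt_id r) hr.ne')).const_mul 12
  have h2 := h1.const_add ε
  refine (h2.congr_deriv ?_).congr_of_eventuallyEq ?_
  · simp only [id]
    field_simp
    ring
  · filter_upwards [lt_mem_nhds hr] with s hs
    exact d_form hε hs

/-- `r² g ≥ d` as long as the perturbed potential is nonnegative, outside the unit ball -/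
lemma source_low {r : ℝ} (h1 : 1 ≤ r) (h2 : ds ε r ≤ u r) : ds ε r ≤ r ^ 2 * g (ds ε) r := by
  have hd := ds_nonneg hε r
  have hr : 0 < r := by linarith
  have h3 := P_diff_ge (a := u r) (b := u r - ds ε r) (by linarith) (by linarith)
  have e : u r - (u r - ds ε r) = ds ε r := by ring
  rw [e] at h3
  have h4 : √(u r) = 1 / r ^ 2 := by
    rw [u_ge h1, show (1:ℝ) / r ^ 4 = (1 / r ^ 2) ^ 2 by ring]
    exact Real.sqrt_sq (by positivity)
  rw [h4] at h3
  have h5 := mul_le_mul_of_nonneg_left h3 (by positivity : 0 ≤ r ^ 2)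
  have e2 : r ^ 2 * (1 / r ^ 2 * ds ε r) = ds ε r := by field_simp
  rw [e2] at h5
  exact h5

/-- **Growth estimate.** -/
theorem growth {s : ℝ} (hs : 1 ≤ s) (hds : ds ε s ≤ u s) {r : ℝ} (hr : 1 ≤ r) (hrs : r ≤ s) :
    ds ε r / r ^ 3 - 3/7 * ds ε 1 / r ^ 7 ≤ ds ε s / s ^ 3 := by
  have hle : ∀ t, 1 ≤ t → t ≤ s → ds ε t ≤ u t := fun t h1 h2 =>
    (ds_mono hε h2).trans (hds.trans (u_anti (by linarith) h2))
  -- the Wronskian
  set W : ℝ → ℝ := fun t => 12 * t ^ 3 * Mo ε 2 t - 3 * t ^ 4 * ds ε t with hW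
  have hWd : ∀ t, 0 < t → HasDerivAt W (12 * t ^ 3 * (t ^ 2 * g (ds ε) t - ds ε t)) t := by
    intro t ht
    have a1 : HasDerivAt (fun t : ℝ => 12 * t ^ 3) (12 * (3 * t ^ 2)) t := by
      simpa using (hasDerivAt_pow 3 t).const_mul (12:ℝ)
    have a2 : HasDerivAt (fun t : ℝ => 3 * t ^ 4) (3 * (4 * t ^ 3)) t := by
      simpa using (hasDerivAt_pow 4 t).const_mul (3:ℝ)
    have := (a1.mul (Mo_deriv hε 2 ht)).sub (a2.mul (d_deriv hε ht))
    refine this.congr_deriv ?_
    field_simp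
    ring
  have hWm : MonotoneOn W (Icc 1 s) := by
    refine monotoneOn_of_deriv_nonneg (convex_Icc 1 s) ?_ ?_ ?_
    · intro t ht
      exact (hWd t (by linarith [ht.1])).continuousAt.continuousWithinAt
    · intro t ht
      rw [interior_Icc] at ht
      exact (hWd t (by linarith [ht.1])).differentiableAt.differentiableWithinAt
    · intro t ht
      rw [interior_Icc] at ht
      rw [(hWd t (by linarith [ht.1])).deriv]
      have h1 := source_low hε ht.1.le (hle t ht.1.le ht.2.le)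
      have h2 : 0 < t := by linarith [ht.1]
      have h3 : 0 ≤ t ^ 2 * g (ds ε) t - ds ε t := by linarith
      positivity
  have hW1 : -(3 * ds ε 1) ≤ W 1 := by
    have h1 : 0 ≤ Mo ε 2 1 := by
      unfold Mo
      refine intervalIntegral.integral_nonneg zero_le_one fun t ht => ?_
      exact mul_nonneg (by positivity) (gd_bd hε t).1
    show -(3 * ds ε 1) ≤ 12 * 1 ^ 3 * Mo ε 2 1 - 3 * 1 ^ 4 * ds ε 1
    linarith
  have hWlow : ∀ t ∈ Icc 1 s, -(3 * ds ε 1) ≤ W t := fun t ht =>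
    hW1.trans (hWm ⟨le_rfl, hs⟩ ht ht.1)
  -- the monotone quantity
  set Q : ℝ → ℝ := fun t => ds ε t / t ^ 3 - 3/7 * ds ε 1 / t ^ 7 with hQ
  have hQd : ∀ t, 0 < t → HasDerivAt Q ((W t + 3 * ds ε 1) / t ^ 8) t := by
    intro t ht
    have a1 := (d_deriv hε ht).div (hasDerivAt_pow 3 t) (by positivity)
    have a2 := (hasDerivAt_const t (3/7 * ds ε 1)).div (hasDerivAt_pow 7 t) (by positivity)
    refine (a1.sub a2).congr_deriv ?_
    rw [hW]
    simp only [Nat.cast_ofNat, Nat.add_one_sub_one]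
    field_simp
    ring
  have hQm : MonotoneOn Q (Icc 1 s) := by
    refine monotoneOn_of_deriv_nonneg (convex_Icc 1 s) ?_ ?_ ?_
    · intro t ht
      exact (hQd t (by linarith [ht.1])).continuousAt.continuousWithinAt
    · intro t ht
      rw [interior_Icc] at ht
      exact (hQd t (by linarith [ht.1])).differentiableAt.differentiableWithinAt
    · intro t ht
      rw [interior_Icc] at ht
      rw [(hQd t (by linarith [ht.1])).deriv]
      have h1 := hWlow t ⟨ht.1.le, ht.2.le⟩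
      have h2 : 0 < t := by linarith [ht.1]
      have h3 : 0 ≤ W t + 3 * ds ε 1 := by linarith
      positivity
  have h1 := hQm ⟨hr, hrs⟩ ⟨hs, le_rfl⟩ hrs
  have h2 : 0 ≤ 3/7 * ds ε 1 / s ^ 7 := by
    have := ds_nonneg hε 1
    positivity
  have h3 : ds ε r / r ^ 3 - 3/7 * ds ε 1 / r ^ 7 ≤ ds ε s / s ^ 3 - 3/7 * ds ε 1 / s ^ 7 := h1
  linarith

end

/-- **The ion.** A small perturbation of the neutral potential whose zero is beyond `4`, with the
failure of monotonicity between the radii `2` and `s`. -/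
theorem exists_ion : ∃ ε s : ℝ, 0 < ε ∧ 4 ≤ s ∧ ds ε s = u s ∧
    P (u 2) - P (u 2 - ds ε 2) < P (u s) := by
  set ε : ℝ := 1/300 * Real.exp (-256) with hεd
  have hε0 : 0 < ε := by positivity
  have hε := hε0.le
  have h4 : ds ε 4 ≤ 1/300 := by
    refine (ds_le hε 4).trans (le_of_eq ?_)
    rw [hεd, mul_assoc, ← Real.exp_add]
    norm_num
  set R : ℝ := max 4 (1 / ε) with hR
  have hR4 : 4 ≤ R := le_max_left _ _
  have hRε : 1 / ε ≤ R := le_max_right _ _
  have huR : u R ≤ ds ε R := by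
    refine le_trans ?_ (d_ge hε R)
    rw [u_ge (by linarith), div_le_iff₀ (by positivity)]
    have h1 : 1 ≤ ε * R := by
      rw [div_le_iff₀ hε0] at hRε
      linarith
    have h2 : 1 ≤ R ^ 3 := one_le_pow₀ (by linarith)
    calc (1:ℝ) ≤ ε * R := h1
      _ ≤ ε * R * R ^ 3 := le_mul_of_one_le_right (by positivity) h2
      _ = _ := by ring
  have hcont : ContinuousOn (fun r => ds ε r - u r) (Icc 4 R) := by
    intro r hr
    have hr0 : 0 < r := by linarith [hr.1]
    exact ((d_contAt hε hr0).sub (u_cont.continuousAt (Ici_mem_nhds hr0))).continuousWithinAt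
  have hu4 : u 4 = 1/256 := by rw [u_ge (by norm_num)]; norm_num
  obtain ⟨s, hs, hs0⟩ := intermediate_value_Icc hR4 hcont
    (show (0:ℝ) ∈ Icc _ _ from ⟨by rw [hu4]; linarith, by linarith⟩)
  have hs0' : ds ε s = u s := by
    have : ds ε s - u s = 0 := hs0
    linarith
  refine ⟨ε, s, hε0, hs.1, hs0', ?_⟩
  have hs1 : 1 ≤ s := by linarith [hs.1]
  have hspos : 0 < s := by linarith
  have hg := growth hε hs1 hs0'.le (r := 2) (by norm_num) (by linarith [hs.1])
  have hd1 : ds ε 1 ≤ ds ε 2 := ds_mono hε (by norm_num)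
  have hus : u s = 1 / s ^ 4 := u_ge hs1
  rw [hs0', hus] at hg
  have hd2 := ds_nonneg hε 2
  -- bound for d(2)
  have h5 : ds ε 2 ≤ 9 / s ^ 7 := by
    have e : (1 / s ^ 4) / s ^ 3 = 1 / s ^ 7 := by field_simp
    rw [e] at hg
    have h6 : ds ε 2 * (109/896) ≤ 1 / s ^ 7 := by
      have h7 : (2:ℝ) ^ 3 = 8 := by norm_num
      have h8 : (2:ℝ) ^ 7 = 128 := by norm_num
      rw [h7, h8] at hg
      linarith
    have h7 : 0 < 1 / s ^ 7 := by positivity
    have e2 : 9 / s ^ 7 = 9 * (1 / s ^ 7) := by ring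
    rw [e2]
    linarith
  have hu2 : u 2 = 1/16 := by rw [u_ge (by norm_num)]; norm_num
  have h8 := P_diff_le (a := u 2) (b := u 2 - ds ε 2) (u_pos (by norm_num)).le (by linarith)
  have e3 : u 2 - (u 2 - ds ε 2) = ds ε 2 := by ring
  rw [e3] at h8
  have h9 : √(u 2) = 1/4 := by
    rw [hu2, show (1/16 : ℝ) = (1/4) ^ 2 by norm_num]
    exact Real.sqrt_sq (by norm_num)
  rw [h9] at h8
  have h10 : P (u s) = 1 / s ^ 6 := by
    rw [P_eq (u_pos hspos.le).le, hus, show (1:ℝ) / s ^ 4 = (1 / s ^ 2) ^ 2 by ring,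
      Real.sqrt_sq (by positivity)]
    field_simp
  rw [h10]
  refine lt_of_le_of_lt h8 ?_
  calc 3/2 * (1/4) * ds ε 2 ≤ 3/2 * (1/4) * (9 / s ^ 7) := by gcongr
    _ = (27/8) / s * (1 / s ^ 6) := by field_simp; norm_num
    _ < 1 * (1 / s ^ 6) := by
        refine mul_lt_mul_of_pos_right ?_ (by positivity)
        rw [div_lt_one hspos]
        linarith [hs.1]
    _ = _ := one_mul _

end Pool.Agent.R999.Ion
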