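import Pool.Agent.R999.TFMin
import Pool.Agent.R999.Ion2

/-!
# Thomas-Fermi densities of a smeared spherical nucleus
-/

set_option autoImplicit false

namespace Pool.Agent.R999.IonTF

open MeasureTheory Set Filter Topology Metric
open Pool.Agent.TH791.Cl Pool.Agent.R999.FAf Pool.Agent.R999.Newton Pool.Agent.R999.Ion
open Pool.Agent.R999.TFMin
open scoped ENNReal

/-- net charge density (nucleus minus neutral cloud), normalised -/
noncomputable def N1 (t : ℝ) : ℝ := if t < 1 then 1 else -(1 / t ^ 6)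

/-- nuclear charge density, normalised -/
noncomputable def m1 (t : ℝ) : ℝ := if t < 1 then 1 + P (u t) else 0

lemma N1_meas : Measurable N1 := by
  unfold N1
  exact Measurable.ite measurableSet_Iio (by fun_prop) (by fun_prop)

lemma m1_meas : Measurable m1 := by
  unfold m1
  exact Measurable.ite measurableSet_Iio (measurable_const.add (P_cont.measurable.comp u_meas))
    measurable_const

lemma Pu_out {t : ℝ} (ht : 1 ≤ t) : P (u t) = 1 / t ^ 6 := by
  have h0 : 0 < t := by linarith
  rw [P_eq (u_pos h0.le).le, u_ge ht, show (1:ℝ) / t ^ 4 = (1 / t ^ 2) ^ 2 by ring,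
    Real.sqrt_sq (by positivity)]
  field_simp

lemma m1_sub (t : ℝ) (_ht : 0 ≤ t) : m1 t - P (u t) = N1 t := by
  unfold m1 N1
  rcases lt_or_ge t 1 with h | h
  · rw [if_pos h, if_pos h]; ring
  · rw [if_neg (not_lt.2 h), if_neg (not_lt.2 h), Pu_out h]; ring

/-- `∫_r^∞ t^{-k}` -/
lemma tailpow {k : ℕ} (hk : 1 ≤ k) {r : ℝ} (hr : 0 < r) :
    IntegrableOn (fun t : ℝ => 1 / t ^ (k + 1)) (Ioi r) ∧
    ∫ t in Ioi r, 1 / t ^ (k + 1) = 1 / (k * r ^ k) := by
  have hk0 : (0:ℝ) < k := by exact_mod_cast hk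
  have hd : ∀ t ∈ Ici r, HasDerivAt (fun t : ℝ => -(1 / (k * t ^ k))) (1 / t ^ (k + 1)) t := by
    intro t ht
    have ht0 : 0 < t := lt_of_lt_of_le hr ht
    have h1 : HasDerivAt (fun t : ℝ => (k:ℝ) * t ^ k) (k * (k * t ^ (k - 1))) t :=
      (hasDerivAt_pow k t).const_mul (k:ℝ)
    have h2 := (h1.inv (by positivity)).neg
    refine (h2.congr_deriv ?_).congr_of_eventuallyEq (Eventually.of_forall fun t => ?_)
    · obtain ⟨j, rfl⟩ : ∃ j, k = j + 1 := ⟨k - 1, by omega⟩
      simp only [Nat.add_sub_cancel]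
      field_simp
      ring
    · simp
  have hl : Tendsto (fun t : ℝ => -(1 / (k * t ^ k))) atTop (𝓝 0) := by
    have h1 : Tendsto (fun t : ℝ => (k:ℝ) * t ^ k) atTop atTop :=
      (tendsto_pow_atTop (by omega)).const_mul_atTop hk0
    have h2 := (tendsto_const_nhds (x := (1:ℝ))).div_atTop h1
    simpa using h2.neg
  obtain ⟨a, b⟩ := ioi (hd r self_mem_Ici).continuousAt.continuousWithinAt
    (fun t ht => hd t (Ioi_subset_Ici_self ht))
    (fun t ht => by
      have h1 : 0 < t := lt_trans hr ht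
      positivity) hl
  refine ⟨a, ?_⟩
  rw [b]; ring

/-- Newton integral of the net charge. -/
lemma N1_pot {r : ℝ} (hr : 0 ≤ r) : IntegrableOn (fun t => kx r t * N1 t) (Ioi 0) ∧
    ∫ t in Ioi (0:ℝ), kx r t * N1 t = Real.pi / 3 * u r := by
  have hpi := Real.pi_pos
  have hcont : ∀ (c : ℝ) (k : ℕ) (a b : ℝ), IntegrableOn (fun t : ℝ => c * t ^ k) (Ioc a b) :=
    fun c k a b => ((Continuous.integrableOn_Icc (by fun_prop)).mono_set Ioc_subset_Icc_self)
  rcases lt_or_ge r 1 with h1 | h1
  · -- inside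
    have e1 : ∀ t ∈ Ioc 0 r, kx r t * N1 t = 4 * Real.pi / r * t ^ 2 := by
      intro t ht
      unfold kx N1
      rw [max_eq_left ht.2, if_pos (lt_of_le_of_lt ht.2 h1)]
      ring
    have e2 : ∀ t ∈ Ioo r 1, kx r t * N1 t = 4 * Real.pi * t ^ 1 := by
      intro t ht
      have : 0 < t := lt_of_le_of_lt hr ht.1
      unfold kx N1
      rw [max_eq_right ht.1.le, if_pos ht.2]
      field_simp
    have e3 : ∀ t ∈ Ici 1, kx r t * N1 t = -(4 * Real.pi) * (1 / t ^ (4 + 1)) := by
      intro t ht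
      have ht' : (1:ℝ) ≤ t := ht
      have : 0 < t := by linarith
      unfold kx N1
      rw [max_eq_right (by linarith), if_neg (not_lt.2 ht')]
      field_simp
    obtain ⟨q1, q2⟩ := tailpow (k := 4) (by norm_num) one_pos
    have i1 : IntegrableOn (fun t => kx r t * N1 t) (Ioc 0 r) :=
      (hcont _ 2 0 r).congr_fun (fun t ht => (e1 t ht).symm) measurableSet_Ioc
    have i2 : IntegrableOn (fun t => kx r t * N1 t) (Ioo r 1) :=
      ((hcont (4 * Real.pi) 1 r 1).mono_set Ioo_subset_Ioc_self).congr_fun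
        (fun t ht => (e2 t ht).symm) measurableSet_Ioo
    have i3 : IntegrableOn (fun t => kx r t * N1 t) (Ici 1) := by
      have : IntegrableOn (fun t : ℝ => -(4 * Real.pi) * (1 / t ^ (4 + 1))) (Ici 1) := by
        rw [integrableOn_Ici_iff_integrableOn_Ioi]
        exact q1.const_mul _
      exact this.congr_fun (fun t ht => (e3 t ht).symm) measurableSet_Ici
    have u1 : Ioo r 1 ∪ Ici 1 = Ioi r := Ioo_union_Ici_eq_Ioi h1
    have u2 : Ioc 0 r ∪ Ioi r = Ioi 0 := Ioc_union_Ioi_eq_Ioi hr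
    have i23 : IntegrableOn (fun t => kx r t * N1 t) (Ioi r) := by
      rw [← u1]; exact i2.union i3
    refine ⟨by rw [← u2]; exact i1.union i23, ?_⟩
    rw [← u2, setIntegral_union (Ioc_disjoint_Ioi le_rfl) measurableSet_Ioi i1 i23, ← u1,
      setIntegral_union (by
        rw [Set.disjoint_left]
        intro t ht ht2
        exact absurd ht.2 (not_lt.2 ht2)) measurableSet_Ici i2 i3,
      setIntegral_congr_fun measurableSet_Ioc e1, setIntegral_congr_fun measurableSet_Ioo e2,
      setIntegral_congr_fun measurableSet_Ici e3, integral_const_mul, integral_const_mul,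
      integral_const_mul, integral_Ici_eq_integral_Ioi, q2, ← integral_Ioc_eq_integral_Ioo,
      ← intervalIntegral.integral_of_le hr, ← intervalIntegral.integral_of_le h1.le,
      integral_pow, integral_pow, u_lt h1]
    rcases hr.eq_or_lt with h0 | h0
    · rw [← h0]; norm_num; ring
    · norm_num
      field_simp
      ring
  · -- outside
    have hr0 : 0 < r := by linarith
    have e1 : ∀ t ∈ Ioo 0 1, kx r t * N1 t = 4 * Real.pi / r * t ^ 2 := by
      intro t ht
      unfold kx N1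
      rw [max_eq_left (by linarith [ht.2]), if_pos ht.2]
      ring
    have e2 : ∀ t ∈ Icc 1 r, kx r t * N1 t = -(4 * Real.pi / r) * (1 / t ^ (3 + 1)) := by
      intro t ht
      have : 0 < t := by linarith [ht.1]
      unfold kx N1
      rw [max_eq_left ht.2, if_neg (not_lt.2 ht.1)]
      field_simp
    have e3 : ∀ t ∈ Ioi r, kx r t * N1 t = -(4 * Real.pi) * (1 / t ^ (4 + 1)) := by
      intro t ht
      have ht' : r < t := ht
      have : 0 < t := by linarith
      unfold kx N1
      rw [max_eq_right ht'.le, if_neg (not_lt.2 (by linarith))]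
      field_simp
    obtain ⟨q1, q2⟩ := tailpow (k := 4) (by norm_num) hr0
    obtain ⟨q3, q4⟩ := tailpow (k := 3) (by norm_num) hr0
    obtain ⟨q5, q6⟩ := tailpow (k := 3) (by norm_num) one_pos
    have i1 : IntegrableOn (fun t => kx r t * N1 t) (Ioo 0 1) :=
      ((hcont (4 * Real.pi / r) 2 0 1).mono_set Ioo_subset_Ioc_self).congr_fun
        (fun t ht => (e1 t ht).symm) measurableSet_Ioo
    have q7 : IntegrableOn (fun t : ℝ => 1 / t ^ (3 + 1)) (Icc 1 r) := by
      rw [integrableOn_Icc_iff_integrableOn_Ioc]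
      exact q5.mono_set Ioc_subset_Ioi_self
    have i2 : IntegrableOn (fun t => kx r t * N1 t) (Icc 1 r) := by
      have : IntegrableOn (fun t : ℝ => -(4 * Real.pi / r) * (1 / t ^ (3 + 1))) (Icc 1 r) :=
        q7.const_mul _
      exact this.congr_fun (fun t ht => (e2 t ht).symm) measurableSet_Icc
    have i3 : IntegrableOn (fun t => kx r t * N1 t) (Ioi r) := by
      have : IntegrableOn (fun t : ℝ => -(4 * Real.pi) * (1 / t ^ (4 + 1))) (Ioi r) :=
        q1.const_mul _
      exact this.congr_fun (fun t ht => (e3 t ht).symm) measurableSet_Ioi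
    have u1 : Icc 1 r ∪ Ioi r = Ici 1 := Icc_union_Ioi_eq_Ici h1
    have u2 : Ioo 0 1 ∪ Ici 1 = Ioi (0:ℝ) := Ioo_union_Ici_eq_Ioi one_pos
    have i23 : IntegrableOn (fun t => kx r t * N1 t) (Ici 1) := by
      rw [← u1]; exact i2.union i3
    refine ⟨by rw [← u2]; exact i1.union i23, ?_⟩
    have v : ∫ t in Icc 1 r, 1 / t ^ (3 + 1) = 1/3 - 1 / (3 * r ^ 3) := by
      have h2 : ∫ t in Ioi (1:ℝ), 1 / t ^ (3 + 1) = (∫ t in Ioc 1 r, 1 / t ^ (3 + 1)) +
          ∫ t in Ioi r, 1 / t ^ (3 + 1) := by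
        rw [← setIntegral_union (Ioc_disjoint_Ioi le_rfl) measurableSet_Ioi
          (q5.mono_set Ioc_subset_Ioi_self) q3, Ioc_union_Ioi_eq_Ioi h1]
      rw [q4, q6] at h2
      rw [integral_Icc_eq_integral_Ioc]
      norm_num at h2 ⊢
      linarith
    rw [← u2, setIntegral_union (by
        rw [Set.disjoint_left]
        intro t ht ht2
        exact absurd ht.2 (not_lt.2 ht2)) measurableSet_Ici i1 i23, ← u1,
      setIntegral_union (by
        rw [Set.disjoint_left]
        intro t ht ht2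
        exact absurd ht.2 (not_le.2 ht2)) measurableSet_Ioi i2 i3,
      setIntegral_congr_fun measurableSet_Ioo e1, setIntegral_congr_fun measurableSet_Icc e2,
      setIntegral_congr_fun measurableSet_Ioi e3, integral_const_mul, integral_const_mul,
      integral_const_mul, v, q2, ← integral_Ioc_eq_integral_Ioo,
      ← intervalIntegral.integral_of_le zero_le_one, integral_pow, u_ge h1]
    norm_num
    field_simp
    ring

lemma Pu_int (k : ℕ) (hk : k ≤ 4) : IntegrableOn (fun t => t ^ k * P (u t)) (Ioi 0) := by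
  have u2 : Ioc 0 1 ∪ Ioi 1 = Ioi (0:ℝ) := Ioc_union_Ioi_eq_Ioi zero_le_one
  rw [← u2]
  refine IntegrableOn.union ?_ ?_
  · have hb : IntegrableOn (fun _ : ℝ => (6:ℝ)) (Ioc 0 1) := integrableOn_const (by simp)
    refine hb.mono' ?_ ?_
    · exact (Measurable.mul (by fun_prop) (P_cont.measurable.comp u_meas)).aestronglyMeasurable
    · filter_upwards [ae_restrict_mem measurableSet_Ioc] with t ht
      have h1 := P_nonneg (u t)
      have h2 := ht.1.le
      rw [Real.norm_of_nonneg (by positivity)]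
      calc t ^ k * P (u t) ≤ 1 * 6 := by
            refine mul_le_mul (pow_le_one₀ h2 ht.2) (Pu_le h2) h1 zero_le_one
        _ = 6 := by norm_num
  · obtain ⟨q1, _⟩ := tailpow (k := 1) le_rfl one_pos
    refine q1.mono' ?_ ?_
    · exact (Measurable.mul (by fun_prop) (P_cont.measurable.comp u_meas)).aestronglyMeasurable
    · filter_upwards [ae_restrict_mem measurableSet_Ioi] with t ht
      have ht' : (1:ℝ) < t := ht
      have ht0 : 0 < t := by linarith
      have h1 := P_nonneg (u t)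
      rw [Real.norm_of_nonneg (by positivity), Pu_out ht'.le]
      calc t ^ k * (1 / t ^ 6) ≤ t ^ 4 * (1 / t ^ 6) := by
            have : t ^ k ≤ t ^ 4 := pow_le_pow_right₀ ht'.le hk
            gcongr
        _ = _ := by field_simp

section
variable {ε : ℝ} (hε : 0 ≤ ε)
include hε

lemma gmom (k : ℕ) (hk : k ≤ 4) : IntegrableOn (fun t => t ^ k * g (ds ε) t) (Ioi 0) := by
  refine (Pu_int k hk).mono' ?_ ?_
  · exact (Measurable.mul (by fun_prop) (g_meas (dm hε))).aestronglyMeasurable
  · filter_upwards [ae_restrict_mem measurableSet_Ioi] with t ht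
    have ht' : (0:ℝ) < t := ht
    obtain ⟨g1, _⟩ := gd_bd hε t
    rw [Real.norm_of_nonneg (by positivity)]
    exact mul_le_mul_of_nonneg_left (g_le t) (by positivity)

/-- Newton integral of the missing charge. -/
lemma g_pot {r : ℝ} (hr : 0 ≤ r) : IntegrableOn (fun t => kx r t * g (ds ε) t) (Ioi 0) ∧
    ∫ t in Ioi (0:ℝ), kx r t * g (ds ε) t =
      4 * Real.pi * (∫ t in Ioi (0:ℝ), t ^ 1 * g (ds ε) t) - Real.pi / 3 * (ds ε r - ε) := by
  have hpi := Real.pi_pos
  have G := gmom hε 1 (by norm_num)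
  have e1 : ∀ t ∈ Ioc 0 r, kx r t * g (ds ε) t = 4 * Real.pi / r * (t ^ 2 * g (ds ε) t) := by
    intro t ht
    unfold kx
    rw [max_eq_left ht.2]
    ring
  have e2 : ∀ t ∈ Ioi r, kx r t * g (ds ε) t = 4 * Real.pi * (t ^ 1 * g (ds ε) t) := by
    intro t ht
    have ht' : r < t := ht
    have : 0 < t := by linarith
    unfold kx
    rw [max_eq_right ht'.le]
    field_simp
  have i0 : IntegrableOn (fun t => t ^ 2 * g (ds ε) t) (Ioc 0 r) :=
    (intervalIntegrable_iff_integrableOn_Ioc_of_le hr).1 (gint hε 2 0 r)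
  have i1 : IntegrableOn (fun t => kx r t * g (ds ε) t) (Ioc 0 r) := by
    have : IntegrableOn (fun t => 4 * Real.pi / r * (t ^ 2 * g (ds ε) t)) (Ioc 0 r) :=
      i0.const_mul _
    exact this.congr_fun (fun t ht => (e1 t ht).symm) measurableSet_Ioc
  have G2 : IntegrableOn (fun t => t ^ 1 * g (ds ε) t) (Ioi r) := G.mono_set (Ioi_subset_Ioi hr)
  have i2 : IntegrableOn (fun t => kx r t * g (ds ε) t) (Ioi r) := by
    have : IntegrableOn (fun t => 4 * Real.pi * (t ^ 1 * g (ds ε) t)) (Ioi r) := G2.const_mul _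
    exact this.congr_fun (fun t ht => (e2 t ht).symm) measurableSet_Ioi
  have u2 : Ioc 0 r ∪ Ioi r = Ioi 0 := Ioc_union_Ioi_eq_Ioi hr
  refine ⟨by rw [← u2]; exact i1.union i2, ?_⟩
  have hsplit : ∫ t in Ioi (0:ℝ), t ^ 1 * g (ds ε) t = Mo ε 1 r +
      ∫ t in Ioi r, t ^ 1 * g (ds ε) t := by
    unfold Mo
    rw [intervalIntegral.integral_of_le hr, ← setIntegral_union (Ioc_disjoint_Ioi le_rfl)
      measurableSet_Ioi (G.mono_set Ioc_subset_Ioi_self) G2, u2]
  have hMo : ∫ t in Ioc 0 r, t ^ 2 * g (ds ε) t = Mo ε 2 r := by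
    unfold Mo
    rw [intervalIntegral.integral_of_le hr]
  have hlhs : ∫ t in Ioi (0:ℝ), kx r t * g (ds ε) t = 4 * Real.pi / r * Mo ε 2 r +
      4 * Real.pi * ∫ t in Ioi r, t ^ 1 * g (ds ε) t := by
    rw [← u2, setIntegral_union (Ioc_disjoint_Ioi le_rfl) measurableSet_Ioi i1 i2,
      setIntegral_congr_fun measurableSet_Ioc e1, setIntegral_congr_fun measurableSet_Ioi e2,
      integral_const_mul, integral_const_mul, hMo]
  rw [hlhs, hsplit]
  rcases hr.eq_or_lt with h0 | h0
  · rw [← h0]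
    have h1 : ds ε 0 = ε := by
      rw [ds_eq hε]; unfold T; simp
    rw [h1]
    unfold Mo
    simp
  · rw [d_form hε h0]
    field_simp
    ring

end

/-- radial profile as a density: basic integrability -/
lemma dens_of_le {c : ℝ} (hc : 0 ≤ c) {f : ℝ → ℝ} (hf : Measurable f) (h0 : ∀ t, 0 ≤ f t)
    (h1 : ∀ t, 0 ≤ t → f t ≤ c * P (u t)) : Dens (fun x : E3 => f ‖x‖) := by
  have i1 : Integrable (fun x : E3 => f ‖x‖) := by
    rw [integrable_radial]
    refine ((Pu_int 2 (by norm_num)).const_mul c).mono' ?_ ?_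
    · exact (Measurable.mul (by fun_prop) hf).aestronglyMeasurable
    · filter_upwards [ae_restrict_mem measurableSet_Ioi] with t ht
      have ht' : (0:ℝ) < t := ht
      have := h0 t
      rw [Real.norm_of_nonneg (by positivity)]
      have h2 := mul_le_mul_of_nonneg_left (h1 t ht'.le) (by positivity : 0 ≤ t ^ 2)
      linarith
  refine ⟨fun x => h0 _, i1, ?_⟩
  refine (i1.const_mul ((6 * c) ^ (2/3 : ℝ))).mono' ?_ (ae_of_all _ fun x => ?_)
  · exact ((hf.comp measurable_norm).pow_const _).aestronglyMeasurable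
  · have hx := h0 ‖x‖
    rw [Real.norm_of_nonneg (by positivity)]
    have h2 : f ‖x‖ ≤ 6 * c := by
      refine (h1 _ (norm_nonneg x)).trans ?_
      have := Pu_le (norm_nonneg x)
      nlinarith
    rcases hx.eq_or_lt with h3 | h3
    · rw [← h3, Real.zero_rpow (by norm_num)]; simp
    · rw [show (5/3 : ℝ) = 2/3 + 1 by norm_num, Real.rpow_add h3, Real.rpow_one]
      have : f ‖x‖ ^ (2/3 : ℝ) ≤ (6 * c) ^ (2/3 : ℝ) :=
        Real.rpow_le_rpow hx h2 (by norm_num)
      gcongr

end Pool.Agent.R999.IonTF
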