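import Pool.Agent.R999.Up3

/-!
# Lower bound for the interaction: a quantitative form of Teller's theorem
-/

set_option autoImplicit false

namespace Pool.Agent.R999.Ex

open MeasureTheory Set Filter Topology Metric
open Pool.Agent.TH791.Cl Pool.Agent.TH791.Nw Pool.Agent.R999.Pot Pool.Agent.R999.MinP
open Pool.Agent.R999.Newton
open scoped ENNReal

variable {ι : Type*} [Fintype ι]

/-- measurable functions between `0` and `ρ` -/
def Btw (ρ g : E3 → ℝ) : Prop := Measurable g ∧ ∀ x, 0 ≤ g x ∧ g x ≤ ρ x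

lemma Btw.md {ρ g : E3 → ℝ} (hρ : MD ρ) (h : Btw ρ g) : MD g := by
  refine Nice.md (nice_of_le h.1 hρ.nice fun x => ?_) fun x => (h.2 x).1
  rw [abs_of_nonneg (h.2 x).1, abs_of_nonneg (hρ.nonneg x)]
  exact (h.2 x).2

/-- the auxiliary functional -/
noncomputable def Wf (z : ι → ℝ) (R : ι → E3) (g : E3 → ℝ) : ℝ :=
  1/2 * (∫ x, g x * pot g x) - ∑ j, z j * pot g (R j)

/-- approximate solution of the obstacle problem: `V - pot g` is almost nonnegative on `ρ - g` and
almost nonpositive on `g`. -/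
lemma obstacle {z : ι → ℝ} (hz : ∀ j, 0 ≤ z j) (R : ι → E3) {ρ : E3 → ℝ} (hρ : MD ρ) {ε : ℝ}
    (hε : 0 < ε) : ∃ g, Btw ρ g ∧ ∀ g', Btw ρ g' →
      ∫ x, (Vn z R x - pot g x) * (g' x - g x) ≤ ε := by
  set D := ∫ x, ρ x * pot ρ x with hD
  have hD0 : 0 ≤ D := coul_nonneg hρ.nice
  set t : ℝ := min 1 (ε / (1 + D / 2)) with ht
  have ht0 : 0 < t := by positivity
  have ht1 : t ≤ 1 := min_le_left _ _
  have htε : t * (1 + D / 2) ≤ ε := by
    have : t ≤ ε / (1 + D / 2) := min_le_right _ _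
    rwa [le_div_iff₀ (by positivity)] at this
  -- near-minimiser
  set S : Set ℝ := {w | ∃ g, Btw ρ g ∧ Wf z R g = w} with hS
  have hne : S.Nonempty := ⟨_, fun _ => 0, ⟨measurable_const, fun x => ⟨le_rfl, hρ.nonneg x⟩⟩, rfl⟩
  have hbdd : BddBelow S := by
    refine ⟨-∑ j, z j * pot ρ (R j), ?_⟩
    rintro w ⟨g, hg, rfl⟩
    have h1 := coul_nonneg (hg.md hρ).nice
    have h2 : ∑ j, z j * pot g (R j) ≤ ∑ j, z j * pot ρ (R j) :=
      Finset.sum_le_sum fun j _ => mul_le_mul_of_nonneg_left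
        (pot_mono (hg.md hρ).nice hρ.nice (ae_of_all _ fun x => (hg.2 x).2) _) (hz j)
    unfold Wf
    linarith
  obtain ⟨w, ⟨g, hg, rfl⟩, hlt⟩ := exists_lt_of_csInf_lt hne
    (show sInf S < sInf S + t ^ 2 by have : 0 < t ^ 2 := by positivity
                                     linarith)
  refine ⟨g, hg, fun g' hg' => ?_⟩
  have mg := hg.md hρ
  have mg' := hg'.md hρ
  set h : E3 → ℝ := fun x => g' x - g x with hh
  have hN : Nice h := nice_sub mg'.nice mg.nice
  have hNt := nice_mul t hN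
  have hbt : Btw ρ (fun x => g x + t * h x) := by
    refine ⟨hg.1.add hNt.1, fun x => ?_⟩
    show 0 ≤ g x + t * h x ∧ g x + t * h x ≤ ρ x
    have a1 := hg.2 x
    have a2 := hg'.2 x
    have e : g x + t * h x = (1 - t) * g x + t * g' x := by rw [hh]; ring
    have h1t : 0 ≤ 1 - t := by linarith
    rw [e]
    constructor
    · have := mul_nonneg h1t a1.1
      have := mul_nonneg ht0.le a2.1
      linarith
    · have := mul_le_mul_of_nonneg_left a1.2 h1t
      have := mul_le_mul_of_nonneg_left a2.2 ht0.le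
      linarith
  have hge : sInf S ≤ Wf z R (fun x => g x + t * h x) := csInf_le hbdd ⟨_, hbt, rfl⟩
  have e1 : ∫ x, (g x + t * h x) * pot (fun x => g x + t * h x) x =
      (∫ x, g x * pot g x) + 2 * t * (∫ x, h x * pot g x) + t ^ 2 * ∫ x, h x * pot h x := by
    rw [coul_add mg.nice hNt, coul_mul]
    have : ∫ x, g x * pot (fun y => t * h y) x = t * ∫ x, h x * pot g x := by
      rw [← pd_swap g h mg.nice hN, ← integral_const_mul]
      congr 1; funext x; rw [pot_mul]; ring
    rw [this]; ring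
  have e2 : ∑ j, z j * pot (fun x => g x + t * h x) (R j) =
      (∑ j, z j * pot g (R j)) + t * ∑ j, z j * pot h (R j) := by
    rw [Finset.mul_sum, ← Finset.sum_add_distrib]
    refine Finset.sum_congr rfl fun j _ => ?_
    rw [pot_add mg.nice hNt, pot_mul]; ring
  have e3 : ∫ x, (Vn z R x - pot g x) * h x = (∑ j, z j * pot h (R j)) - ∫ x, h x * pot g x := by
    rw [(phi_pair mg.nice hN).2, pd_swap g h mg.nice hN]
  -- bound of the quadratic term
  have hquad : ∫ x, h x * pot h x ≤ D := by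
    have habs : ∀ x, |h x| ≤ ρ x := by
      intro x
      have a1 := hg.2 x
      have a2 := hg'.2 x
      rw [hh, abs_le]
      constructor <;> simp only <;> linarith
    have hNa : Nice (fun x => |h x|) := nice_of_le hN.1.norm hN fun x => by rw [abs_abs]
    have hp : ∀ x, |pot h x| ≤ pot ρ x := by
      intro x
      refine (pot_le_abs hN x).trans ?_
      exact pot_mono hNa hρ.nice (ae_of_all _ habs) x
    refine integral_mono (pd_int h h hN hN) (pd_int ρ ρ hρ.nice hρ.nice) fun x => ?_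
    refine (le_abs_self _).trans ?_
    rw [abs_mul]
    exact mul_le_mul (habs x) (hp x) (abs_nonneg _) (hρ.nonneg x)
  rw [e3]
  set L := (∑ j, z j * pot h (R j)) - ∫ x, h x * pot g x with hL
  have h5 : Wf z R (fun x => g x + t * h x) = Wf z R g - t * L +
      1/2 * t ^ 2 * ∫ x, h x * pot h x := by
    unfold Wf
    rw [e1, e2, hL]; ring
  rw [h5] at hge
  have h6 : t * L ≤ t * (t * (1 + D / 2)) := by
    have : 1/2 * t ^ 2 * (∫ x, h x * pot h x) ≤ 1/2 * t ^ 2 * D :=
      mul_le_mul_of_nonneg_left hquad (by positivity)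
    nlinarith
  exact (le_of_mul_le_mul_left h6 ht0).trans htε

/-- the pointwise gain -/
lemma gain_pt {a b g h : ℝ} (ha : 0 ≤ a) (hb : 0 ≤ b) (hg : 0 ≤ g) (hh : 0 ≤ h) :
    2/5 * (min a b) ^ (5/3 : ℝ) ≤
      3/5 * ((g + h) ^ (5/3 : ℝ) - g ^ (5/3 : ℝ) - h ^ (5/3 : ℝ)) + bg a g + bg b h := by
  have key : ∀ a b g h : ℝ, 0 ≤ a → a ≤ b → 0 ≤ g → 0 ≤ h → 2/5 * a ^ (5/3 : ℝ) ≤
      3/5 * ((g + h) ^ (5/3 : ℝ) - g ^ (5/3 : ℝ) - h ^ (5/3 : ℝ)) + bg a g + bg b h := by
    intro a b g h ha hab hg hh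
    have hb : 0 ≤ b := ha.trans hab
    have e : ∀ c : ℝ, 0 ≤ c → c ^ (5/3 : ℝ) = c ^ (2/3 : ℝ) * c := by
      intro c hc
      rcases hc.eq_or_lt with h | h
      · rw [← h, Real.zero_rpow (by norm_num)]; simp
      · rw [show (5/3 : ℝ) = 2/3 + 1 by norm_num, Real.rpow_add h, Real.rpow_one]
    have h1 := (TFMin.tangent_le (add_nonneg hg hh) hb).1
    have h2 : a ^ (2/3 : ℝ) * g ≤ b ^ (2/3 : ℝ) * g :=
      mul_le_mul_of_nonneg_right (Real.rpow_le_rpow ha hab (by norm_num)) hg
    unfold bg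
    have ea := e a ha
    have eb := e b hb
    nlinarith
  rcases le_total a b with h1 | h1
  · rw [min_eq_left h1]
    exact key a b g h ha h1 hg hh
  · rw [min_eq_right h1]
    have := key b a h g hb h1 hh hg
    rw [add_comm h g] at this
    linarith

lemma min_md {f g : E3 → ℝ} (hf : MD f) (hg : MD g) : MD (fun x => min (f x) (g x)) := by
  refine Nice.md (nice_of_le (hf.meas.min hg.meas) hf.nice fun x => ?_) fun x =>
    le_min (hf.nonneg x) (hg.nonneg x)
  rw [abs_of_nonneg (le_min (hf.nonneg x) (hg.nonneg x)), abs_of_nonneg (hf.nonneg x)]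
  exact min_le_left _ _

/-- **Teller's theorem with a remainder.** -/
theorem teller {ι1 ι2 : Type*} [Fintype ι1] [Fintype ι2] {γ : ℝ} (hγ : 0 < γ) {z : ι → ℝ}
    {R : ι → E3} {z1 : ι1 → ℝ} {R1 : ι1 → E3} {z2 : ι2 → ℝ} {R2 : ι2 → E3}
    (hz1 : ∀ j, 0 ≤ z1 j) (hz2 : ∀ j, 0 ≤ z2 j) {ρ1 ρ2 : E3 → ℝ}
    (T1 : TFs γ z1 R1 ρ1) (T2 : TFs γ z2 R2 ρ2)
    (hV : ∀ x, Vn z R x = Vn z1 R1 x + Vn z2 R2 x)
    (hsep : ∀ j, 0 < z2 j → ∀ i, 0 < z1 i → R2 j ≠ R1 i) {ρ : E3 → ℝ} (hρ : MD ρ) :
    En γ z1 R1 ρ1 + En γ z2 R2 ρ2 + 2/5 * γ * (∫ x, (min (ρ1 x) (ρ2 x)) ^ (5/3 : ℝ)) ≤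
      En γ z R ρ + ∑ j, z2 j * Vn z1 R1 (R2 j) := by
  set Z2 : ℝ := ∑ j, z2 j with hZ2
  have hZ20 : 0 ≤ Z2 := Finset.sum_nonneg fun j _ => hz2 j
  set A := ∫ x, ρ x ^ (5/3 : ℝ) with hA
  have hA0 : 0 ≤ A := integral_nonneg fun x => Real.rpow_nonneg (hρ.nonneg x) _
  refine le_of_forall_pos_le_add fun e he => ?_
  set η : ℝ := e / 2 / (2 * (Z2 + 1)) with hη
  have hη0 : 0 < η := by positivity
  obtain ⟨δ, hδ, hsmall⟩ := small_pot' A η hA0 hη0
  set ε : ℝ := min (e / 2) (δ * η) with hε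
  have hε0 : 0 < ε := by positivity
  obtain ⟨g, hg, hobs⟩ := obstacle hz1 R1 hρ hε0
  have mg := hg.md hρ
  set u : E3 → ℝ := fun x => Vn z1 R1 x - pot g x with hu
  have hVm : Measurable (Vn z1 R1) := by
    unfold Vn
    exact Finset.measurable_sum _ fun j _ =>
      measurable_const.div (measurable_id.sub measurable_const).norm
  have hum : Measurable u := hVm.sub (pot_cont mg.nice).measurable
  set h : E3 → ℝ := fun x => ρ x - g x with hh
  have mh : MD h := Nice.md (nice_sub hρ.nice mg.nice) fun x => sub_nonneg.2 (hg.2 x).2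
  -- the competitor
  set g' : E3 → ℝ := {x | 0 < u x}.indicator ρ with hg'
  have hposm : MeasurableSet {x | 0 < u x} := measurableSet_lt measurable_const hum
  have hb' : Btw ρ g' := by
    refine ⟨hρ.meas.indicator hposm, fun x => ⟨indicator_nonneg (fun y _ => hρ.nonneg y) x, ?_⟩⟩
    by_cases hx : x ∈ {x | 0 < u x}
    · rw [hg', indicator_of_mem hx]
    · rw [hg', indicator_of_notMem hx]; exact hρ.nonneg x
  have hI := hobs g' hb'
  have hpt : ∀ x, u x * (g' x - g x) = (if 0 < u x then u x * h x else -(u x) * g x) := by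
    intro x
    by_cases hx : 0 < u x
    · rw [if_pos hx, hg', indicator_of_mem (by exact hx)]
    · rw [if_neg hx, hg', indicator_of_notMem (by exact hx)]; ring
  have hint' : Integrable (fun x => u x * (g' x - g x)) :=
    (phi_pair mg.nice (nice_sub (hb'.md hρ).nice mg.nice)).1
  have hpt0 : ∀ x, 0 ≤ u x * (g' x - g x) := by
    intro x
    rw [hpt]
    split_ifs with hx
    · exact mul_nonneg hx.le (mh.nonneg x)
    · exact mul_nonneg (by linarith) (mg.nonneg x)
  -- (a)
  have ha : ∫ x, h x * (Vn z1 R1 x - pot g x) ≤ e / 2 := by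
    have h1 : ∫ x, h x * (Vn z1 R1 x - pot g x) ≤ ∫ x, u x * (g' x - g x) := by
      refine integral_mono ?_ hint' fun x => ?_
      · exact (phi_pair (z := z1) (R := R1) mg.nice mh.nice).1.congr
          (ae_of_all _ fun x => mul_comm _ _)
      · show h x * u x ≤ u x * (g' x - g x)
        rw [hpt]
        split_ifs with hx
        · linarith
        · have := mul_nonneg (mh.nonneg x) (show 0 ≤ -u x by linarith)
          have := mul_nonneg (show 0 ≤ -u x by linarith) (mg.nonneg x)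
          linarith
    exact h1.trans (hI.trans (min_le_left _ _))
  -- (b)
  set B : Set E3 := {x | u x < -η} with hB
  have hBm : MeasurableSet B := measurableSet_lt hum measurable_const
  have mgB : MD (B.indicator g) := md_ind mg hBm
  have hmassB : ∫ x, |B.indicator g x| ≤ δ := by
    have e0 : ∫ x, |B.indicator g x| = ∫ x, B.indicator g x := by
      congr 1; funext x; rw [abs_of_nonneg (mgB.nonneg x)]
    rw [e0]
    have h1 : ∫ x, η * B.indicator g x ≤ ∫ x, u x * (g' x - g x) := by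
      refine integral_mono (mgB.int.const_mul η) hint' fun x => ?_
      show η * B.indicator g x ≤ u x * (g' x - g x)
      by_cases hx : x ∈ B
      · have hx' : u x < -η := hx
        rw [indicator_of_mem hx, hpt, if_neg (by linarith)]
        exact mul_le_mul_of_nonneg_right (by linarith) (mg.nonneg x)
      · rw [indicator_of_notMem hx, mul_zero]; exact hpt0 x
    rw [integral_const_mul] at h1
    have h2 : η * (∫ x, B.indicator g x) ≤ η * δ := by
      have := hI.trans (min_le_right (e / 2) (δ * η))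
      linarith
    exact le_of_mul_le_mul_left h2 hη0
  have h53B : ∫ x, |B.indicator g x| ^ (5/3 : ℝ) ≤ A := by
    refine integral_mono mgB.nice.2.2 hρ.int_pow fun x => ?_
    show |B.indicator g x| ^ (5/3 : ℝ) ≤ ρ x ^ (5/3 : ℝ)
    rw [abs_of_nonneg (mgB.nonneg x)]
    refine Real.rpow_le_rpow (mgB.nonneg x) ?_ (by norm_num)
    by_cases hx : x ∈ B
    · rw [indicator_of_mem hx]; exact (hg.2 x).2
    · rw [indicator_of_notMem hx]; exact hρ.nonneg x
  have hpotB : ∀ x, pot (B.indicator g) x ≤ η := fun x =>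
    (le_abs_self _).trans ((pot_le_abs mgB.nice x).trans (hsmall _ mgB.nice hmassB h53B x))
  -- (c) lower bound of `u` at the nuclei of the second system
  have hlow : ∀ x, (∀ j, 0 < z1 j → x ≠ R1 j) → -(2 * η) ≤ u x := by
    intro x hx
    have hBc : MD (Bᶜ.indicator g) := md_ind mg hBm.compl
    have e1 : ∀ y, Vn z1 R1 y + pot (fun w => -(Bᶜ.indicator g w)) y =
        u y + pot (B.indicator g) y := by
      intro y
      have e2 : pot g y = pot (B.indicator g) y + pot (Bᶜ.indicator g) y := by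
        rw [← pot_add mgB.nice hBc.nice]
        congr 1
        funext w
        by_cases hw : w ∈ B
        · rw [indicator_of_mem hw, indicator_of_notMem (by simpa using hw), add_zero]
        · rw [indicator_of_notMem hw, indicator_of_mem (by simpa using hw), zero_add]
      rw [pot_neg, hu]
      simp only
      rw [e2]; ring
    have h3 := mp_nuc' hz1 (R := R1) (nice_neg hBc.nice) (c := -η) (by linarith) (by
      refine ae_of_all _ fun y hy => ?_
      rw [e1] at hy
      have h4 := pot_nonneg mgB.nonneg y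
      have hyB : y ∈ B := by
        show u y < -η
        linarith
      rw [indicator_of_notMem (by simpa using hyB)]; simp) hx
    rw [e1] at h3
    have := hpotB x
    linarith
  have hsum : -(e / 2) ≤ ∑ j, z2 j * (Vn z1 R1 (R2 j) - pot g (R2 j)) := by
    have h5 : ∑ j, z2 j * (-(2 * η)) ≤ ∑ j, z2 j * (Vn z1 R1 (R2 j) - pot g (R2 j)) := by
      refine Finset.sum_le_sum fun j _ => ?_
      rcases (hz2 j).eq_or_lt with h0 | h0
      · rw [← h0]; simp
      · exact mul_le_mul_of_nonneg_left (hlow _ fun i hi => hsep j h0 i hi) (hz2 j)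
    rw [← Finset.sum_mul, ← hZ2] at h5
    refine le_trans ?_ h5
    have h6 : Z2 * (2 * η) ≤ e / 2 := by
      rw [hη]
      have h7 : Z2 * (2 * (e / 2 / (2 * (Z2 + 1)))) = e / 2 * (Z2 / (Z2 + 1)) := by field_simp
      rw [h7]
      have h8 : Z2 / (Z2 + 1) ≤ 1 := (div_le_one (by positivity)).2 (by linarith)
      have := mul_le_mul_of_nonneg_left h8 (show 0 ≤ e / 2 by positivity)
      linarith
    linarith
  -- assemble
  have hsplit := En_split (γ := γ) hV mg mh
  have eρ : (fun x => g x + h x) = ρ := by funext x; rw [hh]; ring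
  rw [eρ] at hsplit
  have b1 := T1.breg mg
  have b2 := T2.breg mh
  have q1 := coul_nonneg (nice_sub mg.nice T1.md.nice)
  have q2 := coul_nonneg (nice_sub mh.nice T2.md.nice)
  have hgain : 2/5 * (∫ x, (min (ρ1 x) (ρ2 x)) ^ (5/3 : ℝ)) ≤
      3/5 * ((∫ x, (g x + h x) ^ (5/3 : ℝ)) - (∫ x, g x ^ (5/3 : ℝ)) - ∫ x, h x ^ (5/3 : ℝ)) +
      (∫ x, bg (ρ1 x) (g x)) + ∫ x, bg (ρ2 x) (h x) := by
    have i0 := (min_md T1.md T2.md).int_pow
    have i1 : Integrable (fun x => (g x + h x) ^ (5/3 : ℝ)) := by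
      have : (fun x => (g x + h x) ^ (5/3 : ℝ)) = fun x => ρ x ^ (5/3 : ℝ) := by
        funext x; rw [show g x + h x = ρ x by rw [hh]; ring]
      rw [this]; exact hρ.int_pow
    have i2 := mg.int_pow
    have i3 := mh.int_pow
    have i4 := bg_int T1.md mg
    have i5 := bg_int T2.md mh
    have i12 : Integrable (fun x => (g x + h x) ^ (5/3 : ℝ) - g x ^ (5/3 : ℝ)) := i1.sub i2
    have i123 : Integrable (fun x => (g x + h x) ^ (5/3 : ℝ) - g x ^ (5/3 : ℝ) - h x ^ (5/3 : ℝ)) :=
      i12.sub i3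
    have j1 : Integrable (fun x => 3/5 * ((g x + h x) ^ (5/3 : ℝ) - g x ^ (5/3 : ℝ) -
      h x ^ (5/3 : ℝ)) + bg (ρ1 x) (g x)) := (i123.const_mul _).add i4
    rw [← integral_sub i1 i2, ← integral_sub i12 i3, ← integral_const_mul, ← integral_const_mul,
      ← integral_add (i123.const_mul _) i4, ← integral_add j1 i5]
    exact integral_mono (i0.const_mul _) (j1.add i5) fun x =>
      gain_pt (T1.md.nonneg x) (T2.md.nonneg x) (mg.nonneg x) (mh.nonneg x)
  have hgain' := mul_le_mul_of_nonneg_left hgain hγ.le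
  have e5 : (∫ x, (g x + h x) ^ (5/3 : ℝ)) = ∫ x, ρ x ^ (5/3 : ℝ) := by
    congr 1; funext x; rw [show g x + h x = ρ x by rw [hh]; ring]
  linarith

end Pool.Agent.R999.Ex
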