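import Pool.Agent.R999.Pot
import Pool.Agent.TH791.Newt

/-!
# Minimum principle for Coulomb potentials
-/

set_option autoImplicit false

namespace Pool.Agent.R999.MinP

open MeasureTheory Set Filter Topology Metric
open Pool.Agent.TH791.Cl Pool.Agent.TH791.Nw Pool.Agent.R999.Pot
open scoped ENNReal

variable {ι : Type*} [Fintype ι]

lemma pot_le_abs {g : E3 → ℝ} (_hg : Nice g) (x : E3) : |pot g x| ≤ ∫ y, |g y| / ‖x - y‖ := by
  unfold pot
  refine (abs_integral_le_integral_abs).trans (le_of_eq ?_)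
  congr 1
  funext y
  rw [abs_div, abs_of_nonneg (norm_nonneg _)]

lemma pot_cont {g : E3 → ℝ} (hg : Nice g) : Continuous (pot g) := by
  obtain ⟨B, hB⟩ := nice_bound g hg
  rw [Metric.continuous_iff]
  intro x ε hε
  obtain ⟨η, hη, h⟩ := nice_modulus g hg (ε / 2) (by positivity)
  refine ⟨η, hη, fun y hy => ?_⟩
  rw [dist_eq_norm] at hy
  obtain ⟨i1, i2⟩ := h y x hy
  rw [Real.dist_eq]
  have e : pot g y - pot g x = ∫ t, g t * (1 / ‖y - t‖ - 1 / ‖x - t‖) := by
    unfold pot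
    rw [← integral_sub (hB y).1 (hB x).1]
    congr 1
    funext t
    ring
  rw [e]
  refine lt_of_le_of_lt ((abs_integral_le_integral_abs).trans ?_) (half_lt_self hε)
  refine le_trans (le_of_eq ?_) i2
  congr 1
  funext t
  rw [abs_mul]

lemma pot_decay {g : E3 → ℝ} (hg : Nice g) {ε : ℝ} (hε : 0 < ε) :
    ∃ M : ℝ, ∀ x : E3, M ≤ ‖x‖ → |pot g x| ≤ ε := by
  obtain ⟨M, hM⟩ := nice_decay g hg ε hε
  exact ⟨M, fun x hx => (pot_le_abs hg x).trans (hM x hx)⟩

/-- a potential whose density is nonnegative near each point where it equals its minimum is constant -/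
theorem strong {g : E3 → ℝ} (hg : Nice g) {x0 : E3} (hmin : ∀ x, pot g x0 ≤ pot g x) {θ : ℝ}
    (hθ : pot g x0 < θ) (h : ∀ᵐ x, pot g x < θ → 0 ≤ g x) : ∀ x, pot g x = pot g x0 := by
  have hc := pot_cont hg
  set A : Set E3 := {x | pot g x = pot g x0} with hA
  have hclosed : IsClosed A := isClosed_eq hc continuous_const
  have hopen : IsOpen A := by
    rw [Metric.isOpen_iff]
    intro a ha
    have ha' : pot g a = pot g x0 := ha
    have hnb : {x | pot g x < θ} ∈ 𝓝 a := by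
      refine (isOpen_lt hc continuous_const).mem_nhds ?_
      show pot g a < θ
      rw [ha']; exact hθ
    obtain ⟨s, hs, hsub⟩ := Metric.mem_nhds_iff.1 hnb
    refine ⟨s, hs, ?_⟩
    obtain ⟨i1, i2⟩ := avg_pot g hg a s hs (by
      filter_upwards [h] with y hy hyb
      exact hy (hsub hyb))
    have hfin : volume (ball a s) < ∞ := measure_ball_lt_top
    have hci : IntegrableOn (fun _ : E3 => pot g x0) (ball a s) := integrableOn_const hfin.ne
    have hz : ∫ x in ball a s, (pot g x - pot g x0) = 0 := by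
      have h1 : 0 ≤ ∫ x in ball a s, (pot g x - pot g x0) :=
        integral_nonneg fun x => sub_nonneg.2 (hmin x)
      have h2 : ∫ x in ball a s, (pot g x - pot g x0) =
          (∫ x in ball a s, pot g x) - (volume (ball a s)).toReal * pot g x0 := by
        rw [integral_sub i1 hci, setIntegral_const]
        simp [Measure.real]
      rw [h2] at h1 ⊢
      rw [ha'] at i2
      linarith
    have hae : (fun x => pot g x - pot g x0) =ᵐ[volume.restrict (ball a s)] 0 :=
      (integral_eq_zero_iff_of_nonneg (fun x => sub_nonneg.2 (hmin x)) (i1.sub hci)).1 hz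
    have heq : EqOn (pot g) (fun _ => pot g x0) (ball a s) := by
      refine Measure.eqOn_open_of_ae_eq (μ := volume) ?_ isOpen_ball hc.continuousOn
        continuousOn_const
      filter_upwards [hae] with x hx
      have : pot g x - pot g x0 = 0 := hx
      linarith
    exact fun x hx => heq hx
  have huniv : A = univ := IsClopen.eq_univ ⟨hclosed, hopen⟩ ⟨x0, rfl⟩
  intro x
  have : x ∈ A := by rw [huniv]; trivial
  exact this

/-- **minimum principle**: if the density is nonnegative where the potential is below `c ≤ 0`, then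
the potential is at least `c` -/
theorem min_pr' {g : E3 → ℝ} (hg : Nice g) {c : ℝ} (hc0 : c ≤ 0)
    (h : ∀ᵐ x, pot g x < c → 0 ≤ g x) (x : E3) : c ≤ pot g x := by
  by_contra hc
  push Not at hc
  obtain ⟨M, hM⟩ := pot_decay hg (show 0 < -pot g x / 2 by linarith)
  set L := max M ‖x‖ with hL
  obtain ⟨x0, hx0, hmin⟩ := (isCompact_closedBall (0:E3) L).exists_isMinOn
    ⟨x, by simp [hL]⟩ (pot_cont hg).continuousOn
  have h1 : pot g x0 ≤ pot g x := hmin (show x ∈ closedBall (0:E3) L by simp [hL])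
  have hglob : ∀ y, pot g x0 ≤ pot g y := by
    intro y
    by_cases hy : y ∈ closedBall (0:E3) L
    · exact hmin hy
    · have h2 : M ≤ ‖y‖ := by
        simp only [mem_closedBall, dist_zero_right, not_le] at hy
        exact (le_max_left _ _).trans hy.le
      have h3 := hM y h2
      rw [abs_le] at h3
      linarith [h3.1]
  have hall := strong hg hglob (lt_of_le_of_lt h1 hc) h
  obtain ⟨y, hy⟩ : ∃ y : E3, M ≤ ‖y‖ := by
    refine ⟨EuclideanSpace.single 0 |M|, ?_⟩
    rw [PiLp.norm_single, Real.norm_of_nonneg (abs_nonneg M)]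
    exact le_abs_self M
  have h4 := hM y hy
  rw [hall y, abs_le] at h4
  linarith [h4.1]

theorem min_pr {g : E3 → ℝ} (hg : Nice g) (h : ∀ᵐ x, pot g x < 0 → 0 ≤ g x) (x : E3) :
    0 ≤ pot g x := min_pr' hg le_rfl h x

/-- the potential of point charges -/
noncomputable def Vn (z : ι → ℝ) (R : ι → E3) (x : E3) : ℝ := ∑ j, z j / ‖x - R j‖

/-- smeared point charges -/
noncomputable def ns (z : ι → ℝ) (R : ι → E3) (s : ℝ) (x : E3) : ℝ := ∑ j, z j * gb s (R j) x

lemma nice_add {f g : E3 → ℝ} (hf : Nice f) (hg : Nice g) : Nice (fun x => f x + g x) := by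
  have h1 : Nice (fun x => 0 - g x) := by
    refine pd_nice _ _ ⟨measurable_const, integrable_zero _ _ _, ?_⟩ hg
    simp
  have h2 := pd_nice f _ hf h1
  simpa using h2

lemma nice_zero : Nice (fun _ : E3 => (0:ℝ)) := by
  refine ⟨measurable_const, integrable_zero _ _ _, ?_⟩
  simp

lemma nice_neg {g : E3 → ℝ} (hg : Nice g) : Nice (fun x => -g x) := by
  have := pd_nice _ _ nice_zero hg
  simpa using this

lemma nice_sum' {ι : Type*} {g : ι → E3 → ℝ} (hg : ∀ i, Nice (g i)) (s : Finset ι) :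
    Nice (fun x => ∑ i ∈ s, g i x) := by
  classical
  induction s using Finset.induction_on with
  | empty => simpa using nice_zero
  | insert a s ha ih =>
    have : (fun x => ∑ i ∈ insert a s, g i x) = fun x => g a x + ∑ i ∈ s, g i x := by
      funext x
      rw [Finset.sum_insert ha]
    rw [this]
    exact nice_add (hg a) ih

lemma nice_sum {g : ι → E3 → ℝ} (hg : ∀ i, Nice (g i)) : Nice (fun x => ∑ i, g i x) :=
  nice_sum' hg Finset.univ

lemma nice_mul (c : ℝ) {g : E3 → ℝ} (hg : Nice g) : Nice (fun x => c * g x) := by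
  refine ⟨hg.1.const_mul c, hg.2.1.const_mul c, ?_⟩
  have : (fun x => |c * g x| ^ (5/3 : ℝ)) = fun x => |c| ^ (5/3 : ℝ) * |g x| ^ (5/3 : ℝ) := by
    funext x
    rw [abs_mul, Real.mul_rpow (abs_nonneg _) (abs_nonneg _)]
  rw [this]
  exact hg.2.2.const_mul _

lemma ns_nice (z : ι → ℝ) (R : ι → E3) (s : ℝ) : Nice (ns z R s) :=
  nice_sum fun i => nice_mul _ (gb_nice s (R i))

lemma pot_add {f g : E3 → ℝ} (hf : Nice f) (hg : Nice g) (x : E3) :
    pot (fun y => f y + g y) x = pot f x + pot g x := by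
  obtain ⟨_, h1⟩ := nice_bound f hf
  obtain ⟨_, h2⟩ := nice_bound g hg
  unfold pot
  rw [← integral_add (h1 x).1 (h2 x).1]
  congr 1; funext y; ring

lemma pot_neg (g : E3 → ℝ) (x : E3) : pot (fun y => -g y) x = -pot g x := by
  unfold pot
  rw [← integral_neg]
  congr 1; funext y; ring

lemma pot_sub {f g : E3 → ℝ} (hf : Nice f) (hg : Nice g) (x : E3) :
    pot (fun y => f y - g y) x = pot f x - pot g x := by
  have := pot_add hf (nice_neg hg) x
  rw [pot_neg] at this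
  rw [sub_eq_add_neg, ← this]
  rfl

lemma pot_mul (c : ℝ) (g : E3 → ℝ) (x : E3) : pot (fun y => c * g y) x = c * pot g x := by
  unfold pot
  rw [← integral_const_mul]
  congr 1; funext y; ring

lemma pot_sum' {ι : Type*} {g : ι → E3 → ℝ} (hg : ∀ i, Nice (g i)) (s : Finset ι) (x : E3) :
    pot (fun y => ∑ i ∈ s, g i y) x = ∑ i ∈ s, pot (g i) x := by
  unfold pot
  rw [← integral_finsetSum _ (fun i _ => by
    obtain ⟨_, h⟩ := nice_bound (g i) (hg i)
    exact (h x).1)]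
  congr 1; funext y; rw [Finset.sum_div]

lemma pot_sum {g : ι → E3 → ℝ} (hg : ∀ i, Nice (g i)) (x : E3) :
    pot (fun y => ∑ i, g i y) x = ∑ i, pot (g i) x := by
  unfold pot
  rw [← integral_finsetSum _ (fun i _ => by
    obtain ⟨_, h⟩ := nice_bound (g i) (hg i)
    exact (h x).1)]
  congr 1; funext y; rw [Finset.sum_div]

lemma pot_ns (z : ι → ℝ) (R : ι → E3) {s : ℝ} (hs : 0 < s) (x : E3) :
    pot (ns z R s) x = ∑ j, z j * Gf s ‖x - R j‖ := by
  unfold ns
  rw [pot_sum fun i => nice_mul _ (gb_nice s (R i))]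
  refine Finset.sum_congr rfl fun j _ => ?_
  rw [pot_mul, pot_gb hs]

lemma pot_nonneg {g : E3 → ℝ} (hg : ∀ x, 0 ≤ g x) (x : E3) : 0 ≤ pot g x :=
  integral_nonneg fun y => div_nonneg (hg y) (norm_nonneg _)

lemma ns_nonneg {z : ι → ℝ} (hz : ∀ j, 0 ≤ z j) (R : ι → E3) {s : ℝ} (hs : 0 < s) (x : E3) :
    0 ≤ ns z R s x :=
  Finset.sum_nonneg fun j _ => mul_nonneg (hz j) (gb_nonneg hs _ _)

lemma Gf_far {s r : ℝ} (h : s ≤ r) : Gf s r = 1 / r := by
  unfold Gf
  rw [if_neg (not_lt.2 h)]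

lemma Gf_near {s r : ℝ} (hs : 0 < s) (hr : 0 ≤ r) (h : r < s) : 1 / s ≤ Gf s r := by
  unfold Gf
  rw [if_pos h, div_le_div_iff₀ hs (by positivity)]
  have : r ^ 2 / s ^ 2 ≤ 1 := by
    rw [div_le_one (by positivity)]
    exact pow_le_pow_left₀ hr h.le 2
  nlinarith

/-- choice of a small smearing radius -/
lemma small_s (z : ι → ℝ) (R : ι → E3) (B : ℝ) {x : E3} (hx : ∀ j, 0 < z j → x ≠ R j) :
    ∃ s : ℝ, 0 < s ∧ (∀ j, 0 < z j → s < ‖x - R j‖) ∧ ∀ j, 0 < z j → B < z j / s := by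
  have h1 : ∀ j, ∀ᶠ s : ℝ in 𝓝[>] 0, 0 < z j → s < ‖x - R j‖ := by
    intro j
    by_cases hz : 0 < z j
    · have : 0 < ‖x - R j‖ := norm_pos_iff.2 (sub_ne_zero.2 (hx j hz))
      filter_upwards [nhdsWithin_le_nhds (Iio_mem_nhds this)] with s hs _ using hs
    · exact Eventually.of_forall fun s h => absurd h hz
  have h2 : ∀ j, ∀ᶠ s : ℝ in 𝓝[>] 0, 0 < z j → B < z j / s := by
    intro j
    by_cases hz : 0 < z j
    · have : Tendsto (fun s : ℝ => z j / s) (𝓝[>] 0) atTop := by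
        simp only [div_eq_mul_inv]
        exact tendsto_inv_nhdsGT_zero.const_mul_atTop hz
      filter_upwards [this.eventually_gt_atTop B] with s hs _ using hs
    · exact Eventually.of_forall fun s h => absurd h hz
  have h3 : ∀ᶠ s : ℝ in 𝓝[>] 0, 0 < s := self_mem_nhdsWithin
  obtain ⟨s, a, b, c⟩ := (h3.and ((eventually_all.2 h1).and (eventually_all.2 h2))).exists
  exact ⟨s, a, b, c⟩

/-- choice of a small radius -/
lemma small_s2 (z : ι → ℝ) (R : ι → E3) {B : ℝ} (hB : 0 < B) {x : E3}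
    (hx : ∀ j, 0 < z j → x ≠ R j) :
    ∃ s : ℝ, 0 < s ∧ s ≤ B ∧ ∀ j, 0 < z j → s < ‖x - R j‖ := by
  obtain ⟨s, h1, h2, _⟩ := small_s z R 0 hx
  exact ⟨min s B, by positivity, min_le_right _ _, fun j hj =>
    lt_of_le_of_lt (min_le_left _ _) (h2 j hj)⟩

lemma G_low {z : ι → ℝ} (hz : ∀ j, 0 ≤ z j) {R : ι → E3} {s B : ℝ} (hs : 0 < s)
    (hB : ∀ j, 0 < z j → B < z j / s) {y : E3} {j : ι} (hj : 0 < z j) (hy : ‖y - R j‖ < s) :
    B < ∑ i, z i * Gf s ‖y - R i‖ := by
  have h1 : z j * Gf s ‖y - R j‖ ≤ ∑ i, z i * Gf s ‖y - R i‖ :=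
    Finset.single_le_sum (f := fun i => z i * Gf s ‖y - R i‖)
      (fun i _ => mul_nonneg (hz i) (Gf_nonneg hs (norm_nonneg _))) (Finset.mem_univ j)
  have h2 : z j * (1 / s) ≤ z j * Gf s ‖y - R j‖ :=
    mul_le_mul_of_nonneg_left (Gf_near hs (norm_nonneg _) hy) (hz j)
  have h3 := hB j hj
  rw [div_eq_mul_one_div] at h3
  linarith

lemma G_eq {z : ι → ℝ} (hz : ∀ j, 0 ≤ z j) {R : ι → E3} {s : ℝ} {y : E3}
    (hy : ∀ j, 0 < z j → s ≤ ‖y - R j‖) :
    ∑ i, z i * Gf s ‖y - R i‖ = Vn z R y := by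
  unfold Vn
  refine Finset.sum_congr rfl fun j _ => ?_
  rcases (hz j).eq_or_lt with h | h
  · rw [← h]; simp
  · rw [Gf_far (hy j h)]; ring

/-- smearing does not change the sign condition -/
lemma smear_cond {z : ι → ℝ} (hz : ∀ j, 0 ≤ z j) {R : ι → E3} {g : E3 → ℝ} (hg : Nice g) {θ B s : ℝ}
    (h : ∀ᵐ x, Vn z R x + pot g x < θ → 0 ≤ g x) (hb : ∀ x, |pot g x| ≤ B) (hs : 0 < s)
    (hs2 : ∀ j, 0 < z j → B + θ < z j / s) :
    ∀ᵐ y, pot (fun y => ns z R s y + g y) y < θ → 0 ≤ ns z R s y + g y := by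
  filter_upwards [h] with y hy hlt
  rw [pot_add (ns_nice z R s) hg, pot_ns z R hs] at hlt
  have hfar : ∀ j, 0 < z j → s ≤ ‖y - R j‖ := by
    intro j hj
    by_contra hc
    push Not at hc
    have h1 := G_low hz hs hs2 hj hc
    have h2 := hb y
    rw [abs_le] at h2
    linarith [h2.1]
  rw [G_eq hz hfar] at hlt
  exact add_nonneg (ns_nonneg hz R hs y) (hy hlt)

/-- **minimum principle with point charges** -/
theorem mp_nuc' {z : ι → ℝ} (hz : ∀ j, 0 ≤ z j) {R : ι → E3} {g : E3 → ℝ} (hg : Nice g) {c : ℝ}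
    (hc : c ≤ 0) (h : ∀ᵐ x, Vn z R x + pot g x < c → 0 ≤ g x) {x : E3}
    (hx : ∀ j, 0 < z j → x ≠ R j) : c ≤ Vn z R x + pot g x := by
  obtain ⟨B, hB⟩ := nice_bound g hg
  have hb : ∀ x, |pot g x| ≤ B := fun x => (pot_le_abs hg x).trans (hB x).2
  obtain ⟨s, hs, h1, h2⟩ := small_s z R (B + c) hx
  have h3 := smear_cond hz hg h hb hs h2
  have h4 := min_pr' (nice_add (ns_nice z R s) hg) hc h3 x
  rw [pot_add (ns_nice z R s) hg, pot_ns z R hs, G_eq hz fun j hj => (h1 j hj).le] at h4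
  exact h4

theorem mp_nuc {z : ι → ℝ} (hz : ∀ j, 0 ≤ z j) {R : ι → E3} {g : E3 → ℝ} (hg : Nice g)
    (h : ∀ᵐ x, Vn z R x + pot g x < 0 → 0 ≤ g x) {x : E3} (hx : ∀ j, 0 < z j → x ≠ R j) :
    0 ≤ Vn z R x + pot g x := mp_nuc' hz hg le_rfl h hx

/-- **strict positivity with point charges** -/
theorem pos_nuc {z : ι → ℝ} (hz : ∀ j, 0 ≤ z j) {R : ι → E3} {g : E3 → ℝ} (hg : Nice g) {θ : ℝ}
    (hθ : 0 < θ) (h : ∀ᵐ x, Vn z R x + pot g x < θ → 0 ≤ g x) {j0 : ι} (hj0 : 0 < z j0) {x : E3}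
    (hx : ∀ j, 0 < z j → x ≠ R j) : 0 < Vn z R x + pot g x := by
  obtain ⟨B, hB⟩ := nice_bound g hg
  have hb : ∀ x, |pot g x| ≤ B := fun x => (pot_le_abs hg x).trans (hB x).2
  obtain ⟨s, hs, h1, h2⟩ := small_s z R (B + θ) hx
  have h3 := smear_cond hz hg h hb hs h2
  have hN := nice_add (ns_nice z R s) hg
  have h4 : ∀ y, 0 ≤ pot (fun y => ns z R s y + g y) y := by
    refine min_pr hN ?_
    filter_upwards [h3] with y hy hlt using hy (hlt.trans hθ)
  have e : pot (fun y => ns z R s y + g y) x = Vn z R x + pot g x := by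
    rw [pot_add (ns_nice z R s) hg, pot_ns z R hs, G_eq hz fun j hj => (h1 j hj).le]
  rw [← e]
  refine lt_of_le_of_ne (h4 x) fun h0 => ?_
  have h5 := strong hN (x0 := x) (θ := θ) (fun y => by rw [← h0]; exact h4 y)
    (by rw [← h0]; exact hθ) h3 (R j0)
  rw [← h0, pot_add (ns_nice z R s) hg, pot_ns z R hs] at h5
  have h6 := G_low (R := R) hz hs h2 (y := R j0) hj0 (by simpa using hs)
  have h7 := hb (R j0)
  rw [abs_le] at h7
  linarith [h7.1]

end Pool.Agent.R999.MinP
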