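import Pool.Agent.R999.Lo

/-!
# Several neutral Thomas-Fermi molecules
-/

set_option autoImplicit false

namespace Pool.Agent.R999.Ex

open MeasureTheory Set Filter Topology Metric
open Pool.Agent.TH791.Cl Pool.Agent.TH791.Nw Pool.Agent.R999.Pot Pool.Agent.R999.MinP
open Pool.Agent.R999.Newton
open scoped ENNReal

variable {ι κ : Type*} [Fintype ι] [DecidableEq κ]

/-- nuclear repulsion (the diagonal terms vanish since `x / 0 = 0`) -/
noncomputable def UU (z : ι → ℝ) (R : ι → E3) : ℝ := 1/2 * ∑ p, ∑ q, z p * z q / ‖R p - R q‖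

/-- charges of the molecules in `S` -/
def zS (col : ι → κ) (z : ι → ℝ) (S : Finset κ) (p : ι) : ℝ := if col p ∈ S then z p else 0

lemma zS_nonneg {col : ι → κ} {z : ι → ℝ} (hz : ∀ j, 0 ≤ z j) (S : Finset κ) (p : ι) :
    0 ≤ zS col z S p := by
  unfold zS; split_ifs
  · exact hz p
  · exact le_rfl

lemma zS_pos {col : ι → κ} {z : ι → ℝ} {S : Finset κ} {p : ι} (h : 0 < zS col z S p) :
    col p ∈ S ∧ 0 < z p := by
  unfold zS at h
  split_ifs at h with h1
  · exact ⟨h1, h⟩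
  · exact absurd h (lt_irrefl 0)

lemma zS_insert (col : ι → κ) (z : ι → ℝ) {S : Finset κ} {m : κ} (hm : m ∉ S) (p : ι) :
    zS col z (insert m S) p = zS col z S p + zS col z {m} p := by
  unfold zS
  by_cases h1 : col p = m
  · have : col p ∉ S := by rw [h1]; exact hm
    simp [h1, hm]
  · by_cases h2 : col p ∈ S <;> simp [h1, h2]

lemma Vn_add (a b : ι → ℝ) (R : ι → E3) (x : E3) :
    Vn (fun p => a p + b p) R x = Vn a R x + Vn b R x := by
  unfold Vn
  rw [← Finset.sum_add_distrib]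
  exact Finset.sum_congr rfl fun j _ => by ring

lemma UU_add (a b : ι → ℝ) (R : ι → E3) :
    UU (fun p => a p + b p) R = UU a R + UU b R + ∑ j, b j * Vn a R (R j) := by
  have e1 : ∑ j, b j * Vn a R (R j) = ∑ p, ∑ q, b p * a q / ‖R p - R q‖ := by
    refine Finset.sum_congr rfl fun p _ => ?_
    unfold Vn
    rw [Finset.mul_sum]
    exact Finset.sum_congr rfl fun q _ => by ring
  have e2 : ∑ p, ∑ q, a p * b q / ‖R p - R q‖ = ∑ p, ∑ q, b p * a q / ‖R p - R q‖ := by
    rw [Finset.sum_comm]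
    refine Finset.sum_congr rfl fun p _ => Finset.sum_congr rfl fun q _ => ?_
    rw [norm_sub_rev]; ring
  have e3 : ∑ p, ∑ q, (a p + b p) * (a q + b q) / ‖R p - R q‖ =
      (∑ p, ∑ q, a p * a q / ‖R p - R q‖) + (∑ p, ∑ q, a p * b q / ‖R p - R q‖) +
      (∑ p, ∑ q, b p * a q / ‖R p - R q‖) + ∑ p, ∑ q, b p * b q / ‖R p - R q‖ := by
    simp only [← Finset.sum_add_distrib]
    refine Finset.sum_congr rfl fun p _ => Finset.sum_congr rfl fun q _ => by ring
  unfold UU
  rw [e3, e2, e1]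
  ring

/-- energy including the nuclear repulsion -/
noncomputable def FE (γ : ℝ) (z : ι → ℝ) (R : ι → E3) (ρ : E3 → ℝ) : ℝ := En γ z R ρ + UU z R

lemma TFs.en_eq {γ : ℝ} (hγ : 0 < γ) {z : ι → ℝ} {R : ι → E3} {ρ σ : E3 → ℝ}
    (h1 : TFs γ z R ρ) (h2 : TFs γ z R σ) : FE γ z R ρ = FE γ z R σ := by
  unfold FE
  have := h1.min hγ h2.md
  have := h2.min hγ h1.md
  linarith

lemma FE_empty {γ : ℝ} (hγ : 0 < γ) {col : ι → κ} {z : ι → ℝ} {R : ι → E3} {ρ : E3 → ℝ}
    (h : TFs γ (zS col z ∅) R ρ) : FE γ (zS col z ∅) R ρ = 0 := by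
  have e0 : zS col z ∅ = fun _ => (0:ℝ) := by funext p; simp [zS]
  have eU : UU (zS col z ∅) R = 0 := by rw [e0]; unfold UU; simp
  have h1 := h.min hγ MD.zero
  rw [en_zero] at h1
  have h2 : 0 ≤ En γ (zS col z ∅) R ρ := by
    rw [e0]
    unfold En
    have q1 : 0 ≤ ∫ x, ρ x ^ (5/3 : ℝ) := integral_nonneg fun x => Real.rpow_nonneg (h.md.nonneg x) _
    have q2 := coul_nonneg h.md.nice
    simp only [zero_mul, Finset.sum_const_zero, sub_zero]
    positivity
  unfold FE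
  rw [eU]
  linarith

/-- one-step upper bound -/
lemma step_up {γ : ℝ} (hγ : 0 < γ) {col : ι → κ} {z : ι → ℝ} (hz : ∀ j, 0 ≤ z j) {R : ι → E3}
    {S : Finset κ} {m : κ} (hm : m ∉ S) {ρ ρ1 ρ2 : E3 → ℝ} (T : TFs γ (zS col z (insert m S)) R ρ)
    (T1 : TFs γ (zS col z S) R ρ1) (T2 : TFs γ (zS col z {m}) R ρ2) {Y : E3} {s : ℝ} (hs : 0 < s)
    (h1 : ∀ p, 0 < z p → col p ≠ m → 8 * s ≤ ‖R p - Y‖)
    (h2 : ∀ p, 0 < z p → col p = m → ‖R p - Y‖ ≤ s / 2) :
    FE γ (zS col z (insert m S)) R ρ ≤ FE γ (zS col z S) R ρ1 + FE γ (zS col z {m}) R ρ2 +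
      Cup γ (Fintype.card ι) (Fintype.card ι) / s ^ 7 := by
  have e : zS col z (insert m S) = fun p => zS col z S p + zS col z {m} p :=
    funext fun p => zS_insert col z hm p
  have h3 := upper2 hγ (zS_nonneg hz S) (zS_nonneg hz {m}) T T1 T2 (fun x => by rw [e, Vn_add])
    (Y := Y) hs (fun p hp => by
      obtain ⟨a, b⟩ := zS_pos hp
      exact h1 p b fun h => hm (h ▸ a))
    (fun p hp => by
      obtain ⟨a, b⟩ := zS_pos hp
      exact h2 p b (by simpa using a))
  have h4 : UU (zS col z (insert m S)) R = UU (zS col z S) R + UU (zS col z {m}) R +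
      ∑ j, zS col z {m} j * Vn (zS col z S) R (R j) := by
    rw [e, UU_add]
  unfold FE
  rw [h4]
  linarith

/-- one-step lower bound -/
lemma step_lo {γ : ℝ} (hγ : 0 < γ) {col : ι → κ} {z : ι → ℝ} (hz : ∀ j, 0 ≤ z j) {R : ι → E3}
    (hR : ∀ p q, 0 < z p → 0 < z q → col p ≠ col q → R p ≠ R q)
    {S : Finset κ} {m : κ} (hm : m ∉ S) {ρ ρ1 ρ2 : E3 → ℝ} (T : TFs γ (zS col z (insert m S)) R ρ)
    (T1 : TFs γ (zS col z S) R ρ1) (T2 : TFs γ (zS col z {m}) R ρ2) :
    FE γ (zS col z S) R ρ1 + FE γ (zS col z {m}) R ρ2 +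
      2/5 * γ * (∫ x, (min (ρ1 x) (ρ2 x)) ^ (5/3 : ℝ)) ≤ FE γ (zS col z (insert m S)) R ρ := by
  have e : zS col z (insert m S) = fun p => zS col z S p + zS col z {m} p :=
    funext fun p => zS_insert col z hm p
  have h3 := teller (z := zS col z (insert m S)) (R := R) hγ (zS_nonneg hz S) (zS_nonneg hz {m})
    T1 T2 (fun x => by rw [e, Vn_add])
    (fun q hq p hp => by
      obtain ⟨a, b⟩ := zS_pos hq
      obtain ⟨c, d⟩ := zS_pos hp
      refine hR q p b d fun h => hm ?_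
      have : col q = m := by simpa using a
      rw [← this, h]; exact c) T.md
  have h4 : UU (zS col z (insert m S)) R = UU (zS col z S) R + UU (zS col z {m}) R +
      ∑ j, zS col z {m} j * Vn (zS col z S) R (R j) := by
    rw [e, UU_add]
  unfold FE
  rw [h4]
  linarith

lemma gain_nonneg {f g : E3 → ℝ} (hf : MD f) (hg : MD g) :
    0 ≤ ∫ x, (min (f x) (g x)) ^ (5/3 : ℝ) :=
  integral_nonneg fun x => Real.rpow_nonneg (le_min (hf.nonneg x) (hg.nonneg x)) _

/-- upper bound for any number of molecules -/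
theorem all_up {γ : ℝ} (hγ : 0 < γ) {col : ι → κ} {z : ι → ℝ} (hz : ∀ j, 0 ≤ z j) {R : ι → E3}
    {ρ : Finset κ → E3 → ℝ} (T : ∀ S, TFs γ (zS col z S) R (ρ S)) {Y : κ → E3} {s : ℝ} (hs : 0 < s)
    (h1 : ∀ p m, 0 < z p → col p ≠ m → 8 * s ≤ ‖R p - Y m‖)
    (h2 : ∀ p, 0 < z p → ‖R p - Y (col p)‖ ≤ s / 2) (S : Finset κ) :
    FE γ (zS col z S) R (ρ S) ≤ (∑ m ∈ S, FE γ (zS col z {m}) R (ρ {m})) +
      S.card * (Cup γ (Fintype.card ι) (Fintype.card ι) / s ^ 7) := by
  induction S using Finset.induction_on with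
  | empty =>
    rw [FE_empty hγ (T ∅)]; simp
  | insert m S hm ih =>
    have h3 := step_up hγ hz hm (T _) (T S) (T {m}) (Y := Y m) hs (fun p hp hpm => h1 p m hp hpm)
      (fun p hp hpm => by rw [← hpm]; exact h2 p hp)
    rw [Finset.sum_insert hm, Finset.card_insert_of_notMem hm]
    push_cast
    linarith

/-- lower bound for any number of molecules -/
theorem all_lo {γ : ℝ} (hγ : 0 < γ) {col : ι → κ} {z : ι → ℝ} (hz : ∀ j, 0 ≤ z j) {R : ι → E3}
    (hR : ∀ p q, 0 < z p → 0 < z q → col p ≠ col q → R p ≠ R q)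
    {ρ : Finset κ → E3 → ℝ} (T : ∀ S, TFs γ (zS col z S) R (ρ S)) {a b : κ} (hab : b ≠ a)
    (S : Finset κ) (ha : a ∉ S) (hb : b ∉ S) :
    (∑ m ∈ insert a (insert b S), FE γ (zS col z {m}) R (ρ {m})) +
      2/5 * γ * (∫ x, (min (ρ {a} x) (ρ {b} x)) ^ (5/3 : ℝ)) ≤
      FE γ (zS col z (insert a (insert b S))) R (ρ (insert a (insert b S))) := by
  induction S using Finset.induction_on with
  | empty =>
    have hba : b ∉ ({a} : Finset κ) := by simpa using hab
    have h3 := step_lo hγ hz hR hba (T _) (T {a}) (T {b})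
    have e1 : insert a (insert b (∅ : Finset κ)) = insert b {a} := by
      ext x; simp only [Finset.mem_insert, Finset.notMem_empty, or_false, Finset.mem_singleton]
      tauto
    rw [e1, Finset.sum_insert hba, Finset.sum_singleton]
    linarith
  | insert m S hm ih =>
    have ha' : a ∉ S := fun h => ha (Finset.mem_insert_of_mem h)
    have hb' : b ∉ S := fun h => hb (Finset.mem_insert_of_mem h)
    have ham : m ≠ a := fun h => ha (by rw [h]; exact Finset.mem_insert_self _ _)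
    have hbm : m ≠ b := fun h => hb (by rw [h]; exact Finset.mem_insert_self _ _)
    have ih' := ih ha' hb'
    set S' := insert a (insert b S) with hS'
    have hmS' : m ∉ S' := by
      rw [hS', Finset.mem_insert, Finset.mem_insert]
      rintro (h | h | h)
      · exact ham h
      · exact hbm h
      · exact hm h
    have e1 : insert a (insert b (insert m S)) = insert m S' := by
      rw [hS']
      ext x; simp only [Finset.mem_insert]; tauto
    have h3 := step_lo hγ hz hR hmS' (T _) (T S') (T {m})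
    have h4 := gain_nonneg (T S').md (T {m}).md
    rw [e1, Finset.sum_insert hmS']
    have : 0 ≤ 2/5 * γ * (∫ x, (min (ρ S' x) (ρ {m} x)) ^ (5/3 : ℝ)) := by positivity
    linarith

/-- transport of a Thomas-Fermi density to a translated copy inside a larger configuration -/
theorem TFs.shift {ι' : Type*} [Fintype ι'] {γ : ℝ} {z : ι → ℝ} {R : ι → E3} {z' : ι' → ℝ}
    {R' : ι' → E3} {ρ : E3 → ℝ} (h : TFs γ z R ρ) {a : E3} (hV : ∀ x, Vn z' R' x = Vn z R (x - a))
    (hm : ∑ j, z' j = ∑ j, z j)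
    (hx : ∀ x, (∀ j, 0 < z' j → x ≠ R' j) → ∀ j, 0 < z j → x - a ≠ R j) :
    TFs γ z' R' (fun x => ρ (x - a)) := by
  refine ⟨md_shift h.md a, ?_, fun x hx' => ?_, ?_⟩
  · rw [hm, ← h.mass]
    exact integral_sub_right_eq_self (μ := volume) ρ a
  · rw [hV, IonTF.pot_shift]
    exact h.phi_nonneg _ (hx x hx')
  · have := (measurePreserving_sub_right (volume : Measure E3) a).quasiMeasurePreserving.ae h.eq
    filter_upwards [this] with x hx
    rw [hV, IonTF.pot_shift]
    exact hx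

/-- energies under such a transport -/
theorem En_shift {ι' : Type*} [Fintype ι'] {γ : ℝ} {z : ι → ℝ} {R : ι → E3} {z' : ι' → ℝ}
    {R' : ι' → E3} {ρ : E3 → ℝ} (h : MD ρ) {a : E3} (hV : ∀ x, Vn z' R' x = Vn z R (x - a)) :
    En γ z' R' (fun x => ρ (x - a)) = En γ z R ρ := by
  have hm := md_shift h a
  unfold En
  rw [← (Vn_mul_int hm.nice z' R').2, ← (Vn_mul_int h.nice z R).2]
  have e1 : ∫ x, ρ (x - a) ^ (5/3 : ℝ) = ∫ x, ρ x ^ (5/3 : ℝ) :=
    integral_sub_right_eq_self (μ := volume) (fun x => ρ x ^ (5/3 : ℝ)) a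
  have e2 : ∫ x, Vn z' R' x * ρ (x - a) = ∫ x, Vn z R x * ρ x := by
    simp only [hV]
    exact integral_sub_right_eq_self (μ := volume) (fun x => Vn z R x * ρ x) a
  have e3 : ∫ x, ρ (x - a) * pot (fun x => ρ (x - a)) x = ∫ x, ρ x * pot ρ x := by
    simp only [IonTF.pot_shift]
    exact integral_sub_right_eq_self (μ := volume) (fun x => ρ x * pot ρ x) a
  rw [e1, e2, e3]

end Pool.Agent.R999.Ex
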