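import Pool.Agent.TH791.Newt

/-!
# Newton's theorem for radial densities
-/

set_option autoImplicit false

namespace Pool.Agent.R999.Newton

open MeasureTheory Set Filter Topology Metric
open Pool.Agent.TH791.Cl Pool.Agent.TH791.Nw
open scoped ENNReal

/-- radial Coulomb kernel times the area of the sphere -/
noncomputable def kx (r t : ℝ) : ℝ := 4 * Real.pi * t ^ 2 / max r t

lemma kx_nonneg {r t : ℝ} (hr : 0 ≤ r) : 0 ≤ kx r t := by
  unfold kx
  have := Real.pi_pos
  have h : 0 ≤ max r t := le_max_of_le_left hr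
  positivity

lemma kx_meas (r : ℝ) : Measurable (kx r) := by
  unfold kx
  fun_prop

lemma kx_int {r s : ℝ} (hr : 0 ≤ r) (hs : 0 < s) :
    IntegrableOn (kx r) (Ioo 0 s) ∧ ∫ t in Ioo 0 s, kx r t = 4/3*Real.pi*s^3 * Gf s r := by
  have hpi := Real.pi_pos
  have hint : ∀ a b : ℝ, 0 ≤ a → IntegrableOn (kx r) (Ioc a b) := by
    intro a b ha
    have hb : IntegrableOn (fun t : ℝ => 4 * Real.pi * |t|) (Ioc a b) := by
      have : Continuous fun t : ℝ => 4 * Real.pi * |t| := by fun_prop
      exact (this.integrableOn_Icc).mono_set Ioc_subset_Icc_self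
    refine hb.mono' (kx_meas r).aestronglyMeasurable ?_
    filter_upwards [ae_restrict_mem measurableSet_Ioc] with t ht
    have ht0 : 0 < t := lt_of_le_of_lt ha ht.1
    rw [Real.norm_of_nonneg (kx_nonneg hr)]
    unfold kx
    have hm : t ≤ max r t := le_max_right _ _
    have hm0 : 0 < max r t := lt_of_lt_of_le ht0 hm
    rw [div_le_iff₀ hm0, abs_of_pos ht0]
    nlinarith [mul_le_mul_of_nonneg_left hm (mul_nonneg (mul_nonneg (by norm_num : (0:ℝ) ≤ 4) hpi.le) ht0.le)]
  refine ⟨(hint 0 s le_rfl).mono_set Ioo_subset_Ioc_self, ?_⟩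
  rw [← integral_Ioc_eq_integral_Ioo]
  by_cases h : r < s
  · have e : Ioc (0:ℝ) s = Ioc 0 r ∪ Ioc r s := (Ioc_union_Ioc_eq_Ioc hr h.le).symm
    rw [e, setIntegral_union (Ioc_disjoint_Ioc_of_le le_rfl) measurableSet_Ioc (hint 0 r le_rfl)
      (hint r s hr)]
    have h1 : ∫ t in Ioc 0 r, kx r t = ∫ t in (0:ℝ)..r, 4 * Real.pi / r * t ^ 2 := by
      rw [intervalIntegral.integral_of_le hr]
      refine setIntegral_congr_fun measurableSet_Ioc fun t ht => ?_
      show kx r t = _
      unfold kx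
      rw [max_eq_left ht.2]
      ring
    have h2 : ∫ t in Ioc r s, kx r t = ∫ t in r..s, 4 * Real.pi * t := by
      rw [intervalIntegral.integral_of_le h.le]
      refine setIntegral_congr_fun measurableSet_Ioc fun t ht => ?_
      show kx r t = _
      unfold kx
      rw [max_eq_right ht.1.le]
      have : t ≠ 0 := (lt_of_le_of_lt hr ht.1).ne'
      field_simp
    rw [h1, h2, intervalIntegral.integral_const_mul, integral_pow,
      intervalIntegral.integral_const_mul, integral_id, Gf, if_pos h]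
    rcases hr.eq_or_lt with h0 | h0
    · subst h0
      simp
      field_simp
    · norm_num
      field_simp
      ring
  · push Not at h
    have h1 : ∫ t in Ioc 0 s, kx r t = ∫ t in (0:ℝ)..s, 4 * Real.pi / r * t ^ 2 := by
      rw [intervalIntegral.integral_of_le hs.le]
      refine setIntegral_congr_fun measurableSet_Ioc fun t ht => ?_
      show kx r t = _
      unfold kx
      rw [max_eq_left (ht.2.trans h)]
      ring
    rw [h1, intervalIntegral.integral_const_mul, integral_pow, Gf, if_neg (not_lt.2 h)]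
    have : 0 < r := lt_of_lt_of_le hs h
    norm_num
    field_simp

lemma ker_ball (x : E3) {s : ℝ} (hs : 0 < s) :
    ∫⁻ y in ball (0:E3) s, ENNReal.ofReal (1 / ‖x - y‖) = ENNReal.ofReal (4/3*Real.pi*s^3 * Gf s ‖x‖) := by
  have h1 := (newton_ball 0 x s hs).1
  have h2 := ball_int 0 x s hs
  rw [zero_sub, norm_neg] at h2
  have h3 : ∀ y : E3, 1 / ‖x - y‖ = 1 / ‖y - x‖ := fun y => by rw [norm_sub_rev]
  simp only [h3]
  rw [← h2, ← ofReal_integral_eq_lintegral_ofReal h1]
  exact ae_of_all _ fun y => by positivity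

lemma nu_eq (x : E3) :
    Measure.map (fun y : E3 => ‖y‖) ((volume : Measure E3).withDensity
      fun y => ENNReal.ofReal (1 / ‖x - y‖)) =
    ((volume : Measure ℝ).restrict (Ioi 0)).withDensity fun t => ENNReal.ofReal (kx ‖x‖ t) := by
  set ν := Measure.map (fun y : E3 => ‖y‖) ((volume : Measure E3).withDensity
      fun y => ENNReal.ofReal (1 / ‖x - y‖)) with hν
  set ν' := ((volume : Measure ℝ).restrict (Ioi 0)).withDensity fun t => ENNReal.ofReal (kx ‖x‖ t)
    with hν'
  have hv : ∀ s : ℝ, ν (Iio s) = ν' (Iio s) ∧ ν (Iio s) < ∞ := by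
    intro s
    have h1 : ν (Iio s) = ∫⁻ y in ball (0:E3) s, ENNReal.ofReal (1 / ‖x - y‖) := by
      rw [hν, Measure.map_apply measurable_norm measurableSet_Iio]
      have : (fun y : E3 => ‖y‖) ⁻¹' Iio s = ball 0 s := by
        ext y; simp
      rw [this, withDensity_apply _ measurableSet_ball]
    have h2 : ν' (Iio s) = ∫⁻ t in Ioo 0 s, ENNReal.ofReal (kx ‖x‖ t) := by
      rw [hν', withDensity_apply _ measurableSet_Iio, Measure.restrict_restrict measurableSet_Iio]
      rw [inter_comm, Ioi_inter_Iio]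
    rcases le_or_gt s 0 with hs | hs
    · rw [h1, h2, ball_eq_empty.2 hs, Ioo_eq_empty (not_lt.2 hs)]
      simp
    · obtain ⟨i1, i2⟩ := kx_int (norm_nonneg x) hs
      rw [h1, h2, ker_ball x hs, ← ofReal_integral_eq_lintegral_ofReal i1
        (ae_of_all _ fun t => kx_nonneg (norm_nonneg x)), i2]
      exact ⟨rfl, ENNReal.ofReal_lt_top⟩
  have : IsLocallyFiniteMeasure ν := by
    refine ⟨fun a => ⟨Iio (a + 1), Iio_mem_nhds (by linarith), (hv (a+1)).2⟩⟩
  refine Measure.ext_of_Ico ν ν' fun a b hab => ?_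
  have e : Ico a b = Iio b \ Iio a := by
    ext t; simp
  have hsub : Iio a ⊆ Iio b := Iio_subset_Iio hab.le
  rw [e, measure_sdiff hsub measurableSet_Iio.nullMeasurableSet (hv a).2.ne,
    measure_sdiff hsub measurableSet_Iio.nullMeasurableSet ((hv a).1 ▸ (hv a).2.ne), (hv a).1, (hv b).1]

/-- **Newton's theorem** for radial densities. -/
theorem pot_radial {g : ℝ → ℝ} (hg : Measurable g) (x : E3) :
    ∫ y : E3, g ‖y‖ / ‖x - y‖ = ∫ t in Ioi (0:ℝ), kx ‖x‖ t * g t := by
  have hm : Measurable fun y : E3 => ENNReal.ofReal (1 / ‖x - y‖) := by fun_prop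
  have h1 : ∫ y : E3, g ‖y‖ / ‖x - y‖ = ∫ y, g ‖y‖ ∂((volume : Measure E3).withDensity
      fun y => ENNReal.ofReal (1 / ‖x - y‖)) := by
    rw [integral_withDensity_eq_integral_toReal_smul hm (ae_of_all _ fun y => ENNReal.ofReal_lt_top)]
    refine integral_congr_ae (ae_of_all _ fun y => ?_)
    show _ = (ENNReal.ofReal (1 / ‖x - y‖)).toReal • g ‖y‖
    rw [ENNReal.toReal_ofReal (by positivity), smul_eq_mul]
    ring
  have h2 : ∫ y, g ‖y‖ ∂((volume : Measure E3).withDensity
      fun y => ENNReal.ofReal (1 / ‖x - y‖)) = ∫ t, g t ∂(Measure.map (fun y : E3 => ‖y‖)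
      ((volume : Measure E3).withDensity fun y => ENNReal.ofReal (1 / ‖x - y‖))) := by
    rw [integral_map measurable_norm.aemeasurable hg.aestronglyMeasurable]
  have hm' : Measurable fun t : ℝ => ENNReal.ofReal (kx ‖x‖ t) := (kx_meas _).ennreal_ofReal
  rw [h1, h2, nu_eq, integral_withDensity_eq_integral_toReal_smul hm'
    (ae_of_all _ fun y => ENNReal.ofReal_lt_top)]
  refine integral_congr_ae (ae_of_all _ fun t => ?_)
  show (ENNReal.ofReal (kx ‖x‖ t)).toReal • g t = _
  rw [ENNReal.toReal_ofReal (kx_nonneg (norm_nonneg x)), smul_eq_mul]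

/-- radial integrals -/
theorem int_radial (g : ℝ → ℝ) :
    ∫ y : E3, g ‖y‖ = 4 * Real.pi * ∫ t in Ioi (0:ℝ), t ^ 2 * g t := by
  rw [integral_fun_norm_addHaar volume g]
  have hv : (volume : Measure E3).real (ball 0 1) = 4 / 3 * Real.pi := by
    rw [Measure.real, EuclideanSpace.volume_ball_fin_three]
    have := Real.pi_pos
    rw [← ENNReal.ofReal_pow (by norm_num), ← ENNReal.ofReal_mul (by norm_num),
      ENNReal.toReal_ofReal (by positivity)]
    ring
  rw [hv]
  simp only [finrank_euclideanSpace, Fintype.card_fin, smul_eq_mul, nsmul_eq_mul]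
  norm_num
  ring

theorem integrable_radial {g : ℝ → ℝ} :
    Integrable (fun y : E3 => g ‖y‖) ↔ IntegrableOn (fun t => t ^ 2 * g t) (Ioi 0) := by
  rw [integrable_fun_norm_addHaar volume]
  simp [finrank_euclideanSpace]

end Pool.Agent.R999.Newton
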