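import Pool.Agent.TH791.Coul

/-!
# Regularity, decay and ball averages of Coulomb potentials

Extracted (in another namespace) from the starting file `Pool/Agent/Helper557/TF/Core.lean`.
-/

set_option autoImplicit false
set_option linter.unusedSectionVars false

open MeasureTheory Set Filter Topology Metric
open scoped RealInnerProductSpace BigOperators ENNReal

namespace Pool.Agent.R999.Pot

open Pool.Agent.TH791.Cl

/-! ### nice_modulus -/
section
-- ===== TARGET =====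
theorem TF_nice_modulus_young (τ : ℝ) (hτ : 0 < τ) : ∃ C : ℝ, 0 < C ∧ ∀ a b : ℝ, 0 ≤ a → 0 ≤ b →
    a * b ≤ τ * a ^ (5/3 : ℝ) + C * b ^ (5/2 : ℝ) := by
  have hθ : 0 < τ ^ (3/5 : ℝ) := Real.rpow_pos_of_pos hτ _
  refine ⟨((τ ^ (3/5 : ℝ))⁻¹) ^ (5/2 : ℝ), by positivity, fun a b ha hb => ?_⟩
  have hpq : (5/3 : ℝ).HolderConjugate (5/2 : ℝ) := by
    rw [Real.holderConjugate_iff]; norm_num
  have h1 := Real.young_inequality_of_nonneg (mul_nonneg hθ.le ha)
    (mul_nonneg (inv_pos.mpr hθ).le hb) hpq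
  have h2 : (τ ^ (3/5 : ℝ) * a) * ((τ ^ (3/5 : ℝ))⁻¹ * b) = a * b := by
    field_simp
  have h3 : (τ ^ (3/5 : ℝ) * a) ^ (5/3 : ℝ) = τ * a ^ (5/3 : ℝ) := by
    rw [Real.mul_rpow hθ.le ha, ← Real.rpow_mul hτ.le]
    norm_num
  rw [h2, h3, Real.mul_rpow (inv_pos.mpr hθ).le hb] at h1
  have h4 : 0 ≤ τ * a ^ (5/3 : ℝ) := by positivity
  have h5 : 0 ≤ ((τ ^ (3/5 : ℝ))⁻¹) ^ (5/2 : ℝ) * b ^ (5/2 : ℝ) := by positivity
  have h6 : τ * a ^ (5/3 : ℝ) / (5/3) ≤ τ * a ^ (5/3 : ℝ) := by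
    rw [div_le_iff₀ (by norm_num)]; linarith
  have h7 : ((τ ^ (3/5 : ℝ))⁻¹) ^ (5/2 : ℝ) * b ^ (5/2 : ℝ) / (5/2) ≤
      ((τ ^ (3/5 : ℝ))⁻¹) ^ (5/2 : ℝ) * b ^ (5/2 : ℝ) := by
    rw [div_le_iff₀ (by norm_num)]; linarith
  linarith

theorem TF_nice_modulus_int : IntegrableOn (fun u : E3 => ‖u‖ ^ (-(5/2) : ℝ)) (ball 0 1) := by
  rw [integrableOn_fun_norm_addHaar volume (f := fun y : ℝ => y ^ (-(5/2) : ℝ))]
  have hfr : Module.finrank ℝ E3 = 3 := finrank_euclideanSpace_fin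
  rw [hfr]
  have h1 : IntegrableOn (fun y : ℝ => y ^ (-(1/2) : ℝ)) (Ioo 0 1) :=
    (intervalIntegral.integrableOn_Ioo_rpow_iff one_pos).mpr (by norm_num)
  refine h1.congr_fun ?_ measurableSet_Ioo
  intro y hy
  have hy0 : 0 < y := hy.1
  show y ^ (-(1/2) : ℝ) = y ^ (3 - 1) • y ^ (-(5/2) : ℝ)
  rw [smul_eq_mul, ← Real.rpow_natCast, ← Real.rpow_add hy0]
  norm_num

theorem TF_nice_modulus_small (δ : ℝ) (hδ : 0 < δ) : ∃ r : ℝ, 0 < r ∧
    Integrable (indicator (ball (0:E3) (2 * r)) (fun u : E3 => ‖u‖ ^ (-(5/2) : ℝ))) ∧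
    ∫ u : E3, indicator (ball (0:E3) (2 * r)) (fun u : E3 => ‖u‖ ^ (-(5/2) : ℝ)) u ≤ δ := by
  have hint := TF_nice_modulus_int
  have hint' : Integrable (indicator (ball (0:E3) 1) (fun u : E3 => ‖u‖ ^ (-(5/2) : ℝ))) :=
    (integrable_indicator_iff measurableSet_ball).mpr hint
  have hvol : Tendsto ((volume : Measure E3) ∘ fun n : ℕ => ball (0:E3) (1 / ((n:ℝ) + 1))) atTop (𝓝 0) := by
    have h1 : ∀ n : ℕ, (volume : Measure E3) (ball (0:E3) (1 / ((n:ℝ) + 1))) =
        ENNReal.ofReal ((1 / ((n:ℝ) + 1)) ^ Module.finrank ℝ E3) * volume (ball (0:E3) 1) :=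
      fun n => Measure.addHaar_ball volume (0:E3) (by positivity)
    have h2 : Tendsto (fun n : ℕ => (1 / ((n:ℝ) + 1)) ^ Module.finrank ℝ E3) atTop (𝓝 0) := by
      have := (tendsto_one_div_add_atTop_nhds_zero_nat (𝕜 := ℝ)).pow (Module.finrank ℝ E3)
      rwa [zero_pow (by rw [finrank_euclideanSpace_fin]; norm_num)] at this
    have h3 : Tendsto (fun n : ℕ => ENNReal.ofReal ((1 / ((n:ℝ) + 1)) ^ Module.finrank ℝ E3) *
        volume (ball (0:E3) 1)) atTop (𝓝 (0 * volume (ball (0:E3) 1))) := by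
      refine ENNReal.Tendsto.mul_const ?_ (Or.inr measure_ball_lt_top.ne)
      have := (ENNReal.continuous_ofReal.tendsto 0).comp h2
      rwa [ENNReal.ofReal_zero] at this
    rw [zero_mul] at h3
    exact h3.congr fun n => (h1 n).symm
  have ht := hint'.tendsto_setIntegral_nhds_zero hvol
  obtain ⟨n, hn⟩ := (ht.eventually (gt_mem_nhds hδ)).exists
  have hn1 : (0:ℝ) < (n:ℝ) + 1 := by positivity
  have hr2 : 2 * (1 / (2 * ((n:ℝ) + 1))) = 1 / ((n:ℝ) + 1) := by field_simp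
  have hle1 : 1 / ((n:ℝ) + 1) ≤ 1 := by
    rw [div_le_one hn1]
    have : (0:ℝ) ≤ n := Nat.cast_nonneg n
    linarith
  have hsub : ball (0:E3) (1 / ((n:ℝ) + 1)) ⊆ ball (0:E3) 1 := ball_subset_ball hle1
  refine ⟨1 / (2 * ((n:ℝ) + 1)), by positivity, ?_, ?_⟩
  · rw [hr2]
    exact (integrable_indicator_iff measurableSet_ball).mpr (hint.mono_set hsub)
  · rw [hr2]
    rw [← integral_indicator measurableSet_ball, Set.indicator_indicator,
      Set.inter_eq_left.mpr hsub] at hn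
    exact hn.le

theorem TF_nice_modulus_pt (r : ℝ) (hr : 0 < r) (x x' y : E3) (h : ‖x - x'‖ < r) :
    |1 / ‖x - y‖ - 1 / ‖x' - y‖| ≤ indicator (ball (0:E3) (2 * r)) (fun u => 1 / ‖u‖) (x - y) +
      indicator (ball (0:E3) (2 * r)) (fun u => 1 / ‖u‖) (x' - y) + ‖x - x'‖ / r ^ 2 := by
  have hφ : ∀ u : E3, 0 ≤ indicator (ball (0:E3) (2 * r)) (fun u => 1 / ‖u‖) u := fun u =>
    Set.indicator_nonneg (fun u _ => by positivity) u
  have hab : |‖x - y‖ - ‖x' - y‖| ≤ ‖x - x'‖ := by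
    have := abs_norm_sub_norm_le (x - y) (x' - y)
    rwa [sub_sub_sub_cancel_right] at this
  have hab2 := abs_le.mp hab
  by_cases hboth : r ≤ ‖x - y‖ ∧ r ≤ ‖x' - y‖
  · obtain ⟨h1, h2⟩ := hboth
    have p1 : 0 < ‖x - y‖ := lt_of_lt_of_le hr h1
    have p2 : 0 < ‖x' - y‖ := lt_of_lt_of_le hr h2
    have h3 : 1 / ‖x - y‖ - 1 / ‖x' - y‖ = (‖x' - y‖ - ‖x - y‖) / (‖x - y‖ * ‖x' - y‖) := by
      field_simp
    have h4 : |1 / ‖x - y‖ - 1 / ‖x' - y‖| ≤ ‖x - x'‖ / r ^ 2 := by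
      rw [h3, abs_div, abs_of_pos (mul_pos p1 p2), abs_sub_comm]
      refine div_le_div₀ (norm_nonneg _) hab (by positivity) ?_
      rw [sq]
      exact mul_le_mul h1 h2 hr.le p1.le
    have := hφ (x - y)
    have := hφ (x' - y)
    linarith
  · have hlt : ‖x - y‖ < 2 * r ∧ ‖x' - y‖ < 2 * r := by
      by_cases h1 : r ≤ ‖x - y‖
      · have h2 : ¬ r ≤ ‖x' - y‖ := fun h2 => hboth ⟨h1, h2⟩
        constructor <;> linarith
      · constructor <;> linarith
    have m1 : x - y ∈ ball (0:E3) (2 * r) := by rw [mem_ball_zero_iff]; exact hlt.1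
    have m2 : x' - y ∈ ball (0:E3) (2 * r) := by rw [mem_ball_zero_iff]; exact hlt.2
    rw [Set.indicator_of_mem m1, Set.indicator_of_mem m2]
    have q1 : 0 ≤ 1 / ‖x - y‖ := by positivity
    have q2 : 0 ≤ 1 / ‖x' - y‖ := by positivity
    have q3 : 0 ≤ ‖x - x'‖ / r ^ 2 := by positivity
    rw [abs_le]
    constructor <;> linarith

theorem nice_modulus (g : E3 → ℝ) (hg : Nice g) (ε : ℝ) (hε : 0 < ε) :
    ∃ η : ℝ, 0 < η ∧ ∀ x x' : E3, ‖x - x'‖ < η →
      Integrable (fun y => |g y| * |1 / ‖x - y‖ - 1 / ‖x' - y‖|) ∧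
      ∫ y, |g y| * |1 / ‖x - y‖ - 1 / ‖x' - y‖| ≤ ε := by
  obtain ⟨hgm, hg1, hg2⟩ := hg
  set G : ℝ := ∫ x, |g x| ^ (5/3 : ℝ) with hG
  set N : ℝ := ∫ x, |g x| with hN
  have hG0 : 0 ≤ G := integral_nonneg fun x => Real.rpow_nonneg (abs_nonneg _) _
  have hN0 : 0 ≤ N := integral_nonneg fun x => abs_nonneg _
  obtain ⟨C, hC, hyoung⟩ := TF_nice_modulus_young (ε / (6 * (G + 1))) (by positivity)
  obtain ⟨r, hr, hψi, hψ⟩ := TF_nice_modulus_small (ε / (6 * C)) (by positivity)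
  refine ⟨min r (ε * r ^ 2 / (3 * (N + 1))), by positivity, fun x x' hxx => ?_⟩
  have hxr : ‖x - x'‖ < r := lt_of_lt_of_le hxx (min_le_left _ _)
  have hxe : ‖x - x'‖ ≤ ε * r ^ 2 / (3 * (N + 1)) := (lt_of_lt_of_le hxx (min_le_right _ _)).le
  have hψx : ∀ z : E3, Integrable (fun y =>
      indicator (ball (0:E3) (2 * r)) (fun u : E3 => ‖u‖ ^ (-(5/2) : ℝ)) (z - y)) := fun z =>
    hψi.comp_sub_left z
  have hpw : ∀ u : E3, (indicator (ball (0:E3) (2 * r)) (fun u => 1 / ‖u‖) u) ^ (5/2 : ℝ) =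
      indicator (ball (0:E3) (2 * r)) (fun u : E3 => ‖u‖ ^ (-(5/2) : ℝ)) u := by
    intro u
    by_cases hu : u ∈ ball (0:E3) (2 * r)
    · rw [Set.indicator_of_mem hu, Set.indicator_of_mem hu, one_div,
        Real.inv_rpow (norm_nonneg _), Real.rpow_neg (norm_nonneg _)]
    · rw [Set.indicator_of_notMem hu, Set.indicator_of_notMem hu, Real.zero_rpow (by norm_num)]
  have hφ : ∀ u : E3, 0 ≤ indicator (ball (0:E3) (2 * r)) (fun u => 1 / ‖u‖) u := fun u =>
    Set.indicator_nonneg (fun u _ => by positivity) u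
  -- dominating function
  have hbound : ∀ y, |g y| * |1 / ‖x - y‖ - 1 / ‖x' - y‖| ≤
      (ε / (6 * (G + 1)) * |g y| ^ (5/3 : ℝ) +
        C * indicator (ball (0:E3) (2 * r)) (fun u : E3 => ‖u‖ ^ (-(5/2) : ℝ)) (x - y)) +
      (ε / (6 * (G + 1)) * |g y| ^ (5/3 : ℝ) +
        C * indicator (ball (0:E3) (2 * r)) (fun u : E3 => ‖u‖ ^ (-(5/2) : ℝ)) (x' - y)) +
      |g y| * (‖x - x'‖ / r ^ 2) := by
    intro y
    have h1 := mul_le_mul_of_nonneg_left (TF_nice_modulus_pt r hr x x' y hxr) (abs_nonneg (g y))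
    have h2 := hyoung (|g y|) _ (abs_nonneg _) (hφ (x - y))
    have h3 := hyoung (|g y|) _ (abs_nonneg _) (hφ (x' - y))
    rw [hpw] at h2 h3
    rw [mul_add, mul_add] at h1
    linarith
  have i1 : Integrable (fun y => ε / (6 * (G + 1)) * |g y| ^ (5/3 : ℝ)) := hg2.const_mul _
  have i2 : ∀ z : E3, Integrable (fun y => C *
      indicator (ball (0:E3) (2 * r)) (fun u : E3 => ‖u‖ ^ (-(5/2) : ℝ)) (z - y)) := fun z =>
    (hψx z).const_mul C
  have i3 : Integrable (fun y => |g y| * (‖x - x'‖ / r ^ 2)) := hg1.abs.mul_const _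
  have hD : Integrable (fun y => (ε / (6 * (G + 1)) * |g y| ^ (5/3 : ℝ) +
        C * indicator (ball (0:E3) (2 * r)) (fun u : E3 => ‖u‖ ^ (-(5/2) : ℝ)) (x - y)) +
      (ε / (6 * (G + 1)) * |g y| ^ (5/3 : ℝ) +
        C * indicator (ball (0:E3) (2 * r)) (fun u : E3 => ‖u‖ ^ (-(5/2) : ℝ)) (x' - y)) +
      |g y| * (‖x - x'‖ / r ^ 2)) := ((i1.add (i2 x)).add (i1.add (i2 x'))).add i3
  have hmeas : AEStronglyMeasurable (fun y => |g y| * |1 / ‖x - y‖ - 1 / ‖x' - y‖|) volume := by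
    have m1 : Measurable fun y => |g y| := hgm.abs
    have m2 : Measurable fun y : E3 => |1 / ‖x - y‖ - 1 / ‖x' - y‖| := by fun_prop
    exact (m1.mul m2).aestronglyMeasurable
  have hint : Integrable (fun y => |g y| * |1 / ‖x - y‖ - 1 / ‖x' - y‖|) := by
    refine hD.mono' hmeas (Filter.Eventually.of_forall fun y => ?_)
    rw [Real.norm_of_nonneg (by positivity)]
    exact hbound y
  refine ⟨hint, ?_⟩
  refine (integral_mono hint hD hbound).trans ?_
  have hψe : ∀ z : E3, ∫ y, C *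
      indicator (ball (0:E3) (2 * r)) (fun u : E3 => ‖u‖ ^ (-(5/2) : ℝ)) (z - y) ≤ ε / 6 := by
    intro z
    rw [integral_const_mul, integral_sub_left_eq_self
      (fun u => indicator (ball (0:E3) (2 * r)) (fun u : E3 => ‖u‖ ^ (-(5/2) : ℝ)) u) volume z]
    calc _ ≤ C * (ε / (6 * C)) := mul_le_mul_of_nonneg_left hψ hC.le
      _ = ε / 6 := by field_simp
  have hGe : ∫ y, ε / (6 * (G + 1)) * |g y| ^ (5/3 : ℝ) ≤ ε / 6 := by
    rw [integral_const_mul, ← hG]
    calc ε / (6 * (G + 1)) * G ≤ ε / (6 * (G + 1)) * (G + 1) :=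
          mul_le_mul_of_nonneg_left (by linarith) (by positivity)
      _ = ε / 6 := by field_simp
  have hNe : ∫ y, |g y| * (‖x - x'‖ / r ^ 2) ≤ ε / 3 := by
    rw [integral_mul_const, ← hN]
    calc N * (‖x - x'‖ / r ^ 2) ≤ (N + 1) * ((ε * r ^ 2 / (3 * (N + 1))) / r ^ 2) := by
          refine mul_le_mul (by linarith) ?_ (by positivity) (by positivity)
          exact div_le_div_of_nonneg_right hxe (by positivity)
      _ = ε / 3 := by field_simp
  have j1 : ∀ z : E3, Integrable (fun y => ε / (6 * (G + 1)) * |g y| ^ (5/3 : ℝ) +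
      C * indicator (ball (0:E3) (2 * r)) (fun u : E3 => ‖u‖ ^ (-(5/2) : ℝ)) (z - y)) := fun z =>
    i1.add (i2 z)
  have j2 : Integrable (fun y => (ε / (6 * (G + 1)) * |g y| ^ (5/3 : ℝ) +
        C * indicator (ball (0:E3) (2 * r)) (fun u : E3 => ‖u‖ ^ (-(5/2) : ℝ)) (x - y)) +
      (ε / (6 * (G + 1)) * |g y| ^ (5/3 : ℝ) +
        C * indicator (ball (0:E3) (2 * r)) (fun u : E3 => ‖u‖ ^ (-(5/2) : ℝ)) (x' - y))) :=
    (j1 x).add (j1 x')
  have e1 : ∀ z : E3, ∫ y, (ε / (6 * (G + 1)) * |g y| ^ (5/3 : ℝ) +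
      C * indicator (ball (0:E3) (2 * r)) (fun u : E3 => ‖u‖ ^ (-(5/2) : ℝ)) (z - y)) =
      (∫ y, ε / (6 * (G + 1)) * |g y| ^ (5/3 : ℝ)) +
      ∫ y, C * indicator (ball (0:E3) (2 * r)) (fun u : E3 => ‖u‖ ^ (-(5/2) : ℝ)) (z - y) :=
    fun z => integral_add i1 (i2 z)
  rw [integral_add j2 i3, integral_add (j1 x) (j1 x'), e1, e1]
  have := hψe x
  have := hψe x'
  linarith
end
/-! ### nice_decay -/
section
lemma TF_nice_decay_kernel :
    IntegrableOn (fun u : E3 => ‖u‖ ^ (-(5/2) : ℝ)) (ball (0:E3) 1) := by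
  rw [integrableOn_fun_norm_addHaar volume (f := fun y : ℝ => y ^ (-(5/2):ℝ))]
  have hf : Module.finrank ℝ E3 = 3 := by simp
  rw [hf]
  have h : IntegrableOn (fun y : ℝ => y ^ (-(1/2):ℝ)) (Ioo 0 1) :=
    (intervalIntegral.integrableOn_Ioo_rpow_iff one_pos).2 (by norm_num)
  refine h.congr_fun ?_ measurableSet_Ioo
  intro y hy
  simp only [smul_eq_mul]
  rw [← Real.rpow_natCast, ← Real.rpow_add hy.1]
  norm_num

lemma TF_nice_decay_young (a u s : ℝ) (ha : 0 ≤ a) (hu : 0 ≤ u) (hs0 : 0 < s) (hs1 : s ≤ 1) :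
    a / u ≤ (s⁻¹) ^ (5/3:ℝ) * a ^ (5/3:ℝ) + s * u ^ (-(5/2):ℝ) := by
  have hpq : (5/3 : ℝ).HolderConjugate (5/2) := by
    rw [Real.holderConjugate_iff]; norm_num
  have hy := Real.young_inequality_of_nonneg (a := a * s⁻¹) (b := s * u⁻¹)
    (by positivity) (by positivity) hpq
  have e1 : a * s⁻¹ * (s * u⁻¹) = a / u := by
    rw [mul_assoc, ← mul_assoc s⁻¹ s, inv_mul_cancel₀ hs0.ne', one_mul, div_eq_mul_inv]
  have e2 : (a * s⁻¹) ^ (5/3:ℝ) = (s⁻¹) ^ (5/3:ℝ) * a ^ (5/3:ℝ) := by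
    rw [Real.mul_rpow ha (by positivity), mul_comm]
  have e3 : (s * u⁻¹) ^ (5/2:ℝ) ≤ s * u ^ (-(5/2):ℝ) := by
    rw [Real.mul_rpow hs0.le (by positivity), Real.inv_rpow hu, ← Real.rpow_neg hu]
    refine mul_le_mul_of_nonneg_right ?_ (Real.rpow_nonneg hu _)
    calc s ^ (5/2:ℝ) ≤ s ^ (1:ℝ) := Real.rpow_le_rpow_of_exponent_ge hs0 hs1 (by norm_num)
      _ = s := Real.rpow_one s
  have e4 : 0 ≤ (a * s⁻¹) ^ (5/3:ℝ) := by positivity
  have e5 : 0 ≤ (s * u⁻¹) ^ (5/2:ℝ) := by positivity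
  rw [e1] at hy
  have e6 : (a * s⁻¹) ^ (5/3:ℝ) / (5/3) ≤ (a * s⁻¹) ^ (5/3:ℝ) := by
    rw [div_le_iff₀ (by norm_num)]; nlinarith
  have e7 : (s * u⁻¹) ^ (5/2:ℝ) / (5/2) ≤ (s * u⁻¹) ^ (5/2:ℝ) := by
    rw [div_le_iff₀ (by norm_num)]; nlinarith
  rw [e2] at e6 hy
  linarith

-- ===== TARGET =====
set_option maxHeartbeats 1000000 in
theorem nice_decay (g : E3 → ℝ) (hg : Nice g) (ε : ℝ) (hε : 0 < ε) :
    ∃ M : ℝ, ∀ x : E3, M ≤ ‖x‖ → ∫ y, |g y| / ‖x - y‖ ≤ ε := by
  obtain ⟨hgm, hgi, hgp⟩ := hg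
  have hga : Integrable (fun y => |g y|) := hgi.abs
  set κ : E3 → ℝ := (ball (0:E3) 1).indicator (fun u => ‖u‖ ^ (-(5/2) : ℝ)) with hκ
  have hκi : Integrable κ := (integrable_indicator_iff measurableSet_ball).2 TF_nice_decay_kernel
  have hκ0 : ∀ u, 0 ≤ κ u := fun u =>
    indicator_nonneg (fun v _ => Real.rpow_nonneg (norm_nonneg v) _) u
  set K := ∫ u, κ u with hKdef
  have hK : 0 ≤ K := integral_nonneg hκ0
  set s : ℝ := min 1 (ε / (3 * (K + 1))) with hs
  have hs0 : 0 < s := lt_min one_pos (by positivity)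
  have hs1 : s ≤ 1 := min_le_left _ _
  have hsK : s * K ≤ ε / 3 := by
    have h1 : s ≤ ε / (3 * (K + 1)) := min_le_right _ _
    have h2 : s * K ≤ ε / (3 * (K + 1)) * (K + 1) :=
      mul_le_mul h1 (by linarith) hK (by positivity)
    have h3 : ε / (3 * (K + 1)) * (K + 1) = ε / 3 := by field_simp
    linarith
  set C : ℝ := (s⁻¹) ^ (5/3 : ℝ) with hC
  have hC0 : 0 ≤ C := Real.rpow_nonneg (by positivity) _
  have hm1 : ∀ x : E3, Measurable (fun y : E3 => |g y| * min 1 (1 / ‖x - y‖)) := by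
    intro x
    exact (hgm.abs).mul (measurable_const.min (measurable_const.div (measurable_const.sub measurable_id).norm))
  have hb1 : ∀ x y : E3, ‖|g y| * min 1 (1 / ‖x - y‖)‖ ≤ |g y| := by
    intro x y
    have h0 : 0 ≤ min 1 (1 / ‖x - y‖) := le_min zero_le_one (by positivity)
    rw [Real.norm_eq_abs, abs_mul, abs_abs, abs_of_nonneg h0]
    exact mul_le_of_le_one_right (abs_nonneg _) (min_le_left _ _)
  have hlim1 : Tendsto (fun x : E3 => ∫ y, |g y| * min 1 (1 / ‖x - y‖)) (comap norm atTop) (𝓝 0) := by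
    have := tendsto_integral_filter_of_dominated_convergence (μ := (volume : Measure E3))
      (l := comap (norm : E3 → ℝ) atTop)
      (F := fun (x y : E3) => |g y| * min 1 (1 / ‖x - y‖)) (f := fun _ => (0:ℝ)) (fun y => |g y|)
      (Eventually.of_forall fun x => (hm1 x).aestronglyMeasurable)
      (Eventually.of_forall fun x => Eventually.of_forall fun y => hb1 x y) hga ?_
    · simpa using this
    · refine Eventually.of_forall fun y => ?_
      have hn : Tendsto (fun x : E3 => ‖x - y‖) (comap norm atTop) atTop := by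
        refine tendsto_atTop_mono (f := fun x : E3 => ‖x‖ - ‖y‖) (fun x => norm_sub_norm_le x y) ?_
        exact tendsto_atTop_add_const_right _ _ tendsto_comap
      have h1 : Tendsto (fun x : E3 => min 1 (1 / ‖x - y‖)) (comap norm atTop) (𝓝 0) := by
        refine squeeze_zero (fun x => le_min zero_le_one (by positivity)) (fun x => min_le_right _ _) ?_
        have h2 : (fun x : E3 => 1 / ‖x - y‖) = (fun r : ℝ => r⁻¹) ∘ (fun x : E3 => ‖x - y‖) := by
          funext x; simp [one_div]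
        rw [h2]
        exact tendsto_inv_atTop_zero.comp hn
      simpa using h1.const_mul (|g y|)
  have hlim2 : Tendsto (fun x : E3 => ∫ y, (ball x 1).indicator (fun y => |g y| ^ (5/3:ℝ)) y)
      (comap norm atTop) (𝓝 0) := by
    have := tendsto_integral_filter_of_dominated_convergence (μ := (volume : Measure E3))
      (l := comap (norm : E3 → ℝ) atTop)
      (F := fun (x y : E3) => (ball x 1).indicator (fun y => |g y| ^ (5/3:ℝ)) y)
      (f := fun _ => (0:ℝ)) (fun y => |g y| ^ (5/3:ℝ))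
      (Eventually.of_forall fun x => hgp.aestronglyMeasurable.indicator measurableSet_ball)
      (Eventually.of_forall fun x => Eventually.of_forall fun y => ?_) hgp ?_
    · simpa using this
    · rw [Real.norm_eq_abs, abs_of_nonneg (indicator_nonneg (fun v _ => Real.rpow_nonneg (abs_nonneg _) _) y)]
      exact indicator_le_self' (fun v _ => Real.rpow_nonneg (abs_nonneg _) _) y
    · refine Eventually.of_forall fun y => ?_
      refine tendsto_const_nhds.congr' ?_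
      have : ∀ᶠ x : E3 in comap norm atTop, ‖y‖ + 1 ≤ ‖x‖ :=
        tendsto_comap.eventually (eventually_ge_atTop _)
      filter_upwards [this] with x hx
      rw [indicator_of_notMem]
      rw [mem_ball, dist_eq_norm, not_lt]
      have := norm_sub_norm_le x y
      rw [norm_sub_rev] at this
      linarith
  have hlim := hlim1.add (hlim2.const_mul C)
  have hev := hlim.eventually (Iio_mem_nhds (show 0 + C * 0 < 2 * ε / 3 by simp; linarith))
  rw [eventually_comap, eventually_atTop] at hev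
  obtain ⟨M, hM⟩ := hev
  refine ⟨M, fun x hx => ?_⟩
  have hMx := hM ‖x‖ hx x rfl
  have hi1 : Integrable (fun y : E3 => |g y| * min 1 (1 / ‖x - y‖)) :=
    hga.mono' (hm1 x).aestronglyMeasurable (Eventually.of_forall fun y => hb1 x y)
  have hi2 : Integrable (fun y : E3 => (ball x 1).indicator (fun y => |g y| ^ (5/3:ℝ)) y) :=
    hgp.indicator measurableSet_ball
  have hi3 : Integrable (fun y : E3 => κ (x - y)) := hκi.comp_sub_left x
  have hpt : ∀ y : E3, |g y| / ‖x - y‖ ≤ |g y| * min 1 (1 / ‖x - y‖) +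
      C * (ball x 1).indicator (fun y => |g y| ^ (5/3:ℝ)) y + s * κ (x - y) := by
    intro y
    have h0 : 0 ≤ |g y| * min 1 (1 / ‖x - y‖) :=
      mul_nonneg (abs_nonneg _) (le_min zero_le_one (by positivity))
    have h00 : 0 ≤ (ball x 1).indicator (fun y => |g y| ^ (5/3:ℝ)) y :=
      indicator_nonneg (fun v _ => Real.rpow_nonneg (abs_nonneg _) _) y
    rcases lt_or_ge ‖x - y‖ 1 with hlt | hge
    · have hmem : y ∈ ball x 1 := by rw [mem_ball, dist_eq_norm, norm_sub_rev]; exact hlt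
      have hmem2 : x - y ∈ ball (0:E3) 1 := by rw [mem_ball_zero_iff]; exact hlt
      rw [indicator_of_mem hmem, hκ, indicator_of_mem hmem2]
      have hy := TF_nice_decay_young |g y| ‖x - y‖ s (abs_nonneg _) (norm_nonneg _) hs0 hs1
      linarith
    · have h1 : min 1 (1 / ‖x - y‖) = 1 / ‖x - y‖ := by
        apply min_eq_right
        rw [div_le_one (by linarith)]; exact hge
      rw [h1]
      have h2 : 0 ≤ s * κ (x - y) := mul_nonneg hs0.le (hκ0 _)
      have h3 := mul_nonneg hC0 h00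
      have h4 : |g y| / ‖x - y‖ = |g y| * (1 / ‖x - y‖) := by rw [mul_one_div]
      linarith
  have hi12 : Integrable (fun y : E3 => |g y| * min 1 (1 / ‖x - y‖) +
      C * (ball x 1).indicator (fun y => |g y| ^ (5/3:ℝ)) y) := hi1.add (hi2.const_mul C)
  calc ∫ y, |g y| / ‖x - y‖ ≤ ∫ y, (|g y| * min 1 (1 / ‖x - y‖) +
      C * (ball x 1).indicator (fun y => |g y| ^ (5/3:ℝ)) y + s * κ (x - y)) := by
        refine integral_mono_of_nonneg (Eventually.of_forall fun y => by positivity) ?_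
          (Eventually.of_forall hpt)
        exact hi12.add (hi3.const_mul s)
    _ = (∫ y, |g y| * min 1 (1 / ‖x - y‖)) +
      C * (∫ y, (ball x 1).indicator (fun y => |g y| ^ (5/3:ℝ)) y) + s * K := by
        rw [integral_add hi12 (hi3.const_mul s),
          integral_add hi1 (hi2.const_mul C), integral_const_mul, integral_const_mul,
          integral_sub_left_eq_self κ volume x]
    _ ≤ ε := by linarith
end
/-! ### avg_pot -/
section
-- ===== given lemmas (leave as they are, do not prove) =====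




-- ===== TARGET =====
theorem avg_pot (G : E3 → ℝ) (hG : Nice G) (x0 : E3) (s : ℝ) (hs : 0 < s)
    (hpos : ∀ᵐ y ∂volume, y ∈ ball x0 s → 0 ≤ G y) :
    IntegrableOn (pot G) (ball x0 s) ∧
    ∫ x in ball x0 s, pot G x ≤ (volume (ball x0 s)).toReal * pot G x0 := by
  obtain ⟨B, hB⟩ := nice_bound G hG
  have hGm : Measurable G := hG.1
  set μ : Measure E3 := volume.restrict (ball x0 s) with hμ
  haveI : IsFiniteMeasure μ := ⟨by
    rw [hμ, Measure.restrict_apply_univ]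
    exact measure_ball_lt_top⟩
  have hFm : Measurable (fun p : E3 × E3 => G p.2 / ‖p.1 - p.2‖) := by
    exact (hGm.comp measurable_snd).div (measurable_fst.sub measurable_snd).norm
  have hF : Integrable (fun p : E3 × E3 => G p.2 / ‖p.1 - p.2‖) (μ.prod volume) := by
    rw [integrable_prod_iff hFm.aestronglyMeasurable]
    refine ⟨Eventually.of_forall fun x => (hB x).1, ?_⟩
    refine Integrable.of_bound (hFm.norm.aestronglyMeasurable.integral_prod_right') B
      (Eventually.of_forall fun x => ?_)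
    have h1 : ∀ y : E3, ‖G y / ‖x - y‖‖ = |G y| / ‖x - y‖ := by
      intro y
      rw [Real.norm_eq_abs, abs_div, abs_of_nonneg (norm_nonneg (x - y))]
    have h2 : ∫ y, ‖G y / ‖x - y‖‖ = ∫ y, |G y| / ‖x - y‖ := by
      congr 1
      funext y
      exact h1 y
    have h3 : 0 ≤ ∫ y, ‖G y / ‖x - y‖‖ := integral_nonneg fun y => norm_nonneg _
    show ‖∫ y, ‖G y / ‖x - y‖‖‖ ≤ B
    rw [Real.norm_of_nonneg h3, h2]
    exact (hB x).2
  refine ⟨hF.integral_prod_left, ?_⟩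
  have hswap : ∫ x in ball x0 s, pot G x = ∫ y, ∫ x, G y / ‖x - y‖ ∂μ := by
    show ∫ x, (∫ y, G y / ‖x - y‖) ∂μ = _
    exact integral_integral_swap hF
  have hR : Integrable (fun y => ∫ x, G y / ‖x - y‖ ∂μ) := hF.integral_prod_right
  have hne : ∀ᵐ y : E3 ∂volume, y ≠ x0 := by
    have h := (Set.countable_singleton x0).ae_notMem (volume : Measure E3)
    filter_upwards [h] with y hy
    simpa using hy
  rw [hswap]
  have hright : (volume (ball x0 s)).toReal * pot G x0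
      = ∫ y, (volume (ball x0 s)).toReal * (G y / ‖x0 - y‖) := by
    unfold pot
    rw [integral_const_mul]
  rw [hright]
  refine integral_mono_ae hR ((hB x0).1.const_mul _) ?_
  filter_upwards [hpos, hne] with y hy hyne
  have h1 : ∫ x, G y / ‖x - y‖ ∂μ = G y * ∫ x in ball x0 s, 1 / ‖x - y‖ := by
    rw [← integral_const_mul]
    congr 1
    funext x
    ring
  show ∫ x, G y / ‖x - y‖ ∂μ ≤ (volume (ball x0 s)).toReal * (G y / ‖x0 - y‖)
  rw [h1]
  obtain ⟨n1, n2, n3⟩ := newton_ball x0 y s hs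
  by_cases hyb : y ∈ ball x0 s
  · have := mul_le_mul_of_nonneg_left (n3 hyne) (hy hyb)
    calc _ ≤ _ := this
      _ = _ := by ring
  · have h2 : s ≤ ‖x0 - y‖ := by
      rw [mem_ball, dist_eq_norm, norm_sub_rev] at hyb
      exact not_lt.1 hyb
    rw [n2 h2]
    apply le_of_eq
    ring
end

end Pool.Agent.R999.Pot
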