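import Pool.Agent.R497.TB.Defs
import Pool.Agent.R497.TD.Core1

/-!
Project TB, piece BD: mean square of the products for small `δ`, boxes enumerated by lines.
-/

set_option autoImplicit false

namespace Pool.Agent.R999.TB

open MeasureTheory Filter Finset
open Pool.Agent.Y957.MC (IsFlow flowInv smo)
open Pool.Agent.R497.TD (NiceG S_OSC S_DBD S_PINC inc_sum)
open Pool.Agent.R497.TB

universe u

lemma modH {H b r : ℕ} (hr : r < H) : (b * H + r) % (H * H) = (b % H) * H + r := by
  have hH : 0 < H := by omega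
  have h1 : b * H + r = ((b % H) * H + r) + (H * H) * (b / H) := by
    have := Nat.div_add_mod b H
    calc b * H + r = (H * (b / H) + b % H) * H + r := by rw [this]
      _ = _ := by ring
  have h2 : (b % H) * H + r < H * H := by
    have h3 : b % H < H := Nat.mod_lt _ hH
    have h4 : (b % H + 1) * H ≤ H * H := Nat.mul_le_mul_right _ h3
    nlinarith
  rw [h1, Nat.add_mul_mod_self_left, Nat.mod_eq_of_lt h2]

lemma cutcard (S H v : ℕ) : (((range (S * H) ×ˢ range (S * H)).filter
    fun p => p.1 % H = v ∨ p.2 % H = v).card : ℝ) ≤ 2 * S * ((S * H : ℕ) : ℝ) := by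
  have h0' : ((range (S * H)).filter fun b => b % H = v).card ≤ (range S).card := by
    refine card_le_card_of_injOn (fun b => b / H) ?_ ?_
    · intro b hb
      simp only [coe_filter, mem_range, Set.mem_ofPred_eq] at hb
      simp only [coe_range, Set.mem_Iio]
      exact Nat.div_lt_of_lt_mul (by rw [mul_comm]; exact hb.1)
    · intro b hb b' hb' h
      simp only [coe_filter, mem_range, Set.mem_ofPred_eq] at hb hb'
      simp only at h
      have h1 := Nat.div_add_mod b H
      have h2 := Nat.div_add_mod b' H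
      rw [← h1, ← h2, h, hb.2, hb'.2]
  have h0 : ((range (S * H)).filter fun b => b % H = v).card ≤ S := by rwa [card_range] at h0'
  have h1 : ((range (S * H) ×ˢ range (S * H)).filter fun p => p.1 % H = v ∨ p.2 % H = v) ⊆
      (((range (S * H)).filter fun b => b % H = v) ×ˢ range (S * H)) ∪
      (range (S * H) ×ˢ ((range (S * H)).filter fun b => b % H = v)) := by
    intro p hp
    rw [mem_filter, mem_product] at hp
    rw [mem_union, mem_product, mem_product, mem_filter, mem_filter]
    tauto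
  have h2 := card_le_card h1
  have h3 := card_union_le (((range (S * H)).filter fun b => b % H = v) ×ˢ range (S * H))
      (range (S * H) ×ˢ ((range (S * H)).filter fun b => b % H = v))
  rw [card_product, card_product, card_range] at h3
  have h4 : ((range (S * H) ×ˢ range (S * H)).filter
    fun p => p.1 % H = v ∨ p.2 % H = v).card ≤ 2 * S * (S * H) := by
    have h5 : ((range (S * H)).filter fun b => b % H = v).card * (S * H) ≤ S * (S * H) :=
      Nat.mul_le_mul_right _ h0
    have h6 : (S * H) * ((range (S * H)).filter fun b => b % H = v).card ≤ (S * H) * S :=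
      Nat.mul_le_mul_left _ h0
    calc _ ≤ _ := h2
      _ ≤ _ := h3
      _ ≤ S * (S * H) + (S * H) * S := add_le_add h5 h6
      _ = _ := by ring
  exact_mod_cast h4

theorem bdcore (hO : S_OSC) (hD : S_DBD.{u}) (hB : S_BBAD) {X : Type u} [MeasurableSpace X] {μ : Measure X}
    [IsProbabilityMeasure μ] {σ : ℝ → X → X} (hσ : IsFlow μ σ) {g : X → ℝ} (hgm : Measurable g)
    (hg1 : ∀ x, |g x| ≤ 1) {C : ℝ}
    (hgl : ∀ u v x, |g (σ u x) - g (σ v x)| ≤ C * |u - v|) (hgp : ∀ u v x, |∫ r in u..v, g (σ r x)| ≤ C)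
    {Q F : ℕ → ℝ} {H S L : ℕ} {W : ℝ} (hW : 1 ≤ W) (hHW : (H : ℝ) = W ^ 4) (hS : 0 < S)
    {c C' S0 : ℝ} (hc : 0 < c) (hC' : 0 < C') (hS0 : 0 < S0)
    (hinc : ∀ n, L ≤ n → n ≤ H * H → c * S0 ≤ F (n + 1) - F n ∧ F (n + 1) - F n ≤ C' * S0 ∧
      F (n + 1) - F n ≤ F (n + 2) - F (n + 1))
    (hQ : ∀ u w, u < S → w < H * H → Q (u * (H * H) + w) = Q (u * (H * H)) + (F w - F 0))
    {δ : ℝ} (hδ1 : 1 / (S0 * W ^ 3) ≤ |δ|) (hδ2 : |δ| ≤ 1 / (S0 * W)) :
    ∫ a in (1 / 2 : ℝ)..3, ∫ x, ((1 / ((S * (H * H) : ℕ) : ℝ)) * ∑ n ∈ range (S * (H * H)),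
      (if L ≤ n % (H * H) then g (σ (a * Q n) x) * g (σ (δ * Q n) (σ (a * Q n) x)) else 0)) ^ 2 ∂μ ≤
      (3 * (2 * (1 + C') / c + 3) + 6 * C' + 3 * (C / c + C * C') ^ 2) / W ^ 2 := by
  have hne : Nonempty X := nonempty_of_isProbabilityMeasure μ
  have hC0 : 0 ≤ C := by
    obtain ⟨x⟩ := hne
    exact (abs_nonneg _).trans (hgp 0 0 x)
  have hW0 : (0 : ℝ) < W := by linarith
  have hHR : (0 : ℝ) < H := by rw [hHW]; positivity
  have hH : 0 < H := by exact_mod_cast hHR
  have hSR : (0 : ℝ) < S := by exact_mod_cast hS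
  have hδ0 : 0 < |δ| := lt_of_lt_of_le (by positivity) hδ1
  have hδne : δ ≠ 0 := abs_pos.1 hδ0
  -- the value of `Q` in the block `b`
  set T : ℕ → ℕ → ℝ := fun b r => Q ((b / H) * (H * H)) + (F ((b % H) * H + r) - F 0) with hT
  have hblt : ∀ b r, r < H → (b % H) * H + r < H * H := by
    intro b r hr
    have h3 : b % H < H := Nat.mod_lt _ hH
    have h4 : (b % H + 1) * H ≤ H * H := Nat.mul_le_mul_right _ h3
    nlinarith
  have hQT : ∀ b r, b < S * H → r < H → Q (b * H + r) = T b r := by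
    intro b r hb hr
    have h1 : b * H + r = (b / H) * (H * H) + ((b % H) * H + r) := by
      have := Nat.div_add_mod b H
      calc b * H + r = (H * (b / H) + b % H) * H + r := by rw [this]
        _ = _ := by ring
    rw [h1, hQ _ _ (Nat.div_lt_of_lt_mul (by rw [mul_comm]; exact hb)) (hblt b r hr)]
  set V : ℕ → X → ℝ := fun n y => if L ≤ n % (H * H) then g y * g (σ (δ * Q n) y) else 0 with hV
  have hVm : ∀ n, Measurable (V n) := by
    intro n
    simp only [hV]
    have h1 : Measurable fun y => g (σ (δ * Q n) y) := hgm.comp (hσ.meas.comp (measurable_const.prodMk measurable_id))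
    split_ifs
    · exact hgm.mul h1
    · exact measurable_const
  have hV1 : ∀ n x, |V n x| ≤ 1 := by
    intro n x
    simp only [hV]
    split_ifs
    · rw [abs_mul]
      exact mul_le_one₀ (hg1 _) (abs_nonneg _) (hg1 _)
    · simp
  set ε : ℝ := (C / c + C * C') / W with hε
  set Y : ℝ := W ^ 6 * S0 with hY
  set Z : ℝ := H * (C' * S0) with hZ
  have hY0 : 0 < Y := by positivity
  have hZ0 : 0 < Z := by positivity
  set A : ℝ := H * (c * S0) with hA
  have hA0 : 0 < A := by positivity
  set vL : ℕ := L / H with hvL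
  have hhigh : ∀ v, vL < v → L ≤ v * H := by
    intro v h1
    have h2 := Nat.lt_div_mul_add (a := L) hH
    have h3 : (L / H + 1) * H ≤ v * H := Nat.mul_le_mul_right _ h1
    nlinarith
  have hlow : ∀ v r, v < vL → r < H → v * H + r < L := by
    intro v r h1 h2
    have h3 : (v + 1) * H ≤ L / H * H := Nat.mul_le_mul_right _ h1
    have h4 := Nat.div_mul_le_self L H
    nlinarith
  -- counting the close pairs
  have hcnt := hB S H vL (fun b => Q (b * H)) A (Y + Z) hH hA0 (by positivity) (by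
    intro u v hu hv hv1
    have e1 : (u * H + (v + 1)) * H = u * (H * H) + (v + 1) * H := by ring
    have e2 : (u * H + v) * H = u * (H * H) + v * H := by ring
    have h3 : (v + 1 + 1) * H ≤ H * H := Nat.mul_le_mul_right _ hv1
    rw [e1, e2, hQ u ((v + 1) * H) hu (by nlinarith), hQ u (v * H) hu (by nlinarith)]
    have h4 := inc_sum (Q := F) (α := c * S0) (β := C' * S0) (m := v * H) H (fun i hi1 hi2 => by
      have h5 := hinc i (by have := hhigh v hv; omega) (by nlinarith)
      exact ⟨h5.1, h5.2.1⟩)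
    have e3 : v * H + H = (v + 1) * H := by ring
    rw [e3] at h4
    rw [hA]
    linarith [h4.1])
  set near := ((range (S * H) ×ˢ range (S * H)).filter fun p : ℕ × ℕ => vL < p.1 % H ∧ vL < p.2 % H ∧
    |(fun b => Q (b * H)) p.1 - (fun b => Q (b * H)) p.2| < Y + Z) with hnear
  set cuts := ((range (S * H) ×ˢ range (S * H)).filter fun p : ℕ × ℕ => p.1 % H = vL ∨ p.2 % H = vL) with hcuts
  have hcc := cutcard S H vL
  rw [← hcuts] at hcc
  have hSH : 0 < S * H := Nat.mul_pos hS hH
  have hmain := hD X μ σ V Q (S * H) H (near ∪ cuts) ε Y Z hσ hVm hV1 hSH hH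
    (by positivity) (by positivity) (by positivity) ?_
  · have e16 : S * H * H = S * (H * H) := by ring
    rw [e16] at hmain
    refine hmain.trans ?_
    have h1 : (((near ∪ cuts).card : ℕ) : ℝ) ≤ ((S * H : ℕ) : ℝ) * (S * (2 * (Y + Z) / A + 1)) +
        2 * S * ((S * H : ℕ) : ℝ) := by
      have h2 : (((near ∪ cuts).card : ℕ) : ℝ) ≤ (near.card : ℝ) + (cuts.card : ℝ) := by
        exact_mod_cast card_union_le near cuts
      linarith
    have h2 : (((near ∪ cuts).card : ℕ) : ℝ) / (((S * H : ℕ) : ℝ)) ^ 2 ≤ (2 * (1 + C') / c + 3) / W ^ 2 := by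
      have h3 : 2 * (Y + Z) / A ≤ 2 * (1 + C') / c * W ^ 2 := by
        rw [hY, hZ, hA, hHW, div_le_iff₀ (by positivity)]
        have e : 2 * (1 + C') / c * W ^ 2 * (W ^ 4 * (c * S0)) = 2 * (1 + C') * (W ^ 6 * S0) := by
          field_simp
        rw [e]
        have h4 : W ^ 4 ≤ W ^ 6 := pow_le_pow_right₀ hW (by norm_num)
        have h5 : W ^ 4 * (C' * S0) ≤ W ^ 6 * (C' * S0) := mul_le_mul_of_nonneg_right h4 (by positivity)
        nlinarith
      have h6 : (((near ∪ cuts).card : ℕ) : ℝ) ≤ ((S * H : ℕ) : ℝ) * S * ((2 * (1 + C') / c + 3) * W ^ 2) := by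
        refine h1.trans ?_
        have h7 : 1 ≤ W ^ 2 := one_le_pow₀ hW
        have h8 : (0 : ℝ) < ((S * H : ℕ) : ℝ) * S := by positivity
        have h9 : 2 * (Y + Z) / A + 1 + 2 ≤ (2 * (1 + C') / c + 3) * W ^ 2 := by nlinarith
        calc ((S * H : ℕ) : ℝ) * (S * (2 * (Y + Z) / A + 1)) + 2 * S * ((S * H : ℕ) : ℝ)
            = ((S * H : ℕ) : ℝ) * S * (2 * (Y + Z) / A + 1 + 2) := by ring
          _ ≤ _ := mul_le_mul_of_nonneg_left h9 h8.le
      rw [div_le_div_iff₀ (by positivity) (by positivity)]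
      calc (((near ∪ cuts).card : ℕ) : ℝ) * W ^ 2
          ≤ (((S * H : ℕ) : ℝ) * S * ((2 * (1 + C') / c + 3) * W ^ 2)) * W ^ 2 := by gcongr
        _ = (2 * (1 + C') / c + 3) * (((S * H : ℕ) : ℝ)) ^ 2 := by
            push_cast
            rw [hHW]
            ring
    have h3 : 6 * Z / Y = (6 * C') / W ^ 2 := by
      rw [hZ, hY, hHW]
      field_simp
    have h4 : 3 * ε ^ 2 = 3 * (C / c + C * C') ^ 2 / W ^ 2 := by
      rw [hε]
      field_simp
    rw [h3, h4, add_div, add_div]
    have h5 : 3 * ((((near ∪ cuts).card : ℕ) : ℝ) / (((S * H : ℕ) : ℝ)) ^ 2) ≤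
        3 * (2 * (1 + C') / c + 3) / W ^ 2 := by
      calc _ ≤ 3 * ((2 * (1 + C') / c + 3) / W ^ 2) := by gcongr
        _ = _ := by ring
    linarith
  · intro b b' hb hb' hbad
    rw [mem_union] at hbad
    push Not at hbad
    obtain ⟨hb1, hb2⟩ := hbad
    have hz : ∀ b, b % H < vL → ∀ r, r < H → ∀ x, V (b * H + r) x = 0 := by
      intro b hbv r hr x
      simp only [hV]
      rw [modH hr, if_neg (by have := hlow (b % H) r hbv hr; omega)]
    by_cases h1 : b % H < vL
    · left
      exact hz b h1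
    by_cases h2 : b' % H < vL
    · right; left
      exact hz b' h2
    right; right
    have hm1 : (b, b') ∈ range (S * H) ×ˢ range (S * H) := by
      rw [mem_product, mem_range, mem_range]; exact ⟨hb, hb'⟩
    have h3 : ¬ (b % H = vL ∨ b' % H = vL) := by
      intro h
      exact hb2 (mem_filter.2 ⟨hm1, h⟩)
    push Not at h3
    have hL1 : vL < b % H := by have := h3.1; omega
    have hL2 : vL < b' % H := by have := h3.2; omega
    have hdist : Y + Z ≤ |Q (b * H) - Q (b' * H)| := by
      by_contra hcon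
      push Not at hcon
      exact hb1 (mem_filter.2 ⟨hm1, hL1, hL2, hcon⟩)
    have hincT : ∀ b, vL < b % H → ∀ r, r < H → c * S0 ≤ T b (r + 1) - T b r ∧ T b (r + 1) - T b r ≤ C' * S0 ∧
        T b (r + 1) - T b r ≤ T b (r + 2) - T b (r + 1) := by
      intro b hb r hr
      have h4 := hinc ((b % H) * H + r) (by have := hhigh _ hb; omega) (hblt b r hr).le
      have e1 : T b (r + 1) - T b r = F ((b % H) * H + r + 1) - F ((b % H) * H + r) := by
        simp only [hT]
        rw [← add_assoc]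
        ring
      have e2 : T b (r + 2) - T b (r + 1) = F ((b % H) * H + r + 2) - F ((b % H) * H + r + 1) := by
        simp only [hT]
        rw [← add_assoc, ← add_assoc]
        ring
      rw [e1, e2]
      exact h4
    have hblock : ∀ b, vL < b % H → b < S * H → ∀ r, r < H →
        0 ≤ Q (b * H + r) - Q (b * H) ∧ Q (b * H + r) - Q (b * H) ≤ Z := by
      intro b hL hb r hr
      have e0 : Q (b * H) = T b 0 := by
        have := hQT b 0 hb hH
        rwa [add_zero] at this
      rw [hQT b r hb hr, e0]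
      have h3 := inc_sum (Q := T b) (α := 0) (β := C' * S0) (m := 0) r (fun i hi1 hi2 => by
        have h5 := hincT b hL i (by omega)
        exact ⟨le_trans (by positivity) h5.1, h5.2.1⟩)
      rw [zero_add] at h3
      refine ⟨by linarith [h3.1], h3.2.trans ?_⟩
      rw [hZ]
      have : (r : ℝ) ≤ (H : ℝ) := by exact_mod_cast hr.le
      exact mul_le_mul_of_nonneg_right this (by positivity)
    have hosc : ∀ b, vL < b % H → b < S * H → ∀ x, |∑ r ∈ range H, V (b * H + r) x| ≤ ε * (H : ℝ) := by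
      intro b hL hb x
      have e1 : ∑ r ∈ range H, V (b * H + r) x =
          g x * ∑ r ∈ range H, g (σ (δ * T b r) x) := by
        rw [mul_sum]
        refine sum_congr rfl fun r hr => ?_
        rw [mem_range] at hr
        simp only [hV]
        rw [modH hr, if_pos (by have := hhigh _ hL; omega), hQT b r hb hr]
      rw [e1, abs_mul]
      have h3 := hO (fun u => g (σ u x)) (fun r => T b r) C δ (c * S0) (C' * S0) H
        (fun u v => hgl u v x) (fun u v => hgp u v x) hδne (by positivity)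
        (fun r hr => by
          have h5 := hincT b hL r hr
          exact ⟨h5.1, h5.2.1⟩)
        (fun r hr => by
          have h5 := hincT b hL r (by omega)
          exact h5.2.2)
      have h4 : C / (|δ| * (c * S0)) ≤ C / c * W ^ 3 := by
        rw [div_le_iff₀ (by positivity)]
        have h5 : 1 ≤ |δ| * (S0 * W ^ 3) := by
          rw [div_le_iff₀ (by positivity)] at hδ1
          exact hδ1
        calc C = C * 1 := by ring
          _ ≤ C * (|δ| * (S0 * W ^ 3)) := by gcongr
          _ = C / c * W ^ 3 * (|δ| * (c * S0)) := by field_simp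
      have h6 : C * (H : ℝ) * |δ| * (C' * S0) ≤ C * C' * W ^ 3 := by
        have h7 : |δ| * (S0 * W) ≤ 1 := by
          rwa [le_div_iff₀ (by positivity)] at hδ2
        rw [hHW]
        calc C * W ^ 4 * |δ| * (C' * S0) = C * C' * W ^ 3 * (|δ| * (S0 * W)) := by ring
          _ ≤ C * C' * W ^ 3 * 1 := by gcongr
          _ = _ := by ring
      have h8 : ε * (H : ℝ) = (C / c + C * C') * W ^ 3 := by
        rw [hε, hHW]
        field_simp
      rw [h8]
      calc |g x| * |∑ r ∈ range H, g (σ (δ * T b r) x)| ≤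
            1 * |∑ r ∈ range H, g (σ (δ * T b r) x)| := by gcongr; exact hg1 x
        _ ≤ C / (|δ| * (c * S0)) + C * (H : ℝ) * |δ| * (C' * S0) := by rw [one_mul]; exact h3
        _ ≤ C / c * W ^ 3 + C * C' * W ^ 3 := add_le_add h4 h6
        _ = _ := by ring
    refine ⟨fun r r' hr hr' => ?_, hosc b hL1 hb, hosc b' hL2 hb'⟩
    have h3 := hblock b hL1 hb r hr
    have h4 := hblock b' hL2 hb' r' hr'
    have h5 : |(Q (b * H + r) - Q (b' * H + r')) - (Q (b * H) - Q (b' * H))| ≤ Z := by
      rw [abs_le]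
      constructor <;> linarith [h3.1, h3.2, h4.1, h4.2]
    refine ⟨?_, h5⟩
    have h6 := abs_sub_abs_le_abs_sub (Q (b * H) - Q (b' * H)) (Q (b * H + r) - Q (b' * H + r'))
    rw [abs_sub_comm (Q (b * H) - Q (b' * H))] at h6
    linarith

theorem t_BD (hO : S_OSC) (hD : S_DBD.{u}) (hP : S_PINC) (hB : S_BBAD) : S_BD.{u} := by
  intro X _ μ _ σ g P k j hσ hg hg1 hd hlc
  obtain ⟨hgm, C, -, hgl, hgp⟩ := hg
  obtain ⟨c, C', hc, hC', hev⟩ := hP P hd hlc j
  obtain ⟨N₀, hN₀⟩ := eventually_atTop.1 hev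
  refine ⟨3 * (2 * (1 + C') / c + 3) + 6 * C' + 3 * (C / c + C * C') ^ 2, max N₀ 1, by positivity, ?_⟩
  intro K S Q δ hK hS hQ hδ1 hδ2
  have hK1 : 1 ≤ K := (le_max_right _ _).trans hK
  have hKN : N₀ ≤ K := (le_max_left _ _).trans hK
  have hKR : (1 : ℝ) ≤ K := by exact_mod_cast hK1
  have hM : K ^ (8 * (k + 1)) = K ^ (4 * (k + 1)) * K ^ (4 * (k + 1)) := by
    rw [← pow_add]; congr 1; ring
  have hNM : N₀ ≤ K ^ (8 * (k + 1)) := hKN.trans (Nat.le_self_pow (by omega) K)
  have hpinc := hN₀ _ hNM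
  have hres := bdcore (hO := hO) (hD := hD) (hB := hB) hσ hgm hg1 hgl hgp (Q := Q)
    (F := fun n => P.eval ((n : ℝ) + 1)) (H := K ^ (4 * (k + 1))) (S := S) (L := cut j (K ^ (8 * (k + 1))))
    (W := (K : ℝ) ^ (k + 1)) (one_le_pow₀ hKR) (by push_cast; rw [← pow_mul]; congr 1; ring) hS hc hC'
    (S0 := ((K ^ (8 * (k + 1)) : ℕ) : ℝ) ^ (P.natDegree - 1)) (by positivity)
    (by
      intro n h1 h2
      rw [← hM] at h2
      have h3 := hpinc n h1 h2
      have e1 : (((n + 1 : ℕ) : ℝ) + 1) = (n : ℝ) + 2 := by push_cast; ring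
      have e2 : (((n + 2 : ℕ) : ℝ) + 1) = (n : ℝ) + 3 := by push_cast; ring
      simp only [e1, e2]
      exact h3)
    (by
      intro u w hu hw
      rw [← hM] at hw ⊢
      have h3 := hQ u w hu hw
      simp only [Nat.cast_zero, zero_add]
      exact h3)
    (δ := δ)
    (by
      refine le_trans (le_of_eq ?_) hδ1
      push_cast
      rw [← pow_mul, ← pow_mul, ← pow_add]
      congr 2
      ring)
    (by
      refine le_trans hδ2 (le_of_eq ?_)
      push_cast
      rw [← pow_mul, ← pow_add])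
  rw [← hM] at hres
  have e : ((K : ℝ) ^ (k + 1)) ^ 2 = (K : ℝ) ^ (2 * (k + 1)) := by
    rw [← pow_mul]; congr 1; ring
  rw [e] at hres
  exact hres

end Pool.Agent.R999.TB
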