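import Pool.Agent.R999.Cmp

/-!
# Energy identities and harmonic representation
-/

set_option autoImplicit false

namespace Pool.Agent.R999.Ex

open MeasureTheory Set Filter Topology Metric
open Pool.Agent.TH791.Cl Pool.Agent.TH791.Nw Pool.Agent.R999.Pot Pool.Agent.R999.MinP
open Pool.Agent.R999.Newton
open scoped ENNReal

variable {ι : Type*} [Fintype ι]

/-- the excess of the kinetic energy over its tangent -/
noncomputable def bg (a s : ℝ) : ℝ :=
  3/5 * s ^ (5/3 : ℝ) - 3/5 * a ^ (5/3 : ℝ) - a ^ (2/3 : ℝ) * (s - a)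

lemma bg_nonneg {a s : ℝ} (ha : 0 ≤ a) (hs : 0 ≤ s) : 0 ≤ bg a s := by
  have := (TFMin.tangent_le hs ha).1
  unfold bg; linarith

lemma bg_int {ρ σ : E3 → ℝ} (hρ : MD ρ) (hσ : MD σ) : Integrable (fun x => bg (ρ x) (σ x)) := by
  have j1 := hσ.int_pow.const_mul (3/5)
  have j2 := hρ.int_pow.const_mul (3/5)
  have j3 := i23 hρ (nice_sub hσ.nice hρ.nice)
  exact (j1.sub j2).sub j3

/-- **energy identity** around a neutral Thomas-Fermi density -/
theorem TFs.breg {γ : ℝ} {z : ι → ℝ} {R : ι → E3} {ρ : E3 → ℝ} (h : TFs γ z R ρ)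
    {σ : E3 → ℝ} (hσ : MD σ) :
    En γ z R σ = En γ z R ρ + γ * (∫ x, bg (ρ x) (σ x)) +
      1/2 * ∫ x, (σ x - ρ x) * pot (fun y => σ y - ρ y) x := by
  have hN := nice_sub hσ.nice h.md.nice
  have j1 := hσ.int_pow.const_mul (3/5)
  have j2 := h.md.int_pow.const_mul (3/5)
  have j3 := i23 h.md hN
  have j12 : Integrable (fun x => 3/5 * σ x ^ (5/3 : ℝ) - 3/5 * ρ x ^ (5/3 : ℝ)) := j1.sub j2
  have e1 : ∫ x, bg (ρ x) (σ x) = 3/5 * (∫ x, σ x ^ (5/3 : ℝ)) - 3/5 * (∫ x, ρ x ^ (5/3 : ℝ)) -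
      ∫ x, ρ x ^ (2/3 : ℝ) * (σ x - ρ x) := by
    unfold bg
    rw [integral_sub j12 j3, integral_sub j1 j2, integral_const_mul, integral_const_mul]
  obtain ⟨_, p2⟩ := phi_pair (z := z) (R := R) h.md.nice hN
  have e2 : ∫ x, (Vn z R x - pot ρ x) * (σ x - ρ x) = γ * ∫ x, ρ x ^ (2/3 : ℝ) * (σ x - ρ x) := by
    rw [← integral_const_mul]
    refine integral_congr_ae ?_
    filter_upwards [h.eq] with x hx
    rw [← hx]; ring
  have e3 : ∑ j, z j * pot (fun x => σ x - ρ x) (R j) =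
      (∑ j, z j * pot σ (R j)) - ∑ j, z j * pot ρ (R j) := by
    rw [← Finset.sum_sub_distrib]
    refine Finset.sum_congr rfl fun j _ => ?_
    rw [pot_sub hσ.nice h.md.nice]; ring
  have e4 := coul_sub hσ.nice h.md.nice
  have e5 : ∫ x, ρ x * pot (fun y => σ y - ρ y) x =
      (∫ x, σ x * pot ρ x) - ∫ x, ρ x * pot ρ x := by
    have : (fun x => ρ x * pot (fun y => σ y - ρ y) x) =
        fun x => ρ x * pot σ x - ρ x * pot ρ x := by
      funext x; rw [pot_sub hσ.nice h.md.nice]; ring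
    rw [this, integral_sub (pd_int ρ σ h.md.nice hσ.nice) (pd_int ρ ρ h.md.nice h.md.nice),
      pd_swap ρ σ h.md.nice hσ.nice]
  rw [e2, e3, e5] at p2
  rw [e1, e4]
  unfold En
  linarith

/-- the neutral density is the absolute minimiser -/
theorem TFs.min {γ : ℝ} (hγ : 0 < γ) {z : ι → ℝ} {R : ι → E3} {ρ : E3 → ℝ} (h : TFs γ z R ρ)
    {σ : E3 → ℝ} (hσ : MD σ) : En γ z R ρ ≤ En γ z R σ := by
  rw [h.breg hσ]
  have h1 : 0 ≤ ∫ x, bg (ρ x) (σ x) :=
    integral_nonneg fun x => bg_nonneg (h.md.nonneg x) (hσ.nonneg x)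
  have h2 := coul_nonneg (nice_sub hσ.nice h.md.nice)
  have := mul_nonneg hγ.le h1
  linarith

lemma md_ind {ρ : E3 → ℝ} (h : MD ρ) {S : Set E3} (hS : MeasurableSet S) : MD (S.indicator ρ) := by
  refine Nice.md (nice_of_le (h.meas.indicator hS) h.nice fun x => ?_) fun x =>
    indicator_nonneg (fun y _ => h.nonneg y) x
  by_cases hx : x ∈ S
  · rw [indicator_of_mem hx]
  · rw [indicator_of_notMem hx, abs_zero]; exact abs_nonneg _

/-- removing the part of a neutral density on a set where the potential is small -/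
theorem TFs.cut {γ : ℝ} (_hγ : 0 < γ) {z : ι → ℝ} {R : ι → E3} {ρ : E3 → ℝ} (h : TFs γ z R ρ)
    {S : Set E3} (hS : MeasurableSet S) {p q w : ℝ} (hp : ∀ᵐ x, x ∈ S → Vn z R x - pot ρ x ≤ p)
    (hp0 : 0 ≤ p)
    (hq : ∫ x, S.indicator ρ x ≤ q) (hw : ∀ x, pot (S.indicator ρ) x ≤ w) (hw0 : 0 ≤ w) :
    En γ z R (Sᶜ.indicator ρ) ≤ En γ z R ρ + 2/5 * (p * q) + 1/2 * (w * q) := by
  have hσ := md_ind h.md hS.compl
  have hr := md_ind h.md hS
  rw [h.breg hσ]
  have e1 : ∀ x, Sᶜ.indicator ρ x - ρ x = -(S.indicator ρ x) := by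
    intro x
    by_cases hx : x ∈ S
    · rw [indicator_of_mem hx, indicator_of_notMem (by simpa using hx)]; ring
    · rw [indicator_of_notMem hx, indicator_of_mem (by simpa using hx)]; ring
  have h1 : ∫ x, (Sᶜ.indicator ρ x - ρ x) * pot (fun y => Sᶜ.indicator ρ y - ρ y) x ≤ w * q := by
    simp only [e1]
    have e2 : (fun x => -(S.indicator ρ x) * pot (fun y => -(S.indicator ρ y)) x) =
        fun x => S.indicator ρ x * pot (S.indicator ρ) x := by
      funext x; rw [pot_neg]; ring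
    rw [e2]
    have h2 : ∫ x, S.indicator ρ x * pot (S.indicator ρ) x ≤ ∫ x, w * S.indicator ρ x :=
      integral_mono (pd_int _ _ hr.nice hr.nice) (hr.int.const_mul w) fun x => by
        have := mul_le_mul_of_nonneg_left (hw x) (hr.nonneg x)
        show S.indicator ρ x * pot (S.indicator ρ) x ≤ w * S.indicator ρ x
        linarith
    rw [integral_const_mul] at h2
    exact h2.trans (mul_le_mul_of_nonneg_left hq hw0)
  have h3 : γ * ∫ x, bg (ρ x) (Sᶜ.indicator ρ x) ≤ 2/5 * (p * q) := by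
    rw [← integral_const_mul]
    have h4 : ∫ x, γ * bg (ρ x) (Sᶜ.indicator ρ x) ≤ ∫ x, 2/5 * p * S.indicator ρ x := by
      refine integral_mono_ae ((bg_int h.md hσ).const_mul γ) (hr.int.const_mul _) ?_
      filter_upwards [h.eq, hp] with x hx hpx
      show γ * bg (ρ x) (Sᶜ.indicator ρ x) ≤ 2/5 * p * S.indicator ρ x
      by_cases hxS : x ∈ S
      · rw [indicator_of_mem hxS, indicator_of_notMem (by simpa using hxS)]
        have h5 := hpx hxS
        rw [← hx] at h5
        unfold bg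
        rw [Real.zero_rpow (by norm_num)]
        have e3 : ρ x ^ (5/3 : ℝ) = ρ x ^ (2/3 : ℝ) * ρ x := by
          rcases (h.md.nonneg x).eq_or_lt with h0 | h0
          · rw [← h0, Real.zero_rpow (by norm_num)]; simp
          · rw [show (5/3 : ℝ) = 2/3 + 1 by norm_num, Real.rpow_add h0, Real.rpow_one]
        rw [e3]
        have := mul_le_mul_of_nonneg_right h5 (h.md.nonneg x)
        linarith
      · rw [indicator_of_notMem hxS, indicator_of_mem (by simpa using hxS)]
        unfold bg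
        simp
    have e5 : ∫ x, 2/5 * p * S.indicator ρ x = 2/5 * p * ∫ x, S.indicator ρ x :=
      integral_const_mul _ _
    rw [e5] at h4
    refine h4.trans ?_
    have := mul_le_mul_of_nonneg_left hq hp0
    linarith
  linarith

/-! ### The smoothing kernel -/

/-- profile of `1/|x|` minus its ball average -/
noncomputable def hY (s t : ℝ) : ℝ := if 0 < t ∧ t < s then Yf s t else 0

lemma hY_meas (s : ℝ) : Measurable (hY s) :=
  Measurable.ite (measurableSet_Ioo (a := (0:ℝ)) (b := s)) (Yf_meas s) measurable_const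

lemma hY_eq {s r : ℝ} (hr : 0 < r) : hY s r = Yf s r := by
  unfold hY
  split_ifs with h
  · rfl
  · rw [Yf_zero]
    by_contra hc
    exact h ⟨hr, not_le.1 hc⟩

lemma hY_nonneg {s : ℝ} (hs : 0 < s) (t : ℝ) : 0 ≤ hY s t := by
  unfold hY
  split_ifs with h
  · exact Yf_nonneg hs h.1
  · exact le_rfl

lemma hY_int {s : ℝ} (hs : 0 < s) : IntegrableOn (fun t => t ^ 2 * hY s t) (Ioi 0) ∧
    ∫ t in Ioi (0:ℝ), t ^ 2 * hY s t = s ^ 2 / 10 := by
  have e : ∀ t ∈ Ioi (0:ℝ), t ^ 2 * hY s t =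
      (Iio s).indicator (fun t => t - 3 / (2 * s) * t ^ 2 + 1 / (2 * s ^ 3) * t ^ 4) t := by
    intro t ht
    have ht0 : (0:ℝ) < t := ht
    by_cases h : t < s
    · rw [indicator_of_mem (by exact h), hY_eq ht0, Yf_eq hs ht0 h]
      field_simp
      ring
    · rw [indicator_of_notMem (by exact h), hY_eq ht0, Yf_zero (not_lt.1 h), mul_zero]
  have hc : Continuous fun t : ℝ => t - 3 / (2 * s) * t ^ 2 + 1 / (2 * s ^ 3) * t ^ 4 := by fun_prop
  constructor
  · rw [integrableOn_congr_fun e measurableSet_Ioi, ← integrable_indicator_iff measurableSet_Ioi,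
      indicator_indicator, Ioi_inter_Iio, integrable_indicator_iff measurableSet_Ioo]
    exact hc.integrableOn_Icc.mono_set Ioo_subset_Icc_self
  · rw [setIntegral_congr_fun measurableSet_Ioi e, setIntegral_indicator measurableSet_Iio,
      Ioi_inter_Iio, ← integral_Ioc_eq_integral_Ioo, ← intervalIntegral.integral_of_le hs.le]
    have i1 : IntervalIntegrable (fun t : ℝ => t) volume 0 s := continuous_id.intervalIntegrable _ _
    have i2 : IntervalIntegrable (fun t : ℝ => 3 / (2 * s) * t ^ 2) volume 0 s :=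
      (by fun_prop : Continuous fun t : ℝ => 3 / (2 * s) * t ^ 2).intervalIntegrable _ _
    have i3 : IntervalIntegrable (fun t : ℝ => 1 / (2 * s ^ 3) * t ^ 4) volume 0 s :=
      (by fun_prop : Continuous fun t : ℝ => 1 / (2 * s ^ 3) * t ^ 4).intervalIntegrable _ _
    rw [intervalIntegral.integral_add (i1.sub i2) i3, intervalIntegral.integral_sub i1 i2,
      intervalIntegral.integral_const_mul, intervalIntegral.integral_const_mul, integral_id,
      integral_pow, integral_pow]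
    push_cast
    field_simp
    ring

lemma hY_md {s : ℝ} (hs : 0 < s) : MD (fun x : E3 => hY s ‖x‖) := by
  have hi : Integrable (fun x : E3 => hY s ‖x‖) := integrable_radial.2 (hY_int hs).1
  refine ⟨(hY_meas s).comp measurable_norm, fun x => hY_nonneg hs _, hi, ?_⟩
  have hi2 : Integrable (fun x : E3 => (fun t : ℝ => (Ioo 0 s).indicator (fun t => 1 / t ^ 2) t) ‖x‖) := by
    rw [integrable_radial]
    have e : ∀ t ∈ Ioi (0:ℝ), t ^ 2 * (Ioo 0 s).indicator (fun t => 1 / t ^ 2) t =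
        (Ioo 0 s).indicator (fun _ => (1:ℝ)) t := by
      intro t ht
      have ht0 : (0:ℝ) < t := ht
      by_cases h : t ∈ Ioo 0 s
      · rw [indicator_of_mem h, indicator_of_mem h]; field_simp
      · rw [indicator_of_notMem h, indicator_of_notMem h, mul_zero]
    rw [integrableOn_congr_fun e measurableSet_Ioi]
    exact ((integrable_indicator_iff measurableSet_Ioo).2
      (integrableOn_const (by simp))).integrableOn
  refine (hi.add hi2).mono' (((hY_meas s).comp measurable_norm).pow_const _).aestronglyMeasurable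
    (ae_of_all _ fun x => ?_)
  have h0 := hY_nonneg hs ‖x‖
  rw [Real.norm_of_nonneg (Real.rpow_nonneg h0 _)]
  show hY s ‖x‖ ^ (5/3 : ℝ) ≤ hY s ‖x‖ + (Ioo 0 s).indicator (fun t => 1 / t ^ 2) ‖x‖
  refine (FAf.pow_le_add h0).trans (add_le_add le_rfl ?_)
  unfold hY
  split_ifs with h
  · have h' : ‖x‖ ∈ Ioo 0 s := h
    rw [indicator_of_mem h', ← one_div_pow]
    exact pow_le_pow_left₀ (Yf_nonneg hs h.1) (Yf_le hs h.1.le) 2
  · have : (0:ℝ) ^ 2 = 0 := by norm_num
    rw [this]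
    exact indicator_nonneg (fun t _ => by positivity) _

/-- total mass of the kernel -/
noncomputable def kap (s : ℝ) : ℝ := 2/5 * Real.pi * s ^ 2

lemma kap_pos {s : ℝ} (hs : 0 < s) : 0 < kap s := by
  unfold kap; have := Real.pi_pos; positivity

lemma hY_mass {s : ℝ} (hs : 0 < s) : ∫ x : E3, hY s ‖x‖ = kap s := by
  rw [int_radial, (hY_int hs).2]; unfold kap; ring

lemma pot_hY {s : ℝ} (hs : 0 < s) {w : E3} (hw : s ≤ ‖w‖) :
    pot (fun y => hY s ‖y‖) w = kap s / ‖w‖ := by
  have h0 : 0 < ‖w‖ := lt_of_lt_of_le hs hw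
  have h1 := psi_radial (hY_meas s) (hY_md hs).int h0
  have h2 : ∫ t in Ioi ‖w‖, 4 * Real.pi * t / ‖w‖ * (t - ‖w‖) * hY s t = 0 := by
    rw [← integral_zero ℝ ℝ (μ := volume.restrict (Ioi ‖w‖))]
    refine setIntegral_congr_fun measurableSet_Ioi fun t ht => ?_
    have h3 : ‖w‖ < t := ht
    show 4 * Real.pi * t / ‖w‖ * (t - ‖w‖) * hY s t = 0
    rw [hY_eq (lt_trans h0 h3), Yf_zero (hw.trans h3.le), mul_zero]
  rw [h2, hY_mass hs] at h1
  linarith

end Pool.Agent.R999.Ex
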