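import Pool.Agent.R999.Up1

/-!
# Harmonic representation and interaction energies
-/

set_option autoImplicit false

namespace Pool.Agent.R999.Ex

open MeasureTheory Set Filter Topology Metric
open Pool.Agent.TH791.Cl Pool.Agent.TH791.Nw Pool.Agent.R999.Pot Pool.Agent.R999.MinP
open Pool.Agent.R999.Newton
open scoped ENNReal

variable {ι : Type*} [Fintype ι]

lemma gb_symm (s : ℝ) (x y : E3) : gb s x y = gb s y x := by
  unfold gb
  by_cases h : y ∈ ball x s
  · rw [indicator_of_mem h, indicator_of_mem (mem_ball_comm.1 h)]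
  · rw [indicator_of_notMem h, indicator_of_notMem fun h' => h (mem_ball_comm.1 h')]

lemma gb_meas2 (s : ℝ) : Measurable (fun p : E3 × E3 => gb s p.1 p.2) := by
  have : (fun p : E3 × E3 => gb s p.1 p.2) =
      {p : E3 × E3 | ‖p.2 - p.1‖ < s}.indicator fun _ => (4/3*Real.pi*s^3)⁻¹ := by
    funext p
    unfold gb
    by_cases h : ‖p.2 - p.1‖ < s
    · rw [indicator_of_mem (by rw [mem_ball, dist_eq_norm]; exact h), indicator_of_mem (by exact h)]
    · rw [indicator_of_notMem (by rw [mem_ball, dist_eq_norm]; exact h), indicator_of_notMem (by exact h)]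
  rw [this]
  refine measurable_const.indicator ?_
  exact measurableSet_lt (measurable_snd.sub measurable_fst).norm measurable_const

/-- ball averages -/
noncomputable def Pm (s : ℝ) (ψ : E3 → ℝ) (x : E3) : ℝ := ∫ y, ψ y * gb s x y

lemma Pm_meas {s : ℝ} {ψ : E3 → ℝ} (hψ : Measurable ψ) : Measurable (Pm s ψ) := by
  have h : StronglyMeasurable (Function.uncurry fun (x y : E3) => ψ y * gb s x y) :=
    ((hψ.comp measurable_snd).mul (gb_meas2 s)).stronglyMeasurable
  exact (h.integral_prod_right (ν := volume)).measurable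

lemma gb_le {s : ℝ} (hs : 0 < s) (x y : E3) : gb s x y ≤ (4/3*Real.pi*s^3)⁻¹ := by
  have hpi := Real.pi_pos
  unfold gb
  by_cases h : y ∈ ball x s
  · rw [indicator_of_mem h]
  · rw [indicator_of_notMem h]; positivity

lemma mul_gb_int {s : ℝ} (hs : 0 < s) {ψ : E3 → ℝ} (hψ : Integrable ψ) (x : E3) :
    Integrable (fun y => ψ y * gb s x y) := by
  refine (hψ.norm.mul_const ((4/3*Real.pi*s^3)⁻¹)).mono'
    (hψ.aestronglyMeasurable.mul (gb_meas s x).aestronglyMeasurable) (ae_of_all _ fun y => ?_)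
  rw [norm_mul, Real.norm_of_nonneg (gb_nonneg hs x y)]
  exact mul_le_mul_of_nonneg_left (gb_le hs x y) (norm_nonneg _)

lemma Pm_abs {s U : ℝ} (hs : 0 < s) {ψ : E3 → ℝ} (hψ : Integrable ψ)
    (hU : ∀ᵐ y, |ψ y| ≤ U) (x : E3) : |Pm s ψ x| ≤ U := by
  unfold Pm
  refine abs_integral_le_integral_abs.trans ?_
  have h1 : ∫ y, |ψ y * gb s x y| ≤ ∫ y, U * gb s x y := by
    refine integral_mono_ae (mul_gb_int hs hψ x).abs ((gb_int s x).const_mul U) ?_
    filter_upwards [hU] with y hy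
    show |ψ y * gb s x y| ≤ U * gb s x y
    rw [abs_mul, abs_of_nonneg (gb_nonneg hs x y)]
    exact mul_le_mul_of_nonneg_right hy (gb_nonneg hs x y)
  rwa [integral_const_mul, gb_total hs, mul_one] at h1

lemma Pm_zero {s r : ℝ} {ψ : E3 → ℝ} {Y : E3} (h0 : ∀ y, r ≤ ‖y - Y‖ → ψ y = 0) {x : E3}
    (hx : r + s ≤ ‖x - Y‖) : Pm s ψ x = 0 := by
  unfold Pm
  rw [← integral_zero E3 ℝ (μ := volume)]
  congr 1
  funext y
  by_cases h : y ∈ ball x s
  · rw [mem_ball, dist_eq_norm] at h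
    have : r ≤ ‖y - Y‖ := by
      have h1 := norm_add_le (x - y) (y - Y)
      rw [sub_add_sub_cancel, norm_sub_rev x y] at h1
      linarith
    rw [h0 y this]; simp
  · unfold gb
    rw [indicator_of_notMem h, mul_zero]

lemma nice_bdd {f : E3 → ℝ} (hf : Measurable f) {U r : ℝ} {Y : E3} (hU : ∀ᵐ x, |f x| ≤ U)
    (h0 : ∀ x, r ≤ ‖x - Y‖ → f x = 0) : Nice f := by
  have hfin : volume (ball Y r) < ∞ := measure_ball_lt_top
  have hi1 : Integrable ((ball Y r).indicator fun _ => U) :=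
    (integrable_indicator_iff measurableSet_ball).2 (integrableOn_const hfin.ne)
  have hi2 : Integrable ((ball Y r).indicator fun _ => U ^ (5/3 : ℝ)) :=
    (integrable_indicator_iff measurableSet_ball).2 (integrableOn_const hfin.ne)
  refine ⟨hf, hi1.mono' hf.aestronglyMeasurable ?_, hi2.mono' (hf.norm.pow_const _).aestronglyMeasurable ?_⟩
  · filter_upwards [hU] with x hx
    by_cases h : x ∈ ball Y r
    · rw [indicator_of_mem h]; exact hx
    · rw [mem_ball, dist_eq_norm, not_lt] at h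
      rw [h0 x h, norm_zero, indicator_of_notMem (by rw [mem_ball, dist_eq_norm, not_lt]; exact h)]
  · filter_upwards [hU] with x hx
    rw [Real.norm_of_nonneg (by positivity)]
    by_cases h : x ∈ ball Y r
    · rw [indicator_of_mem h]; exact Real.rpow_le_rpow (abs_nonneg _) hx (by norm_num)
    · rw [mem_ball, dist_eq_norm, not_lt] at h
      rw [h0 x h, abs_zero, Real.zero_rpow (by norm_num),
        indicator_of_notMem (by rw [mem_ball, dist_eq_norm, not_lt]; exact h)]

lemma pot_Pm {s : ℝ} (hs : 0 < s) {ψ : E3 → ℝ} (hψ : Nice ψ) (x : E3) :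
    pot (Pm s ψ) x = ∫ y, ψ y * Gf s ‖x - y‖ := by
  -- joint integrability
  have hm : Measurable (fun p : E3 × E3 => ψ p.1 * gb s p.1 p.2 / ‖x - p.2‖) :=
    ((hψ.1.comp measurable_fst).mul (gb_meas2 s)).div (measurable_const.sub measurable_snd).norm
  have hin : ∀ y : E3, ∫ t, gb s y t / ‖x - t‖ = Gf s ‖x - y‖ := fun y => pot_gb hs y x
  have hF : Integrable (fun p : E3 × E3 => ψ p.1 * gb s p.1 p.2 / ‖x - p.2‖)
      ((volume : Measure E3).prod volume) := by
    rw [integrable_prod_iff hm.aestronglyMeasurable]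
    constructor
    · refine Eventually.of_forall fun y => ?_
      obtain ⟨_, hB⟩ := nice_bound (gb s y) (gb_nice s y)
      refine ((hB x).1.const_mul (ψ y)).congr (ae_of_all _ fun t => ?_)
      show ψ y * (gb s y t / ‖x - t‖) = ψ y * gb s y t / ‖x - t‖
      ring
    · have e : (fun y : E3 => ∫ t, ‖ψ y * gb s y t / ‖x - t‖‖) =
          fun y => |ψ y| * Gf s ‖x - y‖ := by
        funext y
        rw [← hin y, ← integral_const_mul]
        congr 1
        funext t
        rw [norm_div, norm_mul, Real.norm_of_nonneg (gb_nonneg hs y t), norm_norm, Real.norm_eq_abs]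
        ring
      rw [e]
      refine (hψ.2.1.abs.mul_const (3 / (2 * s))).mono'
        (hψ.1.norm.mul ((Gf_meas s).comp (measurable_const.sub measurable_id).norm)).aestronglyMeasurable
        (ae_of_all _ fun y => ?_)
      rw [Real.norm_of_nonneg (mul_nonneg (abs_nonneg _) (Gf_nonneg hs (norm_nonneg _)))]
      exact mul_le_mul_of_nonneg_left (Gf_le hs) (abs_nonneg _)
  have hswap := integral_integral_swap (f := fun (y t : E3) => ψ y * gb s y t / ‖x - t‖) hF
  have e1 : pot (Pm s ψ) x = ∫ t, ∫ y, ψ y * gb s y t / ‖x - t‖ := by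
    unfold pot Pm
    congr 1
    funext t
    rw [← integral_div]
    congr 1
    funext y
    rw [gb_symm s t y]
  rw [e1, ← hswap]
  congr 1
  funext y
  rw [← hin y, ← integral_const_mul]
  congr 1
  funext t
  ring

/-- integrating an exterior potential against a kernel that sees it as harmonic -/
lemma mean_gen {z : ι → ℝ} {R : ι → E3} (hz : ∀ j, 0 ≤ z j) {σ f : E3 → ℝ} (hσ : Nice σ)
    (hf : Nice f) {c r : ℝ} {x : E3} (hpot : ∀ w, r ≤ ‖w - x‖ → pot f w = c / ‖w - x‖)
    (hR : ∀ j, 0 < z j → r ≤ ‖R j - x‖) (h0 : ∀ y, ‖y - x‖ < r → σ y = 0) :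
    ∫ y, (Vn z R y - pot σ y) * f y = c * (Vn z R x - pot σ x) := by
  rw [(phi_pair hσ hf).2]
  have e1 : ∑ j, z j * pot f (R j) = c * Vn z R x := by
    unfold Vn
    rw [Finset.mul_sum]
    refine Finset.sum_congr rfl fun j _ => ?_
    rcases (hz j).eq_or_lt with h | h
    · rw [← h]; simp
    · rw [hpot _ (hR j h), norm_sub_rev x (R j)]; ring
  have e2 : ∫ y, σ y * pot f y = c * pot σ x := by
    unfold pot
    rw [← integral_const_mul]
    congr 1
    funext y
    by_cases h : ‖y - x‖ < r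
    · rw [h0 y h]; simp
    · have := hpot y (not_lt.1 h)
      unfold pot at this
      rw [this, norm_sub_rev x y]; ring
  rw [e1, e2]; ring

/-- **Representation**: an exterior potential in a ball is the potential of a bounded density in the
surrounding annulus. -/
theorem represent {z : ι → ℝ} {R : ι → E3} (hz : ∀ j, 0 ≤ z j) {σ : E3 → ℝ} (hσ : Nice σ)
    {Y : E3} {s U : ℝ} (hs : 0 < s) (hR : ∀ j, 0 < z j → 4 * s ≤ ‖R j - Y‖)
    (h0 : ∀ y, ‖y - Y‖ < 4 * s → σ y = 0)
    (hU : ∀ᵐ x, ‖x - Y‖ < 2 * s → |Vn z R x - pot σ x| ≤ U) (hU0 : 0 ≤ U) :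
    ∃ g : E3 → ℝ, Nice g ∧ (∀ᵐ x, |g x| ≤ 2 * U / kap s) ∧ (∀ x, ‖x - Y‖ ≤ s → g x = 0) ∧
      (∀ x, 3 * s ≤ ‖x - Y‖ → g x = 0) ∧
      ∀ x, ‖x - Y‖ ≤ s → pot g x = Vn z R x - pot σ x := by
  set u : E3 → ℝ := fun x => Vn z R x - pot σ x with hu
  have hVm : Measurable (Vn z R) := by
    unfold Vn
    exact Finset.measurable_sum _ fun j _ =>
      measurable_const.div (measurable_id.sub measurable_const).norm
  have hum : Measurable u := hVm.sub (pot_cont hσ).measurable
  set ψ : E3 → ℝ := (ball Y (2 * s)).indicator u with hψd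
  have hψm : Measurable ψ := hum.indicator measurableSet_ball
  have hψU : ∀ᵐ x, |ψ x| ≤ U := by
    filter_upwards [hU] with x hx
    by_cases h : x ∈ ball Y (2 * s)
    · rw [hψd, indicator_of_mem h]
      exact hx (by rwa [mem_ball, dist_eq_norm] at h)
    · rw [hψd, indicator_of_notMem h, abs_zero]; exact hU0
  have hψ0 : ∀ x, 2 * s ≤ ‖x - Y‖ → ψ x = 0 := by
    intro x hx
    rw [hψd, indicator_of_notMem]
    rw [mem_ball, dist_eq_norm]; exact not_lt.2 hx
  have hψN : Nice ψ := nice_bdd hψm hψU hψ0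
  have hPU : ∀ x, |Pm s ψ x| ≤ U := Pm_abs hs hψN.2.1 hψU
  have hP0 : ∀ x, 3 * s ≤ ‖x - Y‖ → Pm s ψ x = 0 := fun x hx => Pm_zero hψ0 (by linarith)
  have hPN : Nice (Pm s ψ) := nice_bdd (Pm_meas hψm) (ae_of_all _ hPU) hP0
  have hk := kap_pos hs
  -- balls around points near the centre
  have hnear : ∀ x y : E3, ‖x - Y‖ ≤ s → ‖y - x‖ < s → ‖y - Y‖ < 2 * s := by
    intro x y hx hy
    have := norm_add_le (y - x) (x - Y)
    rw [sub_add_sub_cancel] at this
    linarith
  have hfarR : ∀ x, ‖x - Y‖ ≤ s → ∀ j, 0 < z j → s ≤ ‖R j - x‖ := by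
    intro x hx j hj
    have h1 := hR j hj
    have := norm_add_le (R j - x) (x - Y)
    rw [sub_add_sub_cancel] at this
    linarith
  have hfarσ : ∀ x, ‖x - Y‖ ≤ s → ∀ y, ‖y - x‖ < s → σ y = 0 := by
    intro x hx y hy
    refine h0 y ?_
    have := hnear x y hx hy
    linarith
  refine ⟨fun x => (kap s)⁻¹ * (ψ x - Pm s ψ x), nice_mul _ (nice_sub hψN hPN), ?_, ?_, ?_, ?_⟩
  · filter_upwards [hψU] with x hx
    rw [abs_mul, abs_of_pos (inv_pos.2 hk), inv_mul_le_iff₀ hk]
    have h1 := hPU x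
    have h2 : |ψ x - Pm s ψ x| ≤ |ψ x| + |Pm s ψ x| := abs_sub _ _
    have h3 : kap s * (2 * U / kap s) = 2 * U := by field_simp
    rw [h3]; linarith
  · intro x hx
    have hxb : x ∈ ball Y (2 * s) := by rw [mem_ball, dist_eq_norm]; linarith
    have e1 : ψ x = u x := by rw [hψd, indicator_of_mem hxb]
    have e2 : Pm s ψ x = u x := by
      have e3 : Pm s ψ x = ∫ y, u y * gb s x y := by
        unfold Pm
        congr 1
        funext y
        by_cases h : y ∈ ball x s
        · rw [mem_ball, dist_eq_norm] at h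
          have : y ∈ ball Y (2 * s) := by rw [mem_ball, dist_eq_norm]; exact hnear x y hx h
          rw [hψd, indicator_of_mem this]
        · unfold gb
          rw [indicator_of_notMem h]; simp
      rw [e3]
      have := mean_gen hz hσ (gb_nice s x) (c := 1) (r := s) (x := x) (fun w hw => by
        rw [pot_gb hs, Gf_far hw]) (hfarR x hx) (hfarσ x hx)
      rw [this, one_mul]
    show (kap s)⁻¹ * (ψ x - Pm s ψ x) = 0
    rw [e1, e2, sub_self, mul_zero]
  · intro x hx
    show (kap s)⁻¹ * (ψ x - Pm s ψ x) = 0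
    rw [hψ0 x (by linarith), hP0 x hx, sub_self, mul_zero]
  · intro x hx
    rw [pot_mul, pot_sub hψN hPN, pot_Pm hs hψN]
    obtain ⟨_, hB⟩ := nice_bound ψ hψN
    have hGi : Integrable (fun y => ψ y * Gf s ‖x - y‖) := by
      refine (hψN.2.1.abs.mul_const (3 / (2 * s))).mono'
        (hψm.mul ((Gf_meas s).comp (measurable_const.sub measurable_id).norm)).aestronglyMeasurable
        (ae_of_all _ fun y => ?_)
      rw [norm_mul, Real.norm_of_nonneg (Gf_nonneg hs (norm_nonneg _))]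
      exact mul_le_mul_of_nonneg_left (Gf_le hs) (norm_nonneg _)
    have e1 : pot ψ x - ∫ y, ψ y * Gf s ‖x - y‖ = ∫ y, u y * hY s ‖y - x‖ := by
      unfold pot
      rw [← integral_sub (hB x).1 hGi]
      refine integral_congr_ae ?_
      have hne : ∀ᵐ y : E3, y ≠ x := by
        have := (Set.countable_singleton x).ae_notMem (volume : Measure E3)
        filter_upwards [this] with y hy
        simpa using hy
      filter_upwards [hne] with y hy
      have hpos : 0 < ‖y - x‖ := norm_pos_iff.2 (sub_ne_zero.2 hy)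
      rw [hY_eq hpos, norm_sub_rev x y]
      by_cases h : ‖y - x‖ < s
      · have : y ∈ ball Y (2 * s) := by rw [mem_ball, dist_eq_norm]; exact hnear x y hx h
        rw [hψd, indicator_of_mem this]
        unfold Yf; ring
      · rw [Yf_zero (not_lt.1 h), Gf_far (not_lt.1 h)]; ring
    have e2 := mean_gen hz hσ (md_shift (hY_md hs) x).nice (c := kap s) (r := s) (x := x)
      (fun w hw => by
        rw [IonTF.pot_shift (fun y => hY s ‖y‖) x w]
        exact pot_hY hs hw) (hfarR x hx) (hfarσ x hx)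
    rw [e1]
    have e3 : ∫ y, u y * hY s ‖y - x‖ = kap s * (Vn z R x - pot σ x) := e2
    rw [e3, ← mul_assoc, inv_mul_cancel₀ hk.ne', one_mul]

/-- volume of a ball -/
lemma ball_vol (Y : E3) {r : ℝ} (hr : 0 < r) : (volume (ball Y r)).toReal = 4/3 * Real.pi * r ^ 3 := by
  have h := gb_total hr Y
  unfold gb at h
  rw [integral_indicator measurableSet_ball, setIntegral_const, smul_eq_mul] at h
  have hpi := Real.pi_pos
  have h1 : (volume.real (ball Y r)) = (volume (ball Y r)).toReal := rfl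
  rw [h1] at h
  field_simp at h
  linarith

/-- **Interaction bound.** -/
theorem interaction {ι1 ι2 : Type*} [Fintype ι1] [Fintype ι2] {z1 : ι1 → ℝ} {R1 : ι1 → E3}
    {z2 : ι2 → ℝ} {R2 : ι2 → E3} (hz1 : ∀ j, 0 ≤ z1 j) (hz2 : ∀ j, 0 ≤ z2 j) {σ1 σ2 : E3 → ℝ}
    (h1 : Nice σ1) (h2 : Nice σ2) {Y : E3} {s U W : ℝ} (hs : 0 < s) (hU0 : 0 ≤ U) (hW0 : 0 ≤ W)
    (hR1 : ∀ j, 0 < z1 j → 4 * s ≤ ‖R1 j - Y‖) (hR2 : ∀ j, 0 < z2 j → ‖R2 j - Y‖ ≤ s)
    (h10 : ∀ y, ‖y - Y‖ < 4 * s → σ1 y = 0) (h20 : ∀ y, s < ‖y - Y‖ → σ2 y = 0)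
    (hU : ∀ᵐ x, ‖x - Y‖ < 2 * s → |Vn z1 R1 x - pot σ1 x| ≤ U)
    (hW : ∀ᵐ x, s ≤ ‖x - Y‖ → |Vn z2 R2 x - pot σ2 x| ≤ W) :
    (∑ j, z2 j * (Vn z1 R1 (R2 j) - pot σ1 (R2 j))) - (∫ x, σ2 x * (Vn z1 R1 x - pot σ1 x)) ≤
      180 * s * (U * W) := by
  have hpi := Real.pi_pos
  obtain ⟨g, hg, hgU, hgin, hgout, hrep⟩ := represent hz1 h1 hs hR1 h10 hU hU0
  have e1 : ∑ j, z2 j * (Vn z1 R1 (R2 j) - pot σ1 (R2 j)) = ∑ j, z2 j * pot g (R2 j) := by
    refine Finset.sum_congr rfl fun j _ => ?_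
    rcases (hz2 j).eq_or_lt with h | h
    · rw [← h]; simp
    · rw [hrep _ (hR2 j h)]
  have e2 : ∫ x, σ2 x * (Vn z1 R1 x - pot σ1 x) = ∫ x, σ2 x * pot g x := by
    congr 1
    funext x
    by_cases h : ‖x - Y‖ ≤ s
    · rw [hrep x h]
    · rw [h20 x (not_le.1 h)]; simp
  obtain ⟨i1, v1⟩ := phi_pair (z := z2) (R := R2) h2 hg
  rw [e1, e2, ← v1]
  have hfin : volume (ball Y (3 * s)) < ∞ := measure_ball_lt_top
  have hi : Integrable ((ball Y (3 * s)).indicator fun _ => W * (2 * U / kap s)) :=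
    (integrable_indicator_iff measurableSet_ball).2 (integrableOn_const hfin.ne)
  have hk := kap_pos hs
  have h3 : ∫ x, (Vn z2 R2 x - pot σ2 x) * g x ≤
      ∫ x, (ball Y (3 * s)).indicator (fun _ => W * (2 * U / kap s)) x := by
    refine integral_mono_ae i1 hi ?_
    filter_upwards [hgU, hW] with x hx hWx
    show (Vn z2 R2 x - pot σ2 x) * g x ≤ (ball Y (3 * s)).indicator (fun _ => W * (2 * U / kap s)) x
    by_cases hb : x ∈ ball Y (3 * s)
    · rw [indicator_of_mem hb]
      rcases le_total ‖x - Y‖ s with h | h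
      · rw [hgin x h, mul_zero]; positivity
      · refine (le_abs_self _).trans ?_
        rw [abs_mul]
        exact mul_le_mul (hWx h) hx (abs_nonneg _) hW0
    · rw [indicator_of_notMem hb, hgout x (by
        rw [mem_ball, dist_eq_norm, not_lt] at hb; exact hb), mul_zero]
  refine h3.trans (le_of_eq ?_)
  rw [integral_indicator measurableSet_ball, setIntegral_const, smul_eq_mul]
  have h4 : volume.real (ball Y (3 * s)) = 4/3 * Real.pi * (3 * s) ^ 3 := ball_vol Y (by positivity)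
  rw [h4]
  unfold kap
  field_simp
  ring

end Pool.Agent.R999.Ex
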