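import Pool.Agent.R999.Up2

/-!
# Upper bound for the interaction of two neutral Thomas-Fermi systems
-/

set_option autoImplicit false

namespace Pool.Agent.R999.Ex

open MeasureTheory Set Filter Topology Metric
open Pool.Agent.TH791.Cl Pool.Agent.TH791.Nw Pool.Agent.R999.Pot Pool.Agent.R999.MinP
open Pool.Agent.R999.Newton
open scoped ENNReal

variable {ι : Type*} [Fintype ι]

/-- constant of the universal upper bound -/
noncomputable def Kc (γ : ℝ) : ℝ := Real.pi * A0 γ / 3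

lemma Kc_pos {γ : ℝ} (hγ : 0 < γ) : 0 < Kc γ := by
  unfold Kc
  have := Real.pi_pos
  have := A0_pos hγ
  positivity

lemma TFs.small {γ : ℝ} (hγ : 0 < γ) {z : ι → ℝ} (hz : ∀ j, 0 ≤ z j) {R : ι → E3}
    {ρ : E3 → ℝ} (h : TFs γ z R ρ) {r : ℝ} (hr : 0 < r) {x : E3}
    (hx : ∀ j, 0 < z j → r ≤ ‖x - R j‖) :
    Vn z R x - pot ρ x ≤ Fintype.card ι * (Kc γ / r ^ 4) := by
  classical
  have hS := h.upper hγ hz (S := Finset.univ.filter fun j => 0 < z j) (fun j hj => by simp [hj])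
    (x := x) (fun j hj => by
      have hj' : 0 < z j := by simpa using hj
      have := hx j hj'
      intro he
      rw [he, sub_self, norm_zero] at this
      linarith)
  refine hS.trans ?_
  have hK := Kc_pos hγ
  calc ∑ j ∈ Finset.univ.filter (fun j => 0 < z j), Real.pi * A0 γ / 3 / ‖x - R j‖ ^ 4
      ≤ ∑ j ∈ Finset.univ.filter (fun j => 0 < z j), Kc γ / r ^ 4 := by
        refine Finset.sum_le_sum fun j hj => ?_
        have hj' : 0 < z j := by simpa using hj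
        exact div_le_div_of_nonneg_left hK.le (by positivity)
          (pow_le_pow_left₀ hr.le (hx j hj') 4)
    _ = ((Finset.univ.filter fun j => 0 < z j).card : ℝ) * (Kc γ / r ^ 4) := by
        rw [Finset.sum_const, nsmul_eq_mul]
    _ ≤ _ := by
        refine mul_le_mul_of_nonneg_right ?_ (by positivity)
        exact_mod_cast Finset.card_le_univ _

lemma TFs.dens_le {γ : ℝ} (hγ : 0 < γ) {z : ι → ℝ} {R : ι → E3} {ρ : E3 → ℝ} (h : TFs γ z R ρ)
    {P : E3 → Prop} {b : E3 → ℝ} (hb : ∀ᵐ x, P x → Vn z R x - pot ρ x ≤ b x) :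
    ∀ᵐ x, P x → ρ x ≤ (b x / γ) ^ (3/2 : ℝ) := by
  filter_upwards [h.eq, hb, nuc_null R] with x hx hbx hne hP
  rw [pow_inv hγ (h.md.nonneg x) hx]
  exact Real.rpow_le_rpow (div_nonneg (h.phi_nonneg x fun j _ => hne j) hγ.le)
    (div_le_div_of_nonneg_right (hbx hP) hγ.le) (by norm_num)

lemma pow32_div {a r : ℝ} (ha : 0 ≤ a) (hr : 0 < r) : (a / r ^ 4) ^ (3/2 : ℝ) = a ^ (3/2 : ℝ) / r ^ 6 := by
  rw [Real.div_rpow ha (by positivity), ← Real.rpow_natCast r 4, ← Real.rpow_mul hr.le,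
    ← Real.rpow_natCast r 6]
  norm_num

noncomputable def cP1 (γ n : ℝ) : ℝ := n * Kc γ / 256
noncomputable def cD1 (γ n : ℝ) : ℝ := (cP1 γ n / γ) ^ (3/2 : ℝ)
noncomputable def cQ1 (γ n : ℝ) : ℝ := cD1 γ n * (256/3 * Real.pi)
noncomputable def cW1 (γ n : ℝ) : ℝ := cD1 γ n * (32 * Real.pi)
noncomputable def cP2 (γ n : ℝ) : ℝ := n * Kc γ * 16
noncomputable def cD2 (γ n : ℝ) : ℝ := (cP2 γ n / γ) ^ (3/2 : ℝ)
noncomputable def cQ2 (γ n : ℝ) : ℝ := cD2 γ n * (4/3 * Real.pi)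
noncomputable def cW2 (γ n : ℝ) : ℝ := cD2 γ n * Real.pi

/-- the constant of the upper bound -/
noncomputable def Cup (γ n1 n2 : ℝ) : ℝ :=
  2/5 * (cP1 γ n1 * cQ1 γ n1) + 1/2 * (cW1 γ n1 * cQ1 γ n1) +
  (2/5 * (cP2 γ n2 * cQ2 γ n2) + 1/2 * (cW2 γ n2 * cQ2 γ n2)) +
  180 * ((cP1 γ n1 + cW1 γ n1) * (cP2 γ n2 + cW2 γ n2))

lemma c_nonneg {γ n : ℝ} (hγ : 0 < γ) (hn : 0 ≤ n) : 0 ≤ cP1 γ n ∧ 0 ≤ cD1 γ n ∧ 0 ≤ cQ1 γ n ∧
    0 ≤ cW1 γ n ∧ 0 ≤ cP2 γ n ∧ 0 ≤ cD2 γ n ∧ 0 ≤ cQ2 γ n ∧ 0 ≤ cW2 γ n := by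
  have hK := Kc_pos hγ
  have hpi := Real.pi_pos
  have a1 : 0 ≤ cP1 γ n := by unfold cP1; positivity
  have a2 : 0 ≤ cD1 γ n := by unfold cD1; positivity
  have a3 : 0 ≤ cP2 γ n := by unfold cP2; positivity
  have a4 : 0 ≤ cD2 γ n := by unfold cD2; positivity
  refine ⟨a1, a2, ?_, ?_, a3, a4, ?_, ?_⟩
  · unfold cQ1; positivity
  · unfold cW1; positivity
  · unfold cQ2; positivity
  · unfold cW2; positivity

/-- potentials are monotone in the density -/
lemma pot_mono {f g : E3 → ℝ} (hf : Nice f) (hg : Nice g) (h : ∀ᵐ x, f x ≤ g x) (x : E3) :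
    pot f x ≤ pot g x := by
  obtain ⟨_, h1⟩ := nice_bound f hf
  obtain ⟨_, h2⟩ := nice_bound g hg
  refine integral_mono_ae (h1 x).1 (h2 x).1 ?_
  filter_upwards [h] with y hy
  exact div_le_div_of_nonneg_right hy (norm_nonneg _)

/-- removing a ball around a point far from the nuclei -/
lemma TFs.hole {γ : ℝ} (hγ : 0 < γ) {z : ι → ℝ} (hz : ∀ j, 0 ≤ z j) {R : ι → E3}
    {ρ : E3 → ℝ} (h : TFs γ z R ρ) {Y : E3} {s : ℝ} (hs : 0 < s)
    (hR : ∀ j, 0 < z j → 8 * s ≤ ‖R j - Y‖) :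
    En γ z R ((ball Y (4 * s))ᶜ.indicator ρ) ≤ En γ z R ρ +
      (2/5 * (cP1 γ (Fintype.card ι) * cQ1 γ (Fintype.card ι)) +
        1/2 * (cW1 γ (Fintype.card ι) * cQ1 γ (Fintype.card ι))) / s ^ 7 ∧
    ∀ᵐ x, ‖x - Y‖ < 2 * s → |Vn z R x - pot ((ball Y (4 * s))ᶜ.indicator ρ) x| ≤
      (cP1 γ (Fintype.card ι) + cW1 γ (Fintype.card ι)) / s ^ 4 := by
  set n : ℝ := (Fintype.card ι : ℝ) with hn
  have hn0 : 0 ≤ n := by positivity
  obtain ⟨c1, c2, c3, c4, -, -, -, -⟩ := c_nonneg (n := n) hγ hn0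
  have hpi := Real.pi_pos
  set S : Set E3 := ball Y (4 * s) with hS
  have hSm : MeasurableSet S := measurableSet_ball
  -- pointwise bound in the ball
  have hφ : ∀ x, x ∈ S → Vn z R x - pot ρ x ≤ cP1 γ n / s ^ 4 := by
    intro x hx
    rw [hS, mem_ball, dist_eq_norm] at hx
    have h1 := h.small hγ hz (r := 4 * s) (by positivity) (x := x) (fun j hj => by
      have h2 := hR j hj
      have h3 := norm_add_le (R j - x) (x - Y)
      rw [sub_add_sub_cancel] at h3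
      rw [norm_sub_rev x (R j)]
      linarith)
    refine h1.trans (le_of_eq ?_)
    rw [← hn]; unfold cP1; field_simp; ring
  have hρ : ∀ᵐ x, x ∈ S → ρ x ≤ cD1 γ n / s ^ 6 := by
    have h1 := h.dens_le hγ (P := fun x => x ∈ S) (b := fun _ => cP1 γ n / s ^ 4)
      (ae_of_all _ hφ)
    filter_upwards [h1] with x hx hxS
    refine (hx hxS).trans (le_of_eq ?_)
    rw [div_right_comm, pow32_div (by positivity) hs]
    rfl
  have hρS : MD (S.indicator ρ) := md_ind h.md hSm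
  have hb : Nice (fun x => (cD1 γ n / s ^ 6 * (4/3 * Real.pi * (4 * s) ^ 3)) * gb (4 * s) Y x) :=
    nice_mul _ (gb_nice _ _)
  have hle : ∀ᵐ x, S.indicator ρ x ≤
      (cD1 γ n / s ^ 6 * (4/3 * Real.pi * (4 * s) ^ 3)) * gb (4 * s) Y x := by
    filter_upwards [hρ] with x hx
    unfold gb
    by_cases hxS : x ∈ S
    · rw [indicator_of_mem hxS, indicator_of_mem (by rw [← hS]; exact hxS)]
      refine (hx hxS).trans (le_of_eq ?_)
      field_simp
    · rw [indicator_of_notMem hxS, indicator_of_notMem (by rw [← hS]; exact hxS), mul_zero]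
  have hq : ∫ x, S.indicator ρ x ≤ cQ1 γ n / s ^ 3 := by
    have := integral_mono_ae hρS.int hb.2.1 hle
    rw [integral_const_mul, gb_total (by positivity)] at this
    refine this.trans (le_of_eq ?_)
    unfold cQ1; field_simp; ring
  have hw : ∀ x, pot (S.indicator ρ) x ≤ cW1 γ n / s ^ 4 := by
    intro x
    have h1 := pot_mono hρS.nice hb hle x
    rw [pot_mul, pot_gb (by positivity)] at h1
    have h2 : Gf (4 * s) ‖x - Y‖ ≤ 3 / (2 * (4 * s)) := Gf_le (by positivity)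
    have h3 := mul_le_mul_of_nonneg_left h2
      (show 0 ≤ cD1 γ n / s ^ 6 * (4/3 * Real.pi * (4 * s) ^ 3) by positivity)
    refine (h1.trans h3).trans (le_of_eq ?_)
    unfold cW1; field_simp; ring
  constructor
  · have h1 := h.cut hγ hSm (p := cP1 γ n / s ^ 4) (q := cQ1 γ n / s ^ 3) (w := cW1 γ n / s ^ 4)
      (ae_of_all _ hφ) (by positivity) hq hw (by positivity)
    refine h1.trans (le_of_eq ?_)
    field_simp
    ring
  · filter_upwards [nuc_null R] with x hne hx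
    have hxS : x ∈ S := by rw [hS, mem_ball, dist_eq_norm]; linarith
    have e : pot (Sᶜ.indicator ρ) x = pot ρ x - pot (S.indicator ρ) x := by
      rw [← pot_sub h.md.nice hρS.nice]
      congr 1
      funext y
      by_cases hy : y ∈ S
      · rw [indicator_of_notMem (by simpa using hy), indicator_of_mem hy, sub_self]
      · rw [indicator_of_mem (by simpa using hy), indicator_of_notMem hy, sub_zero]
    rw [e]
    have h1 := hφ x hxS
    have h2 := h.phi_nonneg x fun j _ => hne j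
    have h3 := hw x
    have h4 := pot_nonneg hρS.nonneg x
    rw [abs_of_nonneg (by linarith), add_div]
    linarith

/-- restricting to a ball containing the nuclei -/
lemma TFs.inner {γ : ℝ} (hγ : 0 < γ) {z : ι → ℝ} (hz : ∀ j, 0 ≤ z j) {R : ι → E3}
    {ρ : E3 → ℝ} (h : TFs γ z R ρ) {Y : E3} {s : ℝ} (hs : 0 < s)
    (hR : ∀ j, 0 < z j → ‖R j - Y‖ ≤ s / 2) :
    En γ z R ((closedBall Y s).indicator ρ) ≤ En γ z R ρ +
      (2/5 * (cP2 γ (Fintype.card ι) * cQ2 γ (Fintype.card ι)) +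
        1/2 * (cW2 γ (Fintype.card ι) * cQ2 γ (Fintype.card ι))) / s ^ 7 ∧
    ∀ᵐ x, s ≤ ‖x - Y‖ → |Vn z R x - pot ((closedBall Y s).indicator ρ) x| ≤
      (cP2 γ (Fintype.card ι) + cW2 γ (Fintype.card ι)) / s ^ 4 := by
  set n : ℝ := (Fintype.card ι : ℝ) with hn
  have hn0 : 0 ≤ n := by positivity
  obtain ⟨-, -, -, -, c1, c2, c3, c4⟩ := c_nonneg (n := n) hγ hn0
  have hpi := Real.pi_pos
  set S : Set E3 := (closedBall Y s)ᶜ with hS
  have hSm : MeasurableSet S := measurableSet_closedBall.compl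
  have hSc : Sᶜ = closedBall Y s := compl_compl _
  -- pointwise bound outside
  have hφ' : ∀ x, s ≤ ‖x - Y‖ → Vn z R x - pot ρ x ≤ cP2 γ n / ‖x - Y‖ ^ 4 := by
    intro x hx
    have hx0 : 0 < ‖x - Y‖ := lt_of_lt_of_le hs hx
    have h1 := h.small hγ hz (r := ‖x - Y‖ / 2) (by positivity) (x := x) (fun j hj => by
      have h2 := hR j hj
      have h3 := norm_add_le (x - R j) (R j - Y)
      rw [sub_add_sub_cancel] at h3
      linarith)
    refine h1.trans (le_of_eq ?_)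
    rw [← hn]; unfold cP2; field_simp; ring
  have hφ : ∀ x, s ≤ ‖x - Y‖ → Vn z R x - pot ρ x ≤ cP2 γ n / s ^ 4 := by
    intro x hx
    refine (hφ' x hx).trans ?_
    exact div_le_div_of_nonneg_left c1 (by positivity) (pow_le_pow_left₀ hs.le hx 4)
  have hmem : ∀ x, x ∈ S → s ≤ ‖x - Y‖ := by
    intro x hx
    rw [hS, mem_compl_iff, mem_closedBall, dist_eq_norm, not_le] at hx
    exact hx.le
  have hρ : ∀ᵐ x, x ∈ S → ρ x ≤ cD2 γ n / ‖x - Y‖ ^ 6 := by
    have h1 := h.dens_le hγ (P := fun x => x ∈ S) (b := fun x => cP2 γ n / ‖x - Y‖ ^ 4)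
      (ae_of_all _ fun x hx => hφ' x (hmem x hx))
    filter_upwards [h1] with x hx hxS
    refine (hx hxS).trans (le_of_eq ?_)
    rw [div_right_comm, pow32_div (by positivity) (lt_of_lt_of_le hs (hmem x hxS))]
    rfl
  have hρS : MD (S.indicator ρ) := md_ind h.md hSm
  have hg := gU_md c2 hs
  have hb : MD (fun x => gU (cD2 γ n) s ‖x - Y‖) := md_shift hg Y
  have hle : ∀ᵐ x, S.indicator ρ x ≤ gU (cD2 γ n) s ‖x - Y‖ := by
    filter_upwards [hρ] with x hx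
    by_cases hxS : x ∈ S
    · rw [indicator_of_mem hxS]
      unfold gU
      rw [if_neg (not_lt.2 (hmem x hxS))]
      exact hx hxS
    · rw [indicator_of_notMem hxS]; exact gU_nonneg c2 _
  have hq : ∫ x, S.indicator ρ x ≤ cQ2 γ n / s ^ 3 := by
    have h1 := integral_mono_ae hρS.int hb.int hle
    have h2 : ∫ x, gU (cD2 γ n) s ‖x - Y‖ = ∫ x : E3, gU (cD2 γ n) s ‖x‖ :=
      integral_sub_right_eq_self (μ := volume) (fun x : E3 => gU (cD2 γ n) s ‖x‖) Y
    rw [h2, gU_mass hs] at h1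
    refine h1.trans (le_of_eq ?_)
    unfold cQ2; field_simp
  have hpotg : ∀ x : E3, pot (fun y => gU (cD2 γ n) s ‖y‖) x ≤ cW2 γ n / s ^ 4 := by
    intro x
    have e1 : pot (fun y => gU (cD2 γ n) s ‖y‖) x =
        ∫ t in Ioi (0:ℝ), kx ‖x‖ t * gU (cD2 γ n) s t := pot_radial (gU_meas _ _) x
    obtain ⟨a1, b1⟩ := IonTF.tailpow (k := 4) (by norm_num) hs
    have hsub : Ioi (0:ℝ) ∩ Ici s = Ici s := inter_eq_self_of_subset_right
      fun t ht => lt_of_lt_of_le hs ht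
    have hbi : IntegrableOn (fun t : ℝ => 4 * Real.pi * cD2 γ n * (1 / t ^ (4 + 1))) (Ici s) := by
      rw [integrableOn_Ici_iff_integrableOn_Ioi]; exact a1.const_mul _
    have hbi' : IntegrableOn ((Ici s).indicator fun t : ℝ => 4 * Real.pi * cD2 γ n * (1 / t ^ (4 + 1)))
        (Ioi 0) := ((integrable_indicator_iff measurableSet_Ici).2 hbi).integrableOn
    have hpt : ∀ t ∈ Ioi (0:ℝ), kx ‖x‖ t * gU (cD2 γ n) s t ≤
        (Ici s).indicator (fun t : ℝ => 4 * Real.pi * cD2 γ n * (1 / t ^ (4 + 1))) t := by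
      intro t ht
      have ht0 : (0:ℝ) < t := ht
      unfold gU
      by_cases hts : t < s
      · rw [if_pos hts, indicator_of_notMem (by simpa using hts), mul_zero]
      · rw [if_neg hts, indicator_of_mem (by simpa using hts)]
        have h1 := IonTF.kx_le ht0 (norm_nonneg x)
        have h2 := mul_le_mul_of_nonneg_right h1 (show 0 ≤ cD2 γ n / t ^ 6 by positivity)
        refine h2.trans (le_of_eq ?_)
        field_simp
        ring
    have hint : IntegrableOn (fun t => kx ‖x‖ t * gU (cD2 γ n) s t) (Ioi 0) := by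
      refine Integrable.mono' hbi' ((kx_meas _).mul (gU_meas _ _)).aestronglyMeasurable ?_
      filter_upwards [ae_restrict_mem measurableSet_Ioi] with t ht
      rw [Real.norm_of_nonneg (mul_nonneg (kx_nonneg (norm_nonneg x)) (gU_nonneg c2 t))]
      exact hpt t ht
    rw [e1]
    refine (setIntegral_mono_on hint hbi' measurableSet_Ioi hpt).trans ?_
    rw [setIntegral_indicator measurableSet_Ici, hsub, integral_Ici_eq_integral_Ioi,
      integral_const_mul, b1]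
    refine le_of_eq ?_
    unfold cW2
    push_cast
    field_simp
  have hw : ∀ x, pot (S.indicator ρ) x ≤ cW2 γ n / s ^ 4 := by
    intro x
    refine (pot_mono hρS.nice hb.nice hle x).trans ?_
    rw [IonTF.pot_shift (fun y => gU (cD2 γ n) s ‖y‖) Y x]
    exact hpotg _
  constructor
  · have h1 := h.cut hγ hSm (p := cP2 γ n / s ^ 4) (q := cQ2 γ n / s ^ 3) (w := cW2 γ n / s ^ 4)
      (ae_of_all _ fun x hx => hφ x (hmem x hx)) (by positivity) hq hw (by positivity)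
    rw [hSc] at h1
    refine h1.trans (le_of_eq ?_)
    field_simp
    ring
  · filter_upwards [nuc_null R] with x hne hx
    have e : pot ((closedBall Y s).indicator ρ) x = pot ρ x - pot (S.indicator ρ) x := by
      rw [← pot_sub h.md.nice hρS.nice]
      congr 1
      funext y
      by_cases hy : y ∈ closedBall Y s
      · rw [indicator_of_mem hy, indicator_of_notMem (by rw [hS]; simpa using hy), sub_zero]
      · rw [indicator_of_notMem hy, indicator_of_mem (by rw [hS]; simpa using hy), sub_self]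
    rw [e]
    have h1 := hφ x hx
    have h2 := h.phi_nonneg x fun j _ => hne j
    have h3 := hw x
    have h4 := pot_nonneg hρS.nonneg x
    rw [abs_of_nonneg (by linarith), add_div]
    linarith

/-- energy of a sum of two densities with disjoint supports in a combined nuclear potential -/
lemma En_split {ι1 ι2 : Type*} [Fintype ι1] [Fintype ι2] {γ : ℝ} {z : ι → ℝ} {R : ι → E3}
    {z1 : ι1 → ℝ} {R1 : ι1 → E3} {z2 : ι2 → ℝ} {R2 : ι2 → E3}
    (hV : ∀ x, Vn z R x = Vn z1 R1 x + Vn z2 R2 x) {σ1 σ2 : E3 → ℝ} (h1 : MD σ1) (h2 : MD σ2) :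
    En γ z R (fun x => σ1 x + σ2 x) + ∑ j, z2 j * Vn z1 R1 (R2 j) =
      En γ z1 R1 σ1 + En γ z2 R2 σ2 +
      3/5 * γ * ((∫ x, (σ1 x + σ2 x) ^ (5/3 : ℝ)) - (∫ x, σ1 x ^ (5/3 : ℝ)) -
        ∫ x, σ2 x ^ (5/3 : ℝ)) +
      ((∑ j, z2 j * (Vn z1 R1 (R2 j) - pot σ1 (R2 j))) -
        ∫ x, σ2 x * (Vn z1 R1 x - pot σ1 x)) := by
  have hN := nice_add h1.nice h2.nice
  have e1 : ∑ j, z j * pot (fun x => σ1 x + σ2 x) (R j) =
      (∑ j, z1 j * pot σ1 (R1 j)) + (∑ j, z2 j * pot σ1 (R2 j)) +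
      ((∫ x, σ2 x * Vn z1 R1 x) + ∑ j, z2 j * pot σ2 (R2 j)) := by
    rw [← (Vn_mul_int hN z R).2, ← (Vn_mul_int h1.nice z1 R1).2, ← (Vn_mul_int h1.nice z2 R2).2,
      ← (Vn_mul_int h2.nice z2 R2).2]
    have c1 := (Vn_mul_int h1.nice z1 R1).1
    have c2 := (Vn_mul_int h1.nice z2 R2).1
    have c3 : Integrable (fun x => σ2 x * Vn z1 R1 x) :=
      (Vn_mul_int h2.nice z1 R1).1.congr (ae_of_all _ fun x => mul_comm _ _)
    have c4 := (Vn_mul_int h2.nice z2 R2).1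
    have c12 : Integrable (fun x => Vn z1 R1 x * σ1 x + Vn z2 R2 x * σ1 x) := c1.add c2
    have c34 : Integrable (fun x => σ2 x * Vn z1 R1 x + Vn z2 R2 x * σ2 x) := c3.add c4
    rw [← integral_add c1 c2, ← integral_add c3 c4, ← integral_add c12 c34]
    congr 1
    funext x
    rw [hV]; ring
  have e2 := coul_add h1.nice h2.nice
  have c3 : Integrable (fun x => σ2 x * Vn z1 R1 x) :=
    (Vn_mul_int h2.nice z1 R1).1.congr (ae_of_all _ fun x => mul_comm _ _)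
  have c5 := pd_int σ2 σ1 h2.nice h1.nice
  have e3 : ∫ x, σ2 x * (Vn z1 R1 x - pot σ1 x) =
      (∫ x, σ2 x * Vn z1 R1 x) - ∫ x, σ1 x * pot σ2 x := by
    rw [pd_swap σ1 σ2 h1.nice h2.nice, ← integral_sub c3 c5]
    congr 1; funext x; ring
  have e4 : ∑ j, z2 j * (Vn z1 R1 (R2 j) - pot σ1 (R2 j)) =
      (∑ j, z2 j * Vn z1 R1 (R2 j)) - ∑ j, z2 j * pot σ1 (R2 j) := by
    rw [← Finset.sum_sub_distrib]
    exact Finset.sum_congr rfl fun j _ => by ring
  unfold En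
  rw [e1, e2, e3, e4]
  ring

/-- **Upper bound for the interaction of two neutral systems.** -/
theorem upper2 {ι1 ι2 : Type*} [Fintype ι1] [Fintype ι2] {γ : ℝ} (hγ : 0 < γ) {z : ι → ℝ}
    {R : ι → E3} {z1 : ι1 → ℝ} {R1 : ι1 → E3} {z2 : ι2 → ℝ} {R2 : ι2 → E3}
    (hz1 : ∀ j, 0 ≤ z1 j) (hz2 : ∀ j, 0 ≤ z2 j) {ρ ρ1 ρ2 : E3 → ℝ} (T : TFs γ z R ρ)
    (T1 : TFs γ z1 R1 ρ1) (T2 : TFs γ z2 R2 ρ2)
    (hV : ∀ x, Vn z R x = Vn z1 R1 x + Vn z2 R2 x) {Y : E3} {s : ℝ} (hs : 0 < s)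
    (hR1 : ∀ j, 0 < z1 j → 8 * s ≤ ‖R1 j - Y‖) (hR2 : ∀ j, 0 < z2 j → ‖R2 j - Y‖ ≤ s / 2) :
    En γ z R ρ + ∑ j, z2 j * Vn z1 R1 (R2 j) ≤ En γ z1 R1 ρ1 + En γ z2 R2 ρ2 +
      Cup γ (Fintype.card ι1) (Fintype.card ι2) / s ^ 7 := by
  obtain ⟨a1, a2⟩ := T1.hole hγ hz1 hs hR1
  obtain ⟨b1, b2⟩ := T2.inner hγ hz2 hs hR2
  set σ1 := (ball Y (4 * s))ᶜ.indicator ρ1 with hσ1
  set σ2 := (closedBall Y s).indicator ρ2 with hσ2
  have m1 : MD σ1 := md_ind T1.md measurableSet_ball.compl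
  have m2 : MD σ2 := md_ind T2.md measurableSet_closedBall
  set n1 : ℝ := (Fintype.card ι1 : ℝ) with hn1
  set n2 : ℝ := (Fintype.card ι2 : ℝ) with hn2
  obtain ⟨c1, c2, c3, c4, -, -, -, -⟩ := c_nonneg (n := n1) hγ (by positivity)
  obtain ⟨-, -, -, -, d1, d2, d3, d4⟩ := c_nonneg (n := n2) hγ (by positivity)
  have hsum : MD (fun x => σ1 x + σ2 x) :=
    Nice.md (nice_add m1.nice m2.nice) fun x => add_nonneg (m1.nonneg x) (m2.nonneg x)
  have h1 := T.min hγ hsum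
  have h2 := En_split (γ := γ) hV m1 m2
  -- disjoint supports
  have hdis : ∫ x, (σ1 x + σ2 x) ^ (5/3 : ℝ) = (∫ x, σ1 x ^ (5/3 : ℝ)) + ∫ x, σ2 x ^ (5/3 : ℝ) := by
    rw [← integral_add m1.int_pow m2.int_pow]
    congr 1
    funext x
    by_cases hx : x ∈ closedBall Y s
    · have : σ1 x = 0 := by
        rw [hσ1, indicator_of_notMem]
        rw [mem_compl_iff, not_not, mem_ball]
        rw [mem_closedBall] at hx
        linarith
      rw [this, Real.zero_rpow (by norm_num), zero_add, zero_add]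
    · have : σ2 x = 0 := by rw [hσ2, indicator_of_notMem hx]
      rw [this, Real.zero_rpow (by norm_num), add_zero, add_zero]
  have h3 := interaction hz1 hz2 m1.nice m2.nice (Y := Y) (s := s)
    (U := (cP1 γ n1 + cW1 γ n1) / s ^ 4) (W := (cP2 γ n2 + cW2 γ n2) / s ^ 4) hs (by positivity)
    (by positivity) (fun j hj => by have := hR1 j hj; linarith)
    (fun j hj => by have := hR2 j hj; linarith)
    (fun y hy => by
      rw [hσ1, indicator_of_notMem]
      rw [mem_compl_iff, not_not, mem_ball, dist_eq_norm]; exact hy)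
    (fun y hy => by
      rw [hσ2, indicator_of_notMem]
      rw [mem_closedBall, dist_eq_norm, not_le]; exact hy) a2 b2
  have e : 180 * s * ((cP1 γ n1 + cW1 γ n1) / s ^ 4 * ((cP2 γ n2 + cW2 γ n2) / s ^ 4)) =
      180 * ((cP1 γ n1 + cW1 γ n1) * (cP2 γ n2 + cW2 γ n2)) / s ^ 7 := by
    field_simp
  rw [e] at h3
  have e2 : Cup γ n1 n2 / s ^ 7 =
      (2/5 * (cP1 γ n1 * cQ1 γ n1) + 1/2 * (cW1 γ n1 * cQ1 γ n1)) / s ^ 7 +
      (2/5 * (cP2 γ n2 * cQ2 γ n2) + 1/2 * (cW2 γ n2 * cQ2 γ n2)) / s ^ 7 +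
      180 * ((cP1 γ n1 + cW1 γ n1) * (cP2 γ n2 + cW2 γ n2)) / s ^ 7 := by
    unfold Cup; ring
  rw [e2]
  rw [hdis] at h2
  have e3 : 3/5 * γ * ((∫ x, σ1 x ^ (5/3 : ℝ)) + (∫ x, σ2 x ^ (5/3 : ℝ)) -
      (∫ x, σ1 x ^ (5/3 : ℝ)) - ∫ x, σ2 x ^ (5/3 : ℝ)) = 0 := by ring
  rw [e3] at h2
  linarith

end Pool.Agent.R999.Ex
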